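import Mathlib

/-!
# Schwarz lemmas for even functions
-/

open Filter Metric Asymptotics
open scoped Topology

namespace Pool.Agent.N988.MK

noncomputable section

lemma even_deriv {g : ℂ → ℂ} {ρ : ℝ} (hρ : 0 < ρ) (hd : DifferentiableOn ℂ g (ball 0 ρ))
    (he : ∀ ζ ∈ ball (0 : ℂ) ρ, g (-ζ) = g ζ) : HasDerivAt g 0 0 := by
  have h0 : ball (0 : ℂ) ρ ∈ 𝓝 (0 : ℂ) := ball_mem_nhds _ hρ
  have h1 : HasDerivAt g (deriv g 0) 0 := (hd.differentiableAt h0).hasDerivAt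
  have h2 : HasDerivAt (fun ζ => g (-ζ)) (-deriv g 0) 0 := by
    have h3 : HasDerivAt g (deriv g 0) (-0) := by rwa [neg_zero]
    exact (h3.scomp (0 : ℂ) (hasDerivAt_neg (0 : ℂ))).congr_deriv (by simp)
  have h3 : (fun ζ => g (-ζ)) =ᶠ[𝓝 0] g := by
    filter_upwards [h0] with ζ hζ
    exact he ζ hζ
  have h4 := (h2.congr_of_eventuallyEq h3.symm).unique h1
  have h5 : deriv g 0 = 0 := by
    have : (2 : ℂ) * deriv g 0 = 0 := by linear_combination -h4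
    simpa using this
  rwa [h5] at h1

/-- an even function which vanishes at `0` -/
lemma even_schw {g : ℂ → ℂ} {ρ S : ℝ} (hd : DifferentiableOn ℂ g (ball 0 ρ))
    (he : ∀ ζ ∈ ball (0 : ℂ) ρ, g (-ζ) = g ζ) (h0 : g 0 = 0)
    (hb : ∀ ζ ∈ ball (0 : ℂ) ρ, ‖g ζ‖ ≤ S) {ζ : ℂ} (hζ : ζ ∈ ball (0 : ℂ) ρ) :
    ‖g ζ‖ ≤ S * (‖ζ‖ / ρ) ^ 2 := by
  have hρ : 0 < ρ := nonempty_ball.1 ⟨ζ, hζ⟩
  have h1 := even_deriv hρ hd he
  have hm : Set.MapsTo g (ball 0 ρ) (closedBall (g 0) S) := fun z hz => by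
    rw [h0, mem_closedBall_zero_iff]; exact hb z hz
  have hn : (g · - g 0) =o[𝓝 0] (fun w : ℂ => ‖w - 0‖ ^ 1) := by
    have := h1.isLittleO
    simp only [smul_zero, sub_zero, pow_one] at this ⊢
    exact this.norm_right
  have h2 := Complex.dist_le_mul_div_pow_of_mapsTo_ball_of_isLittleO hd hm hn hζ
  rw [h0, dist_zero_right, dist_zero_right] at h2
  exact h2

/-- the quadratic part of an even function which vanishes at `0` -/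
theorem even_quad {g : ℂ → ℂ} {ρ S : ℝ} (hρ : 0 < ρ) (hd : DifferentiableOn ℂ g (ball 0 ρ))
    (he : ∀ ζ ∈ ball (0 : ℂ) ρ, g (-ζ) = g ζ) (h0 : g 0 = 0)
    (hb : ∀ ζ ∈ ball (0 : ℂ) ρ, ‖g ζ‖ ≤ S) :
    ∃ a : ℂ, ‖a‖ ≤ S / ρ ^ 2 ∧ ∀ ζ ∈ ball (0 : ℂ) ρ, ‖g ζ - a * ζ ^ 2‖ ≤ 2 * S * (‖ζ‖ / ρ) ^ 4 := by
  have hS : 0 ≤ S := (norm_nonneg _).trans (hb 0 (mem_ball_self hρ))
  have hnh : ball (0 : ℂ) ρ ∈ 𝓝 (0 : ℂ) := ball_mem_nhds _ hρ
  have h1 := even_deriv hρ hd he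
  set u : ℂ → ℂ := dslope (dslope g 0) 0 with hu
  have hdu : DifferentiableOn ℂ u (ball 0 ρ) :=
    (Complex.differentiableOn_dslope hnh).2 ((Complex.differentiableOn_dslope hnh).2 hd)
  have hu1 : ∀ ζ : ℂ, ζ ≠ 0 → u ζ = g ζ / ζ ^ 2 := by
    intro ζ hζ
    rw [hu, dslope_of_ne _ hζ, slope_def_field, dslope_same, dslope_of_ne _ hζ, slope_def_field,
      h1.deriv, h0]
    field_simp
    ring
  have hgu : ∀ ζ : ℂ, g ζ = ζ ^ 2 * u ζ := by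
    intro ζ
    by_cases hζ : ζ = 0
    · rw [hζ, h0]; ring
    · rw [hu1 ζ hζ]; field_simp
  have heu : ∀ ζ ∈ ball (0 : ℂ) ρ, u (-ζ) = u ζ := by
    intro ζ hζ
    by_cases h : ζ = 0
    · rw [h, neg_zero]
    · rw [hu1 _ (neg_ne_zero.2 h), hu1 _ h, he ζ hζ, neg_sq]
  have hub : ∀ ζ ∈ ball (0 : ℂ) ρ, ζ ≠ 0 → ‖u ζ‖ ≤ S / ρ ^ 2 := by
    intro ζ hζ h
    have h2 := even_schw hd he h0 hb hζ
    rw [hu1 ζ h, norm_div, norm_pow]
    have h3 : 0 < ‖ζ‖ ^ 2 := by have := norm_pos_iff.2 h; positivity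
    rw [div_le_iff₀ h3]
    calc ‖g ζ‖ ≤ S * (‖ζ‖ / ρ) ^ 2 := h2
      _ = S / ρ ^ 2 * ‖ζ‖ ^ 2 := by ring
  have hu0 : ‖u 0‖ ≤ S / ρ ^ 2 := by
    have hc : ContinuousAt (fun ζ => ‖u ζ‖) 0 :=
      (hdu.differentiableAt hnh).continuousAt.norm
    have hc' : Tendsto (fun ζ => ‖u ζ‖) (𝓝[≠] (0 : ℂ)) (𝓝 ‖u 0‖) := hc.mono_left nhdsWithin_le_nhds
    refine le_of_tendsto hc' ?_
    filter_upwards [self_mem_nhdsWithin, mem_nhdsWithin_of_mem_nhds hnh] with ζ h2 h3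
    exact hub ζ h3 h2
  refine ⟨u 0, hu0, fun ζ hζ => ?_⟩
  obtain ⟨k, hk⟩ : ∃ k : ℂ → ℂ, k = fun ζ => g ζ - u 0 * ζ ^ 2 := ⟨_, rfl⟩
  have hk0 : k 0 = 0 := by rw [hk]; simp [h0]
  have hkd : DifferentiableOn ℂ k (ball 0 ρ) := by
    rw [hk]
    exact hd.sub ((differentiable_id.pow 2).const_mul (u 0)).differentiableOn
  have hkb : ∀ ζ ∈ ball (0 : ℂ) ρ, ‖k ζ‖ ≤ 2 * S := by
    intro ζ hζ
    rw [hk]
    refine (norm_sub_le _ _).trans ?_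
    have h2 := hb ζ hζ
    have h3 : ‖u 0 * ζ ^ 2‖ ≤ S := by
      rw [norm_mul, norm_pow]
      rw [mem_ball_zero_iff] at hζ
      have h4 : ‖ζ‖ ^ 2 ≤ ρ ^ 2 := pow_le_pow_left₀ (norm_nonneg _) hζ.le 2
      calc ‖u 0‖ * ‖ζ‖ ^ 2 ≤ S / ρ ^ 2 * ρ ^ 2 :=
            mul_le_mul hu0 h4 (by positivity) (by positivity)
        _ = S := by field_simp
    linarith
  have hko : (k · - k 0) =o[𝓝 0] (fun w : ℂ => ‖w - 0‖ ^ 3) := by
    have h2 := (even_deriv hρ hdu heu).isLittleO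
    simp only [smul_zero, sub_zero] at h2
    have h3 : (fun w : ℂ => w ^ 2 * (u w - u 0)) =o[𝓝 0] fun w : ℂ => w ^ 2 * w :=
      (isBigO_refl _ _).mul_isLittleO h2
    simp only [hk0, sub_zero]
    have h4 : (fun w : ℂ => w ^ 2 * (u w - u 0)) = k := by
      funext w
      rw [hk]
      beta_reduce
      rw [hgu w]
      ring
    rw [h4] at h3
    refine h3.trans_isBigO ?_
    have h5 : (fun w : ℂ => w ^ 2 * w) = fun w : ℂ => w ^ 3 := by funext w; ring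
    rw [h5]
    exact (isBigO_refl (fun w : ℂ => w ^ 3) (𝓝 0)).norm_right.congr_right fun w => by
      rw [norm_pow]
  have hm : Set.MapsTo k (ball 0 ρ) (closedBall (k 0) (2 * S)) := fun z hz => by
    rw [hk0, mem_closedBall_zero_iff]; exact hkb z hz
  have h2 := Complex.dist_le_mul_div_pow_of_mapsTo_ball_of_isLittleO hkd hm hko hζ
  rw [hk0, dist_zero_right, dist_zero_right] at h2
  rw [hk] at h2
  exact h2

/-- uniqueness of the quadratic part -/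
lemma quad_unique {g : ℂ → ℂ} {a a' : ℂ} {C ρ : ℝ} (hρ : 0 < ρ)
    (h : ∀ ζ ∈ ball (0 : ℂ) ρ, ‖g ζ - a * ζ ^ 2‖ ≤ C * ‖ζ‖ ^ 3)
    (h' : ∀ ζ ∈ ball (0 : ℂ) ρ, ‖g ζ - a' * ζ ^ 2‖ ≤ C * ‖ζ‖ ^ 3) : a = a' := by
  have h1 : ∀ t : ℝ, 0 < t → t < ρ → ‖a - a'‖ ≤ 2 * C * t := by
    intro t ht htρ
    have hm : (t : ℂ) ∈ ball (0 : ℂ) ρ := by
      rw [mem_ball_zero_iff, Complex.norm_real, Real.norm_eq_abs, abs_of_pos ht]; exact htρ
    have h2 := h _ hm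
    have h3 := h' _ hm
    have h4 : ‖(a - a') * (t : ℂ) ^ 2‖ ≤ 2 * C * t ^ 3 := by
      have e : (a - a') * (t : ℂ) ^ 2 = (g t - a' * (t : ℂ) ^ 2) - (g t - a * (t : ℂ) ^ 2) := by ring
      rw [e]
      refine (norm_sub_le _ _).trans ?_
      rw [Complex.norm_real, Real.norm_eq_abs, abs_of_pos ht] at h2 h3
      linarith
    rw [norm_mul, norm_pow, Complex.norm_real, Real.norm_eq_abs, abs_of_pos ht] at h4
    have h5 : 0 < t ^ 2 := by positivity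
    nlinarith
  have h2 : ‖a - a'‖ ≤ 0 := by
    have hc : Tendsto (fun t : ℝ => 2 * C * t) (𝓝[>] 0) (𝓝 (2 * C * 0)) :=
      (tendsto_id.const_mul (2 * C)).mono_left nhdsWithin_le_nhds
    rw [mul_zero] at hc
    refine ge_of_tendsto hc ?_
    filter_upwards [self_mem_nhdsWithin, mem_nhdsWithin_of_mem_nhds (Iio_mem_nhds hρ)] with t h3 h4
    exact h1 t h3 h4
  exact sub_eq_zero.1 (norm_le_zero_iff.1 h2)

end

end Pool.Agent.N988.MK
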