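import Mathlib
import Pool.Agent.N991.MK.CChart
import Pool.Agent.N988.MK.Schw

/-!
# Euclidean norms of complex coordinates, Schwarz lemmas in several variables
-/

open Filter Metric Asymptotics Matrix
open scoped Matrix.Norms.Frobenius Topology
open Pool.Agent.H906R3.YM Pool.Agent.N991.MK

namespace Pool.Agent.N988.MK

set_option linter.unusedSectionVars false

noncomputable section

variable {n : ℕ}

/-- the complex quadratic form -/
def qC (x : Fin n → ℂ) : ℂ := ∑ a, x a ^ 2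

lemma nC_eq (x : Fin n → ℂ) : nC x = ‖(WithLp.toLp 2 x : EuclideanSpace ℂ (Fin n))‖ := by
  rw [EuclideanSpace.norm_eq]
  rfl

lemma nE_eq (x : Fin n → ℝ) : nE x = ‖(WithLp.toLp 2 x : EuclideanSpace ℝ (Fin n))‖ := by
  rw [EuclideanSpace.norm_eq]
  unfold nE
  congr 1
  refine Finset.sum_congr rfl fun a _ => ?_
  rw [Real.norm_eq_abs, sq_abs]

lemma nC_nonneg (x : Fin n → ℂ) : 0 ≤ nC x := Real.sqrt_nonneg _
lemma nE_nonneg (x : Fin n → ℝ) : 0 ≤ nE x := Real.sqrt_nonneg _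

lemma nC_sq (x : Fin n → ℂ) : nC x ^ 2 = ∑ a, ‖x a‖ ^ 2 :=
  Real.sq_sqrt (Finset.sum_nonneg fun a _ => by positivity)

lemma nE_sq (x : Fin n → ℝ) : nE x ^ 2 = ∑ a, x a ^ 2 :=
  Real.sq_sqrt (Finset.sum_nonneg fun a _ => by positivity)

lemma nC_rl (x : Fin n → ℝ) : nC (rl x) = nE x := by
  unfold nC nE rl
  congr 1
  refine Finset.sum_congr rfl fun a _ => ?_
  rw [Complex.norm_real, Real.norm_eq_abs, sq_abs]

lemma nC_smul (c : ℂ) (x : Fin n → ℂ) : nC (c • x) = ‖c‖ * nC x := by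
  rw [nC_eq, nC_eq, WithLp.toLp_smul, norm_smul]

lemma nE_smul (c : ℝ) (x : Fin n → ℝ) : nE (c • x) = |c| * nE x := by
  rw [nE_eq, nE_eq, WithLp.toLp_smul, norm_smul, Real.norm_eq_abs]

lemma nC_neg (x : Fin n → ℂ) : nC (-x) = nC x := by
  rw [nC_eq, nC_eq, WithLp.toLp_neg, norm_neg]

lemma nC_zero : nC (0 : Fin n → ℂ) = 0 := by
  rw [nC_eq, WithLp.toLp_zero, norm_zero]

lemma nE_zero : nE (0 : Fin n → ℝ) = 0 := by
  rw [nE_eq, WithLp.toLp_zero, norm_zero]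

lemma nC_add_le (x y : Fin n → ℂ) : nC (x + y) ≤ nC x + nC y := by
  rw [nC_eq, nC_eq, nC_eq, WithLp.toLp_add]
  exact norm_add_le _ _

lemma nC_sub_le (x y : Fin n → ℂ) : nC (x - y) ≤ nC x + nC y := by
  rw [nC_eq, nC_eq, nC_eq, WithLp.toLp_sub]
  exact norm_sub_le _ _

lemma nC_eq_zero {x : Fin n → ℂ} (h : nC x ≤ 0) : x = 0 := by
  have h0 : nC x = 0 := le_antisymm h (nC_nonneg x)
  rw [nC_eq, norm_eq_zero] at h0
  have := congrArg (WithLp.equiv 2 (Fin n → ℂ)) h0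
  simpa using this

lemma abs_le_nC (x : Fin n → ℂ) (a : Fin n) : ‖x a‖ ≤ nC x := by
  have h : ‖x a‖ ^ 2 ≤ nC x ^ 2 := by
    rw [nC_sq]
    exact Finset.single_le_sum (f := fun a => ‖x a‖ ^ 2) (fun b _ => by positivity)
      (Finset.mem_univ a)
  exact (abs_le_of_sq_le_sq' h (nC_nonneg x)).2

lemma nC_cont : Continuous (nC : (Fin n → ℂ) → ℝ) := by
  unfold nC
  refine Real.continuous_sqrt.comp (continuous_finset_sum _ fun a _ => ?_)
  exact ((continuous_apply a).norm).pow 2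

lemma nE_cont : Continuous (nE : (Fin n → ℝ) → ℝ) := by
  unfold nE
  refine Real.continuous_sqrt.comp (continuous_finset_sum _ fun a _ => ?_)
  exact (continuous_apply a).pow 2

lemma rl_cont : Continuous (rl : (Fin n → ℝ) → (Fin n → ℂ)) :=
  continuous_pi fun a => Complex.continuous_ofReal.comp (continuous_apply a)

lemma rl_smul (c : ℝ) (x : Fin n → ℝ) : rl (c • x) = (c : ℂ) • rl x := by
  funext a; simp [rl]

lemma rl_neg (x : Fin n → ℝ) : rl (-x) = -rl x := by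
  funext a; simp [rl]

lemma norm_qC_le (x : Fin n → ℂ) : ‖qC x‖ ≤ nC x ^ 2 := by
  unfold qC
  rw [nC_sq]
  refine (norm_sum_le _ _).trans (le_of_eq ?_)
  exact Finset.sum_congr rfl fun a _ => norm_pow _ _

lemma qC_smul (c : ℂ) (x : Fin n → ℂ) : qC (c • x) = c ^ 2 * qC x := by
  unfold qC
  rw [Finset.mul_sum]
  refine Finset.sum_congr rfl fun a _ => ?_
  simp [mul_pow]

lemma qC_neg (x : Fin n → ℂ) : qC (-x) = qC x := by
  unfold qC
  refine Finset.sum_congr rfl fun a _ => ?_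
  simp

lemma qC_zero : qC (0 : Fin n → ℂ) = 0 := by simp [qC]

lemma qC_rl (x : Fin n → ℝ) : qC (rl x) = ((nE x ^ 2 : ℝ) : ℂ) := by
  rw [nE_sq]
  unfold qC rl
  push_cast
  rfl

lemma qC_diff : Differentiable ℂ (qC : (Fin n → ℂ) → ℂ) := by
  unfold qC
  fun_prop

/-- **Schwarz lemma for functions which are even in two groups of variables.** -/
theorem even_even {T : (Fin n → ℂ) → (Fin n → ℂ) → ℂ} {r r' S : ℝ}
    (hd : ∀ x y, nC x < r → nC y < r' →
      DifferentiableAt ℂ (fun p : (Fin n → ℂ) × (Fin n → ℂ) => T p.1 p.2) (x, y))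
    (e1 : ∀ x y, nC x < r → nC y < r' → T (-x) y = T x y)
    (e2 : ∀ x y, nC x < r → nC y < r' → T x (-y) = T x y)
    (z1 : ∀ y, nC y < r' → T 0 y = 0) (z2 : ∀ x, nC x < r → T x 0 = 0)
    (bd : ∀ x y, nC x < r → nC y < r' → ‖T x y‖ ≤ S) {x y : Fin n → ℂ} (hx : nC x < r)
    (hy : nC y < r') : ‖T x y‖ ≤ S * (nC x / r) ^ 2 * (nC y / r') ^ 2 := by
  have hr : 0 < r := lt_of_le_of_lt (nC_nonneg _) hx
  have hr' : 0 < r' := lt_of_le_of_lt (nC_nonneg _) hy
  by_cases hx0 : x = 0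
  · rw [hx0, z1 y hy, norm_zero, nC_zero, zero_div]; simp
  by_cases hy0 : y = 0
  · rw [hy0, z2 x hx, norm_zero, nC_zero, zero_div]; simp
  have px : 0 < nC x := lt_of_not_ge fun h => hx0 (nC_eq_zero h)
  have py : 0 < nC y := lt_of_not_ge fun h => hy0 (nC_eq_zero h)
  have hbx : ∀ ζ ∈ ball (0 : ℂ) (r / nC x), nC (ζ • x) < r := by
    intro ζ hζ
    rw [mem_ball_zero_iff, lt_div_iff₀ px] at hζ
    rw [nC_smul]; exact hζ
  have hby : ∀ ω ∈ ball (0 : ℂ) (r' / nC y), nC (ω • y) < r' := by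
    intro ω hω
    rw [mem_ball_zero_iff, lt_div_iff₀ py] at hω
    rw [nC_smul]; exact hω
  have h1x : (1 : ℂ) ∈ ball (0 : ℂ) (r / nC x) := by
    rw [mem_ball_zero_iff, norm_one, lt_div_iff₀ px, one_mul]; exact hx
  have h1y : (1 : ℂ) ∈ ball (0 : ℂ) (r' / nC y) := by
    rw [mem_ball_zero_iff, norm_one, lt_div_iff₀ py, one_mul]; exact hy
  -- first variable
  have s1 : ∀ y', nC y' < r' → ‖T x y'‖ ≤ S * (nC x / r) ^ 2 := by
    intro y' hy'
    have h := even_schw (g := fun ζ : ℂ => T (ζ • x) y') (ρ := r / nC x) (S := S) ?_ ?_ ?_ ?_ h1x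
    · simp only [one_smul, norm_one] at h
      refine h.trans (le_of_eq ?_)
      rw [one_div_div]
    · intro ζ hζ
      have h3 := hd (ζ • x) y' (hbx ζ hζ) hy'
      have h4 : DifferentiableAt ℂ (fun ζ : ℂ => ((ζ • x, y') : (Fin n → ℂ) × (Fin n → ℂ))) ζ := by
        fun_prop
      exact (DifferentiableAt.comp (f := fun ζ : ℂ => ((ζ • x, y') : (Fin n → ℂ) × (Fin n → ℂ)))
        (g := fun p : (Fin n → ℂ) × (Fin n → ℂ) => T p.1 p.2) ζ h3 h4).differentiableWithinAt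
    · intro ζ hζ
      beta_reduce
      rw [neg_smul]
      exact e1 _ _ (hbx ζ hζ) hy'
    · beta_reduce
      rw [zero_smul]
      exact z1 _ hy'
    · intro ζ hζ
      exact bd _ _ (hbx ζ hζ) hy'
  have h := even_schw (g := fun ω : ℂ => T x (ω • y)) (ρ := r' / nC y) (S := S * (nC x / r) ^ 2)
    ?_ ?_ ?_ ?_ h1y
  · simp only [one_smul, norm_one] at h
    refine h.trans (le_of_eq ?_)
    rw [one_div_div]
  · intro ω hω
    have h3 := hd x (ω • y) hx (hby ω hω)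
    have h4 : DifferentiableAt ℂ (fun ω : ℂ => ((x, ω • y) : (Fin n → ℂ) × (Fin n → ℂ))) ω := by
      fun_prop
    exact (DifferentiableAt.comp (f := fun ω : ℂ => ((x, ω • y) : (Fin n → ℂ) × (Fin n → ℂ)))
      (g := fun p : (Fin n → ℂ) × (Fin n → ℂ) => T p.1 p.2) ω h3 h4).differentiableWithinAt
  · intro ω hω
    beta_reduce
    rw [neg_smul]
    exact e2 _ _ hx (hby ω hω)
  · beta_reduce
    rw [zero_smul]
    exact z2 _ hx
  · intro ω hω
    exact s1 _ (hby ω hω)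

/-- **the quadratic part of an even function**, several variables -/
theorem even_quadC {g : (Fin n → ℂ) → ℂ} {r S : ℝ} (hr : 0 < r)
    (hd : ∀ x, nC x < r → DifferentiableAt ℂ g x) (he : ∀ x, nC x < r → g (-x) = g x)
    (h0 : g 0 = 0) (hb : ∀ x, nC x < r → ‖g x‖ ≤ S) (x : Fin n → ℂ) :
    ∃ a : ℂ, ‖a‖ ≤ S * (nC x / r) ^ 2 ∧
      ∀ ζ : ℂ, nC (ζ • x) < r → ‖g (ζ • x) - a * ζ ^ 2‖ ≤ 2 * S * (nC (ζ • x) / r) ^ 4 := by
  have hS : 0 ≤ S := (norm_nonneg _).trans (hb 0 (by rw [nC_zero]; exact hr))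
  by_cases hx0 : x = 0
  · refine ⟨0, by rw [norm_zero]; positivity, fun ζ _ => ?_⟩
    rw [hx0, smul_zero, h0, zero_mul, sub_zero, norm_zero]
    positivity
  have px : 0 < nC x := lt_of_not_ge fun h => hx0 (nC_eq_zero h)
  have hbx : ∀ ζ ∈ ball (0 : ℂ) (r / nC x), nC (ζ • x) < r := by
    intro ζ hζ
    rw [mem_ball_zero_iff, lt_div_iff₀ px] at hζ
    rw [nC_smul]; exact hζ
  obtain ⟨a, ha, h⟩ := even_quad (g := fun ζ : ℂ => g (ζ • x)) (ρ := r / nC x) (S := S)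
    (by positivity) (fun ζ hζ => by
      have h3 := hd (ζ • x) (hbx ζ hζ)
      have h4 : DifferentiableAt ℂ (fun ζ : ℂ => ζ • x) ζ := by fun_prop
      exact (DifferentiableAt.comp (f := fun ζ : ℂ => ζ • x) (g := g) ζ h3 h4).differentiableWithinAt)
    (fun ζ hζ => by
      beta_reduce
      rw [neg_smul]
      exact he _ (hbx ζ hζ))
    (by beta_reduce; rw [zero_smul, h0]) (fun ζ hζ => hb _ (hbx ζ hζ))
  refine ⟨a, ha.trans (le_of_eq ?_), fun ζ hζ => ?_⟩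
  · field_simp
  · have hm : ζ ∈ ball (0 : ℂ) (r / nC x) := by
      rw [mem_ball_zero_iff, lt_div_iff₀ px, ← nC_smul]; exact hζ
    refine (h ζ hm).trans (le_of_eq ?_)
    rw [nC_smul]
    field_simp

end

end Pool.Agent.N988.MK
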