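import Mathlib
import Pool.Agent.N988.MK.Nrm
import Pool.Agent.N991.MK.Ent

/-!
# The product of two exponentials in coordinates: symmetries
-/

open MeasureTheory Filter Metric Asymptotics Matrix
open scoped Matrix.Norms.Frobenius Topology ContDiff
open Pool.Agent.H906R3.YM Pool.Agent.W793.YM Pool.Agent.TH618.YM Pool.Agent.N984.TW
open Pool.Agent.N991.MK

namespace Pool.Agent.N988.MK

set_option linter.unusedSectionVars false

noncomputable section

variable {N n : ℕ} {G : Subgroup (UN N)} (B : Frame G n) (hG : IsClosed (G : Set (UN N)))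

lemma trace_XX (a b : Fin n) : trace (B.X a * B.X b) = if a = b then -1 else 0 := by
  have h := trace_X B a b
  rw [B.skewX a, neg_mul, trace_neg] at h
  have h2 : trace (B.X a * B.X b) = -(if a = b then 1 else 0) := by rw [← h, neg_neg]
  rw [h2]
  split_ifs <;> simp

/-- the quadratic form is minus the trace of the square -/
lemma qC_eq (x : Fin n → ℂ) : qC x = -trace (LC B x * LC B x) := by
  unfold qC LC
  rw [Finset.sum_mul, trace_sum, ← Finset.sum_neg_distrib]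
  refine Finset.sum_congr rfl fun a _ => ?_
  rw [Finset.mul_sum, trace_sum, Finset.sum_eq_single a]
  · rw [smul_mul_smul_comm, trace_smul, trace_XX, if_pos rfl, smul_eq_mul]
    ring
  · intro b _ hb
    rw [smul_mul_smul_comm, trace_smul, trace_XX, if_neg (Ne.symm hb), smul_zero]
  · intro h
    exact absurd (Finset.mem_univ a) h

lemma norm_LC (x : Fin n → ℂ) : ‖LC B x‖ = nC x := by
  have h : ‖LC B x‖ ^ 2 = nC x ^ 2 := by
    rw [norm_sq_ip, ip_apply, nC_sq]
    have h1 : trace ((LC B x)ᴴ * LC B x) = ∑ a, (starRingEnd ℂ) (x a) * x a := by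
      unfold LC
      rw [conjTranspose_sum, Finset.sum_mul, trace_sum]
      refine Finset.sum_congr rfl fun a _ => ?_
      rw [Finset.mul_sum, trace_sum, Finset.sum_eq_single a]
      · rw [conjTranspose_smul, smul_mul_smul_comm, trace_smul, trace_X, if_pos rfl, smul_eq_mul,
          mul_one]
        rfl
      · intro b _ hb
        rw [conjTranspose_smul, smul_mul_smul_comm, trace_smul, trace_X, if_neg (Ne.symm hb),
          smul_zero]
      · intro h
        exact absurd (Finset.mem_univ a) h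
    rw [h1, Complex.re_sum]
    refine Finset.sum_congr rfl fun a _ => ?_
    rw [mul_comm, Complex.mul_conj, Complex.ofReal_re, Complex.normSq_eq_norm_sq]
  exact (pow_left_inj₀ (norm_nonneg _) (nC_nonneg _) two_ne_zero).1 h

/-- local injectivity of the exponential -/
lemma exp_inj (N : ℕ) : ∃ ρ : ℝ, 0 < ρ ∧ ∀ A A' : Mat N, ‖A‖ < ρ → ‖A'‖ < ρ →
    NormedSpace.exp A = NormedSpace.exp A' → A = A' := by
  obtain ⟨ρ, hρ, h⟩ := Metric.eventually_nhds_iff.1 (Lgm_left (N := N))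
  refine ⟨ρ, hρ, fun A A' h1 h2 h3 => ?_⟩
  have e1 := h (y := A) (by rwa [dist_zero_right])
  have e2 := h (y := A') (by rwa [dist_zero_right])
  rw [← e1, ← e2, h3]

/-- the product of two exponentials in coordinates, on a ball of radius `r₀` -/
structure BC (r₀ C : ℝ) (b : (Fin n → ℂ) → (Fin n → ℂ) → (Fin n → ℂ)) : Prop where
  pos : 0 < r₀
  Cpos : 0 ≤ C
  mul : ∀ x y, nC x ≤ r₀ → nC y ≤ r₀ → EC B (b x y) = EC B x * EC B y
  near : ∀ x y, nC x ≤ r₀ → nC y ≤ r₀ → nC (b x y - x - y) ≤ C * nC x * nC y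
  diff : ∀ x y, nC x ≤ r₀ → nC y ≤ r₀ →
    DifferentiableAt ℂ (fun p : (Fin n → ℂ) × (Fin n → ℂ) => b p.1 p.2) (x, y)
  inj : ∀ A A' : Mat N, ‖A‖ ≤ 12 * r₀ → ‖A'‖ ≤ 12 * r₀ →
    NormedSpace.exp A = NormedSpace.exp A' → A = A'
  bde : ∀ x, nC x ≤ r₀ → ∀ A : Mat N, ‖EC B (-x) * A * EC B x‖ ≤ 4 * ‖A‖
  small : C * r₀ ≤ 1

lemma exists_BC (h : S_L2 B) : ∃ r₀ C b, BC B r₀ C b := by
  obtain ⟨r, C, b, hr, hC, h1, -⟩ := h
  obtain ⟨ρ, hρ, hinj⟩ := exp_inj N
  have hc : Continuous fun x : Fin n → ℂ => ‖EC B x - 1‖ :=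
    ((EC_contDiff B).continuous.sub continuous_const).norm
  have h0 : Tendsto (fun x : Fin n → ℂ => ‖EC B x - 1‖) (𝓝 0) (𝓝 0) := by
    have := hc.tendsto 0
    rwa [EC_zero, sub_self, norm_zero] at this
  obtain ⟨δ, hδ, hb⟩ := Metric.eventually_nhds_iff.1 (h0.eventually (gt_mem_nhds one_pos))
  have hb1 : ∀ x : Fin n → ℂ, nC x < δ → ‖EC B x - 1‖ < 1 := by
    intro x hx
    refine hb ?_
    rw [dist_zero_right]
    exact lt_of_le_of_lt ((pi_norm_le_iff_of_nonneg (nC_nonneg x)).2 fun a => abs_le_nC x a) hx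
  obtain ⟨r₀, hr₀⟩ : ∃ r₀, r₀ = min (min r (δ / 2)) (min (ρ / 13) (1 / (C + 1))) := ⟨_, rfl⟩
  have p0 : 0 < r₀ := by rw [hr₀]; positivity
  have q1 : r₀ ≤ r := by rw [hr₀]; exact (min_le_left _ _).trans (min_le_left _ _)
  have q2 : r₀ ≤ δ / 2 := by rw [hr₀]; exact (min_le_left _ _).trans (min_le_right _ _)
  have q3 : r₀ ≤ ρ / 13 := by rw [hr₀]; exact (min_le_right _ _).trans (min_le_left _ _)
  have q4 : r₀ ≤ 1 / (C + 1) := by rw [hr₀]; exact (min_le_right _ _).trans (min_le_right _ _)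
  have key : ∀ x, nC x ≤ r₀ → ∀ A : Mat N, ‖A * EC B x‖ ≤ 2 * ‖A‖ := by
    intro x hx A
    have e : A * EC B x = A + A * (EC B x - 1) := by rw [mul_sub, mul_one]; abel
    rw [e]
    refine (norm_add_le _ _).trans ?_
    have h2 := norm_mul_le A (EC B x - 1)
    have h3 := hb1 x (by linarith)
    nlinarith [norm_nonneg A, norm_nonneg (EC B x - 1)]
  have key' : ∀ x, nC x ≤ r₀ → ∀ A : Mat N, ‖EC B (-x) * A‖ ≤ 2 * ‖A‖ := by
    intro x hx A
    have e : EC B (-x) * A = A + (EC B (-x) - 1) * A := by rw [sub_mul, one_mul]; abel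
    rw [e]
    refine (norm_add_le _ _).trans ?_
    have h2 := norm_mul_le (EC B (-x) - 1) A
    have h3 := hb1 (-x) (by rw [nC_neg]; linarith)
    nlinarith [norm_nonneg A, norm_nonneg (EC B (-x) - 1)]
  refine ⟨r₀, C, b, p0, hC, fun x y hx hy => (h1 x y (hx.trans q1) (hy.trans q1)).1,
    fun x y hx hy => (h1 x y (hx.trans q1) (hy.trans q1)).2.1,
    fun x y hx hy => (h1 x y (hx.trans q1) (hy.trans q1)).2.2, fun A A' h2 h3 h4 => ?_,
    fun x hx A => ?_, ?_⟩
  · exact hinj A A' (by linarith) (by linarith) h4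
  · have := key x hx (EC B (-x) * A)
    have := key' x hx A
    linarith
  · have : C * r₀ ≤ C * (1 / (C + 1)) := mul_le_mul_of_nonneg_left q4 hC
    refine this.trans ?_
    rw [mul_one_div, div_le_one (by positivity)]
    linarith

variable {B}
variable {r₀ C : ℝ} {b : (Fin n → ℂ) → (Fin n → ℂ) → (Fin n → ℂ)}

namespace BC

lemma nC_le (h : BC B r₀ C b) {x y : Fin n → ℂ} (hx : nC x ≤ r₀) (hy : nC y ≤ r₀) :
    nC (b x y) ≤ nC x + nC y + C * nC x * nC y := by
  have e : b x y = (b x y - x - y) + (x + y) := by abel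
  rw [e]
  have h1 := nC_add_le (b x y - x - y) (x + y)
  have h2 := h.near x y hx hy
  have h3 := nC_add_le x y
  linarith

lemma nC_le3 (h : BC B r₀ C b) {x y : Fin n → ℂ} (hx : nC x ≤ r₀) (hy : nC y ≤ r₀) :
    nC (b x y) ≤ 3 * r₀ := by
  have h1 := h.nC_le hx hy
  have h2 : C * nC x * nC y ≤ C * r₀ * r₀ := by
    have := h.Cpos
    have h0 := nC_nonneg x
    have h0' := nC_nonneg y
    have hp := h.pos
    gcongr
  have h3 : C * r₀ * r₀ ≤ 1 * r₀ := mul_le_mul_of_nonneg_right h.small h.pos.le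
  linarith

lemma zero_left (h : BC B r₀ C b) {y : Fin n → ℂ} (hy : nC y ≤ r₀) : b 0 y = y := by
  have h1 := h.near 0 y (by rw [nC_zero]; exact h.pos.le) hy
  rw [nC_zero, mul_zero, zero_mul, sub_zero] at h1
  exact sub_eq_zero.1 (nC_eq_zero h1)

lemma zero_right (h : BC B r₀ C b) {y : Fin n → ℂ} (hy : nC y ≤ r₀) : b y 0 = y := by
  have h1 := h.near y 0 hy (by rw [nC_zero]; exact h.pos.le)
  rw [nC_zero, mul_zero, sub_zero] at h1
  exact sub_eq_zero.1 (nC_eq_zero h1)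

lemma uE_mul (h : BC B r₀ C b) {x y : Fin n → ℂ} (hx : nC x ≤ r₀) (hy : nC y ≤ r₀) :
    uE B (b x y) = uE B x * uE B y := by
  refine Units.ext ?_
  rw [Units.val_mul, uE_val, uE_val, uE_val]
  exact h.mul x y hx hy

/-- the symmetry of the quadratic form -/
lemma qsym (h : BC B r₀ C b) {x y : Fin n → ℂ} (hx : nC x ≤ r₀) (hy : nC y ≤ r₀) :
    qC (b (-x) y) = qC (b x (-y)) := by
  have hx' : nC (-x) ≤ r₀ := by rwa [nC_neg]
  have hy' : nC (-y) ≤ r₀ := by rwa [nC_neg]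
  have e1 := h.mul (-x) y hx' hy
  have e2 := h.mul x (-y) hx hy'
  have e3 : LC B (b (-x) y) = -(EC B (-x) * LC B (b x (-y)) * EC B x) := by
    refine h.inj _ _ ?_ ?_ ?_
    · rw [norm_LC]
      have := h.nC_le3 hx' hy
      have := h.pos
      linarith
    · rw [norm_neg]
      refine (h.bde x hx _).trans ?_
      rw [norm_LC]
      have := h.nC_le3 hx hy'
      linarith
    · have e4 : -(EC B (-x) * LC B (b x (-y)) * EC B x) =
          ((uE B (-x) : (Mat N)ˣ) : Mat N) * (-LC B (b x (-y))) *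
            (((uE B (-x))⁻¹ : (Mat N)ˣ) : Mat N) := by
        rw [uE_val, uE_inv_val, neg_neg, mul_neg, neg_mul]
      rw [e4, Matrix.exp_units_conj]
      have e5 : NormedSpace.exp (-LC B (b x (-y))) = EC B y * EC B (-x) := by
        rw [← LC_neg]
        have h5 : EC B (-b x (-y)) * (EC B x * EC B (-y)) = 1 := by
          rw [← e2, EC_neg_mul]
        have h6 : (EC B x * EC B (-y)) * (EC B y * EC B (-x)) = 1 := by
          rw [mul_assoc, ← mul_assoc (EC B (-y)), EC_neg_mul, one_mul, EC_mul_neg]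
        calc EC B (-b x (-y)) = EC B (-b x (-y)) * ((EC B x * EC B (-y)) * (EC B y * EC B (-x))) := by
              rw [h6, mul_one]
          _ = EC B y * EC B (-x) := by rw [← mul_assoc, h5, one_mul]
      rw [e5]
      show EC B (b (-x) y) = _
      rw [e1, uE_val, uE_inv_val, neg_neg, mul_assoc, mul_assoc, EC_neg_mul, mul_one]
  rw [qC_eq B, qC_eq B, e3, neg_mul_neg]
  congr 1
  have e6 : EC B (-x) * LC B (b x (-y)) * EC B x * (EC B (-x) * LC B (b x (-y)) * EC B x) =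
      EC B (-x) * (LC B (b x (-y)) * LC B (b x (-y)) * EC B x) := by
    calc _ = EC B (-x) * LC B (b x (-y)) * (EC B x * EC B (-x)) * LC B (b x (-y)) * EC B x := by
          simp only [mul_assoc]
      _ = _ := by rw [EC_mul_neg, mul_one]; simp only [mul_assoc]
  rw [e6, trace_mul_comm, mul_assoc, EC_mul_neg, mul_one]

lemma diff1 (h : BC B r₀ C b) {x y : Fin n → ℂ} (hx : nC x ≤ r₀) (hy : nC y ≤ r₀) :
    DifferentiableAt ℂ (fun p : (Fin n → ℂ) × (Fin n → ℂ) => b p.1 (-p.2)) (x, y) := by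
  have h1 := h.diff x (-y) hx (by rwa [nC_neg])
  have h2 : DifferentiableAt ℂ
      (fun p : (Fin n → ℂ) × (Fin n → ℂ) => ((p.1, -p.2) : (Fin n → ℂ) × (Fin n → ℂ))) (x, y) := by
    fun_prop
  exact DifferentiableAt.comp (f := fun p : (Fin n → ℂ) × (Fin n → ℂ) =>
    ((p.1, -p.2) : (Fin n → ℂ) × (Fin n → ℂ)))
    (g := fun p : (Fin n → ℂ) × (Fin n → ℂ) => b p.1 p.2) (x, y) h1 h2

end BC

/-- second difference along the product -/
def Tf (b : (Fin n → ℂ) → (Fin n → ℂ) → (Fin n → ℂ)) (φ : (Fin n → ℂ) → ℂ)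
    (x y : Fin n → ℂ) : ℂ := φ (b x y) + φ (b x (-y)) - 2 * φ x - 2 * φ y

lemma Tf_neg_right (φ : (Fin n → ℂ) → ℂ) (x y : Fin n → ℂ) (he : φ (-y) = φ y) :
    Tf b φ x (-y) = Tf b φ x y := by
  unfold Tf
  rw [neg_neg, he]
  ring

lemma Tf_neg_left (φ : (Fin n → ℂ) → ℂ) (x y : Fin n → ℂ) (he : φ (-x) = φ x)
    (h1 : φ (b (-x) y) = φ (b x (-y))) (h2 : φ (b (-x) (-y)) = φ (b x y)) :
    Tf b φ (-x) y = Tf b φ x y := by
  unfold Tf
  rw [h1, h2, he]
  ring

/-- the second difference of the quadratic form -/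
theorem BC.Tq (h : BC B r₀ C b) : ∃ Cq : ℝ, 0 ≤ Cq ∧ ∀ x y : Fin n → ℂ, nC x < r₀ → nC y < r₀ →
    ‖Tf b qC x y‖ ≤ Cq * nC x ^ 2 * nC y ^ 2 := by
  have hp := h.pos
  refine ⟨22 * r₀ ^ 2 / r₀ ^ 4, by positivity, fun x y hx hy => ?_⟩
  have hn : ∀ y : Fin n → ℂ, nC y < r₀ → nC (-y) < r₀ := fun y hy => by rwa [nC_neg]
  refine (even_even (T := Tf b qC) (r := r₀) (r' := r₀) (S := 22 * r₀ ^ 2) ?_ ?_ ?_ ?_ ?_ ?_
    hx hy).trans (le_of_eq ?_)
  · intro x y hx hy
    unfold Tf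
    have h1 := (qC_diff (b x y)).comp (x, y) (h.diff x y hx.le hy.le)
    have h2 := (qC_diff (b x (-y))).comp (x, y) (h.diff1 hx.le hy.le)
    have h3 : DifferentiableAt ℂ (fun p : (Fin n → ℂ) × (Fin n → ℂ) => qC p.1) (x, y) :=
      (qC_diff.comp differentiable_fst) (x, y)
    have h4 : DifferentiableAt ℂ (fun p : (Fin n → ℂ) × (Fin n → ℂ) => qC p.2) (x, y) :=
      (qC_diff.comp differentiable_snd) (x, y)
    exact ((h1.add h2).sub (h3.const_mul 2)).sub (h4.const_mul 2)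
  · intro x y hx hy
    refine Tf_neg_left qC x y (qC_neg x) (h.qsym hx.le hy.le) ?_
    have := h.qsym (x := x) (y := -y) hx.le (hn y hy).le
    rwa [neg_neg] at this
  · intro x y hx hy
    exact Tf_neg_right qC x y (qC_neg y)
  · intro y hy
    unfold Tf
    rw [h.zero_left hy.le, h.zero_left (hn y hy).le, qC_neg, qC_zero]
    ring
  · intro x hx
    unfold Tf
    rw [neg_zero, h.zero_right hx.le, qC_zero]
    ring
  · intro x y hx hy
    unfold Tf
    have h1 := (norm_qC_le (b x y)).trans (pow_le_pow_left₀ (nC_nonneg _) (h.nC_le3 hx.le hy.le) 2)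
    have h2 := (norm_qC_le (b x (-y))).trans
      (pow_le_pow_left₀ (nC_nonneg _) (h.nC_le3 hx.le (hn y hy).le) 2)
    have h3 := (norm_qC_le x).trans (pow_le_pow_left₀ (nC_nonneg _) hx.le 2)
    have h4 := (norm_qC_le y).trans (pow_le_pow_left₀ (nC_nonneg _) hy.le 2)
    have h5 : ‖2 * qC x‖ = 2 * ‖qC x‖ := by rw [norm_mul]; norm_num
    have h6 : ‖2 * qC y‖ = 2 * ‖qC y‖ := by rw [norm_mul]; norm_num
    calc _ ≤ ‖qC (b x y)‖ + ‖qC (b x (-y))‖ + ‖2 * qC x‖ + ‖2 * qC y‖ := by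
          refine (norm_sub_le _ _).trans (add_le_add ?_ le_rfl)
          refine (norm_sub_le _ _).trans (add_le_add ?_ le_rfl)
          exact norm_add_le _ _
      _ ≤ _ := by rw [h5, h6]; nlinarith
  · rw [div_pow, div_pow]
    field_simp

end

end Pool.Agent.N988.MK
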