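import Mathlib
import Pool.Agent.N988.MK.BCs
import Pool.Agent.N991.MK.Shift

/-!
# The state of a class function near the identity, and its second differences
-/

open MeasureTheory Filter Metric Asymptotics Matrix
open scoped Matrix.Norms.Frobenius Topology ContDiff
open Pool.Agent.H906R3.YM Pool.Agent.W793.YM Pool.Agent.TH618.YM Pool.Agent.N984.TW
open Pool.Agent.N991.MK

namespace Pool.Agent.N988.MK

set_option linter.unusedSectionVars false

noncomputable section

/-- a continuous path with values in the periods of the exponential is constant -/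
lemma int_path {D : ℝ → ℂ} (hc : ContinuousOn D (Set.Icc 0 1)) (h0 : D 0 = 0)
    (he : ∀ t ∈ Set.Icc (0 : ℝ) 1, Complex.exp (D t) = 1) : D 1 = 0 := by
  have hpi := Real.pi_pos
  obtain ⟨m, hm⟩ := Complex.exp_eq_one_iff.1 (he 1 ⟨zero_le_one, le_rfl⟩)
  have hcI : ContinuousOn (fun t => (D t).im) (Set.Icc 0 1) :=
    Complex.continuous_im.comp_continuousOn hc
  have him : ∀ t ∈ Set.Icc (0 : ℝ) 1, ∃ j : ℤ, (D t).im = j * (2 * Real.pi) := by
    intro t ht
    obtain ⟨j, hj⟩ := Complex.exp_eq_one_iff.1 (he t ht)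
    refine ⟨j, ?_⟩
    rw [hj]
    simp
  have h1 : (D 1).im = m * (2 * Real.pi) := by rw [hm]; simp
  have h0' : (D 0).im = 0 := by rw [h0]; simp
  have hm0 : m = 0 := by
    by_contra hne
    rcases lt_or_gt_of_ne hne with hlt | hgt
    · have hm1 : (m : ℝ) ≤ -1 := by exact_mod_cast Int.le_sub_one_of_lt hlt
      have := intermediate_value_Icc' (zero_le_one (α := ℝ)) hcI
      beta_reduce at this
      rw [h1, h0'] at this
      obtain ⟨t, ht, ht2⟩ := this (show -Real.pi ∈ Set.Icc _ _ from ⟨by nlinarith, by linarith⟩)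
      obtain ⟨j, hj⟩ := him t ht
      beta_reduce at ht2
      rw [hj] at ht2
      have h2 : (2 * (j : ℝ) + 1) * Real.pi = 0 := by linarith
      have h3 : (2 * (j : ℝ) + 1) = 0 := (mul_eq_zero.1 h2).resolve_right hpi.ne'
      have h4 : (2 * j + 1 : ℤ) = 0 := by exact_mod_cast h3
      omega
    · have hm1 : (1 : ℝ) ≤ m := by exact_mod_cast Int.add_one_le_of_lt hgt
      have := intermediate_value_Icc (zero_le_one (α := ℝ)) hcI
      beta_reduce at this
      rw [h1, h0'] at this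
      obtain ⟨t, ht, ht2⟩ := this (show Real.pi ∈ Set.Icc _ _ from ⟨by linarith, by nlinarith⟩)
      obtain ⟨j, hj⟩ := him t ht
      beta_reduce at ht2
      rw [hj] at ht2
      have h2 : (2 * (j : ℝ) - 1) * Real.pi = 0 := by linarith
      have h3 : (2 * (j : ℝ) - 1) = 0 := (mul_eq_zero.1 h2).resolve_right hpi.ne'
      have h4 : (2 * j - 1 : ℤ) = 0 := by exact_mod_cast h3
      omega
  rw [hm, hm0]
  simp

variable {N n : ℕ} {G : Subgroup (UN N)} (B : Frame G n) (hG : IsClosed (G : Set (UN N)))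

include hG in
/-- the class property for complex conjugations -/
theorem clsC [CompactSpace G] [MeasurableSpace G] [BorelSpace G] {f : G → ℝ}
    {F : (Mat N)ˣ → ℂ} (h : CF f F) (x : Fin n → ℂ) (u : (Mat N)ˣ) :
    F (uE B x * u) = F (u * uE B x) := by
  set a := reP x
  set b := imP x
  have h1 : (fun s : ℂ => F (uE B (ln a b s) * u)) = fun s : ℂ => F (u * uE B (ln a b s)) := by
    refine eq_of_real_eq ?_ ?_ ?_
    · refine ContDiff.differentiable (h.hol.curve (u := fun s => uE B (ln a b s) * u) ?_ ?_)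
        (by simp)
      · exact (EC_ln_contDiff B a b).mul contDiff_const
      · have : (fun s => (((uE B (ln a b s) * u)⁻¹ : (Mat N)ˣ) : Mat N)) =
            fun s => ((u⁻¹ : (Mat N)ˣ) : Mat N) * EC B (-ln a b s) := by
          funext s
          rw [_root_.mul_inv_rev]
          rfl
        rw [this]
        exact contDiff_const.mul (EC_ln_contDiff' B a b)
    · refine ContDiff.differentiable (h.hol.curve (u := fun s => u * uE B (ln a b s)) ?_ ?_)
        (by simp)
      · exact contDiff_const.mul (EC_ln_contDiff B a b)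
      · have : (fun s => (((u * uE B (ln a b s))⁻¹ : (Mat N)ˣ) : Mat N)) =
            fun s => EC B (-ln a b s) * ((u⁻¹ : (Mat N)ˣ) : Mat N) := by
          funext s
          rw [_root_.mul_inv_rev]
          rfl
        rw [this]
        exact (EC_ln_contDiff' B a b).mul contDiff_const
    · intro t
      rw [ln_real, uE_rl B hG, h.swap]
  have h2 := congrFun h1 Complex.I
  beta_reduce at h2
  rwa [ln_I] at h2

/-- the state of a class function: quadratic part and quartic remainder of the action -/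
structure St (r k M : ℝ) (F : (Mat N)ˣ → ℂ) (m : (Fin n → ℂ) → ℂ) : Prop where
  eq : ∀ x, nC x < r → F (uE B x) = F 1 * Complex.exp (-(k / 2) * qC x - m x)
  md : ∀ x, nC x < r → DifferentiableAt ℂ m x
  even : ∀ x, nC x < r → m (-x) = m x
  bd : ∀ x, nC x < r → ‖m x‖ ≤ M * nC x ^ 4

variable {B}
variable {r₀ C : ℝ} {b : (Fin n → ℂ) → (Fin n → ℂ) → (Fin n → ℂ)}
variable {r k M : ℝ} {F : (Mat N)ˣ → ℂ} {m : (Fin n → ℂ) → ℂ} {f : G → ℝ}

lemma BC.in_r (h : BC B r₀ C b) (hr : r ≤ r₀) {x y : Fin n → ℂ} (hx : nC x < r / 2)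
    (hy : nC y < r / 3) : nC (b x y) < r := by
  have hx0 := nC_nonneg x
  have hy0 := nC_nonneg y
  have h1 := h.nC_le (x := x) (y := y) (by linarith) (by linarith)
  have h2 : C * nC x ≤ C * (r₀ / 2) := mul_le_mul_of_nonneg_left (by linarith) h.Cpos
  have h2' : C * nC x ≤ 1 / 2 := by have := h.small; linarith
  have h3 : C * nC x * nC y ≤ 1 / 2 * nC y := mul_le_mul_of_nonneg_right h2' hy0
  linarith

lemma St.m0 (hs : St B r k M F m) (hr : 0 < r) : m 0 = 0 := by
  have h := hs.bd 0 (by rw [nC_zero]; exact hr)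
  rw [nC_zero] at h
  exact norm_le_zero_iff.1 (h.trans (by simp))

section

variable [CompactSpace G] [MeasurableSpace G] [BorelSpace G]

include hG in
/-- the symmetry of the quartic remainder -/
lemma St.msym (hs : St B r k M F m) (hf : CF f F) (h1 : F 1 ≠ 0) (h : BC B r₀ C b) (hr : r ≤ r₀)
    {x y : Fin n → ℂ} (hx : nC x < r / 2) (hy : nC y < r / 3) :
    m (b (-x) y) = m (b x (-y)) := by
  have hrp : 0 < r := by have := nC_nonneg x; linarith
  have hn : ∀ z : Fin n → ℂ, nC (-z) = nC z := nC_neg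
  obtain ⟨D, hD⟩ : ∃ D : ℝ → ℂ, D = fun t : ℝ => m (b ((t : ℂ) • x) (-((t : ℂ) • y))) -
    m (b (-((t : ℂ) • x)) ((t : ℂ) • y)) := ⟨_, rfl⟩
  have ht : ∀ t ∈ Set.Icc (0 : ℝ) 1, nC ((t : ℂ) • x) < r / 2 ∧ nC ((t : ℂ) • y) < r / 3 := by
    intro t ht
    rw [nC_smul, nC_smul, Complex.norm_real, Real.norm_eq_abs, abs_of_nonneg ht.1]
    have hx0 := nC_nonneg x
    have hy0 := nC_nonneg y
    constructor
    · have : t * nC x ≤ 1 * nC x := mul_le_mul_of_nonneg_right ht.2 hx0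
      linarith
    · have : t * nC y ≤ 1 * nC y := mul_le_mul_of_nonneg_right ht.2 hy0
      linarith
  have hcont : ContinuousOn D (Set.Icc 0 1) := by
    intro t htm
    obtain ⟨h2, h3⟩ := ht t htm
    refine ContinuousAt.continuousWithinAt ?_
    rw [hD]
    have c1 : ContinuousAt (fun t : ℝ => (((t : ℂ) • x, -((t : ℂ) • y)) :
        (Fin n → ℂ) × (Fin n → ℂ))) t := by fun_prop
    have c2 : ContinuousAt (fun t : ℝ => ((-((t : ℂ) • x), (t : ℂ) • y) :
        (Fin n → ℂ) × (Fin n → ℂ))) t := by fun_prop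
    have d1 := (h.diff ((t : ℂ) • x) (-((t : ℂ) • y)) (by linarith)
      (by rw [hn]; linarith)).continuousAt
    have d2 := (h.diff (-((t : ℂ) • x)) ((t : ℂ) • y) (by rw [hn]; linarith)
      (by linarith)).continuousAt
    have e1 := (hs.md (b ((t : ℂ) • x) (-((t : ℂ) • y)))
      (h.in_r hr h2 (by rw [hn]; exact h3))).continuousAt
    have e2 := (hs.md (b (-((t : ℂ) • x)) ((t : ℂ) • y))
      (h.in_r hr (by rw [hn]; exact h2) h3)).continuousAt
    have a1 : ContinuousAt (fun t : ℝ => b ((t : ℂ) • x) (-((t : ℂ) • y))) t :=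
      ContinuousAt.comp (f := fun t : ℝ => (((t : ℂ) • x, -((t : ℂ) • y)) :
        (Fin n → ℂ) × (Fin n → ℂ))) (g := fun p : (Fin n → ℂ) × (Fin n → ℂ) => b p.1 p.2) d1 c1
    have a2 : ContinuousAt (fun t : ℝ => b (-((t : ℂ) • x)) ((t : ℂ) • y)) t :=
      ContinuousAt.comp (f := fun t : ℝ => ((-((t : ℂ) • x), (t : ℂ) • y) :
        (Fin n → ℂ) × (Fin n → ℂ))) (g := fun p : (Fin n → ℂ) × (Fin n → ℂ) => b p.1 p.2) d2 c2
    exact (ContinuousAt.comp (f := fun t : ℝ => b ((t : ℂ) • x) (-((t : ℂ) • y))) (g := m) e1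
      a1).sub (ContinuousAt.comp (f := fun t : ℝ => b (-((t : ℂ) • x)) ((t : ℂ) • y)) (g := m) e2
      a2)
  have hexp : ∀ t ∈ Set.Icc (0 : ℝ) 1, Complex.exp (D t) = 1 := by
    intro t htm
    obtain ⟨h2, h3⟩ := ht t htm
    obtain ⟨x', hx'⟩ : ∃ x', x' = (t : ℂ) • x := ⟨_, rfl⟩
    obtain ⟨y', hy'⟩ : ∃ y', y' = (t : ℂ) • y := ⟨_, rfl⟩
    rw [hD]
    beta_reduce
    rw [← hx', ← hy']
    rw [← hx'] at h2
    rw [← hy'] at h3
    have g1 : nC x' ≤ r₀ := by linarith
    have g2 : nC y' ≤ r₀ := by linarith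
    have g1' : nC (-x') ≤ r₀ := by rwa [hn]
    have g2' : nC (-y') ≤ r₀ := by rwa [hn]
    have e1 := hs.eq (b (-x') y') (h.in_r hr (by rwa [hn]) h3)
    have e2 := hs.eq (b x' (-y')) (h.in_r hr h2 (by rwa [hn]))
    have e3 : F (uE B (b (-x') y')) = F (uE B (b x' (-y'))) := by
      rw [h.uE_mul g1' g2, h.uE_mul g1 g2', clsC B hG hf, ← hf.sym (uE B x' * uE B (-y')),
        _root_.mul_inv_rev, ← uE_neg, ← uE_neg, neg_neg]
    rw [e1, e2] at e3
    have e4 := mul_left_cancel₀ h1 e3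
    have e5 := h.qsym g1 g2
    rw [e5] at e4
    rw [Complex.exp_sub, Complex.exp_sub] at e4
    rw [Complex.exp_sub]
    have n1 := Complex.exp_ne_zero (-(k / 2) * qC (b x' (-y')))
    have n2 := Complex.exp_ne_zero (m (b (-x') y'))
    have n3 := Complex.exp_ne_zero (m (b x' (-y')))
    field_simp at e4 ⊢
    exact e4
  have h0 : D 0 = 0 := by
    rw [hD]
    simp
  have := int_path hcont h0 hexp
  rw [hD] at this
  simp only [Complex.ofReal_one, one_smul] at this
  exact (sub_eq_zero.1 this).symm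

lemma St.Tm_diff (hs : St B r k M F m) (h : BC B r₀ C b) (hr : r ≤ r₀) {x y : Fin n → ℂ}
    (hx : nC x < r / 2) (hy : nC y < r / 3) :
    DifferentiableAt ℂ (fun p : (Fin n → ℂ) × (Fin n → ℂ) => Tf b m p.1 p.2) (x, y) := by
  have hrp : 0 < r := by have := nC_nonneg x; linarith
  unfold Tf
  have e1 := hs.md (b x y) (h.in_r hr hx hy)
  have e2 := hs.md (b x (-y)) (h.in_r hr hx (by rwa [nC_neg]))
  have h1 := DifferentiableAt.comp (f := fun p : (Fin n → ℂ) × (Fin n → ℂ) => b p.1 p.2) (g := m)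
    (x, y) e1 (h.diff x y (by linarith) (by linarith))
  have h2 := DifferentiableAt.comp (f := fun p : (Fin n → ℂ) × (Fin n → ℂ) => b p.1 (-p.2))
    (g := m) (x, y) e2 (h.diff1 (by linarith) (by linarith))
  have h3 : DifferentiableAt ℂ (fun p : (Fin n → ℂ) × (Fin n → ℂ) => m p.1) (x, y) :=
    DifferentiableAt.comp (f := fun p : (Fin n → ℂ) × (Fin n → ℂ) => p.1) (g := m) (x, y)
      (hs.md x (by linarith)) differentiableAt_fst
  have h4 : DifferentiableAt ℂ (fun p : (Fin n → ℂ) × (Fin n → ℂ) => m p.2) (x, y) :=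
    DifferentiableAt.comp (f := fun p : (Fin n → ℂ) × (Fin n → ℂ) => p.2) (g := m) (x, y)
      (hs.md y (by linarith)) differentiableAt_snd
  exact ((h1.add h2).sub (h3.const_mul 2)).sub (h4.const_mul 2)

include hG in
/-- the second difference of the quartic remainder -/
theorem St.Tm (hs : St B r k M F m) (hf : CF f F) (h1 : F 1 ≠ 0) (h : BC B r₀ C b) (hr : r ≤ r₀)
    (hM : 0 ≤ M) {x y : Fin n → ℂ} (hx : nC x < r / 2) (hy : nC y < r / 3) :
    ‖Tf b m x y‖ ≤ 108 * M * nC x ^ 2 * nC y ^ 2 := by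
  have hrp : 0 < r := by have := nC_nonneg x; linarith
  have hn : ∀ z : Fin n → ℂ, nC (-z) = nC z := nC_neg
  refine (even_even (T := Tf b m) (r := r / 2) (r' := r / 3) (S := 3 * (M * r ^ 4)) ?_ ?_ ?_ ?_ ?_
    ?_ hx hy).trans (le_of_eq ?_)
  · intro x y hx hy
    exact hs.Tm_diff h hr hx hy
  · intro x y hx hy
    refine Tf_neg_left m x y (hs.even x (by linarith)) (hs.msym hG hf h1 h hr hx hy) ?_
    have := hs.msym hG hf h1 h hr hx (y := -y) (by rwa [hn])
    rwa [neg_neg] at this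
  · intro x y hx hy
    exact Tf_neg_right m x y (hs.even y (by linarith))
  · intro y hy
    unfold Tf
    rw [h.zero_left (by linarith), h.zero_left (by rw [hn]; linarith), hs.even y (by linarith),
      hs.m0 hrp]
    ring
  · intro x hx
    unfold Tf
    rw [neg_zero, h.zero_right (by linarith), hs.m0 hrp]
    ring
  · intro x y hx hy
    unfold Tf
    have h2 := (hs.bd (b x y) (h.in_r hr hx hy))
    have h3 := (hs.bd (b x (-y)) (h.in_r hr hx (by rwa [hn])))
    have h4 := hs.bd x (by linarith)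
    have h5 := hs.bd y (by linarith)
    have p2 : M * nC (b x y) ^ 4 ≤ M * r ^ 4 := by
      have := (h.in_r hr hx hy).le
      have := nC_nonneg (b x y)
      gcongr
    have p3 : M * nC (b x (-y)) ^ 4 ≤ M * r ^ 4 := by
      have := (h.in_r hr hx (y := -y) (by rwa [hn])).le
      have := nC_nonneg (b x (-y))
      gcongr
    have p4 : M * nC x ^ 4 ≤ M * (r / 2) ^ 4 := by
      have := nC_nonneg x
      gcongr
    have p5 : M * nC y ^ 4 ≤ M * (r / 3) ^ 4 := by
      have := nC_nonneg y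
      gcongr
    have q : 0 ≤ M * r ^ 4 := by positivity
    have e4 : M * (r / 2) ^ 4 = M * r ^ 4 / 16 := by ring
    have e5 : M * (r / 3) ^ 4 = M * r ^ 4 / 81 := by ring
    rw [e4] at p4
    rw [e5] at p5
    have n4 : ‖2 * m x‖ = 2 * ‖m x‖ := by rw [norm_mul]; norm_num
    have n5 : ‖2 * m y‖ = 2 * ‖m y‖ := by rw [norm_mul]; norm_num
    calc _ ≤ ‖m (b x y)‖ + ‖m (b x (-y))‖ + ‖2 * m x‖ + ‖2 * m y‖ := by
          refine (norm_sub_le _ _).trans (add_le_add ?_ le_rfl)
          refine (norm_sub_le _ _).trans (add_le_add ?_ le_rfl)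
          exact norm_add_le _ _
      _ ≤ _ := by rw [n4, n5]; linarith
  · field_simp
    ring

/-- the interaction between the two points -/
def Th (b : (Fin n → ℂ) → (Fin n → ℂ) → (Fin n → ℂ)) (k : ℝ) (m : (Fin n → ℂ) → ℂ)
    (x y : Fin n → ℂ) : ℂ :=
  (k / 2 : ℂ) * Tf b qC ((1 / 2 : ℂ) • x) y + Tf b m ((1 / 2 : ℂ) • x) y

lemma nC_half (x : Fin n → ℂ) : nC ((1 / 2 : ℂ) • x) = nC x / 2 := by
  rw [nC_smul]
  have : ‖(1 / 2 : ℂ)‖ = 1 / 2 := by norm_num
  rw [this]
  ring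

/-- the factorisation of the integrand -/
lemma St.fact (hs : St B r k M F m) (h : BC B r₀ C b) (hr : r ≤ r₀) {x y : Fin n → ℂ}
    (hx : nC x < r) (hy : nC y < r / 3) :
    F (uE B ((1 / 2 : ℂ) • x) * uE B y) * F (uE B ((1 / 2 : ℂ) • x) * uE B (-y)) * F 1 ^ 2 =
      F (uE B ((1 / 2 : ℂ) • x)) ^ 2 * F (uE B y) ^ 2 * Complex.exp (-Th b k m x y) := by
  have hrp : 0 < r := lt_of_le_of_lt (nC_nonneg x) hx
  have hx2 : nC ((1 / 2 : ℂ) • x) < r / 2 := by rw [nC_half]; linarith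
  have hy2 : nC (-y) < r / 3 := by rwa [nC_neg]
  rw [← h.uE_mul (by linarith) (by linarith), ← h.uE_mul (by linarith) (by linarith),
    hs.eq _ (h.in_r hr hx2 hy), hs.eq _ (h.in_r hr hx2 hy2), hs.eq _ (by linarith),
    hs.eq y (by linarith)]
  unfold Th Tf
  rw [mul_pow, mul_pow, ← Complex.exp_nat_mul, ← Complex.exp_nat_mul]
  have e : ∀ A1 A2 A3 A4 A5 : ℂ, A1 + A2 = A3 + A4 + A5 → F 1 * Complex.exp A1 *
      (F 1 * Complex.exp A2) * F 1 ^ 2 =
      F 1 ^ 2 * Complex.exp A3 * (F 1 ^ 2 * Complex.exp A4) * Complex.exp A5 := by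
    intro A1 A2 A3 A4 A5 hA
    have : Complex.exp A1 * Complex.exp A2 = Complex.exp A3 * Complex.exp A4 * Complex.exp A5 := by
      rw [← Complex.exp_add, ← Complex.exp_add, ← Complex.exp_add, hA]
    linear_combination F 1 ^ 4 * this
  refine e _ _ _ _ _ ?_
  push_cast
  ring

include hG in
/-- the interaction is small -/
lemma St.Th_le (hs : St B r k M F m) (hf : CF f F) (h1 : F 1 ≠ 0) (h : BC B r₀ C b) (hr : r ≤ r₀)
    (hM : 0 ≤ M) (hk : 0 ≤ k) {Cq : ℝ} (hq : ∀ x y : Fin n → ℂ, nC x < r₀ → nC y < r₀ →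
      ‖Tf b qC x y‖ ≤ Cq * nC x ^ 2 * nC y ^ 2) {x y : Fin n → ℂ}
    (hx : nC x < r) (hy : nC y < r / 3) :
    ‖Th b k m x y‖ ≤ (Cq / 8 * k + 27 * M) * nC x ^ 2 * nC y ^ 2 := by
  have hrp : 0 < r := lt_of_le_of_lt (nC_nonneg x) hx
  have hx2 : nC ((1 / 2 : ℂ) • x) < r / 2 := by rw [nC_half]; linarith
  unfold Th
  refine (norm_add_le _ _).trans ?_
  have h2 := hq ((1 / 2 : ℂ) • x) y (by linarith) (by linarith)
  have h3 := hs.Tm hG hf h1 h hr hM hx2 hy
  rw [norm_mul]
  have h4 : ‖(k / 2 : ℂ)‖ = k / 2 := by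
    have : (k / 2 : ℂ) = ((k / 2 : ℝ) : ℂ) := by push_cast; ring
    rw [this, Complex.norm_real, Real.norm_eq_abs, abs_of_nonneg (by positivity)]
  rw [h4]
  rw [nC_half] at h2 h3
  calc _ ≤ k / 2 * (Cq * (nC x / 2) ^ 2 * nC y ^ 2) + 108 * M * (nC x / 2) ^ 2 * nC y ^ 2 :=
        add_le_add (mul_le_mul_of_nonneg_left h2 (by positivity)) h3
    _ = _ := by ring

end

end

end Pool.Agent.N988.MK
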