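import Mathlib
import Pool.Agent.N988.MK.State
import Pool.Agent.N991.MK.Vol

/-!
# The convolution square in terms of the near part of the integral
-/

open MeasureTheory Filter Metric Asymptotics Matrix
open scoped Matrix.Norms.Frobenius Topology ContDiff
open Pool.Agent.H906R3.YM Pool.Agent.W793.YM Pool.Agent.TH618.YM Pool.Agent.N984.TW
open Pool.Agent.N991.MK

namespace Pool.Agent.N988.MK

set_option linter.unusedSectionVars false

noncomputable section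

variable {N n : ℕ} {G : Subgroup (UN N)} (B : Frame G n) (hG : IsClosed (G : Set (UN N)))

/-- the logarithm on the group near the identity -/
structure LN (r₀ : ℝ) : Prop where
  lg : ∀ g : G, nN g ≤ r₀ → ∃ y : Fin n → ℝ, Eg B hG y = g ∧ nE y ≤ 5 / 4 * nN g
  le : ∀ y : Fin n → ℝ, nN (Eg B hG y) ≤ nE y

variable [CompactSpace G] [MeasurableSpace G] [BorelSpace G] (μ : Measure G)
  [IsProbabilityMeasure μ] [μ.IsMulLeftInvariant] [μ.IsMulRightInvariant] [μ.IsInvInvariant]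

/-- the estimates on the integrals which follow from the tube bound -/
structure Inp (r k Cm : ℝ) (f : G → ℝ) (F : (Mat N)ˣ → ℂ) : Prop where
  mom : ∫ z in {z : G | nN z ≤ r / 4}, (f z) ^ 2 * (nN z ^ 2 * Real.exp (k / 10 * nN z ^ 2)) ∂μ ≤
    Cm / k * ∫ z, (f z) ^ 2 ∂μ
  far : ∀ x : Fin n → ℂ, nC x < r → ‖∫ z in {z : G | r / 4 < nN z},
    F (uE B ((1 / 2 : ℂ) • x) * uG z) * F ((uG z)⁻¹ * uE B ((1 / 2 : ℂ) • x)) ∂μ‖ * ‖F 1‖ ^ 2 ≤
      1 / k ^ 2 * ‖F (uE B ((1 / 2 : ℂ) • x))‖ ^ 2 * ∫ z, (f z) ^ 2 ∂μ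
  farP : ∀ x : Fin n → ℂ, nC x ≤ r / 16 → ∀ z : G, r / 4 < nN z →
    ‖F (uE B x * uG z)‖ ^ 2 ≤ 1 / k ^ 4 * ∫ z, (f z) ^ 2 ∂μ

variable {B hG μ}
variable {r₀ C : ℝ} {b : (Fin n → ℂ) → (Fin n → ℂ) → (Fin n → ℂ)}
variable {r k M Cm Cq : ℝ} {F : (Mat N)ˣ → ℂ} {m : (Fin n → ℂ) → ℂ} {f : G → ℝ}

lemma nN_cont : Continuous (nN : G → ℝ) := (mt_cont.sub continuous_const).norm

lemma half_half (x : Fin n → ℂ) : uE B ((1 / 2 : ℂ) • x) * uE B ((1 / 2 : ℂ) • x) = uE B x := by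
  rw [← uE_add_smul]
  norm_num

variable (B) in
/-- the integrand -/
def Jn (F : (Mat N)ˣ → ℂ) (x : Fin n → ℂ) (z : G) : ℂ :=
  F (uE B ((1 / 2 : ℂ) • x) * uG z) * F ((uG z)⁻¹ * uE B ((1 / 2 : ℂ) • x))

include hG in
lemma conv_eq (hF : Hol F) (x : Fin n → ℂ) : convC μ F F (uE B x) = ∫ z : G, Jn B F x z ∂μ := by
  have h := convC_shift B hG (μ := μ) hF hF ((1 / 2 : ℂ) • x) (uE B ((1 / 2 : ℂ) • x))
  rw [half_half] at h
  exact h

lemma CF.F1 (hf : CF f F) : F 1 = (f 1 : ℂ) := by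
  have := hf.res 1
  rwa [map_one] at this

include B hG in
lemma conv_one (hf : CF f F) : convC μ F F 1 = ((∫ z : G, (f z) ^ 2 ∂μ : ℝ) : ℂ) := by
  have h := conv_eq (B := B) (hG := hG) (μ := μ) hf.hol 0
  rw [uE_zero] at h
  rw [h, ← integral_complex_ofReal]
  refine integral_congr_ae (Eventually.of_forall fun z => ?_)
  simp only [Jn, smul_zero, uE_zero, one_mul, mul_one]
  rw [hf.sym, hf.res]
  push_cast
  ring

lemma Jn_zero (hf : CF f F) (z : G) : Jn B F 0 z = ((f z : ℝ) : ℂ) ^ 2 := by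
  simp only [Jn, smul_zero, uE_zero, one_mul, mul_one]
  rw [hf.sym, hf.res]
  ring

lemma Jn_cont (hF : Hol F) (x : Fin n → ℂ) : Continuous fun z : G => Jn B F x z := by
  unfold Jn
  refine (hF.cont2 (u := fun z : G => uE B ((1 / 2 : ℂ) • x) * uG z) ?_ ?_).mul
    (hF.cont2 (u := fun z : G => (uG z)⁻¹ * uE B ((1 / 2 : ℂ) • x)) ?_ ?_)
  · exact continuous_const.mul mt_cont
  · have : (fun z : G => (((uE B ((1 / 2 : ℂ) • x) * uG z)⁻¹ : (Mat N)ˣ) : Mat N)) =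
        fun z : G => mt z⁻¹ * EC B (-((1 / 2 : ℂ) • x)) := by
      funext z; rw [_root_.mul_inv_rev]; rfl
    rw [this]
    exact mt_inv_cont.mul continuous_const
  · exact mt_inv_cont.mul continuous_const
  · have : (fun z : G => ((((uG z)⁻¹ * uE B ((1 / 2 : ℂ) • x))⁻¹ : (Mat N)ˣ) : Mat N)) =
        fun z : G => EC B (-((1 / 2 : ℂ) • x)) * mt z := by
      funext z; rw [_root_.mul_inv_rev, inv_inv]; rfl
    rw [this]
    exact continuous_const.mul mt_cont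

lemma intg {φ : G → ℂ} (h : Continuous φ) : Integrable φ μ :=
  h.integrable_of_hasCompactSupport (HasCompactSupport.of_compactSpace _)

lemma intgR {φ : G → ℝ} (h : Continuous φ) : Integrable φ μ :=
  h.integrable_of_hasCompactSupport (HasCompactSupport.of_compactSpace _)

lemma exp_sub_one_le (z : ℂ) : ‖Complex.exp (-z) - 1‖ ≤ ‖z‖ * Real.exp ‖z‖ := by
  have h := Complex.norm_exp_sub_sum_le_norm_mul_exp (-z) 1
  simpa using h

/-- near points -/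
lemma near_pt (hs : St B r k M F m) (hf : CF f F) (h1 : F 1 ≠ 0) (h : BC B r₀ C b) (hr : r ≤ r₀)
    (hr0 : 0 < r) (hl : LN B hG r₀) (hM : 0 ≤ M) (hk : 0 ≤ k)
    (hq : ∀ x y : Fin n → ℂ, nC x < r₀ → nC y < r₀ →
      ‖Tf b qC x y‖ ≤ Cq * nC x ^ 2 * nC y ^ 2) (hCq : 0 ≤ Cq) {x : Fin n → ℂ}
    (hx : nC x < r) {z : G} (hz : nN z ≤ r / 4) : ∃ y : Fin n → ℝ, Eg B hG y = z ∧
      nE y ≤ 5 / 4 * nN z ∧ nE y < r / 3 ∧ nN z ≤ nE y ∧
      Jn B F x z * F 1 ^ 2 = F (uE B ((1 / 2 : ℂ) • x)) ^ 2 * (f z : ℂ) ^ 2 *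
        Complex.exp (-Th b k m x (rl y)) ∧
      ‖Th b k m x (rl y)‖ ≤ (Cq / 8 * k + 27 * M) * (25 / 16) * nC x ^ 2 * nN z ^ 2 := by
  obtain ⟨y, hy, hy2⟩ := hl.lg z (by linarith)
  have hy3 : nE y < r / 3 := by linarith
  refine ⟨y, hy, hy2, hy3, by rw [← hy]; exact hl.le y, ?_, ?_⟩
  · have h2 := hs.fact h hr (x := x) (y := rl y) hx (by rwa [nC_rl])
    have e1 : uE B (rl y) = uG z := by rw [uE_rl B hG, hy]
    have e2 : uE B (-rl y) = (uG z)⁻¹ := by rw [uE_neg, e1]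
    rw [e1, e2, hf.res] at h2
    rw [← h2]
    unfold Jn
    rw [hf.swap', map_inv]
  · have h2 := hs.Th_le hG hf h1 h hr hM hk hq hx (y := rl y) (by rwa [nC_rl])
    refine h2.trans ?_
    rw [nC_rl]
    have h3 : nE y ^ 2 ≤ 25 / 16 * nN z ^ 2 := by
      have := pow_le_pow_left₀ (nE_nonneg y) hy2 2
      nlinarith
    have h4 : 0 ≤ (Cq / 8 * k + 27 * M) * nC x ^ 2 := by positivity
    calc _ ≤ (Cq / 8 * k + 27 * M) * nC x ^ 2 * (25 / 16 * nN z ^ 2) :=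
          mul_le_mul_of_nonneg_left h3 h4
      _ = _ := by ring

lemma split_int {φ : G → ℂ} (h : Continuous φ) : ∫ z, φ z ∂μ =
    (∫ z in {z : G | nN z ≤ r / 4}, φ z ∂μ) + ∫ z in {z : G | r / 4 < nN z}, φ z ∂μ := by
  have hm : MeasurableSet {z : G | nN z ≤ r / 4} :=
    (isClosed_le nN_cont continuous_const).measurableSet
  have hc : {z : G | nN z ≤ r / 4}ᶜ = {z : G | r / 4 < nN z} := by
    ext z; simp
  rw [← integral_add_compl hm (intg h), hc]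

lemma split_intR {φ : G → ℝ} (h : Continuous φ) : ∫ z, φ z ∂μ =
    (∫ z in {z : G | nN z ≤ r / 4}, φ z ∂μ) + ∫ z in {z : G | r / 4 < nN z}, φ z ∂μ := by
  have hm : MeasurableSet {z : G | nN z ≤ r / 4} :=
    (isClosed_le nN_cont continuous_const).measurableSet
  have hc : {z : G | nN z ≤ r / 4}ᶜ = {z : G | r / 4 < nN z} := by
    ext z; simp
  rw [← integral_add_compl hm (intgR h), hc]

/-- the far part of the normalisation -/
lemma Inp.far0 (hi : Inp B μ r k Cm f F) (hf : CF f F) (h1 : F 1 ≠ 0) (hr0 : 0 < r) :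
    ∫ z in {z : G | r / 4 < nN z}, (f z) ^ 2 ∂μ ≤ 1 / k ^ 2 * ∫ z, (f z) ^ 2 ∂μ := by
  have h2 := hi.far 0 (by rw [nC_zero]; exact hr0)
  rw [smul_zero, uE_zero] at h2
  have e : ∫ z in {z : G | r / 4 < nN z}, F (1 * uG z) * F ((uG z)⁻¹ * 1) ∂μ =
      ((∫ z in {z : G | r / 4 < nN z}, (f z) ^ 2 ∂μ : ℝ) : ℂ) := by
    rw [← integral_complex_ofReal]
    refine integral_congr_ae (Eventually.of_forall fun z => ?_)
    beta_reduce
    rw [one_mul, mul_one, hf.sym, hf.res]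
    push_cast
    ring
  rw [e, Complex.norm_real, Real.norm_eq_abs] at h2
  have h3 : 0 < ‖F 1‖ ^ 2 := by have := norm_pos_iff.2 h1; positivity
  have h4 : |∫ z in {z : G | r / 4 < nN z}, (f z) ^ 2 ∂μ| * ‖F 1‖ ^ 2 ≤
      (1 / k ^ 2 * ∫ z, (f z) ^ 2 ∂μ) * ‖F 1‖ ^ 2 := by
    refine h2.trans (le_of_eq ?_); ring
  exact (le_abs_self _).trans (le_of_mul_le_mul_right h4 h3)

/-- **the convolution square compared with the square of the half point** -/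
theorem conv_near (hs : St B r k M F m) (hf : CF f F) (h1 : F 1 ≠ 0) (h : BC B r₀ C b)
    (hr : r ≤ r₀) (hr0 : 0 < r) (hl : LN B hG r₀) (hM : 0 ≤ M) (hk : 0 < k)
    (hi : Inp B μ r k Cm f F)
    (hq : ∀ x y : Fin n → ℂ, nC x < r₀ → nC y < r₀ →
      ‖Tf b qC x y‖ ≤ Cq * nC x ^ 2 * nC y ^ 2) (hCq : 0 ≤ Cq) {A : ℝ}
    (hA : A = (Cq / 8 * k + 27 * M) * (25 / 16)) (hAr : A * r ^ 2 ≤ k / 10) {x : Fin n → ℂ}
    (hx : nC x < r) :
    ‖convC μ F F (uE B x) * F 1 ^ 2 - F (uE B ((1 / 2 : ℂ) • x)) ^ 2 *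
      ((∫ z : G, (f z) ^ 2 ∂μ : ℝ) : ℂ)‖ ≤
      ‖F (uE B ((1 / 2 : ℂ) • x))‖ ^ 2 * (∫ z : G, (f z) ^ 2 ∂μ) *
        (A * nC x ^ 2 * Cm / k + 2 / k ^ 2) := by
  obtain ⟨P, hP⟩ : ∃ P, P = F (uE B ((1 / 2 : ℂ) • x)) := ⟨_, rfl⟩
  obtain ⟨W, hW⟩ : ∃ W : ℝ, W = ∫ z : G, (f z) ^ 2 ∂μ := ⟨_, rfl⟩
  have hA0 : 0 ≤ A := by rw [hA]; positivity
  have hfc : Continuous f := hf.cont
  have hf2 : Continuous fun z : G => ((f z : ℝ) : ℂ) ^ 2 :=
    (Complex.continuous_ofReal.comp hfc).pow 2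
  have eW : ((∫ z : G, (f z) ^ 2 ∂μ : ℝ) : ℂ) = ∫ z : G, ((f z : ℝ) : ℂ) ^ 2 ∂μ := by
    rw [← integral_complex_ofReal]
    refine integral_congr_ae (Eventually.of_forall fun z => ?_)
    beta_reduce
    push_cast
    rfl
  have e1 : convC μ F F (uE B x) * F 1 ^ 2 - P ^ 2 * ((∫ z : G, (f z) ^ 2 ∂μ : ℝ) : ℂ) =
      (∫ z in {z : G | nN z ≤ r / 4}, (Jn B F x z * F 1 ^ 2 - P ^ 2 * ((f z : ℝ) : ℂ) ^ 2) ∂μ) +
      ((∫ z in {z : G | r / 4 < nN z}, Jn B F x z ∂μ) * F 1 ^ 2 -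
        P ^ 2 * ∫ z in {z : G | r / 4 < nN z}, ((f z : ℝ) : ℂ) ^ 2 ∂μ) := by
    rw [conv_eq (B := B) (hG := hG) (μ := μ) hf.hol x, eW, split_int (r := r) (Jn_cont hf.hol x),
      split_int (r := r) hf2, integral_sub, integral_mul_const, integral_const_mul]
    · ring
    · exact ((intg (Jn_cont hf.hol x)).mul_const _).integrableOn
    · exact ((intg hf2).const_mul _).integrableOn
  have e2 : ‖∫ z in {z : G | nN z ≤ r / 4}, (Jn B F x z * F 1 ^ 2 - P ^ 2 * ((f z : ℝ) : ℂ) ^ 2)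
      ∂μ‖ ≤ ‖P‖ ^ 2 * (A * nC x ^ 2) * (Cm / k * W) := by
    have hm : MeasurableSet {z : G | nN z ≤ r / 4} :=
      (isClosed_le nN_cont continuous_const).measurableSet
    refine (norm_integral_le_integral_norm _).trans ?_
    have h3 : ∫ z in {z : G | nN z ≤ r / 4}, ‖Jn B F x z * F 1 ^ 2 - P ^ 2 * ((f z : ℝ) : ℂ) ^ 2‖
        ∂μ ≤ ∫ z in {z : G | nN z ≤ r / 4}, ‖P‖ ^ 2 * (A * nC x ^ 2) *
          ((f z) ^ 2 * (nN z ^ 2 * Real.exp (k / 10 * nN z ^ 2))) ∂μ := by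
      refine setIntegral_mono_on ?_ ?_ hm fun z hz => ?_
      · refine (intg ?_).norm.integrableOn
        exact ((Jn_cont hf.hol x).mul continuous_const).sub (continuous_const.mul hf2)
      · refine (intgR ?_).integrableOn
        refine continuous_const.mul ((hfc.pow 2).mul ((nN_cont.pow 2).mul ?_))
        exact Real.continuous_exp.comp (continuous_const.mul (nN_cont.pow 2))
      · have hz' : nN z ≤ r / 4 := hz
        obtain ⟨y, -, -, -, -, h4, h5⟩ := near_pt hs hf h1 h hr hr0 hl hM hk.le hq hCq hx hz'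
        rw [← hP] at h4
        rw [← hA] at h5
        rw [h4]
        have e3 : P ^ 2 * (f z : ℂ) ^ 2 * Complex.exp (-Th b k m x (rl y)) -
            P ^ 2 * ((f z : ℝ) : ℂ) ^ 2 =
            P ^ 2 * ((f z : ℝ) : ℂ) ^ 2 * (Complex.exp (-Th b k m x (rl y)) - 1) := by ring
        rw [e3, norm_mul, norm_mul, norm_pow, norm_pow, Complex.norm_real, Real.norm_eq_abs,
          sq_abs]
        have h6 := exp_sub_one_le (Th b k m x (rl y))
        have h7 : ‖Th b k m x (rl y)‖ ≤ k / 10 * nN z ^ 2 := by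
          refine h5.trans ?_
          refine mul_le_mul_of_nonneg_right ?_ (sq_nonneg _)
          refine le_trans ?_ hAr
          have := nC_nonneg x
          gcongr
        have h8 : ‖Th b k m x (rl y)‖ * Real.exp ‖Th b k m x (rl y)‖ ≤
            (A * nC x ^ 2 * nN z ^ 2) * Real.exp (k / 10 * nN z ^ 2) := by
          gcongr
        have h9 : 0 ≤ ‖P‖ ^ 2 * f z ^ 2 := by positivity
        calc ‖P‖ ^ 2 * f z ^ 2 * ‖Complex.exp (-Th b k m x (rl y)) - 1‖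
            ≤ ‖P‖ ^ 2 * f z ^ 2 * ((A * nC x ^ 2 * nN z ^ 2) * Real.exp (k / 10 * nN z ^ 2)) :=
              mul_le_mul_of_nonneg_left (h6.trans h8) h9
          _ = _ := by ring
    refine h3.trans ?_
    rw [integral_const_mul]
    rw [hW]
    have h4 : 0 ≤ ‖P‖ ^ 2 * (A * nC x ^ 2) := by positivity
    exact mul_le_mul_of_nonneg_left hi.mom h4
  have e3 := hi.far x hx
  have e4 := hi.far0 hf h1 hr0
  rw [← hW] at e3 e4
  rw [← hP] at e3
  have e5 : ‖(∫ z in {z : G | r / 4 < nN z}, Jn B F x z ∂μ) * F 1 ^ 2‖ ≤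
      1 / k ^ 2 * ‖P‖ ^ 2 * W := by
    rw [norm_mul, norm_pow]
    exact e3
  have e6 : ‖P ^ 2 * ∫ z in {z : G | r / 4 < nN z}, ((f z : ℝ) : ℂ) ^ 2 ∂μ‖ ≤
      ‖P‖ ^ 2 * (1 / k ^ 2 * W) := by
    rw [norm_mul, norm_pow]
    have e7 : ∫ z in {z : G | r / 4 < nN z}, ((f z : ℝ) : ℂ) ^ 2 ∂μ =
        ((∫ z in {z : G | r / 4 < nN z}, (f z) ^ 2 ∂μ : ℝ) : ℂ) := by
      rw [← integral_complex_ofReal]
      refine integral_congr_ae (Eventually.of_forall fun z => ?_)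
      beta_reduce
      push_cast
      rfl
    rw [e7, Complex.norm_real, Real.norm_eq_abs, abs_of_nonneg
      (integral_nonneg fun z => sq_nonneg _)]
    exact mul_le_mul_of_nonneg_left e4 (sq_nonneg _)
  rw [← hP, e1, ← hW]
  refine (norm_add_le _ _).trans ?_
  have e7 := norm_sub_le ((∫ z in {z : G | r / 4 < nN z}, Jn B F x z ∂μ) * F 1 ^ 2)
    (P ^ 2 * ∫ z in {z : G | r / 4 < nN z}, ((f z : ℝ) : ℂ) ^ 2 ∂μ)
  calc _ ≤ ‖P‖ ^ 2 * (A * nC x ^ 2) * (Cm / k * W) + (1 / k ^ 2 * ‖P‖ ^ 2 * W +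
        ‖P‖ ^ 2 * (1 / k ^ 2 * W)) := by linarith
    _ = _ := by ring

end

end Pool.Agent.N988.MK
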