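import Mathlib
import Pool.Agent.N988.MK.Near

/-!
# The quadratic part of the convolution square
-/

open MeasureTheory Filter Metric Asymptotics Matrix
open scoped Matrix.Norms.Frobenius Topology ContDiff
open Pool.Agent.H906R3.YM Pool.Agent.W793.YM Pool.Agent.TH618.YM Pool.Agent.N984.TW
open Pool.Agent.N991.MK

namespace Pool.Agent.N988.MK

set_option linter.unusedSectionVars false

noncomputable section

variable {N n : ℕ} {G : Subgroup (UN N)} (B : Frame G n) (hG : IsClosed (G : Set (UN N)))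

/-! ## the adjoint action in coordinates -/

/-- the adjoint action in coordinates -/
def Adx (g : G) (x : Fin n → ℝ) : Fin n → ℝ := pc B (mt g * LX B x * mt g⁻¹)

lemma exp_conj (g : G) (Y : Mat N) : NormedSpace.exp (mt g * Y * mt g⁻¹) =
    mt g * NormedSpace.exp Y * mt g⁻¹ := by
  have := Matrix.exp_units_conj (uG g) Y
  exact this

include hG in
lemma LX_Ad (g : G) (x : Fin n → ℝ) : LX B (Adx B g x) = mt g * LX B x * mt g⁻¹ := by
  have h1 : mt g * LX B x * mt g⁻¹ ∈ Submodule.span ℝ (Set.range B.X) := by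
    refine B.full _ fun t => ⟨g * Eg B hG (t • x) * g⁻¹, ?_⟩
    rw [mt_mul, mt_mul, mt_Eg, EM, ← exp_conj, LX_smul]
    congr 1
    rw [mul_smul_comm, smul_mul_assoc]
  obtain ⟨c, hc⟩ := (Submodule.mem_span_range_iff_exists_fun ℝ).1 h1
  have h2 : LX B c = mt g * LX B x * mt g⁻¹ := hc
  unfold Adx
  rw [← h2, pc_LX]

include hG in
lemma uE_Ad (g : G) (x : Fin n → ℝ) :
    uE B (rl (Adx B g x)) = uG g * uE B (rl x) * (uG g)⁻¹ := by
  refine Units.ext ?_
  rw [Units.val_mul, Units.val_mul, uE_val, uE_val, uG_val, uG_inv_val, EC_rl, EC_rl]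
  unfold EM
  rw [LX_Ad B hG, exp_conj]

/-- every invariant quadratic form is a multiple of the scalar product -/
def IsoG : Prop := ∀ Q : Fin n → Fin n → ℝ, (∀ a b, Q a b = Q b a) →
  (∀ (g : G) (x : Fin n → ℝ), ∑ a, ∑ b, Q a b * (Adx B g x a * Adx B g x b) =
    ∑ a, ∑ b, Q a b * (x a * x b)) → ∃ κ : ℝ, ∀ a b, Q a b = if a = b then κ else 0

/-! ## derivatives of the extension -/

variable [CompactSpace G] [MeasurableSpace G] [BorelSpace G] {μ : Measure G}
  [IsProbabilityMeasure μ] [μ.IsMulLeftInvariant] [μ.IsMulRightInvariant] [μ.IsInvInvariant]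
variable {F : (Mat N)ˣ → ℂ} {f : G → ℝ}

/-- the derivative at the identity -/
def Lz (F : (Mat N)ˣ → ℂ) (z : G) : (Fin n → ℂ) →L[ℂ] ℂ :=
  fderiv ℂ (fun x => F (uE B x * uG z)) 0

variable {B}

lemma exists_R (hF : Hol F) : ∃ R : (Fin n → ℂ) × (Mat N × Mat N) → ℂ, ContDiff ℂ ∞ R ∧
    ∀ (x : Fin n → ℂ) (z : G), F (uE B x * uG z) = R (x, (mt z, mt z⁻¹)) := by
  obtain ⟨Φ, h1, h2⟩ := hF
  refine ⟨fun q => Φ (EC B q.1 * q.2.1, q.2.2 * EC B (-q.1)), ?_, fun x z => ?_⟩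
  · have e1 : ContDiff ℂ ∞ fun q : (Fin n → ℂ) × (Mat N × Mat N) => q.2.1 :=
      contDiff_fst.comp contDiff_snd
    have e2 : ContDiff ℂ ∞ fun q : (Fin n → ℂ) × (Mat N × Mat N) => q.2.2 :=
      contDiff_snd.comp contDiff_snd
    have e3 : ContDiff ℂ ∞ fun q : (Fin n → ℂ) × (Mat N × Mat N) => EC B q.1 :=
      (EC_contDiff B).comp contDiff_fst
    have e4 : ContDiff ℂ ∞ fun q : (Fin n → ℂ) × (Mat N × Mat N) => EC B (-q.1) :=
      (EC_contDiff B).comp contDiff_fst.neg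
    exact h1.comp ((e3.mul e1).prodMk (e2.mul e4))
  · rw [h2, _root_.mul_inv_rev]
    rfl

lemma F_diff (hF : Hol F) (z : G) : Differentiable ℂ fun x : Fin n → ℂ => F (uE B x * uG z) := by
  obtain ⟨R, h1, h2⟩ := exists_R (B := B) (G := G) hF
  have e : (fun x : Fin n → ℂ => F (uE B x * uG z)) = fun x => R (x, (mt z, mt z⁻¹)) := by
    funext x; exact h2 x z
  rw [e]
  exact (h1.comp (contDiff_id.prodMk contDiff_const)).differentiable (by simp)

lemma FE_diff (hF : Hol F) : Differentiable ℂ fun x : Fin n → ℂ => F (uE B x) := by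
  have := F_diff (B := B) hF (1 : G)
  simpa using this

lemma conv_sq_id (hG : IsClosed (G : Set (UN N))) (hf : CF f F) (x : Fin n → ℂ) (s t : ℂ) :
    convC μ F F (uE B ((s - t) • x)) =
      ∫ z : G, F (uE B (s • x) * uG z) * F (uE B (t • x) * uG z) ∂μ := by
  have h := convC_shift B hG (μ := μ) hf.hol hf.hol (s • x) (uE B (-(t • x)))
  have e : uE B (s • x) * uE B (-(t • x)) = uE B ((s - t) • x) := by
    rw [← neg_smul, ← uE_add_smul, sub_eq_add_neg]
  rw [e] at h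
  rw [h]
  refine integral_congr_ae (Eventually.of_forall fun z => ?_)
  beta_reduce
  rw [← hf.sym ((uG z)⁻¹ * uE B (-(t • x))), _root_.mul_inv_rev, ← uE_neg, neg_neg, inv_inv]

/-- the second difference of the convolution square at the identity -/
theorem quad_limit (hG : IsClosed (G : Set (UN N))) (hf : CF f F) (x : Fin n → ℂ) :
    Tendsto (fun ζ : ℂ => 2 * (convC μ F F 1 - convC μ F F (uE B (ζ • x))) / ζ ^ 2) (𝓝[≠] 0)
      (𝓝 (∫ z, (Lz B F z x) ^ 2 ∂μ)) := by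
  obtain ⟨R, hR, hR2⟩ := exists_R (B := B) (G := G) hf.hol
  obtain ⟨φ, hφ⟩ : ∃ φ : ℂ → G → ℂ, φ = fun ζ z => F (uE B (ζ • x) * uG z) := ⟨_, rfl⟩
  obtain ⟨R', hR'⟩ : ∃ R' : ℂ × (Mat N × Mat N) → ℂ, R' = fun q => R (q.1 • x, q.2) := ⟨_, rfl⟩
  have hR'c : ContDiff ℂ ∞ R' := by
    rw [hR']
    exact hR.comp ((contDiff_fst.smul contDiff_const).prodMk contDiff_snd)
  have hφR : ∀ ζ z, φ ζ z = R' (ζ, (mt z, mt z⁻¹)) := by
    intro ζ z; rw [hφ, hR']; exact hR2 _ z
  have hcz : Continuous fun z : G => ((mt z, mt z⁻¹) : Mat N × Mat N) :=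
    mt_cont.prodMk mt_inv_cont
  have hder : ∀ ζ z, HasDerivAt (fun ζ => φ ζ z)
      (fderiv ℂ R' (ζ, (mt z, mt z⁻¹)) (1, 0)) ζ := by
    intro ζ z
    have h1 : HasFDerivAt R' (fderiv ℂ R' (ζ, (mt z, mt z⁻¹))) (ζ, (mt z, mt z⁻¹)) :=
      ((hR'c.differentiable (by simp)) _).hasFDerivAt
    have h2 : HasDerivAt (fun ζ : ℂ => ((ζ, (mt z, mt z⁻¹)) : ℂ × (Mat N × Mat N))) (1, 0) ζ :=
      (hasDerivAt_id ζ).prodMk (hasDerivAt_const ζ _)
    have h3 := h1.comp_hasDerivAt ζ h2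
    have e : (fun ζ => φ ζ z) = R' ∘ fun ζ : ℂ => ((ζ, (mt z, mt z⁻¹)) : ℂ × (Mat N × Mat N)) := by
      funext ζ; exact hφR ζ z
    rw [e]
    exact h3
  have hcont : Continuous fun p : ℂ × G => fderiv ℂ R' (p.1, (mt p.2, mt p.2⁻¹)) (1, 0) := by
    have h1 : Continuous (fderiv ℂ R') := hR'c.continuous_fderiv (by simp)
    exact (h1.comp (continuous_fst.prodMk (hcz.comp continuous_snd))).clm_apply continuous_const
  have hK : IsCompact (closedBall (0 : ℂ) 1 ×ˢ (Set.univ : Set G)) :=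
    (isCompact_closedBall 0 1).prod isCompact_univ
  obtain ⟨K, hKb⟩ := hK.exists_bound_of_continuousOn hcont.continuousOn
  have hlip : ∀ ζ ∈ closedBall (0 : ℂ) 1, ∀ z, ‖φ ζ z - φ 0 z‖ ≤ K * ‖ζ‖ := by
    intro ζ hζ z
    have := (convex_closedBall (0 : ℂ) 1).norm_image_sub_le_of_norm_hasDerivWithin_le
      (f := fun ζ => φ ζ z) (fun ζ _ => (hder ζ z).hasDerivWithinAt)
      (fun ζ hζ => hKb (ζ, z) ⟨hζ, Set.mem_univ _⟩) (mem_closedBall_self zero_le_one) hζ
    simpa using this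
  have hid : ∀ ζ : ℂ, 2 * (convC μ F F 1 - convC μ F F (uE B (ζ • x))) =
      ∫ z, (φ ζ z - φ 0 z) ^ 2 ∂μ := by
    intro ζ
    have h1 := conv_sq_id (B := B) (μ := μ) hG hf x ζ ζ
    have h2 := conv_sq_id (B := B) (μ := μ) hG hf x 0 0
    have h3 := conv_sq_id (B := B) (μ := μ) hG hf x ζ 0
    rw [sub_self, zero_smul, uE_zero] at h1 h2
    rw [sub_zero] at h3
    have hc : ∀ ζ, Continuous (φ ζ) := by
      intro ζ
      have : φ ζ = fun z => R' (ζ, (mt z, mt z⁻¹)) := by funext z; exact hφR ζ z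
      rw [this]
      exact hR'c.continuous.comp (continuous_const.prodMk hcz)
    have h1' : convC μ F F 1 = ∫ z, φ ζ z * φ ζ z ∂μ := by rw [h1, hφ]
    have h2' : convC μ F F 1 = ∫ z, φ 0 z * φ 0 z ∂μ := by
      rw [h2, hφ]
      beta_reduce
      rw [zero_smul, uE_zero]
    have h3' : convC μ F F (uE B (ζ • x)) = ∫ z, φ ζ z * φ 0 z ∂μ := by
      rw [h3, hφ]
    have e : ∀ z, (φ ζ z - φ 0 z) ^ 2 = φ ζ z * φ ζ z + φ 0 z * φ 0 z -
        2 * (φ ζ z * φ 0 z) := fun z => by ring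
    rw [integral_congr_ae (Eventually.of_forall e), integral_sub, integral_add,
      integral_const_mul, ← h1', ← h2', ← h3']
    · ring
    · exact intg ((hc ζ).mul (hc ζ))
    · exact intg ((hc 0).mul (hc 0))
    · exact intg (((hc ζ).mul (hc ζ)).add ((hc 0).mul (hc 0)))
    · exact (intg ((hc ζ).mul (hc 0))).const_mul 2
  have hlz : ∀ z, Lz B F z x = fderiv ℂ R' (0, (mt z, mt z⁻¹)) (1, 0) := by
    intro z
    have h1 : HasFDerivAt (fun x => F (uE B x * uG z)) (Lz B F z) ((0 : ℂ) • x) := by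
      rw [zero_smul]
      exact ((F_diff (B := B) hf.hol z) 0).hasFDerivAt
    have h2 : HasDerivAt (fun ζ : ℂ => ζ • x) x 0 := by
      simpa using (hasDerivAt_id (0 : ℂ)).smul_const x
    have h3 := h1.comp_hasDerivAt (0 : ℂ) h2
    have h4 := hder 0 z
    rw [hφ] at h4
    exact h3.unique h4
  have hlim := tendsto_integral_filter_of_dominated_convergence (μ := μ) (l := 𝓝[≠] (0 : ℂ))
    (F := fun ζ z => ((φ ζ z - φ 0 z) / ζ) ^ 2) (f := fun z => (Lz B F z x) ^ 2)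
    (fun _ => K ^ 2) ?_ ?_ ?_ ?_
  · refine hlim.congr' ?_
    filter_upwards [self_mem_nhdsWithin] with ζ hζ
    rw [hid, ← integral_div]
    refine integral_congr_ae (Eventually.of_forall fun z => ?_)
    beta_reduce
    rw [div_pow]
  · refine Eventually.of_forall fun ζ => ?_
    have hc : ∀ ζ, Continuous (φ ζ) := by
      intro ζ
      have : φ ζ = fun z => R' (ζ, (mt z, mt z⁻¹)) := by funext z; exact hφR ζ z
      rw [this]
      exact hR'c.continuous.comp (continuous_const.prodMk hcz)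
    exact ((((hc ζ).sub (hc 0)).div_const ζ).pow 2).aestronglyMeasurable
  · have h1 : closedBall (0 : ℂ) 1 ∈ 𝓝[≠] (0 : ℂ) :=
      mem_nhdsWithin_of_mem_nhds (closedBall_mem_nhds _ one_pos)
    filter_upwards [self_mem_nhdsWithin, h1] with ζ hζ hζ1
    refine Eventually.of_forall fun z => ?_
    rw [norm_pow, norm_div]
    have h2 := hlip ζ hζ1 z
    have h3 : 0 < ‖ζ‖ := norm_pos_iff.2 hζ
    have h4 : ‖φ ζ z - φ 0 z‖ / ‖ζ‖ ≤ K := by rwa [div_le_iff₀ h3]
    exact pow_le_pow_left₀ (by positivity) h4 2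
  · exact integrable_const _
  · refine Eventually.of_forall fun z => ?_
    rw [hlz z]
    have h1 := (hder 0 z).tendsto_slope
    have h2 := h1.pow 2
    refine h2.congr fun ζ => ?_
    rw [slope_def_field, sub_zero]

end

end Pool.Agent.N988.MK
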