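import Mathlib
import Pool.Agent.N988.MK.Quad

/-!
# The logarithm of the convolution square
-/

open MeasureTheory Filter Metric Asymptotics Matrix
open scoped Matrix.Norms.Frobenius Topology ContDiff
open Pool.Agent.H906R3.YM Pool.Agent.W793.YM Pool.Agent.TH618.YM Pool.Agent.N984.TW
open Pool.Agent.N991.MK

namespace Pool.Agent.N988.MK

set_option linter.unusedSectionVars false

noncomputable section

variable {N n : ℕ} {G : Subgroup (UN N)} (B : Frame G n) (hG : IsClosed (G : Set (UN N)))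
variable [CompactSpace G] [MeasurableSpace G] [BorelSpace G] (μ : Measure G)
  [IsProbabilityMeasure μ] [μ.IsMulLeftInvariant] [μ.IsMulRightInvariant] [μ.IsInvInvariant]

/-- the size of the interaction -/
def Aq (Cq k M : ℝ) : ℝ := (Cq / 8 * k + 27 * M) * (25 / 16)

/-- the relative size of the correction -/
def eta (Cq Cm r k M : ℝ) : ℝ := Aq Cq k M * r ^ 2 * Cm / k + 2 / k ^ 2

/-- all the hypotheses of the one-step estimate -/
structure Hy (r₀ C : ℝ) (b : (Fin n → ℂ) → (Fin n → ℂ) → (Fin n → ℂ)) (r k M Cm Cq : ℝ)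
    (f : G → ℝ) (F : (Mat N)ˣ → ℂ) (m : (Fin n → ℂ) → ℂ) : Prop where
  hs : St B r k M F m
  hf : CF f F
  h1 : F 1 ≠ 0
  h : BC B r₀ C b
  hr : r ≤ r₀
  hr0 : 0 < r
  hl : LN B hG r₀
  hM : 0 ≤ M
  hk : 0 < k
  hi : Inp B μ r k Cm f F
  hq : ∀ x y : Fin n → ℂ, nC x < r₀ → nC y < r₀ → ‖Tf b qC x y‖ ≤ Cq * nC x ^ 2 * nC y ^ 2
  hCq : 0 ≤ Cq
  hCm : 0 ≤ Cm
  hAr : Aq Cq k M * r ^ 2 ≤ k / 10
  het : eta Cq Cm r k M ≤ 1 / 2
  hW : 0 < ∫ z : G, (f z) ^ 2 ∂μ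

variable {B hG μ}
variable {r₀ C : ℝ} {b : (Fin n → ℂ) → (Fin n → ℂ) → (Fin n → ℂ)}
variable {r k M Cm Cq : ℝ} {F : (Mat N)ˣ → ℂ} {m : (Fin n → ℂ) → ℂ} {f : G → ℝ}

variable (B μ) in
/-- the ratio of the convolution square and the square of the half point -/
def EE (f : G → ℝ) (F : (Mat N)ˣ → ℂ) (x : Fin n → ℂ) : ℂ :=
  convC μ F F (uE B x) * F 1 ^ 2 /
    (((∫ z : G, (f z) ^ 2 ∂μ : ℝ) : ℂ) * F (uE B ((1 / 2 : ℂ) • x)) ^ 2)

namespace Hy

variable (H : Hy B hG μ r₀ C b r k M Cm Cq f F m)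
include H

lemma Aq_nonneg : 0 ≤ Aq Cq k M := by
  have h1 := H.hk
  have h2 := H.hM
  have h3 := H.hCq
  unfold Aq
  positivity

lemma Wne : (((∫ z : G, (f z) ^ 2 ∂μ : ℝ) : ℂ)) ≠ 0 := Complex.ofReal_ne_zero.2 H.hW.ne'

lemma Pne {x : Fin n → ℂ} (hx : nC x < r) : F (uE B ((1 / 2 : ℂ) • x)) ≠ 0 := by
  have := nC_nonneg x
  rw [H.hs.eq _ (by rw [nC_half]; linarith)]
  exact mul_ne_zero H.h1 (Complex.exp_ne_zero _)

lemma EE_sub_le {x : Fin n → ℂ} (hx : nC x < r) :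
    ‖EE B μ f F x - 1‖ ≤ Aq Cq k M * nC x ^ 2 * Cm / k + 2 / k ^ 2 := by
  have h2 := conv_near (B := B) (hG := hG) (μ := μ) H.hs H.hf H.h1 H.h H.hr H.hr0 H.hl H.hM H.hk
    H.hi H.hq H.hCq (A := Aq Cq k M) rfl H.hAr hx
  have hP := H.Pne hx
  have hW := H.Wne
  have e : EE B μ f F x - 1 = (convC μ F F (uE B x) * F 1 ^ 2 - F (uE B ((1 / 2 : ℂ) • x)) ^ 2 *
      ((∫ z : G, (f z) ^ 2 ∂μ : ℝ) : ℂ)) /
        (((∫ z : G, (f z) ^ 2 ∂μ : ℝ) : ℂ) * F (uE B ((1 / 2 : ℂ) • x)) ^ 2) := by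
    unfold EE
    field_simp
  rw [e, norm_div, norm_mul, norm_pow, Complex.norm_real, Real.norm_eq_abs, abs_of_pos H.hW]
  have h3 : 0 < (∫ z : G, (f z) ^ 2 ∂μ) * ‖F (uE B ((1 / 2 : ℂ) • x))‖ ^ 2 := by
    have := H.hW
    have := norm_pos_iff.2 hP
    positivity
  rw [div_le_iff₀ h3]
  refine h2.trans (le_of_eq ?_)
  ring

lemma EE_sub_le' {x : Fin n → ℂ} (hx : nC x < r) :
    ‖EE B μ f F x - 1‖ ≤ eta Cq Cm r k M := by
  refine (H.EE_sub_le hx).trans ?_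
  unfold eta
  have h1 := H.Aq_nonneg
  have h2 := H.hk
  have h3 := H.hCm
  have h4 := nC_nonneg x
  gcongr

lemma eta_nonneg : 0 ≤ eta Cq Cm r k M := by
  have h1 := H.Aq_nonneg
  have h2 := H.hk
  have h3 := H.hCm
  unfold eta
  positivity

lemma conv_hol : Hol (convC μ F F) := H.hf.hol.convC μ H.hf.hol

lemma EE_diff {x : Fin n → ℂ} (hx : nC x < r) : DifferentiableAt ℂ (EE B μ f F) x := by
  unfold EE
  have h1 := (FE_diff (B := B) (G := G) H.conv_hol) x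
  have h2 : DifferentiableAt ℂ (fun x => F (uE B ((1 / 2 : ℂ) • x))) x := by
    have h3 := (FE_diff (B := B) (G := G) H.hf.hol) ((1 / 2 : ℂ) • x)
    have h4 : DifferentiableAt ℂ (fun x : Fin n → ℂ => (1 / 2 : ℂ) • x) x := by fun_prop
    exact DifferentiableAt.comp (f := fun x : Fin n → ℂ => (1 / 2 : ℂ) • x)
      (g := fun x => F (uE B x)) x h3 h4
  have h5 : DifferentiableAt ℂ (fun x => ((∫ z : G, (f z) ^ 2 ∂μ : ℝ) : ℂ) *
      F (uE B ((1 / 2 : ℂ) • x)) ^ 2) x := (h2.pow 2).const_mul _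
  have h6 : DifferentiableAt ℂ (fun x => convC μ F F (uE B x) * F 1 ^ 2) x := h1.mul_const _
  have h7 := h6.mul (h5.fun_inv (mul_ne_zero H.Wne (pow_ne_zero _ (H.Pne hx))))
  simp only [div_eq_mul_inv]
  exact h7

lemma EE_even (x : Fin n → ℂ) : EE B μ f F (-x) = EE B μ f F x := by
  unfold EE
  have h1 : convC μ F F (uE B (-x)) = convC μ F F (uE B x) := by
    rw [uE_neg]
    exact (H.hf.convC H.hf (μ := μ)).sym _
  have h2 : F (uE B ((1 / 2 : ℂ) • -x)) = F (uE B ((1 / 2 : ℂ) • x)) := by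
    rw [smul_neg, uE_neg, H.hf.sym]
  rw [h1, h2]

lemma EE_zero : EE B μ f F 0 = 1 := by
  unfold EE
  have := H.Wne
  have := H.h1
  rw [smul_zero, uE_zero, conv_one (B := B) (hG := hG) H.hf]
  field_simp

/-- the logarithmic correction -/
def ll (_ : Hy B hG μ r₀ C b r k M Cm Cq f F m) (x : Fin n → ℂ) : ℂ :=
  -Complex.log (EE B μ f F x)

lemma ll_le {x : Fin n → ℂ} (hx : nC x < r) : ‖H.ll x‖ ≤ 3 / 2 * ‖EE B μ f F x - 1‖ := by
  unfold ll
  rw [norm_neg]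
  have h1 := H.EE_sub_le' hx
  have h2 := Complex.norm_log_one_add_half_le_self (z := EE B μ f F x - 1) (h1.trans H.het)
  rwa [add_sub_cancel] at h2

lemma ll_le' {x : Fin n → ℂ} (hx : nC x < r) : ‖H.ll x‖ ≤ 3 / 2 * eta Cq Cm r k M :=
  (H.ll_le hx).trans (mul_le_mul_of_nonneg_left (H.EE_sub_le' hx) (by norm_num))

lemma EE_slit {x : Fin n → ℂ} (hx : nC x < r) : EE B μ f F x ∈ Complex.slitPlane := by
  left
  have h1 := (H.EE_sub_le' hx).trans H.het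
  have h2 := (Complex.abs_re_le_norm (EE B μ f F x - 1)).trans h1
  rw [Complex.sub_re, Complex.one_re] at h2
  have := (abs_le.1 h2).1
  linarith

lemma ll_diff {x : Fin n → ℂ} (hx : nC x < r) : DifferentiableAt ℂ H.ll x := by
  unfold ll
  exact ((H.EE_diff hx).clog (H.EE_slit hx)).neg

lemma ll_even (x : Fin n → ℂ) : H.ll (-x) = H.ll x := by
  unfold ll
  rw [H.EE_even]

lemma ll_zero : H.ll 0 = 0 := by
  unfold ll
  rw [H.EE_zero, Complex.log_one, neg_zero]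

/-- the convolution square near the identity -/
lemma conv_exp {x : Fin n → ℂ} (hx : nC x < r) : convC μ F F (uE B x) =
    ((∫ z : G, (f z) ^ 2 ∂μ : ℝ) : ℂ) *
      Complex.exp (-(k / 4) * qC x - 2 * m ((1 / 2 : ℂ) • x) - H.ll x) := by
  have hP := H.Pne hx
  have hW := H.Wne
  have h1 := H.h1
  have hE : EE B μ f F x ≠ 0 := Complex.slitPlane_ne_zero (H.EE_slit hx)
  have hexp : Complex.exp (-H.ll x) = EE B μ f F x := by
    unfold ll
    rw [neg_neg, Complex.exp_log hE]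
  have e1 : convC μ F F (uE B x) = ((∫ z : G, (f z) ^ 2 ∂μ : ℝ) : ℂ) *
      (F (uE B ((1 / 2 : ℂ) • x)) ^ 2 / F 1 ^ 2) * EE B μ f F x := by
    unfold EE
    field_simp
  have e2 : F (uE B ((1 / 2 : ℂ) • x)) ^ 2 / F 1 ^ 2 =
      Complex.exp (-(k / 4) * qC x - 2 * m ((1 / 2 : ℂ) • x)) := by
    have := nC_nonneg x
    rw [H.hs.eq _ (by rw [nC_half]; linarith), mul_pow, mul_div_cancel_left₀ _ (pow_ne_zero 2 h1),
      ← Complex.exp_nat_mul, qC_smul]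
    congr 1
    push_cast
    ring
  rw [e1, e2, ← hexp, mul_assoc, ← Complex.exp_add]
  congr 2

end Hy

end

end Pool.Agent.N988.MK
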