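import Mathlib
import Pool.Agent.N988.MK.BCs

/-!
# The second difference of the quadratic form: the leading term
-/

open MeasureTheory Filter Metric Asymptotics Matrix
open scoped Matrix.Norms.Frobenius Topology ContDiff
open Pool.Agent.H906R3.YM Pool.Agent.W793.YM Pool.Agent.TH618.YM Pool.Agent.N984.TW
open Pool.Agent.N991.MK

namespace Pool.Agent.N988.MK

set_option linter.unusedSectionVars false

noncomputable section

/-! ## jets of order three -/

/-- `f` agrees with a cubic polynomial up to order four -/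
def Jt {N : ℕ} (f : ℂ → Mat N) (c₀ c₁ c₂ c₃ : Mat N) : Prop :=
  (fun t : ℂ => f t - (c₀ + t • c₁ + t ^ 2 • c₂ + t ^ 3 • c₃)) =O[𝓝 0] fun t : ℂ => t ^ 4

section Jets

variable {N : ℕ}

lemma pw_le (i j : ℕ) (h : i ≤ j) : (fun t : ℂ => t ^ j) =O[𝓝 0] fun t : ℂ => t ^ i := by
  have e : (fun t : ℂ => t ^ j) = fun t : ℂ => t ^ (j - i) * t ^ i := by
    funext t; rw [← pow_add]; congr 1; omega
  rw [e]
  have h1 : (fun t : ℂ => t ^ (j - i)) =O[𝓝 0] fun _ : ℂ => (1 : ℂ) :=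
    (((continuous_id.pow (j - i)).tendsto (0 : ℂ)).isBigO_one ℂ)
  simpa using h1.mul (isBigO_refl (fun t : ℂ => t ^ i) (𝓝 0))

lemma cont_one {E : Type*} [NormedAddCommGroup E] {f : ℂ → E} (h : ContinuousAt f 0) :
    f =O[𝓝 0] fun _ : ℂ => (1 : ℂ) :=
  h.tendsto.isBigO_one ℂ

lemma pw_smul {f : ℂ → Mat N} (h : ContinuousAt f 0) (i : ℕ) :
    (fun t : ℂ => t ^ i • f t) =O[𝓝 0] fun t : ℂ => t ^ i := by
  have := (isBigO_refl (fun t : ℂ => t ^ i) (𝓝 0)).smul (cont_one h)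
  simpa using this

lemma Jt.bdd {f : ℂ → Mat N} {c₀ c₁ c₂ c₃ : Mat N} (h : Jt f c₀ c₁ c₂ c₃) :
    f =O[𝓝 0] fun _ : ℂ => (1 : ℂ) := by
  have h1 : (fun t : ℂ => f t - (c₀ + t • c₁ + t ^ 2 • c₂ + t ^ 3 • c₃)) =O[𝓝 0]
      fun _ : ℂ => (1 : ℂ) := h.trans (by simpa using pw_le 0 4 (by norm_num))
  have h2 : (fun t : ℂ => (c₀ + t • c₁ + t ^ 2 • c₂ + t ^ 3 • c₃)) =O[𝓝 0]
      fun _ : ℂ => (1 : ℂ) := by
    refine cont_one (Continuous.continuousAt ?_)
    fun_prop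
  simpa using h1.add h2

lemma Jt.mul {f g : ℂ → Mat N} {c₀ c₁ c₂ c₃ d₀ d₁ d₂ d₃ : Mat N} (hf : Jt f c₀ c₁ c₂ c₃)
    (hg : Jt g d₀ d₁ d₂ d₃) : Jt (fun t => f t * g t) (c₀ * d₀) (c₀ * d₁ + c₁ * d₀)
      (c₀ * d₂ + c₁ * d₁ + c₂ * d₀) (c₀ * d₃ + c₁ * d₂ + c₂ * d₁ + c₃ * d₀) := by
  have h1 : (fun t => (f t - (c₀ + t • c₁ + t ^ 2 • c₂ + t ^ 3 • c₃)) * g t) =O[𝓝 0]
      fun t : ℂ => t ^ 4 := by simpa using IsBigO.mul hf hg.bdd
  have h2 : (fun t : ℂ => (c₀ + t • c₁ + t ^ 2 • c₂ + t ^ 3 • c₃) *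
      (g t - (d₀ + t • d₁ + t ^ 2 • d₂ + t ^ 3 • d₃))) =O[𝓝 0] fun t : ℂ => t ^ 4 := by
    have h3 : (fun t : ℂ => (c₀ + t • c₁ + t ^ 2 • c₂ + t ^ 3 • c₃)) =O[𝓝 0]
        fun _ : ℂ => (1 : ℂ) := by
      refine cont_one (Continuous.continuousAt ?_)
      fun_prop
    simpa using IsBigO.mul h3 hg
  have h4 : (fun t : ℂ => t ^ 4 • ((c₁ * d₃ + c₂ * d₂ + c₃ * d₁) + t • (c₂ * d₃ + c₃ * d₂) +
      t ^ 2 • (c₃ * d₃))) =O[𝓝 0] fun t : ℂ => t ^ 4 := by
    refine pw_smul (Continuous.continuousAt ?_) 4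
    fun_prop
  refine ((h1.add h2).add h4).congr_left fun t => ?_
  simp only [sub_mul, mul_sub, add_mul, mul_add, smul_mul_assoc, mul_smul_comm, smul_add,
    smul_smul]
  module

lemma Jt.congr {f : ℂ → Mat N} {c₀ c₁ c₂ c₃ d₀ d₁ d₂ d₃ : Mat N} (h : Jt f c₀ c₁ c₂ c₃)
    (h0 : c₀ = d₀) (h1 : c₁ = d₁) (h2 : c₂ = d₂) (h3 : c₃ = d₃) : Jt f d₀ d₁ d₂ d₃ := by
  rw [← h0, ← h1, ← h2, ← h3]; exact h

lemma Jt.add {f g : ℂ → Mat N} {c₀ c₁ c₂ c₃ d₀ d₁ d₂ d₃ : Mat N} (hf : Jt f c₀ c₁ c₂ c₃)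
    (hg : Jt g d₀ d₁ d₂ d₃) :
    Jt (fun t => f t + g t) (c₀ + d₀) (c₁ + d₁) (c₂ + d₂) (c₃ + d₃) := by
  have := IsBigO.add hf hg
  refine this.congr_left fun t => ?_
  module

lemma Jt.smul {f : ℂ → Mat N} {c₀ c₁ c₂ c₃ : Mat N} (hf : Jt f c₀ c₁ c₂ c₃) (a : ℂ) :
    Jt (fun t => a • f t) (a • c₀) (a • c₁) (a • c₂) (a • c₃) := by
  have := IsBigO.const_smul_left hf a
  refine this.congr_left fun t => ?_
  simp only [Pi.smul_apply]
  module

lemma Jt.poly (c₀ c₁ c₂ c₃ : Mat N) :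
    Jt (fun t => c₀ + t • c₁ + t ^ 2 • c₂ + t ^ 3 • c₃) c₀ c₁ c₂ c₃ := by
  unfold Jt
  simp only [sub_self]
  exact isBigO_zero _ _

/-- the exponential up to order four -/
lemma exp4 (N : ℕ) : (fun A : Mat N => NormedSpace.exp A -
    (1 + A + (1 / 2 : ℂ) • (A * A) + (1 / 6 : ℂ) • (A * (A * A)))) =O[𝓝 0]
      fun A : Mat N => ‖A‖ ^ 4 := by
  have h := (NormedSpace.exp_hasFPowerSeriesAt_zero (𝕂 := ℂ) (𝔸 := Mat N)).isBigO_sub_partialSum_pow 4
  refine h.congr_left fun A => ?_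
  rw [zero_add, FormalMultilinearSeries.partialSum]
  simp only [NormedSpace.expSeries_apply_eq]
  simp only [Finset.sum_range_succ, Finset.sum_range_zero, pow_succ, pow_zero,
    Nat.factorial, one_mul, zero_add, mul_one]
  norm_num
  rw [mul_assoc]
  rfl

lemma Jt.exp {f : ℂ → Mat N} {u v w : Mat N} (hf : Jt f 0 u v w) :
    Jt (fun t => NormedSpace.exp (f t)) 1 u (v + (1 / 2 : ℂ) • (u * u))
      (w + (1 / 2 : ℂ) • (u * v + v * u) + (1 / 6 : ℂ) • (u * (u * u))) := by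
  have h1 : f =O[𝓝 0] fun t : ℂ => t := by
    have h2 : (fun t : ℂ => f t - (0 + t • u + t ^ 2 • v + t ^ 3 • w)) =O[𝓝 0] fun t : ℂ => t :=
      IsBigO.trans hf (by simpa using pw_le 1 4 (by norm_num))
    have h3 : (fun t : ℂ => (0 + t • u + t ^ 2 • v + t ^ 3 • w)) =O[𝓝 0] fun t : ℂ => t := by
      have h4 := pw_smul (f := fun t : ℂ => u + t • v + t ^ 2 • w)
        (Continuous.continuousAt (by fun_prop)) 1
      simp only [pow_one] at h4
      refine h4.congr_left fun t => ?_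
      module
    simpa using h2.add h3
  have h0 : Tendsto f (𝓝 0) (𝓝 0) := h1.trans_tendsto tendsto_id
  have h2 : (fun t : ℂ => NormedSpace.exp (f t) - (1 + f t + (1 / 2 : ℂ) • (f t * f t) +
      (1 / 6 : ℂ) • (f t * (f t * f t)))) =O[𝓝 0] fun t : ℂ => t ^ 4 := by
    have h3 := (exp4 N).comp_tendsto h0
    refine h3.trans ?_
    exact (h1.norm_left.pow 4)
  have h3 : Jt (fun t => 1 + f t + (1 / 2 : ℂ) • (f t * f t) + (1 / 6 : ℂ) • (f t * (f t * f t)))
      1 u (v + (1 / 2 : ℂ) • (u * u))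
      (w + (1 / 2 : ℂ) • (u * v + v * u) + (1 / 6 : ℂ) • (u * (u * u))) := by
    have e1 : Jt (fun _ => (1 : Mat N)) 1 0 0 0 := by
      have := Jt.poly (1 : Mat N) 0 0 0
      simpa using this
    have e2 := hf.mul hf
    have e3 := hf.mul e2
    refine (((e1.add hf).add (e2.smul _)).add (e3.smul _)).congr ?_ ?_ ?_ ?_
    · simp
    · simp
    · simp
    · simp
  unfold Jt at h3 ⊢
  refine (h2.add h3).congr_left fun t => ?_
  beta_reduce
  abel

/-- the trace as a continuous linear map -/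
def trC (N : ℕ) : Mat N →L[ℂ] ℂ := LinearMap.toContinuousLinearMap (Matrix.traceLinearMap (Fin N) ℂ ℂ)

lemma trC_apply (A : Mat N) : trC N A = trace A := rfl

lemma Jt.tr {f : ℂ → Mat N} {u v w : Mat N} (hf : Jt f 0 u v w) :
    (fun t : ℂ => trace (f t * f t) - (t ^ 2 * trace (u * u) + t ^ 3 * (2 * trace (u * v)) +
      t ^ 4 * (trace (v * v) + 2 * trace (u * w)))) =O[𝓝 0] fun t : ℂ => t ^ 5 := by
  obtain ⟨P, hP⟩ : ∃ P : ℂ → Mat N, P = fun t => t • u + t ^ 2 • v + t ^ 3 • w := ⟨_, rfl⟩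
  obtain ⟨D, hD⟩ : ∃ D : ℂ → Mat N, D = fun t => f t - P t := ⟨_, rfl⟩
  have hD4 : D =O[𝓝 0] fun t : ℂ => t ^ 4 := by
    rw [hD, hP]
    refine IsBigO.congr_left hf fun t => ?_
    beta_reduce
    rw [zero_add]
  have hP1 : P =O[𝓝 0] fun t : ℂ => t := by
    have h4 := pw_smul (f := fun t : ℂ => u + t • v + t ^ 2 • w)
      (Continuous.continuousAt (by fun_prop)) 1
    simp only [pow_one] at h4
    refine h4.congr_left fun t => ?_
    rw [hP]
    beta_reduce
    module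
  have e1 : (fun t => P t * D t) =O[𝓝 0] fun t : ℂ => t ^ 5 :=
    (hP1.mul hD4).congr_right fun t => by ring
  have e2 : (fun t => D t * P t) =O[𝓝 0] fun t : ℂ => t ^ 5 :=
    (hD4.mul hP1).congr_right fun t => by ring
  have e3 : (fun t => D t * D t) =O[𝓝 0] fun t : ℂ => t ^ 5 :=
    ((hD4.mul hD4).congr_right fun t => by ring).trans (pw_le 5 8 (by norm_num))
  have e4 : (fun t : ℂ => t ^ 5 • (((2 : ℂ) * trace (v * w)) + t * trace (w * w))) =O[𝓝 0]
      fun t : ℂ => t ^ 5 := by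
    have := (isBigO_refl (fun t : ℂ => t ^ 5) (𝓝 0)).smul
      (cont_one (f := fun t : ℂ => ((2 : ℂ) * trace (v * w)) + t * trace (w * w))
        (Continuous.continuousAt (by fun_prop)))
    simpa using this
  have e5 : (fun t => trace (P t * D t + D t * P t + D t * D t)) =O[𝓝 0] fun t : ℂ => t ^ 5 := by
    have h1 := ((e1.add e2).add e3)
    have h2 := (trC N).isBigO_comp (fun t => P t * D t + D t * P t + D t * D t) (𝓝 (0 : ℂ))
    exact h2.trans h1
  refine (e5.add e4).congr_left fun t => ?_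
  have h1 : f t = P t + D t := by rw [hD]; beta_reduce; abel
  rw [h1, mul_add, add_mul, add_mul]
  have h2 : trace (P t * P t) = t ^ 2 * trace (u * u) + t ^ 3 * (2 * trace (u * v)) +
      t ^ 4 * (trace (v * v) + 2 * trace (u * w)) +
      t ^ 5 • (((2 : ℂ) * trace (v * w)) + t * trace (w * w)) := by
    rw [hP]
    simp only [mul_add, add_mul, smul_mul_assoc, mul_smul_comm, trace_add, trace_smul, smul_eq_mul]
    rw [trace_mul_comm v u, trace_mul_comm w u, trace_mul_comm w v]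
    ring
  simp only [trace_add]
  rw [h2]
  ring

lemma cyc4 (a b c d : Mat N) : trace (a * (b * (c * d))) = trace (b * (c * (d * a))) := by
  rw [trace_mul_comm]
  simp only [mul_assoc]

lemma cyc3 (a b c : Mat N) : trace (a * (b * c)) = trace (b * (c * a)) := by
  rw [trace_mul_comm]
  simp only [mul_assoc]

/-- the cubic terms of the logarithm of a product -/
def wJ (X Y : Mat N) : Mat N :=
  (1 / 12 : ℂ) • (X * (X * Y - Y * X) - (X * Y - Y * X) * X + Y * (Y * X - X * Y) -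
    (Y * X - X * Y) * Y)

lemma alg1 (X Y : Mat N) : trace ((X + Y) * ((1 / 2 : ℂ) • (X * Y - Y * X))) = 0 := by
  simp only [mul_smul_comm, trace_smul, mul_sub, add_mul, trace_sub, trace_add]
  rw [cyc3 X X Y, cyc3 Y X Y, cyc3 X Y Y]
  rw [cyc3 X Y X]
  simp

lemma alg2 (X Y : Mat N) :
    trace (((1 / 2 : ℂ) • (X * Y - Y * X)) * ((1 / 2 : ℂ) • (X * Y - Y * X))) +
      2 * trace ((X + Y) * wJ X Y) =
      -(1 / 12) * trace ((X * Y - Y * X) * (X * Y - Y * X)) := by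
  unfold wJ
  simp only [mul_smul_comm, smul_mul_assoc, smul_smul, trace_smul, mul_sub, sub_mul, mul_add,
    add_mul, trace_sub, trace_add, mul_assoc, smul_eq_mul]
  have a1 := cyc4 X X X Y
  have a2 := cyc4 X X Y X
  have b1 := cyc4 X X Y Y
  have b2 := cyc4 X Y Y X
  have b3 := cyc4 Y Y X X
  have c1 := cyc4 X Y X Y
  have d1 := cyc4 Y Y Y X
  have d2 := cyc4 Y Y X Y
  rw [a1, a2, b1, b2, b3, c1, d1, d2]
  ring

lemma alg3 (X Y : Mat N) :
    (1 / 2 : ℂ) • (X * Y - Y * X) + (1 / 2 : ℂ) • ((X + Y) * (X + Y)) =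
      1 * ((1 / 2 : ℂ) • (Y * Y)) + X * Y + ((1 / 2 : ℂ) • (X * X)) * 1 := by
  simp only [mul_add, add_mul, mul_one, one_mul]
  module

lemma alg4 (X Y : Mat N) :
    wJ X Y + (1 / 2 : ℂ) • ((X + Y) * ((1 / 2 : ℂ) • (X * Y - Y * X)) +
      ((1 / 2 : ℂ) • (X * Y - Y * X)) * (X + Y)) + (1 / 6 : ℂ) • ((X + Y) * ((X + Y) * (X + Y))) =
      1 * ((1 / 6 : ℂ) • (Y * (Y * Y))) + X * ((1 / 2 : ℂ) • (Y * Y)) +
        ((1 / 2 : ℂ) • (X * X)) * Y + ((1 / 6 : ℂ) • (X * (X * X))) * 1 := by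
  unfold wJ
  simp only [mul_add, add_mul, mul_one, one_mul, mul_sub, sub_mul, mul_smul_comm, smul_mul_assoc,
    smul_smul, mul_assoc]
  module

end Jets

variable {N n : ℕ} {G : Subgroup (UN N)} {B : Frame G n}
variable {r₀ C : ℝ} {b : (Fin n → ℂ) → (Fin n → ℂ) → (Fin n → ℂ)}

lemma nC_smul_tendsto (x : Fin n → ℂ) : Tendsto (fun t : ℂ => nC (t • x)) (𝓝 0) (𝓝 0) := by
  have h : Continuous fun t : ℂ => nC (t • x) := nC_cont.comp (by fun_prop)
  have := h.tendsto 0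
  rwa [zero_smul, nC_zero] at this

/-- the Taylor expansion of the logarithm of a product -/
theorem BC.jet (h : BC B r₀ C b) (x y : Fin n → ℂ) :
    Jt (fun t => LC B (b (t • x) (t • y))) 0 (LC B x + LC B y)
      ((1 / 2 : ℂ) • (LC B x * LC B y - LC B y * LC B x)) (wJ (LC B x) (LC B y)) := by
  obtain ⟨X, hX⟩ : ∃ X, X = LC B x := ⟨_, rfl⟩
  obtain ⟨Y, hY⟩ : ∃ Y, Y = LC B y := ⟨_, rfl⟩
  rw [← hX, ← hY]
  obtain ⟨u, hu⟩ : ∃ u, u = X + Y := ⟨_, rfl⟩
  obtain ⟨v, hv⟩ : ∃ v, v = (1 / 2 : ℂ) • (X * Y - Y * X) := ⟨_, rfl⟩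
  obtain ⟨w, hw⟩ : ∃ w, w = wJ X Y := ⟨_, rfl⟩
  rw [← hu, ← hv, ← hw]
  obtain ⟨P, hP⟩ : ∃ P : ℂ → Mat N, P = fun t => 0 + t • u + t ^ 2 • v + t ^ 3 • w := ⟨_, rfl⟩
  have j1 : Jt P 0 u v w := by rw [hP]; exact Jt.poly _ _ _ _
  have jx : ∀ X : Mat N, Jt (fun t : ℂ => NormedSpace.exp (t • X)) 1 X ((1 / 2 : ℂ) • (X * X))
      ((1 / 6 : ℂ) • (X * (X * X))) := by
    intro X
    have h1 : Jt (fun t : ℂ => t • X) 0 X 0 0 := by
      have := Jt.poly 0 X 0 0
      simpa using this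
    have h2 := h1.exp
    simpa using h2
  have j2 := (jx X).mul (jx Y)
  have j3 : Jt (fun t => NormedSpace.exp (P t)) (1 * 1) (1 * Y + X * 1)
      (1 * ((1 / 2 : ℂ) • (Y * Y)) + X * Y + ((1 / 2 : ℂ) • (X * X)) * 1)
      (1 * ((1 / 6 : ℂ) • (Y * (Y * Y))) + X * ((1 / 2 : ℂ) • (Y * Y)) +
        ((1 / 2 : ℂ) • (X * X)) * Y + ((1 / 6 : ℂ) • (X * (X * X))) * 1) := by
    refine j1.exp.congr ?_ ?_ ?_ ?_
    · simp
    · rw [hu, one_mul, mul_one, add_comm]
    · rw [hu, hv, alg3]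
    · rw [hu, hv, hw, alg4]
  have j4 : (fun t => NormedSpace.exp (t • X) * NormedSpace.exp (t • Y) -
      NormedSpace.exp (P t)) =O[𝓝 0] fun t : ℂ => t ^ 4 := by
    refine (IsBigO.sub j2 j3).congr_left fun t => ?_
    beta_reduce
    abel
  have hs : ∀ᶠ t in 𝓝 (0 : ℂ), NormedSpace.exp (LC B (b (t • x) (t • y))) =
      NormedSpace.exp (t • X) * NormedSpace.exp (t • Y) := by
    filter_upwards [(nC_smul_tendsto x).eventually (gt_mem_nhds h.pos),
      (nC_smul_tendsto y).eventually (gt_mem_nhds h.pos)] with t h1 h2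
    have := h.mul (t • x) (t • y) h1.le h2.le
    rw [hX, hY, ← LC_smul, ← LC_smul]
    exact this
  have hb0 : Tendsto (fun t : ℂ => LC B (b (t • x) (t • y))) (𝓝 0) (𝓝 0) := by
    have h1 := h.diff 0 0 (by rw [nC_zero]; exact h.pos.le) (by rw [nC_zero]; exact h.pos.le)
    have h2 : Tendsto (fun p : (Fin n → ℂ) × (Fin n → ℂ) => b p.1 p.2) (𝓝 (0, 0)) (𝓝 (b 0 0)) :=
      h1.continuousAt
    rw [h.zero_left (by rw [nC_zero]; exact h.pos.le)] at h2
    have h3 : Tendsto (fun t : ℂ => ((t • x, t • y) : (Fin n → ℂ) × (Fin n → ℂ))) (𝓝 0)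
        (𝓝 (0, 0)) := by
      have h4 : Continuous fun t : ℂ => ((t • x, t • y) : (Fin n → ℂ) × (Fin n → ℂ)) := by
        fun_prop
      have := h4.tendsto 0
      simpa using this
    have h5 := (LCl B).continuous.tendsto 0
    rw [map_zero] at h5
    exact h5.comp (h2.comp h3)
  have hP0 : Tendsto P (𝓝 0) (𝓝 0) := by
    have h1 : Continuous P := by rw [hP]; fun_prop
    have := h1.tendsto 0
    rw [hP] at this ⊢
    simpa using this
  have hl := ((Lgm_contDiffAt (N := N)).hasStrictFDerivAt (by simp)).isBigO_sub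
  have hexp : ∀ {f : ℂ → Mat N}, Tendsto f (𝓝 0) (𝓝 0) →
      Tendsto (fun t => NormedSpace.exp (f t)) (𝓝 0) (𝓝 1) := by
    intro f hf
    have h1 := (exp_contDiffC (N := N)).continuous.tendsto 0
    rw [NormedSpace.exp_zero] at h1
    exact h1.comp hf
  have hl2 := hl.comp_tendsto ((hexp hb0).prodMk_nhds (hexp hP0))
  have hfin : (fun t => LC B (b (t • x) (t • y)) - P t) =O[𝓝 0] fun t : ℂ => t ^ 4 := by
    have h1 : (fun t => LC B (b (t • x) (t • y)) - P t) =ᶠ[𝓝 0] fun t =>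
        Lgm N (NormedSpace.exp (LC B (b (t • x) (t • y)))) - Lgm N (NormedSpace.exp (P t)) := by
      filter_upwards [hb0.eventually Lgm_left, hP0.eventually Lgm_left] with t h2 h3
      rw [h2, h3]
    have h2 : (fun t => NormedSpace.exp (LC B (b (t • x) (t • y))) - NormedSpace.exp (P t)) =ᶠ[𝓝 0]
        fun t => NormedSpace.exp (t • X) * NormedSpace.exp (t • Y) - NormedSpace.exp (P t) := by
      filter_upwards [hs] with t ht
      rw [ht]
    exact (h1.trans_isBigO hl2).trans (h2.trans_isBigO j4)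
  unfold Jt
  rw [hP] at hfin
  exact hfin

variable (B) in
/-- the bracket form -/
def brC (x y : Fin n → ℂ) : ℂ := -trace ((LC B x * LC B y - LC B y * LC B x) *
  (LC B x * LC B y - LC B y * LC B x))

lemma brC_smul (x y : Fin n → ℂ) (s t : ℂ) : brC B (s • x) (t • y) = s ^ 2 * t ^ 2 * brC B x y := by
  unfold brC
  rw [LC_smul, LC_smul]
  simp only [smul_mul_assoc, mul_smul_comm, smul_smul]
  rw [mul_comm t s, ← smul_sub, smul_mul_smul_comm, trace_smul, smul_eq_mul]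
  ring

lemma brC_neg_left (x y : Fin n → ℂ) : brC B (-x) y = brC B x y := by
  have := brC_smul (B := B) x y (-1) 1
  simpa using this

lemma brC_neg_right (x y : Fin n → ℂ) : brC B x (-y) = brC B x y := by
  have := brC_smul (B := B) x y 1 (-1)
  simpa using this

lemma BC.qjet (h : BC B r₀ C b) (x y : Fin n → ℂ) :
    (fun t : ℂ => qC (b (t • x) (t • y)) - (t ^ 2 * qC (x + y) - 1 / 12 * t ^ 4 * brC B x y))
      =O[𝓝 0] fun t : ℂ => t ^ 5 := by
  refine (h.jet x y).tr.neg_left.congr_left fun t => ?_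
  rw [alg1, alg2, qC_eq B, qC_eq B, LC_add]
  unfold brC
  ring

lemma BC.Tjet (h : BC B r₀ C b) (x y : Fin n → ℂ) :
    (fun t : ℂ => Tf b qC (t • x) (t • y) + 1 / 6 * brC B (t • x) (t • y))
      =O[𝓝 0] fun t : ℂ => t ^ 5 := by
  refine ((h.qjet x y).add (h.qjet x (-y))).congr_left fun t => ?_
  unfold Tf
  rw [brC_smul, brC_neg_right, smul_neg, qC_smul, qC_smul]
  have h1 : qC (x + y) + qC (x + -y) = 2 * qC x + 2 * qC y := by
    unfold qC
    rw [Finset.mul_sum, Finset.mul_sum, ← Finset.sum_add_distrib, ← Finset.sum_add_distrib]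
    refine Finset.sum_congr rfl fun a _ => ?_
    simp only [Pi.add_apply, Pi.neg_apply]
    ring
  linear_combination -(t ^ 2) * h1

/-- an even function which vanishes to order five vanishes to order six -/
lemma even_six {g : ℂ → ℂ} {ρ S : ℝ} (hρ : 0 < ρ) (hd : DifferentiableOn ℂ g (ball 0 ρ))
    (he : ∀ ζ ∈ ball (0 : ℂ) ρ, g (-ζ) = g ζ) (h5 : g =O[𝓝 0] fun t : ℂ => t ^ 5)
    (hb : ∀ ζ ∈ ball (0 : ℂ) ρ, ‖g ζ‖ ≤ S) {ζ : ℂ} (hζ : ζ ∈ ball (0 : ℂ) ρ) :
    ‖g ζ‖ ≤ S * (‖ζ‖ / ρ) ^ 6 := by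
  have hnh : ball (0 : ℂ) ρ ∈ 𝓝 (0 : ℂ) := ball_mem_nhds _ hρ
  have hg0 : g 0 = 0 := by
    obtain ⟨c, hc⟩ := h5.bound
    have := hc.self_of_nhds
    simpa using this
  have hlit : g =o[𝓝 0] fun t : ℂ => t ^ 5 := by
    have han : AnalyticAt ℂ g 0 := hd.analyticAt hnh
    by_cases hz : ∀ᶠ z in 𝓝 (0 : ℂ), g z = 0
    · have : g =ᶠ[𝓝 0] fun _ => (0 : ℂ) := hz
      exact this.trans_isLittleO (isLittleO_zero _ _)
    obtain ⟨m, u, hu, hu0, hgu⟩ := han.exists_eventuallyEq_pow_smul_nonzero_iff.2 hz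
    simp only [sub_zero, smul_eq_mul] at hgu
    have hne : (𝓝[≠] (0 : ℂ)).NeBot := inferInstance
    have hev : Even m := by
      have h1 : Tendsto (fun z : ℂ => (-1) ^ m * u (-z) - u z) (𝓝[≠] 0)
          (𝓝 ((-1) ^ m * u 0 - u 0)) := by
        have hc : ContinuousAt (fun z : ℂ => (-1) ^ m * u (-z) - u z) 0 := by
          have h2 : ContinuousAt (fun z : ℂ => u (-z)) 0 := by
            have h3 : ContinuousAt u (-0) := by rw [neg_zero]; exact hu.continuousAt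
            exact ContinuousAt.comp (g := u) (f := fun z : ℂ => -z) h3 continuous_neg.continuousAt
          exact (h2.const_mul _).sub hu.continuousAt
        have := hc.tendsto.mono_left (nhdsWithin_le_nhds (s := {0}ᶜ))
        simpa using this
      have h2 : ∀ᶠ z in 𝓝[≠] (0 : ℂ), (-1) ^ m * u (-z) - u z = 0 := by
        have hgu' : ∀ᶠ z in 𝓝 (0 : ℂ), g (-z) = (-z) ^ m * u (-z) := by
          have : Tendsto (fun z : ℂ => -z) (𝓝 0) (𝓝 0) := by
            have := (continuous_neg (G := ℂ)).tendsto 0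
            rwa [neg_zero] at this
          exact this.eventually hgu
        filter_upwards [self_mem_nhdsWithin, mem_nhdsWithin_of_mem_nhds hnh,
          mem_nhdsWithin_of_mem_nhds hgu, mem_nhdsWithin_of_mem_nhds hgu'] with z z1 z2 z3 z4
        have z5 := he z z2
        have z3' : g z = z ^ m * u z := z3
        have z4' : g (-z) = (-z) ^ m * u (-z) := z4
        rw [z4', z3', neg_pow] at z5
        have z6 : z ^ m ≠ 0 := pow_ne_zero _ z1
        have z7 : z ^ m * ((-1) ^ m * u (-z) - u z) = 0 := by linear_combination z5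
        exact (mul_eq_zero.1 z7).resolve_left z6
      have h3 : (-1) ^ m * u 0 - u 0 = 0 :=
        tendsto_nhds_unique (h1.congr' h2) tendsto_const_nhds
      by_contra hodd
      rw [Nat.not_even_iff_odd] at hodd
      rw [hodd.neg_one_pow] at h3
      exact hu0 (by linear_combination (-1 / 2) * h3)
    have hm5 : 5 ≤ m := by
      by_contra hlt
      rw [not_le] at hlt
      have h1 : u =O[𝓝[≠] 0] fun t : ℂ => t ^ (5 - m) := by
        obtain ⟨c, hc⟩ := h5.bound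
        refine IsBigO.of_bound c ?_
        filter_upwards [self_mem_nhdsWithin, mem_nhdsWithin_of_mem_nhds hc,
          mem_nhdsWithin_of_mem_nhds hgu] with z z1 z2 z3
        have z2' : ‖g z‖ ≤ c * ‖z ^ 5‖ := z2
        have z3' : g z = z ^ m * u z := z3
        rw [z3', norm_mul] at z2'
        have e : ‖z ^ 5‖ = ‖z ^ m‖ * ‖z ^ (5 - m)‖ := by
          rw [← norm_mul, ← pow_add]; congr 2; omega
        rw [e] at z2'
        have z4 : 0 < ‖z ^ m‖ := norm_pos_iff.2 (pow_ne_zero _ z1)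
        have z5 : ‖z ^ m‖ * ‖u z‖ ≤ ‖z ^ m‖ * (c * ‖z ^ (5 - m)‖) := by linarith
        exact le_of_mul_le_mul_left z5 z4
      have h2 : Tendsto (fun t : ℂ => t ^ (5 - m)) (𝓝[≠] 0) (𝓝 0) := by
        have h3 := (continuous_pow (M := ℂ) (5 - m)).tendsto 0
        rw [zero_pow (by omega)] at h3
        exact h3.mono_left nhdsWithin_le_nhds
      have h3 := h1.trans_tendsto h2
      have h4 := hu.continuousAt.tendsto.mono_left (nhdsWithin_le_nhds (s := {0}ᶜ))
      exact hu0 (tendsto_nhds_unique h4 h3)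
    have hm6 : 6 ≤ m := by
      rcases Nat.lt_or_ge 5 m with h | h
      · exact h
      · exfalso
        have : m = 5 := le_antisymm h hm5
        rw [this] at hev
        exact absurd hev (by decide)
    have h6 : g =O[𝓝 0] fun t : ℂ => t ^ 6 := by
      have h1 : (fun t : ℂ => t ^ m * u t) =O[𝓝 0] fun t : ℂ => t ^ m * 1 :=
        (isBigO_refl _ _).mul (cont_one hu.continuousAt)
      simp only [mul_one] at h1
      have h2 : g =ᶠ[𝓝 0] fun t : ℂ => t ^ m * u t := hgu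
      exact (h2.trans_isBigO h1).trans (pw_le 6 m hm6)
    refine h6.trans_isLittleO ?_
    have h7 : (fun t : ℂ => t * t ^ 5) =o[𝓝 0] fun t : ℂ => 1 * t ^ 5 := by
      refine IsLittleO.mul_isBigO ?_ (isBigO_refl _ _)
      rw [isLittleO_one_iff]
      exact tendsto_id
    refine (h7.congr_left fun t => by ring).congr_right fun t => by ring
  have hm : Set.MapsTo g (ball 0 ρ) (closedBall (g 0) S) := fun z hz => by
    rw [hg0, mem_closedBall_zero_iff]; exact hb z hz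
  have hn : (g · - g 0) =o[𝓝 0] (fun w : ℂ => ‖w - 0‖ ^ 5) := by
    simp only [hg0, sub_zero]
    exact hlit.norm_right.congr_right fun w => by rw [norm_pow]
  have h2 := Complex.dist_le_mul_div_pow_of_mapsTo_ball_of_isLittleO hd hm hn hζ
  rw [hg0, dist_zero_right, dist_zero_right] at h2
  exact h2

variable (B) in
lemma brC_diff : Differentiable ℂ fun p : (Fin n → ℂ) × (Fin n → ℂ) => brC B p.1 p.2 := by
  have e : (fun p : (Fin n → ℂ) × (Fin n → ℂ) => brC B p.1 p.2) = fun p =>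
      -trC N ((LCl B p.1 * LCl B p.2 - LCl B p.2 * LCl B p.1) *
        (LCl B p.1 * LCl B p.2 - LCl B p.2 * LCl B p.1)) := rfl
  rw [e]
  have h1 : Differentiable ℂ fun p : (Fin n → ℂ) × (Fin n → ℂ) => LCl B p.1 :=
    (LCl B).differentiable.comp differentiable_fst
  have h2 : Differentiable ℂ fun p : (Fin n → ℂ) × (Fin n → ℂ) => LCl B p.2 :=
    (LCl B).differentiable.comp differentiable_snd
  have h3 := (h1.mul h2).sub (h2.mul h1)
  exact ((trC N).differentiable.comp (h3.mul h3)).neg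

lemma norm_trace_mul_le (A A' : Mat N) : ‖trace (A * A')‖ ≤ 2 * (‖A‖ * ‖A'‖) := by
  have h1 : |(trace (A * A')).re| ≤ ‖A‖ * ‖A'‖ := by
    have := abs_ip_le Aᴴ A'
    rw [ip_apply, conjTranspose_conjTranspose, Matrix.frobenius_norm_conjTranspose] at this
    exact this
  have h2 : |(trace (A * A')).im| ≤ ‖A‖ * ‖A'‖ := by
    have := abs_ip_le Aᴴ (Complex.I • A')
    rw [ip_apply, conjTranspose_conjTranspose, Matrix.frobenius_norm_conjTranspose,
      mul_smul_comm, trace_smul, norm_smul, Complex.norm_I, one_mul] at this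
    simpa using this
  have h3 := Complex.norm_le_abs_re_add_abs_im (trace (A * A'))
  linarith

variable (B) in
lemma norm_brC_le (x y : Fin n → ℂ) : ‖brC B x y‖ ≤ 8 * nC x ^ 2 * nC y ^ 2 := by
  unfold brC
  rw [norm_neg]
  refine (norm_trace_mul_le _ _).trans ?_
  have h1 : ‖LC B x * LC B y - LC B y * LC B x‖ ≤ 2 * (nC x * nC y) := by
    refine (norm_sub_le _ _).trans ?_
    have h2 := norm_mul_le (LC B x) (LC B y)
    have h3 := norm_mul_le (LC B y) (LC B x)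
    rw [norm_LC, norm_LC] at h2 h3
    linarith
  have h0 := norm_nonneg (LC B x * LC B y - LC B y * LC B x)
  nlinarith [nC_nonneg x, nC_nonneg y, mul_nonneg (nC_nonneg x) (nC_nonneg y)]

lemma BC.Tq_diff (h : BC B r₀ C b) {x y : Fin n → ℂ} (hx : nC x < r₀) (hy : nC y < r₀) :
    DifferentiableAt ℂ (fun p : (Fin n → ℂ) × (Fin n → ℂ) => Tf b qC p.1 p.2) (x, y) := by
  unfold Tf
  have h1 := (qC_diff (b x y)).comp (x, y) (h.diff x y hx.le hy.le)
  have h2 := (qC_diff (b x (-y))).comp (x, y) (h.diff1 hx.le hy.le)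
  have h3 : DifferentiableAt ℂ (fun p : (Fin n → ℂ) × (Fin n → ℂ) => qC p.1) (x, y) :=
    (qC_diff.comp differentiable_fst) (x, y)
  have h4 : DifferentiableAt ℂ (fun p : (Fin n → ℂ) × (Fin n → ℂ) => qC p.2) (x, y) :=
    (qC_diff.comp differentiable_snd) (x, y)
  exact ((h1.add h2).sub (h3.const_mul 2)).sub (h4.const_mul 2)

/-- **the second difference of the quadratic form, with the exact leading term** -/
theorem BC.Tq_sharp (h : BC B r₀ C b) : ∃ Cs : ℝ, 0 ≤ Cs ∧ ∀ x y : Fin n → ℂ, nC x < r₀ / 2 →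
    nC y < r₀ / 2 → ‖Tf b qC x y + 1 / 6 * brC B x y‖ ≤
      Cs * nC x ^ 2 * nC y ^ 2 * max (nC x) (nC y) ^ 2 := by
  have hp := h.pos
  obtain ⟨Cq, hCq, hq⟩ := h.Tq
  obtain ⟨E, hE⟩ : ∃ E : (Fin n → ℂ) → (Fin n → ℂ) → ℂ,
    E = fun x y => Tf b qC x y + 1 / 6 * brC B x y := ⟨_, rfl⟩
  obtain ⟨K, hK⟩ : ∃ K, K = Cq + 8 / 6 := ⟨_, rfl⟩
  have hK0 : 0 ≤ K := by rw [hK]; positivity
  have hEb : ∀ x y, nC x < r₀ → nC y < r₀ → ‖E x y‖ ≤ K * nC x ^ 2 * nC y ^ 2 := by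
    intro x y hx hy
    rw [hE]
    refine (norm_add_le _ _).trans ?_
    have h1 := hq x y hx hy
    have h2 := norm_brC_le B x y
    have h3 : ‖1 / 6 * brC B x y‖ ≤ 8 / 6 * nC x ^ 2 * nC y ^ 2 := by
      rw [norm_mul]
      have : ‖(1 / 6 : ℂ)‖ = 1 / 6 := by norm_num
      rw [this]
      linarith
    rw [hK]
    linarith
  have hEd : ∀ x y, nC x < r₀ → nC y < r₀ →
      DifferentiableAt ℂ (fun p : (Fin n → ℂ) × (Fin n → ℂ) => E p.1 p.2) (x, y) := by
    intro x y hx hy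
    rw [hE]
    exact (h.Tq_diff hx hy).add ((brC_diff B (x, y)).const_mul _)
  have hn : ∀ y : Fin n → ℂ, nC y < r₀ → nC (-y) < r₀ := fun y hy => by rwa [nC_neg]
  have hE1 : ∀ x y, nC x < r₀ → nC y < r₀ → E (-x) y = E x y := by
    intro x y hx hy
    rw [hE]
    beta_reduce
    rw [brC_neg_left, Tf_neg_left qC x y (qC_neg x) (h.qsym hx.le hy.le)]
    have := h.qsym (x := x) (y := -y) hx.le (hn y hy).le
    rwa [neg_neg] at this
  have hE2 : ∀ x y, nC x < r₀ → nC y < r₀ → E x (-y) = E x y := by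
    intro x y hx hy
    rw [hE]
    beta_reduce
    rw [brC_neg_right, Tf_neg_right qC x y (qC_neg y)]
  have hz : ∀ x y, nC x < r₀ → nC y < r₀ → nC x * nC y = 0 → E x y = 0 := by
    intro x y hx hy hxy
    have h1 := hEb x y hx hy
    have h2 : K * nC x ^ 2 * nC y ^ 2 = K * (nC x * nC y) ^ 2 := by ring
    rw [h2, hxy] at h1
    exact norm_le_zero_iff.1 (h1.trans (by simp))
  obtain ⟨S, hS⟩ : ∃ S, S = K * r₀ ^ 4 := ⟨_, rfl⟩
  have hS0 : 0 ≤ S := by rw [hS]; positivity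
  -- six
  have h6 : ∀ x y, nC x < r₀ → nC y < r₀ → ‖E x y‖ ≤ S * (max (nC x) (nC y) / r₀) ^ 6 := by
    intro x y hx hy
    obtain ⟨m, hm⟩ : ∃ m, m = max (nC x) (nC y) := ⟨_, rfl⟩
    rw [← hm]
    have hmx : nC x ≤ m := by rw [hm]; exact le_max_left _ _
    have hmy : nC y ≤ m := by rw [hm]; exact le_max_right _ _
    have hmr : m < r₀ := by rw [hm]; exact max_lt hx hy
    have hm0 : 0 ≤ m := (nC_nonneg x).trans hmx
    rcases hm0.eq_or_lt with h0 | hmp
    · have : nC x * nC y = 0 := by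
        have : nC x = 0 := le_antisymm (h0 ▸ hmx) (nC_nonneg x)
        rw [this, zero_mul]
      rw [hz x y hx hy this, norm_zero]
      positivity
    have hball : ∀ ζ ∈ ball (0 : ℂ) (r₀ / m), nC (ζ • x) < r₀ ∧ nC (ζ • y) < r₀ := by
      intro ζ hζ
      rw [mem_ball_zero_iff, lt_div_iff₀ hmp] at hζ
      rw [nC_smul, nC_smul]
      exact ⟨lt_of_le_of_lt (mul_le_mul_of_nonneg_left hmx (norm_nonneg _)) hζ,
        lt_of_le_of_lt (mul_le_mul_of_nonneg_left hmy (norm_nonneg _)) hζ⟩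
    have h1m : (1 : ℂ) ∈ ball (0 : ℂ) (r₀ / m) := by
      rw [mem_ball_zero_iff, norm_one, lt_div_iff₀ hmp, one_mul]; exact hmr
    have := even_six (g := fun ζ : ℂ => E (ζ • x) (ζ • y)) (ρ := r₀ / m) (S := S) (by positivity)
      (fun ζ hζ => by
        have h3 := hEd (ζ • x) (ζ • y) (hball ζ hζ).1 (hball ζ hζ).2
        have h4 : DifferentiableAt ℂ
            (fun ζ : ℂ => ((ζ • x, ζ • y) : (Fin n → ℂ) × (Fin n → ℂ))) ζ := by fun_prop
        exact (DifferentiableAt.comp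
          (f := fun ζ : ℂ => ((ζ • x, ζ • y) : (Fin n → ℂ) × (Fin n → ℂ)))
          (g := fun p : (Fin n → ℂ) × (Fin n → ℂ) => E p.1 p.2) ζ h3 h4).differentiableWithinAt)
      (fun ζ hζ => by
        beta_reduce
        rw [neg_smul, neg_smul, hE1 _ _ (hball ζ hζ).1 (hn _ (hball ζ hζ).2),
          hE2 _ _ (hball ζ hζ).1 (hball ζ hζ).2])
      (by rw [hE]; exact h.Tjet x y)
      (fun ζ hζ => by
        refine (hEb _ _ (hball ζ hζ).1 (hball ζ hζ).2).trans ?_
        have g1 := (hball ζ hζ).1.le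
        have g2 := (hball ζ hζ).2.le
        have g3 := nC_nonneg (ζ • x)
        have g4 := nC_nonneg (ζ • y)
        calc K * nC (ζ • x) ^ 2 * nC (ζ • y) ^ 2 ≤ K * r₀ ^ 2 * r₀ ^ 2 := by gcongr
          _ = S := by rw [hS]; ring)
      h1m
    simp only [one_smul, norm_one, one_div_div] at this
    exact this
  refine ⟨4 * S / r₀ ^ 6, by positivity, fun x y hx hy => ?_⟩
  have hgoal : ‖E x y‖ ≤ 4 * S / r₀ ^ 6 * nC x ^ 2 * nC y ^ 2 * max (nC x) (nC y) ^ 2 := by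
    obtain ⟨m, hm⟩ : ∃ m, m = max (nC x) (nC y) := ⟨_, rfl⟩
    rw [← hm]
    have hmx : nC x ≤ m := by rw [hm]; exact le_max_left _ _
    have hmy : nC y ≤ m := by rw [hm]; exact le_max_right _ _
    have hmr : m < r₀ / 2 := by rw [hm]; exact max_lt hx hy
    have hm0 : 0 ≤ m := (nC_nonneg x).trans hmx
    rcases hm0.eq_or_lt with h0 | hmp
    · have : nC x * nC y = 0 := by
        have : nC x = 0 := le_antisymm (h0 ▸ hmx) (nC_nonneg x)
        rw [this, zero_mul]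
      rw [hz x y (by linarith) (by linarith) this, norm_zero]
      positivity
    have := even_even (T := E) (r := 2 * m) (r' := 2 * m) (S := S * (2 * m / r₀) ^ 6)
      (fun x y hx hy => hEd x y (by linarith) (by linarith))
      (fun x y hx hy => hE1 x y (by linarith) (by linarith))
      (fun x y hx hy => hE2 x y (by linarith) (by linarith))
      (fun y hy => hz 0 y (by rw [nC_zero]; exact hp) (by linarith) (by rw [nC_zero, zero_mul]))
      (fun x hx => hz x 0 (by linarith) (by rw [nC_zero]; exact hp) (by rw [nC_zero, mul_zero]))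
      (fun x y hx hy => (h6 x y (by linarith) (by linarith)).trans (by
        have g1 : max (nC x) (nC y) ≤ 2 * m := max_le hx.le hy.le
        have g2 : 0 ≤ max (nC x) (nC y) := (nC_nonneg x).trans (le_max_left _ _)
        gcongr))
      (x := x) (y := y) (by linarith) (by linarith)
    refine this.trans (le_of_eq ?_)
    field_simp
    ring
  rw [hE] at hgoal
  exact hgoal

end

end Pool.Agent.N988.MK
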