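import Mathlib
import Pool.Agent.N988.MK.Log
import Pool.Agent.N988.MK.Sharp

/-!
# The quadratic part of the logarithmic correction is isotropic
-/

open MeasureTheory Filter Metric Asymptotics Matrix
open scoped Matrix.Norms.Frobenius Topology ContDiff
open Pool.Agent.H906R3.YM Pool.Agent.W793.YM Pool.Agent.TH618.YM Pool.Agent.N984.TW
open Pool.Agent.N991.MK

namespace Pool.Agent.N988.MK

set_option linter.unusedSectionVars false

noncomputable section

variable {N n : ℕ} {G : Subgroup (UN N)} {B : Frame G n} {hG : IsClosed (G : Set (UN N))}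
variable [CompactSpace G] [MeasurableSpace G] [BorelSpace G] {μ : Measure G}
  [IsProbabilityMeasure μ] [μ.IsMulLeftInvariant] [μ.IsMulRightInvariant] [μ.IsInvInvariant]
variable {r₀ C : ℝ} {b : (Fin n → ℂ) → (Fin n → ℂ) → (Fin n → ℂ)}
variable {r k M Cm Cq : ℝ} {F : (Mat N)ˣ → ℂ} {m : (Fin n → ℂ) → ℂ} {f : G → ℝ}

lemma Lz_curve (hF : Hol F) (z : G) (x : Fin n → ℂ) :
    HasDerivAt (fun ζ : ℂ => F (uE B (ζ • x) * uG z)) (Lz B F z x) 0 := by
  have h1 : HasFDerivAt (fun x => F (uE B x * uG z)) (Lz B F z) ((0 : ℂ) • x) := by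
    rw [zero_smul]
    exact ((F_diff (B := B) hF z) 0).hasFDerivAt
  have h2 : HasDerivAt (fun ζ : ℂ => ζ • x) x 0 := by
    simpa using (hasDerivAt_id (0 : ℂ)).smul_const x
  exact h1.comp_hasDerivAt (0 : ℂ) h2

lemma Lz_cont (hF : Hol F) (x : Fin n → ℂ) : Continuous fun z : G => Lz B F z x := by
  obtain ⟨R, hR, hR2⟩ := exists_R (B := B) (G := G) hF
  have e : (fun z : G => Lz B F z x) = fun z => fderiv ℂ R (0, (mt z, mt z⁻¹)) (x, 0) := by
    funext z
    have h1 : HasFDerivAt R (fderiv ℂ R (0, (mt z, mt z⁻¹))) (0, (mt z, mt z⁻¹)) :=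
      ((hR.differentiable (by simp)) _).hasFDerivAt
    have h2' : HasFDerivAt (fun e : Fin n → ℂ => (e, ((mt z, mt z⁻¹) : Mat N × Mat N)))
      (ContinuousLinearMap.inl ℂ (Fin n → ℂ) (Mat N × Mat N)) 0 := hasFDerivAt_prodMk_left _ _
    have h2 := h1.comp (0 : Fin n → ℂ) h2'
    have h3 : (fun x : Fin n → ℂ => F (uE B x * uG z)) =
        R ∘ fun x : Fin n → ℂ => (x, (mt z, mt z⁻¹)) := by
      funext x; exact hR2 x z
    unfold Lz
    rw [h3, h2.fderiv]
    rfl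
  rw [e]
  have h1 : Continuous (fderiv ℂ R) := hR.continuous_fderiv (by simp)
  exact (h1.comp (continuous_const.prodMk (mt_cont.prodMk mt_inv_cont))).clm_apply
    continuous_const

lemma Lz_realcurve (hF : Hol F) (z : G) (x : Fin n → ℝ) :
    HasDerivAt (fun t : ℝ => F (uE B (rl (t • x)) * uG z)) (Lz B F z (rl x)) 0 := by
  have h1 : HasDerivAt (fun ζ : ℂ => F (uE B (ζ • rl x) * uG z)) (Lz B F z (rl x))
      ((0 : ℝ) : ℂ) := by
    rw [Complex.ofReal_zero]
    exact Lz_curve hF z (rl x)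
  have h2 := h1.comp_ofReal
  refine h2.congr_of_eventuallyEq (Eventually.of_forall fun t => ?_)
  beta_reduce
  rw [rl_smul]

include hG in
lemma Lz_im (hf : CF f F) (z : G) (x : Fin n → ℝ) : (Lz B F z (rl x)).im = 0 := by
  have h1 := Lz_realcurve (B := B) hf.hol z x
  have h2 : HasDerivAt (fun t : ℝ => (F (uE B (rl (t • x)) * uG z)).im) (Lz B F z (rl x)).im 0 :=
    Complex.imCLM.hasFDerivAt.comp_hasDerivAt (0 : ℝ) h1
  have h3 : (fun t : ℝ => (F (uE B (rl (t • x)) * uG z)).im) = fun _ => (0 : ℝ) := by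
    funext t
    rw [uE_rl B hG, ← map_mul, hf.res]
    exact Complex.ofReal_im _
  rw [h3] at h2
  exact (hasDerivAt_const (0 : ℝ) (0 : ℝ)).unique h2 |>.symm

lemma Adx_smul (g : G) (t : ℝ) (x : Fin n → ℝ) : Adx B g (t • x) = t • Adx B g x := by
  unfold Adx
  rw [LX_smul]
  funext a
  simp [pc]

include hG in
lemma Lz_Ad (hf : CF f F) (g z : G) (x : Fin n → ℝ) :
    Lz B F z (rl (Adx B g x)) = Lz B F (g⁻¹ * z * g) (rl x) := by
  have h1 := Lz_realcurve (B := B) hf.hol z (Adx B g x)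
  have h2 := Lz_realcurve (B := B) hf.hol (g⁻¹ * z * g) x
  have h3 : (fun t : ℝ => F (uE B (rl (t • Adx B g x)) * uG z)) =
      fun t : ℝ => F (uE B (rl (t • x)) * uG (g⁻¹ * z * g)) := by
    funext t
    rw [← Adx_smul, uE_Ad B hG]
    have h4 := hf.cls g (uE B (rl (t • x)) * uG (g⁻¹ * z * g))
    rw [← h4]
    congr 1
    rw [map_mul, map_mul, map_inv]
    group
  rw [h3] at h1
  exact h1.unique h2

variable (B) in
/-- the real derivatives -/
def Dz (F : (Mat N)ˣ → ℂ) (z : G) (a : Fin n) : ℝ := (Lz B F z (rl (Pi.single a 1))).re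

include hG in
lemma Lz_sum (hf : CF f F) (z : G) (x : Fin n → ℂ) :
    Lz B F z x = ∑ a, x a * ((Dz B F z a : ℝ) : ℂ) := by
  have h1 : x = ∑ a, x a • rl (Pi.single a (1 : ℝ)) := by
    funext i
    simp only [Finset.sum_apply, Pi.smul_apply, rl, Pi.single_apply, smul_eq_mul]
    rw [Finset.sum_eq_single i]
    · simp
    · intro b _ hb
      simp [Ne.symm hb]
    · intro h; exact absurd (Finset.mem_univ i) h
  conv_lhs => rw [h1]
  rw [map_sum]
  refine Finset.sum_congr rfl fun a _ => ?_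
  rw [map_smul, smul_eq_mul]
  congr 1
  refine Complex.ext ?_ ?_
  · rw [Complex.ofReal_re]; rfl
  · rw [Complex.ofReal_im]; exact Lz_im (hG := hG) hf z _

lemma Dz_cont (hF : Hol F) (a : Fin n) : Continuous fun z : G => Dz B F z a :=
  Complex.continuous_re.comp (Lz_cont hF _)

variable (B μ) in
/-- the Fisher form -/
def QD (F : (Mat N)ˣ → ℂ) (a c : Fin n) : ℝ := ∫ z : G, Dz B F z a * Dz B F z c ∂μ

lemma sum_sq_expand (x : Fin n → ℝ) (d : Fin n → ℝ) :
    (∑ a, x a * d a) ^ 2 = ∑ a, ∑ c, (d a * d c) * (x a * x c) := by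
  rw [sq, Finset.sum_mul_sum]
  refine Finset.sum_congr rfl fun a _ => Finset.sum_congr rfl fun c _ => ?_
  ring

include hG in
lemma QD_form (hf : CF f F) (x : Fin n → ℝ) : ∑ a, ∑ c, QD B μ F a c * (x a * x c) =
    ∫ z : G, (Lz B F z (rl x)).re ^ 2 ∂μ := by
  have h1 : ∀ z : G, (Lz B F z (rl x)).re ^ 2 =
      ∑ a, ∑ c, (Dz B F z a * Dz B F z c) * (x a * x c) := by
    intro z
    rw [Lz_sum (hG := hG) hf, ← sum_sq_expand]
    congr 1
    rw [Complex.re_sum]
    refine Finset.sum_congr rfl fun a _ => ?_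
    unfold rl
    rw [← Complex.ofReal_mul, Complex.ofReal_re]
  rw [integral_congr_ae (Eventually.of_forall h1), integral_finsetSum]
  · refine Finset.sum_congr rfl fun a _ => ?_
    rw [integral_finsetSum]
    · refine Finset.sum_congr rfl fun c _ => ?_
      rw [integral_mul_const]
      rfl
    · intro c _
      exact (intgR ((Dz_cont hf.hol a).mul (Dz_cont hf.hol c))).mul_const _
  · intro a _
    exact integrable_finsetSum _ fun c _ =>
      (intgR ((Dz_cont hf.hol a).mul (Dz_cont hf.hol c))).mul_const _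

lemma conj_inv {φ : G → ℝ} (g : G) : ∫ z, φ (g⁻¹ * z * g) ∂μ = ∫ z, φ z ∂μ := by
  rw [integral_mul_right_eq_self (μ := μ) (fun z => φ z) g |>.symm,
    integral_mul_left_eq_self (μ := μ) (fun z => φ (z * g)) g⁻¹ |>.symm]

include hG in
lemma QD_iso (hI : IsoG B) (hf : CF f F) :
    ∃ κ : ℝ, ∀ x : Fin n → ℂ, ∫ z : G, (Lz B F z x) ^ 2 ∂μ = (κ : ℂ) * qC x := by
  obtain ⟨κ, hκ⟩ := hI (QD B μ F) (fun a c => by
    unfold QD
    refine integral_congr_ae (Eventually.of_forall fun z => ?_)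
    beta_reduce
    ring) (fun g x => by
    rw [QD_form (hG := hG) hf, QD_form (hG := hG) hf]
    rw [← conj_inv (μ := μ) (φ := fun z => (Lz B F z (rl x)).re ^ 2) g]
    refine integral_congr_ae (Eventually.of_forall fun z => ?_)
    beta_reduce
    rw [Lz_Ad (hG := hG) hf])
  refine ⟨κ, fun x => ?_⟩
  have h1 : ∀ z : G, (Lz B F z x) ^ 2 =
      ∑ a, ∑ c, (((Dz B F z a * Dz B F z c : ℝ)) : ℂ) * (x a * x c) := by
    intro z
    rw [Lz_sum (hG := hG) hf, sq, Finset.sum_mul_sum]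
    refine Finset.sum_congr rfl fun a _ => Finset.sum_congr rfl fun c _ => ?_
    push_cast
    ring
  have hint : ∀ a c, Integrable (fun z : G => (((Dz B F z a * Dz B F z c : ℝ)) : ℂ) *
      (x a * x c)) μ := fun a c =>
    (intg (Complex.continuous_ofReal.comp
      ((Dz_cont hf.hol a).mul (Dz_cont hf.hol c)))).mul_const _
  rw [integral_congr_ae (Eventually.of_forall h1), integral_finsetSum]
  · unfold qC
    rw [Finset.mul_sum]
    refine Finset.sum_congr rfl fun a _ => ?_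
    rw [integral_finsetSum]
    · rw [Finset.sum_eq_single a]
      · rw [integral_mul_const, integral_complex_ofReal]
        have h2 : QD B μ F a a = κ := by rw [hκ, if_pos rfl]
        unfold QD at h2
        rw [h2]
        ring
      · intro c _ hc
        rw [integral_mul_const, integral_complex_ofReal]
        have h2 : QD B μ F a c = 0 := by rw [hκ, if_neg (Ne.symm hc)]
        unfold QD at h2
        rw [h2]
        simp
      · intro h; exact absurd (Finset.mem_univ a) h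
    · intro c _
      exact hint a c
  · intro a _
    exact integrable_finsetSum _ fun c _ => hint a c

/-- the second order expansion of an exponential -/
lemma exp_limit {e : ℂ → ℂ} {c : ℂ} (h : (fun ζ => e ζ - c * ζ ^ 2) =O[𝓝 0] fun ζ : ℂ => ζ ^ 4) :
    Tendsto (fun ζ : ℂ => (1 - Complex.exp (-e ζ)) / ζ ^ 2) (𝓝[≠] 0) (𝓝 c) := by
  have h1 : e =O[𝓝 0] fun ζ : ℂ => ζ ^ 2 := by
    have h2 : (fun ζ : ℂ => c * ζ ^ 2) =O[𝓝 0] fun ζ : ℂ => ζ ^ 2 :=
      (isBigO_refl _ _).const_mul_left c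
    have h3 := (h.trans (pw_le 2 4 (by norm_num))).add h2
    simpa using h3
  have h0 : Tendsto e (𝓝 0) (𝓝 0) := by
    refine h1.trans_tendsto ?_
    have := (continuous_pow (M := ℂ) 2).tendsto 0
    simpa using this
  have h2 : (fun z : ℂ => Complex.exp z - (1 + z)) =O[𝓝 0] fun z : ℂ => z ^ 2 := by
    have := Complex.exp_sub_sum_range_isBigO_pow 2
    refine this.congr_left fun z => ?_
    simp [Finset.sum_range_succ]
  have h3 : Tendsto (fun ζ => -e ζ) (𝓝 0) (𝓝 0) := by simpa using h0.neg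
  have h4 : (fun ζ => Complex.exp (-e ζ) - (1 + -e ζ)) =O[𝓝 0] fun ζ : ℂ => ζ ^ 4 := by
    refine (h2.comp_tendsto h3).trans ?_
    have : (fun ζ => (-e ζ) ^ 2) =O[𝓝 0] fun ζ : ℂ => (ζ ^ 2) ^ 2 := (h1.neg_left).pow 2
    refine this.congr_right fun ζ => by ring
  have h5 : (fun ζ => (1 - Complex.exp (-e ζ)) - c * ζ ^ 2) =O[𝓝 0] fun ζ : ℂ => ζ ^ 4 := by
    refine (h.sub h4).congr_left fun ζ => ?_
    ring
  have h6 : (fun ζ : ℂ => (1 - Complex.exp (-e ζ)) / ζ ^ 2 - c) =O[𝓝[≠] 0] fun ζ : ℂ => ζ ^ 2 := by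
    obtain ⟨K, hK⟩ := (h5.mono (nhdsWithin_le_nhds (s := {0}ᶜ))).bound
    refine IsBigO.of_bound K ?_
    filter_upwards [hK, self_mem_nhdsWithin] with ζ h7 h8
    have h9 : ζ ^ 2 ≠ 0 := pow_ne_zero _ h8
    have e1 : (1 - Complex.exp (-e ζ)) / ζ ^ 2 - c = ((1 - Complex.exp (-e ζ)) - c * ζ ^ 2) /
        ζ ^ 2 := by rw [sub_div _ (c * ζ ^ 2), mul_div_assoc, div_self h9, mul_one]
    rw [e1, norm_div, div_le_iff₀ (norm_pos_iff.2 h9)]
    refine h7.trans (le_of_eq ?_)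
    rw [mul_assoc, ← norm_mul]
    congr 2
    ring
  have h7 : Tendsto (fun ζ : ℂ => ζ ^ 2) (𝓝[≠] 0) (𝓝 0) := by
    have := (continuous_pow (M := ℂ) 2).tendsto 0
    simp only [ne_eq, OfNat.ofNat_ne_zero, not_false_eq_true, zero_pow] at this
    exact this.mono_left nhdsWithin_le_nhds
  have h8 := (h6.trans_tendsto h7).add_const c
  simpa using h8

namespace Hy

variable (H : Hy B hG μ r₀ C b r k M Cm Cq f F m)
include H

/-- **the quadratic part of the logarithmic correction** -/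
theorem exists_delta (hI : IsoG B) (hn : 0 < n) : ∃ δ : ℝ, ∃ κ : ℝ,
    (∀ x : Fin n → ℂ, ∫ z : G, (Lz B F z x) ^ 2 ∂μ = (κ : ℂ) * qC x) ∧
    κ = (k / 2 + 2 * δ) * ∫ z : G, (f z) ^ 2 ∂μ ∧
    |δ| ≤ 3 / 2 * eta Cq Cm r k M / r ^ 2 ∧
    ∀ x : Fin n → ℂ, nC x < r →
      ‖H.ll x - δ * qC x‖ ≤ 3 * eta Cq Cm r k M * (nC x / r) ^ 4 := by
  obtain ⟨κ, hκ⟩ := QD_iso (B := B) (hG := hG) (μ := μ) hI H.hf
  obtain ⟨W, hW⟩ : ∃ W : ℝ, W = ∫ z : G, (f z) ^ 2 ∂μ := ⟨_, rfl⟩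
  have hW0 : 0 < W := by rw [hW]; exact H.hW
  have hWc : (W : ℂ) ≠ 0 := Complex.ofReal_ne_zero.2 hW0.ne'
  obtain ⟨δ, hδ⟩ : ∃ δ : ℝ, δ = κ / (2 * W) - k / 4 := ⟨_, rfl⟩
  have hr0 := H.hr0
  have het0 := H.eta_nonneg
  -- identification for every direction
  have key : ∀ (x : Fin n → ℂ) (a : ℂ), (∀ ζ : ℂ, nC (ζ • x) < r →
      ‖H.ll (ζ • x) - a * ζ ^ 2‖ ≤ 2 * (3 / 2 * eta Cq Cm r k M) * (nC (ζ • x) / r) ^ 4) →
      a = δ * qC x := by
    intro x a ha
    obtain ⟨e, he⟩ : ∃ e : ℂ → ℂ, e = fun ζ => k / 4 * qC (ζ • x) +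
      2 * m ((1 / 2 : ℂ) • (ζ • x)) + H.ll (ζ • x) := ⟨_, rfl⟩
    have hev : ∀ᶠ ζ in 𝓝 (0 : ℂ), nC (ζ • x) < r := (nC_smul_tendsto x).eventually
      (gt_mem_nhds hr0)
    have h1 : (fun ζ => e ζ - (k / 4 * qC x + a) * ζ ^ 2) =O[𝓝 0] fun ζ : ℂ => ζ ^ 4 := by
      refine IsBigO.of_bound ((2 * (M / 16) + 2 * (3 / 2 * eta Cq Cm r k M) / r ^ 4) * nC x ^ 4) ?_
      filter_upwards [hev] with ζ hζ
      have e1 : e ζ - (k / 4 * qC x + a) * ζ ^ 2 = 2 * m ((1 / 2 : ℂ) • (ζ • x)) +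
          (H.ll (ζ • x) - a * ζ ^ 2) := by
        rw [he]
        beta_reduce
        rw [qC_smul]
        ring
      rw [e1]
      refine (norm_add_le _ _).trans ?_
      have h2 := ha ζ hζ
      have h3 := H.hs.bd ((1 / 2 : ℂ) • (ζ • x)) (by
        rw [nC_half]; have := nC_nonneg (ζ • x); linarith)
      rw [nC_half, nC_smul] at h3
      rw [nC_smul] at h2
      rw [norm_mul, norm_pow]
      have h4 : ‖(2 : ℂ)‖ = 2 := by norm_num
      rw [h4]
      calc _ ≤ 2 * (M * (‖ζ‖ * nC x / 2) ^ 4) +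
            2 * (3 / 2 * eta Cq Cm r k M) * (‖ζ‖ * nC x / r) ^ 4 :=
            add_le_add (mul_le_mul_of_nonneg_left h3 (by norm_num)) h2
        _ = _ := by field_simp; ring
    have h2 := exp_limit h1
    have h3 := quad_limit (B := B) (μ := μ) hG H.hf x
    rw [hκ] at h3
    have h4 : Tendsto (fun ζ : ℂ => 2 * (W : ℂ) * ((1 - Complex.exp (-e ζ)) / ζ ^ 2)) (𝓝[≠] 0)
        (𝓝 (2 * (W : ℂ) * (k / 4 * qC x + a))) := h2.const_mul _
    have h5 : (fun ζ : ℂ => 2 * (convC μ F F 1 - convC μ F F (uE B (ζ • x))) / ζ ^ 2) =ᶠ[𝓝[≠] 0]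
        fun ζ : ℂ => 2 * (W : ℂ) * ((1 - Complex.exp (-e ζ)) / ζ ^ 2) := by
      filter_upwards [mem_nhdsWithin_of_mem_nhds hev] with ζ hζ
      have hζ' : nC (ζ • x) < r := hζ
      rw [H.conv_exp hζ', conv_one (B := B) (hG := hG) H.hf, ← hW]
      have e1 : -(k / 4 : ℂ) * qC (ζ • x) - 2 * m ((1 / 2 : ℂ) • (ζ • x)) - H.ll (ζ • x) =
          -e ζ := by rw [he]; ring
      rw [e1]
      ring
    have h6 := tendsto_nhds_unique (h3.congr' h5) h4
    have h7 : a = ((κ : ℂ) * qC x) / (2 * W) - k / 4 * qC x := by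
      rw [h6]; field_simp; ring
    rw [h7, hδ]
    push_cast
    ring
  refine ⟨δ, κ, hκ, ?_, ?_, fun x hx => ?_⟩
  · rw [← hW, hδ]; field_simp; ring
  · obtain ⟨a, ha1, ha2⟩ := even_quadC (g := H.ll) (r := r) (S := 3 / 2 * eta Cq Cm r k M) hr0
      (fun x hx => H.ll_diff hx) (fun x _ => H.ll_even x) H.ll_zero (fun x hx => H.ll_le' hx)
      (rl (Pi.single (⟨0, hn⟩ : Fin n) (1 : ℝ)))
    have h1 := key _ a ha2
    have h2 : nE (Pi.single (⟨0, hn⟩ : Fin n) (1 : ℝ)) = 1 := by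
      unfold nE
      rw [Finset.sum_eq_single (⟨0, hn⟩ : Fin n)]
      · simp
      · intro c _ hc
        simp [Pi.single_apply, hc]
      · intro h; exact absurd (Finset.mem_univ _) h
    rw [qC_rl, h2] at h1
    rw [nC_rl, h2] at ha1
    rw [h1] at ha1
    simp only [one_pow, Complex.ofReal_one, mul_one, Complex.norm_real, Real.norm_eq_abs] at ha1
    refine ha1.trans (le_of_eq ?_)
    field_simp
  · obtain ⟨a, ha1, ha2⟩ := even_quadC (g := H.ll) (r := r) (S := 3 / 2 * eta Cq Cm r k M) hr0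
      (fun x hx => H.ll_diff hx) (fun x _ => H.ll_even x) H.ll_zero (fun x hx => H.ll_le' hx) x
    have h1 := key _ a ha2
    have h2 := ha2 1 (by rwa [one_smul])
    rw [one_smul, h1, one_pow, mul_one] at h2
    refine h2.trans (le_of_eq ?_)
    ring

end Hy

end

end Pool.Agent.N988.MK
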