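import Mathlib
import Pool.Agent.N988.MK.Sharp

/-!
# The first difference of the action
-/

open MeasureTheory Filter Metric Asymptotics Matrix
open scoped Matrix.Norms.Frobenius Topology ContDiff
open Pool.Agent.H906R3.YM Pool.Agent.W793.YM Pool.Agent.TH618.YM Pool.Agent.N984.TW
open Pool.Agent.N991.MK

namespace Pool.Agent.N988.MK

set_option linter.unusedSectionVars false

noncomputable section

/-- an even function which vanishes to an odd order `p` vanishes to order `p + 1` -/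
lemma even_gen {p : ℕ} (hp : Odd p) {g : ℂ → ℂ} {ρ S : ℝ} (hρ : 0 < ρ) (hd : DifferentiableOn ℂ g (ball 0 ρ))
    (he : ∀ ζ ∈ ball (0 : ℂ) ρ, g (-ζ) = g ζ) (h5 : g =O[𝓝 0] fun t : ℂ => t ^ p)
    (hb : ∀ ζ ∈ ball (0 : ℂ) ρ, ‖g ζ‖ ≤ S) {ζ : ℂ} (hζ : ζ ∈ ball (0 : ℂ) ρ) :
    ‖g ζ‖ ≤ S * (‖ζ‖ / ρ) ^ (p + 1) := by
  have hp0 : 0 < p := hp.pos
  have hnh : ball (0 : ℂ) ρ ∈ 𝓝 (0 : ℂ) := ball_mem_nhds _ hρ
  have hg0 : g 0 = 0 := by
    obtain ⟨c, hc⟩ := h5.bound
    have := hc.self_of_nhds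
    rw [zero_pow hp0.ne', norm_zero, mul_zero] at this
    exact norm_le_zero_iff.1 this
  have hlit : g =o[𝓝 0] fun t : ℂ => t ^ p := by
    have han : AnalyticAt ℂ g 0 := hd.analyticAt hnh
    by_cases hz : ∀ᶠ z in 𝓝 (0 : ℂ), g z = 0
    · have : g =ᶠ[𝓝 0] fun _ => (0 : ℂ) := hz
      exact this.trans_isLittleO (isLittleO_zero _ _)
    obtain ⟨m, u, hu, hu0, hgu⟩ := han.exists_eventuallyEq_pow_smul_nonzero_iff.2 hz
    simp only [sub_zero, smul_eq_mul] at hgu
    have hne : (𝓝[≠] (0 : ℂ)).NeBot := inferInstance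
    have hev : Even m := by
      have h1 : Tendsto (fun z : ℂ => (-1) ^ m * u (-z) - u z) (𝓝[≠] 0)
          (𝓝 ((-1) ^ m * u 0 - u 0)) := by
        have hc : ContinuousAt (fun z : ℂ => (-1) ^ m * u (-z) - u z) 0 := by
          have h2 : ContinuousAt (fun z : ℂ => u (-z)) 0 := by
            have h3 : ContinuousAt u (-0) := by rw [neg_zero]; exact hu.continuousAt
            exact ContinuousAt.comp (g := u) (f := fun z : ℂ => -z) h3 continuous_neg.continuousAt
          exact (h2.const_mul _).sub hu.continuousAt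
        have := hc.tendsto.mono_left (nhdsWithin_le_nhds (s := {0}ᶜ))
        simpa using this
      have h2 : ∀ᶠ z in 𝓝[≠] (0 : ℂ), (-1) ^ m * u (-z) - u z = 0 := by
        have hgu' : ∀ᶠ z in 𝓝 (0 : ℂ), g (-z) = (-z) ^ m * u (-z) := by
          have : Tendsto (fun z : ℂ => -z) (𝓝 0) (𝓝 0) := by
            have := (continuous_neg (G := ℂ)).tendsto 0
            rwa [neg_zero] at this
          exact this.eventually hgu
        filter_upwards [self_mem_nhdsWithin, mem_nhdsWithin_of_mem_nhds hnh,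
          mem_nhdsWithin_of_mem_nhds hgu, mem_nhdsWithin_of_mem_nhds hgu'] with z z1 z2 z3 z4
        have z5 := he z z2
        have z3' : g z = z ^ m * u z := z3
        have z4' : g (-z) = (-z) ^ m * u (-z) := z4
        rw [z4', z3', neg_pow] at z5
        have z6 : z ^ m ≠ 0 := pow_ne_zero _ z1
        have z7 : z ^ m * ((-1) ^ m * u (-z) - u z) = 0 := by linear_combination z5
        exact (mul_eq_zero.1 z7).resolve_left z6
      have h3 : (-1) ^ m * u 0 - u 0 = 0 :=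
        tendsto_nhds_unique (h1.congr' h2) tendsto_const_nhds
      by_contra hodd
      rw [Nat.not_even_iff_odd] at hodd
      rw [hodd.neg_one_pow] at h3
      exact hu0 (by linear_combination (-1 / 2) * h3)
    have hm5 : p ≤ m := by
      by_contra hlt
      rw [not_le] at hlt
      have h1 : u =O[𝓝[≠] 0] fun t : ℂ => t ^ (p - m) := by
        obtain ⟨c, hc⟩ := h5.bound
        refine IsBigO.of_bound c ?_
        filter_upwards [self_mem_nhdsWithin, mem_nhdsWithin_of_mem_nhds hc,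
          mem_nhdsWithin_of_mem_nhds hgu] with z z1 z2 z3
        have z2' : ‖g z‖ ≤ c * ‖z ^ p‖ := z2
        have z3' : g z = z ^ m * u z := z3
        rw [z3', norm_mul] at z2'
        have e : ‖z ^ p‖ = ‖z ^ m‖ * ‖z ^ (p - m)‖ := by
          rw [← norm_mul, ← pow_add]; congr 2; omega
        rw [e] at z2'
        have z4 : 0 < ‖z ^ m‖ := norm_pos_iff.2 (pow_ne_zero _ z1)
        have z5 : ‖z ^ m‖ * ‖u z‖ ≤ ‖z ^ m‖ * (c * ‖z ^ (p - m)‖) := by linarith
        exact le_of_mul_le_mul_left z5 z4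
      have h2 : Tendsto (fun t : ℂ => t ^ (p - m)) (𝓝[≠] 0) (𝓝 0) := by
        have h3 := (continuous_pow (M := ℂ) (p - m)).tendsto 0
        rw [zero_pow (by omega)] at h3
        exact h3.mono_left nhdsWithin_le_nhds
      have h3 := h1.trans_tendsto h2
      have h4 := hu.continuousAt.tendsto.mono_left (nhdsWithin_le_nhds (s := {0}ᶜ))
      exact hu0 (tendsto_nhds_unique h4 h3)
    have hm6 : p + 1 ≤ m := by
      rcases Nat.lt_or_ge p m with h | h
      · exact h
      · exfalso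
        have : m = p := le_antisymm h hm5
        rw [this] at hev
        exact (Nat.not_even_iff_odd.2 hp) hev
    have h6 : g =O[𝓝 0] fun t : ℂ => t ^ (p + 1) := by
      have h1 : (fun t : ℂ => t ^ m * u t) =O[𝓝 0] fun t : ℂ => t ^ m * 1 :=
        (isBigO_refl _ _).mul (cont_one hu.continuousAt)
      simp only [mul_one] at h1
      have h2 : g =ᶠ[𝓝 0] fun t : ℂ => t ^ m * u t := hgu
      exact (h2.trans_isBigO h1).trans (pw_le (p + 1) m hm6)
    refine h6.trans_isLittleO ?_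
    have h7 : (fun t : ℂ => t * t ^ p) =o[𝓝 0] fun t : ℂ => 1 * t ^ p := by
      refine IsLittleO.mul_isBigO ?_ (isBigO_refl _ _)
      rw [isLittleO_one_iff]
      exact tendsto_id
    refine (h7.congr_left fun t => by ring).congr_right fun t => by ring
  have hm : Set.MapsTo g (ball 0 ρ) (closedBall (g 0) S) := fun z hz => by
    rw [hg0, mem_closedBall_zero_iff]; exact hb z hz
  have hn : (g · - g 0) =o[𝓝 0] (fun w : ℂ => ‖w - 0‖ ^ p) := by
    simp only [hg0, sub_zero]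
    exact hlit.norm_right.congr_right fun w => by rw [norm_pow]
  have h2 := Complex.dist_le_mul_div_pow_of_mapsTo_ball_of_isLittleO hd hm hn hζ
  rw [hg0, dist_zero_right, dist_zero_right] at h2
  exact h2

/-- the Schwarz lemma -/
lemma schw1 {g : ℂ → ℂ} {ρ S : ℝ} (hd : DifferentiableOn ℂ g (ball 0 ρ)) (h0 : g 0 = 0)
    (hb : ∀ ζ ∈ ball (0 : ℂ) ρ, ‖g ζ‖ ≤ S) {ζ : ℂ} (hζ : ζ ∈ ball (0 : ℂ) ρ) :
    ‖g ζ‖ ≤ S * (‖ζ‖ / ρ) := by
  have hρ : 0 < ρ := nonempty_ball.1 ⟨ζ, hζ⟩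
  have hnh : ball (0 : ℂ) ρ ∈ 𝓝 (0 : ℂ) := ball_mem_nhds _ hρ
  have hm : Set.MapsTo g (ball 0 ρ) (closedBall (g 0) S) := fun z hz => by
    rw [h0, mem_closedBall_zero_iff]; exact hb z hz
  have hn : (g · - g 0) =o[𝓝 0] (fun w : ℂ => ‖w - 0‖ ^ 0) := by
    simp only [h0, sub_zero, pow_zero]
    rw [isLittleO_one_iff]
    have := (hd.differentiableAt hnh).continuousAt.tendsto
    rwa [h0] at this
  have h2 := Complex.dist_le_mul_div_pow_of_mapsTo_ball_of_isLittleO hd hm hn hζ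
  rw [h0, dist_zero_right, dist_zero_right] at h2
  simpa using h2

variable {n : ℕ}

/-- **Schwarz lemma for functions vanishing on the axes.** -/
theorem one_one {T : (Fin n → ℂ) → (Fin n → ℂ) → ℂ} {r r' S : ℝ}
    (hd : ∀ x y, nC x < r → nC y < r' →
      DifferentiableAt ℂ (fun p : (Fin n → ℂ) × (Fin n → ℂ) => T p.1 p.2) (x, y))
    (z1 : ∀ y, nC y < r' → T 0 y = 0) (z2 : ∀ x, nC x < r → T x 0 = 0)
    (bd : ∀ x y, nC x < r → nC y < r' → ‖T x y‖ ≤ S) {x y : Fin n → ℂ} (hx : nC x < r)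
    (hy : nC y < r') : ‖T x y‖ ≤ S * (nC x / r) * (nC y / r') := by
  have hr : 0 < r := lt_of_le_of_lt (nC_nonneg _) hx
  have hr' : 0 < r' := lt_of_le_of_lt (nC_nonneg _) hy
  by_cases hx0 : x = 0
  · rw [hx0, z1 y hy, norm_zero, nC_zero, zero_div]; simp
  by_cases hy0 : y = 0
  · rw [hy0, z2 x hx, norm_zero, nC_zero, zero_div]; simp
  have px : 0 < nC x := lt_of_not_ge fun h => hx0 (nC_eq_zero h)
  have py : 0 < nC y := lt_of_not_ge fun h => hy0 (nC_eq_zero h)
  have hbx : ∀ ζ ∈ ball (0 : ℂ) (r / nC x), nC (ζ • x) < r := by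
    intro ζ hζ
    rw [mem_ball_zero_iff, lt_div_iff₀ px] at hζ
    rw [nC_smul]; exact hζ
  have hby : ∀ w ∈ ball (0 : ℂ) (r' / nC y), nC (w • y) < r' := by
    intro w hw
    rw [mem_ball_zero_iff, lt_div_iff₀ py] at hw
    rw [nC_smul]; exact hw
  have h1x : (1 : ℂ) ∈ ball (0 : ℂ) (r / nC x) := by
    rw [mem_ball_zero_iff, norm_one, lt_div_iff₀ px, one_mul]; exact hx
  have h1y : (1 : ℂ) ∈ ball (0 : ℂ) (r' / nC y) := by
    rw [mem_ball_zero_iff, norm_one, lt_div_iff₀ py, one_mul]; exact hy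
  have s1 : ∀ y', nC y' < r' → ‖T x y'‖ ≤ S * (nC x / r) := by
    intro y' hy'
    have h := schw1 (g := fun ζ : ℂ => T (ζ • x) y') (ρ := r / nC x) (S := S) ?_ ?_ ?_ h1x
    · simp only [one_smul, norm_one] at h
      refine h.trans (le_of_eq ?_)
      rw [one_div_div]
    · intro ζ hζ
      have h3 := hd (ζ • x) y' (hbx ζ hζ) hy'
      have h4 : DifferentiableAt ℂ (fun ζ : ℂ => ((ζ • x, y') : (Fin n → ℂ) × (Fin n → ℂ))) ζ := by
        fun_prop
      exact (DifferentiableAt.comp (f := fun ζ : ℂ => ((ζ • x, y') : (Fin n → ℂ) × (Fin n → ℂ)))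
        (g := fun p : (Fin n → ℂ) × (Fin n → ℂ) => T p.1 p.2) ζ h3 h4).differentiableWithinAt
    · beta_reduce
      rw [zero_smul]
      exact z1 _ hy'
    · intro ζ hζ
      exact bd _ _ (hbx ζ hζ) hy'
  have h := schw1 (g := fun w : ℂ => T x (w • y)) (ρ := r' / nC y) (S := S * (nC x / r))
    ?_ ?_ ?_ h1y
  · simp only [one_smul, norm_one] at h
    refine h.trans (le_of_eq ?_)
    rw [one_div_div]
  · intro w hw
    have h3 := hd x (w • y) hx (hby w hw)
    have h4 : DifferentiableAt ℂ (fun w : ℂ => ((x, w • y) : (Fin n → ℂ) × (Fin n → ℂ))) w := by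
      fun_prop
    exact (DifferentiableAt.comp (f := fun w : ℂ => ((x, w • y) : (Fin n → ℂ) × (Fin n → ℂ)))
      (g := fun p : (Fin n → ℂ) × (Fin n → ℂ) => T p.1 p.2) w h3 h4).differentiableWithinAt
  · beta_reduce
    rw [zero_smul]
    exact z2 _ hx
  · intro w hw
    exact s1 _ (hby w hw)

/-- the complex bilinear form -/
def dC2 (x y : Fin n → ℂ) : ℂ := ∑ a, x a * y a

lemma dC2_le (x y : Fin n → ℂ) : ‖dC2 x y‖ ≤ nC x * nC y := by
  unfold dC2
  refine (norm_sum_le _ _).trans ?_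
  have h1 : ∑ a, ‖x a * y a‖ = ∑ a, ‖x a‖ * ‖y a‖ :=
    Finset.sum_congr rfl fun a _ => norm_mul _ _
  rw [h1]
  have h2 := Finset.sum_mul_sq_le_sq_mul_sq Finset.univ (fun a => ‖x a‖) (fun a => ‖y a‖)
  rw [← nC_sq, ← nC_sq, ← mul_pow] at h2
  exact (abs_le_of_sq_le_sq' h2 (mul_nonneg (nC_nonneg _) (nC_nonneg _))).2

lemma dC2_smul (c : ℂ) (x y : Fin n → ℂ) : dC2 (c • x) y = c * dC2 x y := by
  unfold dC2
  rw [Finset.mul_sum]
  refine Finset.sum_congr rfl fun a _ => ?_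
  simp [mul_assoc]

lemma dC2_neg (x y : Fin n → ℂ) : dC2 x (-y) = -dC2 x y := by
  unfold dC2
  rw [← Finset.sum_neg_distrib]
  refine Finset.sum_congr rfl fun a _ => ?_
  simp

lemma dC2_diff : Differentiable ℂ fun p : (Fin n → ℂ) × (Fin n → ℂ) => dC2 p.1 p.2 := by
  unfold dC2
  fun_prop

lemma qC_add (x y : Fin n → ℂ) : qC (x + y) = qC x + qC y + 2 * dC2 x y := by
  unfold qC dC2
  rw [Finset.mul_sum, ← Finset.sum_add_distrib, ← Finset.sum_add_distrib]
  refine Finset.sum_congr rfl fun a _ => ?_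
  simp only [Pi.add_apply]
  ring

variable {N : ℕ} {G : Subgroup (UN N)} {B : Frame G n}
variable {r₀ C : ℝ} {b : (Fin n → ℂ) → (Fin n → ℂ) → (Fin n → ℂ)}

lemma BC.q_first (h : BC B r₀ C b) {x y : Fin n → ℂ} (hx : nC x ≤ r₀) (hy : nC y ≤ r₀) :
    ‖qC (b x y) - qC x - qC y - 2 * dC2 x y‖ ≤ 3 * C * (nC x + nC y) * nC x * nC y := by
  obtain ⟨e, he⟩ : ∃ e, e = b x y - x - y := ⟨_, rfl⟩
  have h1 : b x y = (x + y) + e := by rw [he]; abel
  have h2 : nC e ≤ C * nC x * nC y := by rw [he]; exact h.near x y hx hy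
  have h3 : qC (b x y) - qC x - qC y - 2 * dC2 x y = 2 * dC2 (x + y) e + qC e := by
    rw [h1, qC_add, qC_add]; ring
  have hx0 := nC_nonneg x
  have hy0 := nC_nonneg y
  have he0 := nC_nonneg e
  have hC := h.Cpos
  have h4 : C * nC x ≤ 1 := (mul_le_mul_of_nonneg_left hx hC).trans h.small
  rw [h3]
  refine (norm_add_le _ _).trans ?_
  rw [norm_mul]
  have h5 : ‖(2 : ℂ)‖ = 2 := by norm_num
  rw [h5]
  have h6 := dC2_le (x + y) e
  have h7 := nC_add_le x y
  have h8 := norm_qC_le e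
  have h9 : nC (x + y) * nC e ≤ (nC x + nC y) * (C * nC x * nC y) := by gcongr
  have h10 : nC e ^ 2 ≤ (C * nC x * nC y) * nC y := by
    have : nC e ≤ nC y := h2.trans (by nlinarith)
    nlinarith
  have h11 : 0 ≤ C * nC x * nC y * nC x := by positivity
  nlinarith

/-- the odd part of the quadratic form -/
def Uf (b : (Fin n → ℂ) → (Fin n → ℂ) → (Fin n → ℂ)) (x y : Fin n → ℂ) : ℂ :=
  qC (b x y) - qC (b x (-y)) - 4 * dC2 x y

/-- **the first difference of the quadratic form** -/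
theorem BC.Uq (h : BC B r₀ C b) : ∃ Cu : ℝ, 0 ≤ Cu ∧ ∀ x y : Fin n → ℂ, nC x < r₀ / 2 →
    nC y < r₀ / 2 → ‖Uf b x y‖ ≤ Cu * nC x * nC y * max (nC x) (nC y) ^ 2 := by
  have hp := h.pos
  have hC := h.Cpos
  have hn : ∀ y : Fin n → ℂ, nC (-y) = nC y := nC_neg
  have hEb : ∀ x y, nC x < r₀ → nC y < r₀ →
      ‖Uf b x y‖ ≤ 6 * C * (nC x + nC y) * nC x * nC y := by
    intro x y hx hy
    have h1 := h.q_first hx.le hy.le
    have h2 := h.q_first (x := x) (y := -y) hx.le (by rw [hn]; exact hy.le)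
    rw [hn, qC_neg, dC2_neg] at h2
    have e : Uf b x y = (qC (b x y) - qC x - qC y - 2 * dC2 x y) -
        (qC (b x (-y)) - qC x - qC y - 2 * -dC2 x y) := by unfold Uf; ring
    rw [e]
    refine (norm_sub_le _ _).trans ?_
    linarith
  have hEd : ∀ x y, nC x < r₀ → nC y < r₀ →
      DifferentiableAt ℂ (fun p : (Fin n → ℂ) × (Fin n → ℂ) => Uf b p.1 p.2) (x, y) := by
    intro x y hx hy
    unfold Uf
    have h1 := (qC_diff (b x y)).comp (x, y) (h.diff x y hx.le hy.le)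
    have h2 := (qC_diff (b x (-y))).comp (x, y) (h.diff1 hx.le hy.le)
    exact (h1.sub h2).sub ((dC2_diff (x, y)).const_mul _)
  have hE2 : ∀ x y, nC x < r₀ → nC y < r₀ → Uf b (-x) (-y) = Uf b x y := by
    intro x y hx hy
    unfold Uf
    have h1 := h.qsym (x := x) (y := y) hx.le hy.le
    have h2 := h.qsym (x := x) (y := -y) hx.le (by rw [hn]; exact hy.le)
    rw [neg_neg] at h2
    rw [neg_neg, h1, h2]
    unfold dC2
    simp
  have hz : ∀ x y, nC x < r₀ → nC y < r₀ → nC x * nC y = 0 → Uf b x y = 0 := by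
    intro x y hx hy hxy
    have h1 := hEb x y hx hy
    have h2 : 6 * C * (nC x + nC y) * nC x * nC y = 6 * C * (nC x + nC y) * (nC x * nC y) := by
      ring
    rw [h2, hxy] at h1
    exact norm_le_zero_iff.1 (h1.trans (by simp))
  obtain ⟨S, hS⟩ : ∃ S, S = 12 * C * r₀ ^ 3 := ⟨_, rfl⟩
  have hS0 : 0 ≤ S := by rw [hS]; positivity
  have h6 : ∀ x y, nC x < r₀ → nC y < r₀ → ‖Uf b x y‖ ≤ S * (max (nC x) (nC y) / r₀) ^ 4 := by
    intro x y hx hy
    obtain ⟨m, hm⟩ : ∃ m, m = max (nC x) (nC y) := ⟨_, rfl⟩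
    rw [← hm]
    have hmx : nC x ≤ m := by rw [hm]; exact le_max_left _ _
    have hmy : nC y ≤ m := by rw [hm]; exact le_max_right _ _
    have hmr : m < r₀ := by rw [hm]; exact max_lt hx hy
    have hm0 : 0 ≤ m := (nC_nonneg x).trans hmx
    rcases hm0.eq_or_lt with h0 | hmp
    · have : nC x * nC y = 0 := by
        have : nC x = 0 := le_antisymm (h0 ▸ hmx) (nC_nonneg x)
        rw [this, zero_mul]
      rw [hz x y hx hy this, norm_zero]
      positivity
    have hball : ∀ ζ ∈ ball (0 : ℂ) (r₀ / m), nC (ζ • x) < r₀ ∧ nC (ζ • y) < r₀ := by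
      intro ζ hζ
      rw [mem_ball_zero_iff, lt_div_iff₀ hmp] at hζ
      rw [nC_smul, nC_smul]
      exact ⟨lt_of_le_of_lt (mul_le_mul_of_nonneg_left hmx (norm_nonneg _)) hζ,
        lt_of_le_of_lt (mul_le_mul_of_nonneg_left hmy (norm_nonneg _)) hζ⟩
    have h1m : (1 : ℂ) ∈ ball (0 : ℂ) (r₀ / m) := by
      rw [mem_ball_zero_iff, norm_one, lt_div_iff₀ hmp, one_mul]; exact hmr
    have hO : (fun ζ : ℂ => Uf b (ζ • x) (ζ • y)) =O[𝓝 0] fun t : ℂ => t ^ 3 := by
      refine IsBigO.of_bound (6 * C * (nC x + nC y) * nC x * nC y) ?_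
      filter_upwards [ball_mem_nhds (0 : ℂ) (show 0 < r₀ / m by positivity)] with ζ hζ
      refine (hEb _ _ (hball ζ hζ).1 (hball ζ hζ).2).trans (le_of_eq ?_)
      rw [nC_smul, nC_smul, norm_pow]
      ring
    have := even_gen (p := 3) (by decide) (g := fun ζ : ℂ => Uf b (ζ • x) (ζ • y))
      (ρ := r₀ / m) (S := S) (by positivity)
      (fun ζ hζ => by
        have h3 := hEd (ζ • x) (ζ • y) (hball ζ hζ).1 (hball ζ hζ).2
        have h4 : DifferentiableAt ℂ
            (fun ζ : ℂ => ((ζ • x, ζ • y) : (Fin n → ℂ) × (Fin n → ℂ))) ζ := by fun_prop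
        exact (DifferentiableAt.comp
          (f := fun ζ : ℂ => ((ζ • x, ζ • y) : (Fin n → ℂ) × (Fin n → ℂ)))
          (g := fun p : (Fin n → ℂ) × (Fin n → ℂ) => Uf b p.1 p.2) ζ h3 h4).differentiableWithinAt)
      (fun ζ hζ => by
        beta_reduce
        rw [neg_smul, neg_smul, hE2 _ _ (hball ζ hζ).1 (hball ζ hζ).2])
      hO
      (fun ζ hζ => by
        refine (hEb _ _ (hball ζ hζ).1 (hball ζ hζ).2).trans ?_
        have g1 := (hball ζ hζ).1.le
        have g2 := (hball ζ hζ).2.le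
        have g3 := nC_nonneg (ζ • x)
        have g4 := nC_nonneg (ζ • y)
        calc 6 * C * (nC (ζ • x) + nC (ζ • y)) * nC (ζ • x) * nC (ζ • y)
            ≤ 6 * C * (r₀ + r₀) * r₀ * r₀ := by gcongr
          _ = S := by rw [hS]; ring)
      h1m
    simp only [one_smul, norm_one, one_div_div] at this
    exact this
  refine ⟨4 * S / r₀ ^ 4, by positivity, fun x y hx hy => ?_⟩
  obtain ⟨m, hm⟩ : ∃ m, m = max (nC x) (nC y) := ⟨_, rfl⟩
  rw [← hm]
  have hmx : nC x ≤ m := by rw [hm]; exact le_max_left _ _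
  have hmy : nC y ≤ m := by rw [hm]; exact le_max_right _ _
  have hmr : m < r₀ / 2 := by rw [hm]; exact max_lt hx hy
  have hm0 : 0 ≤ m := (nC_nonneg x).trans hmx
  rcases hm0.eq_or_lt with h0 | hmp
  · have : nC x * nC y = 0 := by
      have : nC x = 0 := le_antisymm (h0 ▸ hmx) (nC_nonneg x)
      rw [this, zero_mul]
    rw [hz x y (by linarith) (by linarith) this, norm_zero]
    have := nC_nonneg x
    have := nC_nonneg y
    positivity
  have := one_one (T := Uf b) (r := 2 * m) (r' := 2 * m) (S := S * (2 * m / r₀) ^ 4)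
    (fun x y hx hy => hEd x y (by linarith) (by linarith))
    (fun y hy => hz 0 y (by rw [nC_zero]; exact hp) (by linarith) (by rw [nC_zero, zero_mul]))
    (fun x hx => hz x 0 (by linarith) (by rw [nC_zero]; exact hp) (by rw [nC_zero, mul_zero]))
    (fun x y hx hy => (h6 x y (by linarith) (by linarith)).trans (by
      have g1 : max (nC x) (nC y) ≤ 2 * m := max_le hx.le hy.le
      have g2 : 0 ≤ max (nC x) (nC y) := (nC_nonneg x).trans (le_max_left _ _)
      gcongr))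
    (x := x) (y := y) (by linarith) (by linarith)
  refine this.trans (le_of_eq ?_)
  field_simp
  ring

end

end Pool.Agent.N988.MK
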