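import Mathlib
import Pool.Agent.N988.MK.Del
import Pool.Agent.N988.MK.Odd
import Pool.Agent.N991.MK.CNorm
import Pool.Agent.N991.MK.Wil

/-!
# The derivative of the class function near the identity, linear coordinates
-/

open MeasureTheory Filter Metric Asymptotics Matrix
open scoped Matrix.Norms.Frobenius Topology ContDiff
open Pool.Agent.H906R3.YM Pool.Agent.W793.YM Pool.Agent.TH618.YM Pool.Agent.N984.TW
open Pool.Agent.N991.MK

namespace Pool.Agent.N988.MK

set_option linter.unusedSectionVars false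

noncomputable section

/-- a bound of a derivative by a bound of the difference quotients -/
lemma der_bound {D : ℂ → ℂ} {d c : ℂ} {K : ℝ} (h : HasDerivAt D d 0) (h0 : D 0 = 0)
    {κ : ℂ → ℝ} (hK : Tendsto κ (𝓝[≠] 0) (𝓝 K))
    (hb : ∀ᶠ ζ in 𝓝[≠] (0 : ℂ), ‖D ζ - c * ζ‖ ≤ κ ζ * ‖ζ‖) : ‖d - c‖ ≤ K := by
  have h1 := (h.tendsto_slope.sub_const c).norm
  refine le_of_tendsto_of_tendsto h1 hK ?_
  filter_upwards [hb, self_mem_nhdsWithin] with ζ h2 h3
  have h4 : 0 < ‖ζ‖ := norm_pos_iff.2 h3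
  have h5 : (ζ : ℂ) ≠ 0 := h3
  rw [slope_def_field, sub_zero, h0, sub_zero]
  have e : D ζ / ζ - c = (D ζ - c * ζ) / ζ := by field_simp
  rw [e, norm_div, div_le_iff₀ h4]
  exact h2

variable {N n : ℕ} {G : Subgroup (UN N)} {B : Frame G n} {hG : IsClosed (G : Set (UN N))}
variable [CompactSpace G] [MeasurableSpace G] [BorelSpace G] {μ : Measure G}
  [IsProbabilityMeasure μ] [μ.IsMulLeftInvariant] [μ.IsMulRightInvariant] [μ.IsInvInvariant]
variable {r₀ C : ℝ} {b : (Fin n → ℂ) → (Fin n → ℂ) → (Fin n → ℂ)}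
variable {r k M Cm Cq Cu : ℝ} {F : (Mat N)ˣ → ℂ} {m : (Fin n → ℂ) → ℂ} {f : G → ℝ}

/-- the first difference of the quartic part -/
lemma St.Um (hs : St B r k M F m) (h : BC B r₀ C b) (hr : r ≤ r₀) (hM : 0 ≤ M)
    {x y : Fin n → ℂ} (hx : nC x < nC y) (hy : nC y < r / 3) :
    ‖m (b x y) - m (b x (-y))‖ ≤ 162 * M * nC x * nC y ^ 3 := by
  have hn : ∀ z : Fin n → ℂ, nC (-z) = nC z := nC_neg
  have hy0 : 0 < nC y := lt_of_le_of_lt (nC_nonneg x) hx
  have hrp : 0 < r := by linarith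
  have hC := h.Cpos
  have hg : ∀ x' : Fin n → ℂ, nC x' < nC y → ‖m (b x' y) - m (b x' (-y))‖ ≤
      162 * M * nC y ^ 4 := by
    intro x' hx'
    have hx0 := nC_nonneg x'
    have key : ∀ y' : Fin n → ℂ, nC y' = nC y → ‖m (b x' y')‖ ≤ 81 * M * nC y ^ 4 := by
      intro y' hy'
      have h1 := h.in_r (r := r) hr (x := x') (y := y') (by linarith) (by rwa [hy'])
      have h2 := hs.bd _ h1
      have h3 := h.nC_le (x := x') (y := y') (by linarith) (by rw [hy']; linarith)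
      have h4 : C * nC x' ≤ 1 := by
        have : C * nC x' ≤ C * r₀ := mul_le_mul_of_nonneg_left (by linarith) hC
        linarith [h.small]
      have h5 : nC (b x' y') ≤ 3 * nC y := by
        rw [hy'] at h3
        have : C * nC x' * nC y ≤ 1 * nC y := mul_le_mul_of_nonneg_right h4 hy0.le
        linarith
      have h6 := pow_le_pow_left₀ (nC_nonneg _) h5 4
      refine h2.trans ((mul_le_mul_of_nonneg_left h6 hM).trans (le_of_eq ?_))
      ring
    refine (norm_sub_le _ _).trans ?_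
    have h1 := key y rfl
    have h2 := key (-y) (hn y)
    linarith
  by_cases hx0 : x = 0
  · rw [hx0, h.zero_left (by linarith), h.zero_left (by rw [hn]; linarith),
      hs.even y (by linarith), sub_self, norm_zero, nC_zero]
    simp
  have px : 0 < nC x := lt_of_not_ge fun h => hx0 (nC_eq_zero h)
  have hbx : ∀ ζ ∈ ball (0 : ℂ) (nC y / nC x), nC (ζ • x) < nC y := by
    intro ζ hζ
    rw [mem_ball_zero_iff, lt_div_iff₀ px] at hζ
    rw [nC_smul]; exact hζ
  have h1x : (1 : ℂ) ∈ ball (0 : ℂ) (nC y / nC x) := by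
    rw [mem_ball_zero_iff, norm_one, lt_div_iff₀ px, one_mul]; exact hx
  have h1 := schw1 (g := fun ζ : ℂ => m (b (ζ • x) y) - m (b (ζ • x) (-y))) (ρ := nC y / nC x)
    (S := 162 * M * nC y ^ 4) ?_ ?_ ?_ h1x
  · simp only [one_smul, norm_one, one_div_div] at h1
    refine h1.trans (le_of_eq ?_)
    field_simp
  · intro ζ hζ
    have hζ' := hbx ζ hζ
    have c1 : DifferentiableAt ℂ (fun ζ : ℂ => ((ζ • x, y) : (Fin n → ℂ) × (Fin n → ℂ))) ζ := by
      fun_prop
    have d1 := DifferentiableAt.comp (f := fun ζ : ℂ => ((ζ • x, y) : (Fin n → ℂ) × (Fin n → ℂ)))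
      (g := fun p : (Fin n → ℂ) × (Fin n → ℂ) => b p.1 p.2) ζ
      (h.diff (ζ • x) y (by linarith) (by linarith)) c1
    have d2 := DifferentiableAt.comp (f := fun ζ : ℂ => ((ζ • x, y) : (Fin n → ℂ) × (Fin n → ℂ)))
      (g := fun p : (Fin n → ℂ) × (Fin n → ℂ) => b p.1 (-p.2)) ζ
      (h.diff1 (x := ζ • x) (y := y) (by linarith) (by linarith)) c1
    have e1 := DifferentiableAt.comp (f := fun ζ : ℂ => b (ζ • x) y) (g := m) ζ
      (hs.md _ (h.in_r hr (by linarith) hy)) d1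
    have e2 := DifferentiableAt.comp (f := fun ζ : ℂ => b (ζ • x) (-y)) (g := m) ζ
      (hs.md _ (h.in_r hr (by linarith) (by rwa [hn]))) d2
    exact (e1.sub e2).differentiableWithinAt
  · beta_reduce
    rw [zero_smul, h.zero_left (by linarith), h.zero_left (by rw [hn]; linarith),
      hs.even y (by linarith), sub_self]
  · intro ζ hζ
    exact hg _ (hbx ζ hζ)

/-- **the derivative of the class function at points near the identity** -/
theorem St.Lz_near (hs : St B r k M F m) (hf : CF f F) (h1 : F 1 ≠ 0) (h : BC B r₀ C b)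
    (hr : r ≤ r₀) (hr0 : 0 < r) (hM : 0 ≤ M) (hk : 0 ≤ k) (hCu : 0 ≤ Cu)
    (hu : ∀ x y : Fin n → ℂ, nC x < r₀ / 2 → nC y < r₀ / 2 →
      ‖Uf b x y‖ ≤ Cu * nC x * nC y * max (nC x) (nC y) ^ 2)
    {y : Fin n → ℝ} (hy : nE y < r / 3) (x : Fin n → ℂ) :
    ‖Lz B F (Eg B hG y) x + (f (Eg B hG y) : ℂ) * (k * dC2 x (rl y))‖ ≤
      |f (Eg B hG y)| * ((k / 4 * Cu + 81 * M) * nC x * nE y ^ 3) := by
  obtain ⟨w, hw⟩ : ∃ w, w = rl y := ⟨_, rfl⟩
  obtain ⟨z, hz⟩ : ∃ z, z = Eg B hG y := ⟨_, rfl⟩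
  rw [← hz, ← hw]
  have hzw : uG z = uE B w := by rw [hz, hw, uE_rl B hG]
  have hwn : nC w = nE y := by rw [hw, nC_rl]
  have hw3 : nC w < r / 3 := by rw [hwn]; exact hy
  have hn : ∀ z : Fin n → ℂ, nC (-z) = nC z := nC_neg
  obtain ⟨G1, hG1⟩ : ∃ G1 : ℂ → ℂ, G1 = fun ζ => k / 2 * qC (b (ζ • x) w) + m (b (ζ • x) w) :=
    ⟨_, rfl⟩
  have hev : ∀ᶠ ζ in 𝓝 (0 : ℂ), nC (ζ • x) < r / 2 := (nC_smul_tendsto x).eventually
    (gt_mem_nhds (by positivity))
  have hd0 : DifferentiableAt ℂ G1 0 := by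
    have hz0 : nC ((0 : ℂ) • x) < r / 2 := by rw [zero_smul, nC_zero]; positivity
    have c1 : DifferentiableAt ℂ (fun ζ : ℂ => ((ζ • x, w) : (Fin n → ℂ) × (Fin n → ℂ))) 0 := by
      fun_prop
    have d1 := DifferentiableAt.comp (f := fun ζ : ℂ => ((ζ • x, w) : (Fin n → ℂ) × (Fin n → ℂ)))
      (g := fun p : (Fin n → ℂ) × (Fin n → ℂ) => b p.1 p.2) 0
      (h.diff ((0 : ℂ) • x) w (by linarith) (by linarith)) c1
    have e1 := DifferentiableAt.comp (f := fun ζ : ℂ => b (ζ • x) w) (g := m) 0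
      (hs.md _ (h.in_r hr hz0 hw3)) d1
    have e2 := DifferentiableAt.comp (f := fun ζ : ℂ => b (ζ • x) w) (g := qC) 0
      (qC_diff _) d1
    rw [hG1]
    exact (e2.const_mul _).add e1
  obtain ⟨g', hg'⟩ : ∃ g', g' = deriv G1 0 := ⟨_, rfl⟩
  have hder : HasDerivAt G1 g' 0 := by rw [hg']; exact hd0.hasDerivAt
  have hfz : F 1 * Complex.exp (-G1 0) = (f z : ℂ) := by
    rw [hG1]
    beta_reduce
    rw [zero_smul, h.zero_left (by linarith), ← hf.res z, hzw, hs.eq w (by linarith)]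
    congr 2
    ring
  -- the derivative of the class function
  have hL : Lz B F z x = -((f z : ℂ) * g') := by
    have h2 := Lz_curve (B := B) hf.hol z x
    have h3 : (fun ζ : ℂ => F (uE B (ζ • x) * uG z)) =ᶠ[𝓝 0]
        fun ζ : ℂ => F 1 * Complex.exp (-G1 ζ) := by
      filter_upwards [hev] with ζ hζ
      rw [hzw, ← h.uE_mul (by linarith) (by linarith), hs.eq _ (h.in_r hr hζ hw3), hG1]
      congr 2
      ring
    have h4 : HasDerivAt (fun ζ : ℂ => F 1 * Complex.exp (-G1 ζ))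
        (F 1 * (Complex.exp (-G1 0) * -g')) 0 := (hder.neg.cexp).const_mul (F 1)
    have h5 := (h2.congr_of_eventuallyEq h3.symm).unique h4
    rw [h5, ← hfz]
    ring
  -- the odd part
  have hsym : ∀ᶠ ζ in 𝓝 (0 : ℂ), G1 (-ζ) = k / 2 * qC (b (ζ • x) (-w)) + m (b (ζ • x) (-w)) := by
    filter_upwards [hev] with ζ hζ
    rw [hG1]
    beta_reduce
    rw [neg_smul, h.qsym (x := ζ • x) (y := w) (by linarith) (by linarith),
      hs.msym hG hf h1 h hr hζ hw3]
  have hD : HasDerivAt (fun ζ => G1 ζ - G1 (-ζ)) (2 * g') 0 := by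
    have h2 : HasDerivAt (fun ζ => G1 (-ζ)) (-g') 0 := by
      have h3 : HasDerivAt G1 g' (-0) := by rwa [neg_zero]
      exact (h3.scomp (0 : ℂ) (hasDerivAt_neg (0 : ℂ))).congr_deriv (by simp)
    exact (hder.sub h2).congr_deriv (by ring)
  have hb2 : ‖2 * g' - 2 * (k * dC2 x w)‖ ≤
      k / 2 * (Cu * nC x * nC w * nC w ^ 2) + 162 * M * nC x * nC w ^ 3 := by
    refine der_bound (κ := fun ζ => k / 2 * (Cu * nC x * nC w *
      (nC (ζ • x) + nC w) ^ 2) + 162 * M * nC x * nC w ^ 3) hD (by simp) ?_ ?_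
    · have h2 : Tendsto (fun ζ : ℂ => k / 2 * (Cu * nC x * nC w *
          (nC (ζ • x) + nC w) ^ 2) + 162 * M * nC x * nC w ^ 3) (𝓝 0)
          (𝓝 (k / 2 * (Cu * nC x * nC w * (0 + nC w) ^ 2) + 162 * M * nC x * nC w ^ 3)) :=
        (((((nC_smul_tendsto x).add_const _).pow 2).const_mul _).const_mul _).add_const _
      rw [zero_add] at h2
      exact h2.mono_left nhdsWithin_le_nhds
    · have hmx : ∀ᶠ ζ in 𝓝 (0 : ℂ), ‖m (b (ζ • x) w) - m (b (ζ • x) (-w))‖ ≤
          162 * M * nC (ζ • x) * nC w ^ 3 := by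
        by_cases hw0 : w = 0
        · refine Eventually.of_forall fun ζ => ?_
          rw [hw0, neg_zero, sub_self, norm_zero, nC_zero]
          simp
        · have pw : 0 < nC w := lt_of_not_ge fun h => hw0 (nC_eq_zero h)
          filter_upwards [(nC_smul_tendsto x).eventually (gt_mem_nhds pw)] with ζ hζ
          exact hs.Um h hr hM hζ hw3
      filter_upwards [mem_nhdsWithin_of_mem_nhds hev, mem_nhdsWithin_of_mem_nhds hsym,
        mem_nhdsWithin_of_mem_nhds hmx] with ζ a1 a2 a3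
      have a1' : nC (ζ • x) < r / 2 := a1
      have a2' : G1 (-ζ) = k / 2 * qC (b (ζ • x) (-w)) + m (b (ζ • x) (-w)) := a2
      have a3' : ‖m (b (ζ • x) w) - m (b (ζ • x) (-w))‖ ≤ 162 * M * nC (ζ • x) * nC w ^ 3 := a3
      have a4 := hu (ζ • x) w (by linarith) (by linarith)
      rw [a2']
      have e : G1 ζ - (k / 2 * qC (b (ζ • x) (-w)) + m (b (ζ • x) (-w))) -
          2 * (k * dC2 x w) * ζ = k / 2 * Uf b (ζ • x) w +
          (m (b (ζ • x) w) - m (b (ζ • x) (-w))) := by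
        rw [hG1]
        unfold Uf
        rw [dC2_smul]
        ring
      rw [e]
      refine (norm_add_le _ _).trans ?_
      rw [norm_mul]
      have h4 : ‖(k / 2 : ℂ)‖ = k / 2 := by
        have : (k / 2 : ℂ) = ((k / 2 : ℝ) : ℂ) := by push_cast; ring
        rw [this, Complex.norm_real, Real.norm_eq_abs, abs_of_nonneg (by positivity)]
      rw [h4]
      have g1 := nC_nonneg (ζ • x)
      have g2 := nC_nonneg w
      have a5 : Cu * nC (ζ • x) * nC w * max (nC (ζ • x)) (nC w) ^ 2 ≤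
          Cu * nC (ζ • x) * nC w * (nC (ζ • x) + nC w) ^ 2 := by
        have : max (nC (ζ • x)) (nC w) ≤ nC (ζ • x) + nC w := max_le (by linarith) (by linarith)
        have g3 : 0 ≤ max (nC (ζ • x)) (nC w) := g1.trans (le_max_left _ _)
        gcongr
      calc _ ≤ k / 2 * (Cu * nC (ζ • x) * nC w * (nC (ζ • x) + nC w) ^ 2) +
            162 * M * nC (ζ • x) * nC w ^ 3 :=
            add_le_add (mul_le_mul_of_nonneg_left (a4.trans a5) (by positivity)) a3'
        _ = _ := by rw [nC_smul]; ring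
  have e1 : Lz B F z x + (f z : ℂ) * (k * dC2 x w) =
      -(f z : ℂ) * ((2 * g' - 2 * (k * dC2 x w)) / 2) := by rw [hL]; ring
  rw [e1, norm_mul, norm_neg, Complex.norm_real, Real.norm_eq_abs]
  refine mul_le_mul_of_nonneg_left ?_ (abs_nonneg _)
  rw [norm_div]
  have h4 : ‖(2 : ℂ)‖ = 2 := by norm_num
  rw [h4, ← hwn]
  linarith

/-! ## linear coordinates -/

variable (B) in
/-- the linear coordinates of a group element -/
def pz (z : G) : Fin n → ℝ := pc B (mt z - 1)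

lemma pz_cont (a : Fin n) : Continuous fun z : G => pz B z a := by
  unfold pz pc
  exact (ip (B.X a)).continuous.comp (mt_cont.sub continuous_const)

lemma ip_LX (x : Fin n → ℝ) (A : Mat N) : ip (LX B x) A = ∑ a, x a * pc B A a := by
  unfold LX pc
  rw [ip_comm, map_sum]
  refine Finset.sum_congr rfl fun a _ => ?_
  rw [map_smul, smul_eq_mul, ip_comm]

include hG in
lemma pz_Ad (g z : G) (x : Fin n → ℝ) :
    ∑ a, Adx B g x a * pz B z a = ∑ a, x a * pz B (g⁻¹ * z * g) a := by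
  unfold pz
  rw [← ip_LX, ← ip_LX, LX_Ad B hG, ip_comm, mt_inv_star, ip_conj, ip_comm]
  congr 1
  rw [mul_sub, sub_mul, mul_one, show (mt g)ᴴ * mt g = 1 from rhoG_unit' g, ← mt_inv_star,
    mt_mul, mt_mul]

include hG in
/-- the linear coordinates agree with the exponential coordinates up to third order -/
lemma exists_pz (B : Frame G n) : ∃ ρ Cp : ℝ, 0 < ρ ∧ 0 ≤ Cp ∧ ∀ y : Fin n → ℝ, nE y < ρ →
    nE (pz B (Eg B hG y) - y) ≤ Cp * nE y ^ 3 := by
  obtain ⟨c, hc0, hc⟩ := (exp4 N).exists_nonneg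
  obtain ⟨ρ, hρ, hb⟩ := Metric.eventually_nhds_iff.1 hc.bound
  refine ⟨min ρ 1, Real.sqrt n * (1 / 6 + c), by positivity, by positivity, fun y hy => ?_⟩
  have hy1 : nE y < 1 := lt_of_lt_of_le hy (min_le_right _ _)
  obtain ⟨Y, hY⟩ : ∃ Y, Y = LX B y := ⟨_, rfl⟩
  have hYn : ‖Y‖ = nE y := by rw [hY]; exact norm_LX B y
  have h1 := hb (y := Y) (by rw [dist_zero_right, hYn]; exact lt_of_lt_of_le hy (min_le_left _ _))
  obtain ⟨R, hR⟩ : ∃ R, R = NormedSpace.exp Y - (1 + Y + (1 / 2 : ℂ) • (Y * Y) +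
    (1 / 6 : ℂ) • (Y * (Y * Y))) := ⟨_, rfl⟩
  rw [← hR] at h1
  have hy0 := nE_nonneg y
  have hRn : ‖R‖ ≤ c * nE y ^ 4 := by
    refine h1.trans (le_of_eq ?_)
    rw [norm_pow, norm_norm, hYn]
  obtain ⟨A, hA⟩ : ∃ A, A = (1 / 6 : ℂ) • (Y * (Y * Y)) + R := ⟨_, rfl⟩
  have hAn : ‖A‖ ≤ (1 / 6 + c) * nE y ^ 3 := by
    rw [hA]
    refine (norm_add_le _ _).trans ?_
    rw [norm_smul]
    have h2 : ‖(1 / 6 : ℂ)‖ = 1 / 6 := by norm_num
    rw [h2]
    have h3 : ‖Y * (Y * Y)‖ ≤ nE y ^ 3 := by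
      refine (norm_mul_le _ _).trans ?_
      have := norm_mul_le Y Y
      rw [hYn] at this ⊢
      nlinarith
    have h4 : c * nE y ^ 4 ≤ c * nE y ^ 3 := by
      refine mul_le_mul_of_nonneg_left ?_ hc0
      exact pow_le_pow_of_le_one hy0 hy1.le (by norm_num)
    linarith
  have hdec : mt (Eg B hG y) - 1 = Y + (1 / 2 : ℂ) • (Y * Y) + A := by
    rw [mt_Eg, EM, ← hY, hA, hR]; abel
  have hsq : pc B ((1 / 2 : ℂ) • (Y * Y)) = 0 := by
    funext a
    unfold pc
    rw [ip_apply, mul_smul_comm, trace_smul]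
    have hYs : Yᴴ = -Y := by
      rw [hY]
      unfold LX
      rw [conjTranspose_sum, ← Finset.sum_neg_distrib]
      refine Finset.sum_congr rfl fun a _ => ?_
      rw [conjTranspose_smul, B.skewX a]
      simp
    have h3 : star (trace ((B.X a)ᴴ * (Y * Y))) = -trace ((B.X a)ᴴ * (Y * Y)) := by
      rw [← trace_conjTranspose, conjTranspose_mul, conjTranspose_mul, hYs,
        conjTranspose_conjTranspose, B.skewX a, trace_mul_comm]
      simp
    have h4 : (trace ((B.X a)ᴴ * (Y * Y))).re = 0 := by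
      have := congrArg Complex.re h3
      simp only [Complex.star_def, Complex.conj_re, Complex.neg_re] at this
      linarith
    have h5 : ((1 / 2 : ℂ) • trace ((B.X a)ᴴ * (Y * Y))).re =
        1 / 2 * (trace ((B.X a)ᴴ * (Y * Y))).re := by
      rw [smul_eq_mul, Complex.mul_re]
      norm_num
    rw [h5, h4]
    simp
  have hp : pz B (Eg B hG y) - y = pc B A := by
    unfold pz
    rw [hdec, pc_add, pc_add, hsq, hY, pc_LX]
    abel
  rw [hp]
  have h6 : nE (pc B A) ≤ Real.sqrt n * ‖A‖ := by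
    have h7 : nE (pc B A) ^ 2 ≤ (Real.sqrt n * ‖A‖) ^ 2 := by
      rw [nE_sq, mul_pow, Real.sq_sqrt (by positivity)]
      calc ∑ a, pc B A a ^ 2 ≤ ∑ _a : Fin n, ‖A‖ ^ 2 := by
            refine Finset.sum_le_sum fun a _ => ?_
            have h8 := abs_ip_le (B.X a) A
            rw [norm_XB B a, one_mul] at h8
            rw [← sq_abs]
            exact pow_le_pow_left₀ (abs_nonneg _) h8 2
        _ = n * ‖A‖ ^ 2 := by simp
    exact (abs_le_of_sq_le_sq' h7 (by positivity)).2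
  refine h6.trans ?_
  calc Real.sqrt n * ‖A‖ ≤ Real.sqrt n * ((1 / 6 + c) * nE y ^ 3) :=
        mul_le_mul_of_nonneg_left hAn (Real.sqrt_nonneg _)
    _ = _ := by ring

end

end Pool.Agent.N988.MK
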