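import Mathlib
import Pool.Agent.N988.MK.Fish

/-!
# Moments, and the second moment matrix in linear coordinates
-/

open MeasureTheory Filter Metric Asymptotics Matrix
open scoped Matrix.Norms.Frobenius Topology ContDiff
open Pool.Agent.H906R3.YM Pool.Agent.W793.YM Pool.Agent.TH618.YM Pool.Agent.N984.TW
open Pool.Agent.N991.MK

namespace Pool.Agent.N988.MK

set_option linter.unusedSectionVars false

noncomputable section

variable {N n : ℕ} {G : Subgroup (UN N)} {B : Frame G n} {hG : IsClosed (G : Set (UN N))}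
variable [CompactSpace G] [MeasurableSpace G] [BorelSpace G] {μ : Measure G}
  [IsProbabilityMeasure μ] [μ.IsMulLeftInvariant] [μ.IsMulRightInvariant] [μ.IsInvInvariant]
variable {r₀ C : ℝ} {b : (Fin n → ℂ) → (Fin n → ℂ) → (Fin n → ℂ)}
variable {r k M Cm Cq Cu : ℝ} {F : (Mat N)ˣ → ℂ} {m : (Fin n → ℂ) → ℂ} {f : G → ℝ}

lemma meas_near : MeasurableSet {z : G | nN z ≤ r / 4} :=
  (isClosed_le nN_cont continuous_const).measurableSet

lemma mom_aux (hi : Inp B μ r k Cm f F) (hf : CF f F) {c : ℝ} (hc : 0 ≤ c) {φ : ℝ → ℝ}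
    (hφc : Continuous φ)
    (h : ∀ t : ℝ, 0 ≤ t → φ t ≤ c * (t ^ 2 * Real.exp (k / 10 * t ^ 2))) :
    ∫ z in {z : G | nN z ≤ r / 4}, (f z) ^ 2 * φ (nN z) ∂μ ≤ c * (Cm / k * ∫ z, (f z) ^ 2 ∂μ) := by
  have hfc : Continuous f := hf.cont
  have h1 : ∫ z in {z : G | nN z ≤ r / 4}, (f z) ^ 2 * φ (nN z) ∂μ ≤
      ∫ z in {z : G | nN z ≤ r / 4}, c * ((f z) ^ 2 *
        (nN z ^ 2 * Real.exp (k / 10 * nN z ^ 2))) ∂μ := by
    refine setIntegral_mono_on ?_ ?_ meas_near fun z _ => ?_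
    · exact (intgR ((hfc.pow 2).mul (hφc.comp nN_cont))).integrableOn
    · refine (intgR ?_).integrableOn
      refine continuous_const.mul ((hfc.pow 2).mul ((nN_cont.pow 2).mul ?_))
      exact Real.continuous_exp.comp (continuous_const.mul (nN_cont.pow 2))
    · have h2 := h (nN z) (norm_nonneg _)
      have h3 : 0 ≤ (f z) ^ 2 := sq_nonneg _
      calc (f z) ^ 2 * φ (nN z) ≤ (f z) ^ 2 * (c * (nN z ^ 2 * Real.exp (k / 10 * nN z ^ 2))) :=
            mul_le_mul_of_nonneg_left h2 h3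
        _ = _ := by ring
  refine h1.trans ?_
  rw [integral_const_mul]
  exact mul_le_mul_of_nonneg_left hi.mom hc

lemma mom2 (hi : Inp B μ r k Cm f F) (hf : CF f F) (hk : 0 < k) :
    ∫ z in {z : G | nN z ≤ r / 4}, (f z) ^ 2 * nN z ^ 2 ∂μ ≤ Cm / k * ∫ z, (f z) ^ 2 ∂μ := by
  have h := mom_aux hi hf (c := 1) (φ := fun t => t ^ 2) zero_le_one (by fun_prop) fun t ht => by
    have h1 : 1 ≤ Real.exp (k / 10 * t ^ 2) := Real.one_le_exp (by positivity)
    have h2 : 0 ≤ t ^ 2 := sq_nonneg _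
    nlinarith
  simpa using h

lemma mom4 (hi : Inp B μ r k Cm f F) (hf : CF f F) (hk : 0 < k) :
    ∫ z in {z : G | nN z ≤ r / 4}, (f z) ^ 2 * nN z ^ 4 ∂μ ≤
      10 / k * (Cm / k * ∫ z, (f z) ^ 2 ∂μ) := by
  refine mom_aux hi hf (c := 10 / k) (φ := fun t => t ^ 4) (by positivity) (by fun_prop)
    fun t ht => ?_
  have h1 := Real.add_one_le_exp (k / 10 * t ^ 2)
  have h2 : t ^ 2 ≤ 10 / k * Real.exp (k / 10 * t ^ 2) := by
    have h3 : 10 / k * (k / 10 * t ^ 2) = t ^ 2 := by field_simp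
    calc t ^ 2 = 10 / k * (k / 10 * t ^ 2) := h3.symm
      _ ≤ 10 / k * Real.exp (k / 10 * t ^ 2) := by
          refine mul_le_mul_of_nonneg_left ?_ (by positivity); linarith
  calc t ^ 4 = t ^ 2 * t ^ 2 := by ring
    _ ≤ t ^ 2 * (10 / k * Real.exp (k / 10 * t ^ 2)) := mul_le_mul_of_nonneg_left h2 (sq_nonneg _)
    _ = _ := by ring

lemma mom6 (hi : Inp B μ r k Cm f F) (hf : CF f F) (hk : 0 < k) :
    ∫ z in {z : G | nN z ≤ r / 4}, (f z) ^ 2 * nN z ^ 6 ∂μ ≤
      200 / k ^ 2 * (Cm / k * ∫ z, (f z) ^ 2 ∂μ) := by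
  refine mom_aux hi hf (c := 200 / k ^ 2) (φ := fun t => t ^ 6) (by positivity) (by fun_prop)
    fun t ht => ?_
  have h0 : 0 ≤ k / 10 * t ^ 2 := by positivity
  have h1 := Real.quadratic_le_exp_of_nonneg h0
  have h2 : t ^ 4 ≤ 200 / k ^ 2 * Real.exp (k / 10 * t ^ 2) := by
    have h3 : 200 / k ^ 2 * ((k / 10 * t ^ 2) ^ 2 / 2) = t ^ 4 := by field_simp; ring
    calc t ^ 4 = 200 / k ^ 2 * ((k / 10 * t ^ 2) ^ 2 / 2) := h3.symm
      _ ≤ 200 / k ^ 2 * Real.exp (k / 10 * t ^ 2) := by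
          refine mul_le_mul_of_nonneg_left ?_ (by positivity); linarith
  calc t ^ 6 = t ^ 2 * t ^ 4 := by ring
    _ ≤ t ^ 2 * (200 / k ^ 2 * Real.exp (k / 10 * t ^ 2)) :=
        mul_le_mul_of_nonneg_left h2 (sq_nonneg _)
    _ = _ := by ring

/-- integrals over the near set are invariant under conjugation -/
lemma conj_inv_near {φ : G → ℝ} (g : G) : ∫ z in {z : G | nN z ≤ r / 4}, φ (g⁻¹ * z * g) ∂μ =
    ∫ z in {z : G | nN z ≤ r / 4}, φ z ∂μ := by
  rw [← integral_indicator meas_near, ← integral_indicator meas_near,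
    ← conj_inv (μ := μ) (φ := {z : G | nN z ≤ r / 4}.indicator fun z => φ z) g]
  refine integral_congr_ae (Eventually.of_forall fun z => ?_)
  beta_reduce
  have h1 : nN (g⁻¹ * z * g) = nN z := by
    have := nN_conj g⁻¹ z
    rwa [inv_inv] at this
  by_cases hz : nN z ≤ r / 4
  · rw [Set.indicator_of_mem (show z ∈ {z : G | nN z ≤ r / 4} from hz),
      Set.indicator_of_mem (show g⁻¹ * z * g ∈ {z : G | nN z ≤ r / 4} by
        show nN (g⁻¹ * z * g) ≤ r / 4; rw [h1]; exact hz)]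
  · rw [Set.indicator_of_notMem (show z ∉ {z : G | nN z ≤ r / 4} from hz),
      Set.indicator_of_notMem (show g⁻¹ * z * g ∉ {z : G | nN z ≤ r / 4} by
        show ¬nN (g⁻¹ * z * g) ≤ r / 4; rw [h1]; exact hz)]

variable (B μ) in
/-- the second moments of the linear coordinates -/
def PQ (r : ℝ) (f : G → ℝ) (a c : Fin n) : ℝ :=
  ∫ z in {z : G | nN z ≤ r / 4}, (f z) ^ 2 * (pz B z a * pz B z c) ∂μ

lemma PQ_bil (hfc : Continuous f) (T : Fin n → Fin n → ℝ) : ∑ a, ∑ c, PQ B μ r f a c * T a c =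
    ∫ z in {z : G | nN z ≤ r / 4}, (f z) ^ 2 * ∑ a, ∑ c, T a c * (pz B z a * pz B z c) ∂μ := by
  have hint : ∀ a c, IntegrableOn (fun z : G => (f z) ^ 2 * (T a c * (pz B z a * pz B z c)))
      {z : G | nN z ≤ r / 4} μ := fun a c =>
    (intgR ((hfc.pow 2).mul (continuous_const.mul ((pz_cont a).mul (pz_cont c))))).integrableOn
  have h1 : ∀ z : G, (f z) ^ 2 * ∑ a, ∑ c, T a c * (pz B z a * pz B z c) =
      ∑ a, ∑ c, (f z) ^ 2 * (T a c * (pz B z a * pz B z c)) := by
    intro z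
    rw [Finset.mul_sum]
    refine Finset.sum_congr rfl fun a _ => ?_
    rw [Finset.mul_sum]
  rw [integral_congr_ae (Eventually.of_forall h1), integral_finsetSum]
  · refine Finset.sum_congr rfl fun a _ => ?_
    rw [integral_finsetSum]
    · refine Finset.sum_congr rfl fun c _ => ?_
      unfold PQ
      rw [← integral_mul_const]
      refine integral_congr_ae (Eventually.of_forall fun z => ?_)
      beta_reduce
      ring
    · intro c _
      exact hint a c
  · intro a _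
    exact integrable_finsetSum _ fun c _ => hint a c

include hG in
/-- the second moments are isotropic -/
lemma PQ_iso (hI : IsoG B) (hf : CF f F) : ∃ p₁ : ℝ, ∀ a c, PQ B μ r f a c =
    if a = c then p₁ else 0 := by
  have hfc : Continuous f := hf.cont
  refine hI (PQ B μ r f) (fun a c => ?_) fun g x => ?_
  · unfold PQ
    refine integral_congr_ae (Eventually.of_forall fun z => ?_)
    beta_reduce
    ring
  · rw [PQ_bil hfc fun a c => Adx B g x a * Adx B g x c, PQ_bil hfc fun a c => x a * x c,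
      ← conj_inv_near (μ := μ) (r := r)
        (φ := fun z => (f z) ^ 2 * ∑ a, ∑ c, x a * x c * (pz B z a * pz B z c)) g]
    refine integral_congr_ae (Eventually.of_forall fun z => ?_)
    beta_reduce
    have h1 : f (g⁻¹ * z * g) = f z := by
      have h2 := hf.cls g⁻¹ (uG z)
      rw [map_inv, inv_inv, ← map_inv, ← map_mul, ← map_mul, hf.res, hf.res] at h2
      exact_mod_cast h2
    have h3 : ∀ (v w : Fin n → ℝ), ∑ a, ∑ c, v a * v c * (w a * w c) = (∑ a, v a * w a) ^ 2 := by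
      intro v w
      rw [sum_sq_expand]
      refine Finset.sum_congr rfl fun a _ => Finset.sum_congr rfl fun c _ => ?_
      ring
    rw [h1, h3, h3, pz_Ad (hG := hG)]

end

end Pool.Agent.N988.MK
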