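import Mathlib
import Pool.Agent.N988.MK.Momt

/-!
# The second moment of the linear coordinates
-/

open MeasureTheory Filter Metric Asymptotics Matrix
open scoped Matrix.Norms.Frobenius Topology ContDiff
open Pool.Agent.H906R3.YM Pool.Agent.W793.YM Pool.Agent.TH618.YM Pool.Agent.N984.TW
open Pool.Agent.N991.MK

namespace Pool.Agent.N988.MK

set_option linter.unusedSectionVars false

noncomputable section

variable {n : ℕ}

/-- the scalar product of real coordinates -/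
def dR (x y : Fin n → ℝ) : ℝ := ∑ a, x a * y a

lemma dC2_rl (x y : Fin n → ℝ) : dC2 (rl x) (rl y) = (dR x y : ℂ) := by
  unfold dC2 dR rl
  push_cast
  rfl

lemma dR_le (x y : Fin n → ℝ) : |dR x y| ≤ nE x * nE y := by
  have h := dC2_le (rl x) (rl y)
  rw [dC2_rl, Complex.norm_real, Real.norm_eq_abs, nC_rl, nC_rl] at h
  exact h

lemma dR_sub (x y y' : Fin n → ℝ) : dR x (y - y') = dR x y - dR x y' := by
  unfold dR
  rw [← Finset.sum_sub_distrib]
  refine Finset.sum_congr rfl fun a _ => ?_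
  simp [mul_sub]

lemma nE_add_le (x y : Fin n → ℝ) : nE (x + y) ≤ nE x + nE y := by
  rw [nE_eq, nE_eq, nE_eq, WithLp.toLp_add]
  exact norm_add_le _ _

lemma nE_neg (x : Fin n → ℝ) : nE (-x) = nE x := by
  rw [nE_eq, nE_eq, WithLp.toLp_neg, norm_neg]

variable {N : ℕ} {G : Subgroup (UN N)} (B : Frame G n) (hG : IsClosed (G : Set (UN N)))
variable [CompactSpace G] [MeasurableSpace G] [BorelSpace G] (μ : Measure G)
  [IsProbabilityMeasure μ] [μ.IsMulLeftInvariant] [μ.IsMulRightInvariant] [μ.IsInvInvariant]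

/-- the hypotheses of the sharp one-step estimate -/
structure Hz (r₀ C : ℝ) (b : (Fin n → ℂ) → (Fin n → ℂ) → (Fin n → ℂ))
    (r k M Cm Cq Cu Cs Cp cA : ℝ) (f : G → ℝ) (F : (Mat N)ˣ → ℂ) (m : (Fin n → ℂ) → ℂ) :
    Prop where
  H : Hy B hG μ r₀ C b r k M Cm Cq f F m
  hI : IsoG B
  hn : 0 < n
  hCu : 0 ≤ Cu
  hu : ∀ x y : Fin n → ℂ, nC x < r₀ / 2 → nC y < r₀ / 2 →
    ‖Uf b x y‖ ≤ Cu * nC x * nC y * max (nC x) (nC y) ^ 2
  hCs : 0 ≤ Cs
  hsh : ∀ x y : Fin n → ℂ, nC x < r₀ / 2 → nC y < r₀ / 2 →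
    ‖Tf b qC x y + 1 / 6 * brC B x y‖ ≤ Cs * nC x ^ 2 * nC y ^ 2 * max (nC x) (nC y) ^ 2
  hCp : 0 ≤ Cp
  hp : ∀ y : Fin n → ℝ, nE y < r₀ → nE (pz B (Eg B hG y) - y) ≤ Cp * nE y ^ 3
  hps : Cp * r₀ ^ 2 ≤ 1
  hcA : ∀ x : Fin n → ℝ, ∑ a, ‖LX B x * B.X a - B.X a * LX B x‖ ^ 2 = cA * nE x ^ 2

/-- the coefficient of the error of the derivative -/
def K2 (Cu Cp k M : ℝ) : ℝ := k / 4 * Cu + 81 * M + k * Cp

/-- the first error -/
def E1 (Cm Cu Cp r k M : ℝ) : ℝ :=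
  100 * Cm * K2 Cu Cp k M / k + 800 * Cm * K2 Cu Cp k M ^ 2 / k ^ 3 + 256 / (r ^ 2 * k ^ 4)

variable {B hG μ}
variable {r₀ C : ℝ} {b : (Fin n → ℂ) → (Fin n → ℂ) → (Fin n → ℂ)}
variable {r k M Cm Cq Cu Cs Cp cA : ℝ} {F : (Mat N)ˣ → ℂ} {m : (Fin n → ℂ) → ℂ} {f : G → ℝ}

namespace Hz

variable (Z : Hz B hG μ r₀ C b r k M Cm Cq Cu Cs Cp cA f F m)
include Z

lemma K2_nonneg : 0 ≤ K2 Cu Cp k M := by
  have h1 := Z.H.hk
  have h2 := Z.H.hM
  have h3 := Z.hCu
  have h4 := Z.hCp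
  unfold K2
  positivity

lemma pz_le {y : Fin n → ℝ} (hy : nE y < r₀) : nE (pz B (Eg B hG y)) ≤ 2 * nE y := by
  have h1 := Z.hp y hy
  have h2 := nE_add_le (pz B (Eg B hG y) - y) y
  rw [sub_add_cancel] at h2
  have h0 := nE_nonneg y
  have h3 : Cp * nE y ^ 3 ≤ nE y := by
    have h4 : Cp * nE y ^ 2 ≤ 1 := by
      refine le_trans ?_ Z.hps
      have := Z.hCp
      gcongr
    calc Cp * nE y ^ 3 = Cp * nE y ^ 2 * nE y := by ring
      _ ≤ 1 * nE y := mul_le_mul_of_nonneg_right h4 h0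
      _ = nE y := one_mul _
  linarith

/-- the derivative at near points in linear coordinates -/
lemma near_der {z : G} (hz : nN z ≤ r / 4) (x : Fin n → ℝ) :
    |(Lz B F z (rl x)).re + f z * (k * dR x (pz B z))| ≤
      |f z| * (K2 Cu Cp k M * nE x * (2 * nN z ^ 3)) ∧ |dR x (pz B z)| ≤ nE x * (5 / 2 * nN z) := by
  have H := Z.H
  have hr0 := H.hr0
  have hr := H.hr
  obtain ⟨y, hy, hy2⟩ := H.hl.lg z (by linarith)
  have hz0 : 0 ≤ nN z := norm_nonneg _
  have hy3 : nE y < r / 3 := by linarith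
  have hy0 := nE_nonneg y
  have hx0 := nE_nonneg x
  have h1 := H.hs.Lz_near (hG := hG) H.hf H.h1 H.h H.hr hr0 H.hM H.hk.le Z.hCu Z.hu hy3 (rl x)
  have h2 := Z.hp y (by linarith)
  rw [hy] at h1 h2
  have h5 := Z.pz_le (y := y) (by linarith)
  rw [hy] at h5
  have h3 : |(Lz B F z (rl x)).re + f z * (k * dR x y)| ≤
      |f z| * ((k / 4 * Cu + 81 * M) * nE x * nE y ^ 3) := by
    have h4 := (Complex.abs_re_le_norm _).trans h1
    rw [Complex.add_re, dC2_rl, nC_rl] at h4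
    have e : ((f z : ℂ) * (k * (dR x y : ℂ))).re = f z * (k * dR x y) := by
      rw [← Complex.ofReal_mul, ← Complex.ofReal_mul, Complex.ofReal_re]
    rw [e] at h4
    exact h4
  have hyc : nE y ^ 3 ≤ 2 * nN z ^ 3 := by
    have h6 := pow_le_pow_left₀ hy0 hy2 3
    have h7 : 0 ≤ nN z ^ 3 := by positivity
    nlinarith
  refine ⟨?_, ?_⟩
  · have e : (Lz B F z (rl x)).re + f z * (k * dR x (pz B z)) =
        ((Lz B F z (rl x)).re + f z * (k * dR x y)) + f z * (k * dR x (pz B z - y)) := by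
      rw [dR_sub]; ring
    rw [e]
    refine (abs_add_le _ _).trans ?_
    have h6 : |f z * (k * dR x (pz B z - y))| ≤ |f z| * (k * (nE x * (Cp * nE y ^ 3))) := by
      rw [abs_mul, abs_mul, abs_of_pos H.hk]
      have h7 := dR_le x (pz B z - y)
      have h8 := H.hk.le
      have h9 : nE x * nE (pz B z - y) ≤ nE x * (Cp * nE y ^ 3) :=
        mul_le_mul_of_nonneg_left h2 hx0
      exact mul_le_mul_of_nonneg_left (mul_le_mul_of_nonneg_left (h7.trans h9) h8) (abs_nonneg _)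
    have h8 : |f z| * (K2 Cu Cp k M * nE x * nE y ^ 3) ≤
        |f z| * (K2 Cu Cp k M * nE x * (2 * nN z ^ 3)) := by
      have := Z.K2_nonneg
      gcongr
    refine le_trans ?_ h8
    calc _ ≤ |f z| * ((k / 4 * Cu + 81 * M) * nE x * nE y ^ 3) +
          |f z| * (k * (nE x * (Cp * nE y ^ 3))) := add_le_add h3 h6
      _ = _ := by unfold K2; ring
  · refine (dR_le _ _).trans (mul_le_mul_of_nonneg_left ?_ hx0)
    linarith

lemma near_sq {z : G} (hz : nN z ≤ r / 4) (x : Fin n → ℝ) :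
    |(Lz B F z (rl x)).re ^ 2 - k ^ 2 * ((f z) ^ 2 * dR x (pz B z) ^ 2)| ≤
      nE x ^ 2 * (10 * k * K2 Cu Cp k M * ((f z) ^ 2 * nN z ^ 4) +
        4 * K2 Cu Cp k M ^ 2 * ((f z) ^ 2 * nN z ^ 6)) := by
  obtain ⟨h1, h2⟩ := Z.near_der hz x
  have hk := Z.H.hk
  have hK := Z.K2_nonneg
  have hx0 := nE_nonneg x
  have hz0 : 0 ≤ nN z := norm_nonneg _
  obtain ⟨K, hKd⟩ : ∃ K, K = K2 Cu Cp k M := ⟨_, rfl⟩
  rw [← hKd] at h1 hK ⊢
  obtain ⟨l, hl⟩ : ∃ l, l = (Lz B F z (rl x)).re := ⟨_, rfl⟩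
  obtain ⟨s, hs⟩ : ∃ s, s = dR x (pz B z) := ⟨_, rfl⟩
  rw [← hl, ← hs] at h1
  rw [← hs] at h2
  rw [← hl, ← hs]
  obtain ⟨e, he⟩ : ∃ e, e = l + f z * (k * s) := ⟨_, rfl⟩
  rw [← he] at h1
  have e1 : l ^ 2 - k ^ 2 * ((f z) ^ 2 * s ^ 2) = e * e - 2 * (f z * (k * s)) * e := by
    rw [he]; ring
  rw [e1]
  refine (abs_sub _ _).trans ?_
  rw [abs_mul e e, abs_mul (2 * (f z * (k * s))) e, abs_mul 2, abs_mul (f z), abs_mul k, abs_two,
    abs_of_pos hk]
  have g1 : |e| * |e| ≤ (|f z| * (K * nE x * (2 * nN z ^ 3))) *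
      (|f z| * (K * nE x * (2 * nN z ^ 3))) := mul_le_mul h1 h1 (abs_nonneg _) (by positivity)
  have g2 : 2 * (|f z| * (k * |s|)) * |e| ≤ 2 * (|f z| * (k * (nE x * (5 / 2 * nN z)))) *
      (|f z| * (K * nE x * (2 * nN z ^ 3))) := by gcongr
  calc _ ≤ (|f z| * (K * nE x * (2 * nN z ^ 3))) * (|f z| * (K * nE x * (2 * nN z ^ 3))) +
        2 * (|f z| * (k * (nE x * (5 / 2 * nN z)))) * (|f z| * (K * nE x * (2 * nN z ^ 3))) :=
        add_le_add g1 g2
    _ = |f z| ^ 2 * (nE x ^ 2 * (10 * k * K * nN z ^ 4 + 4 * K ^ 2 * nN z ^ 6)) := by ring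
    _ = _ := by rw [sq_abs]; ring

/-- the derivative at far points -/
lemma far_der {z : G} (hz : r / 4 < nN z) (x : Fin n → ℝ) :
    (Lz B F z (rl x)).re ^ 2 ≤ nE x ^ 2 * (256 / (r ^ 2 * k ^ 4)) * ∫ z, (f z) ^ 2 ∂μ := by
  have H := Z.H
  have hr0 := H.hr0
  have hk := H.hk
  have hW := H.hW
  obtain ⟨W, hWd⟩ : ∃ W : ℝ, W = ∫ z : G, (f z) ^ 2 ∂μ := ⟨_, rfl⟩
  rw [← hWd] at hW ⊢
  by_cases hx : nE x = 0
  · have h1 : rl x = 0 := nC_eq_zero (by rw [nC_rl, hx])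
    rw [h1, map_zero, hx]
    simp
  have hx0 : 0 < nE x := lt_of_le_of_ne (nE_nonneg x) (Ne.symm hx)
  have hR : 0 < r / (16 * nE x) := by positivity
  have hd : Differentiable ℂ fun ζ : ℂ => F (uE B (ζ • rl x) * uG z) := by
    intro ζ
    have h3 := (F_diff (B := B) H.hf.hol z) (ζ • rl x)
    have h4 : DifferentiableAt ℂ (fun ζ : ℂ => ζ • rl x) ζ := by fun_prop
    exact DifferentiableAt.comp (f := fun ζ : ℂ => ζ • rl x)
      (g := fun x => F (uE B x * uG z)) ζ h3 h4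
  have h1 := Complex.norm_deriv_le_of_forall_mem_sphere_norm_le (c := 0) (C := Real.sqrt W / k ^ 2)
    hR (hd.diffContOnCl (s := ball 0 (r / (16 * nE x)))) (fun ζ hζ => by
      have h2 : nC (ζ • rl x) ≤ r / 16 := by
        rw [mem_sphere_zero_iff_norm] at hζ
        rw [nC_smul, nC_rl, hζ]
        refine le_of_eq ?_
        field_simp
      have h3 := H.hi.farP _ h2 z hz
      rw [← hWd] at h3
      have h4 : ‖F (uE B (ζ • rl x) * uG z)‖ ^ 2 ≤ (Real.sqrt W / k ^ 2) ^ 2 := by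
        rw [div_pow, Real.sq_sqrt hW.le]
        refine h3.trans (le_of_eq ?_)
        field_simp
      exact (abs_le_of_sq_le_sq' h4 (by positivity)).2)
  rw [(Lz_curve (B := B) H.hf.hol z (rl x)).deriv] at h1
  have h2 := (Complex.abs_re_le_norm _).trans h1
  have h3 : |(Lz B F z (rl x)).re| ^ 2 ≤ (Real.sqrt W / k ^ 2 / (r / (16 * nE x))) ^ 2 :=
    pow_le_pow_left₀ (abs_nonneg _) h2 2
  rw [sq_abs] at h3
  refine h3.trans (le_of_eq ?_)
  rw [div_pow, div_pow, Real.sq_sqrt hW.le]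
  field_simp
  ring

/-- **the Fisher form and the second moments** -/
theorem kappa_eq {κ p₁ : ℝ} (hκ : ∀ x : Fin n → ℂ, ∫ z : G, (Lz B F z x) ^ 2 ∂μ = (κ : ℂ) * qC x)
    (hp₁ : ∀ a c, PQ B μ r f a c = if a = c then p₁ else 0) :
    |κ - k ^ 2 * p₁| ≤ E1 Cm Cu Cp r k M * ∫ z : G, (f z) ^ 2 ∂μ := by
  have H := Z.H
  have hr0 := H.hr0
  have hk := H.hk
  have hK := Z.K2_nonneg
  have hfc : Continuous f := H.hf.cont
  obtain ⟨W, hWd⟩ : ∃ W : ℝ, W = ∫ z : G, (f z) ^ 2 ∂μ := ⟨_, rfl⟩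
  obtain ⟨x, hxd⟩ : ∃ x : Fin n → ℝ, x = Pi.single (⟨0, Z.hn⟩ : Fin n) (1 : ℝ) := ⟨_, rfl⟩
  have hx1 : nE x = 1 := by
    rw [hxd]
    unfold nE
    rw [Finset.sum_eq_single (⟨0, Z.hn⟩ : Fin n)]
    · simp
    · intro c _ hc
      simp [hc]
    · intro h; exact absurd (Finset.mem_univ _) h
  have hLc : Continuous fun z : G => (Lz B F z (rl x)).re :=
    Complex.continuous_re.comp (Lz_cont H.hf.hol _)
  have e1 : ∫ z : G, (Lz B F z (rl x)).re ^ 2 ∂μ = κ := by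
    have h1 := hκ (rl x)
    rw [qC_rl, hx1] at h1
    have h2 : ∀ z : G, (Lz B F z (rl x)) ^ 2 = (((Lz B F z (rl x)).re ^ 2 : ℝ) : ℂ) := by
      intro z
      have h3 := Lz_im (B := B) (hG := hG) H.hf z x
      have h4 : Lz B F z (rl x) = ((Lz B F z (rl x)).re : ℂ) := by
        refine Complex.ext ?_ ?_
        · rw [Complex.ofReal_re]
        · rw [Complex.ofReal_im, h3]
      rw [h4]
      push_cast
      rfl
    rw [integral_congr_ae (Eventually.of_forall h2), integral_complex_ofReal] at h1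
    have h5 : ((∫ z : G, (Lz B F z (rl x)).re ^ 2 ∂μ : ℝ) : ℂ) = ((κ : ℝ) : ℂ) := by
      rw [h1]; simp
    exact_mod_cast h5
  have e2 : ∫ z in {z : G | nN z ≤ r / 4}, (f z) ^ 2 * dR x (pz B z) ^ 2 ∂μ = p₁ := by
    have h1 := PQ_bil (B := B) (μ := μ) (r := r) hfc fun a c => x a * x c
    have h2 : ∑ a, ∑ c, PQ B μ r f a c * (x a * x c) = p₁ := by
      have h3 : ∑ a, ∑ c, PQ B μ r f a c * (x a * x c) = ∑ a, p₁ * x a ^ 2 := by
        refine Finset.sum_congr rfl fun a _ => ?_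
        rw [Finset.sum_eq_single a]
        · rw [hp₁, if_pos rfl]; ring
        · intro c _ hc
          rw [hp₁, if_neg (Ne.symm hc), zero_mul]
        · intro h; exact absurd (Finset.mem_univ _) h
      rw [h3, ← Finset.mul_sum, ← nE_sq, hx1]
      ring
    rw [h2] at h1
    rw [h1]
    refine integral_congr_ae (Eventually.of_forall fun z => ?_)
    beta_reduce
    congr 1
    unfold dR
    rw [sum_sq_expand]
    refine Finset.sum_congr rfl fun a _ => Finset.sum_congr rfl fun c _ => ?_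
    ring
  have hLi : Continuous fun z : G => (Lz B F z (rl x)).re ^ 2 := hLc.pow 2
  have hdc : Continuous fun z : G => (f z) ^ 2 * dR x (pz B z) ^ 2 := by
    refine (hfc.pow 2).mul (Continuous.pow ?_ 2)
    unfold dR
    exact continuous_finsetSum _ fun a _ => continuous_const.mul (pz_cont a)
  have hsp := split_intR (μ := μ) (r := r) hLi
  rw [e1] at hsp
  have e3 : κ - k ^ 2 * p₁ = (∫ z in {z : G | nN z ≤ r / 4}, ((Lz B F z (rl x)).re ^ 2 -
      k ^ 2 * ((f z) ^ 2 * dR x (pz B z) ^ 2)) ∂μ) +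
      ∫ z in {z : G | r / 4 < nN z}, (Lz B F z (rl x)).re ^ 2 ∂μ := by
    rw [integral_sub (intgR hLi).integrableOn ((intgR hdc).const_mul _).integrableOn,
      integral_const_mul, e2, hsp]
    ring
  have e4 : |∫ z in {z : G | nN z ≤ r / 4}, ((Lz B F z (rl x)).re ^ 2 -
      k ^ 2 * ((f z) ^ 2 * dR x (pz B z) ^ 2)) ∂μ| ≤
      10 * k * K2 Cu Cp k M * (10 / k * (Cm / k * W)) +
        4 * K2 Cu Cp k M ^ 2 * (200 / k ^ 2 * (Cm / k * W)) := by
    refine (abs_integral_le_integral_abs).trans ?_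
    have h1 : ∫ z in {z : G | nN z ≤ r / 4}, |(Lz B F z (rl x)).re ^ 2 -
        k ^ 2 * ((f z) ^ 2 * dR x (pz B z) ^ 2)| ∂μ ≤ ∫ z in {z : G | nN z ≤ r / 4},
          (10 * k * K2 Cu Cp k M * ((f z) ^ 2 * nN z ^ 4) +
            4 * K2 Cu Cp k M ^ 2 * ((f z) ^ 2 * nN z ^ 6)) ∂μ := by
      refine setIntegral_mono_on ?_ ?_ meas_near fun z hz => ?_
      · exact ((intgR (hLi.sub (continuous_const.mul hdc))).abs).integrableOn
      · exact (intgR ((continuous_const.mul ((hfc.pow 2).mul (nN_cont.pow 4))).add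
          (continuous_const.mul ((hfc.pow 2).mul (nN_cont.pow 6))))).integrableOn
      · have h2 := Z.near_sq hz x
        rwa [hx1, one_pow, one_mul] at h2
    refine h1.trans ?_
    rw [integral_add, integral_const_mul, integral_const_mul]
    · have h2 := mom4 H.hi H.hf hk
      have h3 := mom6 H.hi H.hf hk
      rw [← hWd] at h2 h3
      exact add_le_add (mul_le_mul_of_nonneg_left h2 (by positivity))
        (mul_le_mul_of_nonneg_left h3 (by positivity))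
    · exact (intgR (continuous_const.mul ((hfc.pow 2).mul (nN_cont.pow 4)))).integrableOn
    · exact (intgR (continuous_const.mul ((hfc.pow 2).mul (nN_cont.pow 6)))).integrableOn
  have e5 : |∫ z in {z : G | r / 4 < nN z}, (Lz B F z (rl x)).re ^ 2 ∂μ| ≤
      256 / (r ^ 2 * k ^ 4) * W := by
    rw [abs_of_nonneg (integral_nonneg fun z => sq_nonneg _)]
    have hm : MeasurableSet {z : G | r / 4 < nN z} :=
      (isOpen_lt continuous_const nN_cont).measurableSet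
    have h1 : ∫ z in {z : G | r / 4 < nN z}, (Lz B F z (rl x)).re ^ 2 ∂μ ≤
        ∫ _z in {z : G | r / 4 < nN z}, 256 / (r ^ 2 * k ^ 4) * W ∂μ := by
      refine setIntegral_mono_on (intgR hLi).integrableOn (integrable_const _).integrableOn hm
        fun z hz => ?_
      have h2 := Z.far_der hz x
      rwa [hx1, one_pow, one_mul, ← hWd] at h2
    refine h1.trans ?_
    rw [setIntegral_const, smul_eq_mul]
    have h2 : μ.real {z : G | r / 4 < nN z} ≤ 1 := measureReal_le_one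
    have h3 : 0 ≤ 256 / (r ^ 2 * k ^ 4) * W := by
      have := H.hW
      rw [← hWd] at this
      positivity
    nlinarith
  rw [e3, ← hWd]
  refine (abs_add_le _ _).trans ?_
  refine (add_le_add e4 e5).trans (le_of_eq ?_)
  unfold E1
  field_simp
  ring

end Hz

end

end Pool.Agent.N988.MK
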