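import Mathlib
import Pool.Agent.N988.MK.Kap

/-!
# The sharp value of the quadratic correction
-/

open MeasureTheory Filter Metric Asymptotics Matrix
open scoped Matrix.Norms.Frobenius Topology ContDiff
open Pool.Agent.H906R3.YM Pool.Agent.W793.YM Pool.Agent.TH618.YM Pool.Agent.N984.TW
open Pool.Agent.N991.MK

namespace Pool.Agent.N988.MK

set_option linter.unusedSectionVars false

noncomputable section

variable {N n : ℕ} {G : Subgroup (UN N)} (B : Frame G n) {hG : IsClosed (G : Set (UN N))}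

/-- the square of the norm of the bracket -/
def bR (x v : Fin n → ℝ) : ℝ := ‖LX B x * LX B v - LX B v * LX B x‖ ^ 2

lemma LX_star (x : Fin n → ℝ) : (LX B x)ᴴ = -LX B x := by
  unfold LX
  rw [conjTranspose_sum, ← Finset.sum_neg_distrib]
  refine Finset.sum_congr rfl fun a _ => ?_
  rw [conjTranspose_smul, B.skewX a]
  simp

lemma brC_rl (x v : Fin n → ℝ) : brC B (rl x) (rl v) = (bR B x v : ℂ) := by
  obtain ⟨S, hS⟩ : ∃ S, S = LX B x * LX B v - LX B v * LX B x := ⟨_, rfl⟩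
  have hSs : Sᴴ = -S := by
    rw [hS, conjTranspose_sub, conjTranspose_mul, conjTranspose_mul, LX_star, LX_star]
    noncomm_ring
  have h1 : brC B (rl x) (rl v) = trace (Sᴴ * S) := by
    unfold brC
    rw [LC_rl, LC_rl, ← hS, hSs, neg_mul, trace_neg]
  have h2 : star (trace (Sᴴ * S)) = trace (Sᴴ * S) := by
    rw [← trace_conjTranspose, conjTranspose_mul, conjTranspose_conjTranspose]
  rw [h1]
  unfold bR
  rw [← hS, norm_sq_ip, ip_apply]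
  refine Complex.ext ?_ ?_
  · rw [Complex.ofReal_re]
  · rw [Complex.ofReal_im]
    have := congrArg Complex.im h2
    simp only [Complex.star_def, Complex.conj_im] at this
    linarith

lemma norm_comm_le (A D : Mat N) : ‖A * D - D * A‖ ≤ 2 * (‖A‖ * ‖D‖) := by
  refine (norm_sub_le _ _).trans ?_
  have h2 := norm_mul_le A D
  have h3 := norm_mul_le D A
  linarith

lemma bR_diff (x v w : Fin n → ℝ) : |bR B x v - bR B x w| ≤
    4 * nE x ^ 2 * nE (v - w) * (nE v + nE w) := by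
  unfold bR
  obtain ⟨S, hS⟩ : ∃ S, S = LX B x * LX B v - LX B v * LX B x := ⟨_, rfl⟩
  obtain ⟨T, hT⟩ : ∃ T, T = LX B x * LX B w - LX B w * LX B x := ⟨_, rfl⟩
  have hx0 := nE_nonneg x
  have e0 : S - T = LX B x * LX B (v - w) - LX B (v - w) * LX B x := by
    have : LX B (v - w) = LX B v - LX B w := by rw [sub_eq_add_neg, LX_add, LX_neg]; abel
    rw [hS, hT, this]
    noncomm_ring
  have h1 : ‖S - T‖ ≤ 2 * (nE x * nE (v - w)) := by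
    rw [e0]
    have := norm_comm_le (LX B x) (LX B (v - w))
    rwa [norm_LX, norm_LX] at this
  have h2 : ‖S‖ ≤ 2 * (nE x * nE v) := by
    have := norm_comm_le (LX B x) (LX B v)
    rw [norm_LX, norm_LX] at this
    rwa [hS]
  have h3 : ‖T‖ ≤ 2 * (nE x * nE w) := by
    have := norm_comm_le (LX B x) (LX B w)
    rw [norm_LX, norm_LX] at this
    rwa [hT]
  rw [← hS, ← hT]
  have e : ‖S‖ ^ 2 - ‖T‖ ^ 2 = (‖S‖ - ‖T‖) * (‖S‖ + ‖T‖) := by ring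
  rw [e, abs_mul, abs_of_nonneg (a := ‖S‖ + ‖T‖) (by positivity)]
  have h4 := (abs_norm_sub_norm_le S T).trans h1
  have h5 := nE_nonneg (v - w)
  calc |‖S‖ - ‖T‖| * (‖S‖ + ‖T‖) ≤ 2 * (nE x * nE (v - w)) *
        (2 * (nE x * nE v) + 2 * (nE x * nE w)) := by gcongr
    _ = _ := by ring

lemma bR_eq (x v : Fin n → ℝ) : bR B x v = ∑ a, ∑ c,
    ip (LX B x * B.X a - B.X a * LX B x) (LX B x * B.X c - B.X c * LX B x) * (v a * v c) := by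
  unfold bR
  have e : LX B x * LX B v - LX B v * LX B x =
      ∑ a, v a • (LX B x * B.X a - B.X a * LX B x) := by
    conv_lhs => rw [show LX B v = ∑ a, v a • B.X a from rfl]
    rw [Finset.mul_sum, Finset.sum_mul, ← Finset.sum_sub_distrib]
    refine Finset.sum_congr rfl fun a _ => ?_
    rw [mul_smul_comm, smul_mul_assoc, smul_sub]
  rw [norm_sq_ip, e, map_sum]
  have h1 : ∀ c, ip (∑ a, v a • (LX B x * B.X a - B.X a * LX B x))
      (v c • (LX B x * B.X c - B.X c * LX B x)) = ∑ a,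
      ip (LX B x * B.X a - B.X a * LX B x) (LX B x * B.X c - B.X c * LX B x) * (v a * v c) := by
    intro c
    rw [ip_comm, map_sum]
    refine Finset.sum_congr rfl fun a _ => ?_
    rw [map_smul, ip_comm, map_smul, smul_eq_mul, smul_eq_mul]
    ring
  rw [Finset.sum_congr rfl fun c _ => h1 c, Finset.sum_comm]

variable {B}
variable [CompactSpace G] [MeasurableSpace G] [BorelSpace G] {μ : Measure G}
  [IsProbabilityMeasure μ] [μ.IsMulLeftInvariant] [μ.IsMulRightInvariant] [μ.IsInvInvariant]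
variable {r₀ C : ℝ} {b : (Fin n → ℂ) → (Fin n → ℂ) → (Fin n → ℂ)}
variable {r k M Cm Cq Cu Cs Cp cA : ℝ} {F : (Mat N)ˣ → ℂ} {m : (Fin n → ℂ) → ℂ} {f : G → ℝ}

lemma bR_cont (x : Fin n → ℝ) : Continuous fun z : G => bR B x (pz B z) := by
  have e : (fun z : G => bR B x (pz B z)) = fun z => ∑ a, ∑ c,
    ip (LX B x * B.X a - B.X a * LX B x) (LX B x * B.X c - B.X c * LX B x) *
      (pz B z a * pz B z c) := by
    funext z; exact bR_eq B x _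
  rw [e]
  exact continuous_finsetSum _ fun a _ => continuous_finsetSum _ fun c _ =>
    continuous_const.mul ((pz_cont a).mul (pz_cont c))

lemma bR_int (hfc : Continuous f) {p₁ : ℝ} (hp₁ : ∀ a c, PQ B μ r f a c = if a = c then p₁ else 0)
    (hcA : ∀ x : Fin n → ℝ, ∑ a, ‖LX B x * B.X a - B.X a * LX B x‖ ^ 2 = cA * nE x ^ 2)
    (x : Fin n → ℝ) :
    ∫ z in {z : G | nN z ≤ r / 4}, (f z) ^ 2 * bR B x (pz B z) ∂μ = p₁ * (cA * nE x ^ 2) := by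
  have h1 := PQ_bil (B := B) (μ := μ) (r := r) hfc fun a c =>
    ip (LX B x * B.X a - B.X a * LX B x) (LX B x * B.X c - B.X c * LX B x)
  have h2 : ∑ a, ∑ c, PQ B μ r f a c *
      ip (LX B x * B.X a - B.X a * LX B x) (LX B x * B.X c - B.X c * LX B x) =
      p₁ * (cA * nE x ^ 2) := by
    rw [← hcA, Finset.mul_sum]
    refine Finset.sum_congr rfl fun a _ => ?_
    rw [Finset.sum_eq_single a]
    · rw [hp₁, if_pos rfl, norm_sq_ip]
    · intro c _ hc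
      rw [hp₁, if_neg (Ne.symm hc), zero_mul]
    · intro h; exact absurd (Finset.mem_univ _) h
  rw [h2] at h1
  rw [h1]
  refine integral_congr_ae (Eventually.of_forall fun z => ?_)
  beta_reduce
  rw [bR_eq]

/-- the second error -/
def E2 (Cm Cs Cp r k M : ℝ) : ℝ :=
  (k * Cs / 8 + k * Cp / 4) * (5 / 2) * (10 / k * (Cm / k)) + 43 * M * (Cm / k) +
    2 / k ^ 2 / r ^ 2

lemma exp_sub_two_le (z : ℂ) : ‖Complex.exp (-z) - 1 + z‖ ≤ ‖z‖ ^ 2 * Real.exp ‖z‖ := by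
  have h := Complex.norm_exp_sub_sum_le_norm_mul_exp (-z) 2
  have e : Complex.exp (-z) - 1 + z = Complex.exp (-z) - ∑ m ∈ Finset.range 2,
      (-z) ^ m / (m.factorial : ℂ) := by
    simp [Finset.sum_range_succ]; ring
  rw [e]
  simpa using h

/-- integrals over a set depend holomorphically on the parameter -/
lemma Jn_int_diff (hf : CF f F) (S : Set G) (x : Fin n → ℂ) :
    DifferentiableAt ℂ (fun x => ∫ z in S, Jn B F x z ∂μ) x := by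
  obtain ⟨R, hR, hR2⟩ := exists_R (B := B) (G := G) hf.hol
  have e : (fun x => ∫ z in S, Jn B F x z ∂μ) = fun x => ∫ z in S,
      (fun q : (Fin n → ℂ) × (Mat N × Mat N) => R ((1 / 2 : ℂ) • q.1, q.2) *
        R ((1 / 2 : ℂ) • q.1, (q.2.2, q.2.1))) (x, (mt z, mt z⁻¹)) ∂μ := by
    funext x
    refine integral_congr_ae (Eventually.of_forall fun z => ?_)
    simp only [Jn]
    rw [hf.swap', hR2, hR2, inv_inv]
  rw [e]
  have h1 : ContDiff ℂ ∞ fun q : (Fin n → ℂ) × (Mat N × Mat N) => R ((1 / 2 : ℂ) • q.1, q.2) *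
      R ((1 / 2 : ℂ) • q.1, (q.2.2, q.2.1)) := by
    have e1 : ContDiff ℂ ∞ fun q : (Fin n → ℂ) × (Mat N × Mat N) => (1 / 2 : ℂ) • q.1 :=
      contDiff_fst.const_smul _
    refine (hR.comp (e1.prodMk contDiff_snd)).mul (hR.comp (e1.prodMk ?_))
    exact (contDiff_snd.comp contDiff_snd).prodMk (contDiff_fst.comp contDiff_snd)
  exact (hasFDerivAt_integral_paramC (μ.restrict S) (fun z : G => ((mt z, mt z⁻¹) : Mat N × Mat N))
    (mt_cont.prodMk mt_inv_cont) _ (h1.of_le (by simp)) x).differentiableAt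

lemma Jn_even (hf : CF f F) (x : Fin n → ℂ) (z : G) : Jn B F (-x) z = Jn B F x z := by
  unfold Jn
  rw [smul_neg, uE_neg, ← hf.sym ((uE B ((1 / 2 : ℂ) • x))⁻¹ * uG z),
    ← hf.sym ((uG z)⁻¹ * (uE B ((1 / 2 : ℂ) • x))⁻¹), _root_.mul_inv_rev, _root_.mul_inv_rev,
    inv_inv, inv_inv, mul_comm]

namespace Hz

variable (Z : Hz B hG μ r₀ C b r k M Cm Cq Cu Cs Cp cA f F m)
include Z

/-- the interaction at near points, expanded -/
lemma Th_exp {x : Fin n → ℝ} (hx1 : nE x = 1) {y : Fin n → ℝ} (hy : nE y < r / 3) {ζ : ℂ}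
    (hζ : ‖ζ‖ < r) :
    ‖Th b k m (ζ • rl x) (rl y) + (k / 48 : ℂ) * ζ ^ 2 * (bR B x (pz B (Eg B hG y)) : ℂ)‖ ≤
      ‖ζ‖ ^ 2 * ((k * Cs / 8 + k * Cp / 4) * nE y ^ 4 + 27 * M * nE y ^ 2) +
        ‖ζ‖ ^ 4 * (k * Cs / 8 * nE y ^ 2) := by
  have H := Z.H
  have hr0 := H.hr0
  have hr := H.hr
  have hk := H.hk
  have hCs := Z.hCs
  have hCp := Z.hCp
  have hM := H.hM
  have hy0 := nE_nonneg y
  have hζ0 := norm_nonneg ζ
  obtain ⟨v, hv⟩ : ∃ v, v = (1 / 2 : ℂ) • (ζ • rl x) := ⟨_, rfl⟩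
  have hvn : nC v = ‖ζ‖ / 2 := by rw [hv, nC_half, nC_smul, nC_rl, hx1, mul_one]
  have hyn : nC (rl y) = nE y := nC_rl y
  have h1 := Z.hsh v (rl y) (by rw [hvn]; linarith) (by rw [hyn]; linarith)
  have h2 := H.hs.Tm hG H.hf H.h1 H.h H.hr H.hM (x := v) (y := rl y) (by rw [hvn]; linarith)
    (by rw [hyn]; exact hy)
  rw [hvn, hyn] at h1 h2
  have hbr : brC B v (rl y) = ζ ^ 2 / 4 * (bR B x y : ℂ) := by
    have h3 := brC_smul (B := B) (rl x) (rl y) (ζ / 2) 1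
    rw [one_smul] at h3
    have h4 : v = (ζ / 2) • rl x := by rw [hv, smul_smul]; congr 1; ring
    rw [h4, h3, brC_rl]
    ring
  have h3 := bR_diff B x (pz B (Eg B hG y)) y
  have h4 := Z.hp y (by linarith)
  have h5 := Z.pz_le (y := y) (by linarith)
  have h6 : |bR B x (pz B (Eg B hG y)) - bR B x y| ≤ 12 * Cp * nE y ^ 4 := by
    refine h3.trans ?_
    rw [hx1]
    have h0 := nE_nonneg (pz B (Eg B hG y) - y)
    have h0' := nE_nonneg (pz B (Eg B hG y))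
    calc 4 * 1 ^ 2 * nE (pz B (Eg B hG y) - y) * (nE (pz B (Eg B hG y)) + nE y)
        ≤ 4 * 1 ^ 2 * (Cp * nE y ^ 3) * (2 * nE y + nE y) := by gcongr
      _ = _ := by ring
  have e : Th b k m (ζ • rl x) (rl y) + (k / 48 : ℂ) * ζ ^ 2 * (bR B x (pz B (Eg B hG y)) : ℂ) =
      (k / 2 : ℂ) * (Tf b qC v (rl y) + 1 / 6 * brC B v (rl y)) + Tf b m v (rl y) +
      (k / 48 : ℂ) * ζ ^ 2 * ((bR B x (pz B (Eg B hG y)) - bR B x y : ℝ) : ℂ) := by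
    unfold Th
    rw [← hv, hbr]
    push_cast
    ring
  rw [e]
  have n1 : ‖(k / 2 : ℂ)‖ = k / 2 := by
    have : (k / 2 : ℂ) = ((k / 2 : ℝ) : ℂ) := by push_cast; ring
    rw [this, Complex.norm_real, Real.norm_eq_abs, abs_of_nonneg (by positivity)]
  have n2 : ‖(k / 48 : ℂ)‖ = k / 48 := by
    have : (k / 48 : ℂ) = ((k / 48 : ℝ) : ℂ) := by push_cast; ring
    rw [this, Complex.norm_real, Real.norm_eq_abs, abs_of_nonneg (by positivity)]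
  refine (norm_add_le _ _).trans ((add_le_add (norm_add_le _ _) le_rfl).trans ?_)
  rw [norm_mul, norm_mul, norm_mul, norm_pow, n1, n2, Complex.norm_real, Real.norm_eq_abs]
  have hmax : max (‖ζ‖ / 2) (nE y) ^ 2 ≤ ‖ζ‖ ^ 2 + nE y ^ 2 := by
    rcases max_cases (‖ζ‖ / 2) (nE y) with ⟨h, _⟩ | ⟨h, _⟩
    · rw [h]; nlinarith [sq_nonneg ‖ζ‖, sq_nonneg (nE y)]
    · rw [h]; nlinarith [sq_nonneg ‖ζ‖]
  have g1 : Cs * (‖ζ‖ / 2) ^ 2 * nE y ^ 2 * max (‖ζ‖ / 2) (nE y) ^ 2 ≤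
      Cs * (‖ζ‖ / 2) ^ 2 * nE y ^ 2 * (‖ζ‖ ^ 2 + nE y ^ 2) :=
    mul_le_mul_of_nonneg_left hmax (by positivity)
  calc _ ≤ k / 2 * (Cs * (‖ζ‖ / 2) ^ 2 * nE y ^ 2 * (‖ζ‖ ^ 2 + nE y ^ 2)) +
        108 * M * (‖ζ‖ / 2) ^ 2 * nE y ^ 2 + k / 48 * ‖ζ‖ ^ 2 * (12 * Cp * nE y ^ 4) := by
        have := h1.trans g1
        gcongr
    _ = _ := by ring

/-- the near part of the second order expansion -/
lemma near_exp {x : Fin n → ℝ} (hx1 : nE x = 1) {z : G} (hz : nN z ≤ r / 4) {ζ : ℂ}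
    (hζ : ‖ζ‖ < r) (hζ1 : ‖ζ‖ ≤ 1) :
    ‖Jn B F (ζ • rl x) z * F 1 ^ 2 / F (uE B ((1 / 2 : ℂ) • (ζ • rl x))) ^ 2 - (f z : ℂ) ^ 2 -
      (k / 48 : ℂ) * ζ ^ 2 * ((f z : ℂ) ^ 2 * (bR B x (pz B z) : ℂ))‖ ≤
      ‖ζ‖ ^ 2 * ((k * Cs / 8 + k * Cp / 4) * (5 / 2) * ((f z) ^ 2 * nN z ^ 4) +
        43 * M * ((f z) ^ 2 * nN z ^ 2)) +
      ‖ζ‖ ^ 4 * ((f z) ^ 2 * (k * Cs / 8 * (2 * (r / 4) ^ 2) +
        (Aq Cq k M * (r / 4) ^ 2) ^ 2 * Real.exp (Aq Cq k M * (r / 4) ^ 2))) := by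
  have H := Z.H
  have hr0 := H.hr0
  have hr := H.hr
  have hk := H.hk
  have hCs := Z.hCs
  have hCp := Z.hCp
  have hM := H.hM
  have hAq := H.Aq_nonneg
  have hζ0 := norm_nonneg ζ
  have hz0 : 0 ≤ nN z := norm_nonneg _
  have hxn : nC (ζ • rl x) = ‖ζ‖ := by rw [nC_smul, nC_rl, hx1, mul_one]
  have hxr : nC (ζ • rl x) < r := by rw [hxn]; exact hζ
  obtain ⟨y, hy, hy2, hy3, -, h4, h5⟩ := near_pt H.hs H.hf H.h1 H.h H.hr H.hr0 H.hl H.hM hk.le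
    H.hq H.hCq hxr hz
  have hP := H.Pne hxr
  obtain ⟨P, hPd⟩ : ∃ P, P = F (uE B ((1 / 2 : ℂ) • (ζ • rl x))) := ⟨_, rfl⟩
  obtain ⟨Θ, hΘ⟩ : ∃ Θ, Θ = Th b k m (ζ • rl x) (rl y) := ⟨_, rfl⟩
  have h6 := Z.Th_exp hx1 hy3 hζ
  rw [hy, ← hΘ] at h6
  rw [← hPd] at h4 hP ⊢
  rw [← hΘ] at h4 h5
  rw [h4]
  have e : P ^ 2 * (f z : ℂ) ^ 2 * Complex.exp (-Θ) / P ^ 2 - (f z : ℂ) ^ 2 -
      (k / 48 : ℂ) * ζ ^ 2 * ((f z : ℂ) ^ 2 * (bR B x (pz B z) : ℂ)) =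
      (f z : ℂ) ^ 2 * ((Complex.exp (-Θ) - 1 + Θ) -
        (Θ + (k / 48 : ℂ) * ζ ^ 2 * (bR B x (pz B z) : ℂ))) := by
    field_simp
    ring
  rw [e, norm_mul, norm_pow, Complex.norm_real, Real.norm_eq_abs, sq_abs]
  have hΘn : ‖Θ‖ ≤ Aq Cq k M * ‖ζ‖ ^ 2 * (r / 4) ^ 2 := by
    refine h5.trans ?_
    rw [hxn]
    have : (Cq / 8 * k + 27 * M) * (25 / 16) = Aq Cq k M := rfl
    rw [this]
    gcongr
  have g1 : ‖Complex.exp (-Θ) - 1 + Θ‖ ≤ ‖ζ‖ ^ 4 * ((Aq Cq k M * (r / 4) ^ 2) ^ 2 *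
      Real.exp (Aq Cq k M * (r / 4) ^ 2)) := by
    refine (exp_sub_two_le Θ).trans ?_
    have h7 : ‖Θ‖ ≤ Aq Cq k M * (r / 4) ^ 2 := by
      refine hΘn.trans ?_
      have : Aq Cq k M * ‖ζ‖ ^ 2 ≤ Aq Cq k M * 1 := by
        refine mul_le_mul_of_nonneg_left ?_ hAq
        exact pow_le_one₀ hζ0 hζ1
      rw [mul_one] at this
      exact mul_le_mul_of_nonneg_right this (sq_nonneg _)
    calc ‖Θ‖ ^ 2 * Real.exp ‖Θ‖ ≤ (Aq Cq k M * ‖ζ‖ ^ 2 * (r / 4) ^ 2) ^ 2 *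
          Real.exp (Aq Cq k M * (r / 4) ^ 2) := by gcongr
      _ = _ := by ring
  have hy0 := nE_nonneg y
  have hy22 : nE y ^ 2 ≤ 25 / 16 * nN z ^ 2 := by
    have := pow_le_pow_left₀ hy0 hy2 2
    nlinarith
  have hy44 : nE y ^ 4 ≤ 5 / 2 * nN z ^ 4 := by
    have h8 := pow_le_pow_left₀ hy0 hy2 4
    have h9 : 0 ≤ nN z ^ 4 := by positivity
    nlinarith
  have hy2r : nE y ^ 2 ≤ 2 * (r / 4) ^ 2 := by
    have : nN z ^ 2 ≤ (r / 4) ^ 2 := pow_le_pow_left₀ hz0 hz 2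
    nlinarith [sq_nonneg (nN z)]
  have g2 : ‖Θ + (k / 48 : ℂ) * ζ ^ 2 * (bR B x (pz B z) : ℂ)‖ ≤
      ‖ζ‖ ^ 2 * ((k * Cs / 8 + k * Cp / 4) * (5 / 2) * nN z ^ 4 + 43 * M * nN z ^ 2) +
        ‖ζ‖ ^ 4 * (k * Cs / 8 * (2 * (r / 4) ^ 2)) := by
    refine h6.trans ?_
    have i1 : (k * Cs / 8 + k * Cp / 4) * nE y ^ 4 ≤
        (k * Cs / 8 + k * Cp / 4) * (5 / 2 * nN z ^ 4) :=
      mul_le_mul_of_nonneg_left hy44 (by positivity)
    have i2 : 27 * M * nE y ^ 2 ≤ 43 * M * nN z ^ 2 := by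
      have i3 : 27 * M * nE y ^ 2 ≤ 27 * M * (25 / 16 * nN z ^ 2) :=
        mul_le_mul_of_nonneg_left hy22 (by positivity)
      have i4 : 0 ≤ M * nN z ^ 2 := by positivity
      nlinarith
    have i5 : k * Cs / 8 * nE y ^ 2 ≤ k * Cs / 8 * (2 * (r / 4) ^ 2) :=
      mul_le_mul_of_nonneg_left hy2r (by positivity)
    have i6 : 0 ≤ ‖ζ‖ ^ 2 := sq_nonneg _
    have i7 : 0 ≤ ‖ζ‖ ^ 4 := by positivity
    nlinarith
  have g3 := norm_sub_le (Complex.exp (-Θ) - 1 + Θ)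
    (Θ + (k / 48 : ℂ) * ζ ^ 2 * (bR B x (pz B z) : ℂ))
  calc (f z) ^ 2 * ‖(Complex.exp (-Θ) - 1 + Θ) -
        (Θ + (k / 48 : ℂ) * ζ ^ 2 * (bR B x (pz B z) : ℂ))‖ ≤
      (f z) ^ 2 * (‖ζ‖ ^ 4 * ((Aq Cq k M * (r / 4) ^ 2) ^ 2 *
        Real.exp (Aq Cq k M * (r / 4) ^ 2)) +
        (‖ζ‖ ^ 2 * ((k * Cs / 8 + k * Cp / 4) * (5 / 2) * nN z ^ 4 + 43 * M * nN z ^ 2) +
        ‖ζ‖ ^ 4 * (k * Cs / 8 * (2 * (r / 4) ^ 2)))) :=
        mul_le_mul_of_nonneg_left (g3.trans (add_le_add g1 g2)) (sq_nonneg _)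
    _ = _ := by ring

end Hz

end

end Pool.Agent.N988.MK
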