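import Mathlib
import Pool.Agent.N988.MK.Dlt

/-!
# The sharp value of the quadratic correction: conclusion
-/

open MeasureTheory Filter Metric Asymptotics Matrix
open scoped Matrix.Norms.Frobenius Topology ContDiff
open Pool.Agent.H906R3.YM Pool.Agent.W793.YM Pool.Agent.TH618.YM Pool.Agent.N984.TW
open Pool.Agent.N991.MK

namespace Pool.Agent.N988.MK

set_option linter.unusedSectionVars false

noncomputable section

variable {N n : ℕ} {G : Subgroup (UN N)} {B : Frame G n} {hG : IsClosed (G : Set (UN N))}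
variable [CompactSpace G] [MeasurableSpace G] [BorelSpace G] {μ : Measure G}
  [IsProbabilityMeasure μ] [μ.IsMulLeftInvariant] [μ.IsMulRightInvariant] [μ.IsInvInvariant]
variable {r₀ C : ℝ} {b : (Fin n → ℂ) → (Fin n → ℂ) → (Fin n → ℂ)}
variable {r k M Cm Cq Cu Cs Cp cA : ℝ} {F : (Mat N)ˣ → ℂ} {m : (Fin n → ℂ) → ℂ} {f : G → ℝ}

namespace Hz

variable (Z : Hz B hG μ r₀ C b r k M Cm Cq Cu Cs Cp cA f F m)
include Z

/-- the far part of the ratio -/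
lemma far_R {x : Fin n → ℝ} (hx1 : nE x = 1) {ζ : ℂ} (hζ : ‖ζ‖ < r) :
    ‖(∫ z in {z : G | r / 4 < nN z}, Jn B F (ζ • rl x) z ∂μ) *
      (F 1 ^ 2 / F (uE B ((1 / 2 : ℂ) • (ζ • rl x))) ^ 2) -
      ((∫ z in {z : G | r / 4 < nN z}, (f z) ^ 2 ∂μ : ℝ) : ℂ)‖ ≤
      2 / k ^ 2 * (∫ z, (f z) ^ 2 ∂μ) * (‖ζ‖ / r) ^ 2 := by
  have H := Z.H
  have hr0 := H.hr0
  have hk := H.hk
  have hW := H.hW
  have hxn : ∀ ζ : ℂ, nC (ζ • rl x) = ‖ζ‖ := fun ζ => by rw [nC_smul, nC_rl, hx1, mul_one]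
  refine even_schw (g := fun ζ : ℂ => (∫ z in {z : G | r / 4 < nN z}, Jn B F (ζ • rl x) z ∂μ) *
      (F 1 ^ 2 / F (uE B ((1 / 2 : ℂ) • (ζ • rl x))) ^ 2) -
      ((∫ z in {z : G | r / 4 < nN z}, (f z) ^ 2 ∂μ : ℝ) : ℂ)) (ρ := r) ?_ ?_ ?_ ?_
    (mem_ball_zero_iff.2 hζ)
  · intro ζ hζ
    rw [mem_ball_zero_iff] at hζ
    have hP := H.Pne (x := ζ • rl x) (by rw [hxn]; exact hζ)
    have c1 : DifferentiableAt ℂ (fun ζ : ℂ => ζ • rl x) ζ := by fun_prop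
    have c2 : DifferentiableAt ℂ (fun ζ : ℂ => (1 / 2 : ℂ) • (ζ • rl x)) ζ := by fun_prop
    have d1 := DifferentiableAt.comp (f := fun ζ : ℂ => ζ • rl x)
      (g := fun x => ∫ z in {z : G | r / 4 < nN z}, Jn B F x z ∂μ) ζ
      (Jn_int_diff (B := B) (μ := μ) H.hf _ _) c1
    have d2 := DifferentiableAt.comp (f := fun ζ : ℂ => (1 / 2 : ℂ) • (ζ • rl x))
      (g := fun x => F (uE B x)) ζ ((FE_diff (B := B) (G := G) H.hf.hol) _) c2
    have d3 : DifferentiableAt ℂ (fun ζ : ℂ => F (uE B ((1 / 2 : ℂ) • (ζ • rl x))) ^ 2) ζ :=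
      d2.pow 2
    have d4 := (d3.fun_inv (pow_ne_zero 2 hP)).const_mul (F 1 ^ 2)
    simp only [div_eq_mul_inv]
    exact ((d1.mul d4).sub_const _).differentiableWithinAt
  · intro ζ _
    beta_reduce
    have h1 : F (uE B ((1 / 2 : ℂ) • (-ζ • rl x))) = F (uE B ((1 / 2 : ℂ) • (ζ • rl x))) := by
      rw [neg_smul, smul_neg, uE_neg, H.hf.sym]
    have h2 : ∀ z : G, Jn B F (-ζ • rl x) z = Jn B F (ζ • rl x) z := by
      intro z
      rw [neg_smul, Jn_even H.hf]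
    rw [h1]
    simp only [h2]
  · beta_reduce
    rw [zero_smul, smul_zero, uE_zero, div_self (pow_ne_zero 2 H.h1), mul_one]
    have h2 : ∀ z : G, Jn B F 0 z = (((f z) ^ 2 : ℝ) : ℂ) := by
      intro z
      rw [Jn_zero H.hf]
      push_cast
      rfl
    simp only [h2]
    rw [integral_complex_ofReal, sub_self]
  · intro ζ hζ
    rw [mem_ball_zero_iff] at hζ
    have hxr : nC (ζ • rl x) < r := by rw [hxn]; exact hζ
    have hP := H.Pne hxr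
    have h1 := H.hi.far (ζ • rl x) hxr
    have h2 := H.hi.far0 H.hf H.h1 hr0
    refine (norm_sub_le _ _).trans ?_
    have h3 : ‖(∫ z in {z : G | r / 4 < nN z}, Jn B F (ζ • rl x) z ∂μ) *
        (F 1 ^ 2 / F (uE B ((1 / 2 : ℂ) • (ζ • rl x))) ^ 2)‖ ≤
        1 / k ^ 2 * ∫ z, (f z) ^ 2 ∂μ := by
      have hP2 : 0 < ‖F (uE B ((1 / 2 : ℂ) • (ζ • rl x)))‖ ^ 2 := by
        have := norm_pos_iff.2 hP
        positivity
      rw [norm_mul, norm_div, norm_pow, norm_pow, ← mul_div_assoc, div_le_iff₀ hP2]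
      refine le_trans ?_ (h1.trans (le_of_eq ?_))
      · exact le_rfl
      · ring
    have h4 : ‖((∫ z in {z : G | r / 4 < nN z}, (f z) ^ 2 ∂μ : ℝ) : ℂ)‖ ≤
        1 / k ^ 2 * ∫ z, (f z) ^ 2 ∂μ := by
      rw [Complex.norm_real, Real.norm_eq_abs, abs_of_nonneg
        (integral_nonneg fun z => sq_nonneg _)]
      exact h2
    refine (add_le_add h3 h4).trans (le_of_eq ?_)
    ring

/-- the second order expansion of the ratio -/
theorem ratio_exp {x : Fin n → ℝ} (hx1 : nE x = 1) {p₁ : ℝ}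
    (hp₁ : ∀ a c, PQ B μ r f a c = if a = c then p₁ else 0) : ∃ K' : ℝ, ∀ ζ : ℂ,
    ‖ζ‖ < r → ‖ζ‖ ≤ 1 →
    ‖(EE B μ f F (ζ • rl x) - 1) * ((∫ z, (f z) ^ 2 ∂μ : ℝ) : ℂ) -
      (k / 48 : ℂ) * ζ ^ 2 * ((p₁ * cA : ℝ) : ℂ)‖ ≤
      ‖ζ‖ ^ 2 * (E2 Cm Cs Cp r k M * ∫ z, (f z) ^ 2 ∂μ) + ‖ζ‖ ^ 4 * K' := by
  have H := Z.H
  have hr0 := H.hr0
  have hk := H.hk
  have hCs := Z.hCs
  have hCp := Z.hCp
  have hM := H.hM
  have hCm := H.hCm
  have hfc : Continuous f := H.hf.cont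
  obtain ⟨W, hWd⟩ : ∃ W : ℝ, W = ∫ z : G, (f z) ^ 2 ∂μ := ⟨_, rfl⟩
  have hW : 0 < W := by rw [hWd]; exact H.hW
  obtain ⟨K₀, hK₀⟩ : ∃ K₀, K₀ = k * Cs / 8 * (2 * (r / 4) ^ 2) +
        (Aq Cq k M * (r / 4) ^ 2) ^ 2 * Real.exp (Aq Cq k M * (r / 4) ^ 2) := ⟨_, rfl⟩
  have hK₀0 : 0 ≤ K₀ := by rw [hK₀]; positivity
  refine ⟨K₀ * W, fun ζ hζ hζ1 => ?_⟩
  rw [← hWd]
  have hxn : nC (ζ • rl x) = ‖ζ‖ := by rw [nC_smul, nC_rl, hx1, mul_one]
  have hxr : nC (ζ • rl x) < r := by rw [hxn]; exact hζ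
  have hP := H.Pne hxr
  obtain ⟨P, hPd⟩ : ∃ P, P = F (uE B ((1 / 2 : ℂ) • (ζ • rl x))) := ⟨_, rfl⟩
  rw [← hPd] at hP
  have hf2 : Continuous fun z : G => ((f z : ℝ) : ℂ) ^ 2 :=
    (Complex.continuous_ofReal.comp hfc).pow 2
  have hJ := Jn_cont (B := B) (G := G) H.hf.hol (ζ • rl x)
  have hbc : Continuous fun z : G => (f z : ℂ) ^ 2 * (bR B x (pz B z) : ℂ) :=
    hf2.mul (Complex.continuous_ofReal.comp (bR_cont x))
  have eW : (W : ℂ) = ∫ z : G, ((f z : ℝ) : ℂ) ^ 2 ∂μ := by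
    rw [hWd, ← integral_complex_ofReal]
    refine integral_congr_ae (Eventually.of_forall fun z => ?_)
    beta_reduce
    push_cast
    rfl
  have eB : ∫ z in {z : G | nN z ≤ r / 4}, (f z : ℂ) ^ 2 * (bR B x (pz B z) : ℂ) ∂μ =
      ((p₁ * cA : ℝ) : ℂ) := by
    have h1 := bR_int (B := B) (μ := μ) (r := r) hfc hp₁ Z.hcA x
    rw [hx1, one_pow, mul_one] at h1
    rw [← h1, ← integral_complex_ofReal]
    refine integral_congr_ae (Eventually.of_forall fun z => ?_)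
    beta_reduce
    push_cast
    rfl
  have hEE : (EE B μ f F (ζ • rl x) - 1) * (W : ℂ) =
      convC μ F F (uE B (ζ • rl x)) * (F 1 ^ 2 / P ^ 2) - W := by
    have hWc : (W : ℂ) ≠ 0 := Complex.ofReal_ne_zero.2 hW.ne'
    unfold EE
    rw [← hWd, ← hPd]
    field_simp
  have e1 : (EE B μ f F (ζ • rl x) - 1) * (W : ℂ) -
      (k / 48 : ℂ) * ζ ^ 2 * ((p₁ * cA : ℝ) : ℂ) =
      (∫ z in {z : G | nN z ≤ r / 4}, (Jn B F (ζ • rl x) z * F 1 ^ 2 / P ^ 2 - (f z : ℂ) ^ 2 -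
        (k / 48 : ℂ) * ζ ^ 2 * ((f z : ℂ) ^ 2 * (bR B x (pz B z) : ℂ))) ∂μ) +
      ((∫ z in {z : G | r / 4 < nN z}, Jn B F (ζ • rl x) z ∂μ) * (F 1 ^ 2 / P ^ 2) -
        ((∫ z in {z : G | r / 4 < nN z}, (f z) ^ 2 ∂μ : ℝ) : ℂ)) := by
    have e2 : ((∫ z in {z : G | r / 4 < nN z}, (f z) ^ 2 ∂μ : ℝ) : ℂ) =
        ∫ z in {z : G | r / 4 < nN z}, ((f z : ℝ) : ℂ) ^ 2 ∂μ := by
      rw [← integral_complex_ofReal]
      refine integral_congr_ae (Eventually.of_forall fun z => ?_)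
      beta_reduce
      push_cast
      rfl
    have e3 : ∫ z in {z : G | nN z ≤ r / 4}, (Jn B F (ζ • rl x) z * F 1 ^ 2 / P ^ 2 -
        (f z : ℂ) ^ 2 - (k / 48 : ℂ) * ζ ^ 2 * ((f z : ℂ) ^ 2 * (bR B x (pz B z) : ℂ))) ∂μ =
        (∫ z in {z : G | nN z ≤ r / 4}, Jn B F (ζ • rl x) z ∂μ) * (F 1 ^ 2 / P ^ 2) -
        (∫ z in {z : G | nN z ≤ r / 4}, (f z : ℂ) ^ 2 ∂μ) -
        (k / 48 : ℂ) * ζ ^ 2 * ((p₁ * cA : ℝ) : ℂ) := by
      rw [integral_sub, integral_sub, integral_const_mul, eB, ← integral_mul_const]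
      · congr 2
        refine integral_congr_ae (Eventually.of_forall fun z => ?_)
        beta_reduce
        ring
      · exact (intg ((hJ.mul continuous_const).div_const _)).integrableOn
      · exact (intg hf2).integrableOn
      · exact (intg (((hJ.mul continuous_const).div_const _).sub hf2)).integrableOn
      · exact (intg (continuous_const.mul hbc)).integrableOn
    rw [hEE, e3, e2, conv_eq (B := B) (hG := hG) (μ := μ) H.hf.hol (ζ • rl x), eW,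
      split_int (r := r) hJ, split_int (r := r) hf2]
    ring
  have e4 : ‖∫ z in {z : G | nN z ≤ r / 4}, (Jn B F (ζ • rl x) z * F 1 ^ 2 / P ^ 2 -
      (f z : ℂ) ^ 2 - (k / 48 : ℂ) * ζ ^ 2 * ((f z : ℂ) ^ 2 * (bR B x (pz B z) : ℂ))) ∂μ‖ ≤
      ‖ζ‖ ^ 2 * ((k * Cs / 8 + k * Cp / 4) * (5 / 2) * (10 / k * (Cm / k * W)) +
        43 * M * (Cm / k * W)) + ‖ζ‖ ^ 4 * (W * K₀) := by
    refine (norm_integral_le_integral_norm _).trans ?_
    have h1 : ∫ z in {z : G | nN z ≤ r / 4}, ‖Jn B F (ζ • rl x) z * F 1 ^ 2 / P ^ 2 -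
        (f z : ℂ) ^ 2 - (k / 48 : ℂ) * ζ ^ 2 * ((f z : ℂ) ^ 2 * (bR B x (pz B z) : ℂ))‖ ∂μ ≤
        ∫ z in {z : G | nN z ≤ r / 4}, (‖ζ‖ ^ 2 * ((k * Cs / 8 + k * Cp / 4) * (5 / 2) *
          ((f z) ^ 2 * nN z ^ 4) + 43 * M * ((f z) ^ 2 * nN z ^ 2)) +
          ‖ζ‖ ^ 4 * ((f z) ^ 2 * K₀)) ∂μ := by
      refine setIntegral_mono_on ?_ ?_ meas_near fun z hz => ?_
      · exact (intg ((((hJ.mul continuous_const).div_const _).sub hf2).sub
          (continuous_const.mul hbc))).norm.integrableOn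
      · refine (intgR ?_).integrableOn
        refine (continuous_const.mul ((continuous_const.mul ((hfc.pow 2).mul (nN_cont.pow 4))).add
          (continuous_const.mul ((hfc.pow 2).mul (nN_cont.pow 2))))).add
          (continuous_const.mul ((hfc.pow 2).mul continuous_const))
      · have h2 := Z.near_exp hx1 hz hζ hζ1
        rw [← hPd, ← hK₀] at h2
        exact h2
    refine h1.trans ?_
    rw [integral_add, integral_const_mul, integral_const_mul, integral_add, integral_const_mul,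
      integral_const_mul, integral_mul_const]
    · have h2 := mom4 H.hi H.hf hk
      have h3 := mom2 H.hi H.hf hk
      have h4 : ∫ z in {z : G | nN z ≤ r / 4}, (f z) ^ 2 ∂μ ≤ W := by
        rw [hWd]
        exact setIntegral_le_integral (intgR (hfc.pow 2))
          (Eventually.of_forall fun z => sq_nonneg _)
      rw [← hWd] at h2 h3
      gcongr
    · exact (intgR (continuous_const.mul ((hfc.pow 2).mul (nN_cont.pow 4)))).integrableOn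
    · exact (intgR (continuous_const.mul ((hfc.pow 2).mul (nN_cont.pow 2)))).integrableOn
    · exact (intgR (continuous_const.mul ((continuous_const.mul
        ((hfc.pow 2).mul (nN_cont.pow 4))).add
          (continuous_const.mul ((hfc.pow 2).mul (nN_cont.pow 2)))))).integrableOn
    · exact (intgR (continuous_const.mul ((hfc.pow 2).mul continuous_const))).integrableOn
  have e5 := Z.far_R hx1 hζ
  rw [← hPd, ← hWd] at e5
  rw [e1]
  refine (norm_add_le _ _).trans ((add_le_add e4 e5).trans (le_of_eq ?_))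
  unfold E2
  field_simp
  ring

/-- **the sharp value of the correction** -/
theorem sharp : ∃ δ : ℝ, |δ| ≤ 3 / 2 * eta Cq Cm r k M / r ^ 2 ∧
    (∀ x : Fin n → ℂ, nC x < r →
      ‖Z.H.ll x - δ * qC x‖ ≤ 3 * eta Cq Cm r k M * (nC x / r) ^ 4) ∧
    |δ + cA / 96| ≤ E2 Cm Cs Cp r k M + cA / (48 * k) * (2 * |δ| + E1 Cm Cu Cp r k M) := by
  have H := Z.H
  have hr0 := H.hr0
  have hk := H.hk
  obtain ⟨δ, κ, h1, h2, h3, h4⟩ := H.exists_delta Z.hI Z.hn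
  obtain ⟨p₁, hp₁⟩ := PQ_iso (B := B) (hG := hG) (μ := μ) (r := r) Z.hI H.hf
  have h5 := Z.kappa_eq h1 hp₁
  obtain ⟨W, hWd⟩ : ∃ W : ℝ, W = ∫ z : G, (f z) ^ 2 ∂μ := ⟨_, rfl⟩
  have hW : 0 < W := by rw [hWd]; exact H.hW
  rw [← hWd] at h2 h5
  obtain ⟨x, hxd⟩ : ∃ x : Fin n → ℝ, x = Pi.single (⟨0, Z.hn⟩ : Fin n) (1 : ℝ) := ⟨_, rfl⟩
  have hx1 : nE x = 1 := by
    rw [hxd]
    unfold nE
    rw [Finset.sum_eq_single (⟨0, Z.hn⟩ : Fin n)]
    · simp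
    · intro c _ hc
      simp [hc]
    · intro h; exact absurd (Finset.mem_univ _) h
  have hcA0 : 0 ≤ cA := by
    have h6 := Z.hcA x
    rw [hx1, one_pow, mul_one] at h6
    rw [← h6]
    exact Finset.sum_nonneg fun a _ => sq_nonneg _
  refine ⟨δ, h3, h4, ?_⟩
  obtain ⟨K', hK'⟩ := Z.ratio_exp hx1 hp₁
  rw [← hWd] at hK'
  have hxn : ∀ ζ : ℂ, nC (ζ • rl x) = ‖ζ‖ := fun ζ => by rw [nC_smul, nC_rl, hx1, mul_one]
  have hbr : ∀ᶠ ζ in 𝓝 (0 : ℂ), ‖ζ‖ < r := by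
    filter_upwards [ball_mem_nhds (0 : ℂ) hr0] with ζ hζ
    rwa [mem_ball_zero_iff] at hζ
  have hb1 : ∀ᶠ ζ in 𝓝 (0 : ℂ), ‖ζ‖ ≤ 1 := by
    filter_upwards [ball_mem_nhds (0 : ℂ) one_pos] with ζ hζ
    rw [mem_ball_zero_iff] at hζ
    exact hζ.le
  have hlim : Tendsto (fun ζ : ℂ => (1 - Complex.exp (-H.ll (ζ • rl x))) / ζ ^ 2) (𝓝[≠] 0)
      (𝓝 (δ : ℂ)) := by
    refine exp_limit ?_
    refine IsBigO.of_bound (3 * eta Cq Cm r k M / r ^ 4) ?_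
    filter_upwards [hbr] with ζ hζ
    have h6 := h4 (ζ • rl x) (by rw [hxn]; exact hζ)
    rw [hxn, qC_smul, qC_rl, hx1, one_pow, Complex.ofReal_one, mul_one] at h6
    refine h6.trans (le_of_eq ?_)
    rw [norm_pow]
    field_simp
  have hlim2 : Tendsto (fun ζ : ℂ => ‖((EE B μ f F (ζ • rl x) - 1) * (W : ℂ) -
      (k / 48 : ℂ) * ζ ^ 2 * ((p₁ * cA : ℝ) : ℂ)) / ζ ^ 2‖) (𝓝[≠] 0)
      (𝓝 ‖-(δ : ℂ) * W - (k / 48 : ℂ) * ((p₁ * cA : ℝ) : ℂ)‖) := by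
    have h6 := (((hlim.neg).mul_const (W : ℂ)).sub_const
      ((k / 48 : ℂ) * ((p₁ * cA : ℝ) : ℂ))).norm
    refine h6.congr' ?_
    filter_upwards [self_mem_nhdsWithin, mem_nhdsWithin_of_mem_nhds hbr] with ζ hζ hζr
    have hζr' : nC (ζ • rl x) < r := by rw [hxn]; exact hζr
    have hζ0 : ζ ≠ 0 := hζ
    have h7 : Complex.exp (-H.ll (ζ • rl x)) = EE B μ f F (ζ • rl x) := by
      unfold Hy.ll
      rw [neg_neg, Complex.exp_log (Complex.slitPlane_ne_zero (H.EE_slit hζr'))]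
    rw [h7]
    congr 1
    field_simp
    ring
  have hlim3 : Tendsto (fun ζ : ℂ => E2 Cm Cs Cp r k M * W + ‖ζ‖ ^ 2 * K') (𝓝[≠] 0)
      (𝓝 (E2 Cm Cs Cp r k M * W)) := by
    have h6 : Continuous fun ζ : ℂ => E2 Cm Cs Cp r k M * W + ‖ζ‖ ^ 2 * K' := by fun_prop
    have h7 := h6.tendsto 0
    simp only [norm_zero, ne_eq, OfNat.ofNat_ne_zero, not_false_eq_true, zero_pow, zero_mul,
      add_zero] at h7
    exact h7.mono_left nhdsWithin_le_nhds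
  have h6 := le_of_tendsto_of_tendsto hlim2 hlim3 (by
    filter_upwards [self_mem_nhdsWithin, mem_nhdsWithin_of_mem_nhds hbr,
      mem_nhdsWithin_of_mem_nhds hb1] with ζ hζ hζr hζ1
    have hζ0 : 0 < ‖ζ‖ ^ 2 := by
      have : 0 < ‖ζ‖ := norm_pos_iff.2 hζ
      positivity
    rw [norm_div, norm_pow, div_le_iff₀ hζ0]
    refine (hK' ζ hζr hζ1).trans (le_of_eq ?_)
    ring)
  have h7 : |δ * W + k / 48 * (p₁ * cA)| ≤ E2 Cm Cs Cp r k M * W := by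
    have e : -(δ : ℂ) * W - (k / 48 : ℂ) * ((p₁ * cA : ℝ) : ℂ) =
        ((-(δ * W + k / 48 * (p₁ * cA)) : ℝ) : ℂ) := by push_cast; ring
    rw [e, Complex.norm_real, Real.norm_eq_abs, abs_neg] at h6
    exact h6
  -- conclusion
  obtain ⟨p, hp⟩ : ∃ p, p = p₁ / W := ⟨_, rfl⟩
  have hp1 : p₁ = p * W := by rw [hp]; field_simp
  rw [hp1] at h5 h7
  rw [h2] at h5
  have h8 : |k / 2 + 2 * δ - k ^ 2 * p| ≤ E1 Cm Cu Cp r k M := by
    have e : (k / 2 + 2 * δ) * W - k ^ 2 * (p * W) = (k / 2 + 2 * δ - k ^ 2 * p) * W := by ring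
    rw [e, abs_mul, abs_of_pos hW] at h5
    exact le_of_mul_le_mul_right h5 hW
  have h9 : |δ + k / 48 * (p * cA)| ≤ E2 Cm Cs Cp r k M := by
    have e : δ * W + k / 48 * (p * W * cA) = (δ + k / 48 * (p * cA)) * W := by ring
    rw [e, abs_mul, abs_of_pos hW] at h7
    exact le_of_mul_le_mul_right h7 hW
  have e : δ + cA / 96 = (δ + k / 48 * (p * cA)) +
      cA / (48 * k) * ((k / 2 + 2 * δ - k ^ 2 * p) + -(2 * δ)) := by
    field_simp
    ring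
  rw [e]
  refine (abs_add_le _ _).trans (add_le_add h9 ?_)
  rw [abs_mul, abs_of_nonneg (a := cA / (48 * k)) (by positivity)]
  refine mul_le_mul_of_nonneg_left ?_ (by positivity)
  refine (abs_add_le _ _).trans ?_
  rw [abs_neg, abs_mul, abs_two]
  linarith

end Hz

end

end Pool.Agent.N988.MK
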