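import Mathlib
import Pool.Agent.N988.MK.Dlt2
import Pool.Agent.N991.MK.Far
import Pool.Agent.N991.MK.Tube3

/-!
# The one-step theorem for the convolution square
-/

open MeasureTheory Filter Metric Asymptotics Matrix
open scoped Matrix.Norms.Frobenius Topology ContDiff
open Pool.Agent.H906R3.YM Pool.Agent.W793.YM Pool.Agent.TH618.YM Pool.Agent.N984.TW
open Pool.Agent.N991.MK

namespace Pool.Agent.N988.MK

set_option linter.unusedSectionVars false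

noncomputable section

variable {N n : ℕ} {G : Subgroup (UN N)} {B : Frame G n} {hG : IsClosed (G : Set (UN N))}
variable {r₀ C : ℝ} {b : (Fin n → ℂ) → (Fin n → ℂ) → (Fin n → ℂ)}

lemma BC.mono (h : BC B r₀ C b) {r : ℝ} (hr : 0 < r) (hrr : r ≤ r₀) : BC B r C b where
  pos := hr
  Cpos := h.Cpos
  mul x y hx hy := h.mul x y (hx.trans hrr) (hy.trans hrr)
  near x y hx hy := h.near x y (hx.trans hrr) (hy.trans hrr)
  diff x y hx hy := h.diff x y (hx.trans hrr) (hy.trans hrr)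
  inj A A' h1 h2 h3 := h.inj A A' (by linarith) (by linarith) h3
  bde x hx A := h.bde x (hx.trans hrr) A
  small := (mul_le_mul_of_nonneg_left hrr h.Cpos).trans h.small

/-- all the constants of the chart -/
structure Cst (B : Frame G n) (hG : IsClosed (G : Set (UN N))) (r₀ C : ℝ)
    (b : (Fin n → ℂ) → (Fin n → ℂ) → (Fin n → ℂ)) (Cq Cu Cs Cp : ℝ) : Prop where
  h : BC B r₀ C b
  hl : LN B hG r₀
  hCq : 0 ≤ Cq
  hq : ∀ x y : Fin n → ℂ, nC x < r₀ → nC y < r₀ → ‖Tf b qC x y‖ ≤ Cq * nC x ^ 2 * nC y ^ 2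
  hCu : 0 ≤ Cu
  hu : ∀ x y : Fin n → ℂ, nC x < r₀ / 2 → nC y < r₀ / 2 →
    ‖Uf b x y‖ ≤ Cu * nC x * nC y * max (nC x) (nC y) ^ 2
  hCs : 0 ≤ Cs
  hsh : ∀ x y : Fin n → ℂ, nC x < r₀ / 2 → nC y < r₀ / 2 →
    ‖Tf b qC x y + 1 / 6 * brC B x y‖ ≤ Cs * nC x ^ 2 * nC y ^ 2 * max (nC x) (nC y) ^ 2
  hCp : 0 ≤ Cp
  hp : ∀ y : Fin n → ℝ, nE y < r₀ → nE (pz B (Eg B hG y) - y) ≤ Cp * nE y ^ 3
  hps : Cp * r₀ ^ 2 ≤ 1

theorem exists_Cst (B : Frame G n) (hG : IsClosed (G : Set (UN N))) :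
    ∃ (r₀ C : ℝ) (b : (Fin n → ℂ) → (Fin n → ℂ) → (Fin n → ℂ)) (Cq Cu Cs Cp : ℝ),
      Cst B hG r₀ C b Cq Cu Cs Cp := by
  have : CompactSpace G := isCompact_iff_compactSpace.1 hG.isCompact
  let _ : MeasurableSpace G := borel G
  have : BorelSpace G := ⟨rfl⟩
  obtain ⟨r₁, C, b, h⟩ := exists_BC B (s_L2 B hG)
  obtain ⟨r₂, C₂, hr₂, hC₂, l1, l2, -⟩ := s_L1 B hG
  obtain ⟨r₃, Cp, hr₃, hCp, hp⟩ := exists_pz (hG := hG) B
  obtain ⟨r₀, hr₀⟩ : ∃ r₀, r₀ = min (min r₁ r₂) (min (min r₃ 1)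
    (min (1 / (4 * (C₂ + 1))) (1 / (Cp + 1)))) := ⟨_, rfl⟩
  have h1 := h.pos
  have p0 : 0 < r₀ := by rw [hr₀]; positivity
  have q1 : r₀ ≤ r₁ := by rw [hr₀]; exact (min_le_left _ _).trans (min_le_left _ _)
  have q2 : r₀ ≤ r₂ := by rw [hr₀]; exact (min_le_left _ _).trans (min_le_right _ _)
  have q3 : r₀ ≤ r₃ := by
    rw [hr₀]; exact (min_le_right _ _).trans ((min_le_left _ _).trans (min_le_left _ _))
  have q4 : r₀ ≤ 1 := by
    rw [hr₀]; exact (min_le_right _ _).trans ((min_le_left _ _).trans (min_le_right _ _))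
  have q5 : r₀ ≤ 1 / (4 * (C₂ + 1)) := by
    rw [hr₀]; exact (min_le_right _ _).trans ((min_le_right _ _).trans (min_le_left _ _))
  have q6 : r₀ ≤ 1 / (Cp + 1) := by
    rw [hr₀]; exact (min_le_right _ _).trans ((min_le_right _ _).trans (min_le_right _ _))
  have hb : BC B r₀ C b := h.mono p0 q1
  obtain ⟨Cq, hCq, hq⟩ := hb.Tq
  obtain ⟨Cu, hCu, hu⟩ := hb.Uq
  obtain ⟨Cs, hCs, hsh⟩ := hb.Tq_sharp
  refine ⟨r₀, C, b, Cq, Cu, Cs, Cp, hb, ⟨fun g hg => ?_, fun y => l2 y⟩, hCq, hq, hCu, hu, hCs,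
    hsh, hCp, fun y hy => hp y (lt_of_lt_of_le hy q3), ?_⟩
  · obtain ⟨y, hy1, hy2⟩ := l1 g (hg.trans q2)
    refine ⟨y, hy1, hy2.trans ?_⟩
    have h3 : 0 ≤ nN g := norm_nonneg _
    have h4 : C₂ * nN g ≤ 1 / 4 := by
      have h5 : C₂ * nN g ≤ C₂ * (1 / (4 * (C₂ + 1))) :=
        mul_le_mul_of_nonneg_left (hg.trans q5) hC₂
      refine h5.trans ?_
      rw [mul_one_div, div_le_div_iff₀ (by positivity) (by norm_num)]
      linarith
    show (1 + C₂ * nN g) * nN g ≤ _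
    nlinarith
  · have h5 : Cp * r₀ ≤ 1 := by
      have : Cp * r₀ ≤ Cp * (1 / (Cp + 1)) := mul_le_mul_of_nonneg_left q6 hCp
      refine this.trans ?_
      rw [mul_one_div, div_le_one (by positivity)]
      linarith
    have h6 : Cp * r₀ ^ 2 = (Cp * r₀) * r₀ := by ring
    rw [h6]
    exact mul_le_one₀ h5 p0.le q4

variable {r k M Cm Cq Cu Cs Cp cA : ℝ} {F : (Mat N)ˣ → ℂ} {m : (Fin n → ℂ) → ℂ} {f : G → ℝ}

lemma St.nearS (hs : St B r k M F m) : NearS B r k M F := fun x hx =>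
  ⟨m x, hs.eq x hx, hs.bd x hx⟩

lemma St.sq (hs : St B r k M F m) : St B r (2 * k) (2 * M) (fun u => F u ^ 2)
    (fun x => 2 * m x) where
  eq x hx := by
    beta_reduce
    rw [hs.eq x hx, mul_pow, ← Complex.exp_nat_mul]
    congr 2
    push_cast
    ring
  md x hx := (hs.md x hx).const_mul 2
  even x hx := by beta_reduce; rw [hs.even x hx]
  bd x hx := by
    rw [norm_mul]
    have h2 : ‖(2 : ℂ)‖ = 2 := by norm_num
    rw [h2]
    have := hs.bd x hx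
    linarith

variable [CompactSpace G] [MeasurableSpace G] [BorelSpace G] {μ : Measure G}
  [IsProbabilityMeasure μ] [μ.IsMulLeftInvariant] [μ.IsMulRightInvariant] [μ.IsInvInvariant]

/-- the new state from a value of the correction -/
lemma Hy.new_state (H : Hy B hG μ r₀ C b r k M Cm Cq f F m) {δ : ℝ}
    (hδ : ∀ x : Fin n → ℂ, nC x < r →
      ‖H.ll x - δ * qC x‖ ≤ 3 * eta Cq Cm r k M * (nC x / r) ^ 4) :
    St B r (k / 2 + 2 * δ) (M / 8 + 3 * eta Cq Cm r k M / r ^ 4) (convC μ F F)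
      (fun x => 2 * m ((1 / 2 : ℂ) • x) + (H.ll x - δ * qC x)) where
  eq x hx := by
    have h1 := H.conv_exp hx
    rw [h1, conv_one (B := B) (hG := hG) H.hf]
    congr 2
    push_cast
    ring
  md x hx := by
    have h2 : nC ((1 / 2 : ℂ) • x) < r := by
      rw [nC_half]; have := nC_nonneg x; linarith
    have h4 : DifferentiableAt ℂ (fun x : Fin n → ℂ => (1 / 2 : ℂ) • x) x := by fun_prop
    have h5 := DifferentiableAt.comp (f := fun x : Fin n → ℂ => (1 / 2 : ℂ) • x)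
      (g := m) x (H.hs.md _ h2) h4
    exact (h5.const_mul 2).add ((H.ll_diff hx).sub ((qC_diff x).const_mul _))
  even x hx := by
    have h2 : nC ((1 / 2 : ℂ) • x) < r := by
      rw [nC_half]; have := nC_nonneg x; linarith
    beta_reduce
    rw [smul_neg, H.hs.even _ h2, H.ll_even, qC_neg]
  bd x hx := by
    have h2 : nC ((1 / 2 : ℂ) • x) < r := by
      rw [nC_half]; have := nC_nonneg x; linarith
    have h3 := H.hs.bd _ h2
    rw [nC_half] at h3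
    have h4 := hδ x hx
    refine (norm_add_le _ _).trans ?_
    rw [norm_mul]
    have h5 : ‖(2 : ℂ)‖ = 2 := by norm_num
    rw [h5]
    calc 2 * ‖m ((1 / 2 : ℂ) • x)‖ + ‖H.ll x - δ * qC x‖
        ≤ 2 * (M * (nC x / 2) ^ 4) + 3 * eta Cq Cm r k M * (nC x / r) ^ 4 := by linarith
      _ = _ := by ring

variable (μ) in
/-- **the one-step theorem for the convolution square** -/
theorem step_D (hG : IsClosed (G : Set (UN N))) (hI : IsoG B) (hn : 0 < n)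
    (hcA : ∀ x : Fin n → ℝ, ∑ a, ‖LX B x * B.X a - B.X a * LX B x‖ ^ 2 = cA * nE x ^ 2) :
    ∃ r₁ ε₁ : ℝ, 0 < r₁ ∧ 0 < ε₁ ∧ ε₁ ≤ 1 / 1000 ∧ ∀ ε : ℝ, 0 < ε → ε ≤ ε₁ →
      ∀ r : ℝ, 0 < r → r ≤ r₁ → GoodR B r ∧
      ∃ k₀ K : ℝ, 1 ≤ k₀ ∧ 0 ≤ K ∧ ∀ {k M : ℝ} {f : G → ℝ} {F : (Mat N)ˣ → ℂ}
        {m : (Fin n → ℂ) → ℂ}, k₀ ≤ k → 0 ≤ M → M * r ^ 2 ≤ ε * k → CF f F → (∀ x, 0 < f x) →
        St B r k M F m → Tube B r k F →
        ∃ (k' M' : ℝ) (m' : (Fin n → ℂ) → ℂ), |k' - (k / 2 - cA / 48)| ≤ K * (1 + M) / k ∧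
          |k' - k / 2| ≤ K ∧ 0 ≤ M' ∧ M' ≤ M / 8 + K ∧ M' * r ^ 2 ≤ ε * k' ∧
          St B r k' M' (convC μ F F) m' ∧ Tube B r k' (convC μ F F) := by
  obtain ⟨r₀, C, b, Cq, Cu, Cs, Cp, T⟩ := exists_Cst B hG
  obtain ⟨Cm, hCm, hmom⟩ := moments (B := B) μ
  obtain ⟨rg, hrg, hgood⟩ := exists_goodR B hG
  have hr₀ := T.h.pos
  have hCq := T.hCq
  obtain ⟨S, hS⟩ : ∃ S : ℝ, S = min (1 / 10) (1 / (4 * (Cm + 1))) := ⟨_, rfl⟩
  have hS0 : 0 < S := by rw [hS]; positivity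
  have hS1 : S ≤ 1 / 10 := by rw [hS]; exact min_le_left _ _
  have hS2 : S * Cm ≤ 1 / 4 := by
    have h1 : S ≤ 1 / (4 * (Cm + 1)) := by rw [hS]; exact min_le_right _ _
    have h2 : S * Cm ≤ 1 / (4 * (Cm + 1)) * Cm := mul_le_mul_of_nonneg_right h1 hCm.le
    refine h2.trans ?_
    rw [one_div_mul_eq_div, div_le_div_iff₀ (by positivity) (by norm_num)]
    linarith
  have hcA0 : 0 ≤ cA := by
    have h6 := hcA (Pi.single (⟨0, hn⟩ : Fin n) (1 : ℝ))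
    have hx1 : nE (Pi.single (⟨0, hn⟩ : Fin n) (1 : ℝ)) = 1 := by
      unfold nE
      rw [Finset.sum_eq_single (⟨0, hn⟩ : Fin n)]
      · simp
      · intro c _ hc
        simp [hc]
      · intro h; exact absurd (Finset.mem_univ _) h
    rw [hx1, one_pow, mul_one] at h6
    rw [← h6]
    exact Finset.sum_nonneg fun a _ => sq_nonneg _
  refine ⟨min (min r₀ rg) (min 1 (S / (Cq + 1))), min (1 / 1000) (S / 100), by positivity,
    by positivity, min_le_left _ _, fun ε hε0 hε r hr hrr => ?_⟩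
  have hε1 : ε ≤ 1 / 1000 := hε.trans (min_le_left _ _)
  have hε2 : ε ≤ S / 100 := hε.trans (min_le_right _ _)
  have q1 : r ≤ r₀ := hrr.trans ((min_le_left _ _).trans (min_le_left _ _))
  have q2 : r ≤ rg := hrr.trans ((min_le_left _ _).trans (min_le_right _ _))
  have q3 : r ≤ 1 := hrr.trans ((min_le_right _ _).trans (min_le_left _ _))
  have q4 : r ≤ S / (Cq + 1) := hrr.trans ((min_le_right _ _).trans (min_le_right _ _))
  have hgr : GoodR B r := hgood r hr q2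
  refine ⟨hgr, ?_⟩
  have q5 : Cq * r ^ 2 ≤ S := by
    have h1 : Cq * r ≤ S := by
      have h2 : (Cq + 1) * r ≤ S := by
        rw [le_div_iff₀ (by positivity)] at q4
        linarith
      linarith
    have h3 : Cq * r ^ 2 = (Cq * r) * r := by ring
    rw [h3]
    have h4 : 0 ≤ Cq * r := by positivity
    exact (mul_le_of_le_one_right h4 q3).trans h1
  have hr2 : 0 < r ^ 2 := by positivity
  have hr4 : 0 < r ^ 4 := by positivity
  obtain ⟨k1, hk1, hfar⟩ := far_part μ hgr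
  obtain ⟨k2, hk2, hptw⟩ := far_ptw μ hgr
  obtain ⟨k3, hk3, htube⟩ := tube_conv hG μ hgr (3 / (2 * r ^ 2)) (by positivity)
  obtain ⟨κ₂, hκ₂⟩ : ∃ κ₂ : ℝ, κ₂ = Cu / 4 + Cp + 81 / (1000 * r ^ 2) := ⟨_, rfl⟩
  have hCu := T.hCu
  have hCp := T.hCp
  have hCs := T.hCs
  have hκ₂0 : 0 ≤ κ₂ := by rw [hκ₂]; positivity
  obtain ⟨E, hE⟩ : ∃ E : ℝ, E = 100 * Cm * κ₂ + 800 * Cm * κ₂ ^ 2 + 256 / r ^ 2 := ⟨_, rfl⟩
  have hE0 : 0 ≤ E := by rw [hE]; positivity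
  obtain ⟨K, hK⟩ : ∃ K : ℝ, K = 3 / (2 * r ^ 2) + 3 / (2 * r ^ 4) +
    2 * (25 * Cm * (Cs / 8 + Cp / 4) + 43 * Cm + 2 / r ^ 2 + cA / 48 * (3 / (2 * r ^ 2) + E)) :=
    ⟨_, rfl⟩
  have hK0 : 0 ≤ K := by rw [hK]; positivity
  refine ⟨max (max (max k1 k2) (max k3 3)) (max (16 / r ^ 2) (8 / (r ^ 2 * ε))), K,
    hk1.trans ((le_max_left _ _).trans ((le_max_left _ _).trans (le_max_left _ _))), hK0,
    fun {k M f F m} hk hM hMr hf hpos hs ht => ?_⟩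
  have l1 : k1 ≤ k := ((le_max_left _ _).trans ((le_max_left _ _).trans (le_max_left _ _))).trans hk
  have l2 : k2 ≤ k := ((le_max_right _ _).trans ((le_max_left _ _).trans (le_max_left _ _))).trans hk
  have l3 : k3 ≤ k := ((le_max_left _ _).trans ((le_max_right _ _).trans (le_max_left _ _))).trans hk
  have l4 : 3 ≤ k := ((le_max_right _ _).trans ((le_max_right _ _).trans (le_max_left _ _))).trans hk
  have l5 : 16 / r ^ 2 ≤ k := ((le_max_left _ _).trans (le_max_right _ _)).trans hk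
  have l6 : 8 / (r ^ 2 * ε) ≤ k := ((le_max_right _ _).trans (le_max_right _ _)).trans hk
  have hk0 : 0 < k := by linarith
  have hk1' : 1 ≤ k := by linarith
  have hM1 : M * r ^ 2 ≤ k / 1000 := by
    have := mul_le_mul_of_nonneg_right hε1 hk0.le
    linarith
  have hns := hs.nearS
  have hF1 : F 1 ≠ 0 := by
    rw [CF.F1 hf]
    exact Complex.ofReal_ne_zero.2 (hpos 1).ne'
  have hfc : Continuous f := hf.cont
  have hW : 0 < ∫ z : G, (f z) ^ 2 ∂μ := by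
    refine (integral_pos_iff_support_of_nonneg (fun z => sq_nonneg _)
      (intgR (μ := μ) (hfc.pow 2))).2 ?_
    have : Function.support (fun z : G => (f z) ^ 2) = Set.univ := by
      ext z
      simp only [Function.mem_support, Set.mem_univ, iff_true]
      exact pow_ne_zero 2 (hpos z).ne'
    rw [this, measure_univ]
    exact one_pos
  have hinp : Inp B μ r k Cm f F := by
    refine ⟨hmom hgr l5 hM1 hf hns, fun x hx => hfar l1 hM1 hf hns ht x hx.le, fun x hx z hz => ?_⟩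
    exact hptw l2 hM1 hf hns ht x hx z hz.le
  have hAq : Aq Cq k M * r ^ 2 ≤ S * k := by
    unfold Aq
    have h1 : Cq * r ^ 2 * k ≤ S * k := mul_le_mul_of_nonneg_right q5 hk0.le
    have h2 : ε * k ≤ S / 100 * k := mul_le_mul_of_nonneg_right hε2 hk0.le
    have h3 : (Cq / 8 * k + 27 * M) * (25 / 16) * r ^ 2 =
        25 / 128 * (Cq * r ^ 2 * k) + 675 / 16 * (M * r ^ 2) := by ring
    rw [h3]
    have h4 : 0 ≤ S * k := by positivity
    linarith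
  have hAq0 : 0 ≤ Aq Cq k M := by unfold Aq; positivity
  have hAr : Aq Cq k M * r ^ 2 ≤ k / 10 := by
    refine hAq.trans ?_
    have := mul_le_mul_of_nonneg_right hS1 hk0.le
    linarith
  have het : eta Cq Cm r k M ≤ 1 / 2 := by
    unfold eta
    have h1 : Aq Cq k M * r ^ 2 * Cm / k ≤ 1 / 4 := by
      rw [div_le_iff₀ hk0]
      have h2 := mul_le_mul_of_nonneg_right hAq hCm.le
      have h3 := mul_le_mul_of_nonneg_right hS2 hk0.le
      calc Aq Cq k M * r ^ 2 * Cm ≤ S * k * Cm := h2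
        _ = S * Cm * k := by ring
        _ ≤ _ := h3
    have h4 : 2 / k ^ 2 ≤ 1 / 4 := by
      rw [div_le_div_iff₀ (by positivity) (by norm_num)]
      have h5 : (3 : ℝ) ^ 2 ≤ k ^ 2 := pow_le_pow_left₀ (by norm_num) l4 2
      linarith
    linarith
  have H : Hy B hG μ r₀ C b r k M Cm Cq f F m :=
    ⟨hs, hf, hF1, T.h, q1, hr, T.hl, hM, hk0, hinp, T.hq, T.hCq, hCm.le, hAr, het, hW⟩
  have Z : Hz B hG μ r₀ C b r k M Cm Cq Cu Cs Cp cA f F m :=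
    ⟨H, hI, hn, T.hCu, T.hu, T.hCs, T.hsh, T.hCp, T.hp, T.hps, hcA⟩
  obtain ⟨δ, hδ1, hδ2, hδ3⟩ := Z.sharp
  have het0 := H.eta_nonneg
  have hnew := Hy.new_state H hδ2
  have hδ4 : 2 * |δ| ≤ 3 / (2 * r ^ 2) := by
    have h1 : 3 / 2 * eta Cq Cm r k M / r ^ 2 ≤ 3 / 2 * (1 / 2) / r ^ 2 := by gcongr
    have h2 := hδ1.trans h1
    have h3 : 3 / (2 * r ^ 2) = 2 * (3 / 2 * (1 / 2) / r ^ 2) := by field_simp
    rw [h3]
    linarith
  have hM'0 : 0 ≤ M / 8 + 3 * eta Cq Cm r k M / r ^ 4 := by positivity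
  have hM'1 : M / 8 + 3 * eta Cq Cm r k M / r ^ 4 ≤ M / 8 + 3 / (2 * r ^ 4) := by
    have h1 : 3 * eta Cq Cm r k M / r ^ 4 ≤ 3 * (1 / 2) / r ^ 4 := by gcongr
    have h3 : 3 / (2 * r ^ 4) = 3 * (1 / 2) / r ^ 4 := by field_simp
    rw [h3]
    linarith
  have hk'1 : |k / 2 + 2 * δ - k / 2| ≤ 3 / (2 * r ^ 2) := by
    have : k / 2 + 2 * δ - k / 2 = 2 * δ := by ring
    rw [this, abs_mul, abs_two]
    exact hδ4
  have hM'2 : (M / 8 + 3 * eta Cq Cm r k M / r ^ 4) * r ^ 2 ≤ ε * (k / 2 + 2 * δ) := by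
    have h1 : (M / 8 + 3 * eta Cq Cm r k M / r ^ 4) * r ^ 2 ≤ M * r ^ 2 / 8 + 3 / (2 * r ^ 2) := by
      calc (M / 8 + 3 * eta Cq Cm r k M / r ^ 4) * r ^ 2 ≤ (M / 8 + 3 / (2 * r ^ 4)) * r ^ 2 :=
            mul_le_mul_of_nonneg_right hM'1 hr2.le
        _ = _ := by field_simp
    have h2 : -(2 * δ) ≤ 3 / (2 * r ^ 2) := by
      have := neg_abs_le δ
      linarith [abs_nonneg δ]
    have h3 : 8 / r ^ 2 ≤ ε * k := by
      rw [div_le_iff₀ (by positivity)] at l6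
      rw [div_le_iff₀ hr2]
      linarith
    have h4 : ε * (-(2 * δ)) ≤ 3 / (2 * r ^ 2) := by
      have h5 : 0 ≤ 3 / (2 * r ^ 2) := by positivity
      have h6 : ε * (-(2 * δ)) ≤ ε * (3 / (2 * r ^ 2)) := mul_le_mul_of_nonneg_left h2 hε0.le
      have h7 : ε * (3 / (2 * r ^ 2)) ≤ 1 * (3 / (2 * r ^ 2)) :=
        mul_le_mul_of_nonneg_right (by linarith) h5
      linarith
    have h5 : 3 / (2 * r ^ 2) = 3 / 16 * (8 / r ^ 2) := by field_simp; ring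
    rw [h5] at h1 h4
    have h6 : ε * (k / 2 + 2 * δ) = ε * k / 2 - ε * (-(2 * δ)) := by ring
    rw [h6]
    linarith
  have hM'3 : (M / 8 + 3 * eta Cq Cm r k M / r ^ 4) * r ^ 2 ≤ (k / 2 + 2 * δ) / 1000 := by
    have h1 : 0 ≤ k / 2 + 2 * δ := by
      have h2 : 0 ≤ (M / 8 + 3 * eta Cq Cm r k M / r ^ 4) * r ^ 2 := by positivity
      exact nonneg_of_mul_nonneg_right (h2.trans hM'2) hε0
    refine hM'2.trans ?_
    have := mul_le_mul_of_nonneg_right hε1 h1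
    linarith
  refine ⟨k / 2 + 2 * δ, M / 8 + 3 * eta Cq Cm r k M / r ^ 4, _, ?_, ?_, hM'0, ?_, hM'2, hnew,
    htube l3 hk'1 hM1 hM'3 hf hns ht hnew.nearS⟩
  · have e : k / 2 + 2 * δ - (k / 2 - cA / 48) = 2 * (δ + cA / 96) := by ring
    rw [e, abs_mul, abs_two]
    -- the errors
    have hMk : M ≤ k * (1 / (1000 * r ^ 2)) := by
      rw [mul_one_div, le_div_iff₀ (by positivity)]
      linarith
    have hK2 : K2 Cu Cp k M ≤ κ₂ * k := by
      unfold K2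
      rw [hκ₂]
      have : 81 * M ≤ 81 * (k * (1 / (1000 * r ^ 2))) := by linarith
      calc k / 4 * Cu + 81 * M + k * Cp ≤ k / 4 * Cu + 81 * (k * (1 / (1000 * r ^ 2))) + k * Cp := by
            linarith
        _ = _ := by ring
    have hK20 := Z.K2_nonneg
    have hE1 : E1 Cm Cu Cp r k M ≤ E := by
      unfold E1
      rw [hE]
      have t1 : 100 * Cm * K2 Cu Cp k M / k ≤ 100 * Cm * κ₂ := by
        rw [div_le_iff₀ hk0]
        calc 100 * Cm * K2 Cu Cp k M ≤ 100 * Cm * (κ₂ * k) := by gcongr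
          _ = _ := by ring
      have t2 : 800 * Cm * K2 Cu Cp k M ^ 2 / k ^ 3 ≤ 800 * Cm * κ₂ ^ 2 := by
        rw [div_le_iff₀ (by positivity)]
        calc 800 * Cm * K2 Cu Cp k M ^ 2 ≤ 800 * Cm * (κ₂ * k) ^ 2 := by gcongr
          _ = 800 * Cm * κ₂ ^ 2 * k ^ 2 * 1 := by ring
          _ ≤ 800 * Cm * κ₂ ^ 2 * k ^ 2 * k := by
              have : 0 ≤ 800 * Cm * κ₂ ^ 2 * k ^ 2 := by positivity
              exact mul_le_mul_of_nonneg_left hk1' this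
          _ = _ := by ring
      have t3 : 256 / (r ^ 2 * k ^ 4) ≤ 256 / r ^ 2 := by
        refine div_le_div_of_nonneg_left (by norm_num) hr2 ?_
        have : 1 ≤ k ^ 4 := one_le_pow₀ hk1'
        exact le_mul_of_one_le_right hr2.le this
      linarith
    have hE2 : E2 Cm Cs Cp r k M ≤ (25 * Cm * (Cs / 8 + Cp / 4) + 43 * Cm * M + 2 / r ^ 2) / k := by
      unfold E2
      rw [le_div_iff₀ hk0]
      have t1 : (k * Cs / 8 + k * Cp / 4) * (5 / 2) * (10 / k * (Cm / k)) * k =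
          25 * Cm * (Cs / 8 + Cp / 4) := by field_simp; ring
      have t2 : 43 * M * (Cm / k) * k = 43 * Cm * M := by field_simp
      have t3 : 2 / k ^ 2 / r ^ 2 * k ≤ 2 / r ^ 2 := by
        have : 2 / k ^ 2 / r ^ 2 * k = 2 / r ^ 2 * (1 / k) := by field_simp
        rw [this]
        have h1 : 1 / k ≤ 1 := by rw [div_le_one hk0]; exact hk1'
        have h2 : 0 ≤ 2 / r ^ 2 := by positivity
        exact mul_le_of_le_one_right h2 h1
      rw [add_mul, add_mul, t1, t2]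
      linarith
    have h5 : cA / (48 * k) * (2 * |δ| + E1 Cm Cu Cp r k M) ≤
        (cA / 48 * (3 / (2 * r ^ 2) + E)) / k := by
      rw [le_div_iff₀ hk0]
      have : cA / (48 * k) * (2 * |δ| + E1 Cm Cu Cp r k M) * k =
          cA / 48 * (2 * |δ| + E1 Cm Cu Cp r k M) := by field_simp
      rw [this]
      refine mul_le_mul_of_nonneg_left (add_le_add hδ4 hE1) (by positivity)
    have h6 : 2 * |δ + cA / 96| ≤ 2 * ((25 * Cm * (Cs / 8 + Cp / 4) + 43 * Cm * M + 2 / r ^ 2) / k +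
        (cA / 48 * (3 / (2 * r ^ 2) + E)) / k) := by linarith
    refine h6.trans ?_
    rw [← add_div, mul_div_assoc', div_le_div_iff_of_pos_right hk0, hK]
    obtain ⟨a₁, ha₁⟩ : ∃ a₁ : ℝ, a₁ = 25 * Cm * (Cs / 8 + Cp / 4) := ⟨_, rfl⟩
    obtain ⟨a₂, ha₂⟩ : ∃ a₂ : ℝ, a₂ = 2 / r ^ 2 := ⟨_, rfl⟩
    obtain ⟨a₃, ha₃⟩ : ∃ a₃ : ℝ, a₃ = cA / 48 * (3 / (2 * r ^ 2) + E) := ⟨_, rfl⟩
    obtain ⟨a₄, ha₄⟩ : ∃ a₄ : ℝ, a₄ = 3 / (2 * r ^ 2) := ⟨_, rfl⟩
    obtain ⟨a₅, ha₅⟩ : ∃ a₅ : ℝ, a₅ = 3 / (2 * r ^ 4) := ⟨_, rfl⟩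
    have p1 : 0 ≤ a₁ := by rw [ha₁]; positivity
    have p2 : 0 ≤ a₂ := by rw [ha₂]; positivity
    have p3 : 0 ≤ a₃ := by rw [ha₃]; positivity
    have p4 : 0 ≤ a₄ := by rw [ha₄]; positivity
    have p5 : 0 ≤ a₅ := by rw [ha₅]; positivity
    rw [← ha₃, ← ha₁, ← ha₂, ← ha₄, ← ha₅]
    have g1 := mul_nonneg p1 hM
    have g2 := mul_nonneg p2 hM
    have g3 := mul_nonneg p3 hM
    have g4 := mul_nonneg p4 hM
    have g5 := mul_nonneg p5 hM
    have g6 := mul_nonneg hCm.le hM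
    linarith
  · refine hk'1.trans ?_
    rw [hK]
    have g1 : 0 ≤ 3 / (2 * r ^ 4) := by positivity
    have g2 : 0 ≤ 2 * (25 * Cm * (Cs / 8 + Cp / 4) + 43 * Cm + 2 / r ^ 2 +
      cA / 48 * (3 / (2 * r ^ 2) + E)) := by positivity
    linarith
  · refine hM'1.trans ?_
    rw [hK]
    have g1 : 0 ≤ 3 / (2 * r ^ 2) := by positivity
    have g2 : 0 ≤ 2 * (25 * Cm * (Cs / 8 + Cp / 4) + 43 * Cm + 2 / r ^ 2 +
      cA / 48 * (3 / (2 * r ^ 2) + E)) := by positivity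
    linarith

end

end Pool.Agent.N988.MK
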