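import Mathlib
import Pool.Agent.N988.MK.Step
import Pool.Agent.N991.MK.Low
import Pool.Agent.N991.MK.WilT

/-!
# The renormalisation group step on states
-/

open MeasureTheory Filter Metric Asymptotics Matrix
open scoped Matrix.Norms.Frobenius Topology ContDiff
open Pool.Agent.H906R3.YM Pool.Agent.W793.YM Pool.Agent.TH618.YM Pool.Agent.N984.TW
open Pool.Agent.N991.MK

namespace Pool.Agent.N988.MK

set_option linter.unusedSectionVars false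

noncomputable section

variable {N n : ℕ} {G : Subgroup (UN N)} {B : Frame G n} {hG : IsClosed (G : Set (UN N))}
variable [CompactSpace G] [MeasurableSpace G] [BorelSpace G] {μ : Measure G}
  [IsProbabilityMeasure μ] [μ.IsMulLeftInvariant] [μ.IsMulRightInvariant] [μ.IsInvInvariant]
variable {r k M cA : ℝ} {F : (Mat N)ˣ → ℂ} {m : (Fin n → ℂ) → ℂ} {f : G → ℝ}

lemma St.pow4 (hs : St B r k M F m) : St B r (4 * k) (4 * M) (fun u => F u ^ 4)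
    (fun x => 4 * m x) := by
  have h := hs.sq.sq
  have e1 : (2 : ℝ) * (2 * k) = 4 * k := by ring
  have e2 : (2 : ℝ) * (2 * M) = 4 * M := by ring
  have e3 : (fun u : (Mat N)ˣ => (F u ^ 2) ^ 2) = fun u => F u ^ 4 := by
    funext u; ring
  have e4 : (fun x : Fin n → ℂ => 2 * (2 * m x)) = fun x => 4 * m x := by
    funext x; ring
  rw [e1, e2, e3, e4] at h
  exact h

lemma tube_pow4 (ht : Tube B r k F) : Tube B r (4 * k) (fun u => F u ^ 4) := by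
  have h := ht.sq.sq
  have e1 : (2 : ℝ) * (2 * k) = 4 * k := by ring
  have e3 : (fun u : (Mat N)ˣ => (F u ^ 2) ^ 2) = fun u => F u ^ 4 := by
    funext u; ring
  rw [e1, e3] at h
  exact h

variable (μ) in
/-- **one step of the recursion** -/
theorem step_R (hG : IsClosed (G : Set (UN N))) (hI : IsoG B) (hn : 0 < n)
    (hcA : ∀ x : Fin n → ℝ, ∑ a, ‖LX B x * B.X a - B.X a * LX B x‖ ^ 2 = cA * nE x ^ 2) :
    ∃ r₁ ε₁ : ℝ, 0 < r₁ ∧ 0 < ε₁ ∧ ε₁ ≤ 1 / 1000 ∧ ∀ ε : ℝ, 0 < ε → ε ≤ ε₁ →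
      ∀ r : ℝ, 0 < r → r ≤ r₁ → GoodR B r ∧
      ∃ k₀ K : ℝ, 1 ≤ k₀ ∧ 0 ≤ K ∧ ∀ {k M : ℝ} {f : G → ℝ} {F : (Mat N)ˣ → ℂ}
        {m : (Fin n → ℂ) → ℂ}, k₀ ≤ k → 0 ≤ M → M * r ^ 2 ≤ ε * k → CF f F → (∀ x, 0 < f x) →
        St B r k M F m → Tube B r k F →
        ∃ (k' M' : ℝ) (m' : (Fin n → ℂ) → ℂ), |k' - (k - cA / 8)| ≤ K * (1 + M) / k ∧
          |k' - k| ≤ K ∧ 0 ≤ M' ∧ M' ≤ M / 16 + K ∧ M' * r ^ 2 ≤ ε * k' ∧
          St B r k' M' (fun u => convC μ (convC μ F F) (convC μ F F) u ^ 4) m' ∧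
          Tube B r k' (fun u => convC μ (convC μ F F) (convC μ F F) u ^ 4) := by
  obtain ⟨r₁, ε₁, hr₁, hε₁, hε1, hD⟩ := step_D (B := B) μ hG hI hn hcA
  refine ⟨r₁, ε₁, hr₁, hε₁, hε1, fun ε hε hεε r hr hrr => ?_⟩
  obtain ⟨hgr, k₀, K, hk₀, hK, hD⟩ := hD ε hε hεε r hr hrr
  refine ⟨hgr, max (2 * k₀ + 2 * K) (4 * K), 6 * K + (2 * K + 16 * K * (1 + K)),
    ?_, by positivity, fun {k M f F m} hk hM hMr hf hpos hs ht => ?_⟩
  · exact le_trans (by linarith) (le_max_left _ _)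
  have hk1 : 2 * k₀ + 2 * K ≤ k := (le_max_left _ _).trans hk
  have hk2 : 4 * K ≤ k := (le_max_right _ _).trans hk
  have hk0 : 0 < k := by linarith
  obtain ⟨k₁, M₁, m₁, a1, a2, a3, a4, a5, a6, a7⟩ := hD (by linarith) hM hMr hf hpos hs ht
  have hf1 : CF (Pool.Agent.N991.MK.conv μ f f) (convC μ F F) := hf.convC hf
  have hp1 : ∀ x, 0 < Pool.Agent.N991.MK.conv μ f f x := conv_pos hf.cont hf.cont hpos hpos
  have a2' := abs_le.1 a2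
  have hk₁ : k₀ ≤ k₁ := by linarith [a2'.1]
  have hk₁' : k / 4 ≤ k₁ := by linarith [a2'.1]
  obtain ⟨k₂, M₂, m₂, b1, b2, b3, b4, b5, b6, b7⟩ := hD hk₁ a3 a5 hf1 hp1 a6 a7
  refine ⟨4 * k₂, 4 * M₂, fun x => 4 * m₂ x, ?_, ?_, by positivity, ?_, ?_, b6.pow4, tube_pow4 b7⟩
  · have e : 4 * k₂ - (k - cA / 8) = 2 * (k₁ - (k / 2 - cA / 48)) +
        4 * (k₂ - (k₁ / 2 - cA / 48)) := by ring
    rw [e]
    refine (abs_add_le _ _).trans ?_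
    rw [abs_mul, abs_mul, abs_two, abs_of_pos (by norm_num : (0 : ℝ) < 4)]
    have h1 : K * (1 + M₁) / k₁ ≤ 4 * K * (1 + K) * (1 + M) / k := by
      rw [div_le_div_iff₀ (by linarith) hk0]
      have h2 : K * (1 + M₁) ≤ K * ((1 + K) * (1 + M)) := by
        refine mul_le_mul_of_nonneg_left ?_ hK
        nlinarith [mul_nonneg hK hM]
      calc K * (1 + M₁) * k ≤ K * ((1 + K) * (1 + M)) * k :=
            mul_le_mul_of_nonneg_right h2 hk0.le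
        _ ≤ K * ((1 + K) * (1 + M)) * (4 * k₁) :=
            mul_le_mul_of_nonneg_left (by linarith) (by positivity)
        _ = _ := by ring
    calc 2 * |k₁ - (k / 2 - cA / 48)| + 4 * |k₂ - (k₁ / 2 - cA / 48)|
        ≤ 2 * (K * (1 + M) / k) + 4 * (4 * K * (1 + K) * (1 + M) / k) := by linarith
      _ = (2 * K + 16 * K * (1 + K)) * (1 + M) / k := by ring
      _ ≤ (6 * K + (2 * K + 16 * K * (1 + K))) * (1 + M) / k := by
          refine div_le_div_of_nonneg_right ?_ hk0.le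
          refine mul_le_mul_of_nonneg_right ?_ (by linarith)
          linarith
  · have e : 4 * k₂ - k = 4 * (k₂ - k₁ / 2) + 2 * (k₁ - k / 2) := by ring
    rw [e]
    refine (abs_add_le _ _).trans ?_
    rw [abs_mul, abs_mul, abs_two, abs_of_pos (by norm_num : (0 : ℝ) < 4)]
    have : 0 ≤ 2 * K + 16 * K * (1 + K) := by positivity
    linarith
  · have : 0 ≤ 16 * K * (1 + K) := by positivity
    linarith
  · calc 4 * M₂ * r ^ 2 = 4 * (M₂ * r ^ 2) := by ring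
      _ ≤ 4 * (ε * k₂) := by linarith
      _ = _ := by ring

variable (B μ) in
/-- the states of the flow -/
def FSt (r ε h0 C1 : ℝ) (f : G → ℝ) (k M : ℝ) : Prop :=
  ∃ (F : (Mat N)ˣ → ℂ) (m : (Fin n → ℂ) → ℂ), CF f F ∧ (∀ x, 0 < f x) ∧ St B r k M F m ∧
    Tube B r k F ∧ 0 ≤ M ∧ M * r ^ 2 ≤ ε * k ∧ Chain μ B r h0 C1 f F k M

variable (μ) in
/-- **the flow of states** -/
theorem flow_R (hG : IsClosed (G : Set (UN N))) (hI : IsoG B) (hn : 0 < n)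
    (hcA : ∀ x : Fin n → ℝ, ∑ a, ‖LX B x * B.X a - B.X a * LX B x‖ ^ 2 = cA * nE x ^ 2)
    (Λ : ℝ) :
    ∃ r₁ ε₁ : ℝ, 0 < r₁ ∧ 0 < ε₁ ∧ ε₁ ≤ 1 / 1000 ∧ ∀ ε : ℝ, 0 < ε → ε ≤ ε₁ →
      ∀ r : ℝ, 0 < r → r ≤ r₁ → GoodR B r ∧
      ∃ h0 K : ℝ, 1 ≤ h0 ∧ 0 ≤ K ∧ Λ ≤ K ∧ ∀ {k M : ℝ} {f : G → ℝ}, h0 ≤ k →
        FSt B μ r ε h0 K f k M → ∃ k' M' : ℝ, |k' - (k - cA / 8)| ≤ K * (1 + M) / k ∧
          |k' - k| ≤ K ∧ M' ≤ M / 16 + K ∧ FSt B μ r ε h0 K (Rst μ f) k' M' := by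
  obtain ⟨r₁, ε₁, hr₁, hε₁, hε1, hD⟩ := step_R (B := B) μ hG hI hn hcA
  refine ⟨r₁, ε₁, hr₁, hε₁, hε1, fun ε hε hεε r hr hrr => ?_⟩
  obtain ⟨hgr, k₀, K₀, hk₀, hK₀, hD⟩ := hD ε hε hεε r hr hrr
  obtain ⟨K, hKd⟩ : ∃ K, K = max K₀ Λ := ⟨_, rfl⟩
  have hK1 : K₀ ≤ K := by rw [hKd]; exact le_max_left _ _
  have hK2 : Λ ≤ K := by rw [hKd]; exact le_max_right _ _
  have hK : 0 ≤ K := hK₀.trans hK1
  refine ⟨hgr, k₀, K, hk₀, hK, hK2, fun {k M f} hk hst => ?_⟩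
  obtain ⟨F, m, hf, hpos, hs, ht, hM, hMr, hch⟩ := hst
  obtain ⟨k', M', m', b1, b2, b3, b4, b5, b6, b7⟩ := hD hk hM hMr hf hpos hs ht
  have hk0 : 0 < k := by linarith
  replace b1 : |k' - (k - cA / 8)| ≤ K * (1 + M) / k := b1.trans
    (div_le_div_of_nonneg_right (mul_le_mul_of_nonneg_right hK1 (by linarith)) hk0.le)
  replace b2 : |k' - k| ≤ K := b2.trans hK1
  replace b4 : M' ≤ M / 16 + K := b4.trans (by linarith)
  have hf1 : CF (Pool.Agent.N991.MK.conv μ f f) (convC μ F F) := hf.convC hf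
  have hp1 : ∀ x, 0 < Pool.Agent.N991.MK.conv μ f f x := conv_pos hf.cont hf.cont hpos hpos
  have hf2 := (hf1.convC hf1 (μ := μ)).pow 4
  have hp2 : ∀ x, 0 < Rst μ f x := fun x => pow_pos (conv_pos hf1.cont hf1.cont hp1 hp1 x) 4
  refine ⟨k', M', b1, b2, b4, _, m', hf2, hp2, b6, b7, b3, b5, ?_⟩
  exact Chain.step f F k M k' M' hch hk b2 hf hpos (by nlinarith) hs.nearS ht

end

end Pool.Agent.N988.MK
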