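import Mathlib
import Pool.Agent.N988.MK.Flow
import Pool.Agent.N991.MK.Iso
import Pool.Agent.N991.MK.WilS
import Pool.Agent.N991.MK.Scv
import Pool.Agent.N989.MK.Flow
import Pool.Agent.N989.MK.Char

/-!
# The weak coupling flow of the hierarchical model
-/

open MeasureTheory Filter Metric Asymptotics Matrix
open scoped Matrix.Norms.Frobenius Topology ContDiff
open Pool.Agent.H906R3.YM Pool.Agent.W793.YM Pool.Agent.TH618.YM Pool.Agent.N984.TW
open Pool.Agent.N991.MK

namespace Pool.Agent.N988.MK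

set_option linter.unusedSectionVars false

noncomputable section

variable {N n : ℕ} {G : Subgroup (UN N)} {B : Frame G n} {hG : IsClosed (G : Set (UN N))}
variable [CompactSpace G] [MeasurableSpace G] [BorelSpace G] [SecondCountableTopology G]
  {μ : Measure G} [IsProbabilityMeasure μ] [μ.IsHaarMeasure] [μ.IsMulRightInvariant]
  [μ.IsInvInvariant]

variable (B μ) in
/-- the weak coupling expansion of the Wilson observable on the states -/
def WilLaw : Prop := ∃ r2 : ℝ, 0 < r2 ∧ ∀ r : ℝ, 0 < r → r ≤ r2 → GoodR B r →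
  ∃ k0 C : ℝ, 1 ≤ k0 ∧ 0 ≤ C ∧ ∀ {k M : ℝ} {f : G → ℝ} {F : (Mat N)ˣ → ℂ}
    {m : (Fin n → ℂ) → ℂ}, k0 ≤ k → 0 ≤ M → M * r ^ 2 ≤ k / 1000 → CF f F → (∀ x, 0 < f x) →
    St B r k M F m → Tube B r k F →
    |1 - Pool.Agent.N989.MK.WW μ (Pool.Agent.N989.MK.chi G) f - (n / (2 * N) : ℝ) / k| ≤
      C * (1 + M) / k ^ 2

variable (B μ) in
/-- the states of the flow, with the quartic coefficient measured in units of the coupling -/
def PSt (r ε h1 C1 : ℝ) (f : G → ℝ) (h ρ : ℝ) : Prop :=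
  0 ≤ ρ ∧ FSt B μ r ε h1 C1 f h (ρ * h)

include hG in
/-- **the weak coupling flow** -/
theorem exists_flow [ConnectedSpace G]
    (hnc : ∃ g h : G, g * h ≠ h * g)
    (hs : ∀ H : Subgroup G, H.Normal → IsClosed (H : Set G) → Finite H ∨ H = ⊤)
    (hW : WilLaw B μ) {cA : ℝ} (hcA0 : 0 < cA)
    (hcA : ∀ x : Fin n → ℝ,
      ∑ a, ‖LX B x * B.X a - B.X a * LX B x‖ ^ 2 = cA * ∑ a, x a ^ 2) :
    ∃ (P : (G → ℝ) → ℝ → ℝ → Prop) (h0 C R : ℝ),
      Pool.Agent.N989.MK.Flow μ (Pool.Agent.N989.MK.chi G) (Pool.Agent.N989.MK.EDG B hG)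
        (Pool.Agent.N989.MK.wz G) P (cA / 8) h0 C (n / (2 * N) : ℝ) R := by
  have hI : IsoG B := isoG_of_simple B hG hnc hs
  have hn : 0 < n := by
    rcases Nat.eq_zero_or_pos n with hn | hn
    · exfalso
      subst hn
      obtain ⟨m, hm⟩ := Pool.Agent.N989.MK.exists_gen B hG
        (isConnected_iff_connectedSpace.2 inferInstance)
      have h1 : ∀ x : G, x = 1 := by
        intro x
        obtain ⟨l, _, _, hl⟩ := hm x
        rw [hl]
        refine List.prod_eq_one fun y hy => ?_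
        obtain ⟨X, _, rfl⟩ := List.mem_map.1 hy
        have h0 : X = 0 := Subsingleton.elim _ _
        rw [h0]
        exact Eg_zero B hG
      obtain ⟨g, h, hgh⟩ := hnc
      exact hgh (by rw [h1 g, h1 h])
    · exact hn
  obtain ⟨r₁, ε, hr₁, hε, hε1, hflow⟩ := flow_R (B := B) μ hG hI hn (cA := cA) (fun x => by
    rw [hcA x, Pool.Agent.N991.MK.nE_sq]) (2 * N)
  obtain ⟨CW, r₂, hCW, hr₂, hws⟩ := wil_state B
  obtain ⟨r₃, hr₃, hwt⟩ := tube_wil B
  obtain ⟨r₄, hr₄, hwl⟩ := hW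
  have hε' : 0 < ε / (CW + 1) := by positivity
  set r : ℝ := min (min r₁ r₂) (min (min r₃ r₄) (min 1 (ε / (CW + 1)))) with hrdef
  have hr : 0 < r := by
    rw [hrdef]
    refine lt_min (lt_min hr₁ hr₂) (lt_min (lt_min hr₃ hr₄) (lt_min one_pos hε'))
  have hrr₁ : r ≤ r₁ := (min_le_left _ _).trans (min_le_left _ _)
  have hrr₂ : r ≤ r₂ := (min_le_left _ _).trans (min_le_right _ _)
  have hrr₃ : r ≤ r₃ := (min_le_right _ _).trans ((min_le_left _ _).trans (min_le_left _ _))
  have hrr₄ : r ≤ r₄ := (min_le_right _ _).trans ((min_le_left _ _).trans (min_le_right _ _))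
  have hr1 : r ≤ 1 := (min_le_right _ _).trans ((min_le_right _ _).trans (min_le_left _ _))
  have hrε : r ≤ ε / (CW + 1) :=
    (min_le_right _ _).trans ((min_le_right _ _).trans (min_le_right _ _))
  have hCWr : CW * r ^ 2 ≤ ε := by
    have h1 : r ^ 2 ≤ r := by nlinarith
    have h2 : r * (CW + 1) ≤ ε := (le_div_iff₀ (by positivity)).1 hrε
    nlinarith
  obtain ⟨hgr, h1, K, hh1, hK, hKN, hstep⟩ := hflow ε hε le_rfl r hr hrr₁
  obtain ⟨k0, C, hk0, hC, hwl⟩ := hwl r hr hrr₄ hgr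
  have hsc := fun H => Chain.sc (μ := μ) (C1 := K) (h0 := h1) hG hgr (by linarith) H
  refine ⟨PSt B μ r ε h1 K, max (max h1 k0) (2 * K), max (2 * K) C, CW, ?_⟩
  have m1 : h1 ≤ max (max h1 k0) (2 * K) := (le_max_left _ _).trans (le_max_left _ _)
  have m2 : k0 ≤ max (max h1 k0) (2 * K) := (le_max_right _ _).trans (le_max_left _ _)
  have m3 : 2 * K ≤ max (max h1 k0) (2 * K) := le_max_right _ _
  have m4 : 2 * K ≤ max (2 * K) C := le_max_left _ _
  have m5 : C ≤ max (2 * K) C := le_max_right _ _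
  refine ⟨by positivity, by linarith, by linarith, by positivity, hCW, fun f h ρ h => h.1, ?_, ?_,
    ?_, ?_⟩
  · -- start
    intro β hβ
    have hβ0 : 0 ≤ β := by linarith
    refine ⟨CW, le_rfl, hCW, wilC N β, mW B β, CF_wil β, fun x => Real.exp_pos _,
      hws r hr hrr₂ β hβ0, hwt r hr hrr₃ β hβ0, by positivity, by nlinarith, ?_⟩
    exact Chain.base_wil hβ0 (m1.trans hβ) hKN
  · -- step
    intro f h ρ hP hh
    obtain ⟨hρ, hst⟩ := hP
    have hh0 : 0 < h := by linarith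
    obtain ⟨k', M', a1, a2, a3, a4⟩ := hstep (m1.trans hh) hst
    have a2' := abs_le.1 a2
    have hk' : h / 2 ≤ k' := by linarith [a2'.1]
    have hk0' : 0 < k' := by linarith
    have hM' : 0 ≤ M' := by
      obtain ⟨F, m, _, _, _, _, h5, _⟩ := a4
      exact h5
    refine ⟨k', M' / k', ⟨by positivity, ?_⟩, ?_, ?_⟩
    · rw [div_mul_cancel₀ _ hk0'.ne']
      exact a4
    · have e : k' - h + cA / 8 = k' - (h - cA / 8) := by ring
      rw [e]
      refine a1.trans ?_
      have e2 : K * (1 + ρ * h) / h = K * (ρ + 1 / h) := by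
        field_simp
        ring
      rw [e2]
      refine mul_le_mul_of_nonneg_right ?_ (by positivity)
      linarith
    · rw [div_le_iff₀ hk0']
      have e3 : (ρ / 4 + max (2 * K) C / h) * (h / 2) = ρ * h / 8 + max (2 * K) C / 2 := by
        field_simp
        ring
      have e4 : (ρ / 4 + max (2 * K) C / h) * (h / 2) ≤ (ρ / 4 + max (2 * K) C / h) * k' := by
        have : 0 ≤ ρ / 4 + max (2 * K) C / h := by
          have : 0 ≤ max (2 * K) C := by linarith
          positivity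
        exact mul_le_mul_of_nonneg_left hk' this
      have e5 : 0 ≤ ρ * h := by positivity
      linarith
  · -- the Wilson observable
    intro f h ρ hP hh
    obtain ⟨hρ, F, m, b1, b2, b3, b4, b5, b6, b7⟩ := hP
    have hh0 : 0 < h := by linarith
    refine (hwl (m2.trans hh) b5 (by nlinarith) b1 b2 b3 b4).trans ?_
    have e2 : C * (1 + ρ * h) / h ^ 2 = C * (ρ + 1 / h) / h := by
      field_simp
      ring
    rw [e2]
    refine div_le_div_of_nonneg_right (mul_le_mul_of_nonneg_right m5 (by positivity)) hh0.le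
  · -- the entropy bound
    intro H
    obtain ⟨K', hK', hsc'⟩ := hsc H
    refine ⟨K', hK', fun f h ρ hP hh hH X x => ?_⟩
    obtain ⟨hρ, F, m, b1, b2, b3, b4, b5, b6, b7⟩ := hP
    have hh0 : 0 < h := by linarith
    exact hsc' b7 (m1.trans hh) hH b1 b2 (by nlinarith) b3.nearS b4 X x

end

end Pool.Agent.N988.MK
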