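import Mathlib
import Pool.Agent.N991.MK.Conv

/-!
# The tangent map of the renormalisation group step: algebra
-/

open MeasureTheory Filter Metric Asymptotics Matrix
open scoped Topology
open Pool.Agent.N991.MK (conv)

namespace Pool.Agent.N988.MK

set_option linter.unusedSectionVars false

noncomputable section

variable {G : Type*} [Group G] [TopologicalSpace G] [IsTopologicalGroup G] [CompactSpace G]
  [MeasurableSpace G] [BorelSpace G]

/-- the function normalised at the identity -/
def nf (f : G → ℝ) (x : G) : ℝ := (f 1)⁻¹ * f x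

/-- the tangent vector of the function normalised at the identity -/
def ng (f g : G → ℝ) (x : G) : ℝ := (f 1)⁻¹ * (g x - g 1 * (f 1)⁻¹ * f x)

/-- the tangent map of the convolution square -/
def dcv (μ : Measure G) (f g : G → ℝ) (x : G) : ℝ := conv μ f g x + conv μ g f x

/-- the tangent map of the renormalisation group step -/
def dTT (μ : Measure G) (f g : G → ℝ) (x : G) : ℝ :=
  4 * conv μ (conv μ f f) (conv μ f f) x ^ 3 * dcv μ (conv μ f f) (dcv μ f g) x

lemma ng_one (f g : G → ℝ) (hf : f 1 ≠ 0) : ng f g 1 = 0 := by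
  unfold ng
  field_simp
  ring

lemma nf_one (f : G → ℝ) (hf : f 1 ≠ 0) : nf f 1 = 1 := inv_mul_cancel₀ hf

lemma nf_lin {f f' : G → ℝ} {c : ℝ} (hc : c ≠ 0) (h1 : ∀ x, f' x = c * f x) (x : G) :
    nf f' x = nf f x := by
  unfold nf
  rw [h1, h1, mul_inv]
  calc c⁻¹ * (f 1)⁻¹ * (c * f x) = (c⁻¹ * c) * ((f 1)⁻¹ * f x) := by ring
    _ = _ := by rw [inv_mul_cancel₀ hc, one_mul]

lemma ng_lin {f g f' g' : G → ℝ} {c d e : ℝ} (hf : f 1 ≠ 0) (hc : c ≠ 0)
    (h1 : ∀ x, f' x = c * f x) (h2 : ∀ x, g' x = d * g x + e * f x) (x : G) :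
    ng f' g' x = d / c * ng f g x := by
  unfold ng
  rw [h1, h1, h2, h2]
  field_simp
  ring_nf

lemma nf_pow {f : G → ℝ} (x : G) : nf (fun x => f x ^ 4) x = nf f x ^ 4 := by
  unfold nf
  rw [mul_pow, inv_pow]

lemma ng_pow {f g : G → ℝ} (hf : f 1 ≠ 0) (x : G) :
    ng (fun x => f x ^ 4) (fun x => 4 * f x ^ 3 * g x) x = 4 * nf f x ^ 3 * ng f g x := by
  unfold ng nf
  field_simp

/-- the function from its normalisation -/
lemma eq_nf {f : G → ℝ} (hf : f 1 ≠ 0) (x : G) : f x = f 1 * nf f x := by
  unfold nf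
  field_simp

lemma eq_ng {f g : G → ℝ} (hf : f 1 ≠ 0) (x : G) : g x = f 1 * ng f g x + g 1 * nf f x := by
  unfold ng nf
  field_simp
  ring

variable {μ : Measure G} [IsProbabilityMeasure μ]

lemma conv_lin {f g f' g' : G → ℝ} {c d e : ℝ} (hf : Continuous f) (hg : Continuous g)
    (h1 : ∀ x, f' x = c * f x) (h2 : ∀ x, g' x = d * g x + e * f x) (x : G) :
    conv μ f' g' x = c * d * conv μ f g x + c * e * conv μ f f x := by
  unfold Pool.Agent.N991.MK.conv
  have i1 : Integrable (fun y => f y * g (y⁻¹ * x)) μ :=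
    Continuous.integrable_of_hasCompactSupport (by fun_prop) (HasCompactSupport.of_compactSpace _)
  have i2 : Integrable (fun y => f y * f (y⁻¹ * x)) μ :=
    Continuous.integrable_of_hasCompactSupport (by fun_prop) (HasCompactSupport.of_compactSpace _)
  rw [← integral_const_mul, ← integral_const_mul, ← integral_add (i1.const_mul _)
    (i2.const_mul _)]
  refine integral_congr_ae (Eventually.of_forall fun y => ?_)
  beta_reduce
  rw [h1, h2]
  ring

lemma conv_lin' {f g f' g' : G → ℝ} {c d e : ℝ} (hf : Continuous f) (hg : Continuous g)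
    (h1 : ∀ x, f' x = c * f x) (h2 : ∀ x, g' x = d * g x + e * f x) (x : G) :
    conv μ g' f' x = c * d * conv μ g f x + c * e * conv μ f f x := by
  unfold Pool.Agent.N991.MK.conv
  have i1 : Integrable (fun y => g y * f (y⁻¹ * x)) μ :=
    Continuous.integrable_of_hasCompactSupport (by fun_prop) (HasCompactSupport.of_compactSpace _)
  have i2 : Integrable (fun y => f y * f (y⁻¹ * x)) μ :=
    Continuous.integrable_of_hasCompactSupport (by fun_prop) (HasCompactSupport.of_compactSpace _)
  rw [← integral_const_mul, ← integral_const_mul, ← integral_add (i1.const_mul _)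
    (i2.const_mul _)]
  refine integral_congr_ae (Eventually.of_forall fun y => ?_)
  beta_reduce
  rw [h1, h2]
  ring

lemma conv_sq_lin {f f' : G → ℝ} {c : ℝ} (h1 : ∀ x, f' x = c * f x) (x : G) :
    conv μ f' f' x = c ^ 2 * conv μ f f x := by
  unfold Pool.Agent.N991.MK.conv
  rw [← integral_const_mul]
  refine integral_congr_ae (Eventually.of_forall fun y => ?_)
  beta_reduce
  rw [h1, h1]
  ring

lemma dcv_lin {f g f' g' : G → ℝ} {c d e : ℝ} (hf : Continuous f) (hg : Continuous g)
    (h1 : ∀ x, f' x = c * f x) (h2 : ∀ x, g' x = d * g x + e * f x) (x : G) :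
    dcv μ f' g' x = c * d * dcv μ f g x + 2 * c * e * conv μ f f x := by
  unfold dcv
  rw [conv_lin hf hg h1 h2, conv_lin' hf hg h1 h2]
  ring

end

end Pool.Agent.N988.MK
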