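import Mathlib
import Pool.Agent.N988.MK.State

/-!
# Uniqueness of the state, and the difference of two states
-/

open MeasureTheory Filter Metric Asymptotics Matrix
open scoped Matrix.Norms.Frobenius Topology ContDiff
open Pool.Agent.H906R3.YM Pool.Agent.W793.YM Pool.Agent.TH618.YM Pool.Agent.N984.TW
open Pool.Agent.N991.MK

namespace Pool.Agent.N988.MK

set_option linter.unusedSectionVars false

noncomputable section

variable {N n : ℕ} {G : Subgroup (UN N)} {B : Frame G n} {hG : IsClosed (G : Set (UN N))}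
variable {r₀ C : ℝ} {b : (Fin n → ℂ) → (Fin n → ℂ) → (Fin n → ℂ)}

section

variable [CompactSpace G] [MeasurableSpace G] [BorelSpace G]

/-- the extension of a class function is unique on the complexified exponentials -/
theorem cf_ext (hG : IsClosed (G : Set (UN N))) {f : G → ℝ} {F F' : (Mat N)ˣ → ℂ}
    (h : CF f F) (h' : CF f F') (x : Fin n → ℂ) : F (uE B x) = F' (uE B x) := by
  set a := reP x
  set b := imP x
  have h1 : (fun s : ℂ => F (uE B (ln a b s))) = fun s : ℂ => F' (uE B (ln a b s)) := by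
    refine eq_of_real_eq ?_ ?_ ?_
    · exact ContDiff.differentiable (h.hol.curve (u := fun s => uE B (ln a b s))
        (EC_ln_contDiff B a b) (EC_ln_contDiff' B a b)) (by simp)
    · exact ContDiff.differentiable (h'.hol.curve (u := fun s => uE B (ln a b s))
        (EC_ln_contDiff B a b) (EC_ln_contDiff' B a b)) (by simp)
    · intro t
      rw [ln_real, uE_rl B hG, h.res, h'.res]
  have h2 := congrFun h1 Complex.I
  beta_reduce at h2
  rwa [ln_I] at h2

end

variable {r k k' M M' : ℝ} {F F' : (Mat N)ˣ → ℂ} {m m' : (Fin n → ℂ) → ℂ} {f : G → ℝ}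

/-- the data of a state are unique -/
theorem St.uniq (hs : St B r k M F m) (hs' : St B r k' M' F' m') (hr : 0 < r) (hn : 0 < n)
    (h1 : F 1 ≠ 0) (heq : ∀ x, F (uE B x) = F' (uE B x)) :
    k = k' ∧ ∀ x, nC x < r → m x = m' x := by
  have hF1 : F 1 = F' 1 := by
    have := heq 0
    rwa [uE_zero] at this
  have key : ∀ x, nC x < r → ((k' - k) / 2 : ℂ) * qC x + (m' x - m x) = 0 := by
    intro x hx
    obtain ⟨D, hD⟩ : ∃ D : ℝ → ℂ, D = fun t : ℝ => ((k' - k) / 2 : ℂ) * qC ((t : ℂ) • x) +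
      (m' ((t : ℂ) • x) - m ((t : ℂ) • x)) := ⟨_, rfl⟩
    have ht : ∀ t ∈ Set.Icc (0 : ℝ) 1, nC ((t : ℂ) • x) < r := by
      intro t ht
      rw [nC_smul, Complex.norm_real, Real.norm_eq_abs, abs_of_nonneg ht.1]
      have : t * nC x ≤ 1 * nC x := mul_le_mul_of_nonneg_right ht.2 (nC_nonneg x)
      linarith
    have hcont : ContinuousOn D (Set.Icc 0 1) := by
      intro t htm
      refine ContinuousAt.continuousWithinAt ?_
      rw [hD]
      have c1 : ContinuousAt (fun t : ℝ => (t : ℂ) • x) t := by fun_prop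
      have e1 : ContinuousAt (fun t : ℝ => m' ((t : ℂ) • x)) t :=
        ContinuousAt.comp (f := fun t : ℝ => (t : ℂ) • x) (g := m') (hs'.md _ (ht t htm)).continuousAt c1
      have e2 : ContinuousAt (fun t : ℝ => m ((t : ℂ) • x)) t :=
        ContinuousAt.comp (f := fun t : ℝ => (t : ℂ) • x) (g := m) (hs.md _ (ht t htm)).continuousAt c1
      have e3 : ContinuousAt (fun t : ℝ => qC ((t : ℂ) • x)) t :=
        ContinuousAt.comp (f := fun t : ℝ => (t : ℂ) • x) (g := qC)
          (qC_diff.continuous.continuousAt) c1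
      exact (continuousAt_const.mul e3).add (e1.sub e2)
    have hexp : ∀ t ∈ Set.Icc (0 : ℝ) 1, Complex.exp (D t) = 1 := by
      intro t htm
      have h2 := ht t htm
      obtain ⟨x', hx'⟩ : ∃ x', x' = (t : ℂ) • x := ⟨_, rfl⟩
      rw [hD]
      beta_reduce
      rw [← hx']
      rw [← hx'] at h2
      have e1 := hs.eq x' h2
      have e2 := hs'.eq x' h2
      rw [heq, e2, ← hF1] at e1
      have e3 := mul_left_cancel₀ h1 e1
      have e4 : ((k' - k) / 2 : ℂ) * qC x' + (m' x' - m x') =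
          (-(k / 2 : ℂ) * qC x' - m x') - (-(k' / 2 : ℂ) * qC x' - m' x') := by ring
      rw [e4, Complex.exp_sub, ← e3, div_self (Complex.exp_ne_zero _)]
    have h0 : D 0 = 0 := by
      rw [hD]
      simp only [Complex.ofReal_zero, zero_smul, qC_zero, hs.m0 hr, hs'.m0 hr]
      ring
    have := int_path hcont h0 hexp
    rw [hD] at this
    simpa only [Complex.ofReal_one, one_smul] using this
  have hkk : k = k' := by
    obtain ⟨e, he⟩ : ∃ e : Fin n → ℂ, e = Pi.single (⟨0, hn⟩ : Fin n) (1 : ℂ) := ⟨_, rfl⟩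
    have hne : nC e = 1 := by
      unfold nC
      rw [he, Finset.sum_eq_single (⟨0, hn⟩ : Fin n)]
      · simp
      · intro c _ hc
        simp [hc]
      · intro h; exact absurd (Finset.mem_univ _) h
    have hqe : qC e = 1 := by
      unfold qC
      rw [he, Finset.sum_eq_single (⟨0, hn⟩ : Fin n)]
      · simp
      · intro c _ hc
        simp [hc]
      · intro h; exact absurd (Finset.mem_univ _) h
    have h2 : ∀ s : ℝ, 0 < s → s < r → |k' - k| / 2 ≤ (M + M') * s ^ 2 := by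
      intro s hs0 hsr
      have hns : nC ((s : ℂ) • e) = s := by
        rw [nC_smul, hne, mul_one, Complex.norm_real, Real.norm_eq_abs, abs_of_pos hs0]
      have hsr' : nC ((s : ℂ) • e) < r := by rw [hns]; exact hsr
      have h3 := key _ hsr'
      have h4 := hs.bd _ hsr'
      have h5 := hs'.bd _ hsr'
      rw [hns] at h4 h5
      rw [qC_smul, hqe, mul_one] at h3
      have h6 : ((k' - k) / 2 : ℂ) * (s : ℂ) ^ 2 = m ((s : ℂ) • e) - m' ((s : ℂ) • e) := by
        linear_combination h3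
      have h7 : ‖((k' - k) / 2 : ℂ) * (s : ℂ) ^ 2‖ = |k' - k| / 2 * s ^ 2 := by
        have : ((k' - k) / 2 : ℂ) * (s : ℂ) ^ 2 = (((k' - k) / 2 * s ^ 2 : ℝ) : ℂ) := by
          push_cast; ring
        rw [this, Complex.norm_real, Real.norm_eq_abs, abs_mul, abs_div, abs_two,
          abs_of_nonneg (sq_nonneg s)]
      have h8 : |k' - k| / 2 * s ^ 2 ≤ ((M + M') * s ^ 2) * s ^ 2 := by
        rw [← h7, h6]
        refine (norm_sub_le _ _).trans ?_
        calc _ ≤ M * s ^ 4 + M' * s ^ 4 := add_le_add h4 h5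
          _ = _ := by ring
      exact le_of_mul_le_mul_right h8 (by positivity)
    have h3 : Tendsto (fun s : ℝ => (M + M') * s ^ 2) (𝓝[>] 0) (𝓝 0) := by
      have : Tendsto (fun s : ℝ => (M + M') * s ^ 2) (𝓝 0) (𝓝 ((M + M') * 0 ^ 2)) := by
        have hc : Continuous fun s : ℝ => (M + M') * s ^ 2 := by fun_prop
        exact hc.tendsto 0
      rw [zero_pow two_ne_zero, mul_zero] at this
      exact this.mono_left nhdsWithin_le_nhds
    have h4 : |k' - k| / 2 ≤ 0 := by
      refine ge_of_tendsto h3 ?_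
      filter_upwards [Ioo_mem_nhdsGT hr] with s hs
      exact h2 s hs.1 hs.2
    have h5 : |k' - k| = 0 := le_antisymm (by linarith) (abs_nonneg _)
    have := abs_eq_zero.1 h5
    linarith
  refine ⟨hkk, fun x hx => ?_⟩
  have h2 := key x hx
  rw [← hkk, sub_self, zero_div, zero_mul, zero_add] at h2
  exact (sub_eq_zero.1 h2).symm

/-- the difference of two quartic remainders -/
structure Dm (b : (Fin n → ℂ) → (Fin n → ℂ) → (Fin n → ℂ)) (r l : ℝ) (d : (Fin n → ℂ) → ℂ) :
    Prop where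
  md : ∀ x, nC x < r → DifferentiableAt ℂ d x
  even : ∀ x, nC x < r → d (-x) = d x
  bd : ∀ x, nC x < r → ‖d x‖ ≤ l * nC x ^ 4
  sym : ∀ x y, nC x < r / 2 → nC y < r / 3 → d (b (-x) y) = d (b x (-y))

variable {l : ℝ} {d : (Fin n → ℂ) → ℂ}

lemma Dm.zero (hd : Dm b r l d) (hr : 0 < r) : d 0 = 0 := by
  have h := hd.bd 0 (by rw [nC_zero]; exact hr)
  rw [nC_zero] at h
  exact norm_le_zero_iff.1 (h.trans (by simp))

lemma Dm.Tm_diff (hd : Dm b r l d) (h : BC B r₀ C b) (hr : r ≤ r₀) {x y : Fin n → ℂ}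
    (hx : nC x < r / 2) (hy : nC y < r / 3) :
    DifferentiableAt ℂ (fun p : (Fin n → ℂ) × (Fin n → ℂ) => Tf b d p.1 p.2) (x, y) := by
  have hrp : 0 < r := by have := nC_nonneg x; linarith
  unfold Tf
  have e1 := hd.md (b x y) (h.in_r hr hx hy)
  have e2 := hd.md (b x (-y)) (h.in_r hr hx (by rwa [nC_neg]))
  have h1 := DifferentiableAt.comp (f := fun p : (Fin n → ℂ) × (Fin n → ℂ) => b p.1 p.2) (g := d)
    (x, y) e1 (h.diff x y (by linarith) (by linarith))
  have h2 := DifferentiableAt.comp (f := fun p : (Fin n → ℂ) × (Fin n → ℂ) => b p.1 (-p.2))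
    (g := d) (x, y) e2 (h.diff1 (by linarith) (by linarith))
  have h3 : DifferentiableAt ℂ (fun p : (Fin n → ℂ) × (Fin n → ℂ) => d p.1) (x, y) :=
    DifferentiableAt.comp (f := fun p : (Fin n → ℂ) × (Fin n → ℂ) => p.1) (g := d) (x, y)
      (hd.md x (by linarith)) differentiableAt_fst
  have h4 : DifferentiableAt ℂ (fun p : (Fin n → ℂ) × (Fin n → ℂ) => d p.2) (x, y) :=
    DifferentiableAt.comp (f := fun p : (Fin n → ℂ) × (Fin n → ℂ) => p.2) (g := d) (x, y)
      (hd.md y (by linarith)) differentiableAt_snd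
  exact ((h1.add h2).sub (h3.const_mul 2)).sub (h4.const_mul 2)

/-- the second difference -/
theorem Dm.Tm (hd : Dm b r l d) (h : BC B r₀ C b) (hr : r ≤ r₀) (hl : 0 ≤ l) {x y : Fin n → ℂ}
    (hx : nC x < r / 2) (hy : nC y < r / 3) :
    ‖Tf b d x y‖ ≤ 108 * l * nC x ^ 2 * nC y ^ 2 := by
  have hrp : 0 < r := by have := nC_nonneg x; linarith
  have hn : ∀ z : Fin n → ℂ, nC (-z) = nC z := nC_neg
  refine (even_even (T := Tf b d) (r := r / 2) (r' := r / 3) (S := 3 * (l * r ^ 4)) ?_ ?_ ?_ ?_ ?_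
    ?_ hx hy).trans (le_of_eq ?_)
  · intro x y hx hy
    exact hd.Tm_diff h hr hx hy
  · intro x y hx hy
    refine Tf_neg_left d x y (hd.even x (by linarith)) (hd.sym x y hx hy) ?_
    have := hd.sym x (-y) hx (by rwa [hn])
    rwa [neg_neg] at this
  · intro x y hx hy
    exact Tf_neg_right d x y (hd.even y (by linarith))
  · intro y hy
    unfold Tf
    rw [h.zero_left (by linarith), h.zero_left (by rw [hn]; linarith), hd.even y (by linarith),
      hd.zero hrp]
    ring
  · intro x hx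
    unfold Tf
    rw [neg_zero, h.zero_right (by linarith), hd.zero hrp]
    ring
  · intro x y hx hy
    unfold Tf
    have h2 := (hd.bd (b x y) (h.in_r hr hx hy))
    have h3 := (hd.bd (b x (-y)) (h.in_r hr hx (by rwa [hn])))
    have h4 := hd.bd x (by linarith)
    have h5 := hd.bd y (by linarith)
    have p2 : l * nC (b x y) ^ 4 ≤ l * r ^ 4 := by
      have := (h.in_r hr hx hy).le
      have := nC_nonneg (b x y)
      gcongr
    have p3 : l * nC (b x (-y)) ^ 4 ≤ l * r ^ 4 := by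
      have := (h.in_r hr hx (y := -y) (by rwa [hn])).le
      have := nC_nonneg (b x (-y))
      gcongr
    have p4 : l * nC x ^ 4 ≤ l * (r / 2) ^ 4 := by
      have := nC_nonneg x
      gcongr
    have p5 : l * nC y ^ 4 ≤ l * (r / 3) ^ 4 := by
      have := nC_nonneg y
      gcongr
    have q : 0 ≤ l * r ^ 4 := by positivity
    have e4 : l * (r / 2) ^ 4 = l * r ^ 4 / 16 := by ring
    have e5 : l * (r / 3) ^ 4 = l * r ^ 4 / 81 := by ring
    rw [e4] at p4
    rw [e5] at p5
    have n4 : ‖2 * d x‖ = 2 * ‖d x‖ := by rw [norm_mul]; norm_num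
    have n5 : ‖2 * d y‖ = 2 * ‖d y‖ := by rw [norm_mul]; norm_num
    calc _ ≤ ‖d (b x y)‖ + ‖d (b x (-y))‖ + ‖2 * d x‖ + ‖2 * d y‖ := by
          refine (norm_sub_le _ _).trans (add_le_add ?_ le_rfl)
          refine (norm_sub_le _ _).trans (add_le_add ?_ le_rfl)
          exact norm_add_le _ _
      _ ≤ _ := by rw [n4, n5]; linarith
  · field_simp
    ring

variable [CompactSpace G] [MeasurableSpace G] [BorelSpace G]
variable {k₁ k₂ M₁ M₂ : ℝ} {F₁ F₂ : (Mat N)ˣ → ℂ} {m₁ m₂ : (Fin n → ℂ) → ℂ} {f₁ f₂ : G → ℝ}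

include hG in
lemma St.dm (hs₁ : St B r k₁ M₁ F₁ m₁) (hs₂ : St B r k₂ M₂ F₂ m₂) (hf₁ : CF f₁ F₁)
    (hf₂ : CF f₂ F₂) (h1₁ : F₁ 1 ≠ 0) (h1₂ : F₂ 1 ≠ 0) (h : BC B r₀ C b) (hr : r ≤ r₀)
    (hb : ∀ x, nC x < r → ‖m₂ x - m₁ x‖ ≤ l * nC x ^ 4) :
    Dm b r l (fun x => m₂ x - m₁ x) where
  md x hx := (hs₂.md x hx).sub (hs₁.md x hx)
  even x hx := by beta_reduce; rw [hs₂.even x hx, hs₁.even x hx]
  bd := hb
  sym x y hx hy := by
    beta_reduce
    rw [hs₂.msym hG hf₂ h1₂ h hr hx hy, hs₁.msym hG hf₁ h1₁ h hr hx hy]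

lemma Tf_sub (φ ψ : (Fin n → ℂ) → ℂ) (x y : Fin n → ℂ) :
    Tf b (fun x => φ x - ψ x) x y = Tf b φ x y - Tf b ψ x y := by
  unfold Tf
  ring

end

end Pool.Agent.N988.MK
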