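import Mathlib
import Pool.Agent.N988.MK.Momt
import Pool.Agent.N988.MK.Pair1

/-!
# The difference of two convolution squares near the identity
-/

open MeasureTheory Filter Metric Asymptotics Matrix
open scoped Matrix.Norms.Frobenius Topology ContDiff
open Pool.Agent.H906R3.YM Pool.Agent.W793.YM Pool.Agent.TH618.YM Pool.Agent.N984.TW
open Pool.Agent.N991.MK

namespace Pool.Agent.N988.MK

set_option linter.unusedSectionVars false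

noncomputable section

variable {N n : ℕ} {G : Subgroup (UN N)} {B : Frame G n} {hG : IsClosed (G : Set (UN N))}
variable [CompactSpace G] [MeasurableSpace G] [BorelSpace G] {μ : Measure G}
  [IsProbabilityMeasure μ] [μ.IsMulLeftInvariant] [μ.IsMulRightInvariant] [μ.IsInvInvariant]
variable {r₀ C : ℝ} {b : (Fin n → ℂ) → (Fin n → ℂ) → (Fin n → ℂ)}
variable {r k₁ k₂ M₁ M₂ l Cm Cq : ℝ} {F₁ F₂ : (Mat N)ˣ → ℂ} {m₁ m₂ : (Fin n → ℂ) → ℂ}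
  {f₁ f₂ : G → ℝ}

/-- the exponent of the quotient of two states -/
def ee (k₁ k₂ : ℝ) (m₁ m₂ : (Fin n → ℂ) → ℂ) (x : Fin n → ℂ) : ℂ :=
  ((k₂ - k₁) / 2 : ℂ) * qC x + (m₂ x - m₁ x)

lemma norm_half_sub (k₁ k₂ : ℝ) : ‖((k₂ - k₁) / 2 : ℂ)‖ = |k₂ - k₁| / 2 := by
  have : ((k₂ - k₁) / 2 : ℂ) = (((k₂ - k₁) / 2 : ℝ) : ℂ) := by push_cast; ring
  rw [this, Complex.norm_real, Real.norm_eq_abs, abs_div, abs_two]

lemma ee_le {x : Fin n → ℂ} (hb : ‖m₂ x - m₁ x‖ ≤ l * nC x ^ 4) :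
    ‖ee k₁ k₂ m₁ m₂ x‖ ≤ (|k₂ - k₁| / 2 + l * nC x ^ 2) * nC x ^ 2 := by
  unfold ee
  refine (norm_add_le _ _).trans ?_
  rw [norm_mul, norm_half_sub]
  have h1 := mul_le_mul_of_nonneg_left (norm_qC_le x) (by positivity : 0 ≤ |k₂ - k₁| / 2)
  calc _ ≤ |k₂ - k₁| / 2 * nC x ^ 2 + l * nC x ^ 4 := add_le_add h1 hb
    _ = _ := by ring

lemma ee_eq (hs₁ : St B r k₁ M₁ F₁ m₁) (hs₂ : St B r k₂ M₂ F₂ m₂) (n1 : F₁ 1 = 1) (n2 : F₂ 1 = 1)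
    {x : Fin n → ℂ} (hx : nC x < r) :
    F₂ (uE B x) = F₁ (uE B x) * Complex.exp (-ee k₁ k₂ m₁ m₂ x) := by
  rw [hs₁.eq x hx, hs₂.eq x hx, n1, n2, one_mul, one_mul, ← Complex.exp_add]
  congr 1
  unfold ee
  ring

/-- the integrand at a near point -/
lemma Hy.near_eq {k M : ℝ} {f : G → ℝ} {F : (Mat N)ˣ → ℂ} {m : (Fin n → ℂ) → ℂ}
    (H : Hy B hG μ r₀ C b r k M Cm Cq f F m) (n1 : F 1 = 1) {x : Fin n → ℂ} (hx : nC x < r)
    {y : Fin n → ℝ} (hy : nE y < r / 3) :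
    Jn B F x (Eg B hG y) / F (uE B ((1 / 2 : ℂ) • x)) ^ 2 =
      F (uE B (rl y)) ^ 2 * Complex.exp (-Th b k m x (rl y)) := by
  have hP := H.Pne hx
  have h2 := H.hs.fact H.h H.hr (x := x) (y := rl y) hx (by rwa [nC_rl])
  have e1 : uE B (rl y) = uG (Eg B hG y) := by rw [uE_rl B hG]
  have e2 : uE B (-rl y) = (uG (Eg B hG y))⁻¹ := by rw [uE_neg, e1]
  rw [e2, n1, one_pow, mul_one] at h2
  rw [div_eq_iff (pow_ne_zero 2 hP)]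
  have h3 : Jn B F x (Eg B hG y) = F (uE B ((1 / 2 : ℂ) • x) * uE B (rl y)) *
      F (uE B ((1 / 2 : ℂ) • x) * (uG (Eg B hG y))⁻¹) := by
    unfold Jn
    rw [H.hf.swap', map_inv, e1]
  rw [h3, h2]
  ring

/-- the two hypotheses -/
structure H2 (B : Frame G n) (hG : IsClosed (G : Set (UN N))) (μ : Measure G) (r₀ C : ℝ)
    (b : (Fin n → ℂ) → (Fin n → ℂ) → (Fin n → ℂ)) (r k₁ k₂ M₁ M₂ Cm Cq l Sf : ℝ)
    (f₁ f₂ : G → ℝ) (F₁ F₂ : (Mat N)ˣ → ℂ) (m₁ m₂ : (Fin n → ℂ) → ℂ) : Prop where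
  a1 : Hy B hG μ r₀ C b r k₁ M₁ Cm Cq f₁ F₁ m₁
  a2 : Hy B hG μ r₀ C b r k₂ M₂ Cm Cq f₂ F₂ m₂
  n1 : F₁ 1 = 1
  n2 : F₂ 1 = 1
  hl : 0 ≤ l
  hb : ∀ x, nC x < r → ‖m₂ x - m₁ x‖ ≤ l * nC x ^ 4
  hSf : 0 ≤ Sf
  far : ∀ x : Fin n → ℂ, nC x < r →
    ‖(∫ z in {z : G | r / 4 < nN z}, Jn B F₂ x z ∂μ) / F₂ (uE B ((1 / 2 : ℂ) • x)) ^ 2 -
      (∫ z in {z : G | r / 4 < nN z}, Jn B F₁ x z ∂μ) / F₁ (uE B ((1 / 2 : ℂ) • x)) ^ 2‖ ≤
      Sf * ∫ z : G, (f₁ z) ^ 2 ∂μ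

/-- the size of the difference of the exponents -/
def a0 (Cq r k₁ k₂ l : ℝ) : ℝ := |k₂ - k₁| * (1 + Cq * r ^ 2 / 8) + 28 * l * r ^ 2

/-- the relative size of the difference -/
def SS (Cq Cm r k₁ k₂ l Sf : ℝ) : ℝ := 25 / 16 * a0 Cq r k₁ k₂ l * Cm / k₁ + Sf

namespace H2

variable {Sf : ℝ} (H : H2 B hG μ r₀ C b r k₁ k₂ M₁ M₂ Cm Cq l Sf f₁ f₂ F₁ F₂ m₁ m₂)
include H

lemma a0_nonneg : 0 ≤ a0 Cq r k₁ k₂ l := by
  have h1 := H.a1.hCq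
  have h2 := H.hl
  unfold a0
  positivity

lemma SS_nonneg : 0 ≤ SS Cq Cm r k₁ k₂ l Sf := by
  have h1 := H.a0_nonneg
  have h2 := H.a1.hCm
  have h3 := H.a1.hk
  have h4 := H.hSf
  unfold SS
  positivity

lemma dm : Dm b r l (fun x => m₂ x - m₁ x) :=
  St.dm (hG := hG) H.a1.hs H.a2.hs H.a1.hf H.a2.hf H.a1.h1 H.a2.h1 H.a1.h H.a1.hr H.hb

/-- the difference of the interactions -/
lemma Th_diff {x y : Fin n → ℂ} (hx : nC x < r) (hy : nC y < r / 3) :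
    ‖Th b k₂ m₂ x y - Th b k₁ m₁ x y‖ ≤
      (|k₂ - k₁| * Cq / 8 + 27 * l) * nC x ^ 2 * nC y ^ 2 := by
  have hx2 : nC ((1 / 2 : ℂ) • x) < r / 2 := by rw [nC_half]; linarith
  have hrp := H.a1.hr0
  have hrr := H.a1.hr
  have e : Th b k₂ m₂ x y - Th b k₁ m₁ x y = ((k₂ - k₁) / 2 : ℂ) * Tf b qC ((1 / 2 : ℂ) • x) y +
      Tf b (fun x => m₂ x - m₁ x) ((1 / 2 : ℂ) • x) y := by
    rw [Tf_sub]
    unfold Th
    ring
  rw [e]
  refine (norm_add_le _ _).trans ?_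
  have h1 := H.a1.hq ((1 / 2 : ℂ) • x) y (by linarith) (by linarith)
  have h2 := H.dm.Tm H.a1.h H.a1.hr H.hl hx2 hy
  rw [norm_mul, norm_half_sub]
  rw [nC_half] at h1 h2
  calc _ ≤ |k₂ - k₁| / 2 * (Cq * (nC x / 2) ^ 2 * nC y ^ 2) + 108 * l * (nC x / 2) ^ 2 * nC y ^ 2 :=
        add_le_add (mul_le_mul_of_nonneg_left h1 (by positivity)) h2
    _ = _ := by ring

/-- the difference of the integrands at a near point -/
lemma near_diff (hA : Aq Cq k₁ M₁ * r ^ 2 + 25 / 16 * a0 Cq r k₁ k₂ l ≤ k₁ / 10)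
    {x : Fin n → ℂ} (hx : nC x < r) {z : G} (hz : nN z ≤ r / 4) :
    ‖Jn B F₂ x z / F₂ (uE B ((1 / 2 : ℂ) • x)) ^ 2 - Jn B F₁ x z / F₁ (uE B ((1 / 2 : ℂ) • x)) ^ 2‖ ≤
      25 / 16 * a0 Cq r k₁ k₂ l * ((f₁ z) ^ 2 * (nN z ^ 2 * Real.exp (k₁ / 10 * nN z ^ 2))) := by
  have hrr := H.a1.hr
  have hr0 := H.a1.hr0
  obtain ⟨y, hy, hy2⟩ := H.a1.hl.lg z (by linarith)
  have hz0 : 0 ≤ nN z := norm_nonneg _
  have hy0 := nE_nonneg y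
  have hy3 : nE y < r / 3 := by linarith
  have hy3' : nC (rl y) < r / 3 := by rwa [nC_rl]
  have e1 := H.a1.near_eq H.n1 hx hy3
  have e2 := H.a2.near_eq H.n2 hx hy3
  rw [hy] at e1 e2
  have hf1 : F₁ (uE B (rl y)) = (f₁ z : ℂ) := by rw [uE_rl B hG, hy, H.a1.hf.res]
  have e3 := ee_eq H.a1.hs H.a2.hs H.n1 H.n2 (x := rl y) (by rw [nC_rl]; linarith)
  obtain ⟨w, hw⟩ : ∃ w : ℂ, w = 2 * ee k₁ k₂ m₁ m₂ (rl y) +
    (Th b k₂ m₂ x (rl y) - Th b k₁ m₁ x (rl y)) := ⟨_, rfl⟩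
  obtain ⟨T, hT⟩ : ∃ T : ℂ, T = Th b k₁ m₁ x (rl y) := ⟨_, rfl⟩
  have e4 : Jn B F₂ x z / F₂ (uE B ((1 / 2 : ℂ) • x)) ^ 2 -
      Jn B F₁ x z / F₁ (uE B ((1 / 2 : ℂ) • x)) ^ 2 =
      (f₁ z : ℂ) ^ 2 * Complex.exp (-T) * (Complex.exp (-w) - 1) := by
    rw [e1, e2, e3, hf1, mul_pow, ← Complex.exp_nat_mul, ← hT]
    have : Complex.exp ((2 : ℕ) * -ee k₁ k₂ m₁ m₂ (rl y)) * Complex.exp (-Th b k₂ m₂ x (rl y)) =
        Complex.exp (-T) * Complex.exp (-w) := by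
      rw [← Complex.exp_add, ← Complex.exp_add]
      congr 1
      rw [hw, hT]
      push_cast
      ring
    linear_combination (f₁ z : ℂ) ^ 2 * this
  -- the sizes
  have hx0 := nC_nonneg x
  have hTle : ‖T‖ ≤ Aq Cq k₁ M₁ * r ^ 2 * nN z ^ 2 := by
    have h2 := H.a1.hs.Th_le hG H.a1.hf H.a1.h1 H.a1.h H.a1.hr H.a1.hM H.a1.hk.le H.a1.hq hx hy3'
    rw [← hT, nC_rl] at h2
    refine h2.trans ?_
    have h3 : nE y ^ 2 ≤ 25 / 16 * nN z ^ 2 := by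
      have := pow_le_pow_left₀ hy0 hy2 2
      nlinarith
    have h4 : nC x ^ 2 ≤ r ^ 2 := pow_le_pow_left₀ hx0 hx.le 2
    have h5 : 0 ≤ Cq / 8 * k₁ + 27 * M₁ := by
      have := H.a1.hCq
      have := H.a1.hk
      have := H.a1.hM
      positivity
    unfold Aq
    calc (Cq / 8 * k₁ + 27 * M₁) * nC x ^ 2 * nE y ^ 2 ≤
          (Cq / 8 * k₁ + 27 * M₁) * r ^ 2 * (25 / 16 * nN z ^ 2) := by gcongr
      _ = _ := by ring
  have hwle : ‖w‖ ≤ 25 / 16 * a0 Cq r k₁ k₂ l * nN z ^ 2 := by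
    have h1 := ee_le (k₁ := k₁) (k₂ := k₂) (H.hb (rl y) (by rw [nC_rl]; linarith))
    have h2 := H.Th_diff hx hy3'
    rw [nC_rl] at h1 h2
    have h3 : nE y ^ 2 ≤ 25 / 16 * nN z ^ 2 := by
      have := pow_le_pow_left₀ hy0 hy2 2
      nlinarith
    have h4 : nC x ^ 2 ≤ r ^ 2 := pow_le_pow_left₀ hx0 hx.le 2
    have h5 : nE y ^ 2 ≤ r ^ 2 / 9 := by
      have := pow_le_pow_left₀ hy0 hy3.le 2
      calc nE y ^ 2 ≤ (r / 3) ^ 2 := this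
        _ = _ := by ring
    have hl := H.hl
    have hCq := H.a1.hCq
    have h6 : ‖w‖ ≤ 2 * ‖ee k₁ k₂ m₁ m₂ (rl y)‖ +
        ‖Th b k₂ m₂ x (rl y) - Th b k₁ m₁ x (rl y)‖ := by
      rw [hw]
      refine (norm_add_le _ _).trans ?_
      rw [norm_mul]
      norm_num
    refine h6.trans ?_
    have h7 : (|k₂ - k₁| / 2 + l * nE y ^ 2) * nE y ^ 2 ≤
        (|k₂ - k₁| / 2 + l * (r ^ 2 / 9)) * nE y ^ 2 := by gcongr
    have h8 : (|k₂ - k₁| * Cq / 8 + 27 * l) * nC x ^ 2 * nE y ^ 2 ≤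
        (|k₂ - k₁| * Cq / 8 + 27 * l) * r ^ 2 * nE y ^ 2 := by gcongr
    have h9 : 2 * ‖ee k₁ k₂ m₁ m₂ (rl y)‖ + ‖Th b k₂ m₂ x (rl y) - Th b k₁ m₁ x (rl y)‖ ≤
        (2 * (|k₂ - k₁| / 2 + l * (r ^ 2 / 9)) + (|k₂ - k₁| * Cq / 8 + 27 * l) * r ^ 2) *
          nE y ^ 2 := by
      rw [add_mul]
      refine add_le_add ?_ (h2.trans h8)
      rw [mul_assoc]
      exact mul_le_mul_of_nonneg_left (h1.trans h7) (by norm_num)
    refine h9.trans ?_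
    have h10 : 2 * (|k₂ - k₁| / 2 + l * (r ^ 2 / 9)) + (|k₂ - k₁| * Cq / 8 + 27 * l) * r ^ 2 ≤
        a0 Cq r k₁ k₂ l := by
      unfold a0
      have : 0 ≤ l * r ^ 2 := by positivity
      calc _ = |k₂ - k₁| * (1 + Cq * r ^ 2 / 8) + (27 + 2 / 9) * (l * r ^ 2) := by ring
        _ ≤ |k₂ - k₁| * (1 + Cq * r ^ 2 / 8) + 28 * (l * r ^ 2) := by linarith
        _ = _ := by ring
    have h11 := H.a0_nonneg
    calc _ ≤ a0 Cq r k₁ k₂ l * (25 / 16 * nN z ^ 2) := by gcongr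
      _ = _ := by ring
  rw [e4, norm_mul, norm_mul, norm_pow, Complex.norm_real, Real.norm_eq_abs, sq_abs]
  have h6 := exp_sub_one_le w
  have h7 : ‖Complex.exp (-T)‖ ≤ Real.exp ‖T‖ := by
    have := Complex.norm_exp_le_exp_norm (-T)
    rwa [norm_neg] at this
  have ha0 := H.a0_nonneg
  have h8 : ‖T‖ + ‖w‖ ≤ k₁ / 10 * nN z ^ 2 := by
    calc ‖T‖ + ‖w‖ ≤ (Aq Cq k₁ M₁ * r ^ 2 + 25 / 16 * a0 Cq r k₁ k₂ l) * nN z ^ 2 := by
          rw [add_mul]; exact add_le_add hTle hwle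
      _ ≤ _ := mul_le_mul_of_nonneg_right hA (sq_nonneg _)
  calc f₁ z ^ 2 * ‖Complex.exp (-T)‖ * ‖Complex.exp (-w) - 1‖
      ≤ f₁ z ^ 2 * Real.exp ‖T‖ * (‖w‖ * Real.exp ‖w‖) := by gcongr
    _ = f₁ z ^ 2 * ‖w‖ * Real.exp (‖T‖ + ‖w‖) := by rw [Real.exp_add]; ring
    _ ≤ f₁ z ^ 2 * (25 / 16 * a0 Cq r k₁ k₂ l * nN z ^ 2) * Real.exp (k₁ / 10 * nN z ^ 2) := by
        gcongr
    _ = _ := by ring

omit H in
/-- the convolution square divided by the square of the half point -/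
lemma _root_.Pool.Agent.N988.MK.Hy.quot {k M : ℝ} {f : G → ℝ} {F : (Mat N)ˣ → ℂ}
    {m : (Fin n → ℂ) → ℂ}
    (H : Hy B hG μ r₀ C b r k M Cm Cq f F m) (x : Fin n → ℂ) :
    convC μ F F (uE B x) / F (uE B ((1 / 2 : ℂ) • x)) ^ 2 =
      (∫ z in {z : G | nN z ≤ r / 4}, Jn B F x z / F (uE B ((1 / 2 : ℂ) • x)) ^ 2 ∂μ) +
      (∫ z in {z : G | r / 4 < nN z}, Jn B F x z ∂μ) / F (uE B ((1 / 2 : ℂ) • x)) ^ 2 := by
  rw [conv_eq (B := B) (hG := hG) (μ := μ) H.hf.hol x, split_int (r := r) (Jn_cont H.hf.hol x),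
    add_div, integral_div]

/-- **the difference of the convolution squares** -/
lemma N_diff (hA : Aq Cq k₁ M₁ * r ^ 2 + 25 / 16 * a0 Cq r k₁ k₂ l ≤ k₁ / 10)
    {x : Fin n → ℂ} (hx : nC x < r) :
    ‖convC μ F₂ F₂ (uE B x) / F₂ (uE B ((1 / 2 : ℂ) • x)) ^ 2 -
      convC μ F₁ F₁ (uE B x) / F₁ (uE B ((1 / 2 : ℂ) • x)) ^ 2‖ ≤
      SS Cq Cm r k₁ k₂ l Sf * ∫ z : G, (f₁ z) ^ 2 ∂μ := by
  have hfc : Continuous f₁ := H.a1.hf.cont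
  rw [H.a1.quot, H.a2.quot]
  have e : ∀ A₁ A₂ D₁ D₂ : ℂ, A₂ + D₂ - (A₁ + D₁) = (A₂ - A₁) + (D₂ - D₁) := by
    intro _ _ _ _; ring
  rw [e]
  refine (norm_add_le _ _).trans ?_
  have h1 := H.far x hx
  have hi : ∀ F : (Mat N)ˣ → ℂ, Hol F → IntegrableOn (fun z : G => Jn B F x z /
      F (uE B ((1 / 2 : ℂ) • x)) ^ 2) {z : G | nN z ≤ r / 4} μ := fun F hF =>
    (intg ((Jn_cont hF x).div_const _)).integrableOn
  have h2 : ‖(∫ z in {z : G | nN z ≤ r / 4}, Jn B F₂ x z / F₂ (uE B ((1 / 2 : ℂ) • x)) ^ 2 ∂μ) -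
      ∫ z in {z : G | nN z ≤ r / 4}, Jn B F₁ x z / F₁ (uE B ((1 / 2 : ℂ) • x)) ^ 2 ∂μ‖ ≤
      25 / 16 * a0 Cq r k₁ k₂ l * (Cm / k₁ * ∫ z : G, (f₁ z) ^ 2 ∂μ) := by
    rw [← integral_sub (hi F₂ H.a2.hf.hol) (hi F₁ H.a1.hf.hol)]
    refine (norm_integral_le_integral_norm _).trans ?_
    have h3 : ∫ z in {z : G | nN z ≤ r / 4}, ‖Jn B F₂ x z / F₂ (uE B ((1 / 2 : ℂ) • x)) ^ 2 -
        Jn B F₁ x z / F₁ (uE B ((1 / 2 : ℂ) • x)) ^ 2‖ ∂μ ≤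
        ∫ z in {z : G | nN z ≤ r / 4}, 25 / 16 * a0 Cq r k₁ k₂ l *
          ((f₁ z) ^ 2 * (nN z ^ 2 * Real.exp (k₁ / 10 * nN z ^ 2))) ∂μ := by
      refine setIntegral_mono_on ?_ ?_ meas_near fun z hz => H.near_diff hA hx hz
      · exact ((hi F₂ H.a2.hf.hol).sub (hi F₁ H.a1.hf.hol)).norm
      · refine (intgR ?_).integrableOn
        refine continuous_const.mul ((hfc.pow 2).mul ((nN_cont.pow 2).mul ?_))
        exact Real.continuous_exp.comp (continuous_const.mul (nN_cont.pow 2))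
    refine h3.trans ?_
    rw [integral_const_mul]
    have h4 := H.a0_nonneg
    exact mul_le_mul_of_nonneg_left H.a1.hi.mom (by positivity)
  calc _ ≤ 25 / 16 * a0 Cq r k₁ k₂ l * (Cm / k₁ * ∫ z : G, (f₁ z) ^ 2 ∂μ) +
        Sf * ∫ z : G, (f₁ z) ^ 2 ∂μ := add_le_add h2 h1
    _ = _ := by unfold SS; ring

/-- the difference of the normalisations -/
lemma W_diff (hA : Aq Cq k₁ M₁ * r ^ 2 + 25 / 16 * a0 Cq r k₁ k₂ l ≤ k₁ / 10) :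
    |(∫ z : G, (f₂ z) ^ 2 ∂μ) - ∫ z : G, (f₁ z) ^ 2 ∂μ| ≤
      SS Cq Cm r k₁ k₂ l Sf * ∫ z : G, (f₁ z) ^ 2 ∂μ := by
  have h := H.N_diff hA (x := 0) (by rw [nC_zero]; exact H.a1.hr0)
  rw [smul_zero, uE_zero, conv_one (B := B) (hG := hG) H.a1.hf,
    conv_one (B := B) (hG := hG) H.a2.hf, H.n1, H.n2] at h
  simp only [one_pow, div_one] at h
  rw [← Complex.ofReal_sub, Complex.norm_real, Real.norm_eq_abs] at h
  exact h

/-- the difference of the ratios -/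
lemma EE_diff2 (hA : Aq Cq k₁ M₁ * r ^ 2 + 25 / 16 * a0 Cq r k₁ k₂ l ≤ k₁ / 10)
    (hS : SS Cq Cm r k₁ k₂ l Sf ≤ 1 / 2) {x : Fin n → ℂ} (hx : nC x < r) :
    ‖EE B μ f₂ F₂ x - EE B μ f₁ F₁ x‖ ≤ 5 * SS Cq Cm r k₁ k₂ l Sf := by
  obtain ⟨S, hSd⟩ : ∃ S, S = SS Cq Cm r k₁ k₂ l Sf := ⟨_, rfl⟩
  have hS0 : 0 ≤ S := by rw [hSd]; exact H.SS_nonneg
  obtain ⟨W₁, hW₁⟩ : ∃ W : ℝ, W = ∫ z : G, (f₁ z) ^ 2 ∂μ := ⟨_, rfl⟩
  obtain ⟨W₂, hW₂⟩ : ∃ W : ℝ, W = ∫ z : G, (f₂ z) ^ 2 ∂μ := ⟨_, rfl⟩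
  have p1 : 0 < W₁ := by rw [hW₁]; exact H.a1.hW
  have p2 : 0 < W₂ := by rw [hW₂]; exact H.a2.hW
  have h1 := H.N_diff hA hx
  have h2 := H.W_diff hA
  have h3 := H.a1.EE_sub_le' hx
  have h4 := H.a1.het
  rw [← hSd] at hS h1 h2 ⊢
  rw [← hW₁] at h1 h2
  rw [← hW₂] at h2
  obtain ⟨A₁, hA₁⟩ : ∃ A : ℂ, A = convC μ F₁ F₁ (uE B x) / F₁ (uE B ((1 / 2 : ℂ) • x)) ^ 2 := ⟨_, rfl⟩
  obtain ⟨A₂, hA₂⟩ : ∃ A : ℂ, A = convC μ F₂ F₂ (uE B x) / F₂ (uE B ((1 / 2 : ℂ) • x)) ^ 2 := ⟨_, rfl⟩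
  rw [← hA₁, ← hA₂] at h1
  have c1 : (W₁ : ℂ) ≠ 0 := Complex.ofReal_ne_zero.2 p1.ne'
  have c2 : (W₂ : ℂ) ≠ 0 := Complex.ofReal_ne_zero.2 p2.ne'
  have e1 : EE B μ f₁ F₁ x = A₁ / W₁ := by
    unfold EE
    rw [H.n1, hA₁, hW₁]
    have := H.a1.Pne hx
    have := H.a1.Wne
    field_simp
  have e2 : EE B μ f₂ F₂ x = A₂ / W₂ := by
    unfold EE
    rw [H.n2, hA₂, hW₂]
    have := H.a2.Pne hx
    have := H.a2.Wne
    field_simp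
  have hE1 : ‖EE B μ f₁ F₁ x‖ ≤ 3 / 2 := by
    have : EE B μ f₁ F₁ x = (EE B μ f₁ F₁ x - 1) + 1 := by ring
    rw [this]
    refine (norm_add_le _ _).trans ?_
    rw [norm_one]
    linarith
  have e3 : EE B μ f₂ F₂ x - EE B μ f₁ F₁ x =
      ((A₂ - A₁) - EE B μ f₁ F₁ x * ((W₂ - W₁ : ℝ) : ℂ)) / W₂ := by
    rw [e1, e2]
    push_cast
    field_simp
    ring
  rw [e3, norm_div, Complex.norm_real, Real.norm_eq_abs, abs_of_pos p2, div_le_iff₀ p2]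
  have h5 : W₁ / 2 ≤ W₂ := by
    have := (abs_le.1 h2).1
    nlinarith
  refine (norm_sub_le _ _).trans ?_
  rw [norm_mul, Complex.norm_real, Real.norm_eq_abs]
  have h6 : ‖EE B μ f₁ F₁ x‖ * |W₂ - W₁| ≤ 3 / 2 * (S * W₁) :=
    mul_le_mul hE1 h2 (abs_nonneg _) (by norm_num)
  have h7 : S * W₁ ≤ S * (2 * W₂) := mul_le_mul_of_nonneg_left (by linarith) hS0
  linarith

/-- the difference of the logarithmic corrections -/
lemma ll_diff2 (hA : Aq Cq k₁ M₁ * r ^ 2 + 25 / 16 * a0 Cq r k₁ k₂ l ≤ k₁ / 10)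
    (hS : SS Cq Cm r k₁ k₂ l Sf ≤ 1 / 2) {x : Fin n → ℂ} (hx : nC x < r) :
    ‖H.a2.ll x - H.a1.ll x‖ ≤ 10 * SS Cq Cm r k₁ k₂ l Sf := by
  unfold Hy.ll
  have e : -Complex.log (EE B μ f₂ F₂ x) - -Complex.log (EE B μ f₁ F₁ x) =
      -(Complex.log (EE B μ f₂ F₂ x) - Complex.log (EE B μ f₁ F₁ x)) := by ring
  rw [e, norm_neg]
  have hmem : ∀ z ∈ Metric.closedBall (1 : ℂ) (1 / 2), z ∈ Complex.slitPlane ∧ 1 / 2 ≤ ‖z‖ := by
    intro z hz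
    rw [mem_closedBall, dist_eq_norm] at hz
    have h2 := (Complex.abs_re_le_norm (z - 1)).trans hz
    rw [Complex.sub_re, Complex.one_re] at h2
    have h3 := (abs_le.1 h2).1
    refine ⟨Or.inl (by linarith), ?_⟩
    have h4 := (Complex.abs_re_le_norm z)
    have h5 := le_abs_self z.re
    linarith
  have h1 : EE B μ f₁ F₁ x ∈ Metric.closedBall (1 : ℂ) (1 / 2) := by
    rw [mem_closedBall, dist_eq_norm]
    exact (H.a1.EE_sub_le' hx).trans H.a1.het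
  have h2 : EE B μ f₂ F₂ x ∈ Metric.closedBall (1 : ℂ) (1 / 2) := by
    rw [mem_closedBall, dist_eq_norm]
    exact (H.a2.EE_sub_le' hx).trans H.a2.het
  have h3 := Convex.norm_image_sub_le_of_norm_deriv_le (f := Complex.log) (C := 2)
    (s := Metric.closedBall (1 : ℂ) (1 / 2)) (x := EE B μ f₁ F₁ x) (y := EE B μ f₂ F₂ x)
    (fun z hz => (Complex.hasDerivAt_log (hmem z hz).1).differentiableAt)
    (fun z hz => by
      rw [(Complex.hasDerivAt_log (hmem z hz).1).deriv, norm_inv]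
      have h4 := (hmem z hz).2
      rw [inv_le_comm₀ (by linarith) (by norm_num)]
      linarith) (convex_closedBall _ _) h1 h2
  have h4 := H.EE_diff2 hA hS hx
  linarith

/-- **the difference of the new states** -/
theorem delta_diff (hA : Aq Cq k₁ M₁ * r ^ 2 + 25 / 16 * a0 Cq r k₁ k₂ l ≤ k₁ / 10)
    (hS : SS Cq Cm r k₁ k₂ l Sf ≤ 1 / 2) (hn : 0 < n) {δ₁ δ₂ E₁ E₂ : ℝ}
    (h1 : ∀ x : Fin n → ℂ, nC x < r → ‖H.a1.ll x - δ₁ * qC x‖ ≤ E₁ * (nC x / r) ^ 4)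
    (h2 : ∀ x : Fin n → ℂ, nC x < r → ‖H.a2.ll x - δ₂ * qC x‖ ≤ E₂ * (nC x / r) ^ 4) :
    |δ₂ - δ₁| ≤ 10 * SS Cq Cm r k₁ k₂ l Sf / r ^ 2 ∧ ∀ x : Fin n → ℂ, nC x < r →
      ‖(H.a2.ll x - H.a1.ll x) - ((δ₂ - δ₁ : ℝ) : ℂ) * qC x‖ ≤
        20 * SS Cq Cm r k₁ k₂ l Sf * (nC x / r) ^ 4 := by
  have hr0 := H.a1.hr0
  obtain ⟨g, hg⟩ : ∃ g : (Fin n → ℂ) → ℂ, g = fun x => H.a2.ll x - H.a1.ll x := ⟨_, rfl⟩
  obtain ⟨S, hSd⟩ : ∃ S, S = SS Cq Cm r k₁ k₂ l Sf := ⟨_, rfl⟩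
  have hS0 : 0 ≤ S := by rw [hSd]; exact H.SS_nonneg
  rw [← hSd]
  have hE1 : 0 ≤ E₁ + E₂ := by
    obtain ⟨x, hx⟩ : ∃ x : Fin n → ℂ, nC x = r / 2 := by
      refine ⟨((r / 2 : ℝ) : ℂ) • Pi.single (⟨0, hn⟩ : Fin n) (1 : ℂ), ?_⟩
      rw [nC_smul, Complex.norm_real, Real.norm_eq_abs, abs_of_pos (by positivity)]
      have : nC (Pi.single (⟨0, hn⟩ : Fin n) (1 : ℂ)) = 1 := by
        unfold nC
        rw [Finset.sum_eq_single (⟨0, hn⟩ : Fin n)]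
        · simp
        · intro c _ hc
          simp [hc]
        · intro h; exact absurd (Finset.mem_univ _) h
      rw [this, mul_one]
    have a1 := (norm_nonneg _).trans (h1 x (by linarith))
    have a2 := (norm_nonneg _).trans (h2 x (by linarith))
    rw [hx] at a1 a2
    have a3 : 0 < (r / 2 / r) ^ 4 := by positivity
    have a4 := nonneg_of_mul_nonneg_left a1 a3
    have a5 := nonneg_of_mul_nonneg_left a2 a3
    linarith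
  obtain ⟨E, hE⟩ : ∃ E, E = E₁ + E₂ := ⟨_, rfl⟩
  rw [← hE] at hE1
  have key : ∀ (x : Fin n → ℂ) (a : ℂ), (∀ ζ : ℂ, nC (ζ • x) < r →
      ‖g (ζ • x) - a * ζ ^ 2‖ ≤ 2 * (10 * S) * (nC (ζ • x) / r) ^ 4) →
      a = ((δ₂ - δ₁ : ℝ) : ℂ) * qC x := by
    intro x a ha
    rcases (nC_nonneg x).eq_or_lt with h0 | h0
    · have hx0 : x = 0 := nC_eq_zero h0.ge
      have h3 := ha 1 (by rw [hx0, smul_zero, nC_zero]; exact hr0)
      have hg0 : g 0 = 0 := by rw [hg]; beta_reduce; rw [H.a1.ll_zero, H.a2.ll_zero, sub_zero]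
      rw [hx0, smul_zero, nC_zero, hg0, one_pow, mul_one, zero_sub, norm_neg, zero_div,
        zero_pow (by norm_num), mul_zero] at h3
      rw [norm_le_zero_iff.1 h3, hx0, qC_zero, mul_zero]
    · refine quad_unique (g := fun ζ => g (ζ • x))
        (C := (20 * S + E) * nC x ^ 4 / r ^ 4 * (r / nC x)) (ρ := r / nC x)
        (by positivity) (fun ζ hζ => ?_) (fun ζ hζ => ?_)
      all_goals
        rw [mem_ball_zero_iff, lt_div_iff₀ h0] at hζ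
        have hζ' : nC (ζ • x) < r := by rw [nC_smul]; exact hζ
        have hζn := norm_nonneg ζ
        have hz4 : ‖ζ‖ ^ 4 ≤ (r / nC x) * ‖ζ‖ ^ 3 := by
          have : ‖ζ‖ ≤ r / nC x := by rw [le_div_iff₀ h0]; exact hζ.le
          calc ‖ζ‖ ^ 4 = ‖ζ‖ * ‖ζ‖ ^ 3 := by ring
            _ ≤ _ := mul_le_mul_of_nonneg_right this (by positivity)
        beta_reduce
      · have h3 := ha ζ hζ'
        refine h3.trans ?_
        rw [nC_smul]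
        calc 2 * (10 * S) * (‖ζ‖ * nC x / r) ^ 4 = 20 * S * nC x ^ 4 / r ^ 4 * ‖ζ‖ ^ 4 := by
              rw [div_pow, mul_pow]; ring
          _ ≤ (20 * S + E) * nC x ^ 4 / r ^ 4 * ((r / nC x) * ‖ζ‖ ^ 3) := by
              refine mul_le_mul (div_le_div_of_nonneg_right (mul_le_mul_of_nonneg_right
                (by linarith) (by positivity)) (by positivity)) hz4 (by positivity) (by positivity)
          _ = _ := by ring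
      · have h3 := h1 _ hζ'
        have h4 := h2 _ hζ'
        have e : g (ζ • x) - ((δ₂ - δ₁ : ℝ) : ℂ) * qC x * ζ ^ 2 =
            (H.a2.ll (ζ • x) - δ₂ * qC (ζ • x)) - (H.a1.ll (ζ • x) - δ₁ * qC (ζ • x)) := by
          rw [hg, qC_smul]
          beta_reduce
          push_cast
          ring
        rw [e]
        refine (norm_sub_le _ _).trans ((add_le_add h4 h3).trans ?_)
        rw [nC_smul]
        calc E₂ * (‖ζ‖ * nC x / r) ^ 4 + E₁ * (‖ζ‖ * nC x / r) ^ 4 =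
              E * nC x ^ 4 / r ^ 4 * ‖ζ‖ ^ 4 := by
              rw [hE, div_pow, mul_pow]; ring
          _ ≤ (20 * S + E) * nC x ^ 4 / r ^ 4 * ((r / nC x) * ‖ζ‖ ^ 3) := by
              refine mul_le_mul (div_le_div_of_nonneg_right (mul_le_mul_of_nonneg_right
                (by linarith) (by positivity)) (by positivity)) hz4 (by positivity) (by positivity)
          _ = _ := by ring
  have hgd : ∀ x, nC x < r → DifferentiableAt ℂ g x := fun x hx => by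
    rw [hg]; exact (H.a2.ll_diff hx).sub (H.a1.ll_diff hx)
  have hge : ∀ x, nC x < r → g (-x) = g x := fun x _ => by
    rw [hg]; beta_reduce; rw [H.a1.ll_even, H.a2.ll_even]
  have hg0 : g 0 = 0 := by rw [hg]; beta_reduce; rw [H.a1.ll_zero, H.a2.ll_zero, sub_zero]
  have hgb : ∀ x, nC x < r → ‖g x‖ ≤ 10 * S := fun x hx => by
    rw [hg, hSd]; exact H.ll_diff2 hA hS hx
  refine ⟨?_, fun x hx => ?_⟩
  · obtain ⟨a, ha1, ha2⟩ := even_quadC (g := g) (r := r) (S := 10 * S) hr0 hgd hge hg0 hgb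
      (rl (Pi.single (⟨0, hn⟩ : Fin n) (1 : ℝ)))
    have h3 := key _ a ha2
    have h4 : nE (Pi.single (⟨0, hn⟩ : Fin n) (1 : ℝ)) = 1 := by
      unfold nE
      rw [Finset.sum_eq_single (⟨0, hn⟩ : Fin n)]
      · simp
      · intro c _ hc
        simp [hc]
      · intro h; exact absurd (Finset.mem_univ _) h
    rw [qC_rl, h4] at h3
    rw [nC_rl, h4] at ha1
    rw [h3] at ha1
    simp only [one_pow, Complex.ofReal_one, mul_one, Complex.norm_real, Real.norm_eq_abs] at ha1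
    refine ha1.trans (le_of_eq ?_)
    field_simp
  · obtain ⟨a, ha1, ha2⟩ := even_quadC (g := g) (r := r) (S := 10 * S) hr0 hgd hge hg0 hgb x
    have h3 := key _ a ha2
    have h4 := ha2 1 (by rwa [one_smul])
    rw [one_smul, h3, one_pow, mul_one] at h4
    have h5 : (H.a2.ll x - H.a1.ll x) = g x := by rw [hg]
    rw [h5]
    refine h4.trans (le_of_eq ?_)
    ring

end H2

end

end Pool.Agent.N988.MK
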