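import Mathlib
import Pool.Agent.N988.MK.Pair2
import Pool.Agent.N988.MK.Step
import Pool.Agent.N991.MK.Bil

/-!
# The tube bound of the difference, and the far part of the difference
-/

open MeasureTheory Filter Metric Asymptotics Matrix
open scoped Matrix.Norms.Frobenius Topology ContDiff
open Pool.Agent.H906R3.YM Pool.Agent.W793.YM Pool.Agent.TH618.YM Pool.Agent.N984.TW
open Pool.Agent.N991.MK

namespace Pool.Agent.N988.MK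

set_option linter.unusedSectionVars false

noncomputable section

variable {N n : ℕ} {G : Subgroup (UN N)} {B : Frame G n} {hG : IsClosed (G : Set (UN N))}
variable {r κ k₁ k₂ M₁ M₂ l t : ℝ} {F₁ F₂ : (Mat N)ˣ → ℂ} {m₁ m₂ : (Fin n → ℂ) → ℂ}
  {f₁ f₂ : G → ℝ}

variable [CompactSpace G] [MeasurableSpace G] [BorelSpace G] {μ : Measure G}
  [IsProbabilityMeasure μ] [μ.IsMulLeftInvariant] [μ.IsMulRightInvariant] [μ.IsInvInvariant]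

/-- the constant of the difference near the identity -/
def cn (r k₁ k₂ l : ℝ) : ℝ := (|k₂ - k₁| / 2 + l * r ^ 2) * r ^ 2

lemma cn_nonneg (hl : 0 ≤ l) : 0 ≤ cn r k₁ k₂ l := by unfold cn; positivity

/-- the tube bound of the difference -/
theorem TB_diff (hr : GoodR B r) (hs₁ : St B r k₁ M₁ F₁ m₁) (hs₂ : St B r k₂ M₂ F₂ m₂)
    (n1 : F₁ 1 = 1) (n2 : F₂ 1 = 1) (hκ : 0 < κ) (h1 : κ ≤ k₁) (h2 : k₁ ≤ 1.0001 * κ)
    (hM : M₁ * r ^ 2 ≤ k₁ / 2000) (hl : 0 ≤ l)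
    (hb : ∀ x, nC x < r → ‖m₂ x - m₁ x‖ ≤ l * nC x ^ 4)
    (hd : |k₂ - k₁| + 2 * l * r ^ 2 ≤ κ / 10000)
    (htb : ∀ (a : Fin n → ℝ) (y : G), nE a ≤ 0.51 * r → (0.95 * r) ^ 2 < nE a ^ 2 + nN y ^ 2 →
      ‖F₂ (uE B (Complex.I • rl a) * uG y) - F₁ (uE B (Complex.I • rl a) * uG y)‖ ≤
        t * Real.exp (κ / 2 * (1.01 * nE a ^ 2 - 0.99 * min (nN y) r ^ 2))) :
    TB B r κ (max (cn r k₁ k₂ l) t) (fun u => F₂ u - F₁ u) := by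
  have hp := hr.pos
  refine ⟨fun a y hay => ?_, fun a y ha hay => ?_⟩
  · have ha0 := nE_nonneg a
    have hy0 := nN_nonneg y
    have ha : nE a ≤ r := by nlinarith
    have hy : nN y ≤ r := by nlinarith
    obtain ⟨x, e1, e2, e3, e4, e5⟩ := hr.near a y ha hy
    have g1 := nE_re_im x
    have g2 := nC_nonneg x
    have g3 := nE_nonneg (reP x)
    have g4 := nE_nonneg (imP x)
    have h5 : nE (reP x) ^ 2 ≤ 1.001 * nN y ^ 2 := by nlinarith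
    have h6 : nE (imP x) ^ 2 ≤ 1.0004 * nE a ^ 2 := by nlinarith
    have h7 : 0.9996 * nN y ^ 2 ≤ nE (reP x) ^ 2 := by nlinarith
    have hx : nC x < r := by
      have h8 : nC x ^ 2 ≤ 1.001 * (0.95 * r) ^ 2 := by nlinarith
      nlinarith
    have h9 := hs₁.nearS.upper2 (by linarith) hM hx
    rw [n1, norm_one, one_mul] at h9
    have h10 := ee_eq hs₁ hs₂ n1 n2 hx
    have h11 := ee_le (k₁ := k₁) (k₂ := k₂) (hb x hx)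
    obtain ⟨w, hw⟩ : ∃ w, w = ee k₁ k₂ m₁ m₂ x := ⟨_, rfl⟩
    rw [← hw] at h10 h11
    have hxr : nC x ^ 2 ≤ r ^ 2 := pow_le_pow_left₀ g2 hx.le 2
    have h12 : ‖w‖ ≤ (|k₂ - k₁| / 2 + l * r ^ 2) * nC x ^ 2 := by
      refine h11.trans ?_
      gcongr
    have h13 : ‖w‖ ≤ cn r k₁ k₂ l := by
      refine h12.trans ?_
      unfold cn
      gcongr
    have h14 : ‖w‖ ≤ κ / 20000 * nC x ^ 2 := by
      refine h12.trans (mul_le_mul_of_nonneg_right ?_ (sq_nonneg _))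
      linarith
    rw [← e1]
    have e6 : F₂ (uE B x) - F₁ (uE B x) = F₁ (uE B x) * (Complex.exp (-w) - 1) := by
      rw [h10]; ring
    rw [e6, norm_mul]
    have h15 := exp_sub_one_le w
    have k0 : 0 ≤ k₁ := by linarith
    have hexp : k₁ / 2 * (1.001 * nE (imP x) ^ 2 - 0.999 * nE (reP x) ^ 2) + ‖w‖ ≤
        κ / 2 * (1.003 * nE a ^ 2 - 0.997 * nN y ^ 2) := by
      have a1 : k₁ * (1.001 * nE (imP x) ^ 2) ≤ k₁ * (1.0015 * nE a ^ 2) :=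
        mul_le_mul_of_nonneg_left (by nlinarith [sq_nonneg (nE a)]) k0
      have a2 : k₁ * (1.0015 * nE a ^ 2) ≤ 1.0001 * κ * (1.0015 * nE a ^ 2) :=
        mul_le_mul_of_nonneg_right h2 (by positivity)
      have a3 : 0 ≤ κ * nE a ^ 2 := by positivity
      have b1 : k₁ * (0.998 * nN y ^ 2) ≤ k₁ * (0.999 * nE (reP x) ^ 2) :=
        mul_le_mul_of_nonneg_left (by nlinarith [sq_nonneg (nN y)]) k0
      have b2 : κ * (0.998 * nN y ^ 2) ≤ k₁ * (0.998 * nN y ^ 2) :=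
        mul_le_mul_of_nonneg_right h1 (by positivity)
      have b3 : 0 ≤ κ * nN y ^ 2 := by positivity
      have c1 : κ * nC x ^ 2 ≤ κ * (1.001 * nN y ^ 2 + 1.0004 * nE a ^ 2) :=
        mul_le_mul_of_nonneg_left (by linarith) hκ.le
      linarith
    calc ‖F₁ (uE B x)‖ * ‖Complex.exp (-w) - 1‖
        ≤ Real.exp (k₁ / 2 * (1.001 * nE (imP x) ^ 2 - 0.999 * nE (reP x) ^ 2)) *
          (‖w‖ * Real.exp ‖w‖) := mul_le_mul h9 h15 (norm_nonneg _) (Real.exp_pos _).le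
      _ = ‖w‖ * Real.exp (k₁ / 2 * (1.001 * nE (imP x) ^ 2 - 0.999 * nE (reP x) ^ 2) + ‖w‖) := by
          rw [Real.exp_add]; ring
      _ ≤ max (cn r k₁ k₂ l) t * Real.exp (κ / 2 * (1.003 * nE a ^ 2 - 0.997 * nN y ^ 2)) :=
          mul_le_mul (h13.trans (le_max_left _ _)) (Real.exp_le_exp.2 hexp) (Real.exp_pos _).le
            ((cn_nonneg hl).trans (le_max_left _ _))
  · refine (htb a y ha hay).trans (mul_le_mul_of_nonneg_right (le_max_right _ _)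
      (Real.exp_pos _).le)

lemma cf_sub (h1 : CF f₁ F₁) (h2 : CF f₂ F₂) :
    CF (fun x => f₂ x - f₁ x) (fun u => F₂ u - F₁ u) where
  hol := by
    obtain ⟨Φ, a1, a2⟩ := h2.hol
    obtain ⟨Ψ, b1, b2⟩ := h1.hol
    exact ⟨fun p => Φ p - Ψ p, a1.sub b1, fun u => by simp only [a2, b2]⟩
  cls g u := by beta_reduce; rw [h1.cls, h2.cls]
  sym u := by beta_reduce; rw [h1.sym, h2.sym]
  res g := by beta_reduce; rw [h1.res, h2.res]; push_cast; rfl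

/-- **the far part of the difference** -/
theorem far_diff (μ : Measure G) [IsProbabilityMeasure μ] [μ.IsMulLeftInvariant]
    [μ.IsMulRightInvariant] [μ.IsInvInvariant] {r : ℝ} (hr : GoodR B r) :
    ∃ k0 : ℝ, 1 ≤ k0 ∧ ∀ {κ k₁ k₂ M₁ M₂ l t : ℝ} {F₁ F₂ : (Mat N)ˣ → ℂ}
      {m₁ m₂ : (Fin n → ℂ) → ℂ} {f₁ f₂ : G → ℝ}, k0 ≤ κ → κ ≤ k₁ → κ ≤ k₂ → k₁ ≤ 1.0001 * κ →
      k₂ ≤ 1.0001 * κ → M₁ * r ^ 2 ≤ k₁ / 2000 → M₂ * r ^ 2 ≤ k₂ / 2000 → CF f₁ F₁ → CF f₂ F₂ →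
      St B r k₁ M₁ F₁ m₁ → St B r k₂ M₂ F₂ m₂ → Tube B r k₁ F₁ → Tube B r k₂ F₂ →
      F₁ 1 = 1 → F₂ 1 = 1 → 0 ≤ l →
      (∀ x, nC x < r → ‖m₂ x - m₁ x‖ ≤ l * nC x ^ 4) →
      |k₂ - k₁| + 2 * l * r ^ 2 ≤ κ / 10000 → 0 ≤ t →
      (∀ (a : Fin n → ℝ) (y : G), nE a ≤ 0.51 * r → (0.95 * r) ^ 2 < nE a ^ 2 + nN y ^ 2 →
        ‖F₂ (uE B (Complex.I • rl a) * uG y) - F₁ (uE B (Complex.I • rl a) * uG y)‖ ≤
          t * Real.exp (κ / 2 * (1.01 * nE a ^ 2 - 0.99 * min (nN y) r ^ 2))) →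
      ∀ x : Fin n → ℂ, nC x < r →
        ‖(∫ z in {z : G | r / 4 < nN z}, Jn B F₂ x z ∂μ) / F₂ (uE B ((1 / 2 : ℂ) • x)) ^ 2 -
          (∫ z in {z : G | r / 4 < nN z}, Jn B F₁ x z ∂μ) / F₁ (uE B ((1 / 2 : ℂ) • x)) ^ 2‖ ≤
        3 * max (cn r k₁ k₂ l) t / κ ^ 2 * ∫ z : G, (f₁ z) ^ 2 ∂μ := by
  have hp := hr.pos
  obtain ⟨k0, hk0, hfar⟩ := far2 μ hr
  refine ⟨k0, hk0, fun {κ k₁ k₂ M₁ M₂ l t F₁ F₂ m₁ m₂ f₁ f₂} hκ h1 h2 h3 h4 hM₁ hM₂ hf₁ hf₂ hs₁ hs₂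
    ht₁ ht₂ n1 n2 hl hb hd ht htb x hx => ?_⟩
  have hκ0 : 0 < κ := by linarith
  obtain ⟨c, hc⟩ : ∃ c, c = max (cn r k₁ k₂ l) t := ⟨_, rfl⟩
  have hc0 : 0 ≤ c := by rw [hc]; exact ht.trans (le_max_right _ _)
  have hcn : cn r k₁ k₂ l ≤ c := by rw [hc]; exact le_max_left _ _
  have hTD : TB B r κ c (fun u => F₂ u - F₁ u) := by
    rw [hc]
    exact TB_diff hr hs₁ hs₂ n1 n2 hκ0 h1 h3 hM₁ hl hb hd htb
  have hT1 : TB B r κ 1 F₁ := by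
    have := TB.of_state hr hκ0.le h1 h3 hM₁ hs₁.nearS ht₁
    rwa [n1, norm_one] at this
  have hT2 : TB B r κ 1 F₂ := by
    have := TB.of_state hr hκ0.le h2 h4 hM₂ hs₂.nearS ht₂
    rwa [n2, norm_one] at this
  have hF1 : ‖F₁ 1‖ = 1 := by rw [n1, norm_one]
  have hfD : CF (fun x => f₂ x - f₁ x) (fun u => F₂ u - F₁ u) := cf_sub hf₁ hf₂
  have a1 := hfar hκ h1 h3 hM₁ hf₁ hs₁.nearS hF1 hc0 zero_le_one hfD hf₂ hTD hT2 x hx.le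
  have a2 := hfar hκ h1 h3 hM₁ hf₁ hs₁.nearS hF1 zero_le_one hc0 hf₁ hfD hT1 hTD x hx.le
  have a3 := hfar hκ h1 h3 hM₁ hf₁ hs₁.nearS hF1 zero_le_one zero_le_one hf₁ hf₁ hT1 hT1 x hx.le
  obtain ⟨W, hW⟩ : ∃ W : ℝ, W = ∫ z : G, (f₁ z) ^ 2 ∂μ := ⟨_, rfl⟩
  have hW0 : 0 ≤ W := by rw [hW]; exact int_sq_nonneg f₁
  obtain ⟨g, hg⟩ : ∃ g : ℝ, g = Real.exp (-(0.01 * r ^ 2 * κ)) := ⟨_, rfl⟩
  rw [← hW, ← hg] at a1 a2 a3
  rw [← hW]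
  obtain ⟨P₁, hP₁⟩ : ∃ P, P = F₁ (uE B ((1 / 2 : ℂ) • x)) := ⟨_, rfl⟩
  obtain ⟨P₂, hP₂⟩ : ∃ P, P = F₂ (uE B ((1 / 2 : ℂ) • x)) := ⟨_, rfl⟩
  rw [← hP₁] at a1 a2 a3
  rw [← hP₁, ← hP₂]
  have hx0 := nC_nonneg x
  have hx2 : nC ((1 / 2 : ℂ) • x) < r := by rw [nC_half]; linarith
  have hP1 : P₁ ≠ 0 := by
    rw [hP₁, hs₁.eq _ hx2, n1, one_mul]; exact Complex.exp_ne_zero _
  have hP2 : P₂ ≠ 0 := by
    rw [hP₂, hs₂.eq _ hx2, n2, one_mul]; exact Complex.exp_ne_zero _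
  obtain ⟨w, hw⟩ : ∃ w, w = ee k₁ k₂ m₁ m₂ ((1 / 2 : ℂ) • x) := ⟨_, rfl⟩
  have hPP : P₂ = P₁ * Complex.exp (-w) := by
    rw [hP₁, hP₂, hw]; exact ee_eq hs₁ hs₂ n1 n2 hx2
  have hwle : ‖w‖ ≤ (|k₂ - k₁| / 2 + l * r ^ 2) * (r ^ 2 / 4) := by
    have h5 := ee_le (k₁ := k₁) (k₂ := k₂) (hb ((1 / 2 : ℂ) • x) hx2)
    rw [← hw, nC_half] at h5
    refine h5.trans ?_
    have h6 : (nC x / 2) ^ 2 ≤ r ^ 2 / 4 := by
      have := pow_le_pow_left₀ hx0 hx.le 2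
      calc (nC x / 2) ^ 2 = nC x ^ 2 / 4 := by ring
        _ ≤ _ := by linarith
    have h7 : (nC x / 2) ^ 2 ≤ r ^ 2 := by
      have : 0 < r ^ 2 := by positivity
      linarith
    gcongr
  have hw1 : 2 * ‖w‖ ≤ cn r k₁ k₂ l := by
    have h5 : (|k₂ - k₁| / 2 + l * r ^ 2) * (r ^ 2 / 4) = cn r k₁ k₂ l / 4 := by
      unfold cn; ring
    have h6 := cn_nonneg (r := r) (k₁ := k₁) (k₂ := k₂) hl
    linarith
  have hw2 : 2 * ‖w‖ ≤ 0.01 * r ^ 2 * κ := by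
    have h5 : (|k₂ - k₁| / 2 + l * r ^ 2) * (r ^ 2 / 4) ≤ κ / 20000 * (r ^ 2 / 4) :=
      mul_le_mul_of_nonneg_right (by linarith) (by positivity)
    have h6 : 0 ≤ κ * r ^ 2 := by positivity
    linarith
  have hgw : g * Real.exp (2 * ‖w‖) ≤ 1 := by
    rw [hg, ← Real.exp_add]
    exact Real.exp_le_one_iff.2 (by linarith)
  have hg0 : 0 ≤ g := by rw [hg]; exact (Real.exp_pos _).le
  have hκ2 : 0 < κ ^ 2 := by positivity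
  -- the decomposition
  have hint : ∀ {D D' : (Mat N)ˣ → ℂ}, Hol D → Hol D' → IntegrableOn (fun z : G =>
      D (uE B ((1 / 2 : ℂ) • x) * uG z) * D' ((uG z)⁻¹ * uE B ((1 / 2 : ℂ) • x)))
      {z : G | r / 4 < nN z} μ := by
    intro D D' hD hD'
    refine (intg ?_).integrableOn
    refine (hD.cont2 (u := fun z : G => uE B ((1 / 2 : ℂ) • x) * uG z) ?_ ?_).mul
      (hD'.cont2 (u := fun z : G => (uG z)⁻¹ * uE B ((1 / 2 : ℂ) • x)) ?_ ?_)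
    · exact continuous_const.mul mt_cont
    · have : (fun z : G => (((uE B ((1 / 2 : ℂ) • x) * uG z)⁻¹ : (Mat N)ˣ) : Mat N)) =
          fun z : G => mt z⁻¹ * EC B (-((1 / 2 : ℂ) • x)) := by
        funext z; rw [_root_.mul_inv_rev]; rfl
      rw [this]
      exact mt_inv_cont.mul continuous_const
    · exact mt_inv_cont.mul continuous_const
    · have : (fun z : G => ((((uG z)⁻¹ * uE B ((1 / 2 : ℂ) • x))⁻¹ : (Mat N)ˣ) : Mat N)) =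
          fun z : G => EC B (-((1 / 2 : ℂ) • x)) * mt z := by
        funext z; rw [_root_.mul_inv_rev, inv_inv]; rfl
      rw [this]
      exact continuous_const.mul mt_cont
  obtain ⟨J₁, hJ₁⟩ : ∃ J : ℂ, J = ∫ z in {z : G | r / 4 < nN z}, Jn B F₁ x z ∂μ := ⟨_, rfl⟩
  obtain ⟨J₂, hJ₂⟩ : ∃ J : ℂ, J = ∫ z in {z : G | r / 4 < nN z}, Jn B F₂ x z ∂μ := ⟨_, rfl⟩
  have hJJ : J₂ - J₁ = (∫ z in {z : G | r / 4 < nN z},
      (F₂ (uE B ((1 / 2 : ℂ) • x) * uG z) - F₁ (uE B ((1 / 2 : ℂ) • x) * uG z)) *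
        F₂ ((uG z)⁻¹ * uE B ((1 / 2 : ℂ) • x)) ∂μ) +
      ∫ z in {z : G | r / 4 < nN z}, F₁ (uE B ((1 / 2 : ℂ) • x) * uG z) *
        (F₂ ((uG z)⁻¹ * uE B ((1 / 2 : ℂ) • x)) - F₁ ((uG z)⁻¹ * uE B ((1 / 2 : ℂ) • x))) ∂μ := by
    rw [hJ₁, hJ₂]
    unfold Jn
    rw [← integral_sub (hint hf₂.hol hf₂.hol) (hint hf₁.hol hf₁.hol),
      ← integral_add (hint hfD.hol hf₂.hol) (hint hf₁.hol hfD.hol)]
    refine integral_congr_ae (Eventually.of_forall fun z => ?_)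
    beta_reduce
    ring
  have hJ1n : ‖J₁‖ ≤ 1 / κ ^ 2 * g * ‖P₁‖ ^ 2 * W := by
    have e : 1 / κ ^ 2 * g * 1 * 1 * ‖P₁‖ ^ 2 * W = 1 / κ ^ 2 * g * ‖P₁‖ ^ 2 * W := by ring
    rw [e] at a3
    rw [hJ₁]
    exact a3
  have hJJn : ‖J₂ - J₁‖ ≤ 1 / κ ^ 2 * g * (2 * c) * ‖P₁‖ ^ 2 * W := by
    rw [hJJ]
    refine (norm_add_le _ _).trans ((add_le_add a1 a2).trans (le_of_eq ?_))
    ring
  rw [← hJ₁, ← hJ₂]
  have hP1n : 0 < ‖P₁‖ ^ 2 := by have := norm_pos_iff.2 hP1; positivity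
  have hE : (P₂ ^ 2)⁻¹ = (P₁ ^ 2)⁻¹ * Complex.exp (2 * w) := by
    rw [hPP, mul_pow, _root_.mul_inv, ← Complex.exp_nat_mul, ← Complex.exp_neg]
    congr 2
    push_cast
    ring
  have e1 : J₂ / P₂ ^ 2 - J₁ / P₁ ^ 2 = (J₂ - J₁) * ((P₁ ^ 2)⁻¹ * Complex.exp (2 * w)) +
      J₁ * ((P₁ ^ 2)⁻¹ * (Complex.exp (2 * w) - 1)) := by
    rw [div_eq_mul_inv, div_eq_mul_inv, hE]
    ring
  have hne : ‖Complex.exp (2 * w)‖ ≤ Real.exp (2 * ‖w‖) := by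
    have := Complex.norm_exp_le_exp_norm (2 * w)
    rw [norm_mul] at this
    norm_num at this
    exact this
  have hne2 : ‖Complex.exp (2 * w) - 1‖ ≤ 2 * ‖w‖ * Real.exp (2 * ‖w‖) := by
    have := exp_sub_one_le (-(2 * w))
    rw [neg_neg, norm_neg, norm_mul] at this
    norm_num at this
    exact this
  rw [e1]
  refine (norm_add_le _ _).trans ?_
  rw [norm_mul, norm_mul, norm_mul, norm_mul, norm_inv, norm_pow]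
  have b1 : ‖J₂ - J₁‖ * ((‖P₁‖ ^ 2)⁻¹ * ‖Complex.exp (2 * w)‖) ≤ 2 * c / κ ^ 2 * W := by
    calc ‖J₂ - J₁‖ * ((‖P₁‖ ^ 2)⁻¹ * ‖Complex.exp (2 * w)‖)
        ≤ (1 / κ ^ 2 * g * (2 * c) * ‖P₁‖ ^ 2 * W) * ((‖P₁‖ ^ 2)⁻¹ * Real.exp (2 * ‖w‖)) := by
          gcongr
      _ = 2 * c / κ ^ 2 * W * (g * Real.exp (2 * ‖w‖)) * (‖P₁‖ ^ 2 * (‖P₁‖ ^ 2)⁻¹) := by ring
      _ = 2 * c / κ ^ 2 * W * (g * Real.exp (2 * ‖w‖)) := by
          rw [mul_inv_cancel₀ hP1n.ne', mul_one]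
      _ ≤ 2 * c / κ ^ 2 * W * 1 := mul_le_mul_of_nonneg_left hgw (by positivity)
      _ = _ := mul_one _
  have b2 : ‖J₁‖ * ((‖P₁‖ ^ 2)⁻¹ * ‖Complex.exp (2 * w) - 1‖) ≤ c / κ ^ 2 * W := by
    calc ‖J₁‖ * ((‖P₁‖ ^ 2)⁻¹ * ‖Complex.exp (2 * w) - 1‖)
        ≤ (1 / κ ^ 2 * g * ‖P₁‖ ^ 2 * W) * ((‖P₁‖ ^ 2)⁻¹ * (c * Real.exp (2 * ‖w‖))) := by
          have : ‖Complex.exp (2 * w) - 1‖ ≤ c * Real.exp (2 * ‖w‖) := hne2.trans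
            (mul_le_mul_of_nonneg_right (hw1.trans hcn) (Real.exp_pos _).le)
          gcongr
      _ = c / κ ^ 2 * W * (g * Real.exp (2 * ‖w‖)) * (‖P₁‖ ^ 2 * (‖P₁‖ ^ 2)⁻¹) := by ring
      _ = c / κ ^ 2 * W * (g * Real.exp (2 * ‖w‖)) := by
          rw [mul_inv_cancel₀ hP1n.ne', mul_one]
      _ ≤ c / κ ^ 2 * W * 1 := mul_le_mul_of_nonneg_left hgw (by positivity)
      _ = _ := mul_one _
  rw [← hc]
  calc _ ≤ 2 * c / κ ^ 2 * W + c / κ ^ 2 * W := add_le_add b1 b2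
    _ = _ := by ring

end

end Pool.Agent.N988.MK
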