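import Mathlib
import Pool.Agent.N988.MK.Flow
import Pool.Agent.N988.MK.Pair4

/-!
# The renormalisation group step for pairs of states
-/

open MeasureTheory Filter Metric Asymptotics Matrix
open scoped Matrix.Norms.Frobenius Topology ContDiff
open Pool.Agent.H906R3.YM Pool.Agent.W793.YM Pool.Agent.TH618.YM Pool.Agent.N984.TW
open Pool.Agent.N991.MK

namespace Pool.Agent.N988.MK

set_option linter.unusedSectionVars false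

noncomputable section

variable {N n : ℕ} {G : Subgroup (UN N)} {B : Frame G n}
variable {r ε k k₁ k₂ M M₁ M₂ l : ℝ} {F F₁ F₂ : (Mat N)ˣ → ℂ} {m m₁ m₂ : (Fin n → ℂ) → ℂ}
  {f f₁ f₂ : G → ℝ}

lemma cf_smul (h : CF f F) (a : ℝ) : CF (fun x => a * f x) (fun u => (a : ℂ) * F u) where
  hol := by
    obtain ⟨Φ, a1, a2⟩ := h.hol
    exact ⟨fun p => (a : ℂ) * Φ p, contDiff_const.mul a1, fun u => by simp only [a2]⟩
  cls g u := by beta_reduce; rw [h.cls]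
  sym u := by beta_reduce; rw [h.sym]
  res g := by beta_reduce; rw [h.res]; push_cast; rfl

lemma st_smul (h : St B r k M F m) (c : ℂ) : St B r k M (fun u => c * F u) m where
  eq x hx := by beta_reduce; rw [h.eq x hx]; ring
  md := h.md
  even := h.even
  bd := h.bd

lemma tube_smul (h : Tube B r k F) (c : ℂ) : Tube B r k (fun u => c * F u) := fun a y ha => by
  beta_reduce
  rw [norm_mul, norm_mul, mul_assoc]
  exact mul_le_mul_of_nonneg_left (h a y ha) (norm_nonneg _)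

/-- the exponent is negative away from the identity -/
lemma far_neg (hr : 0 < r) {a y : ℝ} (ha0 : 0 ≤ a) (hy0 : 0 ≤ y) (ha : a ≤ 0.51 * r)
    (hay : (0.95 * r) ^ 2 < a ^ 2 + y ^ 2) : 1.01 * a ^ 2 - 0.99 * min y r ^ 2 ≤ 0 := by
  have h2 : a ^ 2 ≤ (0.51 * r) ^ 2 := pow_le_pow_left₀ ha0 ha 2
  have h1 : (0.8 * r) ^ 2 ≤ min y r ^ 2 := by
    refine pow_le_pow_left₀ (by positivity) (le_min ?_ (by linarith)) 2
    nlinarith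
  nlinarith

/-- the pair of states -/
structure PS (B : Frame G n) (r ε k₁ k₂ M₁ M₂ l : ℝ) (f₁ f₂ : G → ℝ) (F₁ F₂ : (Mat N)ˣ → ℂ)
    (m₁ m₂ : (Fin n → ℂ) → ℂ) : Prop where
  N1 : NS B r ε k₁ M₁ f₁ F₁ m₁
  N2 : NS B r ε k₂ M₂ f₂ F₂ m₂
  D : Dd B r k₁ k₂ l F₁ F₂ m₁ m₂

lemma norm_pow4_sub {z w : ℂ} {e l : ℝ} (he : 0 ≤ e) (hz : ‖z‖ ≤ e) (hw : ‖w‖ ≤ e)
    (hd : ‖z - w‖ ≤ l * e) : ‖z ^ 4 - w ^ 4‖ ≤ 4 * l * e ^ 4 := by
  have h1 : z ^ 4 - w ^ 4 = (z - w) * (z ^ 3 + z ^ 2 * w + z * w ^ 2 + w ^ 3) := by ring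
  rw [h1, norm_mul]
  have h2 : ‖z ^ 3 + z ^ 2 * w + z * w ^ 2 + w ^ 3‖ ≤ 4 * e ^ 3 := by
    refine (norm_add_le _ _).trans ?_
    have a1 : ‖z ^ 3 + z ^ 2 * w + z * w ^ 2‖ ≤ ‖z ^ 3‖ + ‖z ^ 2 * w‖ + ‖z * w ^ 2‖ :=
      (norm_add_le _ _).trans (add_le_add (norm_add_le _ _) le_rfl)
    have b1 : ‖z ^ 3‖ ≤ e ^ 3 := by rw [norm_pow]; gcongr
    have b2 : ‖z ^ 2 * w‖ ≤ e ^ 2 * e := by rw [norm_mul, norm_pow]; gcongr
    have b3 : ‖z * w ^ 2‖ ≤ e * e ^ 2 := by rw [norm_mul, norm_pow]; gcongr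
    have b4 : ‖w ^ 3‖ ≤ e ^ 3 := by rw [norm_pow]; gcongr
    calc _ ≤ e ^ 3 + e ^ 2 * e + e * e ^ 2 + e ^ 3 := by linarith
      _ = _ := by ring
  have h3 : 0 ≤ l * e := (norm_nonneg _).trans hd
  calc ‖z - w‖ * ‖z ^ 3 + z ^ 2 * w + z * w ^ 2 + w ^ 3‖ ≤ (l * e) * (4 * e ^ 3) :=
        mul_le_mul hd h2 (norm_nonneg _) h3
    _ = _ := by ring

variable [CompactSpace G] [MeasurableSpace G] [BorelSpace G]

/-- the fourth power -/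
lemma NS.pow4 (h : NS B r ε k M f F m) : NS B r ε (4 * k) (4 * M) (fun x => f x ^ 4)
    (fun u => F u ^ 4) (fun x => 4 * m x) where
  cf := h.cf.pow 4
  pos x := pow_pos (h.pos x) 4
  one := by beta_reduce; rw [h.one, one_pow]
  st := h.st.pow4
  tb := tube_pow4 h.tb
  M0 := by have := h.M0; positivity
  Ml := by
    have := h.Ml
    calc 4 * M * r ^ 2 = 4 * (M * r ^ 2) := by ring
      _ ≤ 4 * (ε * k) := by linarith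
      _ = _ := by ring

lemma PS.pow4 (hr : 0 < r) (h : PS B r ε k₁ k₂ M₁ M₂ l f₁ f₂ F₁ F₂ m₁ m₂) :
    PS B r ε (4 * k₁) (4 * k₂) (4 * M₁) (4 * M₂) (4 * l) (fun x => f₁ x ^ 4) (fun x => f₂ x ^ 4)
      (fun u => F₁ u ^ 4) (fun u => F₂ u ^ 4) (fun x => 4 * m₁ x) (fun x => 4 * m₂ x) := by
  refine ⟨h.N1.pow4, h.N2.pow4, ⟨by have := h.D.l0; positivity, fun x hx => ?_,
    fun a y ha hay => ?_⟩⟩
  · have h1 := h.D.bd x hx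
    rw [← mul_sub, norm_mul]
    norm_num
    linarith
  · have h1 := h.D.tb a y ha hay
    have h2 := h.N1.tb a y ha
    have h3 := h.N2.tb a y ha
    rw [h.N1.one, norm_one, one_mul] at h2
    rw [h.N2.one, norm_one, one_mul] at h3
    obtain ⟨X, hX⟩ : ∃ X, X = 1.01 * nE a ^ 2 - 0.99 * min (nN y) r ^ 2 := ⟨_, rfl⟩
    rw [← hX] at h1 h2 h3 ⊢
    have hX0 : X ≤ 0 := by
      rw [hX]; exact far_neg hr (nE_nonneg a) (nN_nonneg y) ha hay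
    have e1 : ∀ c : ℝ, min k₁ k₂ ≤ c → Real.exp (c / 2 * X) ≤ Real.exp (min k₁ k₂ / 2 * X) := by
      intro c hc
      refine Real.exp_le_exp.2 ?_
      exact mul_le_mul_of_nonpos_right (by linarith) hX0
    have h4 := norm_pow4_sub (Real.exp_pos _).le (h3.trans (e1 _ (min_le_right _ _)))
      (h2.trans (e1 _ (min_le_left _ _))) h1
    have e2 : min (4 * k₁) (4 * k₂) = 4 * min k₁ k₂ :=
      (mul_min_of_nonneg _ _ (by norm_num : (0 : ℝ) ≤ 4)).symm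
    rw [e2]
    refine h4.trans (le_of_eq ?_)
    rw [← Real.exp_nat_mul]
    congr 2
    push_cast
    ring

variable (B) in
/-- **the convolution square of a pair** -/
theorem pair_conv (μ : Measure G) [IsProbabilityMeasure μ] [μ.IsMulLeftInvariant]
    [μ.IsMulRightInvariant] [μ.IsInvInvariant] (hG : IsClosed (G : Set (UN N))) (hI : IsoG B)
    (hn : 0 < n) {cA : ℝ}
    (hcA : ∀ x : Fin n → ℝ, ∑ a, ‖LX B x * B.X a - B.X a * LX B x‖ ^ 2 = cA * nE x ^ 2) :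
    ∃ r₁ ε₁ ε₂ : ℝ, 0 < r₁ ∧ r₁ ≤ 1 ∧ 0 < ε₁ ∧ 0 < ε₂ ∧ ε₂ ≤ 1 / 10000 ∧
      ∀ ε : ℝ, 0 < ε → ε ≤ ε₁ → ∀ r : ℝ, 0 < r → r ≤ r₁ →
      ∃ k₀ K : ℝ, 1 ≤ k₀ ∧ 0 ≤ K ∧ ∀ {k₁ k₂ M₁ M₂ l : ℝ} {f₁ f₂ : G → ℝ}
        {F₁ F₂ : (Mat N)ˣ → ℂ} {m₁ m₂ : (Fin n → ℂ) → ℂ}, k₀ ≤ k₁ → k₀ ≤ k₂ →
        PS B r ε k₁ k₂ M₁ M₂ l f₁ f₂ F₁ F₂ m₁ m₂ →
        |k₂ - k₁| + 2 * l * r ^ 2 ≤ ε₂ * min k₁ k₂ →
        ∃ (k₁' k₂' M₁' M₂' : ℝ) (m₁' m₂' : (Fin n → ℂ) → ℂ) (F₁' F₂' : (Mat N)ˣ → ℂ)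
          (W₁ W₂ : ℝ), 0 < W₁ ∧ 0 < W₂ ∧
          PS B r ε k₁' k₂' M₁' M₂' (l / 8 + K * (|k₂ - k₁| + l) / min k₁ k₂)
            (fun x => W₁⁻¹ * conv μ f₁ f₁ x) (fun x => W₂⁻¹ * conv μ f₂ f₂ x) F₁' F₂' m₁' m₂' ∧
          |k₁' - k₁ / 2| ≤ K ∧ |k₂' - k₂ / 2| ≤ K ∧
          |(k₂' - k₁') - (k₂ - k₁) / 2| ≤ K * (|k₂ - k₁| + l) / min k₁ k₂ := by
  obtain ⟨ra, εa, hra, hεa, -, hstep⟩ := step_D (B := B) μ hG hI hn hcA
  obtain ⟨rb, εb, ε₂, hrb, hrb1, hεb, -, hε₂, hε₂1, hpair⟩ := pair_D (B := B) μ hG hI hn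
  refine ⟨min ra rb, min εa εb, ε₂, lt_min hra hrb, (min_le_right _ _).trans hrb1,
    lt_min hεa hεb, hε₂, hε₂1, fun ε hε hεε r hr hrr => ?_⟩
  obtain ⟨-, ka, Ka, hka, hKa, hstep⟩ := hstep ε hε (hεε.trans (min_le_left _ _)) r hr
    (hrr.trans (min_le_left _ _))
  obtain ⟨-, kb, Kb, hkb, hKb, hpair⟩ := hpair ε hε (hεε.trans (min_le_right _ _)) r hr
    (hrr.trans (min_le_right _ _))
  refine ⟨max ka kb, max Ka Kb, hka.trans (le_max_left _ _), hKa.trans (le_max_left _ _),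
    fun {k₁ k₂ M₁ M₂ l f₁ f₂ F₁ F₂ m₁ m₂} hk1 hk2 P hd => ?_⟩
  obtain ⟨k₁', M₁', m₁', -, a2, a3, -, a5, a6, a7⟩ := hstep ((le_max_left _ _).trans hk1) P.N1.M0
    P.N1.Ml P.N1.cf P.N1.pos P.N1.st P.N1.tb
  obtain ⟨k₂', M₂', m₂', -, b2, b3, -, b5, b6, b7⟩ := hstep ((le_max_left _ _).trans hk2) P.N2.M0
    P.N2.Ml P.N2.cf P.N2.pos P.N2.st P.N2.tb
  obtain ⟨p1, p2, p3⟩ := hpair ((le_max_right _ _).trans hk1) ((le_max_right _ _).trans hk2)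
    P.N1 P.N2 P.D hd a6 b6
  obtain ⟨κ, hκ⟩ : ∃ κ, κ = min k₁ k₂ := ⟨_, rfl⟩
  have hκ1 : 1 ≤ κ := by
    rw [hκ]; exact (hka.trans (le_max_left _ _)).trans (le_min hk1 hk2)
  have hκ0 : 0 < κ := by linarith
  rw [← hκ] at p1 p2 p3 ⊢
  have hl := P.D.l0
  have hX0 : 0 ≤ (|k₂ - k₁| + l) / κ := by positivity
  have hKK : ∀ c : ℝ, c * (|k₂ - k₁| + l) / κ = c * ((|k₂ - k₁| + l) / κ) := fun c => by
    rw [mul_div_assoc]
  have hmono : Kb * (|k₂ - k₁| + l) / κ ≤ max Ka Kb * (|k₂ - k₁| + l) / κ := by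
    rw [hKK, hKK]
    exact mul_le_mul_of_nonneg_right (le_max_right _ _) hX0
  obtain ⟨W₁, hW₁⟩ : ∃ W : ℝ, W = ∫ z : G, (f₁ z) ^ 2 ∂μ := ⟨_, rfl⟩
  obtain ⟨W₂, hW₂⟩ : ∃ W : ℝ, W = ∫ z : G, (f₂ z) ^ 2 ∂μ := ⟨_, rfl⟩
  rw [← hW₁, ← hW₂] at p3
  have hWpos : ∀ {f : G → ℝ}, Continuous f → (∀ x, 0 < f x) → 0 < ∫ z : G, (f z) ^ 2 ∂μ := by
    intro f hfc hpos
    refine (integral_pos_iff_support_of_nonneg (fun z => sq_nonneg _)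
      (intgR (μ := μ) (hfc.pow 2))).2 ?_
    have : Function.support (fun z : G => (f z) ^ 2) = Set.univ := by
      ext z
      simp only [Function.mem_support, Set.mem_univ, iff_true]
      exact pow_ne_zero 2 (hpos z).ne'
    rw [this, measure_univ]
    exact one_pos
  have q1 : 0 < W₁ := by rw [hW₁]; exact hWpos P.N1.cf.cont P.N1.pos
  have q2 : 0 < W₂ := by rw [hW₂]; exact hWpos P.N2.cf.cont P.N2.pos
  have mk : ∀ {k M W : ℝ} {f : G → ℝ} {F : (Mat N)ˣ → ℂ} {m : (Fin n → ℂ) → ℂ}, 0 < W →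
      W = ∫ z : G, (f z) ^ 2 ∂μ → CF f F → (∀ x, 0 < f x) → 0 ≤ M → M * r ^ 2 ≤ ε * k →
      St B r k M (convC μ F F) m → Tube B r k (convC μ F F) →
      NS B r ε k M (fun x => W⁻¹ * conv μ f f x)
        (fun u => ((W⁻¹ : ℝ) : ℂ) * convC μ F F u) m := by
    intro k M W f F m hW hWe hf hpos hM hMl hs ht
    refine ⟨cf_smul (hf.convC hf) _, fun x => ?_, ?_, st_smul hs _, tube_smul ht _, hM, hMl⟩
    · exact mul_pos (inv_pos.2 hW) (conv_pos hf.cont hf.cont hpos hpos x)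
    · beta_reduce
      rw [conv_one (B := B) (hG := hG) hf, ← hWe, ← Complex.ofReal_mul,
        inv_mul_cancel₀ hW.ne', Complex.ofReal_one]
  refine ⟨k₁', k₂', M₁', M₂', m₁', m₂', fun u => ((W₁⁻¹ : ℝ) : ℂ) * convC μ F₁ F₁ u,
    fun u => ((W₂⁻¹ : ℝ) : ℂ) * convC μ F₂ F₂ u, W₁, W₂, q1, q2, ⟨mk q1 hW₁ P.N1.cf P.N1.pos a3 a5
    a6 a7, mk q2 hW₂ P.N2.cf P.N2.pos b3 b5 b6 b7, ⟨by positivity, fun x hx => ?_,
    fun a y ha hay => ?_⟩⟩, a2.trans (le_max_left _ _), b2.trans (le_max_left _ _),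
    p1.trans hmono⟩
  · refine (p2 x hx).trans (mul_le_mul_of_nonneg_right (by linarith) ?_)
    have := nC_nonneg x
    positivity
  · have h1 := p3 a y ha hay
    have e : ∀ (A : ℂ) (W : ℝ), ((W⁻¹ : ℝ) : ℂ) * A = A / (W : ℂ) := fun A W => by
      push_cast; rw [inv_mul_eq_div]
    beta_reduce
    rw [e, e]
    refine h1.trans (mul_le_mul_of_nonneg_right ?_ (Real.exp_pos _).le)
    linarith

end

end Pool.Agent.N988.MK
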