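import Mathlib
import Pool.Agent.N988.MK.Main
import Pool.Agent.N988.MK.Tan5
import Pool.Agent.N991.MK.Tan1

/-!
# The states and the tangent vectors of the flow: definitions
-/

open MeasureTheory Filter Metric Asymptotics Matrix
open scoped Matrix.Norms.Frobenius Topology ContDiff
open Pool.Agent.H906R3.YM Pool.Agent.W793.YM Pool.Agent.TH618.YM Pool.Agent.N984.TW
open Pool.Agent.N991.MK

namespace Pool.Agent.N988.MK

set_option linter.unusedSectionVars false

noncomputable section

variable {N n : ℕ} {G : Subgroup (UN N)} {B : Frame G n}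
variable [CompactSpace G] [MeasurableSpace G] [BorelSpace G]

variable (B) in
/-- the tangent vectors of the states of the flow (a condition on `ng f g` only) -/
def TSt (r : ℝ) (f g : G → ℝ) (h a l : ℝ) : Prop :=
  ∃ (F H : (Mat N)ˣ → ℂ) (η : (Fin n → ℂ) → ℂ), CF (nf f) F ∧ CF (ng f g) H ∧
    Tg B r h a l l F H η

variable (B) in
/-- the states of the flow with the strict tube bound -/
def PT (μ : Measure G) (r ε h1 C1 : ℝ) (f : G → ℝ) (h ρ : ℝ) : Prop :=
  PSt B μ r ε h1 C1 f h ρ ∧ ∃ F : (Mat N)ˣ → ℂ, CF f F ∧ TubeS B r h F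

end

end Pool.Agent.N988.MK
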