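import Mathlib
import Pool.Agent.N991.MK.FmP2

/-!
# The character of an irreducible constituent of the defining representation
-/

open MeasureTheory Matrix Filter
open scoped Matrix.Norms.Frobenius ContDiff Topology
open Pool.Agent.H906R3.YM Pool.Agent.W793.YM Pool.Agent.TH618.YM Pool.Agent.N984.TW
open Pool.Agent.N991.MK Pool.Agent.N989.MK

namespace Pool.Agent.N988.MK

set_option linter.unusedSectionVars false

noncomputable section

variable {N : ℕ} {G : Subgroup (UN N)} {P : Mat N}

/-- a non-trivial irreducible constituent -/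
structure IrC (G : Subgroup (UN N)) (P : Mat N) : Prop where
  pr : IPr G P
  ne : P ≠ 0
  irr : ∀ A : Mat N, (∀ x : G, A * mt x = mt x * A) → ∃ c : ℂ, P * A * P = c • P
  nt : ∃ g : G, P * mt g ≠ P

lemma trP_norm (hP : IPr G P) : (trace P).re = ‖P‖ ^ 2 := by
  rw [norm_sq_ip, ip_apply, hP.herm, hP.idem]

lemma IrC.tr_pos (h : IrC G P) : 0 < (trace P).re := by
  rw [trP_norm h.pr]
  have := norm_pos_iff.2 h.ne
  positivity

lemma trP_real (hP : IPr G P) : (((trace P).re : ℝ) : ℂ) = trace P := by
  have : star (trace P) = trace P := by rw [← trace_conjTranspose, hP.herm]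
  exact Complex.conj_eq_iff_re.1 this

lemma chiP_cont : Continuous (chiP P : G → ℝ) := by
  unfold chiP
  have h1 : Continuous fun x : G => (trace (P * mt x)).re :=
    Complex.continuous_re.comp (Continuous.matrix_trace (continuous_const.mul mt_cont))
  exact h1.div_const _

lemma trP_cls (hP : IPr G P) (g x : G) : trace (P * mt (g * x * g⁻¹)) = trace (P * mt x) := by
  have h1 : P * mt (g * x * g⁻¹) = mt g * (P * mt x) * (mt g)ᴴ := by
    rw [mt_mul, mt_mul, Pool.Agent.N989.MK.mt_inv, ← mul_assoc, ← mul_assoc, hP.comm, mul_assoc (mt g)]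
  rw [h1, trace_mul_cycle]
  have : (mt g)ᴴ * mt g = 1 := rhoG_unit' g
  rw [this, one_mul]

lemma chiP_cls (hP : IPr G P) : Cls (chiP P : G → ℝ) := fun g x => by
  unfold chiP
  rw [trP_cls hP]

lemma trP_inv (hP : IPr G P) (x : G) : (trace (P * mt x⁻¹)).re = (trace (P * mt x)).re := by
  have h1 : P * mt x⁻¹ = (P * mt x)ᴴ := by
    rw [Pool.Agent.N989.MK.mt_inv, hP.comm, conjTranspose_mul, hP.herm]
  rw [h1, trace_conjTranspose, Complex.star_def, Complex.conj_re]

lemma chiP_sy (hP : IPr G P) : Sy (chiP P : G → ℝ) := fun x => by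
  unfold chiP
  rw [trP_inv hP]

lemma chiP_le (h : IrC G P) (x : G) : |chiP P x| ≤ 1 := by
  unfold chiP
  have hp := h.tr_pos
  rw [abs_div, abs_of_pos hp, div_le_one hp]
  have h1 : (trace (P * mt x)).re = ip P (P * mt x) := by
    rw [ip_apply, h.pr.herm, ← mul_assoc, h.pr.idem]
  rw [h1, trP_norm h.pr]
  refine (abs_ip_le _ _).trans ?_
  rw [norm_mul_unit, sq]

lemma chiP_one (h : IrC G P) : chiP P (1 : G) = 1 := by
  unfold chiP
  rw [mt_one, mul_one, div_self h.tr_pos.ne']

lemma trP_pd (hP : IPr G P) : PDf (fun x : G => (trace (P * mt x)).re) := fun k x => by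
  rw [Matrix.posSemidef_iff_dotProduct_mulVec]
  refine ⟨?_, fun v => ?_⟩
  · ext i j
    simp only [Matrix.conjTranspose_apply, Matrix.of_apply, star_trivial]
    rw [← trP_inv hP]
    congr 3
    congr 1
    group
  · simp only [dotProduct, Matrix.mulVec, Matrix.of_apply, star_trivial]
    set A : Mat N := ∑ i, v i • (P * mt (x i)) with hA
    have h1 : ∑ i, v i * ∑ j, (trace (P * mt ((x i)⁻¹ * x j))).re * v j =
        (trace (Aᴴ * A)).re := by
      have h2 : Aᴴ * A = ∑ i, ∑ j, (v i * v j) • (P * mt ((x i)⁻¹ * x j)) := by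
        rw [hA, conjTranspose_sum, Finset.sum_mul]
        refine Finset.sum_congr rfl fun i _ => ?_
        rw [Finset.mul_sum]
        refine Finset.sum_congr rfl fun j _ => ?_
        have e : (P * mt (x i))ᴴ * (P * mt (x j)) = P * mt ((x i)⁻¹ * x j) := by
          rw [conjTranspose_mul, hP.herm, mul_assoc, ← mul_assoc P P, hP.idem, mt_mul,
            Pool.Agent.N989.MK.mt_inv, ← mul_assoc, ← mul_assoc]
          congr 1
          have h3 := hP.comm (x i)⁻¹
          rw [Pool.Agent.N989.MK.mt_inv] at h3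
          exact h3.symm
        rw [conjTranspose_smul, star_trivial, smul_mul_smul_comm, e]
      rw [h2, trace_sum, Complex.re_sum]
      refine Finset.sum_congr rfl fun i _ => ?_
      rw [trace_sum, Complex.re_sum, Finset.mul_sum]
      refine Finset.sum_congr rfl fun j _ => ?_
      rw [trace_smul, Complex.smul_re, smul_eq_mul]
      ring
    rw [h1]
    have h3 : ip A A = (trace (Aᴴ * A)).re := by rw [ip_apply]
    rw [← h3, ← norm_sq_ip]
    positivity

lemma chiP_pd (h : IrC G P) : PDf (chiP P : G → ℝ) := fun k x => by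
  have h1 := trP_pd h.pr k x
  have h2 : (Matrix.of fun i j => chiP P ((x i)⁻¹ * x j)) =
      ((trace P).re)⁻¹ • (Matrix.of fun i j => (trace (P * mt ((x i)⁻¹ * x j))).re) := by
    ext i j
    simp only [Matrix.of_apply, Matrix.smul_apply, smul_eq_mul]
    unfold chiP
    ring
  rw [h2]
  exact h1.smul (inv_nonneg.2 h.tr_pos.le)

variable [MeasurableSpace G] [BorelSpace G] [CompactSpace G] [SecondCountableTopology G]
  {μ : Measure G} [IsProbabilityMeasure μ]
  [μ.IsHaarMeasure] [μ.IsMulRightInvariant] [μ.IsInvInvariant]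

lemma trace_P_Mf {f : G → ℝ} (hf : Continuous f) :
    trace (P * Mf μ f) = ∫ x, (f x : ℂ) * trace (P * mt x) ∂μ := by
  have h1 : ∀ A : Mat N, trace (P * A) = ∑ i, ∑ j, P i j * A j i := by
    intro A
    unfold trace
    simp only [diag_apply, mul_apply]
  rw [h1]
  have h2 : ∀ x : G, (f x : ℂ) * trace (P * mt x) = ∑ i, ∑ j, P i j * ((f x : ℂ) * mt x j i) := by
    intro x
    rw [h1, Finset.mul_sum]
    refine Finset.sum_congr rfl fun i _ => ?_
    rw [Finset.mul_sum]
    exact Finset.sum_congr rfl fun j _ => by ring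
  simp only [h2]
  rw [integral_finsetSum _ fun i _ => integrable_finsetSum _ fun j _ => (int_ent hf j i).const_mul _]
  refine Finset.sum_congr rfl fun i _ => ?_
  rw [integral_finsetSum _ fun j _ => (int_ent hf j i).const_mul _]
  refine Finset.sum_congr rfl fun j _ => ?_
  rw [integral_const_mul, Mf_apply]

lemma trace_P_Mf_re {f : G → ℝ} (hf : Continuous f) :
    (trace (P * Mf μ f)).re = ∫ x, f x * (trace (P * mt x)).re ∂μ := by
  have hint : Integrable (fun x : G => (f x : ℂ) * trace (P * mt x)) μ :=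
    ((Complex.continuous_ofReal.comp hf).mul
      (Continuous.matrix_trace (continuous_const.mul mt_cont))).integrable_of_hasCompactSupport
      (HasCompactSupport.of_compactSpace _)
  rw [trace_P_Mf hf, ← RCLike.re_eq_complex_re, ← integral_re hint]
  refine integral_congr_ae (Eventually.of_forall fun x => ?_)
  simp

/-- Schur's lemma in the constituent -/
lemma Mf_P (h : IrC G P) {f : G → ℝ} (hf : Continuous f) (hc : Cls f) (hs : Sy f) :
    P * Mf μ f * P = ((∫ x, f x * chiP P x ∂μ : ℝ) : ℂ) • P := by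
  have h1 : ∀ y : G, Mf μ f * mt y = mt y * Mf μ f := by
    intro y
    rw [Mf_mul hf, mul_Mf hf]
    congr 1
    funext x
    rw [hc.swap]
  obtain ⟨c, hcc⟩ := h.irr _ h1
  have hstar : (Mf μ f)ᴴ = Mf μ f := by
    ext i j
    rw [conjTranspose_apply, Mf_apply, Mf_apply,
      ← integral_inv_eq_self (μ := μ) (fun x => (f x : ℂ) * mt x i j)]
    have h2 : star (∫ x, (f x : ℂ) * mt x j i ∂μ) = ∫ x, star ((f x : ℂ) * mt x j i) ∂μ :=
      (integral_conj (μ := μ) (f := fun x : G => (f x : ℂ) * mt x j i)).symm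
    rw [h2]
    refine integral_congr_ae (Eventually.of_forall fun x => ?_)
    beta_reduce
    rw [Pool.Agent.N989.MK.mt_inv, conjTranspose_apply, hs]
    simp
  have htr : trace (P * Mf μ f * P) = c * trace P := by
    rw [hcc, trace_smul, smul_eq_mul]
  have htr1 : trace (P * Mf μ f * P) = trace (P * Mf μ f) := by
    rw [trace_mul_cycle, h.pr.idem]
  have htr2 : star (trace (P * Mf μ f)) = trace (P * Mf μ f) := by
    rw [← trace_conjTranspose, conjTranspose_mul, hstar, h.pr.herm, trace_mul_comm]
  have hre : ((trace (P * Mf μ f)).re : ℂ) = trace (P * Mf μ f) := Complex.conj_eq_iff_re.1 htr2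
  have h3 := trace_P_Mf_re (μ := μ) (P := P) hf
  have hp := h.tr_pos
  have hp' : (((trace P).re : ℝ) : ℂ) ≠ 0 := Complex.ofReal_ne_zero.2 hp.ne'
  have h4 : ∫ x, f x * chiP P x ∂μ = (trace (P * Mf μ f)).re / (trace P).re := by
    rw [h3, ← integral_div]
    refine integral_congr_ae (Eventually.of_forall fun x => ?_)
    unfold chiP
    beta_reduce
    ring
  rw [hcc, h4]
  congr 1
  rw [Complex.ofReal_div, hre, ← htr1, htr, trP_real h.pr]
  rw [trP_real h.pr] at hp'
  field_simp

lemma P_Mf_comm (hP : IPr G P) {f : G → ℝ} (hf : Continuous f) : P * Mf μ f = Mf μ f * P := by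
  ext i j
  rw [mul_apply, mul_apply]
  have h1 : ∑ k, P i k * Mf μ f k j = ∫ x, (f x : ℂ) * (P * mt x) i j ∂μ := by
    have e : ∀ x : G, (f x : ℂ) * (P * mt x) i j = ∑ k, P i k * ((f x : ℂ) * mt x k j) := by
      intro x
      rw [mul_apply, Finset.mul_sum]
      exact Finset.sum_congr rfl fun k _ => by ring
    simp only [e]
    rw [integral_finsetSum _ fun k _ => (int_ent hf k j).const_mul _]
    refine Finset.sum_congr rfl fun k _ => ?_
    rw [integral_const_mul, Mf_apply]
  have h2 : ∑ k, Mf μ f i k * P k j = ∫ x, (f x : ℂ) * (mt x * P) i j ∂μ := by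
    have e : ∀ x : G, (f x : ℂ) * (mt x * P) i j = ∑ k, ((f x : ℂ) * mt x i k) * P k j := by
      intro x
      rw [mul_apply, Finset.mul_sum]
      exact Finset.sum_congr rfl fun k _ => by ring
    simp only [e]
    rw [integral_finsetSum _ fun k _ => (int_ent hf i k).mul_const _]
    refine Finset.sum_congr rfl fun k _ => ?_
    rw [integral_mul_const, Mf_apply]
  rw [h1, h2]
  refine integral_congr_ae (Eventually.of_forall fun x => ?_)
  beta_reduce
  rw [hP.comm]

/-- **the character of an irreducible constituent has all the required properties** -/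
theorem obs_chiP (h : IrC G P) : Obs μ (chiP P) := by
  refine ⟨chiP_cont, chiP_le h, chiP_one h, ?_, chiP_pd h, chiP_cls h.pr, chiP_sy h.pr, ?_⟩
  · -- the mean vanishes
    have h1 := Mf_P (μ := μ) h (f := fun _ => 1) continuous_const (fun _ _ => rfl) (fun _ => rfl)
    simp only [one_mul] at h1
    set c := ∫ x, chiP P x ∂μ with hc
    by_contra hne
    obtain ⟨g, hg⟩ := h.nt
    refine hg ?_
    have h3 := mul_Mf (μ := μ) (f := fun _ => 1) continuous_const g
    have h4 : mt g * Mf μ (fun _ => 1) = Mf μ (fun _ => 1) := h3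
    have h5 : P * mt g * (P * Mf μ (fun _ => 1) * P) = P * Mf μ (fun _ => 1) * P := by
      rw [h.pr.comm g]
      calc mt g * P * (P * Mf μ (fun _ => 1) * P) = mt g * (P * P) * Mf μ (fun _ => 1) * P := by
            noncomm_ring
        _ = mt g * P * Mf μ (fun _ => 1) * P := by rw [h.pr.idem]
        _ = P * (mt g * Mf μ (fun _ => 1)) * P := by rw [← h.pr.comm g]; noncomm_ring
        _ = _ := by rw [h4]
    rw [h1, mul_smul_comm, mul_assoc, ← h.pr.comm g, ← mul_assoc, h.pr.idem] at h5
    have h6 : (c : ℂ) ≠ 0 := by exact_mod_cast hne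
    exact smul_right_injective _ h6 h5
  · intro f g hf hg hfc hgc hfs hgs
    have h1 := Mf_conv (μ := μ) hf hg
    have h2 : P * Mf μ (conv μ f g) * P = (P * Mf μ f * P) * (P * Mf μ g * P) := by
      rw [h1]
      have e1 := P_Mf_comm (μ := μ) h.pr hf
      calc P * (Mf μ f * Mf μ g) * P = (P * Mf μ f) * Mf μ g * P := by noncomm_ring
        _ = (P * P * Mf μ f) * Mf μ g * P := by rw [h.pr.idem]
        _ = (P * (P * Mf μ f)) * Mf μ g * P := by noncomm_ring
        _ = (P * (Mf μ f * P)) * Mf μ g * P := by rw [e1]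
        _ = (P * Mf μ f) * P * Mf μ g * P := by noncomm_ring
        _ = (P * Mf μ f) * (P * P) * Mf μ g * P := by rw [h.pr.idem]
        _ = _ := by noncomm_ring
    rw [Mf_P h hf hfc hfs, Mf_P h hg hgc hgs,
      Mf_P h (cont_conv hf hg) (conv_cls hfc hgc) (conv_sy hfc hgc hfs hgs),
      smul_mul_smul_comm, h.pr.idem] at h2
    have h3 := smul_left_injective ℂ h.ne h2
    beta_reduce at h3
    exact_mod_cast h3

lemma compl_pr (hP : IPr G P) : IPr G (1 - P) where
  herm := by rw [conjTranspose_sub, conjTranspose_one, hP.herm]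
  idem := by
    have h1 : (1 - P) * (1 - P) = 1 - P - P + P * P := by noncomm_ring
    rw [h1, hP.idem]; abel
  comm g := by rw [sub_mul, mul_sub, one_mul, mul_one, hP.comm]

lemma trP_contR : Continuous (fun x : G => (trace (P * mt x)).re) :=
  Complex.continuous_re.comp (Continuous.matrix_trace (continuous_const.mul mt_cont))

lemma tr_contR : Continuous (fun x : G => (trace (mt x)).re) :=
  Complex.continuous_re.comp (Continuous.matrix_trace mt_cont)

lemma tr_pd : PDf (fun x : G => (trace (mt x)).re) := by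
  have h : IPr G (1 : Mat N) := ⟨conjTranspose_one, one_mul 1, fun g => by rw [one_mul, mul_one]⟩
  have := trP_pd h
  simpa only [one_mul] using this

/-- the defining character has a positive overlap with the constituent -/
lemma overlap_pos (h : IrC G P) : 0 < ∫ x : G, (trace (mt x)).re * chiP P x ∂μ := by
  have hp := h.tr_pos
  have e : ∀ x : G, (trace (mt x)).re * chiP P x =
      (trace P).re * (chiP P x * chiP P x) + (trace ((1 - P) * mt x)).re * chiP P x := by
    intro x
    have h1 : (trace (mt x)).re = (trace (P * mt x)).re + (trace ((1 - P) * mt x)).re := by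
      rw [← Complex.add_re, ← trace_add, ← add_mul, add_sub_cancel, one_mul]
    rw [h1]
    unfold chiP
    field_simp
  simp only [e]
  have c1 : Continuous fun x : G => (trace P).re * (chiP P x * chiP P x) :=
    continuous_const.mul (chiP_cont.mul chiP_cont)
  have c2 : Continuous fun x : G => (trace ((1 - P) * mt x)).re * chiP P x :=
    trP_contR.mul chiP_cont
  rw [integral_add (integrable_of_cont c1) (integrable_of_cont c2)]
  have h2 : 0 ≤ ∫ x : G, (trace ((1 - P) * mt x)).re * chiP P x ∂μ :=
    PDf.int_nonneg c2 ((trP_pd (compl_pr h.pr)).mul (chiP_pd h))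
  have h3 : 0 < ∫ x : G, (trace P).re * (chiP P x * chiP P x) ∂μ := by
    refine c1.integral_pos_of_hasCompactSupport_nonneg_nonzero
      (HasCompactSupport.of_compactSpace _) (fun x => ?_) (x := 1) ?_
    · exact mul_nonneg hp.le (mul_self_nonneg _)
    · rw [chiP_one h]
      simp only [mul_one]
      exact hp.ne'
  linarith

/-- **positivity of the Wilson mean in the constituent** -/
theorem wz_W_P (h : IrC G P) {β : ℝ} (hβ : 0 < β) : 0 < WW μ (chiP P) (wz G β) := by
  have hA : Adm (wz G β) := wz_adm β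
  have hI := hA.ipos (μ := μ)
  unfold WW
  refine div_pos ?_ hI
  obtain ⟨τ, hτ⟩ : ∃ τ : G → ℝ, τ = fun x => (trace (mt x)).re := ⟨_, rfl⟩
  have hτc : Continuous τ := by rw [hτ]; exact tr_contR
  have hτp : PDf τ := by rw [hτ]; exact tr_pd
  obtain ⟨F, hF⟩ : ∃ F : ℕ → G → ℝ, F = fun k x => (β * τ x) ^ k / k.factorial * chiP P x :=
    ⟨_, rfl⟩
  obtain ⟨b, hb⟩ : ∃ b : ℝ, ∀ x, |τ x| ≤ b := by
    obtain ⟨b, hb⟩ := (isCompact_univ (X := G)).exists_bound_of_continuousOn hτc.continuousOn
    exact ⟨b, fun x => by simpa using hb x (Set.mem_univ x)⟩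
  have hb0 : 0 ≤ b := (abs_nonneg _).trans (hb 1)
  have hFc : ∀ k, Continuous (F k) := fun k => by
    rw [hF]
    exact (((continuous_const.mul hτc).pow k).div_const _).mul chiP_cont
  have hFi : ∀ k, Integrable (F k) μ := fun k => integrable_of_cont (hFc k)
  have hFb : ∀ k x, ‖F k x‖ ≤ (β * b) ^ k / k.factorial := by
    intro k x
    rw [hF, Real.norm_eq_abs, abs_mul, abs_div, abs_pow, abs_mul, abs_of_pos hβ, Nat.abs_cast]
    have h1 := chiP_le h x
    have h2 := hb x
    calc (β * |τ x|) ^ k / k.factorial * |chiP P x| ≤ (β * b) ^ k / k.factorial * 1 := by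
          gcongr
      _ = _ := mul_one _
  have hsum : Summable fun k : ℕ => ∫ x, ‖F k x‖ ∂μ := by
    refine Summable.of_nonneg_of_le (fun k => integral_nonneg fun x => norm_nonneg _)
      (fun k => ?_) (Real.summable_pow_div_factorial (β * b))
    have h1 := integral_mono (μ := μ) (hFi k).norm (integrable_const ((β * b) ^ k / k.factorial))
      (fun x => hFb k x)
    simpa using h1
  have hs := hasSum_integral_of_summable_integral_norm hFi hsum
  have e1 : ∫ x, wz G β x * chiP P x ∂μ = ∫ x, ∑' k, F k x ∂μ := by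
    refine integral_congr_ae (Eventually.of_forall fun x => ?_)
    beta_reduce
    rw [hF]
    beta_reduce
    rw [tsum_mul_right]
    congr 1
    unfold wz
    rw [Real.exp_eq_exp_ℝ, NormedSpace.exp_eq_tsum_div, hτ]
  have hnn : ∀ k, 0 ≤ ∫ x, F k x ∂μ := by
    intro k
    have e2 : ∫ x, F k x ∂μ = β ^ k / k.factorial * ∫ x, τ x ^ k * chiP P x ∂μ := by
      rw [← integral_const_mul, hF]
      refine integral_congr_ae (Eventually.of_forall fun x => ?_)
      beta_reduce
      rw [mul_pow]
      ring
    rw [e2]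
    have h1 : 0 ≤ ∫ x, τ x ^ k * chiP P x ∂μ :=
      PDf.int_nonneg ((hτc.pow k).mul chiP_cont) ((hτp.pow k).mul (chiP_pd h))
    positivity
  have h1 : 0 < ∫ x, F 1 x ∂μ := by
    have e2 : ∫ x, F 1 x ∂μ = β * ∫ x : G, (trace (mt x)).re * chiP P x ∂μ := by
      rw [← integral_const_mul, hF, hτ]
      refine integral_congr_ae (Eventually.of_forall fun x => ?_)
      beta_reduce
      simp
      ring
    rw [e2]
    exact mul_pos hβ (overlap_pos h)
  rw [e1]
  exact lt_of_lt_of_le h1 (le_hasSum hs 1 fun k _ => hnn k)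

end

end Pool.Agent.N988.MK
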