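import Mathlib
import Pool.Agent.N988.MK.Pair5
import Pool.Agent.N989.MK.Obs

/-!
# The comparison of pairs of trajectories of the weak coupling flow
-/

open MeasureTheory Filter Metric Asymptotics Matrix
open scoped Matrix.Norms.Frobenius Topology ContDiff
open Pool.Agent.H906R3.YM Pool.Agent.W793.YM Pool.Agent.TH618.YM Pool.Agent.N984.TW
open Pool.Agent.N991.MK

namespace Pool.Agent.N988.MK

set_option linter.unusedSectionVars false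

noncomputable section

variable {N n : ℕ} {G : Subgroup (UN N)} {B : Frame G n} {hG : IsClosed (G : Set (UN N))}
variable [CompactSpace G] [MeasurableSpace G] [BorelSpace G] [SecondCountableTopology G]
  {μ : Measure G} [IsProbabilityMeasure μ] [μ.IsHaarMeasure] [μ.IsMulRightInvariant]
  [μ.IsInvInvariant]

variable (B) in
/-- the pairs of states of the flow -/
def QSt (r ε ε₂ : ℝ) (f₁ f₂ : G → ℝ) (k₁ k₂ l : ℝ) : Prop :=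
  ∃ (c₁ c₂ : ℝ) (g₁ g₂ : G → ℝ) (F₁ F₂ : (Mat N)ˣ → ℂ) (m₁ m₂ : (Fin n → ℂ) → ℂ)
    (M₁ M₂ l₀ : ℝ), 0 < c₁ ∧ 0 < c₂ ∧ f₁ = (fun x => c₁ * g₁ x) ∧ f₂ = (fun x => c₂ * g₂ x) ∧
    PS B r ε k₁ k₂ M₁ M₂ l₀ g₁ g₂ F₁ F₂ m₁ m₂ ∧ l₀ ≤ l ∧ 2 * l₀ * r ^ 2 ≤ ε₂ * min k₁ k₂

variable (B μ) in
/-- the lower Lipschitz bound of an observable on the pairs of normalised states -/
def WilLipX (χ : G → ℝ) : Prop := ∃ r2 ε2 : ℝ, 0 < r2 ∧ 0 < ε2 ∧ ∀ r : ℝ, 0 < r → r ≤ r2 →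
  GoodR B r → ∃ k0 C c0 : ℝ, 1 ≤ k0 ∧ 0 ≤ C ∧ 0 < c0 ∧ ∀ {ε k₁ k₂ M₁ M₂ l : ℝ} {f₁ f₂ : G → ℝ}
    {F₁ F₂ : (Mat N)ˣ → ℂ} {m₁ m₂ : (Fin n → ℂ) → ℂ}, ε ≤ ε2 → k0 ≤ k₁ → k0 ≤ k₂ →
    PS B r ε k₁ k₂ M₁ M₂ l f₁ f₂ F₁ F₂ m₁ m₂ → |k₂ - k₁| ≤ ε2 * min k₁ k₂ →
    2 * l * r ^ 2 ≤ min k₁ k₂ / 20000 →
    c0 * |k₁ - k₂| / k₁ ^ 2 ≤ |Pool.Agent.N989.MK.WW μ χ f₁ - Pool.Agent.N989.MK.WW μ χ f₂| +
      C * l / k₁ ^ 3

variable {r ε ε₂ k k₁ k₂ M M₁ M₂ l : ℝ} {f f₁ f₂ g₁ g₂ : G → ℝ} {F F' F₁ F₂ : (Mat N)ˣ → ℂ}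
  {m m' m₁ m₂ : (Fin n → ℂ) → ℂ}

lemma TT_Rst (f : G → ℝ) : Pool.Agent.N989.MK.TT μ f = Rst μ f := rfl

/-- the normalisation of a state -/
lemma NS.of_st (hf : CF f F) (hpos : ∀ x, 0 < f x) (hs : St B r k M F m) (ht : Tube B r k F)
    (hM : 0 ≤ M) (hMr : M * r ^ 2 ≤ ε * k) :
    NS B r ε k M (fun x => (f 1)⁻¹ * f x) (fun u => (((f 1)⁻¹ : ℝ) : ℂ) * F u) m := by
  refine ⟨cf_smul hf _, fun x => mul_pos (inv_pos.2 (hpos 1)) (hpos x), ?_, st_smul hs _,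
    tube_smul ht _, hM, hMr⟩
  beta_reduce
  have h1 : F 1 = ((f 1 : ℝ) : ℂ) := by
    have := hf.res 1
    rwa [map_one] at this
  rw [h1, ← Complex.ofReal_mul, inv_mul_cancel₀ (hpos 1).ne', Complex.ofReal_one]

/-- the coupling of a state is unique -/
lemma coupling_uniq (hG : IsClosed (G : Set (UN N))) (hr : 0 < r) (hn : 0 < n)
    {c : ℝ} (hc : 0 < c) {g : G → ℝ} (hfg : f = fun x => c * g x) {M' : ℝ}
    (h1 : NS B r ε k M g F m) {k' : ℝ} (hf' : CF f F') (hs' : St B r k' M' F' m') : k = k' := by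
  have hf : CF f (fun u => (c : ℂ) * F u) := by rw [hfg]; exact cf_smul h1.cf c
  refine ((st_smul h1.st (c : ℂ)).uniq hs' hr hn ?_ fun x => cf_ext hG hf hf' x).1
  beta_reduce
  rw [h1.one, mul_one]
  exact_mod_cast hc.ne'

/-- the trivial bound of the difference of two states -/
lemma Dd.trivial (hr : 0 < r) (h1 : NS B r ε k₁ M₁ f₁ F₁ m₁) (h2 : NS B r ε k₂ M₂ f₂ F₂ m₂) :
    Dd B r k₁ k₂ (M₁ + M₂ + 2) F₁ F₂ m₁ m₂ := by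
  have hM₁ := h1.M0
  have hM₂ := h2.M0
  refine ⟨by positivity, fun x hx => ?_, fun a y ha hay => ?_⟩
  · have e1 := h1.st.bd x hx
    have e2 := h2.st.bd x hx
    have e3 : 0 ≤ nC x ^ 4 := by have := nC_nonneg x; positivity
    refine (norm_sub_le _ _).trans ?_
    nlinarith
  · have e1 := h1.tb a y ha
    have e2 := h2.tb a y ha
    rw [h1.one, norm_one, one_mul] at e1
    rw [h2.one, norm_one, one_mul] at e2
    obtain ⟨X, hX⟩ : ∃ X, X = 1.01 * nE a ^ 2 - 0.99 * min (nN y) r ^ 2 := ⟨_, rfl⟩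
    rw [← hX] at e1 e2 ⊢
    have hX0 : X ≤ 0 := by
      rw [hX]; exact far_neg hr (nE_nonneg a) (nN_nonneg y) ha hay
    have e3 : ∀ c : ℝ, min k₁ k₂ ≤ c → Real.exp (c / 2 * X) ≤ Real.exp (min k₁ k₂ / 2 * X) := by
      intro c hc
      refine Real.exp_le_exp.2 ?_
      exact mul_le_mul_of_nonpos_right (by linarith) hX0
    have e4 := e1.trans (e3 _ (min_le_left _ _))
    have e5 := e2.trans (e3 _ (min_le_right _ _))
    have e6 := Real.exp_pos (min k₁ k₂ / 2 * X)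
    refine (norm_sub_le _ _).trans ?_
    nlinarith

end

end Pool.Agent.N988.MK
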