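import Mathlib
import Pool.Agent.N984.MK.Ns

/-!
# The quartic part of the state
-/

open MeasureTheory Filter Metric Asymptotics Matrix
open scoped Matrix.Norms.Frobenius Topology ContDiff
open Pool.Agent.H906R3.YM Pool.Agent.W793.YM Pool.Agent.TH618.YM Pool.Agent.N984.TW
open Pool.Agent.N991.MK

namespace Pool.Agent.N988.MK

set_option linter.unusedSectionVars false

noncomputable section

variable {n : ℕ}

/-- the quartic coefficient, polarised -/
def q4 (m : (Fin n → ℂ) → ℂ) (a b c d : Fin n → ℂ) : ℂ :=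
  iteratedFDeriv ℂ 4 m 0 ![a, b, c, d] / 24

variable {m : (Fin n → ℂ) → ℂ}

lemma q4_add1 (a a' b c d : Fin n → ℂ) : q4 m (a + a') b c d = q4 m a b c d + q4 m a' b c d := by
  have h := (iteratedFDeriv ℂ 4 m 0).map_update_add ![0, b, c, d] 0 a a'
  have e : ∀ u : Fin n → ℂ, Function.update ![0, b, c, d] 0 u = ![u, b, c, d] := by
    intro u; funext i; fin_cases i <;> rfl
  unfold q4
  rw [e, e, e] at h
  rw [h]; ring

lemma q4_add2 (a b b' c d : Fin n → ℂ) : q4 m a (b + b') c d = q4 m a b c d + q4 m a b' c d := by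
  have h := (iteratedFDeriv ℂ 4 m 0).map_update_add ![a, 0, c, d] 1 b b'
  have e : ∀ u : Fin n → ℂ, Function.update ![a, 0, c, d] 1 u = ![a, u, c, d] := by
    intro u; funext i; fin_cases i <;> rfl
  unfold q4
  rw [e, e, e] at h
  rw [h]; ring

lemma q4_add3 (a b c c' d : Fin n → ℂ) : q4 m a b (c + c') d = q4 m a b c d + q4 m a b c' d := by
  have h := (iteratedFDeriv ℂ 4 m 0).map_update_add ![a, b, 0, d] 2 c c'
  have e : ∀ u : Fin n → ℂ, Function.update ![a, b, 0, d] 2 u = ![a, b, u, d] := by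
    intro u; funext i; fin_cases i <;> rfl
  unfold q4
  rw [e, e, e] at h
  rw [h]; ring

lemma q4_add4 (a b c d d' : Fin n → ℂ) : q4 m a b c (d + d') = q4 m a b c d + q4 m a b c d' := by
  have h := (iteratedFDeriv ℂ 4 m 0).map_update_add ![a, b, c, 0] 3 d d'
  have e : ∀ u : Fin n → ℂ, Function.update ![a, b, c, 0] 3 u = ![a, b, c, u] := by
    intro u; funext i; fin_cases i <;> rfl
  unfold q4
  rw [e, e, e] at h
  rw [h]; ring

lemma q4_smul1 (t : ℂ) (a b c d : Fin n → ℂ) : q4 m (t • a) b c d = t * q4 m a b c d := by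
  have h := (iteratedFDeriv ℂ 4 m 0).map_update_smul ![0, b, c, d] 0 t a
  have e : ∀ u : Fin n → ℂ, Function.update ![0, b, c, d] 0 u = ![u, b, c, d] := by
    intro u; funext i; fin_cases i <;> rfl
  unfold q4
  rw [e, e] at h
  rw [h, smul_eq_mul]; ring

lemma q4_smul2 (t : ℂ) (a b c d : Fin n → ℂ) : q4 m a (t • b) c d = t * q4 m a b c d := by
  have h := (iteratedFDeriv ℂ 4 m 0).map_update_smul ![a, 0, c, d] 1 t b
  have e : ∀ u : Fin n → ℂ, Function.update ![a, 0, c, d] 1 u = ![a, u, c, d] := by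
    intro u; funext i; fin_cases i <;> rfl
  unfold q4
  rw [e, e] at h
  rw [h, smul_eq_mul]; ring

lemma q4_smul3 (t : ℂ) (a b c d : Fin n → ℂ) : q4 m a b (t • c) d = t * q4 m a b c d := by
  have h := (iteratedFDeriv ℂ 4 m 0).map_update_smul ![a, b, 0, d] 2 t c
  have e : ∀ u : Fin n → ℂ, Function.update ![a, b, 0, d] 2 u = ![a, b, u, d] := by
    intro u; funext i; fin_cases i <;> rfl
  unfold q4
  rw [e, e] at h
  rw [h, smul_eq_mul]; ring

lemma q4_smul4 (t : ℂ) (a b c d : Fin n → ℂ) : q4 m a b c (t • d) = t * q4 m a b c d := by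
  have h := (iteratedFDeriv ℂ 4 m 0).map_update_smul ![a, b, c, 0] 3 t d
  have e : ∀ u : Fin n → ℂ, Function.update ![a, b, c, 0] 3 u = ![a, b, c, u] := by
    intro u; funext i; fin_cases i <;> rfl
  unfold q4
  rw [e, e] at h
  rw [h, smul_eq_mul]; ring

/-- the quartic part -/
def m4 (m : (Fin n → ℂ) → ℂ) (x : Fin n → ℂ) : ℂ := q4 m x x x x

lemma m4_smul (c : ℂ) (x : Fin n → ℂ) : m4 m (c • x) = c ^ 4 * m4 m x := by
  unfold m4
  rw [q4_smul1, q4_smul2, q4_smul3, q4_smul4]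
  ring

/-- the second difference of the quartic part -/
def T4 (m : (Fin n → ℂ) → ℂ) (x v : Fin n → ℂ) : ℂ :=
  m4 m (x + v) + m4 m (x - v) - 2 * m4 m x - 2 * m4 m v

lemma T4_eq (x v : Fin n → ℂ) : T4 m x v = 2 * (q4 m x x v v + q4 m x v x v + q4 m x v v x +
    q4 m v x x v + q4 m v x v x + q4 m v v x x) := by
  have hs : x - v = x + (-1 : ℂ) • v := by rw [neg_one_smul, sub_eq_add_neg]
  unfold T4 m4
  rw [hs]
  simp only [q4_add1, q4_add2, q4_add3, q4_add4, q4_smul1, q4_smul2, q4_smul3, q4_smul4]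
  ring

lemma T4_smul_left (c : ℂ) (x v : Fin n → ℂ) : T4 m (c • x) v = c ^ 2 * T4 m x v := by
  rw [T4_eq, T4_eq]
  simp only [q4_smul1, q4_smul2, q4_smul3, q4_smul4]
  ring

lemma T4_smul_right (c : ℂ) (x v : Fin n → ℂ) : T4 m x (c • v) = c ^ 2 * T4 m x v := by
  rw [T4_eq, T4_eq]
  simp only [q4_smul1, q4_smul2, q4_smul3, q4_smul4]
  ring

lemma T4_comm (x v : Fin n → ℂ) : T4 m x v = T4 m v x := by
  rw [T4_eq, T4_eq]
  ring

/-- an additive homogeneous function in coordinates -/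
lemma lin_sum {φ : (Fin n → ℂ) → ℂ} (ha : ∀ u v, φ (u + v) = φ u + φ v)
    (hc : ∀ (c : ℂ) u, φ (c • u) = c * φ u) (v : Fin n → ℂ) :
    φ v = ∑ a, v a * φ (Pi.single a 1) := by
  obtain ⟨L, hL⟩ : ∃ L : (Fin n → ℂ) →ₗ[ℂ] ℂ, ∀ u, L u = φ u :=
    ⟨{ toFun := φ, map_add' := ha, map_smul' := fun c u => hc c u }, fun u => rfl⟩
  have h1 : v = ∑ a, v a • (Pi.single a 1 : Fin n → ℂ) := by
    funext i
    simp [Finset.sum_apply, Pi.single_apply]
  rw [← hL]
  conv_lhs => rw [h1]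
  rw [map_sum]
  refine Finset.sum_congr rfl fun a _ => ?_
  rw [map_smul, smul_eq_mul, hL]

/-- a bilinear function in coordinates -/
lemma bil_sum {φ : (Fin n → ℂ) → (Fin n → ℂ) → ℂ} (ha : ∀ u v w, φ (u + v) w = φ u w + φ v w)
    (hc : ∀ (c : ℂ) u w, φ (c • u) w = c * φ u w) (ha' : ∀ u v w, φ w (u + v) = φ w u + φ w v)
    (hc' : ∀ (c : ℂ) u w, φ w (c • u) = c * φ w u) (v w : Fin n → ℂ) :
    φ v w = ∑ a, ∑ c, φ (Pi.single a 1) (Pi.single c 1) * (v a * w c) := by
  rw [lin_sum (φ := fun u => φ u w) (fun u v => ha u v w) (fun c u => hc c u w) v]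
  refine Finset.sum_congr rfl fun a _ => ?_
  beta_reduce
  rw [lin_sum (φ := fun u => φ (Pi.single a 1) u) (fun u v => ha' u v _) (fun c u => hc' c u _) w,
    Finset.mul_sum]
  refine Finset.sum_congr rfl fun c _ => ?_
  ring

/-- the coefficients of the second difference -/
def t4c (m : (Fin n → ℂ) → ℂ) (x : Fin n → ℂ) (a c : Fin n) : ℂ :=
  2 * (q4 m x x (Pi.single a 1) (Pi.single c 1) + q4 m x (Pi.single a 1) x (Pi.single c 1) +
    q4 m x (Pi.single a 1) (Pi.single c 1) x + q4 m (Pi.single a 1) x x (Pi.single c 1) +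
    q4 m (Pi.single a 1) x (Pi.single c 1) x + q4 m (Pi.single a 1) (Pi.single c 1) x x)

/-- the second difference is a quadratic form -/
lemma T4_coord (x v : Fin n → ℂ) : T4 m x v = ∑ a, ∑ c, t4c m x a c * (v a * v c) := by
  have h1 := bil_sum (φ := fun u w => 2 * (q4 m x x u w + q4 m x u x w + q4 m x u w x +
    q4 m u x x w + q4 m u x w x + q4 m u w x x))
    (fun u v w => by
      simp only [q4_add1, q4_add2, q4_add3, q4_add4]; ring)
    (fun c u w => by
      simp only [q4_smul1, q4_smul2, q4_smul3, q4_smul4]; ring)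
    (fun u v w => by
      simp only [q4_add1, q4_add2, q4_add3, q4_add4]; ring)
    (fun c u w => by
      simp only [q4_smul1, q4_smul2, q4_smul3, q4_smul4]; ring) v v
  rw [T4_eq]
  exact h1

/-- the diagonal coefficients -/
lemma t4c_diag (x : Fin n → ℂ) (a : Fin n) : t4c m x a a = T4 m x (Pi.single a 1) := by
  rw [T4_eq]
  rfl

end

end Pool.Agent.N988.MK
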