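import Mathlib
import Pool.Agent.N988.MK.M4
import Pool.Agent.N988.MK.Sharp
import Pool.Agent.N988.MK.State

open MeasureTheory Filter Metric Asymptotics Matrix
open scoped Matrix.Norms.Frobenius Topology ContDiff Nat
open Pool.Agent.H906R3.YM Pool.Agent.W793.YM Pool.Agent.TH618.YM Pool.Agent.N984.TW
open Pool.Agent.N991.MK

namespace Pool.Agent.N988.MK

set_option linter.unusedSectionVars false

noncomputable section

variable {n : ℕ}

/-- the Taylor coefficients of a function of fourth order -/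
lemma quart {g : ℂ → ℂ} {ρ K : ℝ} (hρ : 0 < ρ) (hd : DifferentiableOn ℂ g (ball 0 ρ))
    (hb : ∀ ζ ∈ ball (0 : ℂ) ρ, ‖g ζ‖ ≤ K * ‖ζ‖ ^ 4) :
    ‖iteratedDeriv 4 g 0 / 24‖ ≤ K ∧
      (fun ζ => g ζ - iteratedDeriv 4 g 0 / 24 * ζ ^ 4) =O[𝓝 0] fun ζ : ℂ => ζ ^ 5 := by
  have hC : ∀ (j : ℕ) (R : ℝ), 0 < R → R < ρ → ‖iteratedDeriv j g 0‖ ≤ j ! * (K * R ^ 4) / R ^ j := by
    intro j R hR hRρ
    refine Complex.norm_iteratedDeriv_le_of_forall_mem_sphere_norm_le j hR ?_ fun z hz => ?_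
    · refine DifferentiableOn.diffContOnCl ?_
      rw [closure_ball _ hR.ne']
      exact hd.mono (closedBall_subset_ball hRρ)
    · rw [mem_sphere_zero_iff_norm] at hz
      have := hb z (by rw [mem_ball_zero_iff, hz]; exact hRρ)
      rwa [hz] at this
  have hlow : ∀ j < 4, iteratedDeriv j g 0 = 0 := by
    intro j hj
    have h1 : Tendsto (fun R : ℝ => (j ! : ℝ) * K * R ^ (4 - j)) (𝓝[>] 0) (𝓝 0) := by
      have h2 : Continuous fun R : ℝ => (j ! : ℝ) * K * R ^ (4 - j) := by fun_prop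
      have h3 := h2.tendsto 0
      rw [zero_pow (by omega), mul_zero] at h3
      exact h3.mono_left nhdsWithin_le_nhds
    have h2 : ‖iteratedDeriv j g 0‖ ≤ 0 := by
      refine ge_of_tendsto h1 ?_
      filter_upwards [Ioo_mem_nhdsGT hρ] with R hR
      refine (hC j R hR.1 hR.2).trans (le_of_eq ?_)
      have h3 : R ^ 4 = R ^ (4 - j) * R ^ j := by rw [← pow_add]; congr 1; omega
      have h4 : R ^ j ≠ 0 := (pow_pos hR.1 j).ne'
      rw [h3]
      field_simp
    exact norm_le_zero_iff.1 h2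
  refine ⟨?_, ?_⟩
  · have h1 := hC 4 (ρ / 2) (by positivity) (by linarith)
    rw [norm_div]
    have h2 : ‖(24 : ℂ)‖ = 24 := by norm_num
    rw [h2, div_le_iff₀ (by norm_num)]
    refine h1.trans (le_of_eq ?_)
    have h3 : ((4 ! : ℕ) : ℝ) = 24 := by norm_num [Nat.factorial]
    rw [h3]
    field_simp
  · lift ρ to NNReal using hρ.le
    have hρ2 : (0 : NNReal) < ρ / 2 := by
      have : (0 : NNReal) < ρ := by exact_mod_cast hρ
      positivity
    have hps := DifferentiableOn.hasFPowerSeriesOnBall (f := g) (c := 0) (R := ρ / 2)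
      (hd.mono (closedBall_subset_ball (by
        push_cast
        have : (0 : ℝ) < ρ := hρ
        linarith))) hρ2
    have h1 := hps.hasFPowerSeriesAt.isBigO_sub_partialSum_pow 5
    have h2 : ∀ ζ : ℂ, (cauchyPowerSeries g 0 (ρ / 2 : NNReal)).partialSum 5 ζ =
        iteratedDeriv 4 g 0 / 24 * ζ ^ 4 := by
      intro ζ
      have h3 : ∀ j : ℕ, (cauchyPowerSeries g 0 (ρ / 2 : NNReal)) j (fun _ => ζ) =
          iteratedDeriv j g 0 * ζ ^ j / j ! := by
        intro j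
        have h4 := hps.factorial_smul ζ j
        rw [iteratedFDeriv_apply_eq_iteratedDeriv_mul_prod] at h4
        simp only [Finset.prod_const, Finset.card_univ, Fintype.card_fin, smul_eq_mul,
          nsmul_eq_mul] at h4
        have h5 : (j ! : ℂ) ≠ 0 := by exact_mod_cast Nat.factorial_ne_zero j
        rw [eq_div_iff h5, mul_comm _ (j ! : ℂ), h4]
        ring
      unfold FormalMultilinearSeries.partialSum
      simp only [h3, Finset.sum_range_succ, Finset.sum_range_zero]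
      rw [hlow 0 (by norm_num), hlow 1 (by norm_num), hlow 2 (by norm_num), hlow 3 (by norm_num)]
      have h6 : ((4 ! : ℕ) : ℂ) = 24 := by norm_num [Nat.factorial]
      rw [h6]
      ring
    refine (h1.congr_left fun ζ => ?_).norm_right.trans (IsBigO.of_bound 1 ?_)
    · exact (by rw [h2, zero_add])
    · exact Eventually.of_forall fun ζ => by simp

lemma iter_line {m : (Fin n → ℂ) → ℂ} (hm : ContDiffAt ℂ ∞ m 0) (x : Fin n → ℂ) :
    iteratedDeriv 4 (fun ζ : ℂ => m (ζ • x)) 0 = iteratedFDeriv ℂ 4 m 0 fun _ => x := by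
  have h4 : (4 : WithTop ℕ∞) ≤ ∞ := by
    have : ((4 : ℕ∞) : WithTop ℕ∞) ≤ ((⊤ : ℕ∞) : WithTop ℕ∞) := WithTop.coe_le_coe.2 le_top
    exact this
  obtain ⟨u, hu, hmu⟩ := (hm.of_le h4).contDiffOn (m := 4) le_rfl (by simp)
  obtain ⟨ε, hε, hb⟩ := Metric.mem_nhds_iff.1 hu
  obtain ⟨L, hL⟩ : ∃ L : ℂ →L[ℂ] (Fin n → ℂ), ∀ ζ, L ζ = ζ • x :=
    ⟨ContinuousLinearMap.toSpanSingleton ℂ x, fun ζ => by simp⟩
  have ho : IsOpen (ball (0 : Fin n → ℂ) ε) := isOpen_ball
  have ho' : IsOpen (L ⁻¹' ball (0 : Fin n → ℂ) ε) := ho.preimage L.continuous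
  have h0 : L 0 ∈ ball (0 : Fin n → ℂ) ε := by rw [map_zero]; exact mem_ball_self hε
  have h1 := L.iteratedFDerivWithin_comp_right (hmu.mono hb) ho.uniqueDiffOn ho'.uniqueDiffOn h0
    (i := 4) le_rfl
  rw [iteratedFDerivWithin_of_isOpen 4 ho' h0, map_zero,
    iteratedFDerivWithin_of_isOpen 4 ho (mem_ball_self hε)] at h1
  have e : (fun ζ : ℂ => m (ζ • x)) = m ∘ L := by
    funext ζ
    rw [Function.comp_apply, hL]
  rw [iteratedDeriv_eq_iteratedFDeriv, e, h1, ContinuousMultilinearMap.compContinuousLinearMap_apply]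
  congr 1
  funext i
  rw [hL, one_smul]

lemma m4_eq (m : (Fin n → ℂ) → ℂ) (x : Fin n → ℂ) :
    m4 m x = (iteratedFDeriv ℂ 4 m 0 fun _ => x) / 24 := by
  unfold m4 q4
  congr 2
  funext i
  fin_cases i <;> rfl

variable {N : ℕ} {G : Subgroup (UN N)} {B : Frame G n}
variable {r k M : ℝ} {F : (Mat N)ˣ → ℂ} {m : (Fin n → ℂ) → ℂ}

/-- the remainder of a state is smooth at the origin -/
theorem St.smooth (hs : St B r k M F m) (hf : Hol F) (h1 : F 1 ≠ 0) (hr : 0 < r) :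
    ContDiffAt ℂ ∞ m 0 := by
  obtain ⟨Φ, hΦ, hF⟩ := hf
  have hFs : ContDiff ℂ ∞ fun x : Fin n → ℂ => F (uE B x) := by
    have e : (fun x : Fin n → ℂ => F (uE B x)) = fun x => Φ (EC B x, EC B (-x)) := by
      funext x
      rw [hF, uE_inv_val, uE_val]
    rw [e]
    exact hΦ.comp ((EC_contDiff B).prodMk ((EC_contDiff B).comp contDiff_neg))
  have hm0 : m 0 = 0 := hs.m0 hr
  have hev : m =ᶠ[𝓝 0] fun x => -Complex.log (F (uE B x) / F 1) - (k / 2 : ℂ) * qC x := by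
    have c1 : ContinuousAt (fun x : Fin n → ℂ => -(k / 2 : ℂ) * qC x - m x) 0 :=
      (continuousAt_const.mul qC_diff.continuous.continuousAt).sub
        (hs.md 0 (by rw [nC_zero]; exact hr)).continuousAt
    have c2 : Tendsto (fun x : Fin n → ℂ => -(k / 2 : ℂ) * qC x - m x) (𝓝 0) (𝓝 0) := by
      have := c1.tendsto
      rwa [qC_zero, hm0, mul_zero, sub_zero] at this
    have c3 : ∀ᶠ x in 𝓝 (0 : Fin n → ℂ), nC x < r := by
      have := nC_cont.tendsto (0 : Fin n → ℂ)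
      rw [nC_zero] at this
      exact this.eventually (gt_mem_nhds hr)
    filter_upwards [c3, c2.eventually (Metric.ball_mem_nhds (0 : ℂ) (ε := 1) one_pos)] with x hx hw
    rw [dist_zero_right] at hw
    have h2 : F (uE B x) / F 1 = Complex.exp (-(k / 2 : ℂ) * qC x - m x) := by
      rw [hs.eq x hx]; field_simp
    have h3 := (Complex.abs_im_le_norm (-(k / 2 : ℂ) * qC x - m x)).trans hw.le
    have h4 := abs_le.1 h3
    have hpi := Real.pi_gt_three
    rw [h2, Complex.log_exp (by linarith) (by linarith)]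
    ring
  have h0 : F (uE B (0 : Fin n → ℂ)) / F 1 = 1 := by rw [uE_zero, div_self h1]
  have h2 : ContDiffAt ℂ ∞ (fun x : Fin n → ℂ => -Complex.log (F (uE B x) / F 1) -
      (k / 2 : ℂ) * qC x) 0 := by
    have h3 : ContDiffAt ℂ ∞ (fun x : Fin n → ℂ => F (uE B x) / F 1) 0 :=
      (hFs.div_const _).contDiffAt
    have h4 : ContDiffAt ℂ ∞ (fun x : Fin n → ℂ => Complex.log (F (uE B x) / F 1)) 0 :=
      ContDiffAt.comp (f := fun x : Fin n → ℂ => F (uE B x) / F 1) (g := Complex.log) 0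
        (Complex.contDiffAt_log (by beta_reduce; rw [h0]; exact Complex.one_mem_slitPlane)) h3
    have h5 : ContDiff ℂ ∞ (qC : (Fin n → ℂ) → ℂ) := by
      unfold qC
      fun_prop
    exact h4.neg.sub (contDiffAt_const.mul h5.contDiffAt)
  exact h2.congr_of_eventuallyEq hev

/-- **the quartic part and the remainder** -/
theorem St.m4_near (hs : St B r k M F m) (hf : Hol F) (h1 : F 1 ≠ 0) (hr : 0 < r)
    {x : Fin n → ℂ} (hx : nC x < r) :
    ‖m x - m4 m x‖ ≤ 2 * M * nC x ^ 6 / r ^ 2 ∧ ‖m4 m x‖ ≤ M * nC x ^ 4 := by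
  by_cases hx0 : x = 0
  · have h2 : m4 m x = 0 := by
      have := m4_smul (m := m) 0 x
      rw [zero_smul, zero_pow (by norm_num), zero_mul] at this
      rw [hx0]; exact this
    rw [h2, hx0, hs.m0 hr, nC_zero]
    simp
  have px : 0 < nC x := lt_of_not_ge fun h => hx0 (nC_eq_zero h)
  obtain ⟨ρ, hρd⟩ : ∃ ρ, ρ = r / nC x := ⟨_, rfl⟩
  have hρ : 0 < ρ := by rw [hρd]; positivity
  have hbx : ∀ ζ ∈ ball (0 : ℂ) ρ, nC (ζ • x) < r := by
    intro ζ hζ
    rw [mem_ball_zero_iff, hρd, lt_div_iff₀ px] at hζ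
    rw [nC_smul]; exact hζ
  have hd : DifferentiableOn ℂ (fun ζ : ℂ => m (ζ • x)) (ball 0 ρ) := by
    intro ζ hζ
    have h3 := hs.md (ζ • x) (hbx ζ hζ)
    have h4 : DifferentiableAt ℂ (fun ζ : ℂ => ζ • x) ζ := by fun_prop
    exact (DifferentiableAt.comp (f := fun ζ : ℂ => ζ • x) (g := m) ζ h3 h4).differentiableWithinAt
  have hb : ∀ ζ ∈ ball (0 : ℂ) ρ, ‖m (ζ • x)‖ ≤ M * nC x ^ 4 * ‖ζ‖ ^ 4 := by
    intro ζ hζ
    refine (hs.bd _ (hbx ζ hζ)).trans (le_of_eq ?_)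
    rw [nC_smul]; ring
  obtain ⟨q1, q2⟩ := quart (g := fun ζ : ℂ => m (ζ • x)) hρ hd hb
  have e : iteratedDeriv 4 (fun ζ : ℂ => m (ζ • x)) 0 / 24 = m4 m x := by
    rw [iter_line (hs.smooth hf h1 hr) x, m4_eq]
  rw [e] at q1 q2
  refine ⟨?_, q1⟩
  have h1m : (1 : ℂ) ∈ ball (0 : ℂ) ρ := by
    rw [mem_ball_zero_iff, norm_one, hρd, lt_div_iff₀ px, one_mul]; exact hx
  have hK : 0 ≤ M * nC x ^ 4 := (norm_nonneg _).trans q1
  have h3 := even_six (g := fun ζ : ℂ => m (ζ • x) - m4 m x * ζ ^ 4) (ρ := ρ)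
    (S := 2 * (M * nC x ^ 4) * ρ ^ 4) hρ
    (hd.sub (by fun_prop))
    (fun ζ hζ => by
      beta_reduce
      rw [neg_smul, hs.even _ (hbx ζ hζ)]
      ring)
    q2
    (fun ζ hζ => by
      refine (norm_sub_le _ _).trans ?_
      have h4 := hb ζ hζ
      have h5 : ‖m4 m x * ζ ^ 4‖ ≤ M * nC x ^ 4 * ‖ζ‖ ^ 4 := by
        rw [norm_mul, norm_pow]
        exact mul_le_mul_of_nonneg_right q1 (by positivity)
      have h6 : ‖ζ‖ ^ 4 ≤ ρ ^ 4 := by
        rw [mem_ball_zero_iff] at hζ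
        exact pow_le_pow_left₀ (norm_nonneg _) hζ.le 4
      have h7 := mul_le_mul_of_nonneg_left h6 hK
      linarith)
    h1m
  simp only [one_smul, one_pow, mul_one, norm_one] at h3
  refine h3.trans (le_of_eq ?_)
  rw [hρd]
  field_simp

end

end Pool.Agent.N988.MK
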