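import Mathlib
import Pool.Agent.N988.MK.M4b
import Pool.Agent.N991.MK.TwoS

/-!
# The quartic part of a state satisfies `Qrt`
-/

open MeasureTheory Filter Metric Asymptotics Matrix
open scoped Matrix.Norms.Frobenius Topology ContDiff
open Pool.Agent.H906R3.YM Pool.Agent.W793.YM Pool.Agent.TH618.YM Pool.Agent.N984.TW
open Pool.Agent.N991.MK

namespace Pool.Agent.N988.MK

set_option linter.unusedSectionVars false

noncomputable section

variable {n : ℕ} {m : (Fin n → ℂ) → ℂ}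

lemma m4_diff : Differentiable ℂ (m4 m) := by
  have e : m4 m = fun x => (iteratedFDeriv ℂ 4 m 0) (fun _ => x) / 24 := by
    funext x
    exact m4_eq m x
  have h1 : Differentiable ℂ fun v : Fin 4 → (Fin n → ℂ) => (iteratedFDeriv ℂ 4 m 0) v :=
    (ContinuousMultilinearMap.contDiff (iteratedFDeriv ℂ 4 m 0) (n := 1)).differentiable
      (by simp)
  have h2 : Differentiable ℂ fun x : Fin n → ℂ => (fun _ : Fin 4 => x) := by fun_prop
  have h3 : Differentiable ℂ fun x : Fin n → ℂ => (iteratedFDeriv ℂ 4 m 0) (fun _ => x) :=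
    h1.comp h2
  have h4 : Differentiable ℂ fun x : Fin n → ℂ =>
      (iteratedFDeriv ℂ 4 m 0) (fun _ => x) * (24 : ℂ)⁻¹ := h3.mul_const _
  rw [e]
  simp only [div_eq_mul_inv]
  exact h4

lemma T4_eq' (x y : Fin n → ℂ) : N991.MK.T4 (m4 m) x y = T4 m x y := rfl

variable {N : ℕ} {G : Subgroup (UN N)} {B : Frame G n}
variable {r k M : ℝ} {F : (Mat N)ˣ → ℂ}

theorem St.m4_le (hs : St B r k M F m) (hf : Hol F) (h1 : F 1 ≠ 0) (hr : 0 < r)
    (x : Fin n → ℂ) : ‖m4 m x‖ ≤ M * nC x ^ 4 := by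
  have hx0 := nC_nonneg x
  obtain ⟨t, ht⟩ : ∃ t : ℝ, t = r / (2 * (nC x + 1)) := ⟨_, rfl⟩
  have ht0 : 0 < t := by rw [ht]; positivity
  have h2 : nC ((t : ℂ) • x) < r := by
    rw [nC_smul, Complex.norm_real, Real.norm_eq_abs, abs_of_pos ht0, ht, div_mul_eq_mul_div,
      div_lt_iff₀ (by positivity)]
    nlinarith
  have h3 := (hs.m4_near hf h1 hr h2).2
  rw [m4_smul, norm_mul, norm_pow, nC_smul, Complex.norm_real, Real.norm_eq_abs,
    abs_of_pos ht0] at h3
  have h4 : 0 < t ^ 4 := by positivity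
  refine le_of_mul_le_mul_left (a := t ^ 4) ?_ h4
  calc t ^ 4 * ‖m4 m x‖ ≤ M * (t * nC x) ^ 4 := h3
    _ = _ := by ring

/-- **the quartic part of a state** -/
theorem St.qrt (hs : St B r k M F m) (hf : Hol F) (h1 : F 1 ≠ 0) (hr : 0 < r) (hM : 0 ≤ M) :
    N991.MK.Qrt r M (2 * M / r ^ 2) m (m4 m) where
  hC := by positivity
  df := m4_diff
  ev x := by
    have h := m4_smul (m := m) (-1) x
    rw [neg_one_smul] at h
    rw [h]; ring
  hom c x := m4_smul c x
  bd x := hs.m4_le hf h1 hr x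
  near x hx := by
    refine (hs.m4_near hf h1 hr hx).1.trans (le_of_eq ?_)
    ring
  hom2 c d x y := by
    rw [T4_eq', T4_eq', T4_smul_left, T4_smul_right]
    ring

/-- the symmetric coefficients of the second difference -/
def t4s (m : (Fin n → ℂ) → ℂ) (x : Fin n → ℂ) (a c : Fin n) : ℂ :=
  (T4 m x (Pi.single a 1 + Pi.single c 1) - T4 m x (Pi.single a 1) - T4 m x (Pi.single c 1)) / 2

lemma t4s_eq (x : Fin n → ℂ) (a c : Fin n) : t4s m x a c = (t4c m x a c + t4c m x c a) / 2 := by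
  unfold t4s t4c
  rw [T4_eq, T4_eq, T4_eq]
  simp only [q4_add1, q4_add2, q4_add3, q4_add4]
  ring

/-- the second difference is a quadratic form with symmetric coefficients -/
lemma T4_sym (x v : Fin n → ℂ) : T4 m x v = ∑ a, ∑ c, t4s m x a c * (v a * v c) := by
  have h1 := T4_coord (m := m) x v
  have h2 : ∑ a, ∑ c, t4s m x a c * (v a * v c) =
      (∑ a, ∑ c, t4c m x a c * (v a * v c) + ∑ a, ∑ c, t4c m x c a * (v a * v c)) / 2 := by
    rw [← Finset.sum_add_distrib, Finset.sum_div]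
    refine Finset.sum_congr rfl fun a _ => ?_
    rw [← Finset.sum_add_distrib, Finset.sum_div]
    refine Finset.sum_congr rfl fun c _ => ?_
    rw [t4s_eq]
    ring
  have h3 : ∑ a, ∑ c, t4c m x c a * (v a * v c) = ∑ a, ∑ c, t4c m x a c * (v a * v c) := by
    rw [Finset.sum_comm]
    refine Finset.sum_congr rfl fun a _ => Finset.sum_congr rfl fun c _ => ?_
    ring
  rw [h2, h3, h1]
  ring

lemma nC_single (a : Fin n) : nC (Pi.single a (1 : ℂ)) = 1 := by
  have h : (Pi.single a (1 : ℂ) : Fin n → ℂ) = rl (Pi.single a (1 : ℝ)) := by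
    funext i
    unfold rl
    by_cases hi : i = a
    · subst hi; simp
    · simp [hi]
  rw [h, nC_rl]
  unfold nE
  rw [Finset.sum_eq_single a]
  · simp
  · intro c _ hc
    simp [hc]
  · intro h; exact absurd (Finset.mem_univ _) h

theorem St.t4s_le (hs : St B r k M F m) (hf : Hol F) (h1 : F 1 ≠ 0) (hr : 0 < r) (hM : 0 ≤ M)
    (x : Fin n → ℂ) (a c : Fin n) : ‖t4s m x a c‖ ≤ 108 * M * nC x ^ 2 := by
  have hq := hs.qrt hf h1 hr hM
  have h2 := hq.T4_le hM x (Pi.single a 1 + Pi.single c 1)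
  have h3 := hq.T4_le hM x (Pi.single a 1)
  have h4 := hq.T4_le hM x (Pi.single c 1)
  rw [T4_eq'] at h2 h3 h4
  rw [nC_single] at h3 h4
  have h5 : nC (Pi.single a (1 : ℂ) + Pi.single c 1) ≤ 2 := by
    refine (nC_add_le _ _).trans ?_
    rw [nC_single, nC_single]; norm_num
  have h6 : nC (Pi.single a (1 : ℂ) + Pi.single c 1) ^ 2 ≤ 4 := by
    have := pow_le_pow_left₀ (nC_nonneg _) h5 2
    linarith
  have h7 : 36 * M * nC x ^ 2 * nC (Pi.single a (1 : ℂ) + Pi.single c 1) ^ 2 ≤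
      36 * M * nC x ^ 2 * 4 := mul_le_mul_of_nonneg_left h6 (by positivity)
  unfold t4s
  rw [norm_div]
  have h8 : ‖(2 : ℂ)‖ = 2 := by norm_num
  rw [h8, div_le_iff₀ (by norm_num)]
  refine (norm_sub_le _ _).trans ((add_le_add (norm_sub_le _ _) le_rfl).trans ?_)
  linarith

end

end Pool.Agent.N988.MK
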