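import Mathlib
import Pool.Agent.N988.MK.Dlt
import Pool.Agent.N991.MK.FmP
import Pool.Agent.N991.MK.Iso

/-!
# The correction of the quartic part: algebra
-/

open MeasureTheory Filter Metric Asymptotics Matrix
open scoped Matrix.Norms.Frobenius Topology ContDiff
open Pool.Agent.H906R3.YM Pool.Agent.W793.YM Pool.Agent.TH618.YM Pool.Agent.N984.TW
open Pool.Agent.N991.MK

namespace Pool.Agent.N988.MK

set_option linter.unusedSectionVars false

noncomputable section

variable {N n : ℕ} {G : Subgroup (UN N)} (B : Frame G n) {hG : IsClosed (G : Set (UN N))}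

/-- the commutator -/
def cmm (X Y : Mat N) : Mat N := X * Y - Y * X

/-- the square of the norm of the double bracket -/
def b2R (x v : Fin n → ℝ) : ℝ := ‖cmm (LX B x) (cmm (LX B x) (LX B v))‖ ^ 2

/-- the quartic Casimir form -/
def t4R (x : Fin n → ℝ) : ℝ := ∑ a, ‖cmm (LX B x) (cmm (LX B x) (B.X a))‖ ^ 2

variable {B}

lemma bR_eq_cmm (x v : Fin n → ℝ) : bR B x v = ‖cmm (LX B x) (LX B v)‖ ^ 2 := rfl

lemma cmm_smul_left (t : ℝ) (X Y : Mat N) : cmm (t • X) Y = t • cmm X Y := by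
  unfold cmm
  rw [smul_mul_assoc, mul_smul_comm, smul_sub]

lemma cmm_smul_right (t : ℝ) (X Y : Mat N) : cmm X (t • Y) = t • cmm X Y := by
  unfold cmm
  rw [smul_mul_assoc, mul_smul_comm, smul_sub]

lemma cmm_sub_right (X Y Z : Mat N) : cmm X (Y - Z) = cmm X Y - cmm X Z := by
  unfold cmm
  rw [mul_sub, sub_mul]
  abel

lemma norm_cmm_le (X Y : Mat N) : ‖cmm X Y‖ ≤ 2 * (‖X‖ * ‖Y‖) := norm_comm_le X Y

lemma LX_sub' (x y : Fin n → ℝ) : LX B (x - y) = LX B x - LX B y := by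
  rw [sub_eq_add_neg, LX_add, LX_neg]; abel

lemma bR_smul_left (t : ℝ) (x v : Fin n → ℝ) : bR B (t • x) v = t ^ 2 * bR B x v := by
  rw [bR_eq_cmm, bR_eq_cmm, LX_smul, cmm_smul_left, norm_smul, mul_pow, Real.norm_eq_abs, sq_abs]

lemma b2R_smul_left (t : ℝ) (x v : Fin n → ℝ) : b2R B (t • x) v = t ^ 4 * b2R B x v := by
  unfold b2R
  rw [LX_smul, cmm_smul_left, cmm_smul_left, cmm_smul_right, norm_smul, norm_smul, mul_pow,
    mul_pow, Real.norm_eq_abs, sq_abs]
  ring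

lemma b2R_smul_right (t : ℝ) (x v : Fin n → ℝ) : b2R B x (t • v) = t ^ 2 * b2R B x v := by
  unfold b2R
  rw [LX_smul, cmm_smul_right, cmm_smul_right, norm_smul, mul_pow, Real.norm_eq_abs, sq_abs]

lemma t4R_smul (t : ℝ) (x : Fin n → ℝ) : t4R B (t • x) = t ^ 4 * t4R B x := by
  unfold t4R
  rw [Finset.mul_sum]
  refine Finset.sum_congr rfl fun a _ => ?_
  rw [LX_smul, cmm_smul_left, cmm_smul_left, cmm_smul_right, norm_smul, norm_smul, mul_pow,
    mul_pow, Real.norm_eq_abs, sq_abs]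
  ring

lemma bR_nonneg (x v : Fin n → ℝ) : 0 ≤ bR B x v := sq_nonneg _

lemma b2R_nonneg (x v : Fin n → ℝ) : 0 ≤ b2R B x v := sq_nonneg _

lemma t4R_nonneg (x : Fin n → ℝ) : 0 ≤ t4R B x := Finset.sum_nonneg fun _ _ => sq_nonneg _

lemma bR_le (x v : Fin n → ℝ) : bR B x v ≤ 4 * nE x ^ 2 * nE v ^ 2 := by
  rw [bR_eq_cmm]
  have h := norm_cmm_le (LX B x) (LX B v)
  rw [norm_LX, norm_LX] at h
  refine (pow_le_pow_left₀ (norm_nonneg _) h 2).trans (le_of_eq ?_)
  ring

lemma norm_cc_le (X Y : Mat N) : ‖cmm X (cmm X Y)‖ ≤ 4 * (‖X‖ ^ 2 * ‖Y‖) := by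
  have h1 := norm_cmm_le X (cmm X Y)
  have h2 := norm_cmm_le X Y
  have h3 := norm_nonneg X
  calc ‖cmm X (cmm X Y)‖ ≤ 2 * (‖X‖ * ‖cmm X Y‖) := h1
    _ ≤ 2 * (‖X‖ * (2 * (‖X‖ * ‖Y‖))) := by gcongr
    _ = _ := by ring

lemma b2R_diff (x v w : Fin n → ℝ) : |b2R B x v - b2R B x w| ≤
    16 * nE x ^ 4 * nE (v - w) * (nE v + nE w) := by
  unfold b2R
  obtain ⟨S, hS⟩ : ∃ S, S = cmm (LX B x) (cmm (LX B x) (LX B v)) := ⟨_, rfl⟩
  obtain ⟨T, hT⟩ : ∃ T, T = cmm (LX B x) (cmm (LX B x) (LX B w)) := ⟨_, rfl⟩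
  have hx0 := nE_nonneg x
  have e0 : S - T = cmm (LX B x) (cmm (LX B x) (LX B (v - w))) := by
    rw [LX_sub', cmm_sub_right, cmm_sub_right, hS, hT]
  have h1 : ‖S - T‖ ≤ 4 * (nE x ^ 2 * nE (v - w)) := by
    rw [e0]
    have := norm_cc_le (LX B x) (LX B (v - w))
    rwa [norm_LX, norm_LX] at this
  have h2 : ‖S‖ ≤ 4 * (nE x ^ 2 * nE v) := by
    have := norm_cc_le (LX B x) (LX B v)
    rw [norm_LX, norm_LX] at this
    rwa [hS]
  have h3 : ‖T‖ ≤ 4 * (nE x ^ 2 * nE w) := by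
    have := norm_cc_le (LX B x) (LX B w)
    rw [norm_LX, norm_LX] at this
    rwa [hT]
  rw [← hS, ← hT]
  have e : ‖S‖ ^ 2 - ‖T‖ ^ 2 = (‖S‖ - ‖T‖) * (‖S‖ + ‖T‖) := by ring
  rw [e, abs_mul, abs_of_nonneg (a := ‖S‖ + ‖T‖) (by positivity)]
  have h4 := (abs_norm_sub_norm_le S T).trans h1
  have h5 := nE_nonneg (v - w)
  calc |‖S‖ - ‖T‖| * (‖S‖ + ‖T‖) ≤ 4 * (nE x ^ 2 * nE (v - w)) *
        (4 * (nE x ^ 2 * nE v) + 4 * (nE x ^ 2 * nE w)) := by gcongr
    _ = _ := by ring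

lemma t4R_le (x : Fin n → ℝ) : t4R B x ≤ 16 * n * nE x ^ 4 := by
  unfold t4R
  have h1 : ∀ a ∈ (Finset.univ : Finset (Fin n)),
      ‖cmm (LX B x) (cmm (LX B x) (B.X a))‖ ^ 2 ≤ 16 * nE x ^ 4 := by
    intro a _
    have h := norm_cc_le (LX B x) (B.X a)
    rw [norm_LX, norm_X1, mul_one] at h
    refine (pow_le_pow_left₀ (norm_nonneg _) h 2).trans (le_of_eq ?_)
    ring
  refine (Finset.sum_le_sum h1).trans (le_of_eq ?_)
  rw [Finset.sum_const, Finset.card_univ, Fintype.card_fin, nsmul_eq_mul]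
  ring

/-- quadratic forms in coordinates -/
lemma lin_form {L : (Fin n → ℝ) → Mat N} {W : Fin n → Mat N} (h : ∀ v, L v = ∑ a, v a • W a)
    (v : Fin n → ℝ) : ‖L v‖ ^ 2 = ∑ a, ∑ c, ip (W a) (W c) * (v a * v c) := by
  rw [norm_sq_ip, h, ip_sum_left]
  refine Finset.sum_congr rfl fun a _ => ?_
  rw [map_sum]
  refine Finset.sum_congr rfl fun c _ => ?_
  rw [ip_smul_left, map_smul, smul_eq_mul]
  ring

lemma cmm_sum (X : Mat N) (v : Fin n → ℝ) (W : Fin n → Mat N) :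
    cmm X (∑ a, v a • W a) = ∑ a, v a • cmm X (W a) := by
  unfold cmm
  rw [Finset.mul_sum, Finset.sum_mul, ← Finset.sum_sub_distrib]
  refine Finset.sum_congr rfl fun a _ => ?_
  rw [mul_smul_comm, smul_mul_assoc, smul_sub]

lemma b2R_eq (x v : Fin n → ℝ) : b2R B x v = ∑ a, ∑ c,
    ip (cmm (LX B x) (cmm (LX B x) (B.X a))) (cmm (LX B x) (cmm (LX B x) (B.X c))) *
      (v a * v c) := by
  unfold b2R
  refine lin_form (L := fun v => cmm (LX B x) (cmm (LX B x) (LX B v))) (fun v => ?_) v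
  have : LX B v = ∑ a, v a • B.X a := rfl
  rw [this, cmm_sum, cmm_sum]

variable (B) in
/-- the coefficients of the first form -/
def gR (x : Fin n → ℝ) (a c : Fin n) : ℝ := ip (cmm (LX B x) (B.X a)) (cmm (LX B x) (B.X c))

lemma bR_eq' (x v : Fin n → ℝ) : bR B x v = ∑ a, ∑ c, gR B x a c * (v a * v c) := bR_eq B x v

lemma gR_le (x : Fin n → ℝ) (a c : Fin n) : |gR B x a c| ≤ 4 * nE x ^ 2 := by
  unfold gR
  refine (abs_ip_le _ _).trans ?_
  have h1 := norm_cmm_le (LX B x) (B.X a)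
  have h2 := norm_cmm_le (LX B x) (B.X c)
  rw [norm_LX, norm_X1, mul_one] at h1 h2
  have h3 := nE_nonneg x
  calc ‖cmm (LX B x) (B.X a)‖ * ‖cmm (LX B x) (B.X c)‖ ≤ (2 * nE x) * (2 * nE x) := by gcongr
    _ = _ := by ring

lemma ip_skew {X : Mat N} (hX : Xᴴ = -X) (A D : Mat N) : ip (cmm X A) D = -ip A (cmm X D) := by
  unfold cmm
  rw [ip_apply, ip_apply, conjTranspose_sub, conjTranspose_mul, conjTranspose_mul, hX]
  have h1 : trace ((Aᴴ * -X - -X * Aᴴ) * D) = -trace (Aᴴ * (X * D - D * X)) := by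
    have e1 : (Aᴴ * -X - -X * Aᴴ) * D = X * (Aᴴ * D) - Aᴴ * (X * D) := by noncomm_ring
    have e2 : Aᴴ * (X * D - D * X) = Aᴴ * (X * D) - Aᴴ * D * X := by noncomm_ring
    rw [e1, e2, trace_sub, trace_sub, trace_mul_comm X]
    ring
  rw [h1, Complex.neg_re]

include hG in
/-- the trace of the square of the first form -/
lemma gR_sq (x : Fin n → ℝ) : ∑ a, ∑ c, gR B x a c ^ 2 = t4R B x := by
  rw [Finset.sum_comm]
  unfold t4R
  refine Finset.sum_congr rfl fun c _ => ?_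
  have h1 : ∀ a, gR B x a c = -pc B (cmm (LX B x) (cmm (LX B x) (B.X c))) a := by
    intro a
    unfold gR pc
    rw [ip_skew (LX_star B x)]
  have h2 : cmm (LX B x) (cmm (LX B x) (B.X c)) =
      LX B (Brk B x (Brk B x (Pi.single c 1))) := by
    rw [LX_Brk B hG, LX_Brk B hG, LX_single]
    rfl
  simp only [h1, neg_sq]
  rw [h2, pc_LX, norm_LX, nE_sq]

lemma bR_sq (x v : Fin n → ℝ) : bR B x v ^ 2 = ∑ β, ∑ c, ∑ d, ∑ e,
    gR B x β c * gR B x d e * (v β * (v c * (v d * v e))) := by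
  rw [sq, bR_eq', Finset.sum_mul]
  refine Finset.sum_congr rfl fun β _ => ?_
  rw [Finset.sum_mul]
  refine Finset.sum_congr rfl fun c _ => ?_
  rw [Finset.mul_sum]
  refine Finset.sum_congr rfl fun d _ => ?_
  rw [Finset.mul_sum]
  refine Finset.sum_congr rfl fun e _ => ?_
  ring

lemma gR_symm (x : Fin n → ℝ) (a c : Fin n) : gR B x a c = gR B x c a := by
  unfold gR
  rw [ip_comm]

lemma gR_diag (x : Fin n → ℝ) : ∑ a, gR B x a a =
    ∑ a, ‖LX B x * B.X a - B.X a * LX B x‖ ^ 2 := by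
  refine Finset.sum_congr rfl fun a _ => ?_
  unfold gR
  rw [← norm_sq_ip]
  rfl

/-- the sum of the pairings -/
lemma pair_sum (g : Fin n → Fin n → ℝ) (hs : ∀ a c, g a c = g c a) (p : ℝ) :
    ∑ β, ∑ c, ∑ d, ∑ e, g β c * g d e *
      ((if β = c then (if d = e then p else 0) else 0) +
        (if β = d then (if c = e then p else 0) else 0) +
        (if β = e then (if c = d then p else 0) else 0)) =
      p * ((∑ a, g a a) ^ 2 + 2 * ∑ a, ∑ c, g a c ^ 2) := by
  have e1 : ∑ β, ∑ c, ∑ d, ∑ e, g β c * g d e * (if β = c then (if d = e then p else 0) else 0) =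
      p * (∑ a, g a a) ^ 2 := by
    have h1 : ∀ β c, ∑ d, ∑ e, g β c * g d e * (if β = c then (if d = e then p else 0) else 0) =
        if β = c then g β c * (p * ∑ d, g d d) else 0 := by
      intro β c
      by_cases hb : β = c
      · simp only [hb, if_true]
        rw [Finset.mul_sum, Finset.mul_sum]
        refine Finset.sum_congr rfl fun d _ => ?_
        rw [Finset.sum_eq_single d]
        · rw [if_pos rfl]; ring
        · intro e _ he
          rw [if_neg (Ne.symm he), mul_zero]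
        · intro h; exact absurd (Finset.mem_univ _) h
      · simp only [hb, if_false, mul_zero, Finset.sum_const_zero]
    simp only [h1, Finset.sum_ite_eq, Finset.mem_univ, if_true]
    rw [← Finset.sum_mul]
    ring
  have e2 : ∑ β, ∑ c, ∑ d, ∑ e, g β c * g d e * (if β = d then (if c = e then p else 0) else 0) =
      p * ∑ a, ∑ c, g a c ^ 2 := by
    rw [Finset.mul_sum]
    refine Finset.sum_congr rfl fun β _ => ?_
    rw [Finset.mul_sum]
    refine Finset.sum_congr rfl fun c _ => ?_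
    rw [Finset.sum_eq_single β]
    · rw [Finset.sum_eq_single c]
      · simp only [if_true]; ring
      · intro e _ he
        rw [if_pos rfl, if_neg (Ne.symm he), mul_zero]
      · intro h; exact absurd (Finset.mem_univ _) h
    · intro d _ hd
      simp only [Ne.symm hd, if_false, mul_zero, Finset.sum_const_zero]
    · intro h; exact absurd (Finset.mem_univ _) h
  have e3 : ∑ β, ∑ c, ∑ d, ∑ e, g β c * g d e * (if β = e then (if c = d then p else 0) else 0) =
      p * ∑ a, ∑ c, g a c ^ 2 := by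
    rw [Finset.mul_sum]
    refine Finset.sum_congr rfl fun β _ => ?_
    rw [Finset.mul_sum]
    refine Finset.sum_congr rfl fun c _ => ?_
    rw [Finset.sum_eq_single c]
    · rw [Finset.sum_eq_single β]
      · simp only [if_true]; rw [hs c β]; ring
      · intro e _ he
        rw [if_neg (Ne.symm he), mul_zero]
      · intro h; exact absurd (Finset.mem_univ _) h
    · intro d _ hd
      simp only [Ne.symm hd, if_false, ite_self, mul_zero, Finset.sum_const_zero]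
    · intro h; exact absurd (Finset.mem_univ _) h
  simp only [mul_add, Finset.sum_add_distrib]
  rw [e1, e2, e3]
  ring

lemma exp_sub_three_le (z : ℂ) :
    ‖Complex.exp (-z) - 1 + z - z ^ 2 / 2‖ ≤ ‖z‖ ^ 3 * Real.exp ‖z‖ := by
  have h := Complex.norm_exp_sub_sum_le_norm_mul_exp (-z) 3
  have e : Complex.exp (-z) - 1 + z - z ^ 2 / 2 = Complex.exp (-z) - ∑ m ∈ Finset.range 3,
      (-z) ^ m / (m.factorial : ℂ) := by
    simp [Finset.sum_range_succ, Nat.factorial]; ring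
  rw [e]
  simpa using h

end

end Pool.Agent.N988.MK
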