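import Mathlib
import Pool.Agent.N988.MK.M4c
import Pool.Agent.N988.MK.Q1

/-!
# The correction of the quartic part: near points at the fixed scale
-/

open MeasureTheory Filter Metric Asymptotics Matrix
open scoped Matrix.Norms.Frobenius Topology ContDiff
open Pool.Agent.H906R3.YM Pool.Agent.W793.YM Pool.Agent.TH618.YM Pool.Agent.N984.TW
open Pool.Agent.N991.MK

namespace Pool.Agent.N988.MK

set_option linter.unusedSectionVars false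

noncomputable section

variable {N n : ℕ} {G : Subgroup (UN N)} {B : Frame G n} {hG : IsClosed (G : Set (UN N))}
variable [CompactSpace G] [MeasurableSpace G] [BorelSpace G] {μ : Measure G}
  [IsProbabilityMeasure μ] [μ.IsMulLeftInvariant] [μ.IsMulRightInvariant] [μ.IsInvInvariant]
variable {r₀ C : ℝ} {b : (Fin n → ℂ) → (Fin n → ℂ) → (Fin n → ℂ)}
variable {r k M Cm Cq Cu Cs Cp cA C6 : ℝ} {F : (Mat N)ˣ → ℂ} {m : (Fin n → ℂ) → ℂ} {f : G → ℝ}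

/-- the coefficient of the fourth power in the first estimate -/
def Qa (Cs Cp : ℝ) : ℝ := 2 * Cs + 3 * Cp

/-- the coefficient of the square in the first estimate -/
def Qb (Cs M : ℝ) : ℝ := 169 * M + 4 * Cs

/-- the relative size of the interaction -/
def Qt (r : ℝ) : ℝ := 2 / (5 * r ^ 2)

/-- the expansion of the second difference, abstractly -/
lemma quad_alg {Θ₁ Θ₂ : ℂ} {β γ θ t e R D : ℝ} (ht : 0 ≤ t) (he : 0 ≤ e) (hθ : 0 ≤ θ)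
    (h1 : ‖Θ₁ + (1 / 48 : ℂ) * β‖ ≤ e) (h2 : ‖Θ₂ + (4 / 48 : ℂ) * β‖ ≤ e)
    (n1 : ‖Θ₁‖ ≤ θ * t ^ 2) (n2 : ‖Θ₂‖ ≤ θ * t ^ 2) (hR : θ * t ^ 2 ≤ 1 / 2)
    (hβ0 : 0 ≤ β) (hβ : β ≤ R * t ^ 2) (hD : ‖Θ₂ - 4 * Θ₁ + γ‖ ≤ D) :
    ‖(Complex.exp (-Θ₂) - 1) - 4 * (Complex.exp (-Θ₁) - 1) - ((β : ℂ) ^ 2 / 384 + γ)‖ ≤
      10 * θ ^ 3 * t ^ 6 + D + 5 / 2 * e * ((θ + R / 12) * t ^ 2) := by
  have hexp : Real.exp (1 / 2) ≤ 2 := by
    have := Real.exp_one_lt_d9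
    have h3 : Real.exp (1 / 2) ^ 2 = Real.exp 1 := by
      rw [← Real.exp_nat_mul]; norm_num
    nlinarith [Real.exp_pos (1 / 2)]
  have hc : ∀ Θ : ℂ, ‖Θ‖ ≤ θ * t ^ 2 →
      ‖Complex.exp (-Θ) - 1 + Θ - Θ ^ 2 / 2‖ ≤ 2 * θ ^ 3 * t ^ 6 := by
    intro Θ hΘ
    refine (exp_sub_three_le Θ).trans ?_
    have h3 : Real.exp ‖Θ‖ ≤ 2 := (Real.exp_le_exp.2 (hΘ.trans hR)).trans hexp
    calc ‖Θ‖ ^ 3 * Real.exp ‖Θ‖ ≤ (θ * t ^ 2) ^ 3 * 2 := by gcongr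
      _ = _ := by ring
  have c1 := hc Θ₁ n1
  have c2 := hc Θ₂ n2
  have nβ : ∀ q : ℝ, 0 ≤ q → ‖(q : ℂ) * β‖ ≤ q * (R * t ^ 2) := by
    intro q hq
    rw [norm_mul, Complex.norm_real, Complex.norm_real, Real.norm_eq_abs, Real.norm_eq_abs,
      abs_of_nonneg hq, abs_of_nonneg hβ0]
    exact mul_le_mul_of_nonneg_left hβ hq
  have hR0 : 0 ≤ R * t ^ 2 := hβ0.trans hβ
  have hs : ∀ (Θ : ℂ) (q : ℝ), 0 ≤ q → q ≤ 1 / 12 → ‖Θ + (q : ℂ) * β‖ ≤ e → ‖Θ‖ ≤ θ * t ^ 2 →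
      ‖Θ ^ 2 - ((q : ℂ) * β) ^ 2‖ ≤ e * ((θ + R / 12) * t ^ 2) := by
    intro Θ q hq hq1 h3 h4
    have e1 : Θ ^ 2 - ((q : ℂ) * β) ^ 2 = (Θ + (q : ℂ) * β) * (Θ - (q : ℂ) * β) := by ring
    rw [e1, norm_mul]
    have h5 : ‖Θ - (q : ℂ) * β‖ ≤ (θ + R / 12) * t ^ 2 := by
      refine (norm_sub_le _ _).trans ((add_le_add h4 (nβ q hq)).trans ?_)
      have : q * (R * t ^ 2) ≤ 1 / 12 * (R * t ^ 2) := mul_le_mul_of_nonneg_right hq1 hR0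
      linarith
    exact mul_le_mul h3 h5 (norm_nonneg _) he
  have s1 := hs Θ₁ (1 / 48) (by norm_num) (by norm_num) (by push_cast; exact h1) n1
  have s2 := hs Θ₂ (4 / 48) (by norm_num) (by norm_num) (by push_cast; exact h2) n2
  push_cast at s1 s2
  have e0 : (Complex.exp (-Θ₂) - 1) - 4 * (Complex.exp (-Θ₁) - 1) - ((β : ℂ) ^ 2 / 384 + γ) =
      (Complex.exp (-Θ₂) - 1 + Θ₂ - Θ₂ ^ 2 / 2) - 4 * (Complex.exp (-Θ₁) - 1 + Θ₁ - Θ₁ ^ 2 / 2) -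
      (Θ₂ - 4 * Θ₁ + γ) + (1 / 2) * (Θ₂ ^ 2 - (4 / 48 * β) ^ 2) -
      2 * (Θ₁ ^ 2 - (1 / 48 * β) ^ 2) := by ring
  rw [e0]
  have t1 : ‖(4 : ℂ) * (Complex.exp (-Θ₁) - 1 + Θ₁ - Θ₁ ^ 2 / 2)‖ ≤ 4 * (2 * θ ^ 3 * t ^ 6) := by
    rw [norm_mul]
    have : ‖(4 : ℂ)‖ = 4 := by norm_num
    rw [this]
    exact mul_le_mul_of_nonneg_left c1 (by norm_num)
  have t2 : ‖(1 / 2 : ℂ) * (Θ₂ ^ 2 - (4 / 48 * β) ^ 2)‖ ≤
      1 / 2 * (e * ((θ + R / 12) * t ^ 2)) := by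
    rw [norm_mul]
    have : ‖(1 / 2 : ℂ)‖ = 1 / 2 := by norm_num
    rw [this]
    exact mul_le_mul_of_nonneg_left s2 (by norm_num)
  have t3 : ‖(2 : ℂ) * (Θ₁ ^ 2 - (1 / 48 * β) ^ 2)‖ ≤ 2 * (e * ((θ + R / 12) * t ^ 2)) := by
    rw [norm_mul]
    have : ‖(2 : ℂ)‖ = 2 := by norm_num
    rw [this]
    exact mul_le_mul_of_nonneg_left s1 (by norm_num)
  have n3 := norm_sub_le ((Complex.exp (-Θ₂) - 1 + Θ₂ - Θ₂ ^ 2 / 2) -
    4 * (Complex.exp (-Θ₁) - 1 + Θ₁ - Θ₁ ^ 2 / 2)) (Θ₂ - 4 * Θ₁ + γ)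
  have n4 := norm_sub_le (Complex.exp (-Θ₂) - 1 + Θ₂ - Θ₂ ^ 2 / 2)
    (4 * (Complex.exp (-Θ₁) - 1 + Θ₁ - Θ₁ ^ 2 / 2))
  refine (norm_sub_le _ _).trans ((add_le_add (norm_add_le _ _) le_rfl).trans ?_)
  linarith

/-- the first order expansion, abstractly -/
lemma one_alg {Θ : ℂ} {β θ t e q : ℝ} (h1 : ‖Θ + (q : ℂ) * β‖ ≤ e) (n1 : ‖Θ‖ ≤ θ * t ^ 2)
    (hR : θ * t ^ 2 ≤ 1 / 2) :
    ‖(Complex.exp (-Θ) - 1) - (q : ℂ) * β‖ ≤ e + 2 * θ ^ 2 * t ^ 4 := by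
  have hexp : Real.exp (1 / 2) ≤ 2 := by
    have := Real.exp_one_lt_d9
    have h3 : Real.exp (1 / 2) ^ 2 = Real.exp 1 := by
      rw [← Real.exp_nat_mul]; norm_num
    nlinarith [Real.exp_pos (1 / 2)]
  have h2 := exp_sub_two_le Θ
  have h3 : Real.exp ‖Θ‖ ≤ 2 := (Real.exp_le_exp.2 (n1.trans hR)).trans hexp
  have h4 : ‖Θ‖ ^ 2 * Real.exp ‖Θ‖ ≤ (θ * t ^ 2) ^ 2 * 2 := by gcongr
  have e0 : (Complex.exp (-Θ) - 1) - (q : ℂ) * β = (Complex.exp (-Θ) - 1 + Θ) -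
      (Θ + (q : ℂ) * β) := by ring
  rw [e0]
  refine (norm_sub_le _ _).trans ?_
  have h5 : (θ * t ^ 2) ^ 2 * 2 = 2 * θ ^ 2 * t ^ 4 := by ring
  linarith

/-- the coefficients of the error of the second difference -/
def D1 (C6 : ℝ) : ℝ := 4 * C6
/-- the coefficients of the error of the second difference -/
def D2 (r M Cp : ℝ) : ℝ := Cp / 8 + 25920 * M / r ^ 2
/-- the coefficients of the error of the second difference -/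
def D3 (r M C6 : ℝ) : ℝ := 2 * C6 + 16200 * M / r ^ 2

/-- the bound of order eight of the interaction, on real points -/
def Six (B : Frame G n) (r₀ : ℝ) (b : (Fin n → ℂ) → (Fin n → ℂ) → (Fin n → ℂ)) (C6 : ℝ) : Prop :=
  ∀ x y : Fin n → ℝ, nE x < r₀ / 2 → nE y < r₀ / 2 →
    ‖Tf b qC (rl x) (rl y) + 1 / 6 * (bR B x y : ℂ) +
      1 / 360 * ((b2R B x y : ℂ) + (b2R B y x : ℂ))‖ ≤
      C6 * nE x ^ 2 * nE y ^ 2 * max (nE x) (nE y) ^ 4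

lemma nE_smul' (t : ℝ) (x : Fin n → ℝ) : nE (t • x) = |t| * nE x := by
  have h := nC_smul (t : ℂ) (rl x)
  have e : ((t : ℂ) • rl x) = rl (t • x) := by
    funext i
    unfold rl
    simp
  rw [e, nC_rl, nC_rl, Complex.norm_real, Real.norm_eq_abs] at h
  exact h

lemma rl_smul' (t : ℝ) (x : Fin n → ℝ) : rl (t • x) = (t : ℂ) • rl x := by
  funext i
  unfold rl
  simp

namespace Hz

variable (Z : Hz B hG μ r₀ C b r k M Cm Cq Cu Cs Cp cA f F m)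
include Z

/-- the second difference of the interaction at the fixed scale -/
lemma Th_two (h6 : Six B r₀ b C6) (hC6 : 0 ≤ C6) {x : Fin n → ℝ} (hx1 : nE x = 1)
    {y : Fin n → ℝ} (hy : nE y < r / 3) {s : ℝ} (hs0 : 0 < s) (hs : s < r / 3) :
    ‖Th b k m (((2 * s : ℝ) : ℂ) • rl x) (rl y) - 4 * Th b k m ((s : ℂ) • rl x) (rl y) +
      ((k / 960 * s ^ 4 * b2R B x y : ℝ) : ℂ)‖ ≤
      k * C6 * s ^ 2 * nE y ^ 2 * (s ^ 4 + nE y ^ 4) +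
      10368 * M / r ^ 2 * s ^ 2 * nE y ^ 2 * (s ^ 2 + nE y ^ 2) := by
  have H := Z.H
  have hr0 := H.hr0
  have hr := H.hr
  have hk := H.hk
  have hM := H.hM
  have hy0 := nE_nonneg y
  obtain ⟨v, hv⟩ : ∃ v : Fin n → ℝ, v = (s / 2) • x := ⟨_, rfl⟩
  obtain ⟨w, hw⟩ : ∃ w : Fin n → ℝ, w = s • x := ⟨_, rfl⟩
  have hwv : w = (2 : ℝ) • v := by rw [hw, hv, smul_smul]; congr 1; ring
  have e1 : (1 / 2 : ℂ) • ((s : ℂ) • rl x) = rl v := by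
    rw [hv, rl_smul', smul_smul]; congr 1; push_cast; ring
  have e2 : (1 / 2 : ℂ) • (((2 * s : ℝ) : ℂ) • rl x) = rl w := by
    rw [hw, rl_smul', smul_smul]; congr 1; push_cast; ring
  have nv : nE v = s / 2 := by
    rw [hv, nE_smul', hx1, mul_one, abs_of_pos (by positivity)]
  have nw : nE w = s := by
    rw [hw, nE_smul', hx1, mul_one, abs_of_pos hs0]
  obtain ⟨E1', hE1⟩ : ∃ E1' : ℂ, E1' = Tf b qC (rl v) (rl y) + 1 / 6 * (bR B v y : ℂ) +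
      1 / 360 * ((b2R B v y : ℂ) + (b2R B y v : ℂ)) := ⟨_, rfl⟩
  obtain ⟨E2', hE2⟩ : ∃ E2' : ℂ, E2' = Tf b qC (rl w) (rl y) + 1 / 6 * (bR B w y : ℂ) +
      1 / 360 * ((b2R B w y : ℂ) + (b2R B y w : ℂ)) := ⟨_, rfl⟩
  have g1 := h6 v y (by rw [nv]; linarith) (by linarith)
  have g2 := h6 w y (by rw [nw]; linarith) (by linarith)
  rw [← hE1, nv] at g1
  rw [← hE2, nw] at g2
  have hq := H.hs.qrt H.hf.hol H.h1 hr0 hM
  have t1 := N991.MK.St.T4_near H.hs H.hf H.h1 H.h hG hr hr0 hM hq (x := rl v) (y := rl y)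
    (by rw [nC_rl, nv]; linarith) (by rw [nC_rl]; exact hy)
  have t2 := N991.MK.St.T4_near H.hs H.hf H.h1 H.h hG hr hr0 hM hq (x := rl w) (y := rl y)
    (by rw [nC_rl, nw]; linarith) (by rw [nC_rl]; exact hy)
  rw [T4_eq', nC_rl, nC_rl, nv] at t1
  rw [T4_eq', nC_rl, nC_rl, nw] at t2
  have t4 : T4 m (rl w) (rl y) = 4 * T4 m (rl v) (rl y) := by
    rw [hwv, rl_smul', T4_smul_left]
    push_cast
    ring
  have b1 : bR B w y = 4 * bR B v y := by rw [hwv, bR_smul_left]; norm_num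
  have b2 : b2R B w y = 16 * b2R B v y := by rw [hwv, b2R_smul_left]; norm_num
  have b3 : b2R B y w = 4 * b2R B y v := by rw [hwv, b2R_smul_right]; norm_num
  have b4 : b2R B v y = s ^ 4 / 16 * b2R B x y := by rw [hv, b2R_smul_left]; ring
  have key : Th b k m (((2 * s : ℝ) : ℂ) • rl x) (rl y) - 4 * Th b k m ((s : ℂ) • rl x) (rl y) +
      ((k / 960 * s ^ 4 * b2R B x y : ℝ) : ℂ) =
      (k / 2 : ℂ) * (E2' - 4 * E1') + ((Tf b m (rl w) (rl y) - T4 m (rl w) (rl y)) -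
        4 * (Tf b m (rl v) (rl y) - T4 m (rl v) (rl y))) := by
    unfold Th
    rw [e1, e2, hE1, hE2, b1, b2, b3, b4, t4]
    push_cast
    ring
  have hmax : ∀ j : ℕ, max s (nE y) ^ j ≤ s ^ j + nE y ^ j := by
    intro j
    rcases max_cases s (nE y) with ⟨h, _⟩ | ⟨h, _⟩
    · rw [h]; have : 0 ≤ nE y ^ j := by positivity
      linarith
    · rw [h]; have : 0 ≤ s ^ j := by positivity
      linarith
  have hmax' : ∀ j : ℕ, max (s / 2) (nE y) ^ j ≤ s ^ j + nE y ^ j := by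
    intro j
    refine le_trans ?_ (hmax j)
    have h0 : 0 ≤ max (s / 2) (nE y) := (nE_nonneg y).trans (le_max_right _ _)
    exact pow_le_pow_left₀ h0 (max_le_max (by linarith) le_rfl) j
  have p1 : ‖E1'‖ ≤ C6 * (s / 2) ^ 2 * nE y ^ 2 * (s ^ 4 + nE y ^ 4) :=
    g1.trans (mul_le_mul_of_nonneg_left (hmax' 4) (by positivity))
  have p2 : ‖E2'‖ ≤ C6 * s ^ 2 * nE y ^ 2 * (s ^ 4 + nE y ^ 4) :=
    g2.trans (mul_le_mul_of_nonneg_left (hmax 4) (by positivity))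
  have p3 : ‖Tf b m (rl v) (rl y) - T4 m (rl v) (rl y)‖ ≤
      5184 * M / r ^ 2 * (s / 2) ^ 2 * nE y ^ 2 * (s ^ 2 + nE y ^ 2) :=
    t1.trans (mul_le_mul_of_nonneg_left (hmax' 2) (by positivity))
  have p4 : ‖Tf b m (rl w) (rl y) - T4 m (rl w) (rl y)‖ ≤
      5184 * M / r ^ 2 * s ^ 2 * nE y ^ 2 * (s ^ 2 + nE y ^ 2) :=
    t2.trans (mul_le_mul_of_nonneg_left (hmax 2) (by positivity))
  have n4 : ‖(4 : ℂ)‖ = 4 := by norm_num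
  have nk : ‖(k / 2 : ℂ)‖ = k / 2 := by
    have : (k / 2 : ℂ) = ((k / 2 : ℝ) : ℂ) := by push_cast; ring
    rw [this, Complex.norm_real, Real.norm_eq_abs, abs_of_nonneg (by positivity)]
  rw [key]
  refine (norm_add_le _ _).trans ?_
  have q1 : ‖(k / 2 : ℂ) * (E2' - 4 * E1')‖ ≤ k / 2 * (C6 * s ^ 2 * nE y ^ 2 *
      (s ^ 4 + nE y ^ 4) + 4 * (C6 * (s / 2) ^ 2 * nE y ^ 2 * (s ^ 4 + nE y ^ 4))) := by
    rw [norm_mul, nk]
    refine mul_le_mul_of_nonneg_left ?_ (by positivity)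
    refine (norm_sub_le _ _).trans (add_le_add p2 ?_)
    rw [norm_mul, n4]
    exact mul_le_mul_of_nonneg_left p1 (by norm_num)
  have q2 : ‖(Tf b m (rl w) (rl y) - T4 m (rl w) (rl y)) -
        4 * (Tf b m (rl v) (rl y) - T4 m (rl v) (rl y))‖ ≤
      5184 * M / r ^ 2 * s ^ 2 * nE y ^ 2 * (s ^ 2 + nE y ^ 2) +
      4 * (5184 * M / r ^ 2 * (s / 2) ^ 2 * nE y ^ 2 * (s ^ 2 + nE y ^ 2)) := by
    refine (norm_sub_le _ _).trans (add_le_add p4 ?_)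
    rw [norm_mul, n4]
    exact mul_le_mul_of_nonneg_left p3 (by norm_num)
  refine (add_le_add q1 q2).trans (le_of_eq ?_)
  ring

end Hz

end

end Pool.Agent.N988.MK
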