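import Mathlib
import Pool.Agent.N988.MK.Q2

/-!
# The correction of the quartic part: the integrands
-/

open MeasureTheory Filter Metric Asymptotics Matrix
open scoped Matrix.Norms.Frobenius Topology ContDiff
open Pool.Agent.H906R3.YM Pool.Agent.W793.YM Pool.Agent.TH618.YM Pool.Agent.N984.TW
open Pool.Agent.N991.MK

namespace Pool.Agent.N988.MK

set_option linter.unusedSectionVars false

noncomputable section

variable {N n : ℕ} {G : Subgroup (UN N)} {B : Frame G n} {hG : IsClosed (G : Set (UN N))}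
variable [CompactSpace G] [MeasurableSpace G] [BorelSpace G] {μ : Measure G}
  [IsProbabilityMeasure μ] [μ.IsMulLeftInvariant] [μ.IsMulRightInvariant] [μ.IsInvInvariant]
variable {r₀ C : ℝ} {b : (Fin n → ℂ) → (Fin n → ℂ) → (Fin n → ℂ)}
variable {r k M Cm Cq Cu Cs Cp cA C6 : ℝ} {F : (Mat N)ˣ → ℂ} {m : (Fin n → ℂ) → ℂ} {f : G → ℝ}

namespace Hz

variable (Z : Hz B hG μ r₀ C b r k M Cm Cq Cu Cs Cp cA f F m)
include Z

/-- the interaction at one near point, to first order, at the fixed scale -/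
lemma Th_one {x : Fin n → ℝ} (hx1 : nE x = 1) {y : Fin n → ℝ} (hy : nE y < r / 3) {t : ℝ}
    (hyt : nE y ≤ 5 / 4 * t) {s j : ℝ} (hj0 : 0 < j) (hj : j ≤ 2) (hs0 : 0 < s)
    (hsk : s ^ 2 * k = 1) (hjs : j * s < r) :
    ‖Th b k m (((j * s : ℝ) : ℂ) • rl x) (rl y) +
      ((j ^ 2 / 48 : ℝ) : ℂ) * (bR B x (pz B (Eg B hG y)) : ℂ)‖ ≤
      Qa Cs Cp * t ^ 4 + Qb Cs M * t ^ 2 / k := by
  have H := Z.H
  have hk := H.hk
  have hM := H.hM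
  have hCs := Z.hCs
  have hCp := Z.hCp
  have hy0 := nE_nonneg y
  have hn : ‖((j * s : ℝ) : ℂ)‖ = j * s := by
    rw [Complex.norm_real, Real.norm_eq_abs, abs_of_pos (by positivity)]
  have h1 := Z.Th_exp (hG := hG) hx1 hy (ζ := ((j * s : ℝ) : ℂ)) (by rw [hn]; exact hjs)
  rw [hn] at h1
  have hs2 : s ^ 2 = 1 / k := by field_simp; linarith
  have hs2' : ((s : ℂ)) ^ 2 = 1 / (k : ℂ) := by
    have := congrArg (fun u : ℝ => (u : ℂ)) hs2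
    push_cast at this
    exact this
  have hkc : (k : ℂ) ≠ 0 := Complex.ofReal_ne_zero.2 hk.ne'
  have e1 : (k / 48 : ℂ) * (((j * s : ℝ) : ℂ)) ^ 2 = ((j ^ 2 / 48 : ℝ) : ℂ) := by
    push_cast
    rw [mul_pow, hs2']
    field_simp
  rw [e1] at h1
  refine h1.trans ?_
  have e2 : (j * s) ^ 2 = j ^ 2 / k := by rw [mul_pow, hs2]; ring
  have e3 : (j * s) ^ 4 = j ^ 4 / k ^ 2 := by
    have : (j * s) ^ 4 = ((j * s) ^ 2) ^ 2 := by ring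
    rw [this, e2]; field_simp
  rw [e2, e3]
  have j2 : j ^ 2 ≤ 4 := by nlinarith
  have j4 : j ^ 4 ≤ 16 := by nlinarith [sq_nonneg (j ^ 2)]
  have y2 : nE y ^ 2 ≤ 25 / 16 * t ^ 2 := by
    have := pow_le_pow_left₀ hy0 hyt 2
    nlinarith
  have y4 : nE y ^ 4 ≤ 5 / 2 * t ^ 4 := by
    have h8 := pow_le_pow_left₀ hy0 hyt 4
    have h9 : 0 ≤ t ^ 4 := by positivity
    nlinarith
  unfold Qa Qb
  have s1 : j ^ 2 / k * ((k * Cs / 8 + k * Cp / 4) * nE y ^ 4 + 27 * M * nE y ^ 2) ≤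
      4 / k * ((k * Cs / 8 + k * Cp / 4) * (5 / 2 * t ^ 4) + 27 * M * (25 / 16 * t ^ 2)) := by
    gcongr
  have s2 : j ^ 4 / k ^ 2 * (k * Cs / 8 * nE y ^ 2) ≤
      16 / k ^ 2 * (k * Cs / 8 * (25 / 16 * t ^ 2)) := by
    gcongr
  refine (add_le_add s1 s2).trans ?_
  have e4 : 4 / k * ((k * Cs / 8 + k * Cp / 4) * (5 / 2 * t ^ 4) + 27 * M * (25 / 16 * t ^ 2)) +
      16 / k ^ 2 * (k * Cs / 8 * (25 / 16 * t ^ 2)) =
      (5 / 4 * Cs + 5 / 2 * Cp) * t ^ 4 + (675 / 4 * M + 25 / 8 * Cs) * t ^ 2 / k := by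
    field_simp
    ring
  rw [e4]
  have i1 : 0 ≤ Cs * t ^ 4 := by positivity
  have i2 : 0 ≤ Cp * t ^ 4 := by positivity
  have i3 : 0 ≤ M * t ^ 2 / k := by positivity
  have i4 : 0 ≤ Cs * t ^ 2 / k := by positivity
  have e5 : (2 * Cs + 3 * Cp) * t ^ 4 + (169 * M + 4 * Cs) * t ^ 2 / k -
      ((5 / 4 * Cs + 5 / 2 * Cp) * t ^ 4 + (675 / 4 * M + 25 / 8 * Cs) * t ^ 2 / k) =
      3 / 4 * (Cs * t ^ 4) + 1 / 2 * (Cp * t ^ 4) + 1 / 4 * (M * t ^ 2 / k) +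
        7 / 8 * (Cs * t ^ 2 / k) := by ring
  have : 0 ≤ 3 / 4 * (Cs * t ^ 4) + 1 / 2 * (Cp * t ^ 4) + 1 / 4 * (M * t ^ 2 / k) +
        7 / 8 * (Cs * t ^ 2 / k) := by positivity
  linarith

lemma Aq_le : Aq Cq k M ≤ k / (10 * r ^ 2) := by
  have h1 := Z.H.hAr
  have h2 := Z.H.hr0
  rw [le_div_iff₀ (by positivity)]
  linarith

lemma bR_pz_le {x : Fin n → ℝ} (hx1 : nE x = 1) {z : G} (hz : nN z ≤ r / 4) :
    bR B x (pz B z) ≤ 25 * nN z ^ 2 := by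
  have H := Z.H
  have hr0 := H.hr0
  have hr := H.hr
  have hz0 : 0 ≤ nN z := norm_nonneg _
  obtain ⟨y, hy, hy2⟩ := H.hl.lg z (by linarith)
  have h5 := Z.pz_le (y := y) (by linarith)
  rw [hy] at h5
  have h6 := bR_le (B := B) x (pz B z)
  rw [hx1, one_pow, mul_one] at h6
  have h7 := nE_nonneg (pz B z)
  have h8 : nE (pz B z) ≤ 5 / 2 * nN z := by linarith
  have h9 := pow_le_pow_left₀ h7 h8 2
  linarith

/-- the integrand, to first order -/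
lemma near_one {x : Fin n → ℝ} (hx1 : nE x = 1) {z : G} (hz : nN z ≤ r / 4) {s j : ℝ}
    (hj0 : 0 < j) (hj : j ≤ 2) (hs0 : 0 < s) (hsk : s ^ 2 * k = 1) (hjs : j * s < r) :
    ‖Jn B F (((j * s : ℝ) : ℂ) • rl x) z * F 1 ^ 2 /
        F (uE B ((1 / 2 : ℂ) • (((j * s : ℝ) : ℂ) • rl x))) ^ 2 - (f z : ℂ) ^ 2 -
      ((j ^ 2 / 48 : ℝ) : ℂ) * (((f z) ^ 2 * bR B x (pz B z) : ℝ) : ℂ)‖ ≤
      (Qa Cs Cp + 2 * Qt r ^ 2) * ((f z) ^ 2 * nN z ^ 4) +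
        Qb Cs M / k * ((f z) ^ 2 * nN z ^ 2) := by
  have H := Z.H
  have hr0 := H.hr0
  have hr := H.hr
  have hk := H.hk
  have hM := H.hM
  have hz0 : 0 ≤ nN z := norm_nonneg _
  have hn : ‖((j * s : ℝ) : ℂ)‖ = j * s := by
    rw [Complex.norm_real, Real.norm_eq_abs, abs_of_pos (by positivity)]
  obtain ⟨X, hX⟩ : ∃ X : Fin n → ℂ, X = ((j * s : ℝ) : ℂ) • rl x := ⟨_, rfl⟩
  have hxn : nC X = j * s := by rw [hX, nC_smul, nC_rl, hx1, mul_one, hn]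
  have hxr : nC X < r := by rw [hxn]; exact hjs
  obtain ⟨y, hy, hy2, hy3, -, h4, h5⟩ := near_pt H.hs H.hf H.h1 H.h H.hr H.hr0 H.hl H.hM hk.le
    H.hq H.hCq hxr hz
  have hP := H.Pne hxr
  obtain ⟨P, hPd⟩ : ∃ P, P = F (uE B ((1 / 2 : ℂ) • X)) := ⟨_, rfl⟩
  obtain ⟨Θ, hΘ⟩ : ∃ Θ, Θ = Th b k m X (rl y) := ⟨_, rfl⟩
  have h6 := Z.Th_one hx1 hy3 hy2 hj0 hj hs0 hsk hjs
  rw [← hX] at h6
  rw [hy, ← hΘ] at h6
  rw [← hX, ← hPd]
  rw [← hPd] at h4 hP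
  rw [← hΘ] at h4 h5
  have hΘn : ‖Θ‖ ≤ Qt r * nN z ^ 2 := by
    refine h5.trans ?_
    rw [hxn]
    have e1 : (Cq / 8 * k + 27 * M) * (25 / 16) = Aq Cq k M := rfl
    rw [e1]
    refine mul_le_mul_of_nonneg_right ?_ (sq_nonneg _)
    have h7 := Z.Aq_le
    have h8 : (j * s) ^ 2 ≤ 4 / k := by
      rw [mul_pow, le_div_iff₀ hk, mul_assoc, hsk]
      nlinarith
    calc Aq Cq k M * (j * s) ^ 2 ≤ k / (10 * r ^ 2) * (4 / k) := by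
          have := H.Aq_nonneg
          gcongr
      _ = Qt r := by unfold Qt; field_simp; norm_num
  have hR : Qt r * nN z ^ 2 ≤ 1 / 2 := by
    have h7 : nN z ^ 2 ≤ (r / 4) ^ 2 := pow_le_pow_left₀ hz0 hz 2
    calc Qt r * nN z ^ 2 ≤ Qt r * (r / 4) ^ 2 := by
          refine mul_le_mul_of_nonneg_left h7 ?_
          unfold Qt; positivity
      _ = 1 / 40 := by unfold Qt; field_simp; norm_num
      _ ≤ _ := by norm_num
  have h7 := one_alg h6 hΘn hR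
  have e : Jn B F X z * F 1 ^ 2 / P ^ 2 - (f z : ℂ) ^ 2 -
      ((j ^ 2 / 48 : ℝ) : ℂ) * (((f z) ^ 2 * bR B x (pz B z) : ℝ) : ℂ) =
      (f z : ℂ) ^ 2 * ((Complex.exp (-Θ) - 1) -
        ((j ^ 2 / 48 : ℝ) : ℂ) * (bR B x (pz B z) : ℂ)) := by
    rw [h4]
    push_cast
    field_simp
  rw [e, norm_mul, norm_pow, Complex.norm_real, Real.norm_eq_abs, sq_abs]
  refine (mul_le_mul_of_nonneg_left h7 (sq_nonneg _)).trans (le_of_eq ?_)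
  ring

/-- the integrand, to second order -/
lemma near_two (h6 : Six B r₀ b C6) (hC6 : 0 ≤ C6) {x : Fin n → ℝ} (hx1 : nE x = 1) {z : G}
    (hz : nN z ≤ r / 4) {s : ℝ} (hs0 : 0 < s) (hsk : s ^ 2 * k = 1) (hsr : s < r / 3) :
    ‖(Jn B F (((2 * s : ℝ) : ℂ) • rl x) z * F 1 ^ 2 /
        F (uE B ((1 / 2 : ℂ) • (((2 * s : ℝ) : ℂ) • rl x))) ^ 2 - (f z : ℂ) ^ 2) -
      4 * (Jn B F (((1 * s : ℝ) : ℂ) • rl x) z * F 1 ^ 2 /
        F (uE B ((1 / 2 : ℂ) • (((1 * s : ℝ) : ℂ) • rl x))) ^ 2 - (f z : ℂ) ^ 2) -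
      (((f z) ^ 2 * (bR B x (pz B z) ^ 2 / 384 + 1 / (960 * k) * b2R B x (pz B z)) : ℝ) : ℂ)‖ ≤
      (10 * Qt r ^ 3 + D1 C6 + 5 / 2 * Qa Cs Cp * (Qt r + 25 / 12)) * ((f z) ^ 2 * nN z ^ 6) +
      (D2 r M Cp + 5 / 2 * Qb Cs M * (Qt r + 25 / 12)) / k * ((f z) ^ 2 * nN z ^ 4) +
      D3 r M C6 / k ^ 2 * ((f z) ^ 2 * nN z ^ 2) := by
  have H := Z.H
  have hr0 := H.hr0
  have hr := H.hr
  have hk := H.hk
  have hM := H.hM
  have hCs := Z.hCs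
  have hCp := Z.hCp
  have hz0 : 0 ≤ nN z := norm_nonneg _
  have hs2 : s ^ 2 = 1 / k := by field_simp; linarith
  have hs4 : s ^ 4 = 1 / k ^ 2 := by
    have : s ^ 4 = (s ^ 2) ^ 2 := by ring
    rw [this, hs2]; field_simp
  -- the two points
  obtain ⟨X₁, hX₁⟩ : ∃ X : Fin n → ℂ, X = ((1 * s : ℝ) : ℂ) • rl x := ⟨_, rfl⟩
  obtain ⟨X₂, hX₂⟩ : ∃ X : Fin n → ℂ, X = ((2 * s : ℝ) : ℂ) • rl x := ⟨_, rfl⟩
  have hn : ∀ j : ℝ, 0 < j → ‖((j * s : ℝ) : ℂ)‖ = j * s := by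
    intro j hj
    rw [Complex.norm_real, Real.norm_eq_abs, abs_of_pos (by positivity)]
  have hx₁n : nC X₁ = 1 * s := by rw [hX₁, nC_smul, nC_rl, hx1, mul_one, hn 1 one_pos]
  have hx₂n : nC X₂ = 2 * s := by rw [hX₂, nC_smul, nC_rl, hx1, mul_one, hn 2 two_pos]
  have hx₁r : nC X₁ < r := by rw [hx₁n]; linarith
  have hx₂r : nC X₂ < r := by rw [hx₂n]; linarith
  obtain ⟨y, hy, hy2, hy3, -, h41, h51⟩ := near_pt H.hs H.hf H.h1 H.h H.hr H.hr0 H.hl H.hM hk.le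
    H.hq H.hCq hx₁r hz
  -- the same point `y` for the second
  have hfact : ∀ X : Fin n → ℂ, nC X < r → Jn B F X z * F 1 ^ 2 =
      F (uE B ((1 / 2 : ℂ) • X)) ^ 2 * (f z : ℂ) ^ 2 * Complex.exp (-Th b k m X (rl y)) ∧
      ‖Th b k m X (rl y)‖ ≤ Aq Cq k M * nC X ^ 2 * nN z ^ 2 := by
    intro X hX
    constructor
    · have h2 := H.hs.fact H.h hr (x := X) (y := rl y) hX (by rwa [nC_rl])
      have e1 : uE B (rl y) = uG z := by rw [uE_rl B hG, hy]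
      have e2 : uE B (-rl y) = (uG z)⁻¹ := by rw [uE_neg, e1]
      rw [e1, e2, H.hf.res] at h2
      rw [← h2]
      unfold Jn
      rw [H.hf.swap', map_inv]
    · have h2 := H.hs.Th_le hG H.hf H.h1 H.h hr hM hk.le H.hq hX (y := rl y) (by rwa [nC_rl])
      refine h2.trans ?_
      rw [nC_rl]
      have h3 : nE y ^ 2 ≤ 25 / 16 * nN z ^ 2 := by
        have := pow_le_pow_left₀ (nE_nonneg y) hy2 2
        nlinarith
      have h0 := H.hCq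
      have h4 : 0 ≤ (Cq / 8 * k + 27 * M) * nC X ^ 2 := by positivity
      unfold Aq
      calc _ ≤ (Cq / 8 * k + 27 * M) * nC X ^ 2 * (25 / 16 * nN z ^ 2) :=
            mul_le_mul_of_nonneg_left h3 h4
        _ = _ := by ring
  obtain ⟨f1, n1⟩ := hfact X₁ hx₁r
  obtain ⟨f2, n2⟩ := hfact X₂ hx₂r
  have hP1 := H.Pne hx₁r
  have hP2 := H.Pne hx₂r
  obtain ⟨P₁, hP₁⟩ : ∃ P, P = F (uE B ((1 / 2 : ℂ) • X₁)) := ⟨_, rfl⟩
  obtain ⟨P₂, hP₂⟩ : ∃ P, P = F (uE B ((1 / 2 : ℂ) • X₂)) := ⟨_, rfl⟩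
  obtain ⟨Θ₁, hΘ₁⟩ : ∃ Θ, Θ = Th b k m X₁ (rl y) := ⟨_, rfl⟩
  obtain ⟨Θ₂, hΘ₂⟩ : ∃ Θ, Θ = Th b k m X₂ (rl y) := ⟨_, rfl⟩
  have g1 := Z.Th_one hx1 hy3 hy2 (j := 1) one_pos (by norm_num) hs0 hsk (by linarith)
  have g2 := Z.Th_one hx1 hy3 hy2 (j := 2) two_pos le_rfl hs0 hsk (by linarith)
  have g3 := Z.Th_two (hG := hG) h6 hC6 hx1 hy3 hs0 hsr
  have es : ((s : ℝ) : ℂ) = ((1 * s : ℝ) : ℂ) := by rw [one_mul]
  rw [es, ← hX₁, ← hX₂, ← hΘ₁, ← hΘ₂] at g3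
  rw [← hX₁, hy, ← hΘ₁] at g1
  rw [← hX₂, hy, ← hΘ₂] at g2
  rw [← hP₁, ← hΘ₁] at f1
  rw [← hP₂, ← hΘ₂] at f2
  rw [← hΘ₁, hx₁n] at n1
  rw [← hΘ₂, hx₂n] at n2
  rw [← hP₁] at hP1
  rw [← hP₂] at hP2
  rw [← hX₁, ← hX₂, ← hP₁, ← hP₂]
  have hAq := Z.Aq_le
  have hAq0 := H.Aq_nonneg
  have hΘn : ∀ j : ℝ, 0 ≤ j → j ≤ 2 → Aq Cq k M * (j * s) ^ 2 * nN z ^ 2 ≤
      Qt r * nN z ^ 2 := by
    intro j hj0 hj
    refine mul_le_mul_of_nonneg_right ?_ (sq_nonneg _)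
    have h8 : (j * s) ^ 2 ≤ 4 / k := by
      rw [mul_pow, le_div_iff₀ hk, mul_assoc, hsk]
      nlinarith
    calc Aq Cq k M * (j * s) ^ 2 ≤ k / (10 * r ^ 2) * (4 / k) := by gcongr
      _ = Qt r := by unfold Qt; field_simp; norm_num
  have hR : Qt r * nN z ^ 2 ≤ 1 / 2 := by
    have h7 : nN z ^ 2 ≤ (r / 4) ^ 2 := pow_le_pow_left₀ hz0 hz 2
    calc Qt r * nN z ^ 2 ≤ Qt r * (r / 4) ^ 2 := by
          refine mul_le_mul_of_nonneg_left h7 ?_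
          unfold Qt; positivity
      _ = 1 / 40 := by unfold Qt; field_simp; norm_num
      _ ≤ _ := by norm_num
  have hQt : 0 ≤ Qt r := by unfold Qt; positivity
  have hQa : 0 ≤ Qa Cs Cp := by unfold Qa; positivity
  have hQb : 0 ≤ Qb Cs M := by unfold Qb; positivity
  have hy0 := nE_nonneg y
  have y2 : nE y ^ 2 ≤ 25 / 16 * nN z ^ 2 := by
    have := pow_le_pow_left₀ hy0 hy2 2
    nlinarith
  have y4 : nE y ^ 4 ≤ 5 / 2 * nN z ^ 4 := by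
    have h8 := pow_le_pow_left₀ hy0 hy2 4
    have h9 : 0 ≤ nN z ^ 4 := by positivity
    nlinarith
  have y6 : nE y ^ 6 ≤ 4 * nN z ^ 6 := by
    have h8 := pow_le_pow_left₀ hy0 hy2 6
    have h9 : 0 ≤ nN z ^ 6 := by positivity
    nlinarith
  -- the double bracket in linear coordinates
  have hb2 : |b2R B x y - b2R B x (pz B z)| ≤ 120 * Cp * nN z ^ 4 := by
    have h3 := b2R_diff (B := B) x y (pz B z)
    have h4 := Z.hp y (by linarith)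
    have h5 := Z.pz_le (y := y) (by linarith)
    rw [hy] at h4 h5
    have h6' : nE (y - pz B z) ≤ Cp * nE y ^ 3 := by
      have : nE (y - pz B z) = nE (pz B z - y) := by rw [← nE_neg, neg_sub]
      rw [this]; exact h4
    refine h3.trans ?_
    rw [hx1]
    have h0 := nE_nonneg (y - pz B z)
    have h0' := nE_nonneg (pz B z)
    calc 16 * 1 ^ 4 * nE (y - pz B z) * (nE y + nE (pz B z))
        ≤ 16 * 1 ^ 4 * (Cp * nE y ^ 3) * (nE y + 2 * nE y) := by gcongr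
      _ = 48 * Cp * nE y ^ 4 := by ring
      _ ≤ 48 * Cp * (5 / 2 * nN z ^ 4) := mul_le_mul_of_nonneg_left y4 (by positivity)
      _ = _ := by ring
  have hD : ‖Θ₂ - 4 * Θ₁ + ((1 / (960 * k) * b2R B x (pz B z) : ℝ) : ℂ)‖ ≤
      D1 C6 * nN z ^ 6 + D2 r M Cp / k * nN z ^ 4 + D3 r M C6 / k ^ 2 * nN z ^ 2 := by
    have e1 : k / 960 * s ^ 4 * b2R B x y = 1 / (960 * k) * b2R B x y := by
      rw [hs4]; field_simp
    rw [e1] at g3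
    have e2 : Θ₂ - 4 * Θ₁ + ((1 / (960 * k) * b2R B x (pz B z) : ℝ) : ℂ) =
        (Θ₂ - 4 * Θ₁ + ((1 / (960 * k) * b2R B x y : ℝ) : ℂ)) -
        ((1 / (960 * k) * (b2R B x y - b2R B x (pz B z)) : ℝ) : ℂ) := by
      push_cast; ring
    rw [e2]
    have e3 : ‖((1 / (960 * k) * (b2R B x y - b2R B x (pz B z)) : ℝ) : ℂ)‖ ≤
        1 / (960 * k) * (120 * Cp * nN z ^ 4) := by
      rw [Complex.norm_real, Real.norm_eq_abs, abs_mul, abs_of_pos (by positivity)]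
      exact mul_le_mul_of_nonneg_left hb2 (by positivity)
    refine (norm_sub_le _ _).trans ((add_le_add g3 e3).trans ?_)
    rw [hs2, hs4]
    have q1 : k * C6 * (1 / k) * nE y ^ 2 * (1 / k ^ 2 + nE y ^ 4) ≤
        C6 * (25 / 16 * nN z ^ 2 / k ^ 2 + 4 * nN z ^ 6) := by
      have : k * C6 * (1 / k) * nE y ^ 2 * (1 / k ^ 2 + nE y ^ 4) =
          C6 * (nE y ^ 2 / k ^ 2 + nE y ^ 6) := by field_simp
      rw [this]
      gcongr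
    have q2 : 10368 * M / r ^ 2 * (1 / k) * nE y ^ 2 * (1 / k + nE y ^ 2) ≤
        10368 * M / r ^ 2 * (1 / k) * (25 / 16 * nN z ^ 2 / k + 5 / 2 * nN z ^ 4) := by
      have : 10368 * M / r ^ 2 * (1 / k) * nE y ^ 2 * (1 / k + nE y ^ 2) =
          10368 * M / r ^ 2 * (1 / k) * (nE y ^ 2 / k + nE y ^ 4) := by ring
      rw [this]
      gcongr
    refine (add_le_add (add_le_add q1 q2) le_rfl).trans ?_
    unfold D1 D2 D3
    have e4 : C6 * (25 / 16 * nN z ^ 2 / k ^ 2 + 4 * nN z ^ 6) +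
        10368 * M / r ^ 2 * (1 / k) * (25 / 16 * nN z ^ 2 / k + 5 / 2 * nN z ^ 4) +
        1 / (960 * k) * (120 * Cp * nN z ^ 4) =
        4 * C6 * nN z ^ 6 + (Cp / 8 + 25920 * M / r ^ 2) / k * nN z ^ 4 +
        (25 / 16 * C6 + 16200 * M / r ^ 2) / k ^ 2 * nN z ^ 2 := by
      field_simp
      ring
    rw [e4]
    have e5 : (25 / 16 * C6 + 16200 * M / r ^ 2) / k ^ 2 * nN z ^ 2 ≤
        (2 * C6 + 16200 * M / r ^ 2) / k ^ 2 * nN z ^ 2 := by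
      have : 25 / 16 * C6 ≤ 2 * C6 := by linarith
      gcongr
    linarith
  have h7 := quad_alg (β := bR B x (pz B z)) (γ := 1 / (960 * k) * b2R B x (pz B z))
    (θ := Qt r) (t := nN z) (e := Qa Cs Cp * nN z ^ 4 + Qb Cs M * nN z ^ 2 / k) (R := 25) hz0
    (by positivity) hQt
    (by
      have e1 : ((1 / 48 : ℂ)) = (((1 : ℝ) ^ 2 / 48 : ℝ) : ℂ) := by push_cast; ring
      rw [e1]; exact g1)
    (by
      have e1 : ((4 / 48 : ℂ)) = (((2 : ℝ) ^ 2 / 48 : ℝ) : ℂ) := by push_cast; ring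
      rw [e1]; exact g2)
    (n1.trans (hΘn 1 (by norm_num) (by norm_num))) (n2.trans (hΘn 2 (by norm_num) le_rfl)) hR
    (bR_nonneg _ _) (Z.bR_pz_le hx1 hz) hD
  have e : (Jn B F X₂ z * F 1 ^ 2 / P₂ ^ 2 - (f z : ℂ) ^ 2) -
      4 * (Jn B F X₁ z * F 1 ^ 2 / P₁ ^ 2 - (f z : ℂ) ^ 2) -
      (((f z) ^ 2 * (bR B x (pz B z) ^ 2 / 384 + 1 / (960 * k) * b2R B x (pz B z)) : ℝ) : ℂ) =
      (f z : ℂ) ^ 2 * ((Complex.exp (-Θ₂) - 1) - 4 * (Complex.exp (-Θ₁) - 1) -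
        (((bR B x (pz B z) : ℝ) : ℂ) ^ 2 / 384 +
          ((1 / (960 * k) * b2R B x (pz B z) : ℝ) : ℂ))) := by
    rw [f1, f2]
    have a1 : P₂ ^ 2 * (f z : ℂ) ^ 2 * Complex.exp (-Θ₂) / P₂ ^ 2 =
        (f z : ℂ) ^ 2 * Complex.exp (-Θ₂) := by field_simp
    have a2 : P₁ ^ 2 * (f z : ℂ) ^ 2 * Complex.exp (-Θ₁) / P₁ ^ 2 =
        (f z : ℂ) ^ 2 * Complex.exp (-Θ₁) := by field_simp
    rw [a1, a2]
    push_cast
    ring
  rw [e, norm_mul, norm_pow, Complex.norm_real, Real.norm_eq_abs, sq_abs]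
  refine (mul_le_mul_of_nonneg_left h7 (sq_nonneg _)).trans (le_of_eq ?_)
  ring

end Hz

end

end Pool.Agent.N988.MK
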