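import Mathlib
import Pool.Agent.N988.MK.Dlt2
import Pool.Agent.N988.MK.Q3
import Pool.Agent.N991.MK.TwoE

/-!
# The correction of the quartic part: the integrals
-/

open MeasureTheory Filter Metric Asymptotics Matrix
open scoped Matrix.Norms.Frobenius Topology ContDiff
open Pool.Agent.H906R3.YM Pool.Agent.W793.YM Pool.Agent.TH618.YM Pool.Agent.N984.TW
open Pool.Agent.N991.MK

namespace Pool.Agent.N988.MK

set_option linter.unusedSectionVars false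

noncomputable section

variable {N n : ℕ} {G : Subgroup (UN N)} {B : Frame G n} {hG : IsClosed (G : Set (UN N))}
variable [CompactSpace G] [MeasurableSpace G] [BorelSpace G] {μ : Measure G}
  [IsProbabilityMeasure μ] [μ.IsMulLeftInvariant] [μ.IsMulRightInvariant] [μ.IsInvInvariant]
variable {r₀ C : ℝ} {b : (Fin n → ℂ) → (Fin n → ℂ) → (Fin n → ℂ)}
variable {r k M Cm Cq Cu Cs Cp cA C6 : ℝ} {F : (Mat N)ˣ → ℂ} {m : (Fin n → ℂ) → ℂ} {f : G → ℝ}

lemma b2R_cont (x : Fin n → ℝ) : Continuous fun z : G => b2R B x (pz B z) := by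
  have e : (fun z : G => b2R B x (pz B z)) = fun z => ∑ a, ∑ c,
    ip (cmm (LX B x) (cmm (LX B x) (B.X a))) (cmm (LX B x) (cmm (LX B x) (B.X c))) *
      (pz B z a * pz B z c) := by
    funext z; exact b2R_eq x _
  rw [e]
  exact continuous_finsetSum _ fun a _ => continuous_finsetSum _ fun c _ =>
    continuous_const.mul ((pz_cont a).mul (pz_cont c))

/-- the second moment of the double bracket -/
lemma b2R_int (hfc : Continuous f) {p₁ : ℝ}
    (hp₁ : ∀ a c, PQ B μ r f a c = if a = c then p₁ else 0) (x : Fin n → ℝ) :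
    ∫ z in {z : G | nN z ≤ r / 4}, (f z) ^ 2 * b2R B x (pz B z) ∂μ = p₁ * t4R B x := by
  have h1 := PQ_bil (B := B) (μ := μ) (r := r) hfc fun a c =>
    ip (cmm (LX B x) (cmm (LX B x) (B.X a))) (cmm (LX B x) (cmm (LX B x) (B.X c)))
  have h2 : ∑ a, ∑ c, PQ B μ r f a c *
      ip (cmm (LX B x) (cmm (LX B x) (B.X a))) (cmm (LX B x) (cmm (LX B x) (B.X c))) =
      p₁ * t4R B x := by
    unfold t4R
    rw [Finset.mul_sum]
    refine Finset.sum_congr rfl fun a _ => ?_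
    rw [Finset.sum_eq_single a]
    · rw [hp₁, if_pos rfl, norm_sq_ip]
    · intro c _ hc
      rw [hp₁, if_neg (Ne.symm hc), zero_mul]
    · intro h; exact absurd (Finset.mem_univ _) h
  rw [h2] at h1
  rw [h1]
  refine integral_congr_ae (Eventually.of_forall fun z => ?_)
  beta_reduce
  rw [b2R_eq]

variable (B μ) in
/-- the fourth moments of the linear coordinates -/
def QQ (r : ℝ) (f : G → ℝ) (β c d e : Fin n) : ℝ :=
  ∫ z in {z : G | nN z ≤ r / 4}, (f z) ^ 2 * (pz B z β * (pz B z c * (pz B z d * pz B z e))) ∂μ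

lemma bR_sq_int (hfc : Continuous f) (x : Fin n → ℝ) :
    ∫ z in {z : G | nN z ≤ r / 4}, (f z) ^ 2 * bR B x (pz B z) ^ 2 ∂μ =
      ∑ β, ∑ c, ∑ d, ∑ e, gR B x β c * gR B x d e * QQ B μ r f β c d e := by
  have hint : ∀ (q : ℝ) (β c d e : Fin n), IntegrableOn (fun z : G =>
      q * ((f z) ^ 2 * (pz B z β * (pz B z c * (pz B z d * pz B z e)))))
      {z : G | nN z ≤ r / 4} μ := fun q β c d e =>
    (intgR (continuous_const.mul ((hfc.pow 2).mul ((pz_cont β).mul ((pz_cont c).mul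
      ((pz_cont d).mul (pz_cont e))))))).integrableOn
  have h1 : ∀ z : G, (f z) ^ 2 * bR B x (pz B z) ^ 2 = ∑ β, ∑ c, ∑ d, ∑ e,
      (gR B x β c * gR B x d e) *
        ((f z) ^ 2 * (pz B z β * (pz B z c * (pz B z d * pz B z e)))) := by
    intro z
    rw [bR_sq, Finset.mul_sum]
    refine Finset.sum_congr rfl fun β _ => ?_
    rw [Finset.mul_sum]
    refine Finset.sum_congr rfl fun c _ => ?_
    rw [Finset.mul_sum]
    refine Finset.sum_congr rfl fun d _ => ?_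
    rw [Finset.mul_sum]
    refine Finset.sum_congr rfl fun e _ => ?_
    ring
  rw [integral_congr_ae (Eventually.of_forall h1), integral_finsetSum]
  · refine Finset.sum_congr rfl fun β _ => ?_
    rw [integral_finsetSum]
    · refine Finset.sum_congr rfl fun c _ => ?_
      rw [integral_finsetSum]
      · refine Finset.sum_congr rfl fun d _ => ?_
        rw [integral_finsetSum]
        · refine Finset.sum_congr rfl fun e _ => ?_
          unfold QQ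
          rw [integral_const_mul]
        · intro e _
          exact hint _ β c d e
      · intro d _
        exact integrable_finsetSum _ fun e _ => hint _ β c d e
    · intro c _
      exact integrable_finsetSum _ fun d _ => integrable_finsetSum _ fun e _ => hint _ β c d e
  · intro β _
    exact integrable_finsetSum _ fun c _ => integrable_finsetSum _ fun d _ =>
      integrable_finsetSum _ fun e _ => hint _ β c d e

lemma int_sub2 {φ ψ : G → ℂ} (hφ : Continuous φ) (hψ : Continuous ψ) (c : ℂ) :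
    ∫ z in {z : G | nN z ≤ r / 4}, (φ z - c * ψ z) ∂μ =
      (∫ z in {z : G | nN z ≤ r / 4}, φ z ∂μ) - c * ∫ z in {z : G | nN z ≤ r / 4}, ψ z ∂μ := by
  have i1 : IntegrableOn φ {z : G | nN z ≤ r / 4} μ := (intg hφ).integrableOn
  have i2 : IntegrableOn (fun z => c * ψ z) {z : G | nN z ≤ r / 4} μ :=
    (intg (continuous_const.mul hψ)).integrableOn
  rw [integral_sub i1 i2, integral_const_mul]

lemma int_sub3 {φ ψ χ : G → ℂ} (hφ : Continuous φ) (hψ : Continuous ψ) (hχ : Continuous χ)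
    (c : ℂ) : ∫ z in {z : G | nN z ≤ r / 4}, (φ z - c * ψ z - χ z) ∂μ =
      (∫ z in {z : G | nN z ≤ r / 4}, φ z ∂μ) - c * (∫ z in {z : G | nN z ≤ r / 4}, ψ z ∂μ) -
        ∫ z in {z : G | nN z ≤ r / 4}, χ z ∂μ := by
  have i1 : IntegrableOn (fun z => φ z - c * ψ z) {z : G | nN z ≤ r / 4} μ :=
    (intg (hφ.sub (continuous_const.mul hψ))).integrableOn
  have i2 : IntegrableOn χ {z : G | nN z ≤ r / 4} μ := (intg hχ).integrableOn
  rw [integral_sub i1 i2, int_sub2 hφ hψ]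

namespace Hz

variable (Z : Hz B hG μ r₀ C b r k M Cm Cq Cu Cs Cp cA f F m)
include Z

/-- the fourth moment of the bracket -/
lemma bR_sq_mom {x : Fin n → ℝ} (hx1 : nE x = 1) {p₁ : ℝ}
    (hp₁ : ∀ a c, PQ B μ r f a c = if a = c then p₁ else 0) :
    |2 * k * (∫ z in {z : G | nN z ≤ r / 4}, (f z) ^ 2 * bR B x (pz B z) ^ 2 ∂μ) -
      p₁ * (cA ^ 2 + 2 * t4R B x)| ≤ 16 * n ^ 4 * (E4 N Cm Cu Cp r k M * ∫ z, (f z) ^ 2 ∂μ) := by
  have H := Z.H
  have hfc : Continuous f := H.hf.cont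
  have hg : ∑ a, gR B x a a = cA := by
    rw [gR_diag, Z.hcA, hx1]; ring
  have e1 : p₁ * (cA ^ 2 + 2 * t4R B x) = ∑ β, ∑ c, ∑ d, ∑ e, gR B x β c * gR B x d e *
      ((if β = c then (if d = e then p₁ else 0) else 0) +
        (if β = d then (if c = e then p₁ else 0) else 0) +
        (if β = e then (if c = d then p₁ else 0) else 0)) := by
    rw [pair_sum _ (gR_symm x), hg, gR_sq (hG := hG)]
  rw [bR_sq_int (B := B) (μ := μ) hfc x, e1]
  have e2 : 2 * k * (∑ β, ∑ c, ∑ d, ∑ e, gR B x β c * gR B x d e * QQ B μ r f β c d e) -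
      ∑ β, ∑ c, ∑ d, ∑ e, gR B x β c * gR B x d e *
      ((if β = c then (if d = e then p₁ else 0) else 0) +
        (if β = d then (if c = e then p₁ else 0) else 0) +
        (if β = e then (if c = d then p₁ else 0) else 0)) =
      ∑ β, ∑ c, ∑ d, ∑ e, gR B x β c * gR B x d e * (2 * k * QQ B μ r f β c d e -
      ((if β = c then PQ B μ r f d e else 0) + (if β = d then PQ B μ r f c e else 0) +
        (if β = e then PQ B μ r f c d else 0))) := by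
    rw [Finset.mul_sum, ← Finset.sum_sub_distrib]
    refine Finset.sum_congr rfl fun β _ => ?_
    rw [Finset.mul_sum, ← Finset.sum_sub_distrib]
    refine Finset.sum_congr rfl fun c _ => ?_
    rw [Finset.mul_sum, ← Finset.sum_sub_distrib]
    refine Finset.sum_congr rfl fun d _ => ?_
    rw [Finset.mul_sum, ← Finset.sum_sub_distrib]
    refine Finset.sum_congr rfl fun e _ => ?_
    rw [hp₁, hp₁, hp₁]
    ring
  rw [e2]
  obtain ⟨W, hWd⟩ : ∃ W : ℝ, W = ∫ z : G, (f z) ^ 2 ∂μ := ⟨_, rfl⟩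
  have h4 : ∀ β c d e : Fin n, |gR B x β c * gR B x d e * (2 * k * QQ B μ r f β c d e -
      ((if β = c then PQ B μ r f d e else 0) + (if β = d then PQ B μ r f c e else 0) +
        (if β = e then PQ B μ r f c d else 0)))| ≤ 16 * (E4 N Cm Cu Cp r k M * W) := by
    intro β c d e
    have h5 := mom4_tensor Z β c d e
    rw [← hWd] at h5
    have h6 := gR_le (B := B) x β c
    have h7 := gR_le (B := B) x d e
    rw [hx1] at h6 h7
    rw [abs_mul, abs_mul]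
    have h8 : |gR B x β c| * |gR B x d e| ≤ 16 := by
      calc |gR B x β c| * |gR B x d e| ≤ (4 * 1 ^ 2) * (4 * 1 ^ 2) :=
            mul_le_mul h6 h7 (abs_nonneg _) (by norm_num)
        _ = 16 := by norm_num
    exact mul_le_mul h8 h5 (abs_nonneg _) (by norm_num)
  rw [← hWd]
  have h9 : ∀ (q : ℝ) (φ : Fin n → ℝ), (∀ i, |φ i| ≤ q) → |∑ i, φ i| ≤ n * q := by
    intro q φ hφ
    refine (Finset.abs_sum_le_sum_abs _ _).trans ((Finset.sum_le_sum fun i _ => hφ i).trans ?_)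
    rw [Finset.sum_const, Finset.card_univ, Fintype.card_fin, nsmul_eq_mul]
  refine (h9 _ _ fun β => h9 _ _ fun c => h9 _ _ fun d => h9 _ _ fun e => h4 β c d e).trans
    (le_of_eq ?_)
  ring

/-- the ratio in terms of the near and the far part -/
lemma split_U {X : Fin n → ℂ} (hX : nC X < r) :
    (EE B μ f F X - 1) * ((∫ z, (f z) ^ 2 ∂μ : ℝ) : ℂ) =
      (∫ z in {z : G | nN z ≤ r / 4}, (Jn B F X z * F 1 ^ 2 / F (uE B ((1 / 2 : ℂ) • X)) ^ 2 -
        (f z : ℂ) ^ 2) ∂μ) +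
      ((∫ z in {z : G | r / 4 < nN z}, Jn B F X z ∂μ) *
        (F 1 ^ 2 / F (uE B ((1 / 2 : ℂ) • X)) ^ 2) -
        ((∫ z in {z : G | r / 4 < nN z}, (f z) ^ 2 ∂μ : ℝ) : ℂ)) := by
  have H := Z.H
  have hfc : Continuous f := H.hf.cont
  have hP := H.Pne hX
  obtain ⟨P, hPd⟩ : ∃ P, P = F (uE B ((1 / 2 : ℂ) • X)) := ⟨_, rfl⟩
  rw [← hPd] at hP ⊢
  have hf2 : Continuous fun z : G => ((f z : ℝ) : ℂ) ^ 2 :=
    (Complex.continuous_ofReal.comp hfc).pow 2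
  have hJ := Jn_cont (B := B) (G := G) H.hf.hol X
  have hWc := H.Wne
  have eW : ((∫ z, (f z) ^ 2 ∂μ : ℝ) : ℂ) = ∫ z : G, ((f z : ℝ) : ℂ) ^ 2 ∂μ := by
    rw [← integral_complex_ofReal]
    refine integral_congr_ae (Eventually.of_forall fun z => ?_)
    beta_reduce
    push_cast
    rfl
  have hEE : (EE B μ f F X - 1) * ((∫ z, (f z) ^ 2 ∂μ : ℝ) : ℂ) =
      convC μ F F (uE B X) * (F 1 ^ 2 / P ^ 2) - ((∫ z, (f z) ^ 2 ∂μ : ℝ) : ℂ) := by
    unfold EE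
    rw [← hPd]
    field_simp
  have e2 : ((∫ z in {z : G | r / 4 < nN z}, (f z) ^ 2 ∂μ : ℝ) : ℂ) =
      ∫ z in {z : G | r / 4 < nN z}, ((f z : ℝ) : ℂ) ^ 2 ∂μ := by
    rw [← integral_complex_ofReal]
    refine integral_congr_ae (Eventually.of_forall fun z => ?_)
    beta_reduce
    push_cast
    rfl
  have e3 : ∫ z in {z : G | nN z ≤ r / 4}, (Jn B F X z * F 1 ^ 2 / P ^ 2 - (f z : ℂ) ^ 2) ∂μ =
      (∫ z in {z : G | nN z ≤ r / 4}, Jn B F X z ∂μ) * (F 1 ^ 2 / P ^ 2) -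
      (∫ z in {z : G | nN z ≤ r / 4}, (f z : ℂ) ^ 2 ∂μ) := by
    rw [integral_sub, ← integral_mul_const]
    · congr 1
      refine integral_congr_ae (Eventually.of_forall fun z => ?_)
      beta_reduce
      ring
    · exact (intg ((hJ.mul continuous_const).div_const _)).integrableOn
    · exact (intg hf2).integrableOn
  rw [hEE, e3, e2, conv_eq (B := B) (hG := hG) (μ := μ) H.hf.hol X, eW,
    split_int (r := r) hJ, split_int (r := r) hf2]
  ring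

/-- the error of the first order expansion -/
def EU (Cm Cs Cp r k M : ℝ) : ℝ :=
  (Qa Cs Cp + 2 * Qt r ^ 2) * (10 / k * (Cm / k)) + Qb Cs M / k * (Cm / k) + 8 / (k ^ 3 * r ^ 2)

/-- the ratio to first order at the fixed scale -/
lemma U_one {x : Fin n → ℝ} (hx1 : nE x = 1) {p₁ : ℝ}
    (hp₁ : ∀ a c, PQ B μ r f a c = if a = c then p₁ else 0) {s j : ℝ}
    (hj0 : 0 < j) (hj : j ≤ 2) (hs0 : 0 < s) (hsk : s ^ 2 * k = 1) (hjs : j * s < r) :
    ‖(EE B μ f F (((j * s : ℝ) : ℂ) • rl x) - 1) * ((∫ z, (f z) ^ 2 ∂μ : ℝ) : ℂ) -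
      ((j ^ 2 / 48 * (p₁ * cA) : ℝ) : ℂ)‖ ≤ EU Cm Cs Cp r k M * ∫ z, (f z) ^ 2 ∂μ := by
  have H := Z.H
  have hr0 := H.hr0
  have hk := H.hk
  have hM := H.hM
  have hCs := Z.hCs
  have hCp := Z.hCp
  have hfc : Continuous f := H.hf.cont
  obtain ⟨W, hWd⟩ : ∃ W : ℝ, W = ∫ z : G, (f z) ^ 2 ∂μ := ⟨_, rfl⟩
  have hW : 0 < W := by rw [hWd]; exact H.hW
  have hn : ‖((j * s : ℝ) : ℂ)‖ = j * s := by
    rw [Complex.norm_real, Real.norm_eq_abs, abs_of_pos (by positivity)]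
  obtain ⟨X, hX⟩ : ∃ X : Fin n → ℂ, X = ((j * s : ℝ) : ℂ) • rl x := ⟨_, rfl⟩
  have hxn : nC X = j * s := by rw [hX, nC_smul, nC_rl, hx1, mul_one, hn]
  have hxr : nC X < r := by rw [hxn]; exact hjs
  have h1 := Z.split_U hxr
  have hf2 : Continuous fun z : G => ((f z : ℝ) : ℂ) ^ 2 :=
    (Complex.continuous_ofReal.comp hfc).pow 2
  have hJ := Jn_cont (B := B) (G := G) H.hf.hol X
  have hbc : Continuous fun z : G => (f z) ^ 2 * bR B x (pz B z) := (hfc.pow 2).mul (bR_cont x)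
  have eB : ((p₁ * cA : ℝ) : ℂ) = ∫ z in {z : G | nN z ≤ r / 4},
      (((f z) ^ 2 * bR B x (pz B z) : ℝ) : ℂ) ∂μ := by
    have h2 := bR_int (B := B) (μ := μ) (r := r) hfc hp₁ Z.hcA x
    rw [hx1, one_pow, mul_one] at h2
    rw [← h2, ← integral_complex_ofReal]
  have hs2 : s ^ 2 = 1 / k := by field_simp; linarith
  have e5 := Z.far_R (hG := hG) hx1 (ζ := ((j * s : ℝ) : ℂ)) (by rw [hn]; exact hjs)
  rw [← hX, hn, ← hWd] at e5
  have hfar : 2 / k ^ 2 * W * (j * s / r) ^ 2 ≤ 8 / (k ^ 3 * r ^ 2) * W := by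
    have : (j * s / r) ^ 2 ≤ 4 / (k * r ^ 2) := by
      rw [div_pow, mul_pow, hs2, div_le_div_iff₀ (by positivity) (by positivity)]
      have j2 : j ^ 2 ≤ 4 := by nlinarith
      have e : j ^ 2 * (1 / k) * (k * r ^ 2) = j ^ 2 * r ^ 2 := by field_simp
      rw [e]
      exact mul_le_mul_of_nonneg_right j2 (sq_nonneg _)
    calc 2 / k ^ 2 * W * (j * s / r) ^ 2 ≤ 2 / k ^ 2 * W * (4 / (k * r ^ 2)) := by gcongr
      _ = _ := by field_simp; norm_num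
  rw [← hX, ← hWd]
  rw [← hWd] at h1
  rw [h1]
  obtain ⟨P, hPd⟩ : ∃ P, P = F (uE B ((1 / 2 : ℂ) • X)) := ⟨_, rfl⟩
  rw [← hPd] at e5 ⊢
  have e4 : ‖(∫ z in {z : G | nN z ≤ r / 4}, (Jn B F X z * F 1 ^ 2 / P ^ 2 -
      (f z : ℂ) ^ 2) ∂μ) - ((j ^ 2 / 48 * (p₁ * cA) : ℝ) : ℂ)‖ ≤
      (Qa Cs Cp + 2 * Qt r ^ 2) * (10 / k * (Cm / k * W)) + Qb Cs M / k * (Cm / k * W) := by
    have e6 : (∫ z in {z : G | nN z ≤ r / 4}, (Jn B F X z * F 1 ^ 2 / P ^ 2 -
        (f z : ℂ) ^ 2) ∂μ) - ((j ^ 2 / 48 * (p₁ * cA) : ℝ) : ℂ) =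
        ∫ z in {z : G | nN z ≤ r / 4}, (Jn B F X z * F 1 ^ 2 / P ^ 2 - (f z : ℂ) ^ 2 -
          ((j ^ 2 / 48 : ℝ) : ℂ) * (((f z) ^ 2 * bR B x (pz B z) : ℝ) : ℂ)) ∂μ := by
      have h3 := int_sub2 (μ := μ) (r := r)
        (φ := fun z : G => Jn B F X z * F 1 ^ 2 / P ^ 2 - (f z : ℂ) ^ 2)
        (ψ := fun z : G => (((f z) ^ 2 * bR B x (pz B z) : ℝ) : ℂ))
        (((hJ.mul continuous_const).div_const _).sub hf2)
        (Complex.continuous_ofReal.comp hbc) ((j ^ 2 / 48 : ℝ) : ℂ)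
      rw [h3, ← eB]
      push_cast
      ring
    rw [e6]
    refine (norm_integral_le_integral_norm _).trans ?_
    have h2 : ∫ z in {z : G | nN z ≤ r / 4}, ‖Jn B F X z * F 1 ^ 2 / P ^ 2 - (f z : ℂ) ^ 2 -
          ((j ^ 2 / 48 : ℝ) : ℂ) * (((f z) ^ 2 * bR B x (pz B z) : ℝ) : ℂ)‖ ∂μ ≤
        ∫ z in {z : G | nN z ≤ r / 4}, ((Qa Cs Cp + 2 * Qt r ^ 2) * ((f z) ^ 2 * nN z ^ 4) +
          Qb Cs M / k * ((f z) ^ 2 * nN z ^ 2)) ∂μ := by
      refine setIntegral_mono_on ?_ ?_ meas_near fun z hz => ?_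
      · exact (intg ((((hJ.mul continuous_const).div_const _).sub hf2).sub
          (continuous_const.mul (Complex.continuous_ofReal.comp hbc)))).norm.integrableOn
      · exact (intgR ((continuous_const.mul ((hfc.pow 2).mul (nN_cont.pow 4))).add
          (continuous_const.mul ((hfc.pow 2).mul (nN_cont.pow 2))))).integrableOn
      · have h3 := Z.near_one hx1 hz hj0 hj hs0 hsk hjs
        rw [← hX, ← hPd] at h3
        exact h3
    refine h2.trans ?_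
    rw [integral_add, integral_const_mul, integral_const_mul]
    · have h2 := mom4 H.hi H.hf hk
      have h3 := mom2 H.hi H.hf hk
      rw [← hWd] at h2 h3
      have hQa : 0 ≤ Qa Cs Cp := by unfold Qa; positivity
      have hQb : 0 ≤ Qb Cs M := by unfold Qb; positivity
      gcongr
    · exact (intgR (continuous_const.mul ((hfc.pow 2).mul (nN_cont.pow 4)))).integrableOn
    · exact (intgR (continuous_const.mul ((hfc.pow 2).mul (nN_cont.pow 2)))).integrableOn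
  have e7 : ∀ A D E : ℂ, A + D - E = (A - E) + D := fun A D E => by ring
  rw [e7]
  refine (norm_add_le _ _).trans ((add_le_add e4 (e5.trans hfar)).trans (le_of_eq ?_))
  unfold EU
  ring

/-- the error of the second order expansion -/
def EV (Cm Cs Cp C6 r k M : ℝ) : ℝ :=
  (10 * Qt r ^ 3 + D1 C6 + 5 / 2 * Qa Cs Cp * (Qt r + 25 / 12)) * (200 / k ^ 2 * (Cm / k)) +
      (D2 r M Cp + 5 / 2 * Qb Cs M * (Qt r + 25 / 12)) / k * (10 / k * (Cm / k)) +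
      D3 r M C6 / k ^ 2 * (Cm / k) + 16 / (k ^ 3 * r ^ 2)

/-- the ratio to second order at the fixed scale -/
lemma U_two (h6 : Six B r₀ b C6) (hC6 : 0 ≤ C6) {x : Fin n → ℝ} (hx1 : nE x = 1) {p₁ : ℝ}
    (hp₁ : ∀ a c, PQ B μ r f a c = if a = c then p₁ else 0) {s : ℝ}
    (hs0 : 0 < s) (hsk : s ^ 2 * k = 1) (hsr : s < r / 3) :
    ‖(EE B μ f F (((2 * s : ℝ) : ℂ) • rl x) - 1) * ((∫ z, (f z) ^ 2 ∂μ : ℝ) : ℂ) -
      4 * ((EE B μ f F (((1 * s : ℝ) : ℂ) • rl x) - 1) * ((∫ z, (f z) ^ 2 ∂μ : ℝ) : ℂ)) -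
      (((∫ z in {z : G | nN z ≤ r / 4}, (f z) ^ 2 * bR B x (pz B z) ^ 2 ∂μ) / 384 +
        1 / (960 * k) * (p₁ * t4R B x) : ℝ) : ℂ)‖ ≤ EV Cm Cs Cp C6 r k M * ∫ z, (f z) ^ 2 ∂μ := by
  have H := Z.H
  have hr0 := H.hr0
  have hk := H.hk
  have hM := H.hM
  have hCs := Z.hCs
  have hCp := Z.hCp
  have hfc : Continuous f := H.hf.cont
  obtain ⟨W, hWd⟩ : ∃ W : ℝ, W = ∫ z : G, (f z) ^ 2 ∂μ := ⟨_, rfl⟩
  have hW : 0 < W := by rw [hWd]; exact H.hW
  have hs2 : s ^ 2 = 1 / k := by field_simp; linarith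
  obtain ⟨X₁, hX₁⟩ : ∃ X : Fin n → ℂ, X = ((1 * s : ℝ) : ℂ) • rl x := ⟨_, rfl⟩
  obtain ⟨X₂, hX₂⟩ : ∃ X : Fin n → ℂ, X = ((2 * s : ℝ) : ℂ) • rl x := ⟨_, rfl⟩
  have hn : ∀ j : ℝ, 0 < j → ‖((j * s : ℝ) : ℂ)‖ = j * s := by
    intro j hj
    rw [Complex.norm_real, Real.norm_eq_abs, abs_of_pos (by positivity)]
  have hx₁n : nC X₁ = 1 * s := by rw [hX₁, nC_smul, nC_rl, hx1, mul_one, hn 1 one_pos]
  have hx₂n : nC X₂ = 2 * s := by rw [hX₂, nC_smul, nC_rl, hx1, mul_one, hn 2 two_pos]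
  have hx₁r : nC X₁ < r := by rw [hx₁n]; linarith
  have hx₂r : nC X₂ < r := by rw [hx₂n]; linarith
  have u1 := Z.split_U hx₁r
  have u2 := Z.split_U hx₂r
  have hf2 : Continuous fun z : G => ((f z : ℝ) : ℂ) ^ 2 :=
    (Complex.continuous_ofReal.comp hfc).pow 2
  have hJ1 := Jn_cont (B := B) (G := G) H.hf.hol X₁
  have hJ2 := Jn_cont (B := B) (G := G) H.hf.hol X₂
  have hb1 : Continuous fun z : G => (f z) ^ 2 * bR B x (pz B z) ^ 2 :=
    (hfc.pow 2).mul ((bR_cont x).pow 2)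
  have hb2 : Continuous fun z : G => (f z) ^ 2 * b2R B x (pz B z) :=
    (hfc.pow 2).mul (b2R_cont x)
  have hbc : Continuous fun z : G =>
      (f z) ^ 2 * (bR B x (pz B z) ^ 2 / 384 + 1 / (960 * k) * b2R B x (pz B z)) :=
    (hfc.pow 2).mul ((((bR_cont x).pow 2).div_const _).add (continuous_const.mul (b2R_cont x)))
  obtain ⟨I, hI⟩ : ∃ I : ℝ, I = ∫ z in {z : G | nN z ≤ r / 4}, (f z) ^ 2 *
      bR B x (pz B z) ^ 2 ∂μ := ⟨_, rfl⟩
  have eB : ((I / 384 + 1 / (960 * k) * (p₁ * t4R B x) : ℝ) : ℂ) =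
      ∫ z in {z : G | nN z ≤ r / 4},
      (((f z) ^ 2 * (bR B x (pz B z) ^ 2 / 384 + 1 / (960 * k) * b2R B x (pz B z)) : ℝ) : ℂ) ∂μ := by
    rw [integral_complex_ofReal]
    congr 1
    have h2 := b2R_int (B := B) (μ := μ) (r := r) hfc hp₁ x
    rw [← h2, hI, ← integral_div, ← integral_const_mul, ← integral_add]
    · refine integral_congr_ae (Eventually.of_forall fun z => ?_)
      beta_reduce
      ring
    · exact (intgR (hb1.div_const _)).integrableOn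
    · exact (intgR (continuous_const.mul hb2)).integrableOn
  have f1 := Z.far_R (hG := hG) hx1 (ζ := ((1 * s : ℝ) : ℂ)) (by rw [hn 1 one_pos]; linarith)
  have f2 := Z.far_R (hG := hG) hx1 (ζ := ((2 * s : ℝ) : ℂ)) (by rw [hn 2 two_pos]; linarith)
  rw [← hX₁, hn 1 one_pos, ← hWd] at f1
  rw [← hX₂, hn 2 two_pos, ← hWd] at f2
  rw [← hX₁, ← hX₂, ← hWd, ← hI]
  rw [← hWd] at u1 u2
  rw [u1, u2]
  obtain ⟨P₁, hP₁⟩ : ∃ P, P = F (uE B ((1 / 2 : ℂ) • X₁)) := ⟨_, rfl⟩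
  obtain ⟨P₂, hP₂⟩ : ∃ P, P = F (uE B ((1 / 2 : ℂ) • X₂)) := ⟨_, rfl⟩
  rw [← hP₁] at f1 ⊢
  rw [← hP₂] at f2 ⊢
  obtain ⟨R₁, hR₁⟩ : ∃ R : ℂ, R = (∫ z in {z : G | r / 4 < nN z}, Jn B F X₁ z ∂μ) *
        (F 1 ^ 2 / P₁ ^ 2) -
        ((∫ z in {z : G | r / 4 < nN z}, (f z) ^ 2 ∂μ : ℝ) : ℂ) := ⟨_, rfl⟩
  obtain ⟨R₂, hR₂⟩ : ∃ R : ℂ, R = (∫ z in {z : G | r / 4 < nN z}, Jn B F X₂ z ∂μ) *
        (F 1 ^ 2 / P₂ ^ 2) -
        ((∫ z in {z : G | r / 4 < nN z}, (f z) ^ 2 ∂μ : ℝ) : ℂ) := ⟨_, rfl⟩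
  rw [← hR₁] at f1 ⊢
  rw [← hR₂] at f2 ⊢
  have hc1 : Continuous fun z : G => Jn B F X₁ z * F 1 ^ 2 / P₁ ^ 2 - (f z : ℂ) ^ 2 :=
    ((hJ1.mul continuous_const).div_const _).sub hf2
  have hc2 : Continuous fun z : G => Jn B F X₂ z * F 1 ^ 2 / P₂ ^ 2 - (f z : ℂ) ^ 2 :=
    ((hJ2.mul continuous_const).div_const _).sub hf2
  have hbcc := Complex.continuous_ofReal.comp hbc
  have e4 : ‖(∫ z in {z : G | nN z ≤ r / 4}, (Jn B F X₂ z * F 1 ^ 2 / P₂ ^ 2 -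
      (f z : ℂ) ^ 2) ∂μ) - 4 * (∫ z in {z : G | nN z ≤ r / 4}, (Jn B F X₁ z * F 1 ^ 2 / P₁ ^ 2 -
      (f z : ℂ) ^ 2) ∂μ) - ((I / 384 + 1 / (960 * k) * (p₁ * t4R B x) : ℝ) : ℂ)‖ ≤
      (10 * Qt r ^ 3 + D1 C6 + 5 / 2 * Qa Cs Cp * (Qt r + 25 / 12)) *
        (200 / k ^ 2 * (Cm / k * W)) +
      (D2 r M Cp + 5 / 2 * Qb Cs M * (Qt r + 25 / 12)) / k * (10 / k * (Cm / k * W)) +
      D3 r M C6 / k ^ 2 * (Cm / k * W) := by
    have e6 : (∫ z in {z : G | nN z ≤ r / 4}, (Jn B F X₂ z * F 1 ^ 2 / P₂ ^ 2 -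
      (f z : ℂ) ^ 2) ∂μ) - 4 * (∫ z in {z : G | nN z ≤ r / 4}, (Jn B F X₁ z * F 1 ^ 2 / P₁ ^ 2 -
      (f z : ℂ) ^ 2) ∂μ) - ((I / 384 + 1 / (960 * k) * (p₁ * t4R B x) : ℝ) : ℂ) =
        ∫ z in {z : G | nN z ≤ r / 4}, ((Jn B F X₂ z * F 1 ^ 2 / P₂ ^ 2 - (f z : ℂ) ^ 2) -
          4 * (Jn B F X₁ z * F 1 ^ 2 / P₁ ^ 2 - (f z : ℂ) ^ 2) -
          (((f z) ^ 2 * (bR B x (pz B z) ^ 2 / 384 +
            1 / (960 * k) * b2R B x (pz B z)) : ℝ) : ℂ)) ∂μ := by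
      have h3 := int_sub3 (μ := μ) (r := r) hc2 hc1 (χ := fun z : G =>
        (((f z) ^ 2 * (bR B x (pz B z) ^ 2 / 384 + 1 / (960 * k) * b2R B x (pz B z)) : ℝ) : ℂ))
        (Complex.continuous_ofReal.comp hbc) 4
      rw [h3, ← eB]
    rw [e6]
    refine (norm_integral_le_integral_norm _).trans ?_
    have h2 : ∫ z in {z : G | nN z ≤ r / 4}, ‖(Jn B F X₂ z * F 1 ^ 2 / P₂ ^ 2 - (f z : ℂ) ^ 2) -
          4 * (Jn B F X₁ z * F 1 ^ 2 / P₁ ^ 2 - (f z : ℂ) ^ 2) -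
          (((f z) ^ 2 * (bR B x (pz B z) ^ 2 / 384 +
            1 / (960 * k) * b2R B x (pz B z)) : ℝ) : ℂ)‖ ∂μ ≤
        ∫ z in {z : G | nN z ≤ r / 4},
          ((10 * Qt r ^ 3 + D1 C6 + 5 / 2 * Qa Cs Cp * (Qt r + 25 / 12)) *
            ((f z) ^ 2 * nN z ^ 6) +
          (D2 r M Cp + 5 / 2 * Qb Cs M * (Qt r + 25 / 12)) / k * ((f z) ^ 2 * nN z ^ 4) +
          D3 r M C6 / k ^ 2 * ((f z) ^ 2 * nN z ^ 2)) ∂μ := by
      refine setIntegral_mono_on ?_ ?_ meas_near fun z hz => ?_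
      · exact (intg ((hc2.sub (continuous_const.mul hc1)).sub hbcc)).norm.integrableOn
      · exact (intgR (((continuous_const.mul ((hfc.pow 2).mul (nN_cont.pow 6))).add
          (continuous_const.mul ((hfc.pow 2).mul (nN_cont.pow 4)))).add
          (continuous_const.mul ((hfc.pow 2).mul (nN_cont.pow 2))))).integrableOn
      · have h3 := Z.near_two h6 hC6 hx1 hz hs0 hsk hsr
        rw [← hX₁, ← hX₂, ← hP₁, ← hP₂] at h3
        exact h3
    refine h2.trans ?_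
    rw [integral_add, integral_add, integral_const_mul, integral_const_mul, integral_const_mul]
    · have h2 := mom4 H.hi H.hf hk
      have h3 := mom2 H.hi H.hf hk
      have h4 := mom6 H.hi H.hf hk
      rw [← hWd] at h2 h3 h4
      have hQt : 0 ≤ Qt r := by unfold Qt; positivity
      have hQa : 0 ≤ Qa Cs Cp := by unfold Qa; positivity
      have hQb : 0 ≤ Qb Cs M := by unfold Qb; positivity
      have hD1 : 0 ≤ D1 C6 := by unfold D1; positivity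
      have hD2 : 0 ≤ D2 r M Cp := by unfold D2; positivity
      have hD3 : 0 ≤ D3 r M C6 := by unfold D3; positivity
      gcongr
    · exact (intgR (continuous_const.mul ((hfc.pow 2).mul (nN_cont.pow 6)))).integrableOn
    · exact (intgR (continuous_const.mul ((hfc.pow 2).mul (nN_cont.pow 4)))).integrableOn
    · exact (intgR ((continuous_const.mul ((hfc.pow 2).mul (nN_cont.pow 6))).add
          (continuous_const.mul ((hfc.pow 2).mul (nN_cont.pow 4))))).integrableOn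
    · exact (intgR (continuous_const.mul ((hfc.pow 2).mul (nN_cont.pow 2)))).integrableOn
  have hfar : ‖R₂ - 4 * R₁‖ ≤ 16 / (k ^ 3 * r ^ 2) * W := by
    refine (norm_sub_le _ _).trans ?_
    rw [norm_mul]
    have n4 : ‖(4 : ℂ)‖ = 4 := by norm_num
    rw [n4]
    have q1 : 2 / k ^ 2 * W * (1 * s / r) ^ 2 = 2 / (k ^ 3 * r ^ 2) * W := by
      rw [div_pow, mul_pow, hs2]; field_simp
    have q2 : 2 / k ^ 2 * W * (2 * s / r) ^ 2 = 8 / (k ^ 3 * r ^ 2) * W := by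
      rw [div_pow, mul_pow, hs2]; field_simp; norm_num
    rw [q1] at f1
    rw [q2] at f2
    calc ‖R₂‖ + 4 * ‖R₁‖ ≤ 8 / (k ^ 3 * r ^ 2) * W + 4 * (2 / (k ^ 3 * r ^ 2) * W) := by linarith
      _ = _ := by ring
  have e7 : ∀ A₁ A₂ E : ℂ, A₂ + R₂ - 4 * (A₁ + R₁) - E = (A₂ - 4 * A₁ - E) + (R₂ - 4 * R₁) :=
    fun A₁ A₂ E => by ring
  rw [e7]
  refine (norm_add_le _ _).trans ((add_le_add e4 hfar).trans (le_of_eq ?_))
  unfold EV
  ring

end Hz

end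

end Pool.Agent.N988.MK
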