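import Mathlib
import Pool.Agent.N988.MK.Q4

/-!
# The correction of the quartic part: the logarithm at the fixed scale
-/

open MeasureTheory Filter Metric Asymptotics Matrix
open scoped Matrix.Norms.Frobenius Topology ContDiff
open Pool.Agent.H906R3.YM Pool.Agent.W793.YM Pool.Agent.TH618.YM Pool.Agent.N984.TW
open Pool.Agent.N991.MK

namespace Pool.Agent.N988.MK

set_option linter.unusedSectionVars false

noncomputable section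

/-- the logarithm to second order -/
lemma log_two {u : ℂ} (hu : ‖u‖ ≤ 1 / 2) :
    ‖-Complex.log (1 + u) + u - u ^ 2 / 2‖ ≤ ‖u‖ ^ 3 := by
  have h1 := Complex.norm_log_sub_logTaylor_le 2 (z := u) (by linarith)
  have e : Complex.logTaylor (2 + 1) u = u - u ^ 2 / 2 := by
    rw [Complex.logTaylor]
    simp [Finset.sum_range_succ]
    ring
  rw [e] at h1
  have e2 : -Complex.log (1 + u) + u - u ^ 2 / 2 =
      -(Complex.log (1 + u) - (u - u ^ 2 / 2)) := by ring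
  rw [e2, norm_neg]
  refine h1.trans ?_
  have h2 : (1 - ‖u‖)⁻¹ ≤ 2 := by
    rw [inv_le_comm₀ (by linarith) (by norm_num)]
    linarith
  have h3 : 0 ≤ ‖u‖ ^ 3 := by positivity
  have h4 : ‖u‖ ^ (2 + 1) * (1 - ‖u‖)⁻¹ ≤ ‖u‖ ^ 3 * 2 := mul_le_mul_of_nonneg_left h2 h3
  push_cast
  rw [div_le_iff₀ (by norm_num)]
  linarith

/-- the final algebra -/
lemma fin_alg {k M cA p t4 I c₀ c₁ c₂ c₃ c₄ P U T : ℝ} {u₁ u₂ l₁ l₂ : ℂ} (hk : 1 ≤ k)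
    (hM : 0 ≤ M) (hc0 : 0 ≤ c₀) (hMk : M ≤ c₀ * k) (hcA : 0 ≤ cA) (hc1 : 0 ≤ c₁) (hc2 : 0 ≤ c₂)
    (hc3 : 0 ≤ c₃) (hc4 : 0 ≤ c₄) (ht0 : 0 ≤ t4) (hT : t4 ≤ T)
    (hP : P = (1 + c₄) / 2) (hU : U = cA * P + c₁ * (1 + c₀))
    (h1 : ‖u₁ - ((1 / 48 * (cA * p) : ℝ) : ℂ)‖ ≤ c₁ * (1 + M) / k ^ 2)
    (h2 : ‖u₂ - ((4 / 48 * (cA * p) : ℝ) : ℂ)‖ ≤ c₁ * (1 + M) / k ^ 2)
    (h3 : ‖u₂ - 4 * u₁ - ((I / 384 + 1 / (960 * k) * (p * t4) : ℝ) : ℂ)‖ ≤ c₂ * (1 + M) / k ^ 3)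
    (h4 : |2 * k * I - p * (cA ^ 2 + 2 * t4)| ≤ c₃ * (1 + M) / k ^ 2)
    (h5 : |2 * k * p - 1| ≤ c₄ / k)
    (l1 : ‖l₁ + u₁ - u₁ ^ 2 / 2‖ ≤ ‖u₁‖ ^ 3) (l2 : ‖l₂ + u₂ - u₂ ^ 2 / 2‖ ≤ ‖u₂‖ ^ 3) :
    ‖l₂ - 4 * l₁ + ((7 / 3840 * t4 / k ^ 2 : ℝ) : ℂ)‖ ≤
      (c₂ + c₃ + 5 * c₁ * U + 5 * U ^ 3 + cA ^ 2 * P * c₄ + T * c₄) * (1 + M) / k ^ 3 := by
  have hk0 : 0 < k := by linarith
  have hP0 : 0 ≤ P := by rw [hP]; positivity
  have hU0 : 0 ≤ U := by rw [hU]; positivity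
  have hT0 : 0 ≤ T := ht0.trans hT
  have hX1 : 1 ≤ 1 + M := by linarith
  -- sizes
  have hp : |p| ≤ P / k := by
    have e1 : p = (1 + (2 * k * p - 1)) / (2 * k) := by field_simp; ring
    rw [e1, abs_div, abs_of_pos (a := 2 * k) (by positivity), hP,
      div_le_div_iff₀ (by positivity) hk0]
    have h6 : |1 + (2 * k * p - 1)| ≤ 1 + c₄ := by
      refine (abs_add_le _ _).trans ?_
      rw [abs_one]
      have : c₄ / k ≤ c₄ := div_le_self hc4 hk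
      linarith
    calc |1 + (2 * k * p - 1)| * k ≤ (1 + c₄) * k := mul_le_mul_of_nonneg_right h6 hk0.le
      _ = _ := by ring
  have hpd : |p - 1 / (2 * k)| ≤ c₄ / (2 * k ^ 2) := by
    have e1 : p - 1 / (2 * k) = (2 * k * p - 1) / (2 * k) := by field_simp
    rw [e1, abs_div, abs_of_pos (a := 2 * k) (by positivity), div_le_div_iff₀ (by positivity)
      (by positivity)]
    calc |2 * k * p - 1| * (2 * k ^ 2) ≤ c₄ / k * (2 * k ^ 2) :=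
          mul_le_mul_of_nonneg_right h5 (by positivity)
      _ = _ := by field_simp
  have hA : ∀ q : ℝ, 0 ≤ q → q ≤ 1 → ‖((q * (cA * p) : ℝ) : ℂ)‖ ≤ cA * P / k := by
    intro q hq hq1
    rw [Complex.norm_real, Real.norm_eq_abs, abs_mul, abs_mul, abs_of_nonneg hq,
      abs_of_nonneg hcA]
    calc q * (cA * |p|) ≤ 1 * (cA * (P / k)) := by gcongr
      _ = _ := by ring
  have hε : c₁ * (1 + M) / k ^ 2 ≤ c₁ * (1 + c₀) / k := by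
    rw [div_le_div_iff₀ (by positivity) hk0]
    have : (1 + M) * k ≤ (1 + c₀) * k ^ 2 := by nlinarith
    calc c₁ * (1 + M) * k = c₁ * ((1 + M) * k) := by ring
      _ ≤ c₁ * ((1 + c₀) * k ^ 2) := mul_le_mul_of_nonneg_left this hc1
      _ = _ := by ring
  have hu : ∀ (q : ℝ) (u : ℂ), 0 ≤ q → q ≤ 1 →
      ‖u - ((q * (cA * p) : ℝ) : ℂ)‖ ≤ c₁ * (1 + M) / k ^ 2 → ‖u‖ ≤ U / k := by
    intro q u hq hq1 h
    have e1 : u = ((q * (cA * p) : ℝ) : ℂ) + (u - ((q * (cA * p) : ℝ) : ℂ)) := by ring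
    rw [e1]
    refine (norm_add_le _ _).trans ((add_le_add (hA q hq hq1) (h.trans hε)).trans (le_of_eq ?_))
    rw [hU]; ring
  have hsq : ∀ (q : ℝ) (u : ℂ), 0 ≤ q → q ≤ 1 →
      ‖u - ((q * (cA * p) : ℝ) : ℂ)‖ ≤ c₁ * (1 + M) / k ^ 2 →
      ‖u ^ 2 - ((q * (cA * p) : ℝ) : ℂ) ^ 2‖ ≤ 2 * c₁ * U * (1 + M) / k ^ 3 := by
    intro q u hq hq1 h
    have h6 := hu q u hq hq1 h
    have e1 : u ^ 2 - ((q * (cA * p) : ℝ) : ℂ) ^ 2 =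
        (u - ((q * (cA * p) : ℝ) : ℂ)) * (u + ((q * (cA * p) : ℝ) : ℂ)) := by ring
    rw [e1, norm_mul]
    have h7 : ‖u + ((q * (cA * p) : ℝ) : ℂ)‖ ≤ 2 * U / k := by
      refine (norm_add_le _ _).trans ((add_le_add h6 (hA q hq hq1)).trans ?_)
      have : cA * P ≤ U := by rw [hU]; have : 0 ≤ c₁ * (1 + c₀) := by positivity
                              linarith
      rw [← add_div]
      exact div_le_div_of_nonneg_right (by linarith) hk0.le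
    calc _ ≤ c₁ * (1 + M) / k ^ 2 * (2 * U / k) := mul_le_mul h h7 (norm_nonneg _) (by positivity)
      _ = _ := by field_simp
  have s1 := hsq (1 / 48) u₁ (by norm_num) (by norm_num) h1
  have s2 := hsq (4 / 48) u₂ (by norm_num) (by norm_num) h2
  have n1 := hu (1 / 48) u₁ (by norm_num) (by norm_num) h1
  have n2 := hu (4 / 48) u₂ (by norm_num) (by norm_num) h2
  have c1 : ‖u₁‖ ^ 3 ≤ U ^ 3 / k ^ 3 := by
    have := pow_le_pow_left₀ (norm_nonneg _) n1 3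
    rwa [div_pow] at this
  have c2 : ‖u₂‖ ^ 3 ≤ U ^ 3 / k ^ 3 := by
    have := pow_le_pow_left₀ (norm_nonneg _) n2 3
    rwa [div_pow] at this
  obtain ⟨J, hJ⟩ : ∃ J : ℝ, J = 2 * k * I - p * (cA ^ 2 + 2 * t4) := ⟨_, rfl⟩
  have hI : I = (J + p * (cA ^ 2 + 2 * t4)) / (2 * k) := by rw [hJ]; field_simp; ring
  obtain ⟨V, hV⟩ : ∃ V : ℝ, V = -(J / (768 * k)) + cA ^ 2 * p / 384 * (p - 1 / (2 * k)) -
      7 / 1920 * (t4 / k) * (p - 1 / (2 * k)) := ⟨_, rfl⟩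
  have key : l₂ - 4 * l₁ + ((7 / 3840 * t4 / k ^ 2 : ℝ) : ℂ) =
      (l₂ + u₂ - u₂ ^ 2 / 2) - 4 * (l₁ + u₁ - u₁ ^ 2 / 2) -
      (u₂ - 4 * u₁ - ((I / 384 + 1 / (960 * k) * (p * t4) : ℝ) : ℂ)) +
      (1 / 2) * (u₂ ^ 2 - ((4 / 48 * (cA * p) : ℝ) : ℂ) ^ 2) -
      2 * (u₁ ^ 2 - ((1 / 48 * (cA * p) : ℝ) : ℂ) ^ 2) + (V : ℂ) := by
    have e1 : (V : ℂ) = ((7 / 3840 * t4 / k ^ 2 : ℝ) : ℂ) -
        ((I / 384 + 1 / (960 * k) * (p * t4) : ℝ) : ℂ) +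
        (1 / 2) * ((4 / 48 * (cA * p) : ℝ) : ℂ) ^ 2 - 2 * ((1 / 48 * (cA * p) : ℝ) : ℂ) ^ 2 := by
      have e2 : V = 7 / 3840 * t4 / k ^ 2 - (I / 384 + 1 / (960 * k) * (p * t4)) +
          (1 / 2) * (4 / 48 * (cA * p)) ^ 2 - 2 * (1 / 48 * (cA * p)) ^ 2 := by
        rw [hV, hI]
        field_simp
        ring
      rw [e2]
      push_cast
      ring
    rw [e1]
    ring
  have v1 : |V| ≤ c₃ * (1 + M) / k ^ 3 + cA ^ 2 * P * c₄ / k ^ 3 + T * c₄ / k ^ 3 := by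
    rw [hV]
    have w1 : |J / (768 * k)| ≤ c₃ * (1 + M) / k ^ 3 := by
      rw [abs_div, abs_of_pos (a := 768 * k) (by positivity), hJ, div_le_iff₀ (by positivity)]
      refine h4.trans ?_
      have : c₃ * (1 + M) / k ^ 3 * (768 * k) = 768 * (c₃ * (1 + M) / k ^ 2) := by field_simp
      rw [this]
      have : 0 ≤ c₃ * (1 + M) / k ^ 2 := by positivity
      linarith
    have w2 : |cA ^ 2 * p / 384 * (p - 1 / (2 * k))| ≤ cA ^ 2 * P * c₄ / k ^ 3 := by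
      rw [abs_mul, abs_div, abs_mul, abs_of_nonneg (sq_nonneg cA),
        abs_of_pos (a := (384 : ℝ)) (by norm_num)]
      calc cA ^ 2 * |p| / 384 * |p - 1 / (2 * k)| ≤
          cA ^ 2 * (P / k) / 384 * (c₄ / (2 * k ^ 2)) := by gcongr
        _ = cA ^ 2 * P * c₄ / k ^ 3 / 768 := by field_simp; ring
        _ ≤ _ := by
            refine div_le_self (by positivity) (by norm_num)
    have w3 : |7 / 1920 * (t4 / k) * (p - 1 / (2 * k))| ≤ T * c₄ / k ^ 3 := by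
      rw [abs_mul, abs_of_nonneg (a := 7 / 1920 * (t4 / k)) (by positivity)]
      calc 7 / 1920 * (t4 / k) * |p - 1 / (2 * k)| ≤ 1 * (T / k) * (c₄ / (2 * k ^ 2)) := by
            have : (7 / 1920 : ℝ) ≤ 1 := by norm_num
            gcongr
        _ = T * c₄ / k ^ 3 / 2 := by field_simp
        _ ≤ _ := by
            refine div_le_self (by positivity) (by norm_num)
    refine (abs_sub _ _).trans (add_le_add ((abs_add_le _ _).trans (add_le_add ?_ w2)) w3)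
    rwa [abs_neg]
  rw [key]
  have t1 : ‖(4 : ℂ) * (l₁ + u₁ - u₁ ^ 2 / 2)‖ ≤ 4 * (U ^ 3 / k ^ 3) := by
    rw [norm_mul]
    have : ‖(4 : ℂ)‖ = 4 := by norm_num
    rw [this]
    exact mul_le_mul_of_nonneg_left (l1.trans c1) (by norm_num)
  have t2 : ‖(1 / 2 : ℂ) * (u₂ ^ 2 - ((4 / 48 * (cA * p) : ℝ) : ℂ) ^ 2)‖ ≤
      1 / 2 * (2 * c₁ * U * (1 + M) / k ^ 3) := by
    rw [norm_mul]
    have : ‖(1 / 2 : ℂ)‖ = 1 / 2 := by norm_num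
    rw [this]
    exact mul_le_mul_of_nonneg_left s2 (by norm_num)
  have t3 : ‖(2 : ℂ) * (u₁ ^ 2 - ((1 / 48 * (cA * p) : ℝ) : ℂ) ^ 2)‖ ≤
      2 * (2 * c₁ * U * (1 + M) / k ^ 3) := by
    rw [norm_mul]
    have : ‖(2 : ℂ)‖ = 2 := by norm_num
    rw [this]
    exact mul_le_mul_of_nonneg_left s1 (by norm_num)
  have t4' : ‖(V : ℂ)‖ ≤ c₃ * (1 + M) / k ^ 3 + cA ^ 2 * P * c₄ / k ^ 3 + T * c₄ / k ^ 3 := by
    rw [Complex.norm_real, Real.norm_eq_abs]; exact v1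
  have hfin : ∀ A₁ A₂ A₃ A₄ A₅ A₆ : ℂ, ‖A₁ - A₂ - A₃ + A₄ - A₅ + A₆‖ ≤
      ‖A₁‖ + ‖A₂‖ + ‖A₃‖ + ‖A₄‖ + ‖A₅‖ + ‖A₆‖ := by
    intro A₁ A₂ A₃ A₄ A₅ A₆
    refine (norm_add_le _ _).trans (add_le_add ?_ le_rfl)
    refine (norm_sub_le _ _).trans (add_le_add ?_ le_rfl)
    refine (norm_add_le _ _).trans (add_le_add ?_ le_rfl)
    refine (norm_sub_le _ _).trans (add_le_add ?_ le_rfl)
    exact norm_sub_le _ _
  refine (hfin _ _ _ _ _ _).trans ((add_le_add (add_le_add (add_le_add (add_le_add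
    (add_le_add (l2.trans c2) t1) h3) t2) t3) t4').trans ?_)
  have x1 : ∀ y : ℝ, 0 ≤ y → y / k ^ 3 ≤ y * (1 + M) / k ^ 3 := by
    intro y hy
    refine div_le_div_of_nonneg_right ?_ (by positivity)
    nlinarith
  have y1 := x1 (U ^ 3) (by positivity)
  have y2 := x1 (cA ^ 2 * P * c₄) (by positivity)
  have y3 := x1 (T * c₄) (by positivity)
  have e1 : (c₂ + c₃ + 5 * c₁ * U + 5 * U ^ 3 + cA ^ 2 * P * c₄ + T * c₄) * (1 + M) / k ^ 3 =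
      c₂ * (1 + M) / k ^ 3 + c₃ * (1 + M) / k ^ 3 + 5 * (c₁ * U * (1 + M) / k ^ 3) +
      5 * (U ^ 3 * (1 + M) / k ^ 3) + cA ^ 2 * P * c₄ * (1 + M) / k ^ 3 +
      T * c₄ * (1 + M) / k ^ 3 := by ring
  rw [e1]
  have e2 : 1 / 2 * (2 * c₁ * U * (1 + M) / k ^ 3) + 2 * (2 * c₁ * U * (1 + M) / k ^ 3) =
      5 * (c₁ * U * (1 + M) / k ^ 3) := by ring
  linarith

variable {N n : ℕ} {G : Subgroup (UN N)} {B : Frame G n} {hG : IsClosed (G : Set (UN N))}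
variable [CompactSpace G] [MeasurableSpace G] [BorelSpace G] {μ : Measure G}
  [IsProbabilityMeasure μ] [μ.IsMulLeftInvariant] [μ.IsMulRightInvariant] [μ.IsInvInvariant]
variable {r₀ C : ℝ} {b : (Fin n → ℂ) → (Fin n → ℂ) → (Fin n → ℂ)}
variable {r k M Cm Cq Cu Cs Cp cA C6 : ℝ} {F : (Mat N)ˣ → ℂ} {m : (Fin n → ℂ) → ℂ} {f : G → ℝ}

/-- the remainder is small compared with the coupling -/
lemma Hz.M_le (Z : Hz B hG μ r₀ C b r k M Cm Cq Cu Cs Cp cA f F m) :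
    M ≤ 1 / (400 * r ^ 2) * k := by
  have h1 := Z.H.hAr
  have h2 := Z.H.hr0
  have h3 := Z.H.hCq
  have h4 := Z.H.hk
  have h5 := Z.H.hM
  unfold Aq at h1
  have h6 : 0 ≤ Cq / 8 * k * (25 / 16) * r ^ 2 := by positivity
  have h7 : M * (400 * r ^ 2) ≤ k := by nlinarith
  rw [one_div_mul_eq_div, le_div_iff₀ (by positivity)]
  exact h7

/-- the relation between the second moment and the coupling -/
lemma Hz.p_eq (Z : Hz B hG μ r₀ C b r k M Cm Cq Cu Cs Cp cA f F m) (hk1 : 1 ≤ k) {κ₂ E p₁ : ℝ}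
    (hκ₂ : κ₂ = Cu / 4 + Cp + 81 / (400 * r ^ 2))
    (hE : E = 100 * Cm * κ₂ + 800 * Cm * κ₂ ^ 2 + 256 / r ^ 2)
    (hp₁ : ∀ a c, PQ B μ r f a c = if a = c then p₁ else 0) :
    |2 * k * (p₁ / ∫ z, (f z) ^ 2 ∂μ) - 1| ≤ (3 / r ^ 2 + 2 * E) / k ∧
      K2 Cu Cp k M ≤ κ₂ * k := by
  have H := Z.H
  have hr0 := H.hr0
  have hk := H.hk
  have hCu := Z.hCu
  have hCp := Z.hCp
  have hCm := H.hCm
  obtain ⟨δ, κ, h1, h2, h3, h4⟩ := H.exists_delta Z.hI Z.hn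
  have h5 := Z.kappa_eq h1 hp₁
  obtain ⟨W, hWd⟩ : ∃ W : ℝ, W = ∫ z : G, (f z) ^ 2 ∂μ := ⟨_, rfl⟩
  have hW : 0 < W := by rw [hWd]; exact H.hW
  rw [← hWd] at h2 h5 ⊢
  have hMk : M ≤ k * (1 / (400 * r ^ 2)) := by have := Z.M_le; linarith
  have hK2 : K2 Cu Cp k M ≤ κ₂ * k := by
    unfold K2
    rw [hκ₂]
    have : 81 * M ≤ 81 * (k * (1 / (400 * r ^ 2))) := by linarith
    calc k / 4 * Cu + 81 * M + k * Cp ≤ k / 4 * Cu + 81 * (k * (1 / (400 * r ^ 2))) + k * Cp := by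
          linarith
      _ = _ := by ring
  refine ⟨?_, hK2⟩
  have hκ₂0 : 0 ≤ κ₂ := by rw [hκ₂]; positivity
  have hK20 := Z.K2_nonneg
  have hE1 : E1 Cm Cu Cp r k M ≤ E := by
    unfold E1
    rw [hE]
    have t1 : 100 * Cm * K2 Cu Cp k M / k ≤ 100 * Cm * κ₂ := by
      rw [div_le_iff₀ hk]
      calc 100 * Cm * K2 Cu Cp k M ≤ 100 * Cm * (κ₂ * k) := by gcongr
        _ = _ := by ring
    have t2 : 800 * Cm * K2 Cu Cp k M ^ 2 / k ^ 3 ≤ 800 * Cm * κ₂ ^ 2 := by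
      rw [div_le_iff₀ (by positivity)]
      calc 800 * Cm * K2 Cu Cp k M ^ 2 ≤ 800 * Cm * (κ₂ * k) ^ 2 := by gcongr
        _ = 800 * Cm * κ₂ ^ 2 * k ^ 2 * 1 := by ring
        _ ≤ 800 * Cm * κ₂ ^ 2 * k ^ 2 * k := by
            have : 0 ≤ 800 * Cm * κ₂ ^ 2 * k ^ 2 := by positivity
            exact mul_le_mul_of_nonneg_left hk1 this
        _ = _ := by ring
    have t3 : 256 / (r ^ 2 * k ^ 4) ≤ 256 / r ^ 2 := by
      refine div_le_div_of_nonneg_left (by norm_num) (by positivity) ?_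
      have : 1 ≤ k ^ 4 := one_le_pow₀ hk1
      exact le_mul_of_one_le_right (by positivity) this
    linarith
  obtain ⟨p, hp⟩ : ∃ p, p = p₁ / W := ⟨_, rfl⟩
  have hp1 : p₁ = p * W := by rw [hp]; field_simp
  rw [← hp]
  rw [hp1, h2] at h5
  have h8 : |k / 2 + 2 * δ - k ^ 2 * p| ≤ E := by
    have e : (k / 2 + 2 * δ) * W - k ^ 2 * (p * W) = (k / 2 + 2 * δ - k ^ 2 * p) * W := by ring
    rw [e, abs_mul, abs_of_pos hW] at h5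
    exact (le_of_mul_le_mul_right h5 hW).trans hE1
  have h9 : |δ| ≤ 3 / (4 * r ^ 2) := by
    refine h3.trans ?_
    have : 3 / 2 * eta Cq Cm r k M / r ^ 2 ≤ 3 / 2 * (1 / 2) / r ^ 2 := by
      have := H.het
      gcongr
    refine this.trans (le_of_eq ?_)
    field_simp
    norm_num
  have e : 2 * k * p - 1 = -(2 / k) * (k / 2 + 2 * δ - k ^ 2 * p) + 2 / k * (2 * δ) := by
    field_simp; ring
  rw [e]
  refine (abs_add_le _ _).trans ?_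
  rw [abs_mul, abs_mul, abs_neg, abs_of_pos (show (0 : ℝ) < 2 / k by positivity), abs_mul, abs_two]
  calc 2 / k * |k / 2 + 2 * δ - k ^ 2 * p| + 2 / k * (2 * |δ|) ≤
      2 / k * E + 2 / k * (2 * (3 / (4 * r ^ 2))) := by gcongr
    _ = _ := by field_simp; ring

variable (B hG μ b) in
/-- **the second difference of the logarithmic correction at the fixed scale** -/
theorem exists_second (r₀ C r Cm Cq Cu Cs Cp cA C6 : ℝ) (hr0 : 0 < r) (hCm : 0 ≤ Cm)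
    (hCu : 0 ≤ Cu) (hCs : 0 ≤ Cs) (hCp : 0 ≤ Cp) (hcA : 0 ≤ cA) (hC6 : 0 ≤ C6)
    (h6 : Six B r₀ b C6) : ∃ K : ℝ, 0 ≤ K ∧ ∀ {k M : ℝ} {F : (Mat N)ˣ → ℂ}
      {m : (Fin n → ℂ) → ℂ} {f : G → ℝ} (Z : Hz B hG μ r₀ C b r k M Cm Cq Cu Cs Cp cA f F m),
      1 ≤ k → ∀ (x : Fin n → ℝ), nE x = 1 → ∀ s : ℝ, 0 < s → s ^ 2 * k = 1 → s < r / 3 →
        ‖Z.H.ll (((2 * s : ℝ) : ℂ) • rl x) - 4 * Z.H.ll (((1 * s : ℝ) : ℂ) • rl x) +
          ((7 / 3840 * t4R B x / k ^ 2 : ℝ) : ℂ)‖ ≤ K * (1 + M) / k ^ 3 := by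
  obtain ⟨κ₂, hκ₂⟩ : ∃ κ₂ : ℝ, κ₂ = Cu / 4 + Cp + 81 / (400 * r ^ 2) := ⟨_, rfl⟩
  obtain ⟨E, hE⟩ : ∃ E : ℝ, E = 100 * Cm * κ₂ + 800 * Cm * κ₂ ^ 2 + 256 / r ^ 2 := ⟨_, rfl⟩
  have hκ₂0 : 0 ≤ κ₂ := by rw [hκ₂]; positivity
  have hE0 : 0 ≤ E := by rw [hE]; positivity
  have hQt : 0 ≤ Qt r := by unfold Qt; positivity
  have hQa : 0 ≤ Qa Cs Cp := by unfold Qa; positivity
  obtain ⟨c₀, hc₀⟩ : ∃ c : ℝ, c = 1 / (400 * r ^ 2) := ⟨_, rfl⟩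
  obtain ⟨c₁, hc₁⟩ : ∃ c : ℝ, c = (Qa Cs Cp + 2 * Qt r ^ 2) * 10 * Cm + (169 + 4 * Cs) * Cm +
    8 / r ^ 2 := ⟨_, rfl⟩
  obtain ⟨c₂, hc₂⟩ : ∃ c : ℝ, c = (10 * Qt r ^ 3 + D1 C6 + 5 / 2 * Qa Cs Cp *
    (Qt r + 25 / 12)) * 200 * Cm + (Cp / 8 + 25920 / r ^ 2 + 5 / 2 * (169 + 4 * Cs) *
    (Qt r + 25 / 12)) * 10 * Cm + (2 * C6 + 16200 / r ^ 2) * Cm + 16 / r ^ 2 := ⟨_, rfl⟩
  obtain ⟨c₃, hc₃⟩ : ∃ c : ℝ, c = 16 * n ^ 4 * (800 * κ₂ * Cm + sN N ^ 3 * (1 + 256 / r ^ 2) +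
    3 * (5 * Cm + sN N ^ 2)) := ⟨_, rfl⟩
  obtain ⟨c₄, hc₄⟩ : ∃ c : ℝ, c = 3 / r ^ 2 + 2 * E := ⟨_, rfl⟩
  obtain ⟨P, hP⟩ : ∃ P : ℝ, P = (1 + c₄) / 2 := ⟨_, rfl⟩
  obtain ⟨U, hU⟩ : ∃ U : ℝ, U = cA * P + c₁ * (1 + c₀) := ⟨_, rfl⟩
  have hD1 : 0 ≤ D1 C6 := by unfold D1; positivity
  have p0 : 0 ≤ c₀ := by rw [hc₀]; positivity
  have p1 : 0 ≤ c₁ := by rw [hc₁]; positivity
  have p2 : 0 ≤ c₂ := by rw [hc₂]; positivity
  have hsN := sN_nonneg N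
  have p3 : 0 ≤ c₃ := by rw [hc₃]; positivity
  have p4 : 0 ≤ c₄ := by rw [hc₄]; positivity
  have p5 : 0 ≤ P := by rw [hP]; positivity
  have p6 : 0 ≤ U := by rw [hU]; positivity
  refine ⟨c₂ + c₃ + 5 * c₁ * U + 5 * U ^ 3 + cA ^ 2 * P * c₄ + 16 * n * c₄, by positivity,
    fun {k M F m f} Z hk1 x hx1 s hs0 hsk hsr => ?_⟩
  have H := Z.H
  have hk := H.hk
  have hM := H.hM
  have hW := H.hW
  have hWc := H.Wne
  have hX : 1 ≤ 1 + M := by linarith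
  obtain ⟨p₁, hp₁⟩ := PQ_iso (B := B) (hG := hG) (μ := μ) (r := r) Z.hI Z.H.hf
  obtain ⟨q1, hK2⟩ := Z.p_eq hk1 hκ₂ hE hp₁
  have hK20 := Z.K2_nonneg
  have hn : ∀ j : ℝ, 0 < j → ‖((j * s : ℝ) : ℂ)‖ = j * s := by
    intro j hj
    rw [Complex.norm_real, Real.norm_eq_abs, abs_of_pos (by positivity)]
  have hxn : ∀ j : ℝ, 0 < j → nC (((j * s : ℝ) : ℂ) • rl x) = j * s := by
    intro j hj
    rw [nC_smul, nC_rl, hx1, mul_one, hn j hj]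
  have g1 := Z.U_one hx1 hp₁ (j := 1) one_pos (by norm_num) hs0 hsk (by linarith)
  have g2 := Z.U_one hx1 hp₁ (j := 2) two_pos le_rfl hs0 hsk (by linarith)
  have g3 := Z.U_two h6 hC6 hx1 hp₁ hs0 hsk hsr
  have g4 := Z.bR_sq_mom (hG := hG) hx1 hp₁
  have a1 := (H.EE_sub_le' (x := ((1 * s : ℝ) : ℂ) • rl x)
    (by rw [hxn 1 one_pos]; linarith)).trans H.het
  have a2 := (H.EE_sub_le' (x := ((2 * s : ℝ) : ℂ) • rl x)
    (by rw [hxn 2 two_pos]; linarith)).trans H.het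
  have b1 := log_two a1
  have b2 := log_two a2
  rw [add_sub_cancel] at b1 b2
  obtain ⟨I, hI⟩ : ∃ I : ℝ, I = ∫ z in {z : G | nN z ≤ r / 4}, (f z) ^ 2 *
      bR B x (pz B z) ^ 2 ∂μ := ⟨_, rfl⟩
  obtain ⟨u₁, hu₁⟩ : ∃ u : ℂ, u = EE B μ f F (((1 * s : ℝ) : ℂ) • rl x) - 1 := ⟨_, rfl⟩
  obtain ⟨u₂, hu₂⟩ : ∃ u : ℂ, u = EE B μ f F (((2 * s : ℝ) : ℂ) • rl x) - 1 := ⟨_, rfl⟩
  rw [← hu₁] at g1 g3 b1
  rw [← hu₂] at g2 g3 b2
  rw [← hI] at g3 g4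
  obtain ⟨W, hWd⟩ : ∃ W : ℝ, W = ∫ z : G, (f z) ^ 2 ∂μ := ⟨_, rfl⟩
  rw [← hWd] at g1 g2 g3 g4 hW hWc q1
  -- divide by `W`
  have hdiv : ∀ (A : ℂ) (D : ℝ), ‖A * (W : ℂ)‖ ≤ D * W → ‖A‖ ≤ D := by
    intro A D h
    rw [norm_mul, Complex.norm_real, Real.norm_eq_abs, abs_of_pos hW] at h
    exact le_of_mul_le_mul_right h hW
  have hEU : Hz.EU Cm Cs Cp r k M ≤ c₁ * (1 + M) / k ^ 2 := by
    unfold Hz.EU
    rw [le_div_iff₀ (by positivity), hc₁]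
    have t1 : (Qa Cs Cp + 2 * Qt r ^ 2) * (10 / k * (Cm / k)) * k ^ 2 =
        (Qa Cs Cp + 2 * Qt r ^ 2) * 10 * Cm := by field_simp
    have t2 : Qb Cs M / k * (Cm / k) * k ^ 2 = Qb Cs M * Cm := by field_simp
    have t3 : 8 / (k ^ 3 * r ^ 2) * k ^ 2 ≤ 8 / r ^ 2 := by
      have : 8 / (k ^ 3 * r ^ 2) * k ^ 2 = 8 / r ^ 2 / k := by field_simp
      rw [this]
      exact div_le_self (by positivity) hk1
    have t4 : Qb Cs M * Cm ≤ (169 + 4 * Cs) * Cm * (1 + M) := by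
      unfold Qb
      have : 169 * M + 4 * Cs ≤ (169 + 4 * Cs) * (1 + M) := by nlinarith
      calc (169 * M + 4 * Cs) * Cm ≤ (169 + 4 * Cs) * (1 + M) * Cm :=
            mul_le_mul_of_nonneg_right this hCm
        _ = _ := by ring
    rw [add_mul, add_mul, t1, t2]
    have t5 : 0 ≤ (Qa Cs Cp + 2 * Qt r ^ 2) * 10 * Cm * M := by positivity
    have t6 : 0 ≤ 8 / r ^ 2 * M := by positivity
    linarith
  have hEV : Hz.EV Cm Cs Cp C6 r k M ≤ c₂ * (1 + M) / k ^ 3 := by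
    unfold Hz.EV
    rw [le_div_iff₀ (by positivity), hc₂]
    obtain ⟨A, hA⟩ : ∃ A : ℝ, A = 10 * Qt r ^ 3 + D1 C6 + 5 / 2 * Qa Cs Cp *
      (Qt r + 25 / 12) := ⟨_, rfl⟩
    have hA0 : 0 ≤ A := by rw [hA]; positivity
    have hD2 : D2 r M Cp + 5 / 2 * Qb Cs M * (Qt r + 25 / 12) ≤
        (Cp / 8 + 25920 / r ^ 2 + 5 / 2 * (169 + 4 * Cs) * (Qt r + 25 / 12)) * (1 + M) := by
      unfold D2 Qb
      have e1 : 25920 * M / r ^ 2 = 25920 / r ^ 2 * M := by ring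
      have i1 : 169 * M + 4 * Cs ≤ (169 + 4 * Cs) * (1 + M) := by nlinarith
      have i2 : 5 / 2 * (169 * M + 4 * Cs) * (Qt r + 25 / 12) ≤
          5 / 2 * ((169 + 4 * Cs) * (1 + M)) * (Qt r + 25 / 12) := by gcongr
      have i3 : 0 ≤ Cp / 8 * M := by positivity
      have i4 : 0 ≤ 25920 / r ^ 2 := by positivity
      rw [e1]
      linarith
    have hD3 : D3 r M C6 ≤ (2 * C6 + 16200 / r ^ 2) * (1 + M) := by
      unfold D3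
      have e1 : 16200 * M / r ^ 2 = 16200 / r ^ 2 * M := by ring
      have i3 : 0 ≤ 2 * C6 * M := by positivity
      have i4 : 0 ≤ 16200 / r ^ 2 := by positivity
      rw [e1]
      linarith
    rw [← hA]
    obtain ⟨A₂, hA₂⟩ : ∃ A : ℝ, A = D2 r M Cp + 5 / 2 * Qb Cs M * (Qt r + 25 / 12) := ⟨_, rfl⟩
    obtain ⟨A₃, hA₃⟩ : ∃ A : ℝ, A = D3 r M C6 := ⟨_, rfl⟩
    rw [← hA₂] at hD2
    rw [← hA₃] at hD3
    rw [← hA₂, ← hA₃]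
    have t1 : (A * (200 / k ^ 2 * (Cm / k)) + A₂ / k * (10 / k * (Cm / k)) +
        A₃ / k ^ 2 * (Cm / k) + 16 / (k ^ 3 * r ^ 2)) * k ^ 3 =
        A * 200 * Cm + A₂ * 10 * Cm + A₃ * Cm + 16 / r ^ 2 := by
      field_simp
    rw [t1]
    have i1 : A * 200 * Cm ≤ A * 200 * Cm * (1 + M) :=
      le_mul_of_one_le_right (by positivity) hX
    have i2 := mul_le_mul_of_nonneg_right hD2 (show 0 ≤ 10 * Cm by positivity)
    have i3 := mul_le_mul_of_nonneg_right hD3 hCm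
    have i4 : 16 / r ^ 2 ≤ 16 / r ^ 2 * (1 + M) := le_mul_of_one_le_right (by positivity) hX
    linarith
  have hE4 : 16 * n ^ 4 * E4 N Cm Cu Cp r k M ≤ c₃ * (1 + M) / k ^ 2 := by
    have t0 : E4 N Cm Cu Cp r k M ≤ (800 * κ₂ * Cm + sN N ^ 3 * (1 + 256 / r ^ 2) +
        3 * (5 * Cm + sN N ^ 2)) / k ^ 2 := by
      unfold E4
      rw [le_div_iff₀ (by positivity)]
      have t1 : 4 * K2 Cu Cp k M * (200 / k ^ 2 * (Cm / k)) * k ^ 2 ≤ 800 * κ₂ * Cm := by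
        have : 4 * K2 Cu Cp k M * (200 / k ^ 2 * (Cm / k)) * k ^ 2 =
            800 * (K2 Cu Cp k M / k) * Cm := by field_simp; ring
        rw [this]
        have : K2 Cu Cp k M / k ≤ κ₂ := by rw [div_le_iff₀ hk]; exact hK2
        gcongr
      have t2 : sN N ^ 3 * (1 / k ^ 2 + 256 / (r ^ 2 * k ^ 4)) * k ^ 2 ≤
          sN N ^ 3 * (1 + 256 / r ^ 2) := by
        have : sN N ^ 3 * (1 / k ^ 2 + 256 / (r ^ 2 * k ^ 4)) * k ^ 2 =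
            sN N ^ 3 * (1 + 256 / r ^ 2 / k ^ 2) := by field_simp
        rw [this]
        have : 256 / r ^ 2 / k ^ 2 ≤ 256 / r ^ 2 :=
          div_le_self (by positivity) (one_le_pow₀ hk1)
        gcongr
      have t3 : 3 * (1 / 2 * (10 / k * (Cm / k)) + sN N ^ 2 * (1 / k ^ 2)) * k ^ 2 =
          3 * (5 * Cm + sN N ^ 2) := by field_simp; ring
      rw [add_mul, add_mul, t3]
      linarith
    have t1 : 16 * n ^ 4 * E4 N Cm Cu Cp r k M ≤ c₃ / k ^ 2 := by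
      rw [hc₃]
      calc _ ≤ 16 * (n : ℝ) ^ 4 * ((800 * κ₂ * Cm + sN N ^ 3 * (1 + 256 / r ^ 2) +
            3 * (5 * Cm + sN N ^ 2)) / k ^ 2) := mul_le_mul_of_nonneg_left t0 (by positivity)
        _ = _ := by ring
    refine t1.trans (div_le_div_of_nonneg_right ?_ (by positivity))
    exact le_mul_of_one_le_right p3 hX
  refine fin_alg (p := p₁ / W) (I := I / W) (c₀ := c₀) (u₁ := u₁) (u₂ := u₂) (P := P) (U := U)
    hk1 hM p0 (by rw [hc₀]; exact Z.M_le) hcA p1 p2 p3 p4 (t4R_nonneg x) ?_ hP hU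
    ?_ ?_ ?_ ?_ (by rw [hc₄]; exact q1) ?_ ?_
  · have := t4R_le (B := B) x
    rw [hx1] at this
    linarith
  · refine (hdiv _ _ ?_).trans hEU
    have e : (u₁ - ((1 / 48 * (cA * (p₁ / W)) : ℝ) : ℂ)) * (W : ℂ) =
        u₁ * (W : ℂ) - ((1 ^ 2 / 48 * (p₁ * cA) : ℝ) : ℂ) := by
      push_cast
      field_simp
    rw [e]
    exact g1
  · refine (hdiv _ _ ?_).trans hEU
    have e : (u₂ - ((4 / 48 * (cA * (p₁ / W)) : ℝ) : ℂ)) * (W : ℂ) =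
        u₂ * (W : ℂ) - ((2 ^ 2 / 48 * (p₁ * cA) : ℝ) : ℂ) := by
      push_cast
      field_simp
      ring
    rw [e]
    exact g2
  · refine (hdiv _ _ ?_).trans hEV
    have hkc : (k : ℂ) ≠ 0 := Complex.ofReal_ne_zero.2 hk.ne'
    have e : (u₂ - 4 * u₁ - ((I / W / 384 + 1 / (960 * k) * (p₁ / W * t4R B x) : ℝ) : ℂ)) *
        (W : ℂ) = u₂ * (W : ℂ) - 4 * (u₁ * (W : ℂ)) -
        ((I / 384 + 1 / (960 * k) * (p₁ * t4R B x) : ℝ) : ℂ) := by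
      push_cast
      field_simp
    rw [e]
    exact g3
  · have e : 2 * k * (I / W) - p₁ / W * (cA ^ 2 + 2 * t4R B x) =
        (2 * k * I - p₁ * (cA ^ 2 + 2 * t4R B x)) / W := by ring
    rw [e, abs_div, abs_of_pos hW, div_le_iff₀ hW]
    refine g4.trans ?_
    calc 16 * (n : ℝ) ^ 4 * (E4 N Cm Cu Cp r k M * W) =
        16 * n ^ 4 * E4 N Cm Cu Cp r k M * W := by ring
      _ ≤ _ := mul_le_mul_of_nonneg_right hE4 hW.le
  · unfold Hy.ll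
    exact b1
  · unfold Hy.ll
    exact b2

end

end Pool.Agent.N988.MK
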