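import Mathlib
import Pool.Agent.N988.MK.M4b
import Pool.Agent.N988.MK.Q1
import Pool.Agent.N991.MK.TwoK

/-!
# The correction of the quartic part: the new state
-/

open MeasureTheory Filter Metric Asymptotics Matrix
open scoped Matrix.Norms.Frobenius Topology ContDiff
open Pool.Agent.H906R3.YM Pool.Agent.W793.YM Pool.Agent.TH618.YM Pool.Agent.N984.TW
open Pool.Agent.N991.MK

namespace Pool.Agent.N988.MK

set_option linter.unusedSectionVars false

noncomputable section

variable {N n : ℕ} {G : Subgroup (UN N)} {B : Frame G n} {hG : IsClosed (G : Set (UN N))} {cA : ℝ}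

/-! ## the functional on the Casimir form -/

variable (B) in
/-- the Casimir form, polarised -/
def ph4 (u v w t : Fin n → ℝ) : ℝ :=
  ∑ a, ip (cm (LX B u) (cm (LX B v) (B.X a))) (cm (LX B w) (cm (LX B t) (B.X a)))

lemma cm_add_left (X Y Z : Mat N) : cm (X + Y) Z = cm X Z + cm Y Z := by
  unfold cm; rw [add_mul, mul_add]; abel

lemma cm_add_right (X Y Z : Mat N) : cm X (Y + Z) = cm X Y + cm X Z := by
  unfold cm; rw [add_mul, mul_add]; abel

lemma cm_neg_left (X Z : Mat N) : cm (-X) Z = -cm X Z := by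
  unfold cm; rw [neg_mul, mul_neg]; abel

lemma cm_neg_right (X Z : Mat N) : cm X (-Z) = -cm X Z := by
  unfold cm; rw [neg_mul, mul_neg]; abel

lemma ip_neg_left (X Z : Mat N) : ip (-X) Z = -ip X Z := by
  rw [ip_comm, map_neg, ip_comm]

lemma ip_add_left (X Y Z : Mat N) : ip (X + Y) Z = ip X Z + ip Y Z := by
  rw [ip_comm, map_add, ip_comm, ip_comm Z Y]

lemma ph4_add1 (u u' v w t : Fin n → ℝ) :
    ph4 B (u + u') v w t = ph4 B u v w t + ph4 B u' v w t := by
  unfold ph4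
  rw [← Finset.sum_add_distrib]
  refine Finset.sum_congr rfl fun a _ => ?_
  rw [LX_add, cm_add_left, ip_add_left]

lemma ph4_add2 (u v v' w t : Fin n → ℝ) :
    ph4 B u (v + v') w t = ph4 B u v w t + ph4 B u v' w t := by
  unfold ph4
  rw [← Finset.sum_add_distrib]
  refine Finset.sum_congr rfl fun a _ => ?_
  rw [LX_add, cm_add_left, cm_add_right, ip_add_left]

lemma ph4_add3 (u v w w' t : Fin n → ℝ) :
    ph4 B u v (w + w') t = ph4 B u v w t + ph4 B u v w' t := by
  unfold ph4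
  rw [← Finset.sum_add_distrib]
  refine Finset.sum_congr rfl fun a _ => ?_
  rw [LX_add, cm_add_left, map_add]

lemma ph4_add4 (u v w t t' : Fin n → ℝ) :
    ph4 B u v w (t + t') = ph4 B u v w t + ph4 B u v w t' := by
  unfold ph4
  rw [← Finset.sum_add_distrib]
  refine Finset.sum_congr rfl fun a _ => ?_
  rw [LX_add, cm_add_left, cm_add_right, map_add]

lemma ph4_neg1 (u v w t : Fin n → ℝ) : ph4 B (-u) v w t = -ph4 B u v w t := by
  unfold ph4
  rw [← Finset.sum_neg_distrib]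
  refine Finset.sum_congr rfl fun a _ => ?_
  rw [LX_neg, cm_neg_left, ip_neg_left]

lemma ph4_neg2 (u v w t : Fin n → ℝ) : ph4 B u (-v) w t = -ph4 B u v w t := by
  unfold ph4
  rw [← Finset.sum_neg_distrib]
  refine Finset.sum_congr rfl fun a _ => ?_
  rw [LX_neg, cm_neg_left, cm_neg_right, ip_neg_left]

lemma ph4_neg3 (u v w t : Fin n → ℝ) : ph4 B u v (-w) t = -ph4 B u v w t := by
  unfold ph4
  rw [← Finset.sum_neg_distrib]
  refine Finset.sum_congr rfl fun a _ => ?_
  rw [LX_neg, cm_neg_left, map_neg]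

lemma ph4_neg4 (u v w t : Fin n → ℝ) : ph4 B u v w (-t) = -ph4 B u v w t := by
  unfold ph4
  rw [← Finset.sum_neg_distrib]
  refine Finset.sum_congr rfl fun a _ => ?_
  rw [LX_neg, cm_neg_left, cm_neg_right, map_neg]

lemma t4R_ph4 (u : Fin n → ℝ) : t4R B u = ph4 B u u u u := by
  unfold t4R ph4
  refine Finset.sum_congr rfl fun a _ => ?_
  rw [norm_sq_ip]
  rfl

lemma t4R_two (x v : Fin n → ℝ) : t4R B (x + v) + t4R B (x - v) - 2 * t4R B x - 2 * t4R B v =
    2 * (ph4 B x x v v + ph4 B x v x v + ph4 B x v v x + ph4 B v x x v + ph4 B v x v x +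
      ph4 B v v x x) := by
  have hs : x - v = x + -v := sub_eq_add_neg _ _
  rw [hs]
  simp only [t4R_ph4, ph4_add1, ph4_add2, ph4_add3, ph4_add4, ph4_neg1, ph4_neg2, ph4_neg3,
    ph4_neg4]
  ring

/-- the functional on the Casimir form -/
lemma t4R_fun (h : CasPair B cA) : ∑ a, ∑ c, (t4R B (Pi.single a 1 + Pi.single c 1) +
    t4R B (Pi.single a 1 - Pi.single c 1) - 2 * t4R B (Pi.single a 1) -
    2 * t4R B (Pi.single c (1 : ℝ))) = 10 * n * cA ^ 2 := by
  obtain ⟨e, he⟩ : ∃ e : Fin n → Fin n → ℝ, e = fun a => Pi.single a (1 : ℝ) := ⟨_, rfl⟩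
  have h1 : ∑ b, ∑ d, (ph4 B (e b) (e b) (e d) (e d) + ph4 B (e b) (e d) (e b) (e d) +
      ph4 B (e b) (e d) (e d) (e b)) = 5 / 2 * n * cA ^ 2 := by
    unfold CasPair at h
    have h2 : ∀ b d, ph4 B (e b) (e b) (e d) (e d) + ph4 B (e b) (e d) (e b) (e d) +
      ph4 B (e b) (e d) (e d) (e b) = ∑ a,
        (ip (cm (B.X b) (cm (B.X b) (B.X a))) (cm (B.X d) (cm (B.X d) (B.X a))) +
      ip (cm (B.X b) (cm (B.X d) (B.X a))) (cm (B.X b) (cm (B.X d) (B.X a))) +
      ip (cm (B.X b) (cm (B.X d) (B.X a))) (cm (B.X d) (cm (B.X b) (B.X a)))) := by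
      intro b d
      unfold ph4
      rw [← Finset.sum_add_distrib, ← Finset.sum_add_distrib, he]
      simp only [LX_single]
    simp only [h2]
    have h3 : ∀ Q : Fin n → Fin n → Fin n → ℝ, ∑ b, ∑ d, ∑ a, Q a b d = ∑ a, ∑ b, ∑ d, Q a b d := by
      intro Q
      have h4 : ∀ b, ∑ d, ∑ a, Q a b d = ∑ a, ∑ d, Q a b d := fun b => Finset.sum_comm
      simp only [h4]
      exact Finset.sum_comm
    rw [h3]
    exact h
  have h3 : ∀ a c, t4R B (Pi.single a 1 + Pi.single c 1) +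
    t4R B (Pi.single a 1 - Pi.single c 1) - 2 * t4R B (Pi.single a 1) -
    2 * t4R B (Pi.single c (1 : ℝ)) = 2 * (ph4 B (e a) (e a) (e c) (e c) +
      ph4 B (e a) (e c) (e a) (e c) + ph4 B (e a) (e c) (e c) (e a)) +
      2 * (ph4 B (e c) (e c) (e a) (e a) +
      ph4 B (e c) (e a) (e c) (e a) + ph4 B (e c) (e a) (e a) (e c)) := by
    intro a c
    rw [t4R_two, he]
    ring
  simp only [h3, Finset.sum_add_distrib, ← Finset.mul_sum]
  have h4 : ∑ a, ∑ c, (ph4 B (e c) (e c) (e a) (e a) +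
      ph4 B (e c) (e a) (e c) (e a) + ph4 B (e c) (e a) (e a) (e c)) = 5 / 2 * n * cA ^ 2 := by
    rw [Finset.sum_comm]; exact h1
  simp only [Finset.sum_add_distrib] at h1 h4
  linarith

/-! ## the quartic part depends only on the germ -/

lemma m4_congr {m m' : (Fin n → ℂ) → ℂ} {r : ℝ} (hr : 0 < r) (h : ∀ x, nC x < r → m x = m' x) :
    m4 m = m4 m' := by
  have h1 : m =ᶠ[𝓝 0] m' := by
    have h2 := nC_cont.tendsto (0 : Fin n → ℂ)
    rw [nC_zero] at h2
    filter_upwards [h2.eventually (gt_mem_nhds hr)] with x hx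
    exact h x hx
  funext x
  rw [m4_eq, m4_eq, (h1.iteratedFDeriv ℂ 4).eq_of_nhds]

lemma T4_congr {m m' : (Fin n → ℂ) → ℂ} (h : m4 m = m4 m') (x v : Fin n → ℂ) :
    T4 m x v = T4 m' x v := by
  unfold T4
  rw [h]

lemma qb_congr {m m' : (Fin n → ℂ) → ℂ} (h : m4 m = m4 m') : qb n m = qb n m' := by
  unfold qb
  congr 1
  refine Finset.sum_congr rfl fun a _ => Finset.sum_congr rfl fun c _ => ?_
  rw [T4_congr h]

/-- the functional from the pointwise comparison -/
lemma qb_of_pt {m m' : (Fin n → ℂ) → ℂ} {E : ℝ} (hn : 0 < n) (hcas : CasPair B cA)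
    (h : ∀ x : Fin n → ℝ, ‖m4 m' (rl x) - m4 m (rl x) / 8 +
      ((7 / 46080 * t4R B x : ℝ) : ℂ)‖ ≤ E * nE x ^ 4) :
    |qb n m' - (qb n m / 8 - 7 / 55296 * cA ^ 2)| ≤ 3 * n * E := by
  have hn' : (0 : ℝ) < n := by exact_mod_cast hn
  obtain ⟨D, hD⟩ : ∃ D : (Fin n → ℝ) → ℂ, D = fun x => m4 m' (rl x) - m4 m (rl x) / 8 +
      ((7 / 46080 * t4R B x : ℝ) : ℂ) := ⟨_, rfl⟩
  have hDb : ∀ x, ‖D x‖ ≤ E * nE x ^ 4 := fun x => by rw [hD]; exact h x
  have hE : 0 ≤ E := by
    have h1 := hDb (Pi.single (⟨0, hn⟩ : Fin n) 1)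
    rw [nE_single, one_pow, mul_one] at h1
    exact (norm_nonneg _).trans h1
  have hadd : ∀ x y : Fin n → ℝ, rl x + rl y = rl (x + y) := by
    intro x y; funext i; unfold rl; simp
  have hsub : ∀ x y : Fin n → ℝ, rl x - rl y = rl (x - y) := by
    intro x y; funext i; unfold rl; simp
  have h1 : ∀ a c : Fin n, T4 m' (Pi.single a 1) (Pi.single c 1) -
      T4 m (Pi.single a 1) (Pi.single c 1) / 8 +
      ((7 / 46080 * (t4R B (Pi.single a 1 + Pi.single c 1) +
        t4R B (Pi.single a 1 - Pi.single c 1) - 2 * t4R B (Pi.single a 1) -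
        2 * t4R B (Pi.single c (1 : ℝ))) : ℝ) : ℂ) =
      D (Pi.single a 1 + Pi.single c 1) + D (Pi.single a 1 - Pi.single c 1) -
        2 * D (Pi.single a 1) - 2 * D (Pi.single c 1) := by
    intro a c
    rw [hD]
    unfold T4
    rw [← rl_single, ← rl_single, hadd, hsub]
    push_cast
    ring
  have h2 : ∀ a c : Fin n, ‖D (Pi.single a 1 + Pi.single c 1) +
      D (Pi.single a 1 - Pi.single c 1) - 2 * D (Pi.single a 1) - 2 * D (Pi.single c 1)‖ ≤
      36 * E := by
    intro a c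
    have n2 : ‖(2 : ℂ)‖ = 2 := by norm_num
    have g1 : nE (Pi.single a (1 : ℝ) + Pi.single c 1) ≤ 2 := by
      refine (nE_add_le _ _).trans ?_
      rw [nE_single, nE_single]; norm_num
    have g2 : nE (Pi.single a (1 : ℝ) - Pi.single c 1) ≤ 2 := by
      rw [sub_eq_add_neg]
      refine (nE_add_le _ _).trans ?_
      rw [nE_neg, nE_single, nE_single]; norm_num
    have d1 := hDb (Pi.single a 1 + Pi.single c 1)
    have d2 := hDb (Pi.single a 1 - Pi.single c 1)
    have d3 := hDb (Pi.single a 1)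
    have d4 := hDb (Pi.single c 1)
    rw [nE_single, one_pow, mul_one] at d3 d4
    have g3 := pow_le_pow_left₀ (nE_nonneg _) g1 4
    have g4 := pow_le_pow_left₀ (nE_nonneg _) g2 4
    have g5 := mul_le_mul_of_nonneg_left g3 hE
    have g6 := mul_le_mul_of_nonneg_left g4 hE
    refine (norm_sub_le _ _).trans ((add_le_add ((norm_sub_le _ _).trans
      (add_le_add (norm_add_le _ _) le_rfl)) le_rfl).trans ?_)
    rw [norm_mul, norm_mul, n2]
    linarith
  have h3 : ∀ a c : Fin n, |(T4 m' (Pi.single a 1) (Pi.single c 1)).re -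
      (T4 m (Pi.single a 1) (Pi.single c 1)).re / 8 +
      7 / 46080 * (t4R B (Pi.single a 1 + Pi.single c 1) +
        t4R B (Pi.single a 1 - Pi.single c 1) - 2 * t4R B (Pi.single a 1) -
        2 * t4R B (Pi.single c (1 : ℝ)))| ≤ 36 * E := by
    intro a c
    have h4 := (Complex.abs_re_le_norm _).trans (h2 a c)
    rw [← h1, Complex.add_re, Complex.ofReal_re, Complex.sub_re] at h4
    have e : (T4 m (Pi.single a 1) (Pi.single c 1) / 8).re =
        (T4 m (Pi.single a 1) (Pi.single c 1)).re / 8 := by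
      have : T4 m (Pi.single a 1) (Pi.single c 1) / 8 =
          T4 m (Pi.single a 1) (Pi.single c 1) / ((8 : ℝ) : ℂ) := by push_cast; rfl
      rw [this, Complex.div_ofReal_re]
    rwa [e] at h4
  have h5 := t4R_fun hcas
  have e1 : qb n m' - (qb n m / 8 - 7 / 55296 * cA ^ 2) = 1 / (12 * n) * ∑ a, ∑ c,
      ((T4 m' (Pi.single a 1) (Pi.single c 1)).re -
      (T4 m (Pi.single a 1) (Pi.single c 1)).re / 8 +
      7 / 46080 * (t4R B (Pi.single a 1 + Pi.single c 1) +
        t4R B (Pi.single a 1 - Pi.single c 1) - 2 * t4R B (Pi.single a 1) -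
        2 * t4R B (Pi.single c (1 : ℝ)))) := by
    have e2 : ∑ a, ∑ c,
      ((T4 m' (Pi.single a 1) (Pi.single c 1)).re -
      (T4 m (Pi.single a 1) (Pi.single c 1)).re / 8 +
      7 / 46080 * (t4R B (Pi.single a 1 + Pi.single c 1) +
        t4R B (Pi.single a 1 - Pi.single c 1) - 2 * t4R B (Pi.single a 1) -
        2 * t4R B (Pi.single c (1 : ℝ)))) =
        (∑ a, ∑ c, (T4 m' (Pi.single a 1) (Pi.single c 1)).re) -
        (∑ a, ∑ c, (T4 m (Pi.single a 1) (Pi.single c 1)).re) / 8 +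
        7 / 46080 * (10 * n * cA ^ 2) := by
      rw [← h5, Finset.sum_div, Finset.mul_sum, ← Finset.sum_sub_distrib,
        ← Finset.sum_add_distrib]
      refine Finset.sum_congr rfl fun a _ => ?_
      rw [Finset.sum_div, Finset.mul_sum, ← Finset.sum_sub_distrib, ← Finset.sum_add_distrib]
    rw [e2]
    unfold qb
    field_simp
    ring
  rw [e1, abs_mul, abs_of_pos (by positivity)]
  have h6 : |∑ a, ∑ c,
      ((T4 m' (Pi.single a 1) (Pi.single c 1)).re -
      (T4 m (Pi.single a 1) (Pi.single c 1)).re / 8 +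
      7 / 46080 * (t4R B (Pi.single a 1 + Pi.single c 1) +
        t4R B (Pi.single a 1 - Pi.single c 1) - 2 * t4R B (Pi.single a 1) -
        2 * t4R B (Pi.single c (1 : ℝ))))| ≤ ∑ _a : Fin n, ∑ _c : Fin n, 36 * E := by
    refine (Finset.abs_sum_le_sum_abs _ _).trans (Finset.sum_le_sum fun a _ => ?_)
    exact (Finset.abs_sum_le_sum_abs _ _).trans (Finset.sum_le_sum fun c _ => h3 a c)
  have h7 : ∑ _a : Fin n, ∑ _c : Fin n, 36 * E = 36 * E * n ^ 2 := by
    simp only [Finset.sum_const, Finset.card_univ, Fintype.card_fin, nsmul_eq_mul]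
    ring
  rw [h7] at h6
  calc _ ≤ 1 / (12 * (n : ℝ)) * (36 * E * n ^ 2) := mul_le_mul_of_nonneg_left h6 (by positivity)
    _ = _ := by field_simp; ring

end

end Pool.Agent.N988.MK
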