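import Mathlib
import Pool.Agent.N988.MK.Q5
import Pool.Agent.N988.MK.Q6
import Pool.Agent.N991.MK.TwoL

/-!
# The quartic part after one convolution square
-/

open MeasureTheory Filter Metric Asymptotics Matrix
open scoped Matrix.Norms.Frobenius Topology ContDiff
open Pool.Agent.H906R3.YM Pool.Agent.W793.YM Pool.Agent.TH618.YM Pool.Agent.N984.TW
open Pool.Agent.N991.MK

namespace Pool.Agent.N988.MK

set_option linter.unusedSectionVars false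

noncomputable section

variable {N n : ℕ} {G : Subgroup (UN N)} {B : Frame G n} {hG : IsClosed (G : Set (UN N))}
variable [CompactSpace G] [MeasurableSpace G] [BorelSpace G] {μ : Measure G}
  [IsProbabilityMeasure μ] [μ.IsMulLeftInvariant] [μ.IsMulRightInvariant] [μ.IsInvInvariant]
variable {r₀ C : ℝ} {b : (Fin n → ℂ) → (Fin n → ℂ) → (Fin n → ℂ)}
variable {r k M Cm Cq Cu Cs Cp cA C6 : ℝ} {F : (Mat N)ˣ → ℂ} {m : (Fin n → ℂ) → ℂ} {f : G → ℝ}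

/-- the quartic part of the new state at the unit vectors -/
lemma Hz.new_m4 (Z : Hz B hG μ r₀ C b r k M Cm Cq Cu Cs Cp cA f F m) {δ K : ℝ}
    (hδ : ∀ x : Fin n → ℂ, nC x < r →
      ‖Z.H.ll x - δ * qC x‖ ≤ 3 * eta Cq Cm r k M * (nC x / r) ^ 4)
    (hk : 16 / r ^ 2 ≤ k) (hK : ∀ (x : Fin n → ℝ), nE x = 1 → ∀ s : ℝ, 0 < s → s ^ 2 * k = 1 →
      s < r / 3 → ‖Z.H.ll (((2 * s : ℝ) : ℂ) • rl x) - 4 * Z.H.ll (((1 * s : ℝ) : ℂ) • rl x) +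
          ((7 / 3840 * t4R B x / k ^ 2 : ℝ) : ℂ)‖ ≤ K * (1 + M) / k ^ 3)
    {x : Fin n → ℝ} (hx : nE x = 1) :
    ‖m4 (fun x => 2 * m ((1 / 2 : ℂ) • x) + (Z.H.ll x - δ * qC x)) (rl x) - m4 m (rl x) / 8 +
      ((7 / 46080 * t4R B x : ℝ) : ℂ)‖ ≤ (K + 22 / r ^ 2 + 204 / r ^ 6) * (1 + M) / k := by
  have H := Z.H
  have hr0 := H.hr0
  have hk0 := H.hk
  have hM := H.hM
  have het := H.het
  have het0 := H.eta_nonneg
  have hnew := Hy.new_state H hδ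
  obtain ⟨m', hm'⟩ : ∃ m' : (Fin n → ℂ) → ℂ, m' = fun x => 2 * m ((1 / 2 : ℂ) • x) +
    (Z.H.ll x - δ * qC x) := ⟨_, rfl⟩
  rw [← hm'] at hnew ⊢
  obtain ⟨M', hM'⟩ : ∃ M', M' = M / 8 + 3 * eta Cq Cm r k M / r ^ 4 := ⟨_, rfl⟩
  rw [← hM'] at hnew
  have hM'0 : 0 ≤ M' := by rw [hM']; positivity
  have hM'1 : M' ≤ M / 8 + 3 / (2 * r ^ 4) := by
    rw [hM']
    have h1 : 3 * eta Cq Cm r k M / r ^ 4 ≤ 3 * (1 / 2) / r ^ 4 := by gcongr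
    have h3 : 3 / (2 * r ^ 4) = 3 * (1 / 2) / r ^ 4 := by field_simp
    rw [h3]
    linarith
  have hF1 : convC μ F F 1 ≠ 0 := by
    rw [conv_one (B := B) (hG := hG) H.hf]
    exact Complex.ofReal_ne_zero.2 H.hW.ne'
  -- the scale
  obtain ⟨s, hs⟩ : ∃ s, s = 1 / Real.sqrt k := ⟨_, rfl⟩
  have hsk0 := Real.sqrt_pos.2 hk0
  have hs0 : 0 < s := by rw [hs]; positivity
  have hs2 : s ^ 2 = 1 / k := by rw [hs, div_pow, Real.sq_sqrt hk0.le]; norm_num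
  have hsk : s ^ 2 * k = 1 := by rw [hs2]; field_simp
  have hsr : s < r / 3 := by
    have h1 : s ^ 2 ≤ (r / 4) ^ 2 := by
      rw [hs2, div_le_iff₀ hk0]
      rw [div_le_iff₀ (by positivity)] at hk
      have : (r / 4) ^ 2 * k = k * r ^ 2 / 16 := by ring
      rw [this]
      linarith
    have h2 : s ≤ r / 4 := (pow_le_pow_iff_left₀ hs0.le (by positivity) two_ne_zero).1 h1
    linarith
  have hs4 : s ^ 4 = 1 / k ^ 2 := by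
    have : s ^ 4 = (s ^ 2) ^ 2 := by ring
    rw [this, hs2]; field_simp
  have hs6 : s ^ 6 = 1 / k ^ 3 := by
    have : s ^ 6 = (s ^ 2) ^ 3 := by ring
    rw [this, hs2]; field_simp
  have h2 := hK x hx s hs0 hsk hsr
  obtain ⟨X, hX⟩ : ∃ X : Fin n → ℂ, X = rl x := ⟨_, rfl⟩
  have hXn : nC X = 1 := by rw [hX, nC_rl, hx]
  have hn : ∀ j : ℝ, 0 < j → nC (((j * s : ℝ) : ℂ) • X) = j * s := by
    intro j hj
    rw [nC_smul, hXn, mul_one, Complex.norm_real, Real.norm_eq_abs, abs_of_pos (by positivity)]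
  rw [← hX] at h2 ⊢
  have hh1 : (1 / 2 : ℂ) • (((2 * s : ℝ) : ℂ) • X) = ((1 * s : ℝ) : ℂ) • X := by
    rw [smul_smul]; congr 1; push_cast; ring
  have hh2 : (1 / 2 : ℂ) • (((1 * s : ℝ) : ℂ) • X) = ((1 / 2 * s : ℝ) : ℂ) • X := by
    rw [smul_smul]; congr 1; push_cast; ring
  -- the four remainders
  have r1 := (hnew.m4_near H.conv_hol hF1 hr0 (x := ((2 * s : ℝ) : ℂ) • X)
    (by rw [hn 2 two_pos]; linarith)).1
  have r2 := (hnew.m4_near H.conv_hol hF1 hr0 (x := ((1 * s : ℝ) : ℂ) • X)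
    (by rw [hn 1 one_pos]; linarith)).1
  have r3 := (H.hs.m4_near H.hf.hol H.h1 hr0 (x := ((1 * s : ℝ) : ℂ) • X)
    (by rw [hn 1 one_pos]; linarith)).1
  have r4 := (H.hs.m4_near H.hf.hol H.h1 hr0 (x := ((1 / 2 * s : ℝ) : ℂ) • X)
    (by rw [hn (1 / 2) (by norm_num)]; linarith)).1
  rw [hn 2 two_pos] at r1
  rw [hn 1 one_pos] at r2 r3
  rw [hn (1 / 2) (by norm_num)] at r4
  have v1 : m' (((2 * s : ℝ) : ℂ) • X) = 2 * m (((1 * s : ℝ) : ℂ) • X) +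
      (Z.H.ll (((2 * s : ℝ) : ℂ) • X) - δ * qC (((2 * s : ℝ) : ℂ) • X)) := by
    rw [hm']
    beta_reduce
    rw [hh1]
  have v2 : m' (((1 * s : ℝ) : ℂ) • X) = 2 * m (((1 / 2 * s : ℝ) : ℂ) • X) +
      (Z.H.ll (((1 * s : ℝ) : ℂ) • X) - δ * qC (((1 * s : ℝ) : ℂ) • X)) := by
    rw [hm']
    beta_reduce
    rw [hh2]
  obtain ⟨D, hD⟩ : ∃ D : ℂ, D = m4 m' X - m4 m X / 8 + ((7 / 46080 * t4R B x : ℝ) : ℂ) :=
    ⟨_, rfl⟩
  rw [← hD]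
  have hs4c : ((s : ℂ)) ^ 4 = 1 / (k : ℂ) ^ 2 := by
    have := congrArg (fun u : ℝ => (u : ℂ)) hs4
    push_cast at this
    exact this
  have hkc : (k : ℂ) ≠ 0 := Complex.ofReal_ne_zero.2 hk0.ne'
  have key : (12 / (k : ℂ) ^ 2) * D = (Z.H.ll (((2 * s : ℝ) : ℂ) • X) -
      4 * Z.H.ll (((1 * s : ℝ) : ℂ) • X) + ((7 / 3840 * t4R B x / k ^ 2 : ℝ) : ℂ)) -
      (m' (((2 * s : ℝ) : ℂ) • X) - m4 m' (((2 * s : ℝ) : ℂ) • X)) * (-1) * (-1) +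
      4 * (m' (((1 * s : ℝ) : ℂ) • X) - m4 m' (((1 * s : ℝ) : ℂ) • X)) +
      2 * (m (((1 * s : ℝ) : ℂ) • X) - m4 m (((1 * s : ℝ) : ℂ) • X)) -
      8 * (m (((1 / 2 * s : ℝ) : ℂ) • X) - m4 m (((1 / 2 * s : ℝ) : ℂ) • X)) := by
    rw [v1, v2, m4_smul, m4_smul, m4_smul, m4_smul, qC_smul, qC_smul, hD]
    push_cast
    have e1 : (2 * (s : ℂ)) ^ 4 = 16 / (k : ℂ) ^ 2 := by rw [mul_pow, hs4c]; ring
    have e2 : (1 * (s : ℂ)) ^ 4 = 1 / (k : ℂ) ^ 2 := by rw [mul_pow, hs4c]; ring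
    have e3 : (1 / 2 * (s : ℂ)) ^ 4 = 1 / 16 / (k : ℂ) ^ 2 := by rw [mul_pow, hs4c]; ring
    rw [e1, e2, e3]
    ring
  have hb : ‖(12 / (k : ℂ) ^ 2) * D‖ ≤ K * (1 + M) / k ^ 3 + 2 * M' * (2 * s) ^ 6 / r ^ 2 +
      4 * (2 * M' * (1 * s) ^ 6 / r ^ 2) + 2 * (2 * M * (1 * s) ^ 6 / r ^ 2) +
      8 * (2 * M * (1 / 2 * s) ^ 6 / r ^ 2) := by
    rw [key]
    have n2 : ‖(2 : ℂ)‖ = 2 := by norm_num
    have n4 : ‖(4 : ℂ)‖ = 4 := by norm_num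
    have n8 : ‖(8 : ℂ)‖ = 8 := by norm_num
    refine (norm_sub_le _ _).trans (add_le_add ((norm_add_le _ _).trans (add_le_add
      ((norm_add_le _ _).trans (add_le_add ((norm_sub_le _ _).trans (add_le_add h2 ?_)) ?_))
      ?_)) ?_)
    · have e : (m' (((2 * s : ℝ) : ℂ) • X) - m4 m' (((2 * s : ℝ) : ℂ) • X)) * (-1) * (-1) =
          m' (((2 * s : ℝ) : ℂ) • X) - m4 m' (((2 * s : ℝ) : ℂ) • X) := by ring
      rw [e]; exact r1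
    · rw [norm_mul, n4]; exact mul_le_mul_of_nonneg_left r2 (by norm_num)
    · rw [norm_mul, n2]; exact mul_le_mul_of_nonneg_left r3 (by norm_num)
    · rw [norm_mul, n8]; exact mul_le_mul_of_nonneg_left r4 (by norm_num)
  have e1 : K * (1 + M) / k ^ 3 + 2 * M' * (2 * s) ^ 6 / r ^ 2 +
      4 * (2 * M' * (1 * s) ^ 6 / r ^ 2) + 2 * (2 * M * (1 * s) ^ 6 / r ^ 2) +
      8 * (2 * M * (1 / 2 * s) ^ 6 / r ^ 2) =
      (K * (1 + M) + 136 * M' / r ^ 2 + 17 / 4 * M / r ^ 2) / k ^ 3 := by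
    simp only [mul_pow, hs6]
    field_simp
    ring
  rw [e1, norm_mul] at hb
  have e2 : ‖(12 / (k : ℂ) ^ 2)‖ = 12 / k ^ 2 := by
    have : (12 / (k : ℂ) ^ 2) = ((12 / k ^ 2 : ℝ) : ℂ) := by push_cast; rfl
    rw [this, Complex.norm_real, Real.norm_eq_abs, abs_of_pos (by positivity)]
  rw [e2] at hb
  have h3 : 12 * ‖D‖ ≤ (K * (1 + M) + 136 * M' / r ^ 2 + 17 / 4 * M / r ^ 2) / k := by
    have h4 := mul_le_mul_of_nonneg_left hb (show 0 ≤ k ^ 2 by positivity)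
    have e3 : k ^ 2 * (12 / k ^ 2 * ‖D‖) = 12 * ‖D‖ := by field_simp
    have e4 : k ^ 2 * ((K * (1 + M) + 136 * M' / r ^ 2 + 17 / 4 * M / r ^ 2) / k ^ 3) =
        (K * (1 + M) + 136 * M' / r ^ 2 + 17 / 4 * M / r ^ 2) / k := by field_simp
    rwa [e3, e4] at h4
  have h5 : 136 * M' / r ^ 2 ≤ 17 / r ^ 2 * M + 204 / r ^ 6 := by
    calc 136 * M' / r ^ 2 ≤ 136 * (M / 8 + 3 / (2 * r ^ 4)) / r ^ 2 := by gcongr
      _ = _ := by field_simp; ring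
  have h6 : 17 / 4 * M / r ^ 2 = 17 / 4 * (1 / r ^ 2 * M) := by ring
  have h7 : (K * (1 + M) + 136 * M' / r ^ 2 + 17 / 4 * M / r ^ 2) / k ≤
      (K + 22 / r ^ 2 + 204 / r ^ 6) * (1 + M) / k := by
    refine div_le_div_of_nonneg_right ?_ hk0.le
    have i1 : 0 ≤ 1 / r ^ 2 * M := by positivity
    have i2 : 0 ≤ 1 / r ^ 6 * M := by positivity
    have i3 : 0 ≤ 1 / r ^ 2 := by positivity
    have i4 : 17 / r ^ 2 * M = 17 * (1 / r ^ 2 * M) := by ring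
    have i5 : (K + 22 / r ^ 2 + 204 / r ^ 6) * (1 + M) = K * (1 + M) + 22 * (1 / r ^ 2) +
        22 * (1 / r ^ 2 * M) + 204 / r ^ 6 + 204 * (1 / r ^ 6 * M) := by ring
    rw [i5, h6]
    rw [i4] at h5
    linarith
  have h8 := norm_nonneg D
  linarith

/-- the quartic part of the new state -/
lemma pt_of_unit {m m' : (Fin n → ℂ) → ℂ} {E : ℝ} (h : ∀ x : Fin n → ℝ, nE x = 1 →
    ‖m4 m' (rl x) - m4 m (rl x) / 8 + ((7 / 46080 * t4R B x : ℝ) : ℂ)‖ ≤ E) (x : Fin n → ℝ) :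
    ‖m4 m' (rl x) - m4 m (rl x) / 8 + ((7 / 46080 * t4R B x : ℝ) : ℂ)‖ ≤ E * nE x ^ 4 := by
  by_cases hx : nE x = 0
  · have h0 : x = 0 := by
      have h1 : nC (rl x) ≤ 0 := by rw [nC_rl, hx]
      have h2 := nC_eq_zero h1
      funext i
      have h3 := congrFun h2 i
      unfold rl at h3
      simpa using h3
    have h1 : rl x = (0 : ℂ) • rl x := by
      rw [zero_smul, h0]; funext i; unfold rl; simp
    have h2 : t4R B x = 0 := by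
      have := t4R_smul (B := B) 0 x
      rw [zero_smul] at this
      rw [h0] at this ⊢
      rw [this]; simp
    rw [h1, m4_smul, m4_smul, h2, hx]
    simp
  have px : 0 < nE x := lt_of_le_of_ne (nE_nonneg x) (Ne.symm hx)
  obtain ⟨y, hy⟩ : ∃ y : Fin n → ℝ, y = (nE x)⁻¹ • x := ⟨_, rfl⟩
  have hxy : x = nE x • y := by rw [hy, smul_smul, mul_inv_cancel₀ hx, one_smul]
  have hy1 : nE y = 1 := by
    rw [hy, nE_smul', abs_of_pos (by positivity), inv_mul_cancel₀ hx]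
  obtain ⟨t, ht⟩ : ∃ t, t = nE x := ⟨_, rfl⟩
  rw [← ht] at hxy px ⊢
  rw [hxy, rl_smul', m4_smul, m4_smul, t4R_smul]
  have e : ((t : ℂ)) ^ 4 * m4 m' (rl y) - (t : ℂ) ^ 4 * m4 m (rl y) / 8 +
      ((7 / 46080 * (t ^ 4 * t4R B y) : ℝ) : ℂ) =
      (t : ℂ) ^ 4 * (m4 m' (rl y) - m4 m (rl y) / 8 + ((7 / 46080 * t4R B y : ℝ) : ℂ)) := by
    push_cast; ring
  rw [e, norm_mul, norm_pow, Complex.norm_real, Real.norm_eq_abs, abs_of_pos px]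
  have h1 := mul_le_mul_of_nonneg_left (h y hy1) (show 0 ≤ t ^ 4 by positivity)
  linarith

/-- the bound of order eight at real points -/
lemma six_of_H6 (h6 : ∀ x y : Fin n → ℂ, nC x < r₀ / 2 → nC y < r₀ / 2 →
      ‖Tf b qC x y + 1 / 6 * brC B x y + 1 / 360 * (b2C B x y + b2C B y x)‖ ≤
        C6 * nC x ^ 2 * nC y ^ 2 * max (nC x) (nC y) ^ 4) : Six B r₀ b C6 := by
  intro x y hx hy
  have h := h6 (rl x) (rl y) (by rwa [nC_rl]) (by rwa [nC_rl])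
  rw [brC_rl, b2C_rl, b2C_rl, nC_rl, nC_rl] at h
  exact h

variable (μ) in
/-- **the trace of the quartic part after one convolution square** -/
theorem two_Q (hG : IsClosed (G : Set (UN N))) (hI : IsoG B) (hn : 0 < n)
    (hcA : ∀ x : Fin n → ℝ, ∑ a, ‖LX B x * B.X a - B.X a * LX B x‖ ^ 2 = cA * nE x ^ 2)
    (h6 : H6 B) (hcas : CasPair B cA) :
    ∃ r₁ ε₁ : ℝ, 0 < r₁ ∧ 0 < ε₁ ∧ ε₁ ≤ 1 / 1000 ∧ ∀ r : ℝ, 0 < r → r ≤ r₁ →
      ∃ k₀ K : ℝ, 1 ≤ k₀ ∧ 0 ≤ K ∧ ∀ {k M : ℝ} {f : G → ℝ} {F : (Mat N)ˣ → ℂ}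
        {m : (Fin n → ℂ) → ℂ}, k₀ ≤ k → 0 ≤ M → M * r ^ 2 ≤ ε₁ * k → CF f F → (∀ x, 0 < f x) →
        St B r k M F m → Tube B r k F →
        ∀ {k' M' : ℝ} {m' : (Fin n → ℂ) → ℂ}, St B r k' M' (convC μ F F) m' →
        |qb n m' - (qb n m / 8 - 7 / 55296 * cA ^ 2)| ≤ K * (1 + M) / k := by
  obtain ⟨r₀, C, b, Cq, Cu, Cs, Cp, Cy, T⟩ := exists_Cst2 B hG
  obtain ⟨C6, hC6, h6'⟩ := h6 r₀ C b T.T.h
  obtain ⟨Cm, r₁, ε₁, hCm, hr₁, hr₁0, hε₁, hε₁', hst⟩ := T.exists_Hy2 μ hI hn hcA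
  have hcA0 : 0 ≤ cA := by
    have h1 := hcA (Pi.single (⟨0, hn⟩ : Fin n) (1 : ℝ))
    rw [nE_single, one_pow, mul_one] at h1
    rw [← h1]
    exact Finset.sum_nonneg fun a _ => sq_nonneg _
  refine ⟨r₁, ε₁, hr₁, hε₁, hε₁', fun r hr hrr => ?_⟩
  obtain ⟨-, k₀, hk3, hk16, hH⟩ := hst r hr hrr
  obtain ⟨K, hK0, hK⟩ := exists_second B hG μ b r₀ C r Cm Cq Cu Cs Cp cA C6 hr hCm.le T.T.hCu
    T.T.hCs T.T.hCp hcA0 hC6 (six_of_H6 h6')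
  refine ⟨k₀, 3 * n * (K + 22 / r ^ 2 + 204 / r ^ 6), by linarith, by positivity, ?_⟩
  intro k M f F m hk hM hMr hf hpos hst' ht k' M' m' hs'
  have Y := hH hk hM hMr hf hpos hst' ht
  have Z := Y.Z
  have H := Z.H
  have hk1 : 1 ≤ k := by linarith
  obtain ⟨δ, κ, d1, d2, d3, d4⟩ := H.exists_delta hI hn
  have hnew := Hy.new_state H d4
  have hF1 : convC μ F F 1 ≠ 0 := by
    rw [N988.MK.conv_one (B := B) (hG := hG) hf]
    exact Complex.ofReal_ne_zero.2 H.hW.ne'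
  have hmm := m4_congr hr (St.uniq hs' hnew hr hn hF1 fun x => rfl).2
  rw [qb_congr hmm]
  have h1 : ∀ x : Fin n → ℝ, nE x = 1 → ‖m4 (fun x => 2 * m ((1 / 2 : ℂ) • x) +
      (Z.H.ll x - δ * qC x)) (rl x) - m4 m (rl x) / 8 + ((7 / 46080 * t4R B x : ℝ) : ℂ)‖ ≤
      (K + 22 / r ^ 2 + 204 / r ^ 6) * (1 + M) / k := fun x hx =>
    Z.new_m4 d4 (hk16.trans hk) (fun x hx s a1 a2 a3 => hK Z hk1 x hx s a1 a2 a3) hx
  have h2 := qb_of_pt hn hcas (pt_of_unit h1)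
  refine h2.trans (le_of_eq ?_)
  ring

end

end Pool.Agent.N988.MK
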