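import Mathlib
import Pool.Agent.N988.MK.Pair4
import Pool.Agent.N988.MK.Q7

/-!
# The one-step theorems without positivity
-/

open MeasureTheory Filter Metric Asymptotics Matrix
open scoped Matrix.Norms.Frobenius Topology ContDiff
open Pool.Agent.H906R3.YM Pool.Agent.W793.YM Pool.Agent.TH618.YM Pool.Agent.N984.TW
open Pool.Agent.N991.MK

namespace Pool.Agent.N988.MK

set_option linter.unusedSectionVars false

noncomputable section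

variable {N n : ℕ} {G : Subgroup (UN N)} {B : Frame G n}
variable [CompactSpace G] [MeasurableSpace G] [BorelSpace G]

lemma W_pos (μ : Measure G) [IsProbabilityMeasure μ] [μ.IsMulLeftInvariant]
    [μ.IsMulRightInvariant] [μ.IsInvInvariant] {r k M : ℝ} (hgr : GoodR B r)
    (hk : 16 / r ^ 2 ≤ k) (hM : M * r ^ 2 ≤ k / 1000) {f : G → ℝ} {F : (Mat N)ˣ → ℂ}
    (hf : CF f F) (hn : NearS B r k M F) (h1 : F 1 ≠ 0) : 0 < ∫ z : G, (f z) ^ 2 ∂μ := by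
  obtain ⟨c, hc, D, hlow⟩ := int_lower_pow (B := B) μ
  have h := hlow hgr hk hM hf hn
  have hr := hgr.pos
  have hk0 : 0 < k := lt_of_lt_of_le (by positivity) hk
  have h2 : 0 < ‖F 1‖ := norm_pos_iff.2 h1
  have h3 : 0 < k ^ D * ∫ z : G, (f z) ^ 2 ∂μ := lt_of_lt_of_le (by positivity) h
  exact (mul_pos_iff_of_pos_left (pow_pos hk0 D)).1 h3

/-- the states satisfy the hypotheses of the one-step estimate -/
theorem exists_HyN (B : Frame G n) (hG : IsClosed (G : Set (UN N))) (μ : Measure G)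
    [IsProbabilityMeasure μ] [μ.IsMulLeftInvariant] [μ.IsMulRightInvariant] [μ.IsInvInvariant] :
    ∃ (r₀ C : ℝ) (b : (Fin n → ℂ) → (Fin n → ℂ) → (Fin n → ℂ)) (Cm Cq r₁ ε₁ : ℝ),
      0 < r₁ ∧ r₁ ≤ 1 ∧ 0 < ε₁ ∧ ε₁ ≤ 1 / 2000 ∧ 0 ≤ Cm ∧ 0 ≤ Cq ∧ Cq * r₁ ^ 2 ≤ 1 ∧
      ∀ r : ℝ, 0 < r → r ≤ r₁ → GoodR B r ∧ ∃ k₀ : ℝ, 1 ≤ k₀ ∧
        ∀ {k M : ℝ} {f : G → ℝ} {F : (Mat N)ˣ → ℂ} {m : (Fin n → ℂ) → ℂ}, k₀ ≤ k → 0 ≤ M →
          M * r ^ 2 ≤ ε₁ * k → CF f F → F 1 ≠ 0 → St B r k M F m → Tube B r k F →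
          Hy B hG μ r₀ C b r k M Cm Cq f F m ∧ Aq Cq k M * r ^ 2 ≤ 7 / 100 * k := by
  obtain ⟨r₀, C, b, Cq, Cu, Cs, Cp, T⟩ := exists_Cst B hG
  obtain ⟨Cm, hCm, hmom⟩ := moments (B := B) μ
  obtain ⟨rg, hrg, hgood⟩ := exists_goodR B hG
  have hr₀ := T.h.pos
  have hCq := T.hCq
  obtain ⟨S, hS⟩ : ∃ S : ℝ, S = min (1 / 10) (1 / (4 * (Cm + 1))) := ⟨_, rfl⟩
  have hS0 : 0 < S := by rw [hS]; positivity
  have hS1 : S ≤ 1 / 10 := by rw [hS]; exact min_le_left _ _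
  have hS2 : S * Cm ≤ 1 / 4 := by
    have h1 : S ≤ 1 / (4 * (Cm + 1)) := by rw [hS]; exact min_le_right _ _
    have h2 : S * Cm ≤ 1 / (4 * (Cm + 1)) * Cm := mul_le_mul_of_nonneg_right h1 hCm.le
    refine h2.trans ?_
    rw [one_div_mul_eq_div, div_le_div_iff₀ (by positivity) (by norm_num)]
    linarith
  have hq5 : ∀ r : ℝ, 0 < r → r ≤ min (min r₀ rg) (min 1 (S / (Cq + 1))) → Cq * r ^ 2 ≤ S := by
    intro r hr hrr
    have q3 : r ≤ 1 := hrr.trans ((min_le_right _ _).trans (min_le_left _ _))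
    have q4 : r ≤ S / (Cq + 1) := hrr.trans ((min_le_right _ _).trans (min_le_right _ _))
    have h1 : Cq * r ≤ S := by
      have h2 : (Cq + 1) * r ≤ S := by
        rw [le_div_iff₀ (by positivity)] at q4
        linarith
      linarith
    have h3 : Cq * r ^ 2 = (Cq * r) * r := by ring
    rw [h3]
    have h4 : 0 ≤ Cq * r := by positivity
    exact (mul_le_of_le_one_right h4 q3).trans h1
  have hrp : 0 < min (min r₀ rg) (min 1 (S / (Cq + 1))) := by positivity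
  refine ⟨r₀, C, b, Cm, Cq, min (min r₀ rg) (min 1 (S / (Cq + 1))), min (1 / 2000) (S / 100),
    hrp, (min_le_right _ _).trans (min_le_left _ _), by positivity, min_le_left _ _, hCm.le, hCq,
    (hq5 _ hrp le_rfl).trans (by linarith), fun r hr hrr => ?_⟩
  obtain ⟨ε, hε⟩ : ∃ ε : ℝ, ε = min (1 / 2000) (S / 100) := ⟨_, rfl⟩
  rw [← hε]
  have hε0 : 0 < ε := by rw [hε]; positivity
  have hε1 : ε ≤ 1 / 2000 := by rw [hε]; exact min_le_left _ _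
  have hε2 : ε ≤ S / 100 := by rw [hε]; exact min_le_right _ _
  have q1 : r ≤ r₀ := hrr.trans ((min_le_left _ _).trans (min_le_left _ _))
  have q2 : r ≤ rg := hrr.trans ((min_le_left _ _).trans (min_le_right _ _))
  have hgr : GoodR B r := hgood r hr q2
  refine ⟨hgr, ?_⟩
  have q5 : Cq * r ^ 2 ≤ S := hq5 r hr hrr
  obtain ⟨k1, hk1, hfar⟩ := far_part μ hgr
  obtain ⟨k2, hk2, hptw⟩ := far_ptw μ hgr
  refine ⟨max (max k1 k2) (max 3 (16 / r ^ 2)), hk1.trans ((le_max_left _ _).trans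
    (le_max_left _ _)), fun {k M f F m} hk hM hMr hf hF1 hs ht => ?_⟩
  have l1 : k1 ≤ k := ((le_max_left _ _).trans (le_max_left _ _)).trans hk
  have l2 : k2 ≤ k := ((le_max_right _ _).trans (le_max_left _ _)).trans hk
  have l4 : 3 ≤ k := ((le_max_left _ _).trans (le_max_right _ _)).trans hk
  have l5 : 16 / r ^ 2 ≤ k := ((le_max_right _ _).trans (le_max_right _ _)).trans hk
  have hk0 : 0 < k := by linarith
  have hM1 : M * r ^ 2 ≤ k / 1000 := by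
    have := mul_le_mul_of_nonneg_right hε1 hk0.le
    linarith
  have hns := hs.nearS
  have hfc : Continuous f := hf.cont
  have hW : 0 < ∫ z : G, (f z) ^ 2 ∂μ := W_pos μ hgr l5 hM1 hf hns hF1
  have hinp : Inp B μ r k Cm f F := by
    refine ⟨hmom hgr l5 hM1 hf hns, fun x hx => hfar l1 hM1 hf hns ht x hx.le, fun x hx z hz => ?_⟩
    exact hptw l2 hM1 hf hns ht x hx z hz.le
  have hAq' : Aq Cq k M * r ^ 2 ≤ 7 / 10 * (S * k) := by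
    unfold Aq
    have h1 : Cq * r ^ 2 * k ≤ S * k := mul_le_mul_of_nonneg_right q5 hk0.le
    have h2 : ε * k ≤ S / 100 * k := mul_le_mul_of_nonneg_right hε2 hk0.le
    have h3 : (Cq / 8 * k + 27 * M) * (25 / 16) * r ^ 2 =
        25 / 128 * (Cq * r ^ 2 * k) + 675 / 16 * (M * r ^ 2) := by ring
    rw [h3]
    have h4 : 0 ≤ S * k := by positivity
    linarith
  have hSk : S * k ≤ 1 / 10 * k := mul_le_mul_of_nonneg_right hS1 hk0.le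
  have hAr : Aq Cq k M * r ^ 2 ≤ k / 10 := by
    have : 0 ≤ S * k := by positivity
    linarith
  have het : eta Cq Cm r k M ≤ 1 / 2 := by
    unfold eta
    have h1 : Aq Cq k M * r ^ 2 * Cm / k ≤ 1 / 4 := by
      rw [div_le_iff₀ hk0]
      have h2 := mul_le_mul_of_nonneg_right hAq' hCm.le
      have h3 := mul_le_mul_of_nonneg_right hS2 hk0.le
      calc Aq Cq k M * r ^ 2 * Cm ≤ 7 / 10 * (S * k) * Cm := h2
        _ = 7 / 10 * (S * Cm * k) := by ring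
        _ ≤ _ := by
            have : 0 ≤ S * Cm * k := by positivity
            linarith
    have h4 : 2 / k ^ 2 ≤ 1 / 4 := by
      rw [div_le_div_iff₀ (by positivity) (by norm_num)]
      have h5 : (3 : ℝ) ^ 2 ≤ k ^ 2 := pow_le_pow_left₀ (by norm_num) l4 2
      linarith
    linarith
  exact ⟨⟨hs, hf, hF1, T.h, q1, hr, T.hl, hM, hk0, hinp, T.hq, T.hCq, hCm.le, hAr, het, hW⟩,
    by linarith⟩

/-- a normalised state, not necessarily positive -/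
structure NR (B : Frame G n) (r ε k M : ℝ) (f : G → ℝ) (F : (Mat N)ˣ → ℂ)
    (m : (Fin n → ℂ) → ℂ) : Prop where
  cf : CF f F
  one : F 1 = 1
  st : St B r k M F m
  tb : Tube B r k F
  M0 : 0 ≤ M
  Ml : M * r ^ 2 ≤ ε * k

lemma NR.ne {r ε k M : ℝ} {f : G → ℝ} {F : (Mat N)ˣ → ℂ} {m : (Fin n → ℂ) → ℂ}
    (h : NR B r ε k M f F m) : F 1 ≠ 0 := by rw [h.one]; exact one_ne_zero

lemma NS.toNR {r ε k M : ℝ} {f : G → ℝ} {F : (Mat N)ˣ → ℂ} {m : (Fin n → ℂ) → ℂ}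
    (h : NS B r ε k M f F m) : NR B r ε k M f F m := ⟨h.cf, h.one, h.st, h.tb, h.M0, h.Ml⟩

/-- **the one-step theorem for the difference of two states** -/
theorem pair_DN (μ : Measure G) [IsProbabilityMeasure μ] [μ.IsMulLeftInvariant]
    [μ.IsMulRightInvariant] [μ.IsInvInvariant] (hG : IsClosed (G : Set (UN N))) (hI : IsoG B)
    (hn : 0 < n) :
    ∃ r₁ ε₁ ε₂ : ℝ, 0 < r₁ ∧ r₁ ≤ 1 ∧ 0 < ε₁ ∧ ε₁ ≤ 1 / 2000 ∧ 0 < ε₂ ∧ ε₂ ≤ 1 / 10000 ∧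
      ∀ ε : ℝ, 0 < ε → ε ≤ ε₁ → ∀ r : ℝ, 0 < r → r ≤ r₁ → GoodR B r ∧
      ∃ k₀ K : ℝ, 1 ≤ k₀ ∧ 0 ≤ K ∧ ∀ {k₁ k₂ M₁ M₂ l : ℝ} {f₁ f₂ : G → ℝ}
        {F₁ F₂ : (Mat N)ˣ → ℂ} {m₁ m₂ : (Fin n → ℂ) → ℂ}, k₀ ≤ k₁ → k₀ ≤ k₂ →
        NR B r ε k₁ M₁ f₁ F₁ m₁ → NR B r ε k₂ M₂ f₂ F₂ m₂ → Dd B r k₁ k₂ l F₁ F₂ m₁ m₂ →
        |k₂ - k₁| + 2 * l * r ^ 2 ≤ ε₂ * min k₁ k₂ →
        ∀ {k₁' k₂' M₁' M₂' : ℝ} {m₁' m₂' : (Fin n → ℂ) → ℂ},
        St B r k₁' M₁' (convC μ F₁ F₁) m₁' → St B r k₂' M₂' (convC μ F₂ F₂) m₂' →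
        |(k₂' - k₁') - (k₂ - k₁) / 2| ≤ K * (|k₂ - k₁| + l) / min k₁ k₂ ∧
        (∀ x, nC x < r → ‖m₂' x - m₁' x‖ ≤
          (l / 8 + K * (|k₂ - k₁| + l) / min k₁ k₂) * nC x ^ 4) ∧
        ∀ (a : Fin n → ℝ) (y : G), nE a ≤ 0.51 * r → (0.95 * r) ^ 2 < nE a ^ 2 + nN y ^ 2 →
          ‖convC μ F₂ F₂ (uE B (Complex.I • rl a) * uG y) / ((∫ z : G, (f₂ z) ^ 2 ∂μ : ℝ) : ℂ) -
            convC μ F₁ F₁ (uE B (Complex.I • rl a) * uG y) / ((∫ z : G, (f₁ z) ^ 2 ∂μ : ℝ) : ℂ)‖ ≤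
          K * (|k₂ - k₁| + l) / min k₁ k₂ *
            Real.exp (min k₁' k₂' / 2 * (1.01 * nE a ^ 2 - 0.99 * min (nN y) r ^ 2)) := by
  obtain ⟨r₀, C, b, Cm, Cq, r₁, ε₁, hr₁, hr₁1, hε₁, hε₁2, hCm, hCq, hCqr, hHy⟩ := exists_HyN B hG μ
  obtain ⟨ε₂, hε₂d⟩ : ∃ ε₂ : ℝ, ε₂ = min (1 / 10000) (1 / (88 * (Cm + 1))) := ⟨_, rfl⟩
  have hε₂ : 0 < ε₂ := by rw [hε₂d]; positivity
  have hε₂1 : ε₂ ≤ 1 / 10000 := by rw [hε₂d]; exact min_le_left _ _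
  have hε₂2 : ε₂ * Cm ≤ 1 / 88 := by
    have h1 : ε₂ ≤ 1 / (88 * (Cm + 1)) := by rw [hε₂d]; exact min_le_right _ _
    have h2 : ε₂ * Cm ≤ 1 / (88 * (Cm + 1)) * Cm := mul_le_mul_of_nonneg_right h1 hCm
    refine h2.trans ?_
    rw [one_div_mul_eq_div, div_le_div_iff₀ (by positivity) (by norm_num)]
    linarith
  refine ⟨r₁, ε₁, ε₂, hr₁, hr₁1, hε₁, hε₁2, hε₂, hε₂1, fun ε hε hεε r hr hrr => ?_⟩
  obtain ⟨hgr, ka, hka, hHy⟩ := hHy r hr hrr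
  obtain ⟨kb, hkb, hfd⟩ := far_diff (B := B) μ hgr
  obtain ⟨kc, hkc, htc⟩ := tube_conv2 (B := B) hG μ hgr (3 / (2 * r ^ 2)) (by positivity)
  refine ⟨hgr, ?_⟩
  have hr1 : r ≤ 1 := hrr.trans hr₁1
  have hr2 : 0 < r ^ 2 := by positivity
  have hr21 : r ^ 2 ≤ 1 := pow_le_one₀ hr.le hr1
  have hr4 : 0 < r ^ 4 := by positivity
  have hr41 : r ^ 4 ≤ 1 := pow_le_one₀ hr.le hr1
  obtain ⟨KS, hKS⟩ : ∃ KS : ℝ, KS = 44 * Cm + 6 := ⟨_, rfl⟩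
  have hKS0 : 0 ≤ KS := by rw [hKS]; positivity
  refine ⟨max (max ka kb) (max kc (12 * (1 + 1 / r ^ 2))), 20 * KS / r ^ 4 + (4 + 2 * KS),
    hka.trans ((le_max_left _ _).trans (le_max_left _ _)), by positivity,
    fun {k₁ k₂ M₁ M₂ l f₁ f₂ F₁ F₂ m₁ m₂} hk1 hk2 N1 N2 D hd {k₁' k₂' M₁' M₂' m₁' m₂'} hs1 hs2 => ?_⟩
  obtain ⟨κ, hκd⟩ : ∃ κ, κ = min k₁ k₂ := ⟨_, rfl⟩
  have hkκ := le_min hk1 hk2
  rw [← hκd] at hkκ hd ⊢
  have c1 : κ ≤ k₁ := by rw [hκd]; exact min_le_left _ _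
  have c2 : κ ≤ k₂ := by rw [hκd]; exact min_le_right _ _
  have l1 : ka ≤ κ := ((le_max_left _ _).trans (le_max_left _ _)).trans hkκ
  have l2 : kb ≤ κ := ((le_max_right _ _).trans (le_max_left _ _)).trans hkκ
  have l3 : kc ≤ κ := ((le_max_left _ _).trans (le_max_right _ _)).trans hkκ
  have l4 : 12 * (1 + 1 / r ^ 2) ≤ κ := ((le_max_right _ _).trans (le_max_right _ _)).trans hkκ
  have hκ1 : 1 ≤ κ := hka.trans l1
  have hκ0 : 0 < κ := by linarith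
  have hl := D.l0
  have hlr : 0 ≤ l * r ^ 2 := by positivity
  have hκε : ε₂ * κ ≤ κ / 10000 := by
    have := mul_le_mul_of_nonneg_right hε₂1 hκ0.le
    linarith
  have hd' : |k₂ - k₁| + 2 * l * r ^ 2 ≤ κ / 10000 := hd.trans hκε
  have hdd : |k₂ - k₁| ≤ κ / 10000 := by linarith
  have hdd' := abs_le.1 hdd
  have c3 : k₁ ≤ 1.0001 * κ := by
    rcases min_choice k₁ k₂ with h | h
    · rw [hκd, h]; rw [← hκd.trans h]; linarith
    · have : κ = k₂ := hκd.trans h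
      linarith [hdd'.1]
  have c4 : k₂ ≤ 1.0001 * κ := by
    rcases min_choice k₁ k₂ with h | h
    · have : κ = k₁ := hκd.trans h
      linarith [hdd'.2]
    · have : κ = k₂ := hκd.trans h
      linarith
  have hM1 : M₁ * r ^ 2 ≤ ε₁ * k₁ := N1.Ml.trans (mul_le_mul_of_nonneg_right hεε (by linarith))
  have hM2 : M₂ * r ^ 2 ≤ ε₁ * k₂ := N2.Ml.trans (mul_le_mul_of_nonneg_right hεε (by linarith))
  have hM1' : M₁ * r ^ 2 ≤ k₁ / 2000 := by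
    have := mul_le_mul_of_nonneg_right hε₁2 (by linarith : 0 ≤ k₁)
    linarith
  have hM2' : M₂ * r ^ 2 ≤ k₂ / 2000 := by
    have := mul_le_mul_of_nonneg_right hε₁2 (by linarith : 0 ≤ k₂)
    linarith
  obtain ⟨H1, A1⟩ := hHy (l1.trans c1) N1.M0 hM1 N1.cf N1.ne N1.st N1.tb
  obtain ⟨H2', A2⟩ := hHy (l1.trans c2) N2.M0 hM2 N2.cf N2.ne N2.st N2.tb
  -- the constants
  obtain ⟨c, hc⟩ : ∃ c, c = max (cn r k₁ k₂ l) l := ⟨_, rfl⟩
  have hc0 : 0 ≤ c := by rw [hc]; exact hl.trans (le_max_right _ _)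
  have habs := abs_nonneg (k₂ - k₁)
  have hcn1 : cn r k₁ k₂ l ≤ |k₂ - k₁| + l := by
    unfold cn
    have h1 : (|k₂ - k₁| / 2 + l * r ^ 2) * r ^ 2 ≤ (|k₂ - k₁| / 2 + l * r ^ 2) * 1 :=
      mul_le_mul_of_nonneg_left hr21 (by positivity)
    have h2 : l * r ^ 2 ≤ l * 1 := mul_le_mul_of_nonneg_left hr21 hl
    linarith
  have hc1 : c ≤ |k₂ - k₁| + l := by
    rw [hc]; exact max_le hcn1 (by linarith)
  have hlκ : l ≤ κ * (1 / r ^ 2) := by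
    rw [mul_one_div, le_div_iff₀ hr2]
    linarith
  have hc2 : c ≤ κ * (1 + 1 / r ^ 2) := by
    have : κ * (1 + 1 / r ^ 2) = κ + κ * (1 / r ^ 2) := by ring
    linarith
  have hSf : 3 * c / κ ^ 2 ≤ 1 / 4 := by
    rw [div_le_iff₀ (by positivity)]
    have h1 : 12 * (1 + 1 / r ^ 2) * κ ≤ κ * κ := mul_le_mul_of_nonneg_right l4 hκ0.le
    have h2 : 12 * (1 + 1 / r ^ 2) * κ = 12 * (κ * (1 + 1 / r ^ 2)) := by ring
    have h3 : κ ^ 2 = κ * κ := sq κ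
    rw [h3]
    linarith
  have ha0 : a0 Cq r k₁ k₂ l ≤ 14 * (ε₂ * κ) := by
    unfold a0
    have h1 : Cq * r ^ 2 ≤ 1 := by
      refine le_trans ?_ hCqr
      exact mul_le_mul_of_nonneg_left (pow_le_pow_left₀ hr.le hrr 2) hCq
    have h2 : |k₂ - k₁| * (1 + Cq * r ^ 2 / 8) ≤ |k₂ - k₁| * 2 :=
      mul_le_mul_of_nonneg_left (by linarith) habs
    have h3 : 28 * l * r ^ 2 = 14 * (2 * l * r ^ 2) := by ring
    linarith
  have ha0' : a0 Cq r k₁ k₂ l ≤ 28 * (|k₂ - k₁| + l) := by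
    unfold a0
    have h1 : Cq * r ^ 2 ≤ 1 := by
      refine le_trans ?_ hCqr
      exact mul_le_mul_of_nonneg_left (pow_le_pow_left₀ hr.le hrr 2) hCq
    have h2 : |k₂ - k₁| * (1 + Cq * r ^ 2 / 8) ≤ |k₂ - k₁| * 2 :=
      mul_le_mul_of_nonneg_left (by linarith) habs
    have h3 : 28 * l * r ^ 2 ≤ 28 * l * 1 := mul_le_mul_of_nonneg_left hr21 (by positivity)
    linarith
  obtain ⟨Z⟩ : Nonempty (PLift (H2 B hG μ r₀ C b r k₁ k₂ M₁ M₂ Cm Cq l (3 * c / κ ^ 2) f₁ f₂ F₁ F₂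
      m₁ m₂)) := by
    refine ⟨⟨H1, H2', N1.one, N2.one, hl, D.bd, by positivity, fun x hx => ?_⟩⟩
    have h1 := hfd l2 c1 c2 c3 c4 hM1' hM2' N1.cf N2.cf N1.st N2.st N1.tb N2.tb N1.one N2.one hl
      D.bd hd' hl (by rw [hκd]; exact D.tb) x hx
    rw [← hc] at h1
    exact h1
  have Z := Z.down
  have hA : Aq Cq k₁ M₁ * r ^ 2 + 25 / 16 * a0 Cq r k₁ k₂ l ≤ k₁ / 10 := by
    linarith
  obtain ⟨S, hSd⟩ : ∃ S, S = SS Cq Cm r k₁ k₂ l (3 * c / κ ^ 2) := ⟨_, rfl⟩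
  have hS0 : 0 ≤ S := by rw [hSd]; exact Z.SS_nonneg
  have ha00 := Z.a0_nonneg
  have hS1 : S ≤ 1 / 2 := by
    rw [hSd]
    unfold SS
    have h1 : 25 / 16 * a0 Cq r k₁ k₂ l * Cm / k₁ ≤ 1 / 4 := by
      rw [div_le_iff₀ (by linarith)]
      have h2 : a0 Cq r k₁ k₂ l * Cm ≤ 14 * (ε₂ * κ) * Cm := mul_le_mul_of_nonneg_right ha0 hCm
      have h3 : ε₂ * Cm * κ ≤ 1 / 88 * κ := mul_le_mul_of_nonneg_right hε₂2 hκ0.le
      have h4 : 25 / 16 * a0 Cq r k₁ k₂ l * Cm = 25 / 16 * (a0 Cq r k₁ k₂ l * Cm) := by ring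
      have h5 : 14 * (ε₂ * κ) * Cm = 14 * (ε₂ * Cm * κ) := by ring
      linarith
    linarith
  have hS2 : S ≤ KS * (|k₂ - k₁| + l) / κ := by
    rw [hSd]
    unfold SS
    have h1 : 25 / 16 * a0 Cq r k₁ k₂ l * Cm / k₁ ≤ 44 * Cm * (|k₂ - k₁| + l) / κ := by
      refine div_le_div₀ (by positivity) ?_ hκ0 c1
      have h2 : a0 Cq r k₁ k₂ l * Cm ≤ 28 * (|k₂ - k₁| + l) * Cm :=
        mul_le_mul_of_nonneg_right ha0' hCm
      have h3 : 0 ≤ (|k₂ - k₁| + l) * Cm := by positivity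
      linarith
    have h2 : 3 * c / κ ^ 2 ≤ 6 * (|k₂ - k₁| + l) / κ := by
      refine div_le_div₀ (by positivity) (by linarith) hκ0 ?_
      rw [sq]
      exact le_mul_of_one_le_right hκ0.le hκ1
    calc _ ≤ 44 * Cm * (|k₂ - k₁| + l) / κ + 6 * (|k₂ - k₁| + l) / κ := add_le_add h1 h2
      _ = _ := by rw [hKS]; ring
  obtain ⟨δ₁, -, -, -, hδ1, hδ1'⟩ := H1.exists_delta hI hn
  obtain ⟨δ₂, -, -, -, hδ2, hδ2'⟩ := H2'.exists_delta hI hn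
  have hdel := Z.delta_diff hA (hSd ▸ hS1) hn hδ1' hδ2'
  rw [← hSd] at hdel
  obtain ⟨g1, g2⟩ := hdel
  -- the identification of the new states
  have hconv1 : convC μ F₁ F₁ 1 ≠ 0 := by
    rw [conv_one (B := B) (hG := hG) N1.cf]; exact H1.Wne
  have hconv2 : convC μ F₂ F₂ 1 ≠ 0 := by
    rw [conv_one (B := B) (hG := hG) N2.cf]; exact H2'.Wne
  obtain ⟨u1, u1'⟩ := (H1.new_state hδ1').uniq hs1 hr hn hconv1 (fun _ => rfl)
  obtain ⟨u2, u2'⟩ := (H2'.new_state hδ2').uniq hs2 hr hn hconv2 (fun _ => rfl)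
  have hKK : ∀ X : ℝ, 0 ≤ X → 20 * (KS * X) / r ^ 4 ≤ (20 * KS / r ^ 4 + (4 + 2 * KS)) * X := by
    intro X hX
    have h1 : 0 ≤ (4 + 2 * KS) * X := by positivity
    calc 20 * (KS * X) / r ^ 4 = 20 * KS / r ^ 4 * X := by ring
      _ ≤ _ := by linarith
  obtain ⟨X, hX⟩ : ∃ X, X = (|k₂ - k₁| + l) / κ := ⟨_, rfl⟩
  have hX0 : 0 ≤ X := by rw [hX]; positivity
  have hSX : S ≤ KS * X := by rw [hX, mul_div_assoc']; exact hS2
  have eX : (20 * KS / r ^ 4 + (4 + 2 * KS)) * (|k₂ - k₁| + l) / κ =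
      (20 * KS / r ^ 4 + (4 + 2 * KS)) * X := by rw [hX, mul_div_assoc']
  rw [eX]
  refine ⟨?_, fun x hx => ?_, fun a y ha hay => ?_⟩
  · rw [← u1, ← u2]
    have e : k₂ / 2 + 2 * δ₂ - (k₁ / 2 + 2 * δ₁) - (k₂ - k₁) / 2 = 2 * (δ₂ - δ₁) := by ring
    rw [e, abs_mul, abs_two]
    refine le_trans ?_ (hKK X hX0)
    calc 2 * |δ₂ - δ₁| ≤ 2 * (10 * S / r ^ 2) := by linarith
      _ = 20 * S / r ^ 2 := by ring
      _ ≤ 20 * (KS * X) / r ^ 4 := by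
          refine div_le_div₀ (by positivity) (by linarith) hr4 ?_
          have h9 : r ^ 4 = r ^ 2 * r ^ 2 := by ring
          rw [h9]
          exact mul_le_of_le_one_right hr2.le hr21
  · have hx2 : nC ((1 / 2 : ℂ) • x) < r := by
      rw [nC_half]; have := nC_nonneg x; linarith
    have e : m₂' x - m₁' x = 2 * (m₂ ((1 / 2 : ℂ) • x) - m₁ ((1 / 2 : ℂ) • x)) +
        ((H2'.ll x - H1.ll x) - ((δ₂ - δ₁ : ℝ) : ℂ) * qC x) := by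
      rw [← u1' x hx, ← u2' x hx]
      push_cast
      ring
    rw [e]
    refine (norm_add_le _ _).trans ?_
    rw [norm_mul]
    have h1 := D.bd _ hx2
    rw [nC_half] at h1
    have h2 := g2 x hx
    have h3 : ‖(2 : ℂ)‖ = 2 := by norm_num
    rw [h3]
    have h4 : 20 * S * (nC x / r) ^ 4 ≤ (20 * KS / r ^ 4 + (4 + 2 * KS)) * X * nC x ^ 4 := by
      have h5 : 20 * S / r ^ 4 ≤ (20 * KS / r ^ 4 + (4 + 2 * KS)) * X := by
        refine le_trans ?_ (hKK X hX0)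
        exact div_le_div_of_nonneg_right (by linarith) hr4.le
      calc 20 * S * (nC x / r) ^ 4 = 20 * S / r ^ 4 * nC x ^ 4 := by rw [div_pow]; ring
        _ ≤ _ := mul_le_mul_of_nonneg_right h5 (by positivity)
    calc 2 * ‖m₂ ((1 / 2 : ℂ) • x) - m₁ ((1 / 2 : ℂ) • x)‖ +
          ‖(H2'.ll x - H1.ll x) - ((δ₂ - δ₁ : ℝ) : ℂ) * qC x‖
        ≤ 2 * (l * (nC x / 2) ^ 4) + (20 * KS / r ^ 4 + (4 + 2 * KS)) * X * nC x ^ 4 := by
          linarith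
      _ = _ := by ring
  · -- the tube
    obtain ⟨u, hu⟩ : ∃ u : (Mat N)ˣ, u = uE B (Complex.I • rl a) * uG y := ⟨_, rfl⟩
    obtain ⟨κ', hκ'⟩ : ∃ κ', κ' = min k₁' k₂' := ⟨_, rfl⟩
    obtain ⟨W₁, hW₁⟩ : ∃ W : ℝ, W = ∫ z : G, (f₁ z) ^ 2 ∂μ := ⟨_, rfl⟩
    obtain ⟨W₂, hW₂⟩ : ∃ W : ℝ, W = ∫ z : G, (f₂ z) ^ 2 ∂μ := ⟨_, rfl⟩
    have p1 : 0 < W₁ := by rw [hW₁]; exact H1.hW
    have p2 : 0 < W₂ := by rw [hW₂]; exact H2'.hW
    obtain ⟨E, hE⟩ : ∃ E, E = Real.exp (κ' / 2 * (1.01 * nE a ^ 2 - 0.99 * min (nN y) r ^ 2)) :=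
      ⟨_, rfl⟩
    have hE0 : 0 < E := by rw [hE]; exact Real.exp_pos _
    rw [← hu, ← hκ', ← hE, ← hW₁, ← hW₂]
    have hδb : ∀ {δ η : ℝ}, |δ| ≤ 3 / 2 * η / r ^ 2 → η ≤ 1 / 2 → |2 * δ| ≤ 3 / (2 * r ^ 2) := by
      intro δ η h1 h2
      rw [abs_mul, abs_two]
      have h3 : 3 / 2 * η / r ^ 2 ≤ 3 / 2 * (1 / 2) / r ^ 2 := by gcongr
      have h4 : 3 / (2 * r ^ 2) = 2 * (3 / 2 * (1 / 2) / r ^ 2) := by field_simp
      linarith
    have hκκ : |κ' - κ / 2| ≤ 3 / (2 * r ^ 2) := by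
      have e : κ / 2 = min (k₁ / 2) (k₂ / 2) := by
        rw [hκd, min_div_div_right (by norm_num : (0 : ℝ) ≤ 2)]
      rw [e, hκ']
      refine (abs_min_sub_min_le_max _ _ _ _).trans (max_le ?_ ?_)
      · rw [← u1, add_sub_cancel_left]
        exact hδb hδ1 H1.het
      · rw [← u2, add_sub_cancel_left]
        exact hδb hδ2 H2'.het
    have hTD : TB B r κ c (fun u => F₂ u - F₁ u) := by
      rw [hc]
      exact TB_diff hgr N1.st N2.st N1.one N2.one hκ0 c1 c3 hM1' hl D.bd hd'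
        (by rw [hκd]; exact D.tb)
    have hT1 : TB B r κ 1 F₁ := by
      have := TB.of_state hgr hκ0.le c1 c3 hM1' N1.st.nearS N1.tb
      rwa [N1.one, norm_one] at this
    have hT2 : TB B r κ 1 F₂ := by
      have := TB.of_state hgr hκ0.le c2 c4 hM2' N2.st.nearS N2.tb
      rwa [N2.one, norm_one] at this
    have hF1 : ‖F₁ 1‖ = 1 := by rw [N1.one, norm_one]
    have hM1'' : M₁ * r ^ 2 ≤ k₁ / 1000 := by linarith
    have hfD : CF (fun x => f₂ x - f₁ x) (fun u => F₂ u - F₁ u) := cf_sub N1.cf N2.cf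
    have b1 := htc l3 c1 c3 hκκ hM1'' N1.cf N1.st.nearS hF1 hc0 zero_le_one hfD N2.cf hTD hT2 a y
      ha hay
    have b2 := htc l3 c1 c3 hκκ hM1'' N1.cf N1.st.nearS hF1 zero_le_one hc0 N1.cf hfD hT1 hTD a y
      ha hay
    have b3 := htc l3 c1 c3 hκκ hM1'' N1.cf N1.st.nearS hF1 zero_le_one zero_le_one N2.cf N2.cf
      hT2 hT2 a y ha hay
    rw [← hu, ← hE, ← hW₁] at b1 b2 b3
    obtain ⟨A₁, hA₁⟩ : ∃ A : ℂ, A = convC μ F₁ F₁ u := ⟨_, rfl⟩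
    obtain ⟨A₂, hA₂⟩ : ∃ A : ℂ, A = convC μ F₂ F₂ u := ⟨_, rfl⟩
    have hAA : ‖A₂ - A₁‖ ≤ 1 / κ ^ 2 * (2 * c) * E * W₁ := by
      rw [hA₁, hA₂, convC_sub μ N1.cf.hol N2.cf.hol u]
      refine (norm_add_le _ _).trans ((add_le_add b1 b2).trans (le_of_eq ?_))
      ring
    rw [← hA₂] at b3
    rw [← hA₁, ← hA₂]
    have hWd : |W₂ - W₁| ≤ S * W₁ := by
      rw [hW₁, hW₂, hSd]
      exact Z.W_diff hA
    have hW12 : W₁ / 2 ≤ W₂ := by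
      have h8 := (abs_le.1 hWd).1
      have h9 : S * W₁ ≤ 1 / 2 * W₁ := mul_le_mul_of_nonneg_right hS1 p1.le
      linarith
    have q1 : (W₁ : ℂ) ≠ 0 := Complex.ofReal_ne_zero.2 p1.ne'
    have q2 : (W₂ : ℂ) ≠ 0 := Complex.ofReal_ne_zero.2 p2.ne'
    have e : A₂ / (W₂ : ℂ) - A₁ / (W₁ : ℂ) = (A₂ - A₁) / W₁ -
        A₂ / W₁ * (((W₂ - W₁ : ℝ) : ℂ) / W₂) := by
      push_cast
      field_simp
      ring
    rw [e]
    refine (norm_sub_le _ _).trans ?_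
    rw [norm_div, norm_mul, norm_div, norm_div, Complex.norm_real, Complex.norm_real,
      Complex.norm_real, Real.norm_eq_abs, Real.norm_eq_abs, Real.norm_eq_abs, abs_of_pos p1,
      abs_of_pos p2]
    have d1 : ‖A₂ - A₁‖ / W₁ ≤ 1 / κ ^ 2 * (2 * c) * E := by
      rw [div_le_iff₀ p1]; exact hAA
    have d2 : ‖A₂‖ / W₁ ≤ 1 / κ ^ 2 * E := by
      rw [div_le_iff₀ p1]
      calc ‖A₂‖ ≤ 1 / κ ^ 2 * 1 * 1 * E * W₁ := b3
        _ = _ := by ring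
    have d3 : |W₂ - W₁| / W₂ ≤ 2 * S := by
      rw [div_le_iff₀ p2]
      calc |W₂ - W₁| ≤ S * W₁ := hWd
        _ ≤ S * (2 * W₂) := mul_le_mul_of_nonneg_left (by linarith) hS0
        _ = _ := by ring
    have hκ2 : 0 < κ ^ 2 := by positivity
    have d4 : ‖A₂‖ / W₁ * (|W₂ - W₁| / W₂) ≤ 1 / κ ^ 2 * E * (2 * S) :=
      mul_le_mul d2 d3 (by positivity) (by positivity)
    have d5 : 1 / κ ^ 2 * (2 * c) ≤ 2 * X := by
      rw [hX]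
      calc 1 / κ ^ 2 * (2 * c) = 2 * (c / κ ^ 2) := by ring
        _ ≤ 2 * ((|k₂ - k₁| + l) / κ) := by
            refine mul_le_mul_of_nonneg_left (div_le_div₀ (by positivity) hc1 hκ0 ?_) (by norm_num)
            rw [sq]
            exact le_mul_of_one_le_right hκ0.le hκ1
    have d6 : 1 / κ ^ 2 * (2 * S) ≤ 2 * (KS * X) := by
      have h1 : 1 / κ ^ 2 ≤ 1 := by
        rw [div_le_one hκ2]; exact one_le_pow₀ hκ1
      calc 1 / κ ^ 2 * (2 * S) ≤ 1 * (2 * S) := mul_le_mul_of_nonneg_right h1 (by positivity)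
        _ ≤ _ := by linarith
    have d7 : 0 ≤ 20 * KS / r ^ 4 * X := by positivity
    calc ‖A₂ - A₁‖ / W₁ + ‖A₂‖ / W₁ * (|W₂ - W₁| / W₂)
        ≤ 1 / κ ^ 2 * (2 * c) * E + 1 / κ ^ 2 * E * (2 * S) := add_le_add d1 d4
      _ = (1 / κ ^ 2 * (2 * c) + 1 / κ ^ 2 * (2 * S)) * E := by ring
      _ ≤ (2 * X + 2 * (KS * X)) * E := mul_le_mul_of_nonneg_right (add_le_add d5 d6) hE0.le
      _ ≤ ((20 * KS / r ^ 4 + (4 + 2 * KS)) * X) * E := by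
          refine mul_le_mul_of_nonneg_right ?_ hE0.le
          linarith

variable {hG : IsClosed (G : Set (UN N))}
variable {r₀ C : ℝ} {b : (Fin n → ℂ) → (Fin n → ℂ) → (Fin n → ℂ)}
variable {Cm Cq Cu Cs Cp Cy cA : ℝ}

/-- **the hypotheses of the second order estimates** -/
theorem _root_.Pool.Agent.N991.MK.Cst2.exists_Hy2N (T2 : Cst2 B hG r₀ C b Cq Cu Cs Cp Cy) (μ : Measure G)
    [IsProbabilityMeasure μ] [μ.IsMulLeftInvariant] [μ.IsMulRightInvariant] [μ.IsInvInvariant]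
    (hI : IsoG B) (hn : 0 < n)
    (hcA : ∀ x : Fin n → ℝ, ∑ a, ‖LX B x * B.X a - B.X a * LX B x‖ ^ 2 = cA * nE x ^ 2) :
    ∃ Cm r₁ ε₁ : ℝ, 0 < Cm ∧ 0 < r₁ ∧ r₁ ≤ r₀ ∧ 0 < ε₁ ∧ ε₁ ≤ 1 / 1000 ∧
      ∀ r : ℝ, 0 < r → r ≤ r₁ → GoodR B r ∧
      ∃ k₀ : ℝ, 3 ≤ k₀ ∧ 16 / r ^ 2 ≤ k₀ ∧ ∀ {k M : ℝ} {f : G → ℝ} {F : (Mat N)ˣ → ℂ}
        {m : (Fin n → ℂ) → ℂ}, k₀ ≤ k → 0 ≤ M → M * r ^ 2 ≤ ε₁ * k → CF f F → F 1 ≠ 0 →
        St B r k M F m → Tube B r k F →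
        Hy2 B hG μ r₀ C b r k M Cm Cq Cu Cs Cp Cy cA f F m := by
  have T := T2.T
  obtain ⟨Cm, hCm, hmom⟩ := moments (B := B) μ
  obtain ⟨rg, hrg, hgood⟩ := exists_goodR B hG
  have hr₀ := T.h.pos
  have hCq := T.hCq
  obtain ⟨S, hS⟩ : ∃ S : ℝ, S = min (1 / 10) (1 / (4 * (Cm + 1))) := ⟨_, rfl⟩
  have hS0 : 0 < S := by rw [hS]; positivity
  have hS1 : S ≤ 1 / 10 := by rw [hS]; exact min_le_left _ _
  have hS2 : S * Cm ≤ 1 / 4 := by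
    have h1 : S ≤ 1 / (4 * (Cm + 1)) := by rw [hS]; exact min_le_right _ _
    have h2 : S * Cm ≤ 1 / (4 * (Cm + 1)) * Cm := mul_le_mul_of_nonneg_right h1 hCm.le
    refine h2.trans ?_
    rw [one_div_mul_eq_div, div_le_div_iff₀ (by positivity) (by norm_num)]
    linarith
  refine ⟨Cm, min (min r₀ rg) (min 1 (S / (Cq + 1))), min (1 / 1000) (S / 100), hCm,
    by positivity, (min_le_left _ _).trans (min_le_left _ _), by positivity, min_le_left _ _,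
    fun r hr hrr => ?_⟩
  obtain ⟨ε, hεd⟩ : ∃ ε, ε = min (1 / 1000) (S / 100) := ⟨_, rfl⟩
  have hε1 : ε ≤ 1 / 1000 := by rw [hεd]; exact min_le_left _ _
  have hε2 : ε ≤ S / 100 := by rw [hεd]; exact min_le_right _ _
  have q1 : r ≤ r₀ := hrr.trans ((min_le_left _ _).trans (min_le_left _ _))
  have q2 : r ≤ rg := hrr.trans ((min_le_left _ _).trans (min_le_right _ _))
  have q3 : r ≤ 1 := hrr.trans ((min_le_right _ _).trans (min_le_left _ _))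
  have q4 : r ≤ S / (Cq + 1) := hrr.trans ((min_le_right _ _).trans (min_le_right _ _))
  have hgr : GoodR B r := hgood r hr q2
  refine ⟨hgr, ?_⟩
  rw [← hεd]
  have q5 : Cq * r ^ 2 ≤ S := by
    have h1 : Cq * r ≤ S := by
      have h2 : (Cq + 1) * r ≤ S := by
        rw [le_div_iff₀ (by positivity)] at q4
        linarith
      linarith
    have h3 : Cq * r ^ 2 = (Cq * r) * r := by ring
    rw [h3]
    have h4 : 0 ≤ Cq * r := by positivity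
    exact (mul_le_of_le_one_right h4 q3).trans h1
  have hr2 : 0 < r ^ 2 := by positivity
  obtain ⟨k1, hk1, hfar⟩ := far_part μ hgr
  obtain ⟨k2, hk2, hptw⟩ := far_ptw μ hgr
  refine ⟨max (max k1 k2) (max 3 (16 / r ^ 2)), (le_max_left _ _).trans (le_max_right _ _),
    (le_max_right _ _).trans (le_max_right _ _), fun {k M f F m} hk hM hMr hf hF1 hs ht => ?_⟩
  have l1 : k1 ≤ k := ((le_max_left _ _).trans (le_max_left _ _)).trans hk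
  have l2 : k2 ≤ k := ((le_max_right _ _).trans (le_max_left _ _)).trans hk
  have l4 : 3 ≤ k := ((le_max_left _ _).trans (le_max_right _ _)).trans hk
  have l5 : 16 / r ^ 2 ≤ k := ((le_max_right _ _).trans (le_max_right _ _)).trans hk
  have hk0 : 0 < k := by linarith
  have hM1 : M * r ^ 2 ≤ k / 1000 := by
    have := mul_le_mul_of_nonneg_right hε1 hk0.le
    linarith
  have hns := hs.nearS
  have hfc : Continuous f := hf.cont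
  have hW : 0 < ∫ z : G, (f z) ^ 2 ∂μ := W_pos μ hgr l5 hM1 hf hns hF1
  have hinp : Inp B μ r k Cm f F := by
    refine ⟨hmom hgr l5 hM1 hf hns, fun x hx => hfar l1 hM1 hf hns ht x hx.le, fun x hx z hz => ?_⟩
    exact hptw l2 hM1 hf hns ht x hx z hz.le
  have hAq : Aq Cq k M * r ^ 2 ≤ S * k := by
    unfold Aq
    have h1 : Cq * r ^ 2 * k ≤ S * k := mul_le_mul_of_nonneg_right q5 hk0.le
    have h2 : ε * k ≤ S / 100 * k := mul_le_mul_of_nonneg_right hε2 hk0.le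
    have h3 : (Cq / 8 * k + 27 * M) * (25 / 16) * r ^ 2 =
        25 / 128 * (Cq * r ^ 2 * k) + 675 / 16 * (M * r ^ 2) := by ring
    rw [h3]
    have h4 : 0 ≤ S * k := by positivity
    linarith
  have hAr : Aq Cq k M * r ^ 2 ≤ k / 10 := by
    refine hAq.trans ?_
    have := mul_le_mul_of_nonneg_right hS1 hk0.le
    linarith
  have het : eta Cq Cm r k M ≤ 1 / 2 := by
    unfold eta
    have h1 : Aq Cq k M * r ^ 2 * Cm / k ≤ 1 / 4 := by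
      rw [div_le_iff₀ hk0]
      have h2 := mul_le_mul_of_nonneg_right hAq hCm.le
      have h3 := mul_le_mul_of_nonneg_right hS2 hk0.le
      calc Aq Cq k M * r ^ 2 * Cm ≤ S * k * Cm := h2
        _ = S * Cm * k := by ring
        _ ≤ _ := h3
    have h4 : 2 / k ^ 2 ≤ 1 / 4 := by
      rw [div_le_div_iff₀ (by positivity) (by norm_num)]
      have h5 : (3 : ℝ) ^ 2 ≤ k ^ 2 := pow_le_pow_left₀ (by norm_num) l4 2
      linarith
    linarith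
  have H : Hy B hG μ r₀ C b r k M Cm Cq f F m :=
    ⟨hs, hf, hF1, T.h, q1, hr, T.hl, hM, hk0, hinp, T.hq, T.hCq, hCm.le, hAr, het, hW⟩
  have Z : Hz B hG μ r₀ C b r k M Cm Cq Cu Cs Cp cA f F m :=
    ⟨H, hI, hn, T.hCu, T.hu, T.hCs, T.hsh, T.hCp, T.hp, T.hps, hcA⟩
  exact ⟨Z, T2.hCy, T2.h5, T2.h5s⟩

variable {μ : Measure G} [IsProbabilityMeasure μ] [μ.IsMulLeftInvariant] [μ.IsMulRightInvariant]
  [μ.IsInvInvariant]

variable (μ) in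
/-- **the coupling after one convolution square, to the next order** -/
theorem two_KN (hG : IsClosed (G : Set (UN N))) (hI : IsoG B) (hn : 0 < n)
    (hcA : ∀ x : Fin n → ℝ, ∑ a, ‖LX B x * B.X a - B.X a * LX B x‖ ^ 2 = cA * nE x ^ 2)
    (h6 : H6 B) (hcas : CasPair B cA) :
    ∃ r₁ ε₁ : ℝ, 0 < r₁ ∧ 0 < ε₁ ∧ ε₁ ≤ 1 / 1000 ∧ ∀ r : ℝ, 0 < r → r ≤ r₁ →
      ∃ k₀ K : ℝ, 1 ≤ k₀ ∧ 0 ≤ K ∧ ∀ {k M : ℝ} {f : G → ℝ} {F : (Mat N)ˣ → ℂ}
        {m : (Fin n → ℂ) → ℂ}, k₀ ≤ k → 0 ≤ M → M * r ^ 2 ≤ ε₁ * k → CF f F → F 1 ≠ 0 →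
        St B r k M F m → Tube B r k F →
        ∀ {k' M' : ℝ} {m' : (Fin n → ℂ) → ℂ}, St B r k' M' (convC μ F F) m' →
        |k' - (k / 2 - cA / 48 + (cA ^ 2 / 2304 + 3 * qb n m) / k)| ≤ K * (1 + M) / k ^ 2 := by
  obtain ⟨r₀, C, b, Cq, Cu, Cs, Cp, Cy, T⟩ := exists_Cst2 B hG
  obtain ⟨C6, hC6, h6'⟩ := h6 r₀ C b T.T.h
  obtain ⟨Cm, r₁, ε₁, hCm, hr₁, hr₁0, hε₁, hε₁', hst⟩ := T.exists_Hy2N μ hI hn hcA
  have hcA0 : 0 ≤ cA := by
    have h1 := hcA (Pi.single (⟨0, hn⟩ : Fin n) (1 : ℝ))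
    rw [nE_single, one_pow, mul_one] at h1
    rw [← h1]
    exact Finset.sum_nonneg fun a _ => sq_nonneg _
  refine ⟨r₁, ε₁, hr₁, hε₁, hε₁', fun r hr hrr => ?_⟩
  obtain ⟨-, k₀, hk3, hk16, hH⟩ := hst r hr hrr
  have hCu := T.T.hCu
  have hCp := T.T.hCp
  have hCy := T.hCy
  have hs := sN_nonneg N
  refine ⟨k₀, KK n cA (3 / (4 * r ^ 2)) (E1c Cm Cu Cp r) (A2c Cm Cy r)
    (16 * n ^ 4 * A4c N Cm Cu Cp r) (A5c n Cm Cp Cy C6 r), by linarith, ?_, ?_⟩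
  · have p1 : 0 ≤ kap2 Cu Cp r := by unfold kap2; positivity
    have p2 : 0 ≤ E1c Cm Cu Cp r := by unfold E1c; positivity
    have p3 : 0 ≤ A2c Cm Cy r := by unfold A2c; positivity
    have p4 : 0 ≤ A4c N Cm Cu Cp r := by unfold A4c; positivity
    have p5 : 0 ≤ a6 Cp Cy C6 := by unfold a6; positivity
    have p6 : 0 ≤ A5c n Cm Cp Cy C6 r := by unfold A5c; positivity
    unfold KK
    positivity
  · intro k M f F m hk hM hMr hf hF10 hst' ht k' M' m' hs'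
    have Y := hH hk hM hMr hf hF10 hst' ht
    have H := Y.Z.H
    have hk1 : 1 ≤ k := by linarith
    have hMr' : M * r ^ 2 ≤ k / 1000 := by
      have := mul_le_mul_of_nonneg_right hε₁' (show 0 ≤ k by linarith)
      linarith
    have S : Hy6 B hG μ r₀ C b r k M Cm Cq Cu Cs Cp Cy C6 (2 * M / r ^ 2) cA f F m
        (N988.MK.m4 m) :=
      ⟨Y, hC6, h6', hst'.qrt hf.hol H.h1 hr hM⟩
    obtain ⟨δ, κ, d1, d2, d3, d4⟩ := H.exists_delta hI hn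
    have hnew := Hy.new_state H d4
    have hF1 : convC μ F F 1 ≠ 0 := by
      rw [N988.MK.conv_one (B := B) (hG := hG) hf]
      exact Complex.ofReal_ne_zero.2 H.hW.ne'
    have hk' : k' = k / 2 + 2 * δ :=
      (St.uniq hs' hnew hr hn hF1 fun x => rfl).1
    have hfin := K_one S hcas hk1 hMr' hcA0 d1 d2 d3 d4
    have e : k' - (k / 2 - cA / 48 + (cA ^ 2 / 2304 + 3 * qb n m) / k) =
        2 * δ - (-(cA / 48) + (cA ^ 2 / 2304 + 3 * qb n m) / k) := by rw [hk']; ring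
    rw [e]
    exact hfin

variable (μ) in
/-- **the trace of the quartic part after one convolution square** -/
theorem two_QN (hG : IsClosed (G : Set (UN N))) (hI : IsoG B) (hn : 0 < n)
    (hcA : ∀ x : Fin n → ℝ, ∑ a, ‖LX B x * B.X a - B.X a * LX B x‖ ^ 2 = cA * nE x ^ 2)
    (h6 : H6 B) (hcas : CasPair B cA) :
    ∃ r₁ ε₁ : ℝ, 0 < r₁ ∧ 0 < ε₁ ∧ ε₁ ≤ 1 / 1000 ∧ ∀ r : ℝ, 0 < r → r ≤ r₁ →
      ∃ k₀ K : ℝ, 1 ≤ k₀ ∧ 0 ≤ K ∧ ∀ {k M : ℝ} {f : G → ℝ} {F : (Mat N)ˣ → ℂ}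
        {m : (Fin n → ℂ) → ℂ}, k₀ ≤ k → 0 ≤ M → M * r ^ 2 ≤ ε₁ * k → CF f F → F 1 ≠ 0 →
        St B r k M F m → Tube B r k F →
        ∀ {k' M' : ℝ} {m' : (Fin n → ℂ) → ℂ}, St B r k' M' (convC μ F F) m' →
        |qb n m' - (qb n m / 8 - 7 / 55296 * cA ^ 2)| ≤ K * (1 + M) / k := by
  obtain ⟨r₀, C, b, Cq, Cu, Cs, Cp, Cy, T⟩ := exists_Cst2 B hG
  obtain ⟨C6, hC6, h6'⟩ := h6 r₀ C b T.T.h
  obtain ⟨Cm, r₁, ε₁, hCm, hr₁, hr₁0, hε₁, hε₁', hst⟩ := T.exists_Hy2N μ hI hn hcA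
  have hcA0 : 0 ≤ cA := by
    have h1 := hcA (Pi.single (⟨0, hn⟩ : Fin n) (1 : ℝ))
    rw [nE_single, one_pow, mul_one] at h1
    rw [← h1]
    exact Finset.sum_nonneg fun a _ => sq_nonneg _
  refine ⟨r₁, ε₁, hr₁, hε₁, hε₁', fun r hr hrr => ?_⟩
  obtain ⟨-, k₀, hk3, hk16, hH⟩ := hst r hr hrr
  obtain ⟨K, hK0, hK⟩ := exists_second B hG μ b r₀ C r Cm Cq Cu Cs Cp cA C6 hr hCm.le T.T.hCu
    T.T.hCs T.T.hCp hcA0 hC6 (six_of_H6 h6')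
  refine ⟨k₀, 3 * n * (K + 22 / r ^ 2 + 204 / r ^ 6), by linarith, by positivity, ?_⟩
  intro k M f F m hk hM hMr hf hF10 hst' ht k' M' m' hs'
  have Y := hH hk hM hMr hf hF10 hst' ht
  have Z := Y.Z
  have H := Z.H
  have hk1 : 1 ≤ k := by linarith
  obtain ⟨δ, κ, d1, d2, d3, d4⟩ := H.exists_delta hI hn
  have hnew := Hy.new_state H d4
  have hF1 : convC μ F F 1 ≠ 0 := by
    rw [N988.MK.conv_one (B := B) (hG := hG) hf]
    exact Complex.ofReal_ne_zero.2 H.hW.ne'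
  have hmm := m4_congr hr (St.uniq hs' hnew hr hn hF1 fun x => rfl).2
  rw [qb_congr hmm]
  have h1 : ∀ x : Fin n → ℝ, nE x = 1 → ‖m4 (fun x => 2 * m ((1 / 2 : ℂ) • x) +
      (Z.H.ll x - δ * qC x)) (rl x) - m4 m (rl x) / 8 + ((7 / 46080 * t4R B x : ℝ) : ℂ)‖ ≤
      (K + 22 / r ^ 2 + 204 / r ^ 6) * (1 + M) / k := fun x hx =>
    Z.new_m4 d4 (hk16.trans hk) (fun x hx s a1 a2 a3 => hK Z hk1 x hx s a1 a2 a3) hx
  have h2 := qb_of_pt hn hcas (pt_of_unit h1)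
  refine h2.trans (le_of_eq ?_)
  ring

end

end Pool.Agent.N988.MK
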