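import Mathlib
import Pool.Agent.N988.MK.Nopos

/-!
# The convolution square of a state which is not necessarily positive
-/

open MeasureTheory Filter Metric Asymptotics Matrix
open scoped Matrix.Norms.Frobenius Topology ContDiff
open Pool.Agent.H906R3.YM Pool.Agent.W793.YM Pool.Agent.TH618.YM Pool.Agent.N984.TW
open Pool.Agent.N991.MK

namespace Pool.Agent.N988.MK

set_option linter.unusedSectionVars false

noncomputable section

variable {N n : ℕ} {G : Subgroup (UN N)} {B : Frame G n}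
variable [CompactSpace G] [MeasurableSpace G] [BorelSpace G]

variable (B) in
/-- **the one-step theorem, without positivity** -/
theorem step_N (μ : Measure G) [IsProbabilityMeasure μ] [μ.IsMulLeftInvariant]
    [μ.IsMulRightInvariant] [μ.IsInvInvariant] (hG : IsClosed (G : Set (UN N))) (hI : IsoG B)
    (hn : 0 < n) :
    ∃ r₁ ε₁ : ℝ, 0 < r₁ ∧ r₁ ≤ 1 ∧ 0 < ε₁ ∧ ε₁ ≤ 1 / 2000 ∧ ∀ ε : ℝ, 0 < ε → ε ≤ ε₁ →
      ∀ r : ℝ, 0 < r → r ≤ r₁ → GoodR B r ∧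
      ∃ k₀ K : ℝ, 1 ≤ k₀ ∧ 0 ≤ K ∧ ∀ {k M : ℝ} {f : G → ℝ} {F : (Mat N)ˣ → ℂ}
        {m : (Fin n → ℂ) → ℂ}, k₀ ≤ k → NR B r ε k M f F m →
        ∃ (k' M' : ℝ) (m' : (Fin n → ℂ) → ℂ),
          |k' - k / 2| ≤ K ∧ 0 ≤ M' ∧ M' ≤ M / 8 + K ∧ M' * r ^ 2 ≤ ε * k' ∧
          St B r k' M' (convC μ F F) m' ∧ Tube B r k' (convC μ F F) := by
  obtain ⟨r₀, C, b, Cm, Cq, r₁, ε₁, hr₁, hr₁1, hε₁, hε₁2, hCm, hCq, hCqr, hHy⟩ := exists_HyN B hG μ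
  refine ⟨r₁, ε₁, hr₁, hr₁1, hε₁, hε₁2, fun ε hε0 hε r hr hrr => ?_⟩
  obtain ⟨hgr, ka, hka, hHy⟩ := hHy r hr hrr
  refine ⟨hgr, ?_⟩
  have hε1 : ε ≤ 1 / 1000 := by linarith
  have hr2 : 0 < r ^ 2 := by positivity
  have hr4 : 0 < r ^ 4 := by positivity
  have hr1 : r ≤ 1 := hrr.trans hr₁1
  have hr21 : r ^ 2 ≤ 1 := pow_le_one₀ hr.le hr1
  obtain ⟨k3, hk3, htube⟩ := tube_conv hG μ hgr (3 / (2 * r ^ 2)) (by positivity)
  obtain ⟨K, hK⟩ : ∃ K : ℝ, K = 3 / (2 * r ^ 2) + 3 / (2 * r ^ 4) := ⟨_, rfl⟩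
  have hK0 : 0 ≤ K := by rw [hK]; positivity
  refine ⟨max (max ka k3) (max 1 (8 / (r ^ 2 * ε))), K,
    hka.trans ((le_max_left _ _).trans (le_max_left _ _)), hK0,
    fun {k M f F m} hk hN => ?_⟩
  have l1 : ka ≤ k := ((le_max_left _ _).trans (le_max_left _ _)).trans hk
  have l3 : k3 ≤ k := ((le_max_right _ _).trans (le_max_left _ _)).trans hk
  have l6 : 8 / (r ^ 2 * ε) ≤ k := ((le_max_right _ _).trans (le_max_right _ _)).trans hk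
  have hk1' : 1 ≤ k := hka.trans l1
  have hk0 : 0 < k := by linarith
  have hM := hN.M0
  have hMr := hN.Ml
  have hM1 : M * r ^ 2 ≤ k / 1000 := by
    have := mul_le_mul_of_nonneg_right hε1 hk0.le
    linarith
  have hM2 : M * r ^ 2 ≤ ε₁ * k := hMr.trans (mul_le_mul_of_nonneg_right hε hk0.le)
  have hs := hN.st
  obtain ⟨H, -⟩ := hHy l1 hM hM2 hN.cf hN.ne hN.st hN.tb
  have het := H.het
  obtain ⟨δ, -, -, -, hδ1, hδ2⟩ := H.exists_delta hI hn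
  have het0 := H.eta_nonneg
  have hnew := Hy.new_state H hδ2
  have hδ4 : 2 * |δ| ≤ 3 / (2 * r ^ 2) := by
    have h1 : 3 / 2 * eta Cq Cm r k M / r ^ 2 ≤ 3 / 2 * (1 / 2) / r ^ 2 := by gcongr
    have h2 := hδ1.trans h1
    have h3 : 3 / (2 * r ^ 2) = 2 * (3 / 2 * (1 / 2) / r ^ 2) := by field_simp
    rw [h3]
    linarith
  have hM'0 : 0 ≤ M / 8 + 3 * eta Cq Cm r k M / r ^ 4 := by positivity
  have hM'1 : M / 8 + 3 * eta Cq Cm r k M / r ^ 4 ≤ M / 8 + 3 / (2 * r ^ 4) := by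
    have h1 : 3 * eta Cq Cm r k M / r ^ 4 ≤ 3 * (1 / 2) / r ^ 4 := by gcongr
    have h3 : 3 / (2 * r ^ 4) = 3 * (1 / 2) / r ^ 4 := by field_simp
    rw [h3]
    linarith
  have hk'1 : |k / 2 + 2 * δ - k / 2| ≤ 3 / (2 * r ^ 2) := by
    have : k / 2 + 2 * δ - k / 2 = 2 * δ := by ring
    rw [this, abs_mul, abs_two]
    exact hδ4
  have hM'2 : (M / 8 + 3 * eta Cq Cm r k M / r ^ 4) * r ^ 2 ≤ ε * (k / 2 + 2 * δ) := by
    have h1 : (M / 8 + 3 * eta Cq Cm r k M / r ^ 4) * r ^ 2 ≤ M * r ^ 2 / 8 + 3 / (2 * r ^ 2) := by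
      calc (M / 8 + 3 * eta Cq Cm r k M / r ^ 4) * r ^ 2 ≤ (M / 8 + 3 / (2 * r ^ 4)) * r ^ 2 :=
            mul_le_mul_of_nonneg_right hM'1 hr2.le
        _ = _ := by field_simp
    have h2 : -(2 * δ) ≤ 3 / (2 * r ^ 2) := by
      have := neg_abs_le δ
      linarith [abs_nonneg δ]
    have h3 : 8 / r ^ 2 ≤ ε * k := by
      rw [div_le_iff₀ (by positivity)] at l6
      rw [div_le_iff₀ hr2]
      linarith
    have h4 : ε * (-(2 * δ)) ≤ 3 / (2 * r ^ 2) := by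
      have h5 : 0 ≤ 3 / (2 * r ^ 2) := by positivity
      have h6 : ε * (-(2 * δ)) ≤ ε * (3 / (2 * r ^ 2)) := mul_le_mul_of_nonneg_left h2 hε0.le
      have h7 : ε * (3 / (2 * r ^ 2)) ≤ 1 * (3 / (2 * r ^ 2)) :=
        mul_le_mul_of_nonneg_right (by linarith) h5
      linarith
    have h5 : 3 / (2 * r ^ 2) = 3 / 16 * (8 / r ^ 2) := by field_simp; ring
    rw [h5] at h1 h4
    have h6 : ε * (k / 2 + 2 * δ) = ε * k / 2 - ε * (-(2 * δ)) := by ring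
    rw [h6]
    linarith
  have hM'3 : (M / 8 + 3 * eta Cq Cm r k M / r ^ 4) * r ^ 2 ≤ (k / 2 + 2 * δ) / 1000 := by
    have h1 : 0 ≤ k / 2 + 2 * δ := by
      have h2 : 0 ≤ (M / 8 + 3 * eta Cq Cm r k M / r ^ 4) * r ^ 2 := by positivity
      exact nonneg_of_mul_nonneg_right (h2.trans hM'2) hε0
    refine hM'2.trans ?_
    have := mul_le_mul_of_nonneg_right hε1 h1
    linarith
  have e1 : 3 / (2 * r ^ 2) ≤ K := by rw [hK]; linarith [show 0 ≤ 3 / (2 * r ^ 4) by positivity]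
  have e2 : 3 / (2 * r ^ 4) ≤ K := by rw [hK]; linarith [show 0 ≤ 3 / (2 * r ^ 2) by positivity]
  exact ⟨k / 2 + 2 * δ, M / 8 + 3 * eta Cq Cm r k M / r ^ 4, _, hk'1.trans e1, hM'0,
    hM'1.trans (by linarith), hM'2, hnew, htube l3 hk'1 hM1 hM'3 hN.cf hs.nearS hN.tb hnew.nearS⟩

end

end Pool.Agent.N988.MK
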