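import Mathlib
import Pool.Agent.N991.MK.Tan1

/-!
# Operations on tangent vectors of states
-/

open MeasureTheory Filter Metric Asymptotics Matrix
open scoped Matrix.Norms.Frobenius Topology ContDiff
open Pool.Agent.H906R3.YM Pool.Agent.W793.YM Pool.Agent.TH618.YM Pool.Agent.N984.TW
open Pool.Agent.N991.MK

namespace Pool.Agent.N988.MK

set_option linter.unusedSectionVars false

noncomputable section

variable {N n : ℕ} {G : Subgroup (UN N)} {B : Frame G n}
variable {r ε k M a lam L t : ℝ} {f g : G → ℝ} {F F' H H' : (Mat N)ˣ → ℂ}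
  {m η : (Fin n → ℂ) → ℂ}

/-- the extension of a class function is unique on the translates of the exponentials -/
theorem cf_extR [CompactSpace G] [MeasurableSpace G] [BorelSpace G]
    (hG : IsClosed (G : Set (UN N))) {f : G → ℝ} {F F' : (Mat N)ˣ → ℂ}
    (h : CF f F) (h' : CF f F') (x : Fin n → ℂ) (y : G) :
    F (uE B x * uG y) = F' (uE B x * uG y) := by
  set a := reP x
  set b := imP x
  have hu : ∀ Φ : (Mat N)ˣ → ℂ, Hol Φ →
      Differentiable ℂ (fun s : ℂ => Φ (uE B (ln a b s) * uG y)) := by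
    intro Φ hΦ
    refine ContDiff.differentiable (hΦ.curve (u := fun s => uE B (ln a b s) * uG y) ?_ ?_)
        (by simp)
    · exact (EC_ln_contDiff B a b).mul contDiff_const
    · have : (fun s => (((uE B (ln a b s) * uG y)⁻¹ : (Mat N)ˣ) : Mat N)) =
          fun s => (((uG y)⁻¹ : (Mat N)ˣ) : Mat N) * EC B (-ln a b s) := by
        funext s
        rw [_root_.mul_inv_rev]
        rfl
      rw [this]
      exact contDiff_const.mul (EC_ln_contDiff' B a b)
  have h1 : (fun s : ℂ => F (uE B (ln a b s) * uG y)) =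
      fun s : ℂ => F' (uE B (ln a b s) * uG y) := by
    refine eq_of_real_eq (hu F h.hol) (hu F' h'.hol) ?_
    intro t
    rw [ln_real, uE_rl B hG, ← map_mul, h.res, h'.res]
  have h2 := congrFun h1 Complex.I
  beta_reduce at h2
  rwa [ln_I] at h2

lemma Tg.congrF (T : Tg B r k a lam L F H η) (hF : ∀ x, F (uE B x) = F' (uE B x))
    (hH : ∀ x, H (uE B x) = H' (uE B x))
    (hH2 : ∀ (x : Fin n → ℂ) (y : G), H (uE B x * uG y) = H' (uE B x * uG y)) :
    Tg B r k a lam L F' H' η where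
  lam0 := T.lam0
  L0 := T.L0
  near x hx := by rw [← hF, ← hH]; exact T.near x hx
  md := T.md
  even := T.even
  bd := T.bd
  far v y hv hc := by rw [← hH2]; exact T.far v y hv hc

lemma TubeS.congrF (T : TubeS B r k F) (h1 : F 1 = F' 1)
    (hF : ∀ (x : Fin n → ℂ) (y : G), F (uE B x * uG y) = F' (uE B x * uG y)) :
    TubeS B r k F' := fun v y hv hc => by rw [← hF, ← h1]; exact T v y hv hc

lemma Tg.smul (T : Tg B r k a lam L F H η) {c : ℝ} (hc : 0 ≤ c) :
    Tg B r k (c * a) (c * lam) (c * L) F (fun u => (c : ℂ) * H u) (fun x => (c : ℂ) * η x) where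
  lam0 := mul_nonneg hc T.lam0
  L0 := mul_nonneg hc T.L0
  near x hx := by
    beta_reduce
    rw [T.near x hx]
    push_cast
    ring
  md x hx := (differentiableAt_const _).mul (T.md x hx)
  even x hx := by beta_reduce; rw [T.even x hx]
  bd x hx := by
    rw [norm_mul, Complex.norm_real, Real.norm_eq_abs, abs_of_nonneg hc, mul_assoc]
    exact mul_le_mul_of_nonneg_left (T.bd x hx) hc
  far v y hv hcs := by
    rw [norm_mul, Complex.norm_real, Real.norm_eq_abs, abs_of_nonneg hc, mul_assoc]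
    exact mul_le_mul_of_nonneg_left (T.far v y hv hcs) hc

lemma Tg.mono (T : Tg B r k a lam L F H η) {lam' L' : ℝ} (h1 : lam ≤ lam') (h2 : L ≤ L') :
    Tg B r k a lam' L' F H η where
  lam0 := T.lam0.trans h1
  L0 := T.L0.trans h2
  near := T.near
  md := T.md
  even := T.even
  bd x hx := (T.bd x hx).trans (mul_le_mul_of_nonneg_right h1 (by
    have := nC_nonneg x
    positivity))
  far v y hv hcs := (T.far v y hv hcs).trans
    (mul_le_mul_of_nonneg_right h2 (Real.exp_pos _).le)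

lemma Tg.sub {a' lam' L' : ℝ} {η' : (Fin n → ℂ) → ℂ} (T : Tg B r k a lam L F H η)
    (T' : Tg B r k a' lam' L' F H' η') :
    Tg B r k (a - a') (lam + lam') (L + L') F (fun u => H u - H' u) (fun x => η x - η' x) where
  lam0 := add_nonneg T.lam0 T'.lam0
  L0 := add_nonneg T.L0 T'.L0
  near x hx := by
    beta_reduce
    rw [T.near x hx, T'.near x hx]
    push_cast
    ring
  md x hx := (T.md x hx).sub (T'.md x hx)
  even x hx := by beta_reduce; rw [T.even x hx, T'.even x hx]
  bd x hx := by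
    refine (norm_sub_le _ _).trans ?_
    rw [add_mul]
    exact add_le_add (T.bd x hx) (T'.bd x hx)
  far v y hv hcs := by
    refine (norm_sub_le _ _).trans ?_
    rw [add_mul]
    exact add_le_add (T.far v y hv hcs) (T'.far v y hv hcs)

/-- **the fourth power** -/
lemma Tg.pow4 (T : Tg B r k a lam L F H η) (hS : TubeS B r k F) (h1 : F 1 = 1) :
    Tg B r (4 * k) (4 * a) (4 * lam) (L / 2) (fun u => F u ^ 4) (fun u => 4 * F u ^ 3 * H u)
      (fun x => 4 * η x) where
  lam0 := by have := T.lam0; positivity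
  L0 := by have := T.L0; positivity
  near x hx := by
    beta_reduce
    rw [T.near x hx]
    push_cast
    ring
  md x hx := (differentiableAt_const _).mul (T.md x hx)
  even x hx := by beta_reduce; rw [T.even x hx]
  bd x hx := by
    rw [norm_mul]
    norm_num
    have := T.bd x hx
    linarith
  far v y hv hcs := by
    have h2 := hS v y hv hcs
    have h3 := T.far v y hv hcs
    rw [h1, norm_one, mul_one] at h2
    obtain ⟨X, hX⟩ : ∃ X : ℝ, X = 1.01 * nE v ^ 2 - 0.99 * min (nN y) r ^ 2 := ⟨_, rfl⟩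
    rw [← hX] at h2 h3 ⊢
    obtain ⟨E, hE⟩ : ∃ E : ℝ, E = Real.exp (k / 2 * X) := ⟨_, rfl⟩
    rw [← hE] at h2 h3
    have hE0 : 0 < E := by rw [hE]; exact Real.exp_pos _
    have e1 : Real.exp (4 * k / 2 * X) = E ^ 4 := by
      rw [hE, ← Real.exp_nat_mul]
      congr 1
      push_cast
      ring
    rw [e1, norm_mul, norm_mul, norm_pow]
    have h4 : ‖F (uE B (Complex.I • rl v) * uG y)‖ ^ 3 ≤ (1 / 2 * E) ^ 3 :=
      pow_le_pow_left₀ (norm_nonneg _) h2 3
    have h5 : ‖(4 : ℂ)‖ = 4 := by norm_num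
    rw [h5]
    calc 4 * ‖F (uE B (Complex.I • rl v) * uG y)‖ ^ 3 *
          ‖H (uE B (Complex.I • rl v) * uG y)‖ ≤ 4 * (1 / 2 * E) ^ 3 * (L * E) := by
          refine mul_le_mul (mul_le_mul_of_nonneg_left h4 (by norm_num)) h3 (norm_nonneg _) ?_
          positivity
      _ = _ := by ring

/-- the strict tube bound of a state of the double radius -/
theorem tubeS_of_two {r k M : ℝ} {F : (Mat N)ˣ → ℂ} (hr : GoodR B (2 * r))
    (hn : NearS B (2 * r) k M F) (ht : Tube B (2 * r) k F) (hM : M * (2 * r) ^ 2 ≤ k / 1000)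
    (hk : 320 / r ^ 2 ≤ k) : TubeS B r k F := by
  have hp : 0 < r := by have := hr.pos; linarith
  have hr2 : 0 < r ^ 2 := by positivity
  have hkr : 320 ≤ k * r ^ 2 := by rwa [div_le_iff₀ hr2] at hk
  have hk0 : 0 < k := lt_of_lt_of_le (by positivity) hk
  intro v y hv hcs
  have hv0 := nE_nonneg v
  have hy0 := nN_nonneg y
  obtain ⟨X, hX⟩ : ∃ X : ℝ, X = 1.01 * nE v ^ 2 - 0.99 * min (nN y) r ^ 2 := ⟨_, rfl⟩
  have hm1 : min (nN y) r ^ 2 ≤ nN y ^ 2 :=
    pow_le_pow_left₀ (le_min hy0 hp.le) (min_le_left _ _) 2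
  have hm2 : min (nN y) r ^ 2 ≤ r ^ 2 :=
    pow_le_pow_left₀ (le_min hy0 hp.le) (min_le_right _ _) 2
  have key : ∃ Y : ℝ, ‖F (uE B (Complex.I • rl v) * uG y)‖ ≤ ‖F 1‖ * Real.exp (k / 2 * Y) ∧
      Y ≤ X - 0.0063 * r ^ 2 := by
    by_cases hc : nE v ^ 2 + nN y ^ 2 ≤ (0.95 * (2 * r)) ^ 2
    · refine ⟨_, hn.tube hr hk0.le hM hc, ?_⟩
      rw [hX]
      nlinarith
    · push Not at hc
      refine ⟨_, ht v y (by linarith), ?_⟩
      have h2 : nE v ^ 2 ≤ (0.51 * r) ^ 2 := pow_le_pow_left₀ hv0 hv 2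
      have h3 : (1.8 * r) ^ 2 ≤ nN y ^ 2 := by nlinarith
      have h4 : 1.8 * r ≤ nN y := le_of_sq_le_sq h3 hy0
      have h5 : (1.8 * r) ^ 2 ≤ min (nN y) (2 * r) ^ 2 :=
        pow_le_pow_left₀ (by positivity) (le_min h4 (by linarith)) 2
      rw [hX]
      nlinarith
  obtain ⟨Y, h1, h2⟩ := key
  rw [← hX]
  refine h1.trans ?_
  have h3 : Real.exp (k / 2 * Y) ≤ 1 / 2 * Real.exp (k / 2 * X) := by
    have h4 : k / 2 * Y ≤ k / 2 * X - 1 := by
      have h5 : k / 2 * Y ≤ k / 2 * (X - 0.0063 * r ^ 2) :=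
        mul_le_mul_of_nonneg_left h2 (by positivity)
      nlinarith
    have h6 : Real.exp (k / 2 * Y) ≤ Real.exp (k / 2 * X - 1) := Real.exp_le_exp.2 h4
    have h7 : Real.exp (k / 2 * X - 1) * Real.exp 1 = Real.exp (k / 2 * X) := by
      rw [← Real.exp_add]; congr 1; ring
    have h8 : 2 ≤ Real.exp 1 := by
      have := Real.add_one_le_exp (1 : ℝ)
      linarith
    have h9 := Real.exp_pos (k / 2 * X - 1)
    nlinarith
  calc ‖F 1‖ * Real.exp (k / 2 * Y) ≤ ‖F 1‖ * (1 / 2 * Real.exp (k / 2 * X)) :=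
        mul_le_mul_of_nonneg_left h3 (norm_nonneg _)
    _ = _ := by ring

end

end Pool.Agent.N988.MK
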