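import Mathlib
import Pool.Agent.N988.MK.Tan3
import Pool.Agent.N988.MK.Tan5
import Pool.Agent.N991.MK.Tube4

/-!
# The tangent map of the renormalisation group step
-/

open MeasureTheory Filter Metric Asymptotics Matrix
open scoped Matrix.Norms.Frobenius Topology ContDiff
open Pool.Agent.H906R3.YM Pool.Agent.W793.YM Pool.Agent.TH618.YM Pool.Agent.N984.TW
open Pool.Agent.N991.MK

namespace Pool.Agent.N988.MK

set_option linter.unusedSectionVars false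

noncomputable section

variable {N n : ℕ} {G : Subgroup (UN N)} {B : Frame G n}
variable [CompactSpace G] [MeasurableSpace G] [BorelSpace G]

variable (B) in
/-- the tangent law of the convolution square -/
def LinC (μ : Measure G) (r ε k₀ K : ℝ) : Prop :=
  ∀ {k M a l : ℝ} {f g : G → ℝ} {F H : (Mat N)ˣ → ℂ} {m η : (Fin n → ℂ) → ℂ}, k₀ ≤ k →
    NS B r ε k M f F m → TubeS B r k F → CF g H → Tg B r k a l l F H η →
    ∃ (k' M' a' : ℝ) (F' H' : (Mat N)ˣ → ℂ) (m' η' : (Fin n → ℂ) → ℂ),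
      NS B r ε k' M' (nf (conv μ f f)) F' m' ∧ TubeS B r k' F' ∧
      CF (ng (conv μ f f) (dcv μ f g)) H' ∧
      Tg B r k' a' (l / 8 + K * (|a| + l) / k) (l / 8 + K * (|a| + l) / k) F' H' η' ∧
      |k' - k / 2| ≤ K ∧ M' ≤ M / 8 + K ∧
      |a' - a / 2| ≤ K * (l / k + (|a| + l) * (1 + M) / k ^ 2)

lemma lin_num {k M a l K r ε k1 M1 a1 l1 a2 : ℝ} (hr : 0 < r) (hε : ε ≤ 1) (hK : 0 ≤ K)
    (hl : 0 ≤ l) (hM : 0 ≤ M) (hMl : M * r ^ 2 ≤ ε * k) (hk1 : 1 ≤ k) (hk2 : 4 * K ≤ k)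
    (hk3 : 2 * (K * (3 + 1 / r ^ 2)) ≤ k) (hk4 : 128 * K ≤ k)
    (hl1 : l1 = l / 8 + K * (|a| + l) / k) (h1 : |k1 - k / 2| ≤ K) (h2 : M1 ≤ M / 8 + K)
    (hM1 : 0 ≤ M1)
    (h3 : |a1 - a / 2| ≤ K * (l / k + (|a| + l) * (1 + M) / k ^ 2))
    (h6 : |a2 - a1 / 2| ≤ K * (l1 / k1 + (|a1| + l1) * (1 + M1) / k1 ^ 2)) :
    4 * (l1 / 8 + K * (|a1| + l1) / k1) ≤ l / 4 + (80 * K ^ 2 + 70 * K) * |a| / k ∧
    |4 * a2 - a| ≤ (80 * K ^ 2 + 70 * K) * (l / k + (|a| + l) * (1 + M) / k ^ 2) := by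
  have hk0 : 0 < k := by linarith
  have hr2 : 0 < r ^ 2 := by positivity
  have ha := abs_nonneg a
  obtain ⟨S, hS⟩ : ∃ S, S = |a| + l := ⟨_, rfl⟩
  have hS0 : 0 ≤ S := by rw [hS]; positivity
  obtain ⟨X, hX⟩ : ∃ X, X = S / k := ⟨_, rfl⟩
  have hX0 : 0 ≤ X := by rw [hX]; positivity
  have hXk : X * k = S := by rw [hX]; field_simp
  obtain ⟨Y, hY⟩ : ∃ Y, Y = S * (1 + M) / k ^ 2 := ⟨_, rfl⟩
  have hY0 : 0 ≤ Y := by rw [hY]; positivity
  have hKX : K * (|a| + l) / k = K * X := by rw [hX, hS, mul_div_assoc]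
  rw [← hS, ← hY] at h3 ⊢
  rw [hKX] at hl1
  have hl10 : 0 ≤ l1 := by rw [hl1]; positivity
  -- (1 + M) / k
  have hMk : (1 + M) / k ≤ 1 + 1 / r ^ 2 := by
    rw [div_le_iff₀ hk0]
    have e1 : M * r ^ 2 ≤ k := hMl.trans (mul_le_of_le_one_left hk0.le hε)
    have e2 : M ≤ 1 / r ^ 2 * k := by
      rw [one_div_mul_eq_div, le_div_iff₀ hr2]
      exact e1
    have e3 : (1 + 1 / r ^ 2) * k = k + 1 / r ^ 2 * k := by ring
    linarith
  have hYX : Y ≤ (1 + 1 / r ^ 2) * X := by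
    have : Y = (1 + M) / k * X := by rw [hY, hX]; field_simp
    rw [this]
    exact mul_le_mul_of_nonneg_right hMk hX0
  have hlX : l / k ≤ X := by
    rw [hX]; exact div_le_div_of_nonneg_right (by linarith) hk0.le
  have hXY : X / k ≤ Y := by
    have : X / k = S * 1 / k ^ 2 := by rw [hX]; field_simp
    rw [this, hY]
    gcongr
    linarith
  have h1' := abs_le.1 h1
  have hk1a : k / 4 ≤ k1 := by linarith
  have hk10 : 0 < k1 := by linarith
  have h3a : |a1 - a / 2| ≤ K * ((2 + 1 / r ^ 2) * X) := by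
    refine h3.trans (mul_le_mul_of_nonneg_left ?_ hK)
    linarith
  have ha1 : |a1| ≤ |a| / 2 + K * ((2 + 1 / r ^ 2) * X) := by
    have e : a1 = (a1 - a / 2) + a / 2 := by ring
    rw [e]
    refine (abs_add_le _ _).trans ?_
    rw [abs_div, abs_two]
    linarith
  have hS1 : |a1| + l1 ≤ S := by
    have e1 : |a1| + l1 ≤ |a| / 2 + l / 8 + K * (3 + 1 / r ^ 2) * X := by
      rw [hl1]
      have : K * (3 + 1 / r ^ 2) * X = K * ((2 + 1 / r ^ 2) * X) + K * X := by ring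
      linarith
    have e2 : K * (3 + 1 / r ^ 2) * X ≤ k / 2 * X := mul_le_mul_of_nonneg_right (by linarith) hX0
    have e3 : k / 2 * X = S / 2 := by rw [← hXk]; ring
    linarith
  have hq : (|a1| + l1) / k1 ≤ 4 * X := by
    rw [div_le_iff₀ hk10]
    have e1 : 4 * X * (k / 4) ≤ 4 * X * k1 := mul_le_mul_of_nonneg_left hk1a (by positivity)
    have e2 : 4 * X * (k / 4) = S := by rw [← hXk]; ring
    linarith
  refine ⟨?_, ?_⟩
  · have e1 : K * (|a1| + l1) / k1 ≤ K * (4 * X) := by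
      rw [mul_div_assoc]; exact mul_le_mul_of_nonneg_left hq hK
    have e2 : 4 * (l1 / 8 + K * (|a1| + l1) / k1) ≤ l / 16 + 17 * (K * X) := by
      have p0 : 0 ≤ K * X := by positivity
      linarith
    have e3 : K * X = K * |a| / k + K / k * l := by rw [hX, hS]; field_simp
    have e4 : K / k ≤ 1 / 128 := by rw [div_le_iff₀ hk0]; linarith
    have e5 : K / k * l ≤ 1 / 128 * l := mul_le_mul_of_nonneg_right e4 hl
    have e6 : 17 * (K * |a| / k) ≤ (80 * K ^ 2 + 70 * K) * |a| / k := by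
      rw [← mul_div_assoc]
      refine div_le_div_of_nonneg_right ?_ hk0.le
      have : 0 ≤ K ^ 2 * |a| := by positivity
      have : 0 ≤ K * |a| := by positivity
      nlinarith
    linarith
  · have e1 : l1 / k1 ≤ l / (2 * k) + 4 * K * Y := by
      rw [div_le_iff₀ hk10]
      have e2 : (l / (2 * k) + 4 * K * Y) * (k / 4) ≤ (l / (2 * k) + 4 * K * Y) * k1 :=
        mul_le_mul_of_nonneg_left hk1a (by positivity)
      have e3 : (l / (2 * k) + 4 * K * Y) * (k / 4) = l / 8 + K * (Y * k) := by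
        field_simp
        ring
      have e4 : X ≤ Y * k := by rwa [div_le_iff₀ hk0] at hXY
      have e5 : K * X ≤ K * (Y * k) := mul_le_mul_of_nonneg_left e4 hK
      linarith
    have e2 : (|a1| + l1) * (1 + M1) / k1 ^ 2 ≤ 16 * (1 + K) * Y := by
      rw [div_le_iff₀ (by positivity)]
      have f1 : 1 + M1 ≤ (1 + K) * (1 + M) := by nlinarith
      have f2 : (|a1| + l1) * (1 + M1) ≤ S * ((1 + K) * (1 + M)) :=
        mul_le_mul hS1 f1 (by linarith) hS0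
      have f3 : (k / 4) ^ 2 ≤ k1 ^ 2 := pow_le_pow_left₀ (by positivity) hk1a 2
      have f4 : 16 * (1 + K) * Y * (k / 4) ^ 2 ≤ 16 * (1 + K) * Y * k1 ^ 2 :=
        mul_le_mul_of_nonneg_left f3 (by positivity)
      have f5 : 16 * (1 + K) * Y * (k / 4) ^ 2 = S * ((1 + K) * (1 + M)) := by
        rw [hY]; field_simp; ring
      linarith
    have e3 : |a2 - a1 / 2| ≤ K * (l / (2 * k) + 4 * K * Y + 16 * (1 + K) * Y) :=
      h6.trans (mul_le_mul_of_nonneg_left (by linarith) hK)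
    have e4 : 4 * a2 - a = 4 * (a2 - a1 / 2) + 2 * (a1 - a / 2) := by ring
    rw [e4]
    refine (abs_add_le _ _).trans ?_
    rw [abs_mul, abs_mul, abs_two, abs_of_pos (by norm_num : (0 : ℝ) < 4)]
    obtain ⟨Z, hZ⟩ : ∃ Z, Z = l / k := ⟨_, rfl⟩
    have hZ0 : 0 ≤ Z := by rw [hZ]; positivity
    have e5 : l / (2 * k) = Z / 2 := by rw [hZ]; field_simp
    rw [e5] at e3
    rw [← hZ] at h3 ⊢
    have p1 : 0 ≤ K * Z := by positivity
    have p2 : 0 ≤ K * Y := by positivity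
    have p3 : 0 ≤ K ^ 2 * Z := by positivity
    have p4 : 0 ≤ K ^ 2 * Y := by positivity
    calc 4 * |a2 - a1 / 2| + 2 * |a1 - a / 2| ≤
        4 * (K * (Z / 2 + 4 * K * Y + 16 * (1 + K) * Y)) + 2 * (K * (Z + Y)) := by linarith
      _ = 4 * (K * Z) + 80 * (K ^ 2 * Y) + 66 * (K * Y) := by ring
      _ ≤ 80 * (K ^ 2 * Z) + 80 * (K ^ 2 * Y) + 70 * (K * Z) + 70 * (K * Y) := by linarith
      _ = _ := by ring

/-- **the tangent map of the renormalisation group step** -/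
theorem lin_T {μ : Measure G} [IsProbabilityMeasure μ] {r ε k₀ K : ℝ} (hr : 0 < r) (hε : ε ≤ 1)
    (hk₀ : 1 ≤ k₀) (hK : 0 ≤ K) (LC : LinC B μ r ε k₀ K) :
    ∃ k₁ K' : ℝ, 1 ≤ k₁ ∧ 0 ≤ K' ∧ ∀ {k M a l : ℝ} {f g : G → ℝ} {F H : (Mat N)ˣ → ℂ}
      {m η : (Fin n → ℂ) → ℂ}, k₁ ≤ k → f 1 ≠ 0 →
      NS B r ε k M (nf f) F m → TubeS B r k F → CF (ng f g) H → Tg B r k a l l F H η →
      ∃ (k' M' a' l' : ℝ) (F' H' : (Mat N)ˣ → ℂ) (m' η' : (Fin n → ℂ) → ℂ),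
        NS B r ε k' M' (nf (Rst μ f)) F' m' ∧ TubeS B r k' F' ∧
        CF (ng (Rst μ f) (dTT μ f g)) H' ∧ Tg B r k' a' l' l' F' H' η' ∧
        l' ≤ l / 4 + K' * |a| / k ∧
        |a' - a| ≤ K' * (l / k + (|a| + l) * (1 + M) / k ^ 2) := by
  refine ⟨max (max (4 * k₀) (4 * K)) (max (2 * (K * (3 + 1 / r ^ 2))) (128 * K)),
    80 * K ^ 2 + 70 * K, by
      refine le_trans ?_ ((le_max_left _ _).trans (le_max_left _ _))
      linarith, by positivity, fun {k M a l f g F H m η} hk hf1 hN hS hg T => ?_⟩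
  have b1 : 4 * k₀ ≤ k := ((le_max_left _ _).trans (le_max_left _ _)).trans hk
  have b2 : 4 * K ≤ k := ((le_max_right _ _).trans (le_max_left _ _)).trans hk
  have b3 : 2 * (K * (3 + 1 / r ^ 2)) ≤ k :=
    ((le_max_left _ _).trans (le_max_right _ _)).trans hk
  have b4 : 128 * K ≤ k := ((le_max_right _ _).trans (le_max_right _ _)).trans hk
  have hk0 : 0 < k := by linarith
  have hl := T.lam0
  obtain ⟨k1, M1, a1, F1, H1, m1, η1, N1, S1, G1, T1, c1, c2, c3⟩ :=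
    LC (by linarith : k₀ ≤ k) hN hS hg T
  have c1' := abs_le.1 c1
  obtain ⟨k2, M2, a2, F2, H2, m2, η2, N2, S2, G2, T2, d1, d2, d3⟩ :=
    LC (by linarith : k₀ ≤ k1) N1 S1 G1 T1
  obtain ⟨e1, e2⟩ := lin_num hr hε hK hl hN.M0 hN.Ml (by linarith) b2 b3 b4 rfl c1 c2 N1.M0
    c3 d3
  -- the algebra
  obtain ⟨φ, hφ⟩ : ∃ φ, φ = nf (conv μ (nf f) (nf f)) := ⟨_, rfl⟩
  obtain ⟨γ, hγ⟩ : ∃ γ, γ = ng (conv μ (nf f) (nf f)) (dcv μ (nf f) (ng f g)) := ⟨_, rfl⟩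
  rw [← hφ] at N1 N2 G2
  rw [← hγ] at G1 G2
  have hW : conv μ (nf f) (nf f) 1 ≠ 0 := by
    intro h0
    have h1 := N1.cf.res 1
    have h2 : (uG (1 : G) : (Mat N)ˣ) = 1 := map_one _
    rw [h2, N1.one, hφ] at h1
    unfold nf at h1
    unfold nf at h0
    rw [h0] at h1
    simp at h1
  have hW2 : conv μ φ φ 1 ≠ 0 := by
    intro h0
    have h1 := N2.cf.res 1
    have h2 : (uG (1 : G) : (Mat N)ˣ) = 1 := map_one _
    rw [h2, N2.one] at h1
    unfold nf at h1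
    rw [h0] at h1
    simp at h1
  obtain ⟨c, hc⟩ : ∃ c, c = f 1 ^ 2 * conv μ (nf f) (nf f) 1 := ⟨_, rfl⟩
  have hc0 : c ≠ 0 := by rw [hc]; exact mul_ne_zero (pow_ne_zero 2 hf1) hW
  obtain ⟨e, he⟩ : ∃ e, e = f 1 ^ 2 * dcv μ (nf f) (ng f g) 1 +
      2 * f 1 * g 1 * conv μ (nf f) (nf f) 1 := ⟨_, rfl⟩
  have u1 : ∀ x, conv μ f f x = c * φ x := by
    intro x
    rw [conv_sq_lin (eq_nf hf1) x, eq_nf hW x, hc, hφ]
    ring
  have v1 : ∀ x, dcv μ f g x = c * γ x + e * φ x := by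
    intro x
    rw [dcv_lin hN.cf.cont hg.cont (eq_nf hf1) (eq_ng hf1) x,
      eq_ng (f := conv μ (nf f) (nf f)) (g := dcv μ (nf f) (ng f g)) hW x, hc, he]
    rw [eq_nf (f := conv μ (nf f) (nf f)) hW x, hγ, hφ]
    ring
  have u2 : ∀ x, conv μ (conv μ f f) (conv μ f f) x = c ^ 2 * conv μ φ φ x :=
    fun x => conv_sq_lin u1 x
  have v2 : ∀ x, dcv μ (conv μ f f) (dcv μ f g) x = c ^ 2 * dcv μ φ γ x +
      2 * c * e * conv μ φ φ x := by
    intro x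
    rw [dcv_lin N1.cf.cont G1.cont u1 v1 x]
    ring
  have w1 : nf (Rst μ f) = fun x => nf (conv μ φ φ) x ^ 4 := by
    funext x
    have h1 : Rst μ f = fun x => conv μ (conv μ f f) (conv μ f f) x ^ 4 := rfl
    rw [h1, nf_pow, nf_lin (pow_ne_zero 2 hc0) u2 x]
  have w2 : ng (Rst μ f) (dTT μ f g) = fun x => 4 * nf (conv μ φ φ) x ^ 3 *
      ng (conv μ φ φ) (dcv μ φ γ) x := by
    funext x
    have h1 : Rst μ f = fun x => conv μ (conv μ f f) (conv μ f f) x ^ 4 := rfl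
    have h2 : dTT μ f g = fun x => 4 * conv μ (conv μ f f) (conv μ f f) x ^ 3 *
        dcv μ (conv μ f f) (dcv μ f g) x := rfl
    have h3 : conv μ (conv μ f f) (conv μ f f) 1 ≠ 0 := by
      rw [u2]; exact mul_ne_zero (pow_ne_zero 2 hc0) hW2
    rw [h1, h2, ng_pow h3, nf_lin (pow_ne_zero 2 hc0) u2 x,
      ng_lin hW2 (pow_ne_zero 2 hc0) u2 v2 x, div_self (pow_ne_zero 2 hc0), one_mul]
  have P := N2.pow4
  have hG4 : CF (fun x => 4 * nf (conv μ φ φ) x ^ 3 * ng (conv μ φ φ) (dcv μ φ γ) x)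
      (fun u => 4 * F2 u ^ 3 * H2 u) := by
    have h1 := (cf_smul (N2.cf.pow 3) 4).mul G2
    refine ⟨?_, ?_, ?_, ?_⟩
    · have := h1.hol
      simpa using this
    · have := h1.cls
      simpa using this
    · have := h1.sym
      simpa using this
    · have := h1.res
      simpa using this
  refine ⟨4 * k2, 4 * M2, 4 * a2, _, _, _, _, _, w1 ▸ P, S2.pow4, w2 ▸ hG4,
    Tg.mono (Tg.pow4 T2 S2 N2.one) le_rfl ?_, e1, e2⟩
  have := T2.lam0
  linarith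

end

end Pool.Agent.N988.MK
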