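import Mathlib
import Pool.Agent.N988.MK.Pair7
import Pool.Agent.N988.MK.Tan4
import Pool.Agent.N988.MK.Tan6
import Pool.Agent.N988.MK.Tan7

/-!
# The states with the strict tube bound, and the algebra of the tangent vectors
-/

open MeasureTheory Filter Metric Asymptotics Matrix
open scoped Matrix.Norms.Frobenius Topology ContDiff
open Pool.Agent.H906R3.YM Pool.Agent.W793.YM Pool.Agent.TH618.YM Pool.Agent.N984.TW
open Pool.Agent.N991.MK

namespace Pool.Agent.N988.MK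

set_option linter.unusedSectionVars false

noncomputable section

variable {N n : ℕ} {G : Subgroup (UN N)} {B : Frame G n}
variable [CompactSpace G] [MeasurableSpace G] [BorelSpace G]

variable (B) in
/-- **the convolution square of a normalised state, with the strict tube bound** -/
theorem conv_NS (μ : Measure G) [IsProbabilityMeasure μ] [μ.IsMulLeftInvariant]
    [μ.IsMulRightInvariant] [μ.IsInvInvariant] (hG : IsClosed (G : Set (UN N))) (hI : IsoG B)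
    (hn : 0 < n) :
    ∃ r₁ ε₁ : ℝ, 0 < r₁ ∧ r₁ ≤ 1 ∧ 0 < ε₁ ∧ ε₁ ≤ 1 / 2000 ∧ ∀ ε : ℝ, 0 < ε → ε ≤ ε₁ →
      ∀ r : ℝ, 0 < r → r ≤ r₁ → GoodR B r ∧
      ∃ k₀ K : ℝ, 1 ≤ k₀ ∧ 0 ≤ K ∧ ∀ {k M : ℝ} {f : G → ℝ} {F : (Mat N)ˣ → ℂ}
        {m : (Fin n → ℂ) → ℂ}, k₀ ≤ k → NS B r ε k M f F m →
        0 < conv μ f f 1 ∧ ∃ (k' M' : ℝ) (m' : (Fin n → ℂ) → ℂ),
          |k' - k / 2| ≤ K ∧ M' ≤ M / 8 + K ∧
          NS B r ε k' M' (nf (conv μ f f))
            (fun u => (((conv μ f f 1)⁻¹ : ℝ) : ℂ) * convC μ F F u) m' ∧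
          TubeS B r k' (fun u => (((conv μ f f 1)⁻¹ : ℝ) : ℂ) * convC μ F F u) ∧
          St B r k' M' (convC μ F F) m' := by
  obtain ⟨r₁, ε₁, hr₁, hr₁1, hε₁, hε₁2, hD⟩ := step_N B μ hG hI hn
  refine ⟨r₁, ε₁, hr₁, hr₁1, hε₁, hε₁2, fun ε hε0 hε r hr hrr => ?_⟩
  obtain ⟨hgr, ka, K, hka, hK, hD⟩ := hD ε hε0 hε r hr hrr
  obtain ⟨kb, hkb, hT⟩ := tubeS_conv hG μ hgr K hK
  refine ⟨hgr, max ka kb, K, hka.trans (le_max_left _ _), hK, fun {k M f F m} hk hN => ?_⟩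
  have hk1 : ka ≤ k := (le_max_left _ _).trans hk
  have hk2 : kb ≤ k := (le_max_right _ _).trans hk
  have hk0 : 0 < k := by linarith
  have hε1 : ε ≤ 1 / 1000 := by linarith
  obtain ⟨k', M', m', a1, a2, a3, a4, a5, a6⟩ := hD hk1 hN.toNR
  have hM1 : M * r ^ 2 ≤ k / 1000 := by
    have := mul_le_mul_of_nonneg_right hε1 hk0.le
    have := hN.Ml
    linarith
  have hS := hT hk2 a1 hM1 hN.cf hN.st.nearS hN.tb
  have hW : 0 < conv μ f f 1 := conv_pos hN.cf.cont hN.cf.cont hN.pos hN.pos 1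
  have hcf : CF (conv μ f f) (convC μ F F) := hN.cf.convC hN.cf
  have hone : convC μ F F 1 = ((conv μ f f 1 : ℝ) : ℂ) := by
    have h1 := hcf.res 1
    have h2 : (uG (1 : G) : (Mat N)ˣ) = 1 := map_one _
    rwa [h2] at h1
  refine ⟨hW, k', M', m', a1, a3, ⟨cf_smul hcf _, fun x => ?_, ?_, st_smul a5 _, tube_smul a6 _,
    a2, a4⟩, hS.smul _, a5⟩
  · exact mul_pos (inv_pos.2 hW) (conv_pos hN.cf.cont hN.cf.cont hN.pos hN.pos x)
  · beta_reduce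
    rw [hone, ← Complex.ofReal_mul, inv_mul_cancel₀ hW.ne', Complex.ofReal_one]

/-- the state of the flow, normalised -/
lemma PT_ns [SecondCountableTopology G] {μ : Measure G} [IsProbabilityMeasure μ]
    [μ.IsHaarMeasure] [μ.IsMulRightInvariant] [μ.IsInvInvariant]
    (hG : IsClosed (G : Set (UN N))) {r ε h1 C1 h ρ : ℝ} {f : G → ℝ}
    (hP : PT B μ r ε h1 C1 f h ρ) : 0 ≤ ρ ∧ 0 < f 1 ∧ ∃ (F : (Mat N)ˣ → ℂ)
      (m : (Fin n → ℂ) → ℂ), NS B r ε h (ρ * h) (nf f) F m ∧ TubeS B r h F := by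
  obtain ⟨⟨hρ, F, m, b1, b2, b3, b4, b5, b6, -⟩, F', c1, c2⟩ := hP
  refine ⟨hρ, b2 1, _, m, NS.of_st b1 b2 b3 b4 b5 b6, ?_⟩
  have h1 : F' 1 = F 1 := by
    have := cf_ext (B := B) hG c1 b1 0
    rwa [uE_zero] at this
  exact (TubeS.congrF c2 h1 fun x y => cf_extR hG c1 b1 x y).smul _

lemma TSt.nn {r h a l : ℝ} {f g : G → ℝ} (T : TSt B r f g h a l) : 0 ≤ l := by
  obtain ⟨F, H, η, -, -, T⟩ := T
  exact T.lam0

/-- the tangent data relative to a given extension of the state -/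
lemma TSt.of (hG : IsClosed (G : Set (UN N))) {r h a l : ℝ} {f g : G → ℝ}
    (T : TSt B r f g h a l) {F : (Mat N)ˣ → ℂ} (hF : CF (nf f) F) :
    ∃ (H : (Mat N)ˣ → ℂ) (η : (Fin n → ℂ) → ℂ), CF (ng f g) H ∧ Tg B r h a l l F H η := by
  obtain ⟨F', H, η, h1, h2, T⟩ := T
  exact ⟨H, η, h2, Tg.congrF T (fun x => cf_ext hG h1 hF x) (fun _ => rfl) fun _ _ => rfl⟩

lemma cf_sub' {f g : G → ℝ} {F H : (Mat N)ˣ → ℂ} (h1 : CF f F) (h2 : CF g H) :
    CF (fun x => f x - g x) (fun u => F u - H u) where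
  hol := by
    obtain ⟨Φ, a1, a2⟩ := h1.hol
    obtain ⟨Ψ, b1, b2⟩ := h2.hol
    exact ⟨fun p => Φ p - Ψ p, a1.sub b1, fun u => by simp only [a2, b2]⟩
  cls g' u := by rw [h1.cls, h2.cls]
  sym u := by rw [h1.sym, h2.sym]
  res g' := by rw [h1.res, h2.res]; push_cast; rfl

lemma TSt.sub (hG : IsClosed (G : Set (UN N))) {r h a l a' l' : ℝ} {f g g' : G → ℝ}
    (T : TSt B r f g h a l) (T' : TSt B r f g' h a' l') :
    TSt B r f (fun x => g x - g' x) h (a - a') (l + l') := by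
  obtain ⟨F, H, η, h1, h2, T⟩ := T
  obtain ⟨H', η', h2', T'⟩ := T'.of hG h1
  refine ⟨F, _, _, h1, ?_, Tg.sub T T'⟩
  have e : ng f (fun x => g x - g' x) = fun x => ng f g x - ng f g' x := by
    funext x
    unfold ng
    ring
  rw [e]
  exact cf_sub' h2 h2'

lemma TSt.smul {r h a l : ℝ} {f g : G → ℝ} (T : TSt B r f g h a l) {c : ℝ} (hc : 0 ≤ c) :
    TSt B r f (fun x => c * g x) h (c * a) (c * l) := by
  obtain ⟨F, H, η, h1, h2, T⟩ := T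
  refine ⟨F, _, _, h1, ?_, Tg.smul T hc⟩
  have e : ng f (fun x => c * g x) = fun x => c * ng f g x := by
    funext x
    unfold ng
    ring
  rw [e]
  exact cf_smul h2 c

lemma TSt.mono {r h a l l' : ℝ} {f g : G → ℝ} (T : TSt B r f g h a l) (hl : l ≤ l') :
    TSt B r f g h a l' := by
  obtain ⟨F, H, η, h1, h2, T⟩ := T
  exact ⟨F, H, η, h1, h2, Tg.mono T hl hl⟩

/-- the tangent vectors only matter up to multiples of the state -/
lemma TSt.congr {r h a l : ℝ} {f g g' : G → ℝ} (T : TSt B r f g h a l) (hf : f 1 ≠ 0) {e : ℝ}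
    (hg : ∀ x, g' x = g x + e * f x) : TSt B r f g' h a l := by
  have e1 : ng f g' = ng f g := by
    funext x
    have := ng_lin (f := f) (g := g) (f' := f) (g' := g') (c := 1) (d := 1) (e := e) hf one_ne_zero
      (fun x => (one_mul _).symm) (fun x => by rw [hg, one_mul]) x
    rw [this, div_one, one_mul]
  obtain ⟨F, H, η, h1, h2, T⟩ := T
  exact ⟨F, H, η, h1, e1 ▸ h2, T⟩

/-- **the tangent step of the flow** -/
theorem tan_step [SecondCountableTopology G] {μ : Measure G} [IsProbabilityMeasure μ]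
    [μ.IsHaarMeasure] [μ.IsMulRightInvariant] [μ.IsInvInvariant]
    (hG : IsClosed (G : Set (UN N))) (hn : 0 < n) {r ε k₀ K h0 C1 : ℝ} (hr : 0 < r)
    (hε : ε ≤ 1) (hk₀ : 1 ≤ k₀) (hK : 0 ≤ K) (LC : LinC B μ r ε k₀ K) :
    ∃ h1 C : ℝ, 1 ≤ h1 ∧ 0 ≤ C ∧ ∀ {f g : G → ℝ} {h ρ h' ρ' a l : ℝ}, h1 ≤ h →
      PT B μ r ε h0 C1 f h ρ → PT B μ r ε h0 C1 (Rst μ f) h' ρ' → TSt B r f g h a l →
      ∃ a' l' : ℝ, TSt B r (Rst μ f) (dTT μ f g) h' a' l' ∧ l' ≤ l / 4 + C * |a| / h ∧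
        |a' - a| ≤ C * (l / h + (|a| + l) * (ρ + 1 / h) / h) := by
  obtain ⟨k₁, K', hk₁, hK', hlin⟩ := lin_T (B := B) (μ := μ) hr hε hk₀ hK LC
  refine ⟨k₁, K', hk₁, hK', fun {f g h ρ h' ρ' a l} hh hP hP' T => ?_⟩
  have hh0 : 0 < h := by linarith
  obtain ⟨hρ, hf1, F, m, hN, hS⟩ := PT_ns hG hP
  obtain ⟨H, η, hg, T⟩ := T.of hG hN.cf
  obtain ⟨k', M', a', l', F', H', m', η', b1, b2, b3, b4, b5, b6⟩ :=
    hlin hh hf1.ne' hN hS hg T
  obtain ⟨-, F'', m'', c1, c2, c3, -⟩ := hP'.1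
  have e1 : k' = h' := by
    refine coupling_uniq hG hr hn (c := Rst μ f 1) (c2 1) ?_ b1 c1 c3
    funext x
    exact eq_nf (c2 1).ne' x
  subst e1
  refine ⟨a', l', ⟨F', H', η', b1.cf, b3, b4⟩, b5, b6.trans (le_of_eq ?_)⟩
  congr 2
  field_simp
  ring

end

end Pool.Agent.N988.MK
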