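import Mathlib
import Pool.Agent.N681.MK.TanDefs
import Pool.Agent.N988.MK.Tan8

/-!
# The tangent flow
-/

open MeasureTheory Filter Metric Asymptotics Matrix
open scoped Matrix.Norms.Frobenius Topology ContDiff
open Pool.Agent.H906R3.YM Pool.Agent.W793.YM Pool.Agent.TH618.YM Pool.Agent.N984.TW
open Pool.Agent.N991.MK

namespace Pool.Agent.N988.MK

set_option linter.unusedSectionVars false

noncomputable section

variable {N n : ℕ} {G : Subgroup (UN N)} {B : Frame G n}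
variable [CompactSpace G] [MeasurableSpace G] [BorelSpace G] [SecondCountableTopology G]
  {μ : Measure G} [IsProbabilityMeasure μ] [μ.IsHaarMeasure] [μ.IsMulRightInvariant]
  [μ.IsInvInvariant]

lemma dTT_eq (f g : G → ℝ) : Pool.Agent.N681.MK.dTT μ f g = dTT μ f g := rfl

/-- **the tangent flow, from its parts** -/
theorem tanFlow_of (hG : IsClosed (G : Set (UN N))) (hn : 0 < n) {r ε k₀ K h0 C1 : ℝ}
    (hr : 0 < r) (hε : ε ≤ 1) (hk₀ : 1 ≤ k₀) (hK : 0 ≤ K) (LC : LinC B μ r ε k₀ K)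
    {o : G → ℝ} {κ Ci Cc : ℝ}
    (hinit : ∀ {f : G → ℝ} {h ρ : ℝ}, PSt B μ r ε h0 C1 f h ρ →
      TSt B r f (fun x => o x * f x) h κ Ci)
    (hclose : ∀ {f g : G → ℝ} {h ρ a l : ℝ}, 1 ≤ h → PSt B μ r ε h0 C1 f h ρ →
      TSt B r f g h a l → ∀ x, |ng f g x| ≤ Cc * (|a| + l)) :
    ∃ h1 C' : ℝ, 1 ≤ h1 ∧ Pool.Agent.N681.MK.TanFlow μ (PT B μ r ε h0 C1) (TSt B r) o κ h1 C' 0 := by
  obtain ⟨h1, C, hh1, hC, hstep⟩ := tan_step (B := B) (μ := μ) hG hn (h0 := h0) (C1 := C1) hr hε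
    hk₀ hK LC
  have m1 : C ≤ max C (max Ci Cc) := le_max_left _ _
  have m2 : Ci ≤ max C (max Ci Cc) := (le_max_left _ _).trans (le_max_right _ _)
  have m3 : Cc ≤ max C (max Ci Cc) := (le_max_right _ _).trans (le_max_right _ _)
  refine ⟨h1, max C (max Ci Cc), hh1, hC.trans m1, fun f g h a l T => T.nn,
    fun f g g' h a a' l l' T T' => T.sub hG T', fun f h ρ hP hh => (hinit hP.1).mono m2,
    fun f g h ρ h' ρ' a l hP hP' T hh hh' => ?_, fun f g h ρ a l hP T hh x => ?_⟩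
  · obtain ⟨a', l', T', e1, e2⟩ := hstep hh hP hP' T
    have hh0 : 0 < h := by linarith
    have hl := T.nn
    have hρ := hP.1.1
    refine ⟨a', l', T', e1.trans ?_, e2.trans ?_⟩
    · have : C * |a| / h ≤ max C (max Ci Cc) * |a| / h := by gcongr
      linarith
    · refine mul_le_mul_of_nonneg_right m1 ?_
      positivity
  · have hf1 : 0 < f 1 := (PT_ns hG hP).2.1
    have e : g x / f 1 - g 1 * f x / f 1 ^ 2 = ng f g x := by
      unfold ng
      field_simp
    rw [e, pow_zero, mul_one]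
    refine (hclose (hh1.trans hh) hP.1 T x).trans ?_
    have hl := T.nn
    exact mul_le_mul_of_nonneg_right m3 (by positivity)

end

end Pool.Agent.N988.MK
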