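import Mathlib
import Pool.Agent.N988.MK.Nopos
import Pool.Agent.N991.MK.Tan1

/-!
# The perturbed state is a state, and its difference from the state
-/

open MeasureTheory Filter Metric Asymptotics Matrix
open scoped Matrix.Norms.Frobenius Topology ContDiff
open Pool.Agent.H906R3.YM Pool.Agent.W793.YM Pool.Agent.TH618.YM Pool.Agent.N984.TW
open Pool.Agent.N991.MK

namespace Pool.Agent.N988.MK

set_option linter.unusedSectionVars false

noncomputable section

variable {N n : ℕ} {G : Subgroup (UN N)} {B : Frame G n}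
variable {r ε k M a lam L t : ℝ} {f g : G → ℝ} {F H : (Mat N)ˣ → ℂ} {m η : (Fin n → ℂ) → ℂ}

lemma Tg_eta_zero (T : Tg B r k a lam L F H η) (hr : 0 < r) : η 0 = 0 := by
  have h := T.bd 0 (by rw [nC_zero]; exact hr)
  rw [nC_zero] at h
  exact norm_le_zero_iff.1 (h.trans (by simp))

lemma Tg_one (T : Tg B r k a lam L F H η) (hr : 0 < r) : H 1 = 0 := by
  have h := T.near 0 (by rw [nC_zero]; exact hr)
  rw [uE_zero, Tg_eta_zero T hr] at h
  rw [h]
  simp [qC]

/-- **the perturbed remainder to the first order** -/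
theorem Tg_mT_sub (T : Tg B r k a lam L F H η) (hr1 : r ≤ 1) (hn : |a| + lam + L ≤ 1)
    (ht : |t| ≤ 1 / 100) {x : Fin n → ℂ} (hx : nC x < r) :
    ‖N991.MK.mT a t m η x - m x - t * η x‖ ≤ t ^ 2 * nC x ^ 4 := by
  have h0 := nC_nonneg x
  have h1 := T.phT_le hr1 hn hx
  have hq : nC x ^ 2 ≤ 1 := pow_le_one₀ h0 (by linarith)
  obtain ⟨w, hw⟩ : ∃ w : ℂ, w = (t : ℂ) * phT a η x := ⟨_, rfl⟩
  have h2 : ‖w‖ ≤ 1 / 100 := by
    rw [hw, norm_mul, Complex.norm_real, Real.norm_eq_abs]
    have h3 := norm_nonneg (phT a η x)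
    have h4 := abs_nonneg t
    nlinarith
  have h3 := Complex.norm_log_one_add_sub_self_le (z := w) (by linarith)
  have e : N991.MK.mT a t m η x - m x - t * η x = -(Complex.log (1 + w) - w) := by
    rw [hw]
    unfold N991.MK.mT phT
    ring
  rw [e, norm_neg]
  refine h3.trans ?_
  have h4 : (1 - ‖w‖)⁻¹ ≤ 2 := by
    rw [inv_le_comm₀ (by linarith) (by norm_num)]
    linarith
  have h5 : ‖w‖ ^ 2 ≤ t ^ 2 * nC x ^ 4 := by
    rw [hw, norm_mul, Complex.norm_real, Real.norm_eq_abs, mul_pow, sq_abs]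
    have h6 := pow_le_pow_left₀ (norm_nonneg _) h1 2
    calc t ^ 2 * ‖phT a η x‖ ^ 2 ≤ t ^ 2 * (nC x ^ 2) ^ 2 :=
          mul_le_mul_of_nonneg_left h6 (sq_nonneg t)
      _ = _ := by ring
  calc ‖w‖ ^ 2 * (1 - ‖w‖)⁻¹ / 2 ≤ ‖w‖ ^ 2 * 2 / 2 := by gcongr
    _ = ‖w‖ ^ 2 := by ring
    _ ≤ _ := h5

/-- **the difference of the perturbed state and the state** -/
theorem Tg_dd (T : Tg B r k a lam L F H η) (hgr : GoodR B r)
    (hn : |a| + lam + L ≤ 1) (ht : |t| ≤ 1 / 100) :
    Dd B r k (k + t * a) (|t| * max lam L + t ^ 2) F (fun u => F u + t * H u) m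
      (N991.MK.mT a t m η) := by
  have hr := hgr.pos
  have hr1 : r ≤ 1 := hgr.le.trans (by norm_num)
  have hmx : 0 ≤ max lam L := T.lam0.trans (le_max_left _ _)
  have ht0 := abs_nonneg t
  refine ⟨by positivity, fun x hx => ?_, fun v y hv hc => ?_⟩
  · have h2 := Tg_mT_sub (m := m) T hr1 hn ht hx
    have h4 := T.bd x hx
    have e : N991.MK.mT a t m η x - m x =
        t * η x + (N991.MK.mT a t m η x - m x - t * η x) := by ring
    rw [e]
    refine (norm_add_le _ _).trans ?_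
    rw [norm_mul, Complex.norm_real, Real.norm_eq_abs]
    have h5 : |t| * ‖η x‖ ≤ |t| * (max lam L * nC x ^ 4) := by
      refine mul_le_mul_of_nonneg_left (h4.trans ?_) ht0
      exact mul_le_mul_of_nonneg_right (le_max_left _ _) (by have := nC_nonneg x; positivity)
    calc _ ≤ |t| * (max lam L * nC x ^ 4) + t ^ 2 * nC x ^ 4 := add_le_add h5 h2
      _ = _ := by ring
  · have hv0 := nE_nonneg v
    have hy0 := nN_nonneg y
    have h3 := T.far v y hv hc
    have hX := far_neg hr hv0 hy0 hv hc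
    beta_reduce
    rw [add_sub_cancel_left, norm_mul, Complex.norm_real, Real.norm_eq_abs]
    obtain ⟨X, hXd⟩ : ∃ X : ℝ, X = 1.01 * nE v ^ 2 - 0.99 * min (nN y) r ^ 2 := ⟨_, rfl⟩
    rw [← hXd] at h3 hX ⊢
    have h4 : Real.exp (k / 2 * X) ≤ Real.exp (min k (k + t * a) / 2 * X) := by
      refine Real.exp_le_exp.2 ?_
      have h5 : min k (k + t * a) ≤ k := min_le_left _ _
      nlinarith
    have hE := Real.exp_pos (k / 2 * X)
    calc |t| * ‖H (uE B (Complex.I • rl v) * uG y)‖ ≤ |t| * (L * Real.exp (k / 2 * X)) :=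
          mul_le_mul_of_nonneg_left h3 ht0
      _ ≤ |t| * (max lam L * Real.exp (min k (k + t * a) / 2 * X)) := by
          refine mul_le_mul_of_nonneg_left ?_ ht0
          exact mul_le_mul (le_max_right _ _) h4 hE.le hmx
      _ = |t| * max lam L * Real.exp (min k (k + t * a) / 2 * X) := by ring
      _ ≤ _ := by
          refine mul_le_mul_of_nonneg_right ?_ (Real.exp_pos _).le
          have := sq_nonneg t
          linarith

variable [CompactSpace G] [MeasurableSpace G] [BorelSpace G]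

/-- **the perturbed state is a state** -/
theorem Tg_nr (T : Tg B r k a lam L F H η) (hgr : GoodR B r) (hN : NR B r ε k M f F m)
    (hg : CF g H) (hS : TubeS B r k F) (hn : |a| + lam + L ≤ 1)
    (ht : |t| ≤ 1 / 100) (hk : 1 ≤ k) {ε' : ℝ} (hε : (M + 1) * r ^ 2 ≤ ε' * (k - 1))
    (hε' : ε' ≤ 1 / 2000) (hε0 : 0 ≤ ε') :
    NR B r ε' (k + t * a) (M + 1) (fun x => f x + t * g x) (fun u => F u + t * H u)
      (N991.MK.mT a t m η) := by
  have hr := hgr.pos
  have hr1 : r ≤ 1 := hgr.le.trans (by norm_num)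
  have hH := Tg_one T hr
  have hta : |t * a| ≤ 1 := by
    rw [abs_mul]
    have := abs_nonneg t
    have := abs_nonneg a
    have := T.lam0
    have := T.L0
    nlinarith
  have hta' := (abs_le.1 hta).1
  have hM : (M + 1) * r ^ 2 ≤ k / 2000 := by
    refine hε.trans ?_
    have := mul_le_mul_of_nonneg_right hε' (by linarith : 0 ≤ k - 1)
    linarith
  obtain ⟨hst, -⟩ := T.st hr1 hn hN.st hN.one hH (t := t) (by linarith)
  have hst' : St B r (k + t * a) (M + 1) (fun u => F u + t * H u) (N991.MK.mT a t m η) := by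
    refine ⟨hst.eq, hst.md, hst.even, fun x hx => (hst.bd x hx).trans ?_⟩
    refine mul_le_mul_of_nonneg_right (by linarith) ?_
    have := nC_nonneg x
    positivity
  refine ⟨cf_add hN.cf hg t, ?_, hst', T.tube hgr hn hN.st hN.one hH hS ht hk hM,
    by have := hN.M0; linarith, ?_⟩
  · beta_reduce
    rw [hH, hN.one]
    simp
  · refine hε.trans (mul_le_mul_of_nonneg_left (by linarith) hε0)

end

end Pool.Agent.N988.MK
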