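import Mathlib
import Pool.Agent.N984.T3.Sharp
import Pool.Agent.N985.T3.Lim3
import Pool.Agent.N988.MK.Tan8

/-!
# The tangent law of the convolution square
-/

open MeasureTheory Filter Metric Asymptotics Matrix
open scoped Matrix.Norms.Frobenius Topology ContDiff
open Pool.Agent.H906R3.YM Pool.Agent.W793.YM Pool.Agent.TH618.YM Pool.Agent.N984.TW
open Pool.Agent.N991.MK Pool.Agent.N985.T3

namespace Pool.Agent.N988.MK

set_option linter.unusedSectionVars false

noncomputable section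

variable {N n : ℕ} {G : Subgroup (UN N)} {B : Frame G n}
variable [CompactSpace G] [MeasurableSpace G] [BorelSpace G]

lemma NR.mono {r ε ε' k M : ℝ} {f : G → ℝ} {F : (Mat N)ˣ → ℂ} {m : (Fin n → ℂ) → ℂ}
    (h : NR B r ε k M f F m) (hk : 0 ≤ k) (hε : ε ≤ ε') : NR B r ε' k M f F m :=
  ⟨h.cf, h.one, h.st, h.tb, h.M0, h.Ml.trans (mul_le_mul_of_nonneg_right hε hk)⟩

lemma convC_smul_left (μ : Measure G) (c : ℂ) (H F : (Mat N)ˣ → ℂ) (u : (Mat N)ˣ) :
    convC μ (fun u => c * H u) F u = c * convC μ H F u := by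
  unfold convC
  rw [← integral_const_mul]
  refine integral_congr_ae (Eventually.of_forall fun z => ?_)
  beta_reduce
  ring

lemma convC_smul_right (μ : Measure G) (c : ℂ) (H F : (Mat N)ˣ → ℂ) (u : (Mat N)ˣ) :
    convC μ F (fun u => c * H u) u = c * convC μ F H u := by
  unfold convC
  rw [← integral_const_mul]
  refine integral_congr_ae (Eventually.of_forall fun z => ?_)
  beta_reduce
  ring

/-- the identification of the tangent vector -/
lemma dn_eq (μ : Measure G) (f g : G → ℝ) (hW : conv μ f f 1 ≠ 0) :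
    dn μ f g = ng (conv μ f f) (dcv μ f g) := by
  funext x
  unfold dn ng dc dcv
  field_simp
  ring

/-- **the tangent law of the convolution square** -/
theorem exists_linC (μ : Measure G) [IsProbabilityMeasure μ] [μ.IsMulLeftInvariant]
    [μ.IsMulRightInvariant] [μ.IsInvInvariant] (hG : IsClosed (G : Set (UN N))) (hI : IsoG B)
    (hn : 0 < n) {cA : ℝ}
    (hcA : ∀ x : Fin n → ℝ, ∑ a, ‖LX B x * B.X a - B.X a * LX B x‖ ^ 2 = cA * nE x ^ 2)
    (h6 : H6 B) (hcas : CasPair B cA) :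
    ∃ r₁ ε₁ : ℝ, 0 < r₁ ∧ r₁ ≤ 1 ∧ 0 < ε₁ ∧ ε₁ ≤ 1 / 2000 ∧ ∀ ε : ℝ, 0 < ε → ε ≤ ε₁ →
      ∀ r : ℝ, 0 < r → r ≤ r₁ → GoodR B r ∧
      ∃ k₀ K : ℝ, 1 ≤ k₀ ∧ 0 ≤ K ∧ LinC B μ r ε k₀ K := by
  obtain ⟨rA, εA, hrA, hrA1, hεA, hεA2, hA⟩ := conv_NS B μ hG hI hn
  obtain ⟨rB, εB, hrB, hrB1, hεB, hεB2, hB⟩ := lim_conv (B := B) μ hG hI hn
  obtain ⟨rC, εC, hrC, hrC1, hεC, hεC2, hC⟩ := T3.sharp_line (μ := μ) hG hI hn hcA h6 hcas
  refine ⟨min rA (min rB rC), min εA (min (εB / 2) εC), by positivity,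
    (min_le_left _ _).trans hrA1, by positivity, (min_le_left _ _).trans hεA2,
    fun ε hε hεε r hr hrr => ?_⟩
  have q1 : r ≤ rA := hrr.trans (min_le_left _ _)
  have q2 : r ≤ rB := hrr.trans ((min_le_right _ _).trans (min_le_left _ _))
  have q3 : r ≤ rC := hrr.trans ((min_le_right _ _).trans (min_le_right _ _))
  have e1 : ε ≤ εA := hεε.trans (min_le_left _ _)
  have e2 : ε ≤ εB / 2 := hεε.trans ((min_le_right _ _).trans (min_le_left _ _))
  have e3 : ε ≤ εC := hεε.trans ((min_le_right _ _).trans (min_le_right _ _))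
  have hr1 : r ≤ 1 := q1.trans hrA1
  have hr21 : r ^ 2 ≤ 1 := pow_le_one₀ hr.le hr1
  obtain ⟨hgr, kA, KA, hkA, hKA, hA⟩ := hA ε hε e1 r hr q1
  obtain ⟨-, kB, KB, hkB, hKB, hB⟩ := hB εB hεB le_rfl r hr q2
  obtain ⟨-, kC, KC, hkC, hKC, hC⟩ := hC r hr q3
  obtain ⟨K, hK⟩ : ∃ K, K = max KA (max KB (2 * KC)) := ⟨_, rfl⟩
  have hKa : KA ≤ K := by rw [hK]; exact le_max_left _ _
  have hKb : KB ≤ K := by rw [hK]; exact (le_max_left _ _).trans (le_max_right _ _)
  have hKc : 2 * KC ≤ K := by rw [hK]; exact (le_max_right _ _).trans (le_max_right _ _)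
  have hK0 : 0 ≤ K := hKA.trans hKa
  refine ⟨hgr, max (max kA kB) (max kC (4 / εB)), K,
    hkA.trans ((le_max_left _ _).trans (le_max_left _ _)), hK0,
    fun {k M a l f g F H m η} hk hN hS hg T => ?_⟩
  have l1 : kA ≤ k := ((le_max_left _ _).trans (le_max_left _ _)).trans hk
  have l2 : kB ≤ k := ((le_max_right _ _).trans (le_max_left _ _)).trans hk
  have l3 : kC ≤ k := ((le_max_left _ _).trans (le_max_right _ _)).trans hk
  have l4 : 4 / εB ≤ k := ((le_max_right _ _).trans (le_max_right _ _)).trans hk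
  have hk1 : 1 ≤ k := hkA.trans l1
  have hk0 : 0 < k := by linarith
  have hM := hN.M0
  have hl := T.lam0
  obtain ⟨hW, k', M', m', a1, a2, N', S', s'⟩ := hA l1 hN
  have hcond : (M + 1) * r ^ 2 ≤ εB * (k - 1) := by
    have h1 : 4 ≤ k * εB := by rwa [div_le_iff₀ hεB] at l4
    have h2 := hN.Ml
    have h3 : ε * k ≤ εB / 2 * k := mul_le_mul_of_nonneg_right e2 hk0.le
    nlinarith
  obtain ⟨a₁, η₁, T₁, b1⟩ := hB l2 hcond (hN.toNR.mono hk0.le (by linarith)) hS hg T s'
  rw [max_self] at T₁ b1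
  -- the extensions
  have hcf : CF (conv μ f f) (convC μ F F) := hN.cf.convC hN.cf
  have hone : convC μ F F 1 = ((conv μ f f 1 : ℝ) : ℂ) := by
    have h1 := hcf.res 1
    have h2 : (uG (1 : G) : (Mat N)ˣ) = 1 := map_one _
    rwa [h2] at h1
  have hWC : ((conv μ f f 1 : ℝ) : ℂ) ≠ 0 := Complex.ofReal_ne_zero.2 hW.ne'
  have eF : nC2 μ F = fun u => (((conv μ f f 1)⁻¹ : ℝ) : ℂ) * convC μ F F u := by
    funext u
    unfold nC2
    rw [hone]
    push_cast
    rw [div_eq_inv_mul]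
  have hgcf : CF (ng (conv μ f f) (dcv μ f g)) (dN μ F H) := by
    rw [← dn_eq μ f g hW.ne']
    exact cf_dn hN.cf hg
  have hX0 : 0 ≤ (|a| + l) / k := by positivity
  have hKK : KB * (|a| + l) / k ≤ K * (|a| + l) / k := by
    rw [mul_div_assoc, mul_div_assoc]
    exact mul_le_mul_of_nonneg_right hKb hX0
  -- the sharp line
  have hrel : ∀ x, nC x < r → convC μ H F (uE B x) + convC μ F H (uE B x) =
      convC μ F F (uE B x) * (dC μ F H 1 / convC μ F F 1 - (a₁ : ℂ) / 2 * qC x - η₁ x) := by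
    intro x hx
    have h1 := T₁.near x hx
    unfold dN nC2 at h1
    rw [hone] at h1 ⊢
    have h2 : dC μ F H (uE B x) = convC μ H F (uE B x) + convC μ F H (uE B x) := rfl
    rw [← h2]
    field_simp at h1 ⊢
    linear_combination h1
  have hsharp : |a₁ - a / 2| ≤ K * (l / k + (|a| + l) * (1 + M) / k ^ 2) := by
    obtain ⟨S, hSd⟩ : ∃ S, S = |a| + l + l := ⟨_, rfl⟩
    have ha := abs_nonneg a
    have hS0 : 0 ≤ S := by rw [hSd]; positivity
    rcases hS0.eq_or_lt with h0 | hpos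
    · have h1 : |a| + l = 0 := by linarith
      rw [h1] at b1
      have h2 : |a₁ - a / 2| ≤ 0 := by simpa using b1
      refine h2.trans ?_
      positivity
    · obtain ⟨c, hc⟩ : ∃ c, c = S⁻¹ := ⟨_, rfl⟩
      have hc0 : 0 < c := by rw [hc]; positivity
      have hcS : c * S = 1 := by rw [hc]; exact inv_mul_cancel₀ hpos.ne'
      have hsum : |c * a| + c * l + c * l ≤ 1 := by
        rw [abs_mul, abs_of_pos hc0, ← hcS, hSd]
        exact le_of_eq (by ring)
      have T2 := Tg.smul T hc0.le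
      have key := (hC l3 (hN.toNR.mono hk0.le e3) hS (cf_smul hg c) T2 hsum s').1
        (a1 := c * a₁) (Λ := c * (l / 8 + KB * (|a| + l) / k))
        (γ := c * (dC μ F H 1 / convC μ F F 1)) (η' := fun x => c * η₁ x)
        (fun x hx => by
          rw [convC_smul_left, convC_smul_right, ← mul_add, hrel x hx]
          push_cast
          ring)
        (fun x hx => by
          rw [norm_mul, Complex.norm_real, Real.norm_eq_abs, abs_of_pos hc0, mul_assoc]
          exact mul_le_mul_of_nonneg_left (T₁.bd x hx) hc0.le)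
      have h2 := key.2
      have h3 : c * a₁ - c * a / 2 = c * (a₁ - a / 2) := by ring
      rw [h3, abs_mul, abs_of_pos hc0] at h2
      have h4 : |a₁ - a / 2| = S * (c * |a₁ - a / 2|) := by
        rw [← mul_assoc, mul_comm S c, hcS, one_mul]
      rw [h4]
      calc S * (c * |a₁ - a / 2|) ≤ S * (KC * (c * l / k + (1 + M) / k ^ 2)) :=
            mul_le_mul_of_nonneg_left h2 hS0
        _ = KC * ((c * S) * (l / k) + S * (1 + M) / k ^ 2) := by ring
        _ = KC * (l / k + S * (1 + M) / k ^ 2) := by rw [hcS, one_mul]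
        _ ≤ KC * (2 * (l / k + (|a| + l) * (1 + M) / k ^ 2)) := by
            refine mul_le_mul_of_nonneg_left ?_ hKC
            have h5 : S * (1 + M) / k ^ 2 ≤ 2 * (|a| + l) * (1 + M) / k ^ 2 := by
              gcongr
              rw [hSd]; linarith
            have h6 : 0 ≤ l / k := by positivity
            calc l / k + S * (1 + M) / k ^ 2 ≤ 2 * (l / k) + 2 * (|a| + l) * (1 + M) / k ^ 2 := by
                  linarith
              _ = _ := by ring
        _ = 2 * KC * (l / k + (|a| + l) * (1 + M) / k ^ 2) := by ring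
        _ ≤ _ := mul_le_mul_of_nonneg_right hKc (by positivity)
  refine ⟨k', M', a₁, _, _, m', η₁, N', S', hgcf, ?_, a1.trans hKa, a2.trans (by linarith), hsharp⟩
  rw [← eF]
  refine Tg.mono T₁ (by linarith) ?_
  have : 0 ≤ l / 8 := by positivity
  linarith

end

end Pool.Agent.N988.MK
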