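import Mathlib
import Pool.Agent.N681.MK.TanDefs
import Pool.Agent.N988.MK.Tan8

/-!
# The tangent vectors on the group
-/

open MeasureTheory Filter Metric Asymptotics Matrix
open scoped Matrix.Norms.Frobenius Topology ContDiff
open Pool.Agent.H906R3.YM Pool.Agent.W793.YM Pool.Agent.TH618.YM Pool.Agent.N984.TW
open Pool.Agent.N991.MK

namespace Pool.Agent.N988.MK

set_option linter.unusedSectionVars false

noncomputable section

variable {N n : ℕ} {G : Subgroup (UN N)} {B : Frame G n}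
variable [CompactSpace G] [MeasurableSpace G] [BorelSpace G] [SecondCountableTopology G]
  {μ : Measure G} [IsProbabilityMeasure μ] [μ.IsHaarMeasure] [μ.IsMulRightInvariant]
  [μ.IsInvInvariant]

/-- a state is largest at the identity -/
lemma NS.le_oneC {r ε k M : ℝ} {f : G → ℝ} {F : (Mat N)ˣ → ℂ} {m : (Fin n → ℂ) → ℂ}
    (h : NS B r ε k M f F m) (hr : 0 < r) (hk : 0 ≤ k) (y : G) : ‖F (uG y)‖ ≤ 1 := by
  have h1 := h.tb 0 y (by rw [nE_zero]; positivity)
  have e : uE B (Complex.I • rl (0 : Fin n → ℝ)) = 1 := by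
    have : (Complex.I • rl (0 : Fin n → ℝ)) = 0 := by
      funext i
      simp [rl]
    rw [this, uE_zero]
  rw [e, one_mul, h.one, norm_one, one_mul] at h1
  refine h1.trans (Real.exp_le_one_iff.2 ?_)
  rw [nE_zero]
  have h2 : 0 ≤ min (nN y) r ^ 2 := sq_nonneg _
  have h3 : 1.01 * (0 : ℝ) ^ 2 - 0.99 * min (nN y) r ^ 2 ≤ 0 := by
    norm_num
    positivity
  exact mul_nonpos_of_nonneg_of_nonpos (by positivity) h3

/-- **the tangent vectors are bounded** -/
theorem TSt.close (hG : IsClosed (G : Set (UN N))) {r ε h0 C1 : ℝ} (hgr : GoodR B r)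
    {f g : G → ℝ} {h ρ a l : ℝ} (hh : 0 ≤ h) (hP : PSt B μ r ε h0 C1 f h ρ)
    (T : TSt B r f g h a l) (y : G) : |ng f g y| ≤ |a| + l := by
  have hr := hgr.pos
  have hr1 : r ≤ 1 := hgr.le.trans (by norm_num)
  obtain ⟨hρ, F, m, b1, b2, b3, b4, b5, b6, -⟩ := hP
  have hN := NS.of_st b1 b2 b3 b4 b5 b6
  obtain ⟨H, η, hg, T⟩ := T.of hG hN.cf
  have e0 : |ng f g y| = ‖H (uG y)‖ := by
    rw [hg.res, Complex.norm_real, Real.norm_eq_abs]
  have e : uE B (Complex.I • rl (0 : Fin n → ℝ)) = 1 := by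
    have : (Complex.I • rl (0 : Fin n → ℝ)) = 0 := by
      funext i
      simp [rl]
    rw [this, uE_zero]
  have ha := abs_nonneg a
  have hl := T.lam0
  have hy0 := nN_nonneg y
  rw [e0]
  by_cases hc : nN y ≤ 0.95 * r
  · obtain ⟨x, x1, -, x3, -, x5⟩ := hgr.near 0 y (by rw [nE_zero]; exact hr.le) (by linarith)
    rw [e, one_mul] at x1
    rw [nE_zero, mul_zero] at x5
    have h1 := nE_re_im x
    have h4 := nE_nonneg (imP x)
    have h5 : nE (imP x) = 0 := le_antisymm x5 h4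
    have h6 := nE_nonneg (reP x)
    have hx : nC x < r := by
      have h2 := nC_nonneg x
      have h7 : nC x ^ 2 ≤ (0.951 * r) ^ 2 := by
        rw [h5] at h1
        nlinarith
      nlinarith
    rw [← x1, T.near x hx, norm_mul, x1]
    have h7 := hN.le_oneC hr hh y
    have h8 : ‖-((a : ℂ) / 2) * qC x - η x‖ ≤ |a| + l := by
      refine (norm_sub_le _ _).trans ?_
      rw [norm_mul, norm_neg, norm_div, Complex.norm_real, Real.norm_eq_abs]
      have n1 := norm_qC_le x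
      have n2 := T.bd x hx
      have n3 : nC x ^ 2 ≤ 1 := pow_le_one₀ (nC_nonneg x) (by linarith)
      have n4 : nC x ^ 4 ≤ 1 := pow_le_one₀ (nC_nonneg x) (by linarith)
      have n5 : |a| / ‖(2 : ℂ)‖ * ‖qC x‖ ≤ |a| := by
        have : ‖(2 : ℂ)‖ = 2 := by norm_num
        rw [this]
        have : |a| / 2 * ‖qC x‖ ≤ |a| / 2 * 1 :=
          mul_le_mul_of_nonneg_left (n1.trans n3) (by positivity)
        linarith
      have n6 : l * nC x ^ 4 ≤ l * 1 := mul_le_mul_of_nonneg_left n4 hl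
      linarith
    exact (mul_le_mul h7 h8 (norm_nonneg _) (by norm_num)).trans (le_of_eq (one_mul _))
  · push Not at hc
    have h1 := T.far 0 y (by rw [nE_zero]; positivity) (by
      rw [nE_zero]
      have : (0.95 * r) ^ 2 < nN y ^ 2 := pow_lt_pow_left₀ hc (by positivity) (by norm_num)
      linarith)
    rw [e, one_mul] at h1
    refine h1.trans ?_
    have h2 : Real.exp (h / 2 * (1.01 * nE (0 : Fin n → ℝ) ^ 2 - 0.99 * min (nN y) r ^ 2)) ≤ 1 := by
      refine Real.exp_le_one_iff.2 ?_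
      rw [nE_zero]
      have h3 : 1.01 * (0 : ℝ) ^ 2 - 0.99 * min (nN y) r ^ 2 ≤ 0 := by
        norm_num
        positivity
      exact mul_nonpos_of_nonneg_of_nonpos (by positivity) h3
    calc _ ≤ l * 1 := mul_le_mul_of_nonneg_left h2 hl
      _ ≤ _ := by linarith

/-- **the tangent vectors near the identity** -/
theorem TSt.near (hG : IsClosed (G : Set (UN N))) {r ε h0 C1 : ℝ}
    {f g : G → ℝ} {h ρ a l : ℝ} (hP : PSt B μ r ε h0 C1 f h ρ)
    (T : TSt B r f g h a l) {v : Fin n → ℝ} (hv : nE v < r) :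
    |Pool.Agent.N681.MK.fld f g (Eg B hG v) + a / 2 * nE v ^ 2| ≤ l * nE v ^ 4 := by
  obtain ⟨hρ, F, m, b1, b2, b3, b4, b5, b6, -⟩ := hP
  have hN := NS.of_st b1 b2 b3 b4 b5 b6
  obtain ⟨H, η, hg, T⟩ := T.of hG hN.cf
  have e1 : nC (rl v) = nE v := nC_rl v
  have e2 : qC (rl v) = ((nE v ^ 2 : ℝ) : ℂ) := by
    rw [qC_rl]
  have h1 := T.near (rl v) (by rw [e1]; exact hv)
  have h2 := T.bd (rl v) (by rw [e1]; exact hv)
  rw [uE_rl B hG, hg.res, hN.cf.res, e2] at h1
  rw [e1] at h2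
  have hf1 := b2 1
  have hfx := b2 (Eg B hG v)
  have h3 : Pool.Agent.N681.MK.fld f g (Eg B hG v) =
      ng f g (Eg B hG v) / ((f 1)⁻¹ * f (Eg B hG v)) := by
    unfold Pool.Agent.N681.MK.fld ng
    field_simp
  have h4 : ((Pool.Agent.N681.MK.fld f g (Eg B hG v) + a / 2 * nE v ^ 2 : ℝ) : ℂ) =
      -η (rl v) := by
    rw [h3]
    push_cast
    rw [h1]
    have c1 : (f 1 : ℂ) ≠ 0 := Complex.ofReal_ne_zero.2 hf1.ne'
    have c2 : (f (Eg B hG v) : ℂ) ≠ 0 := Complex.ofReal_ne_zero.2 hfx.ne'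
    push_cast
    field_simp
    ring
  have h5 : |Pool.Agent.N681.MK.fld f g (Eg B hG v) + a / 2 * nE v ^ 2| = ‖η (rl v)‖ := by
    rw [← Real.norm_eq_abs, ← Complex.norm_real, h4, norm_neg]
  rw [h5]
  exact h2

end

end Pool.Agent.N988.MK
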