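import Mathlib
import Pool.Agent.N991.MK.Wil

/-!
# Polynomial class functions and their entire extensions
-/

open MeasureTheory Filter Metric Asymptotics Matrix
open scoped Matrix.Norms.Frobenius Topology ContDiff
open Pool.Agent.H906R3.YM Pool.Agent.W793.YM Pool.Agent.TH618.YM Pool.Agent.N984.TW
open Pool.Agent.N991.MK

namespace Pool.Agent.N988.MK

set_option linter.unusedSectionVars false

noncomputable section

variable {N n : ℕ} {G : Subgroup (UN N)}

/-- the real and imaginary parts of the matrix entries -/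
def co (g : G) : (Fin N × Fin N) ⊕ (Fin N × Fin N) → ℝ :=
  Sum.elim (fun i => (mt g i.1 i.2).re) (fun i => (mt g i.1 i.2).im)

/-- a polynomial in the real and imaginary parts of the matrix entries -/
def IsPol (S : G → ℝ) : Prop :=
  ∃ p : MvPolynomial ((Fin N × Fin N) ⊕ (Fin N × Fin N)) ℝ, ∀ g : G, S g = p.eval (co g)

/-- the holomorphic coordinates -/
def coC (q : Mat N × Mat N) : (Fin N × Fin N) ⊕ (Fin N × Fin N) → ℂ :=
  Sum.elim (fun i => (q.1 i.1 i.2 + q.2 i.2 i.1) / 2)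
    (fun i => (q.1 i.1 i.2 - q.2 i.2 i.1) / (2 * Complex.I))

lemma coC_mt (g : G) : coC (mt g, mt g⁻¹) = (algebraMap ℝ ℂ) ∘ (co g) := by
  funext i
  rcases i with i | i
  · have h : mt g⁻¹ i.2 i.1 = star (mt g i.1 i.2) := by rw [mt_inv_star]; rfl
    simp only [coC, co, Sum.elim_inl, Function.comp_apply, Complex.coe_algebraMap, h]
    rw [Complex.star_def, Complex.add_conj]
    push_cast
    ring
  · have h : mt g⁻¹ i.2 i.1 = star (mt g i.1 i.2) := by rw [mt_inv_star]; rfl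
    simp only [coC, co, Sum.elim_inr, Function.comp_apply, Complex.coe_algebraMap, h]
    rw [Complex.star_def, Complex.sub_conj]
    have hI : (2 * Complex.I : ℂ) ≠ 0 := by simp
    field_simp
    push_cast
    ring

/-- an entry as a continuous linear map -/
lemma entry_contDiff (i j : Fin N) : ContDiff ℂ ∞ fun A : Mat N => A i j := by
  have h : IsLinearMap ℂ fun A : Mat N => A i j := ⟨fun A D => rfl, fun c A => rfl⟩
  exact (LinearMap.toContinuousLinearMap (h.mk' _)).contDiff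

/-- the holomorphic extension of a polynomial -/
def phC (p : MvPolynomial ((Fin N × Fin N) ⊕ (Fin N × Fin N)) ℝ) (q : Mat N × Mat N) : ℂ :=
  MvPolynomial.aeval (coC q) p

lemma phC_contDiff (p : MvPolynomial ((Fin N × Fin N) ⊕ (Fin N × Fin N)) ℝ) :
    ContDiff ℂ ∞ (phC p) := by
  unfold phC
  induction p using MvPolynomial.induction_on with
  | C a =>
    have : (fun q : Mat N × Mat N => (MvPolynomial.aeval (coC q)) (MvPolynomial.C a)) =
        fun _ => ((a : ℝ) : ℂ) := by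
      funext q
      rw [MvPolynomial.aeval_C]
      rfl
    rw [this]
    exact contDiff_const
  | add p q hp hq =>
    simp only [map_add]
    exact hp.add hq
  | mul_X p i hp =>
    simp only [map_mul, MvPolynomial.aeval_X]
    refine hp.mul ?_
    rcases i with i | i
    · simp only [coC, Sum.elim_inl]
      exact (((entry_contDiff i.1 i.2).comp contDiff_fst).add
        ((entry_contDiff i.2 i.1).comp contDiff_snd)).div_const 2
    · simp only [coC, Sum.elim_inr]
      exact (((entry_contDiff i.1 i.2).comp contDiff_fst).sub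
        ((entry_contDiff i.2 i.1).comp contDiff_snd)).div_const _

lemma phC_mt (p : MvPolynomial ((Fin N × Fin N) ⊕ (Fin N × Fin N)) ℝ) (g : G) :
    phC p (mt g, mt g⁻¹) = ((p.eval (co g) : ℝ) : ℂ) := by
  unfold phC
  rw [coC_mt, MvPolynomial.aeval_algebraMap_apply, ← MvPolynomial.coe_aeval_eq_eval]
  rfl

variable [CompactSpace G] [MeasurableSpace G] [BorelSpace G] (μ : Measure G)
  [IsProbabilityMeasure μ] [μ.IsMulLeftInvariant] [μ.IsMulRightInvariant] [μ.IsInvInvariant]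

/-- the symmetrised extension -/
def syC (p : MvPolynomial ((Fin N × Fin N) ⊕ (Fin N × Fin N)) ℝ) (u : (Mat N)ˣ) : ℂ :=
  ∫ z : G, (phC p (mt z * (u : Mat N) * mt z⁻¹, mt z * ((u⁻¹ : (Mat N)ˣ) : Mat N) * mt z⁻¹) +
    phC p (mt z * ((u⁻¹ : (Mat N)ˣ) : Mat N) * mt z⁻¹, mt z * (u : Mat N) * mt z⁻¹)) / 2 ∂μ

theorem CF_syC {S : G → ℝ} (p : MvPolynomial ((Fin N × Fin N) ⊕ (Fin N × Fin N)) ℝ)
    (hp : ∀ g : G, S g = p.eval (co g)) (hc : ∀ g h : G, S (h * g * h⁻¹) = S g)
    (hs : ∀ g : G, S g⁻¹ = S g) : CF S (syC μ p) where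
  hol := by
    refine ⟨fun q => ∫ z : G, (phC p (mt z * q.1 * mt z⁻¹, mt z * q.2 * mt z⁻¹) +
      phC p (mt z * q.2 * mt z⁻¹, mt z * q.1 * mt z⁻¹)) / 2 ∂μ, ?_, fun u => rfl⟩
    refine contDiff_integral_paramC μ (fun z : G => (mt z, mt z⁻¹))
      (mt_cont.prodMk mt_inv_cont) (fun q : (Mat N × Mat N) × (Mat N × Mat N) =>
        (phC p (q.2.1 * q.1.1 * q.2.2, q.2.1 * q.1.2 * q.2.2) +
          phC p (q.2.1 * q.1.2 * q.2.2, q.2.1 * q.1.1 * q.2.2)) / 2) ?_
    have e1 : ContDiff ℂ ∞ fun q : (Mat N × Mat N) × (Mat N × Mat N) => q.2.1 * q.1.1 * q.2.2 :=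
      ((contDiff_fst.comp contDiff_snd).mul (contDiff_fst.comp contDiff_fst)).mul
        (contDiff_snd.comp contDiff_snd)
    have e2 : ContDiff ℂ ∞ fun q : (Mat N × Mat N) × (Mat N × Mat N) => q.2.1 * q.1.2 * q.2.2 :=
      ((contDiff_fst.comp contDiff_snd).mul (contDiff_snd.comp contDiff_fst)).mul
        (contDiff_snd.comp contDiff_snd)
    exact (((phC_contDiff p).comp (e1.prodMk e2)).add
      ((phC_contDiff p).comp (e2.prodMk e1))).div_const 2
  cls g u := by
    unfold syC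
    rw [← integral_mul_right_eq_self (μ := μ) (fun z : G =>
      (phC p (mt z * (u : Mat N) * mt z⁻¹, mt z * ((u⁻¹ : (Mat N)ˣ) : Mat N) * mt z⁻¹) +
        phC p (mt z * ((u⁻¹ : (Mat N)ˣ) : Mat N) * mt z⁻¹, mt z * (u : Mat N) * mt z⁻¹)) / 2) g]
    refine integral_congr_ae (Eventually.of_forall fun z => ?_)
    beta_reduce
    have h1 : mt z * ((uG g * u * (uG g)⁻¹ : (Mat N)ˣ) : Mat N) * mt z⁻¹ =
        mt (z * g) * (u : Mat N) * mt (z * g)⁻¹ := by
      rw [Units.val_mul, Units.val_mul, uG_val, uG_inv_val, _root_.mul_inv_rev, mt_mul, mt_mul]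
      simp only [mul_assoc]
    have h2 : mt z * (((uG g * u * (uG g)⁻¹)⁻¹ : (Mat N)ˣ) : Mat N) * mt z⁻¹ =
        mt (z * g) * ((u⁻¹ : (Mat N)ˣ) : Mat N) * mt (z * g)⁻¹ := by
      have e : (uG g * u * (uG g)⁻¹)⁻¹ = uG g * u⁻¹ * (uG g)⁻¹ := by group
      rw [e, Units.val_mul, Units.val_mul, uG_val, uG_inv_val, _root_.mul_inv_rev, mt_mul, mt_mul]
      simp only [mul_assoc]
    rw [h1, h2]
  sym u := by
    unfold syC
    refine integral_congr_ae (Eventually.of_forall fun z => ?_)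
    beta_reduce
    rw [inv_inv, add_comm]
  res g := by
    unfold syC
    have h1 : ∀ z : G, (phC p (mt z * ((uG g : (Mat N)ˣ) : Mat N) * mt z⁻¹,
        mt z * (((uG g)⁻¹ : (Mat N)ˣ) : Mat N) * mt z⁻¹) +
        phC p (mt z * (((uG g)⁻¹ : (Mat N)ˣ) : Mat N) * mt z⁻¹,
          mt z * ((uG g : (Mat N)ˣ) : Mat N) * mt z⁻¹)) / 2 = ((S g : ℝ) : ℂ) := by
      intro z
      have e1 : mt z * ((uG g : (Mat N)ˣ) : Mat N) * mt z⁻¹ = mt (z * g * z⁻¹) := by
        rw [uG_val, mt_mul, mt_mul]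
      have e2 : mt z * (((uG g)⁻¹ : (Mat N)ˣ) : Mat N) * mt z⁻¹ = mt (z * g * z⁻¹)⁻¹ := by
        have : (z * g * z⁻¹)⁻¹ = z * g⁻¹ * z⁻¹ := by group
        rw [uG_inv_val, this, mt_mul, mt_mul]
      have e3 : mt (z * g * z⁻¹) = mt ((z * g * z⁻¹)⁻¹)⁻¹ := by rw [inv_inv]
      rw [e1, e2, phC_mt, ← hp, hc]
      have e4 : phC p (mt (z * g * z⁻¹)⁻¹, mt (z * g * z⁻¹)) = ((S g : ℝ) : ℂ) := by
        have h := phC_mt p ((z * g * z⁻¹)⁻¹)
        rw [inv_inv, ← hp, hs, hc] at h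
        exact h
      rw [e4]
      ring
    simp_rw [h1]
    simp

end

end Pool.Agent.N988.MK
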