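import Mathlib
import Pool.Agent.N988.MK.Del
import Pool.Agent.N991.MK.CNorm

/-!
# The quadratic part of an isotropic function at the identity
-/

open MeasureTheory Filter Metric Asymptotics Matrix
open scoped Matrix.Norms.Frobenius Topology ContDiff Nat
open Pool.Agent.H906R3.YM Pool.Agent.W793.YM Pool.Agent.TH618.YM Pool.Agent.N984.TW
open Pool.Agent.N991.MK

namespace Pool.Agent.N988.MK

set_option linter.unusedSectionVars false

noncomputable section

/-- the quadratic coefficient of a function with quartic error -/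
lemma two_coef {g : ℂ → ℂ} {a : ℂ} {ρ K : ℝ} (hρ : 0 < ρ) (hd : Differentiable ℂ g)
    (hb : ∀ ζ ∈ ball (0 : ℂ) ρ, ‖g ζ - a * ζ ^ 2‖ ≤ K * ‖ζ‖ ^ 4) :
    deriv (deriv g) 0 = 2 * a := by
  obtain ⟨k, hk⟩ : ∃ k : ℂ → ℂ, k = fun ζ => g ζ - a * ζ ^ 2 := ⟨_, rfl⟩
  have hkd : Differentiable ℂ k := by
    rw [hk]
    exact hd.sub ((differentiable_id.pow 2).const_mul a)
  have hC : ∀ R : ℝ, 0 < R → R < ρ → ‖iteratedDeriv 2 k 0‖ ≤ 2 ! * (K * R ^ 4) / R ^ 2 := by
    intro R hR hRρ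
    refine Complex.norm_iteratedDeriv_le_of_forall_mem_sphere_norm_le 2 hR ?_ fun z hz => ?_
    · exact hkd.diffContOnCl
    · rw [mem_sphere_zero_iff_norm] at hz
      have := hb z (by rw [mem_ball_zero_iff, hz]; exact hRρ)
      rw [hz] at this
      rw [hk]
      exact this
  have h0 : iteratedDeriv 2 k 0 = 0 := by
    have h1 : Tendsto (fun R : ℝ => (2 ! : ℝ) * K * R ^ 2) (𝓝[>] 0) (𝓝 0) := by
      have h2 : Continuous fun R : ℝ => (2 ! : ℝ) * K * R ^ 2 := by fun_prop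
      have h3 := h2.tendsto 0
      rw [zero_pow (by omega), mul_zero] at h3
      exact h3.mono_left nhdsWithin_le_nhds
    have h2 : ‖iteratedDeriv 2 k 0‖ ≤ 0 := by
      refine ge_of_tendsto h1 ?_
      filter_upwards [Ioo_mem_nhdsGT hρ] with R hR
      refine (hC R hR.1 hR.2).trans (le_of_eq ?_)
      have h4 : R ≠ 0 := hR.1.ne'
      field_simp
    exact norm_le_zero_iff.1 h2
  have hg : g = fun ζ => k ζ + a * ζ ^ 2 := by
    funext ζ; rw [hk]; ring
  have h1 : deriv g = fun ζ => deriv k ζ + 2 * a * ζ := by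
    funext ζ
    have e1 : HasDerivAt k (deriv k ζ) ζ := (hkd ζ).hasDerivAt
    have e2 : HasDerivAt (fun ζ : ℂ => a * ζ ^ 2) (2 * a * ζ) ζ := by
      have := ((hasDerivAt_id ζ).pow 2).const_mul a
      refine this.congr_deriv ?_
      simp
      ring
    rw [hg]
    exact (e1.add e2).deriv
  have h2 : deriv (deriv k) 0 = 0 := by
    rw [iteratedDeriv_succ, iteratedDeriv_one] at h0
    exact h0
  rw [h1]
  have hdk : Differentiable ℂ (deriv k) := fun ζ =>
    (hkd.contDiff (n := 2)).differentiable_deriv_two.differentiableAt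
  have e1 : HasDerivAt (deriv k) 0 0 := by
    have := (hdk 0).hasDerivAt
    rwa [h2] at this
  have e2 : HasDerivAt (fun ζ : ℂ => 2 * a * ζ) (2 * a) 0 := by
    have := (hasDerivAt_id (0 : ℂ)).const_mul (2 * a)
    refine this.congr_deriv ?_
    simp
  have := (e1.add e2).deriv
  rw [zero_add] at this
  exact this

/-- uniqueness of the quadratic part on the positive axis -/
lemma quad_real {a C ρ : ℝ} (hρ : 0 < ρ) (h : ∀ t : ℝ, 0 < t → t < ρ → a * t ^ 2 ≤ C * t ^ 4) :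
    a ≤ 0 := by
  have hc : Tendsto (fun t : ℝ => C * t ^ 2) (𝓝[>] 0) (𝓝 (C * 0 ^ 2)) := by
    have h2 : Continuous fun t : ℝ => C * t ^ 2 := by fun_prop
    exact (h2.tendsto 0).mono_left nhdsWithin_le_nhds
  rw [zero_pow (by norm_num), mul_zero] at hc
  refine ge_of_tendsto hc ?_
  filter_upwards [Ioo_mem_nhdsGT hρ] with t ht
  have h1 := h t ht.1 ht.2
  have h2 : 0 < t ^ 2 := pow_pos ht.1 2
  have h3 : a * t ^ 2 ≤ (C * t ^ 2) * t ^ 2 := by
    calc a * t ^ 2 ≤ C * t ^ 4 := h1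
      _ = _ := by ring
  exact le_of_mul_le_mul_right h3 h2

variable {N n : ℕ} {G : Subgroup (UN N)} {B : Frame G n} (hG : IsClosed (G : Set (UN N)))
variable [CompactSpace G] [MeasurableSpace G] [BorelSpace G]
variable {s : (Mat N)ˣ → ℂ} {S : G → ℝ}

lemma FE_contDiff (hs : Hol s) : ContDiff ℂ ∞ fun x : Fin n → ℂ => s (uE B x) := by
  obtain ⟨R, h1, h2⟩ := exists_R (B := B) (G := G) hs
  have e : (fun x : Fin n → ℂ => s (uE B x)) = fun x => R (x, (mt (1 : G), mt (1 : G)⁻¹)) := by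
    funext x
    rw [← h2 x 1, map_one, mul_one]
  rw [e]
  exact h1.comp (contDiff_id.prodMk contDiff_const)

variable (B) in
/-- the second derivative at the identity -/
def sq2 (s : (Mat N)ˣ → ℂ) (x y : Fin n → ℂ) : ℂ :=
  fderiv ℂ (fderiv ℂ fun x : Fin n → ℂ => s (uE B x)) 0 x y

lemma sq2_symm (hs : Hol s) (x y : Fin n → ℂ) : sq2 B s x y = sq2 B s y x := by
  have h1 : ContDiffAt ℂ 2 (fun x : Fin n → ℂ => s (uE B x)) 0 :=
    ((FE_contDiff hs).of_le (by
      have : ((2 : ℕ∞) : WithTop ℕ∞) ≤ ((⊤ : ℕ∞) : WithTop ℕ∞) := WithTop.coe_le_coe.2 le_top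
      exact this)).contDiffAt
  exact (h1.isSymmSndFDerivAt (by simp)).eq x y

lemma sq2_expand (x y : Fin n → ℂ) : sq2 B s x y = ∑ a, ∑ b, x a * y b *
    sq2 B s (Pi.single a 1) (Pi.single b 1) := by
  have hx : x = ∑ a, x a • (Pi.single a (1 : ℂ) : Fin n → ℂ) := by
    funext i
    simp [Finset.sum_apply, Pi.single_apply]
  have hy : y = ∑ a, y a • (Pi.single a (1 : ℂ) : Fin n → ℂ) := by
    funext i
    simp [Finset.sum_apply, Pi.single_apply]
  unfold sq2
  conv_lhs => rw [hx, hy]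
  simp only [map_sum, map_smul, _root_.sum_apply, _root_.smul_apply,
    smul_eq_mul, Finset.mul_sum]
  rw [Finset.sum_comm]
  refine Finset.sum_congr rfl fun a _ => Finset.sum_congr rfl fun b _ => ?_
  ring

/-- the quartic error along lines -/
lemma exists_line (hs : Hol s) (hsym : ∀ u, s u⁻¹ = s u) : ∃ C : ℝ, 0 ≤ C ∧
    ∀ v : Fin n → ℂ, nC v ≤ 1 → ∀ ζ ∈ ball (0 : ℂ) 1,
      ‖(s (uE B (ζ • v)) - s 1) - sq2 B s v v / 2 * ζ ^ 2‖ ≤ C * ‖ζ‖ ^ 4 := by
  have hc : Continuous fun x : Fin n → ℂ => s (uE B x) - s 1 :=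
    (FE_contDiff hs).continuous.sub continuous_const
  obtain ⟨K, hK⟩ := (isCompact_closedBall (0 : Fin n → ℂ) 1).exists_bound_of_continuousOn
    hc.continuousOn
  have hK0 : 0 ≤ K := (norm_nonneg _).trans (hK 0 (mem_closedBall_self zero_le_one))
  refine ⟨2 * K, by positivity, fun v hv ζ hζ => ?_⟩
  obtain ⟨g, hg⟩ : ∃ g : ℂ → ℂ, g = fun ζ => s (uE B (ζ • v)) - s 1 := ⟨_, rfl⟩
  have hgd : Differentiable ℂ g := by
    rw [hg]
    have h1 : Differentiable ℂ fun x : Fin n → ℂ => s (uE B x) :=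
      (FE_contDiff hs).differentiable (by simp)
    exact (h1.comp (differentiable_id.smul_const v)).sub_const _
  have he : ∀ ζ ∈ ball (0 : ℂ) 1, g (-ζ) = g ζ := by
    intro ζ _
    rw [hg]
    beta_reduce
    rw [neg_smul, uE_neg, hsym]
  have h0 : g 0 = 0 := by
    rw [hg]
    beta_reduce
    rw [zero_smul, uE_zero, sub_self]
  have hb : ∀ ζ ∈ ball (0 : ℂ) 1, ‖g ζ‖ ≤ K := by
    intro ζ hζ
    rw [hg]
    refine hK _ (mem_closedBall_zero_iff.2 ?_)
    have h1 := norm_le_nC (ζ • v)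
    rw [nC_smul] at h1
    have h2 : ‖ζ‖ ≤ 1 := (mem_ball_zero_iff.1 hζ).le
    have h3 := nC_nonneg v
    nlinarith [norm_nonneg ζ]
  obtain ⟨a, ha1, ha2⟩ := even_quad one_pos hgd.differentiableOn he h0 hb
  have ha3 : ∀ ζ ∈ ball (0 : ℂ) 1, ‖g ζ - a * ζ ^ 2‖ ≤ 2 * K * ‖ζ‖ ^ 4 := by
    intro ζ hζ
    have := ha2 ζ hζ
    rwa [div_one] at this
  have h2 := two_coef one_pos hgd ha3
  have h3 : deriv (deriv g) 0 = sq2 B s v v := by
    obtain ⟨Γ, hΓ⟩ : ∃ Γ : (Fin n → ℂ) → ℂ, Γ = fun x => s (uE B x) := ⟨_, rfl⟩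
    have hΓc : ContDiff ℂ ∞ Γ := by rw [hΓ]; exact FE_contDiff hs
    have e1 : deriv g = fun ζ => fderiv ℂ Γ (ζ • v) v := by
      funext ζ
      have h4 : HasFDerivAt Γ (fderiv ℂ Γ (ζ • v)) (ζ • v) :=
        (hΓc.differentiable (by simp) _).hasFDerivAt
      have h5 : HasDerivAt (fun ζ : ℂ => ζ • v) v ζ := by
        have := (hasDerivAt_id ζ).smul_const v
        simpa using this
      have h6 := (h4.comp_hasDerivAt ζ h5).sub_const (s 1)
      have e : g = fun ζ => (Γ ∘ fun ζ : ℂ => ζ • v) ζ - s 1 := by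
        rw [hg, hΓ]; rfl
      rw [e]
      exact h6.deriv
    rw [e1]
    have hΓ' : ContDiff ℂ 1 (fderiv ℂ Γ) := hΓc.fderiv_right (by
      have : ((2 : ℕ∞) : WithTop ℕ∞) ≤ ((⊤ : ℕ∞) : WithTop ℕ∞) := WithTop.coe_le_coe.2 le_top
      exact this)
    have h4 : HasFDerivAt (fderiv ℂ Γ) (fderiv ℂ (fderiv ℂ Γ) ((0 : ℂ) • v)) ((0 : ℂ) • v) :=
      (hΓ'.differentiable (by simp) _).hasFDerivAt
    have h5 : HasDerivAt (fun ζ : ℂ => ζ • v) v 0 := by
      have := (hasDerivAt_id (0 : ℂ)).smul_const v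
      simpa using this
    have h6 := h4.comp_hasDerivAt (0 : ℂ) h5
    have h7 := h6.clm_apply (hasDerivAt_const (0 : ℂ) v)
    have h8 := h7.deriv
    rw [map_zero, add_zero, zero_smul] at h8
    have h9 : sq2 B s v v = fderiv ℂ (fderiv ℂ Γ) 0 v v := by rw [hΓ]; rfl
    rw [h9]
    exact h8
  rw [h3] at h2
  have h4 : a = sq2 B s v v / 2 := by rw [h2]; ring
  have h5 := ha3 ζ hζ
  rw [h4, hg] at h5
  exact h5

variable (hI : IsoG B) (hcf : CF S s)

include hG in
lemma s_real (hcf : CF S s) (x : Fin n → ℝ) : s (uE B (rl x)) = (S (Eg B hG x) : ℂ) := by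
  rw [uE_rl B hG, hcf.res]

lemma s_one (hcf : CF S s) : s 1 = (S 1 : ℂ) := by
  have := hcf.res 1
  rwa [map_one] at this

lemma rl_smulC (t : ℝ) (x : Fin n → ℝ) : (t : ℂ) • rl x = rl (t • x) := by
  funext i
  simp [rl]

include hG in
/-- the second derivative is real -/
lemma sq2_im (hcf : CF S s) {x : Fin n → ℝ} (hx : nE x ≤ 1) : (sq2 B s (rl x) (rl x)).im = 0 := by
  obtain ⟨C, hC, h⟩ := exists_line (B := B) hcf.hol hcf.sym
  have h1 : ∀ t : ℝ, 0 < t → t < 1 → |(sq2 B s (rl x) (rl x) / 2).im| * t ^ 2 ≤ C * t ^ 4 := by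
    intro t ht ht1
    have h2 := h (rl x) (by rw [nC_rl]; exact hx) (t : ℂ) (by
      rw [mem_ball_zero_iff, Complex.norm_real, Real.norm_eq_abs, abs_of_pos ht]; exact ht1)
    rw [rl_smulC, s_real hG hcf, s_one hcf, Complex.norm_real, Real.norm_eq_abs,
      abs_of_pos ht] at h2
    refine le_trans ?_ ((Complex.abs_im_le_norm _).trans h2)
    have e : (((S (Eg B hG (t • x)) : ℂ) - (S 1 : ℂ)) - sq2 B s (rl x) (rl x) / 2 * (t : ℂ) ^ 2).im =
        -((sq2 B s (rl x) (rl x) / 2).im * t ^ 2) := by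
      have e1 : ((t : ℂ) ^ 2) = ((t ^ 2 : ℝ) : ℂ) := by push_cast; rfl
      rw [e1, Complex.sub_im, Complex.sub_im, Complex.im_mul_ofReal]
      simp
    rw [e, abs_neg, abs_mul, abs_of_pos (pow_pos ht 2)]
  have h2 := quad_real one_pos h1
  have h3 := abs_nonneg (sq2 B s (rl x) (rl x) / 2).im
  have h4 : (sq2 B s (rl x) (rl x) / 2).im = 0 := abs_eq_zero.1 (le_antisymm h2 h3)
  have h5 : (sq2 B s (rl x) (rl x) / 2).im = (sq2 B s (rl x) (rl x)).im / 2 := by
    have : (2 : ℂ) = ((2 : ℝ) : ℂ) := by norm_num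
    rw [this, Complex.div_ofReal_im]
  rw [h5] at h4
  linarith

lemma sq2_smul (c : ℂ) (x : Fin n → ℂ) : sq2 B s (c • x) (c • x) = c ^ 2 * sq2 B s x x := by
  unfold sq2
  simp only [map_smul, _root_.smul_apply, smul_eq_mul]
  ring

include hG in
lemma sq2_im' (hcf : CF S s) (x : Fin n → ℝ) : (sq2 B s (rl x) (rl x)).im = 0 := by
  have h0 := nE_nonneg x
  have h1 := sq2_im (B := B) hG hcf (x := (1 / (nE x + 1)) • x) (by
    rw [nE_smul, abs_of_pos (by positivity), div_mul_eq_mul_div, one_mul, div_le_one (by positivity)]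
    linarith)
  rw [← rl_smulC, sq2_smul] at h1
  have e1 : (((1 / (nE x + 1) : ℝ) : ℂ) ^ 2) = (((1 / (nE x + 1)) ^ 2 : ℝ) : ℂ) := by push_cast; rfl
  rw [e1, Complex.im_ofReal_mul] at h1
  have h2 : (1 / (nE x + 1)) ^ 2 ≠ 0 := by positivity
  exact (mul_eq_zero.1 h1).resolve_left h2

include hG in
/-- the second derivative is invariant -/
lemma sq2_Ad (hcf : CF S s) (g : G) (x : Fin n → ℝ) :
    (sq2 B s (rl (Adx B g x)) (rl (Adx B g x))).re = (sq2 B s (rl x) (rl x)).re := by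
  have h0 := nE_nonneg x
  have h0' := nE_nonneg (Adx B g x)
  obtain ⟨c, hc, hcx, hcy⟩ : ∃ c : ℝ, 0 < c ∧ nE (c • x) ≤ 1 ∧ nE (c • Adx B g x) ≤ 1 := by
    refine ⟨1 / (nE x + nE (Adx B g x) + 1), by positivity, ?_, ?_⟩
    · rw [nE_smul, abs_of_pos (by positivity), div_mul_eq_mul_div, one_mul,
        div_le_one (by positivity)]
      linarith
    · rw [nE_smul, abs_of_pos (by positivity), div_mul_eq_mul_div, one_mul,
        div_le_one (by positivity)]
      linarith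
  obtain ⟨C, hC, h⟩ := exists_line (B := B) hcf.hol hcf.sym
  have key : ∀ t : ℝ, 0 < t → t < 1 →
      |(sq2 B s (rl (c • Adx B g x)) (rl (c • Adx B g x)) / 2 -
        sq2 B s (rl (c • x)) (rl (c • x)) / 2).re| * t ^ 2 ≤ (2 * C) * t ^ 4 := by
    intro t ht ht1
    have hball : (t : ℂ) ∈ ball (0 : ℂ) 1 := by
      rw [mem_ball_zero_iff, Complex.norm_real, Real.norm_eq_abs, abs_of_pos ht]; exact ht1
    have h2 := h (rl (c • x)) (by rw [nC_rl]; exact hcx) (t : ℂ) hball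
    have h3 := h (rl (c • Adx B g x)) (by rw [nC_rl]; exact hcy) (t : ℂ) hball
    have e1 : s (uE B ((t : ℂ) • rl (c • Adx B g x))) = s (uE B ((t : ℂ) • rl (c • x))) := by
      rw [rl_smulC, rl_smulC, smul_smul, smul_smul, ← Adx_smul, uE_Ad B hG, hcf.cls]
    rw [e1] at h3
    rw [Complex.norm_real, Real.norm_eq_abs, abs_of_pos ht] at h2 h3
    have h4 := norm_sub_le ((s (uE B ((t : ℂ) • rl (c • x))) - s 1) -
      sq2 B s (rl (c • x)) (rl (c • x)) / 2 * (t : ℂ) ^ 2)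
      ((s (uE B ((t : ℂ) • rl (c • x))) - s 1) -
      sq2 B s (rl (c • Adx B g x)) (rl (c • Adx B g x)) / 2 * (t : ℂ) ^ 2)
    have e2 : ((s (uE B ((t : ℂ) • rl (c • x))) - s 1) -
      sq2 B s (rl (c • x)) (rl (c • x)) / 2 * (t : ℂ) ^ 2) -
      ((s (uE B ((t : ℂ) • rl (c • x))) - s 1) -
      sq2 B s (rl (c • Adx B g x)) (rl (c • Adx B g x)) / 2 * (t : ℂ) ^ 2) =
      (sq2 B s (rl (c • Adx B g x)) (rl (c • Adx B g x)) / 2 -
        sq2 B s (rl (c • x)) (rl (c • x)) / 2) * ((t ^ 2 : ℝ) : ℂ) := by push_cast; ring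
    rw [e2, norm_mul, Complex.norm_real, Real.norm_eq_abs, abs_of_pos (pow_pos ht 2)] at h4
    have h5 := Complex.abs_re_le_norm (sq2 B s (rl (c • Adx B g x)) (rl (c • Adx B g x)) / 2 -
        sq2 B s (rl (c • x)) (rl (c • x)) / 2)
    have h6 := mul_le_mul_of_nonneg_right h5 (pow_pos ht 2).le
    linarith
  have h2 := quad_real one_pos key
  have h3 := abs_eq_zero.1 (le_antisymm h2 (abs_nonneg _))
  rw [← rl_smulC, ← rl_smulC, sq2_smul, sq2_smul] at h3
  have e3 : ((c : ℂ) ^ 2 * sq2 B s (rl (Adx B g x)) (rl (Adx B g x)) / 2 -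
      (c : ℂ) ^ 2 * sq2 B s (rl x) (rl x) / 2) = ((c ^ 2 / 2 : ℝ) : ℂ) *
      (sq2 B s (rl (Adx B g x)) (rl (Adx B g x)) - sq2 B s (rl x) (rl x)) := by push_cast; ring
  rw [e3, Complex.re_ofReal_mul, Complex.sub_re] at h3
  have h4 : c ^ 2 / 2 ≠ 0 := by positivity
  have h5 := (mul_eq_zero.1 h3).resolve_left h4
  linarith

include hG in
/-- **the near form of a class function** -/
theorem near_form (hI : IsoG B) (hcf : CF S s) : ∃ κ C : ℝ, 0 ≤ C ∧ ∀ x : Fin n → ℂ, nC x < 1 →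
    ‖s 1 - s (uE B x) - κ / 2 * qC x‖ ≤ C * nC x ^ 4 := by
  obtain ⟨C, hC, h⟩ := exists_line (B := B) hcf.hol hcf.sym
  have hsingle : ∀ a : Fin n, (Pi.single a (1 : ℂ) : Fin n → ℂ) = rl (Pi.single a 1) := by
    intro a
    funext i
    by_cases hia : i = a
    · subst hia; simp [rl]
    · simp [rl, hia]
  have hreal : ∀ a b : Fin n, (sq2 B s (Pi.single a 1) (Pi.single b 1)).im = 0 := by
    intro a b
    have h1 := sq2_im' (B := B) hG hcf (Pi.single a 1 + Pi.single b 1)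
    have h2 := sq2_im' (B := B) hG hcf (Pi.single a 1)
    have h3 := sq2_im' (B := B) hG hcf (Pi.single b 1)
    have e1 : rl (Pi.single a 1 + Pi.single b 1 : Fin n → ℝ) =
        (Pi.single a (1 : ℂ) : Fin n → ℂ) + Pi.single b 1 := by
      rw [hsingle, hsingle]
      funext i
      simp [rl]
    rw [← hsingle] at h2 h3
    have e2 : sq2 B s (rl (Pi.single a 1 + Pi.single b 1)) (rl (Pi.single a 1 + Pi.single b 1)) =
        sq2 B s (Pi.single a 1) (Pi.single a 1) + 2 * sq2 B s (Pi.single a 1) (Pi.single b 1) +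
        sq2 B s (Pi.single b 1) (Pi.single b 1) := by
      have h4 := sq2_symm (B := B) hcf.hol (Pi.single b 1) (Pi.single a 1)
      rw [e1]
      unfold sq2 at h4 ⊢
      simp only [map_add, _root_.add_apply]
      rw [h4]
      ring
    rw [e2, Complex.add_im, Complex.add_im, h2, h3] at h1
    have e3 : (2 * sq2 B s (Pi.single a 1) (Pi.single b 1)).im =
        2 * (sq2 B s (Pi.single a 1) (Pi.single b 1)).im := by
      have : (2 : ℂ) = ((2 : ℝ) : ℂ) := by norm_num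
      rw [this, Complex.im_ofReal_mul]
    rw [e3] at h1
    linarith
  obtain ⟨Q, hQ⟩ : ∃ Q : Fin n → Fin n → ℝ,
    Q = fun a b => -(sq2 B s (Pi.single a 1) (Pi.single b 1)).re := ⟨_, rfl⟩
  have hform : ∀ x : Fin n → ℝ, ∑ a, ∑ b, Q a b * (x a * x b) =
      -(sq2 B s (rl x) (rl x)).re := by
    intro x
    rw [sq2_expand, Complex.re_sum, ← Finset.sum_neg_distrib]
    refine Finset.sum_congr rfl fun a _ => ?_
    rw [Complex.re_sum, ← Finset.sum_neg_distrib]
    refine Finset.sum_congr rfl fun b _ => ?_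
    have e : rl x a * rl x b = ((x a * x b : ℝ) : ℂ) := by simp [rl]
    rw [e, Complex.re_ofReal_mul, hQ]
    ring
  obtain ⟨κ, hκ⟩ := hI Q (fun a b => by rw [hQ]; beta_reduce; rw [sq2_symm hcf.hol])
    (fun g x => by rw [hform, hform, sq2_Ad hG hcf])
  have hall : ∀ x : Fin n → ℂ, sq2 B s x x = -κ * qC x := by
    intro x
    rw [sq2_expand]
    have h1 : ∀ a b, sq2 B s (Pi.single a 1) (Pi.single b 1) = if a = b then (-κ : ℂ) else 0 := by
      intro a b
      have h2 := hκ a b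
      rw [hQ] at h2
      beta_reduce at h2
      refine Complex.ext ?_ ?_
      · split_ifs with hab
        · rw [if_pos hab] at h2
          simp
          linarith
        · rw [if_neg hab] at h2
          simp
          linarith
      · rw [hreal]
        split_ifs <;> simp
    simp_rw [h1]
    simp only [mul_ite, mul_zero, Finset.sum_ite_eq, Finset.mem_univ, if_true]
    unfold qC
    rw [Finset.mul_sum]
    refine Finset.sum_congr rfl fun a _ => ?_
    ring
  refine ⟨κ, C, hC, fun x hx => ?_⟩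
  rcases eq_or_lt_of_le (nC_nonneg x) with h0 | h0
  · have hx0 : x = 0 := nC_eq_zero h0.symm.le
    rw [hx0, uE_zero, nC_zero]
    have : qC (0 : Fin n → ℂ) = 0 := by simp [qC]
    rw [this]
    simp
  · have h1 := h (((1 / nC x : ℝ) : ℂ) • x) (by
      rw [nC_smul, Complex.norm_real, Real.norm_eq_abs, abs_of_pos (by positivity)]
      rw [one_div, inv_mul_cancel₀ h0.ne']) (nC x : ℂ) (by
      rw [mem_ball_zero_iff, Complex.norm_real, Real.norm_eq_abs, abs_of_pos h0]; exact hx)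
    have h2 : (nC x : ℂ) • (((1 / nC x : ℝ) : ℂ) • x) = x := by
      rw [smul_smul]
      have : (nC x : ℂ) * ((1 / nC x : ℝ) : ℂ) = 1 := by
        have h3 : (nC x : ℂ) ≠ 0 := by exact_mod_cast h0.ne'
        push_cast
        field_simp
      rw [this, one_smul]
    have h3 : sq2 B s (((1 / nC x : ℝ) : ℂ) • x) (((1 / nC x : ℝ) : ℂ) • x) / 2 * (nC x : ℂ) ^ 2 =
        -κ / 2 * qC x := by
      rw [sq2_smul, hall]
      have h3 : (nC x : ℂ) ≠ 0 := by exact_mod_cast h0.ne'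
      push_cast
      field_simp
    rw [h2, h3, Complex.norm_real, Real.norm_eq_abs, abs_of_pos h0] at h1
    rw [← norm_neg]
    have e : -(s 1 - s (uE B x) - κ / 2 * qC x) = s (uE B x) - s 1 - -κ / 2 * qC x := by ring
    rw [e]
    exact h1

end

end Pool.Agent.N988.MK
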