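import Mathlib
import Pool.Agent.N988.MK.S2
import Pool.Agent.N988.MK.Step
import Pool.Agent.N991.MK.Fm3
import Pool.Agent.N991.MK.Low

/-!
# Every polynomial class action satisfies the state bounds, the tube bound and the lower bound
-/

open MeasureTheory Filter Metric Asymptotics Matrix
open scoped Matrix.Norms.Frobenius Topology ContDiff Nat
open Pool.Agent.H906R3.YM Pool.Agent.W793.YM Pool.Agent.TH618.YM Pool.Agent.N984.TW
open Pool.Agent.N991.MK

namespace Pool.Agent.N988.MK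

set_option linter.unusedSectionVars false

noncomputable section

variable {N n : ℕ} {G : Subgroup (UN N)} {B : Frame G n} (hG : IsClosed (G : Set (UN N)))
variable [CompactSpace G] [MeasurableSpace G] [BorelSpace G]
variable {s : (Mat N)ˣ → ℂ} {S : G → ℝ} {κ : ℝ}

/-- the normalised weight of a bare action -/
def wS (S : G → ℝ) (κ β : ℝ) (g : G) : ℝ := Real.exp (β / κ * S g)

/-- its extension -/
def WS (s : (Mat N)ˣ → ℂ) (κ β : ℝ) (u : (Mat N)ˣ) : ℂ := Complex.exp (((β / κ : ℝ) : ℂ) * s u)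

/-- its quartic remainder -/
def mS (B : Frame G n) (s : (Mat N)ˣ → ℂ) (κ β : ℝ) (x : Fin n → ℂ) : ℂ :=
  ((β / κ : ℝ) : ℂ) * (s 1 - s (uE B x) - κ / 2 * qC x)

lemma wS_pos (β : ℝ) (g : G) : 0 < wS S κ β g := Real.exp_pos _

theorem CF_wS (h : CF S s) (β : ℝ) : CF (wS S κ β) (WS s κ β) where
  hol := by
    obtain ⟨Φ, h1, h2⟩ := h.hol
    refine ⟨fun q => Complex.exp (((β / κ : ℝ) : ℂ) * Φ q), (contDiff_const.mul h1).cexp, fun u => ?_⟩
    unfold WS
    rw [h2]
  cls g u := by unfold WS; rw [h.cls]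
  sym u := by unfold WS; rw [h.sym]
  res g := by
    unfold WS wS
    rw [h.res]
    push_cast
    rfl

include hG in
/-- the curvature of the action at the identity is positive -/
theorem kappa_pos (hn : 0 < n) (hcf : CF S s) {κ C c : ℝ} (hc : 0 < c)
    (hlow : ∀ g : G, c * (N - (trace (mt g)).re) ≤ S 1 - S g)
    (hnear : ∀ x : Fin n → ℂ, nC x < 1 → ‖s 1 - s (uE B x) - κ / 2 * qC x‖ ≤ C * nC x ^ 4) :
    c ≤ κ := by
  obtain ⟨Cw, ρ, hCw, hρ, hw⟩ := nN_sq_near B hG
  obtain ⟨e, he⟩ : ∃ e : Fin n → ℝ, nE e = 1 :=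
    ⟨Pi.single ⟨0, hn⟩ 1, by
      unfold nE
      rw [Finset.sum_eq_single (⟨0, hn⟩ : Fin n)]
      · simp
      · intro b _ hb
        simp [hb]
      · intro h
        exact absurd (Finset.mem_univ _) h⟩
  have key : ∀ t : ℝ, 0 < t → t < min 1 ρ → (c / 2 - κ / 2) * t ^ 2 ≤ (C + c / 2 * Cw) * t ^ 4 := by
    intro t ht ht1
    have h1 := hnear (rl (t • e)) (by
      rw [nC_rl, nE_smul, he, abs_of_pos ht, mul_one]; exact ht1.trans_le (min_le_left _ _))
    have h2 := hw (t • e) (by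
      rw [nE_smul, he, abs_of_pos ht, mul_one]; exact ht1.trans_le (min_le_right _ _))
    have h3 := hlow (Eg B hG (t • e))
    have h4 := nN_sq (Eg B hG (t • e))
    rw [nC_rl, nE_smul, he, abs_of_pos ht, mul_one] at h1
    rw [nE_smul, he, abs_of_pos ht, mul_one] at h2
    rw [s_real hG hcf, s_one hcf, qC_rl, nE_smul, he, abs_of_pos ht, mul_one] at h1
    have e1 : (S 1 : ℂ) - (S (Eg B hG (t • e)) : ℂ) - κ / 2 * ((t ^ 2 : ℝ) : ℂ) =
        ((S 1 - S (Eg B hG (t • e)) - κ / 2 * t ^ 2 : ℝ) : ℂ) := by push_cast; ring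
    rw [e1, Complex.norm_real, Real.norm_eq_abs] at h1
    have h5 := (abs_le.1 h1).2
    have h6 := (abs_le.1 h2).1
    nlinarith
  have h1 := quad_real (lt_min one_pos hρ) key
  linarith

/-- the state of the bare action -/
theorem St_wS (hcf : CF S s) {κ C : ℝ} (hκ : 0 < κ)
    (hnear : ∀ x : Fin n → ℂ, nC x < 1 → ‖s 1 - s (uE B x) - κ / 2 * qC x‖ ≤ C * nC x ^ 4)
    {r : ℝ} (hr : r ≤ 1) {β : ℝ} (hβ : 0 ≤ β) :
    St B r β (C / κ * β) (WS s κ β) (mS B s κ β) := by
  have hκ' : (κ : ℂ) ≠ 0 := by exact_mod_cast hκ.ne'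
  refine ⟨fun x hx => ?_, fun x hx => ?_, fun x hx => ?_, fun x hx => ?_⟩
  · unfold WS mS
    rw [← Complex.exp_add]
    congr 1
    push_cast
    field_simp
    ring
  · unfold mS
    exact ((((differentiable_const _).sub (FE_diff hcf.hol)).sub
      (qC_diff.const_mul _)).const_mul _) x
  · unfold mS
    rw [uE_neg, hcf.sym, qC_neg]
  · unfold mS
    rw [norm_mul, Complex.norm_real, Real.norm_eq_abs, abs_of_nonneg (by positivity)]
    calc β / κ * ‖s 1 - s (uE B x) - κ / 2 * qC x‖ ≤ β / κ * (C * nC x ^ 4) :=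
          mul_le_mul_of_nonneg_left (hnear x (hx.trans_le hr)) (by positivity)
      _ = _ := by ring

/-- uniform continuity in the imaginary direction -/
lemma unif_im (hs : Hol s) {δ : ℝ} (hδ : 0 < δ) : ∃ r1 : ℝ, 0 < r1 ∧ ∀ a : Fin n → ℝ, nE a ≤ r1 →
    ∀ y : G, ‖s (uE B (Complex.I • rl a) * uG y) - s (uG y)‖ < δ := by
  have hc : Continuous fun z : (Fin n → ℝ) × G => s (uE B (Complex.I • rl z.1) * uG z.2) := by
    refine hs.cont2 (u := fun z : (Fin n → ℝ) × G => uE B (Complex.I • rl z.1) * uG z.2) ?_ ?_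
    · have e : (fun z : (Fin n → ℝ) × G => ((uE B (Complex.I • rl z.1) * uG z.2 : (Mat N)ˣ) : Mat N)) =
          fun z : (Fin n → ℝ) × G => EC B (Complex.I • rl z.1) * mt z.2 := by funext z; rfl
      rw [e]
      have h0 : Continuous fun z : (Fin n → ℝ) × G => Complex.I • rl z.1 :=
        ((rlL n).continuous.comp continuous_fst).const_smul Complex.I
      have h1 : Continuous fun z : (Fin n → ℝ) × G => EC B (Complex.I • rl z.1) :=
        (EC_contDiff B).continuous.comp h0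
      exact h1.mul (mt_cont.comp continuous_snd)
    · have e : (fun z : (Fin n → ℝ) × G =>
          (((uE B (Complex.I • rl z.1) * uG z.2)⁻¹ : (Mat N)ˣ) : Mat N)) =
          fun z : (Fin n → ℝ) × G => mt z.2⁻¹ * EC B (-(Complex.I • rl z.1)) := by
        funext z
        rw [_root_.mul_inv_rev]
        rfl
      rw [e]
      have h0 : Continuous fun z : (Fin n → ℝ) × G => -(Complex.I • rl z.1) :=
        (((rlL n).continuous.comp continuous_fst).const_smul Complex.I).neg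
      have h1 : Continuous fun z : (Fin n → ℝ) × G => EC B (-(Complex.I • rl z.1)) :=
        (EC_contDiff B).continuous.comp h0
      exact (mt_inv_cont.comp continuous_snd).mul h1
  have hev : ∀ᶠ a : Fin n → ℝ in 𝓝 0, ∀ y ∈ (Set.univ : Set G),
      ‖s (uE B (Complex.I • rl a) * uG y) - s (uG y)‖ < δ := by
    refine isCompact_univ.eventually_forall_of_forall_eventually fun y _ => ?_
    have hc2 : Continuous fun z : (Fin n → ℝ) × G =>
        ‖s (uE B (Complex.I • rl z.1) * uG z.2) - s (uG z.2)‖ :=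
      (hc.sub (hs.contG.comp continuous_snd)).norm
    have h0 : (fun z : (Fin n → ℝ) × G =>
        ‖s (uE B (Complex.I • rl z.1) * uG z.2) - s (uG z.2)‖) (0, y) < δ := by
      beta_reduce
      rw [rl_zero', uE_zero, one_mul, sub_self, norm_zero]
      exact hδ
    exact hc2.continuousAt.eventually (gt_mem_nhds h0)
  obtain ⟨ε, hε, hb⟩ := Metric.eventually_nhds_iff.1 hev
  refine ⟨ε / 2, by positivity, fun a ha y => ?_⟩
  refine hb (y := a) ?_ y (Set.mem_univ _)
  rw [dist_zero_right]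
  have := norm_le_nE a
  linarith

include hG in
/-- the tube bound of the bare action -/
theorem Tube_wS (hcf : CF S s) {κ C c : ℝ} (hκ : 0 < κ) (hC : 0 ≤ C) (hc : 0 < c)
    (hlow : ∀ g : G, c * (N - (trace (mt g)).re) ≤ S 1 - S g)
    (hnear : ∀ x : Fin n → ℂ, nC x < 1 → ‖s 1 - s (uE B x) - κ / 2 * qC x‖ ≤ C * nC x ^ 4) :
    ∃ r0 : ℝ, 0 < r0 ∧ ∀ r : ℝ, 0 < r → r ≤ r0 → ∀ β : ℝ, 0 ≤ β →
      Tube B r β (WS s κ β) := by
  obtain ⟨rg, hrg, hg⟩ := exists_goodR B hG
  obtain ⟨ρ, hρ, hρg, hρ1, hρC⟩ : ∃ ρ : ℝ, 0 < ρ ∧ ρ ≤ rg ∧ ρ ≤ 1 ∧ C * ρ ^ 2 ≤ κ / 1000 := by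
    refine ⟨min rg (min 1 (κ / (1000 * (C + 1)))), by positivity, min_le_left _ _,
      (min_le_right _ _).trans (min_le_left _ _), ?_⟩
    obtain ⟨q, hq⟩ : ∃ q : ℝ, q = min rg (min 1 (κ / (1000 * (C + 1)))) := ⟨_, rfl⟩
    rw [← hq]
    have h1 : q ≤ 1 := by rw [hq]; exact (min_le_right _ _).trans (min_le_left _ _)
    have h2 : q ≤ κ / (1000 * (C + 1)) := by
      rw [hq]; exact (min_le_right _ _).trans (min_le_right _ _)
    have h0 : 0 < q := by rw [hq]; positivity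
    rw [le_div_iff₀ (by positivity)] at h2
    have h3 : C * q ^ 2 ≤ C * q := by
      refine mul_le_mul_of_nonneg_left ?_ hC
      nlinarith
    nlinarith
  have hgr := hg ρ hρ hρg
  obtain ⟨r1, hr1, hu⟩ := unif_im (B := B) (G := G) hcf.hol (δ := 0.1 * c * ρ ^ 2) (by positivity)
  refine ⟨min (min (ρ / 2) r1) (0.2 * c * ρ ^ 2 / κ), by positivity, fun r hr hrr β hβ a y ha => ?_⟩
  simp only [le_min_iff] at hrr
  obtain ⟨⟨h1, h2⟩, h3⟩ := hrr
  have ha0 := nE_nonneg a
  have hy0 := nN_nonneg y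
  rcases le_or_gt (nN y) (0.7 * ρ) with hy | hy
  · have hst := (St_wS (B := B) hcf hκ hnear hρ1 hβ).nearS
    have hM : C / κ * β * ρ ^ 2 ≤ β / 1000 := by
      calc C / κ * β * ρ ^ 2 = β / κ * (C * ρ ^ 2) := by ring
        _ ≤ β / κ * (κ / 1000) := mul_le_mul_of_nonneg_left hρC (by positivity)
        _ = β / 1000 := by field_simp
    have h4 : nE a ≤ 0.255 * ρ := by linarith
    have h5 : nE a ^ 2 ≤ (0.255 * ρ) ^ 2 := pow_le_pow_left₀ ha0 h4 2
    have h6 : nN y ^ 2 ≤ (0.7 * ρ) ^ 2 := pow_le_pow_left₀ hy0 hy 2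
    have h7 := hst.tube hgr hβ hM (a := a) (y := y) (by nlinarith)
    refine h7.trans (mul_le_mul_of_nonneg_left (Real.exp_le_exp.2 ?_) (norm_nonneg _))
    refine mul_le_mul_of_nonneg_left ?_ (by positivity)
    have h8 : min (nN y) r ^ 2 ≤ nN y ^ 2 :=
      pow_le_pow_left₀ (le_min hy0 hr.le) (min_le_left _ _) 2
    nlinarith [sq_nonneg (nE a)]
  · have h4 := hu a (by linarith) y
    have h5 : (s (uE B (Complex.I • rl a) * uG y)).re ≤ S 1 - 0.1 * c * ρ ^ 2 := by
      have h6 := (Complex.abs_re_le_norm _).trans h4.le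
      rw [Complex.sub_re, hcf.res, Complex.ofReal_re] at h6
      have h7 := (abs_le.1 h6).2
      have h8 := hlow y
      have h9 := nN_sq y
      have h10 : (0.7 * ρ) ^ 2 ≤ nN y ^ 2 := pow_le_pow_left₀ (by positivity) hy.le 2
      have h11 : (N : ℝ) - (trace (mt y)).re = nN y ^ 2 / 2 := by linarith
      rw [h11] at h8
      nlinarith
    have h6 : ‖WS s κ β (uE B (Complex.I • rl a) * uG y)‖ =
        Real.exp (β / κ * (s (uE B (Complex.I • rl a) * uG y)).re) := by
      unfold WS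
      rw [Complex.norm_exp, Complex.re_ofReal_mul]
    have h7 : ‖WS s κ β (1 : (Mat N)ˣ)‖ = Real.exp (β / κ * S 1) := by
      unfold WS
      rw [Complex.norm_exp, Complex.re_ofReal_mul, s_one hcf, Complex.ofReal_re]
    rw [h6, h7, ← Real.exp_add]
    refine Real.exp_le_exp.2 ?_
    have h8 : β / κ * (s (uE B (Complex.I • rl a) * uG y)).re ≤
        β / κ * (S 1 - 0.1 * c * ρ ^ 2) := mul_le_mul_of_nonneg_left h5 (by positivity)
    have h9 : min (nN y) r ^ 2 ≤ r ^ 2 :=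
      pow_le_pow_left₀ (le_min hy0 hr.le) (min_le_right _ _) 2
    have h10 : r ^ 2 ≤ 0.2 * c * ρ ^ 2 / κ := by
      have : r ≤ 1 := by linarith
      nlinarith
    have h11 : β / 2 * (0.99 * min (nN y) r ^ 2) ≤ β / κ * (0.1 * c * ρ ^ 2) := by
      calc β / 2 * (0.99 * min (nN y) r ^ 2) ≤ β / 2 * (0.2 * c * ρ ^ 2 / κ) := by
            refine mul_le_mul_of_nonneg_left ?_ (by positivity)
            have := sq_nonneg (min (nN y) r)
            linarith
        _ = β / κ * (0.1 * c * ρ ^ 2) := by ring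
    have h12 : 0 ≤ β / 2 * (1.01 * nE a ^ 2) := by positivity
    nlinarith

/-- the lower bound of the weight -/
theorem LBw_wS (hcf : CF S s) {κ : ℝ} (hκ : 0 < κ) : ∃ Λ : ℝ, 0 ≤ Λ ∧ ∀ β : ℝ, 0 ≤ β →
    LBw (wS S κ β) (Real.exp (-(Λ * β))) := by
  obtain ⟨A, hA⟩ := isCompact_univ.exists_bound_of_continuousOn (hcf.cont).continuousOn
  have hA0 : 0 ≤ A := (norm_nonneg _).trans (hA 1 (Set.mem_univ _))
  refine ⟨2 * A / κ, by positivity, fun β hβ => ⟨Real.exp (β / κ * A), Real.exp_pos _,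
    fun x => ?_, wS_pos β, fun x => ?_⟩⟩
  · have h1 := (le_abs_self _).trans (hA x (Set.mem_univ _))
    exact Real.exp_le_exp.2 (mul_le_mul_of_nonneg_left h1 (by positivity))
  · rw [← Real.exp_add]
    refine Real.exp_le_exp.2 ?_
    have h1 := (abs_le.1 (hA x (Set.mem_univ _))).1
    have h2 : β / κ * (-A) ≤ β / κ * S x := mul_le_mul_of_nonneg_left h1 (by positivity)
    calc -(2 * A / κ * β) + β / κ * A = β / κ * (-A) := by ring
      _ ≤ _ := h2

end

end Pool.Agent.N988.MK
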