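import Mathlib
import Pool.Agent.N988.MK.S1
import Pool.Agent.N988.MK.S3
import Pool.Agent.N989.MK.Ent
import Pool.Agent.N989.MK.Grp

/-!
# Every polynomial class action is an entrance of the weak coupling flow
-/

open MeasureTheory Filter Metric Asymptotics Matrix
open scoped Matrix.Norms.Frobenius Topology ContDiff Nat
open Pool.Agent.H906R3.YM Pool.Agent.W793.YM Pool.Agent.TH618.YM Pool.Agent.N984.TW
open Pool.Agent.N991.MK Pool.Agent.N989.MK

namespace Pool.Agent.N988.MK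

set_option linter.unusedSectionVars false

noncomputable section

variable {N n : ℕ} {G : Subgroup (UN N)} {B : Frame G n} (hG : IsClosed (G : Set (UN N)))
variable [CompactSpace G] [MeasurableSpace G] [BorelSpace G]
variable {s : (Mat N)ˣ → ℂ} {S : G → ℝ} {κ : ℝ}

/-- joint continuity -/
lemma uE_uG_cont (hs : Hol s) :
    Continuous fun z : (Fin n → ℂ) × G => s (uE B z.1 * uG z.2) := by
  refine hs.cont2 (u := fun z : (Fin n → ℂ) × G => uE B z.1 * uG z.2) ?_ ?_
  · have e : (fun z : (Fin n → ℂ) × G => ((uE B z.1 * uG z.2 : (Mat N)ˣ) : Mat N)) =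
        fun z : (Fin n → ℂ) × G => EC B z.1 * mt z.2 := by funext z; rfl
    rw [e]
    exact ((EC_contDiff B).continuous.comp continuous_fst).mul (mt_cont.comp continuous_snd)
  · have e : (fun z : (Fin n → ℂ) × G => (((uE B z.1 * uG z.2)⁻¹ : (Mat N)ˣ) : Mat N)) =
        fun z : (Fin n → ℂ) × G => mt z.2⁻¹ * EC B (-z.1) := by
      funext z
      rw [_root_.mul_inv_rev]
      rfl
    rw [e]
    exact (mt_inv_cont.comp continuous_snd).mul
      ((EC_contDiff B).continuous.comp continuous_fst.neg)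

include hG in
/-- second differences of a class function are bounded -/
theorem sec_diff (hcf : CF S s) : ∃ K : ℝ, 0 ≤ K ∧ ∀ (X : Fin n → ℝ) (x : G),
    |S (Eg B hG X * x) + S (Eg B hG (-X) * x) - 2 * S x| ≤ K * qf X := by
  have hcont := uE_uG_cont (B := B) (G := G) hcf.hol
  obtain ⟨A, hA⟩ := ((isCompact_closedBall (0 : Fin n → ℂ) 2).prod
    (isCompact_univ (X := G))).exists_bound_of_continuousOn hcont.continuousOn
  have hA' : ∀ (v : Fin n → ℂ) (y : G), nC v ≤ 2 → ‖s (uE B v * uG y)‖ ≤ A := by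
    intro v y hv
    exact hA (v, y) ⟨mem_closedBall_zero_iff.2 ((norm_le_nC v).trans hv), Set.mem_univ _⟩
  have hA0 : 0 ≤ A := (norm_nonneg _).trans (hA' 0 1 (by rw [nC_zero]; norm_num))
  refine ⟨4 * A, by positivity, fun X x => ?_⟩
  have hq : qf X = nE X ^ 2 := by rw [nE_sq]; rfl
  have hX0 := nE_nonneg X
  have hSx : ∀ y : G, |S y| ≤ A := by
    intro y
    have h1 := hA' 0 y (by rw [nC_zero]; norm_num)
    rw [uE_zero, one_mul, hcf.res, Complex.norm_real, Real.norm_eq_abs] at h1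
    exact h1
  rcases lt_or_ge (nE X) 1 with h1 | h1
  · rcases eq_or_lt_of_le hX0 with h0 | h0
    · have hXz : X = 0 := by
        funext i
        have h2 := norm_le_nE X
        rw [← h0] at h2
        have h3 : X = 0 := norm_le_zero_iff.1 h2
        rw [h3]
      rw [hXz, neg_zero, Eg_zero B hG, one_mul]
      have : S x + S x - 2 * S x = 0 := by ring
      rw [this, abs_zero]
      exact mul_nonneg (by positivity) (qf_nonneg _)
    · obtain ⟨v, hv⟩ : ∃ v : Fin n → ℂ, v = ((1 / nE X : ℝ) : ℂ) • rl X := ⟨_, rfl⟩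
      have hvn : nC v = 1 := by
        rw [hv, nC_smul, Complex.norm_real, Real.norm_eq_abs, abs_of_pos (by positivity), nC_rl,
          one_div, inv_mul_cancel₀ h0.ne']
      have hvX : (nE X : ℂ) • v = rl X := by
        rw [hv, smul_smul]
        have h3 : (nE X : ℂ) ≠ 0 := by exact_mod_cast h0.ne'
        have : (nE X : ℂ) * ((1 / nE X : ℝ) : ℂ) = 1 := by
          push_cast
          field_simp
        rw [this, one_smul]
      obtain ⟨g, hg⟩ : ∃ g : ℂ → ℂ, g = fun ζ => s (uE B (ζ • v) * uG x) +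
        s (uE B (-(ζ • v)) * uG x) - 2 * s (uG x) := ⟨_, rfl⟩
      have hgd : Differentiable ℂ g := by
        have h3 := F_diff (B := B) hcf.hol x
        have h4 : Differentiable ℂ fun ζ : ℂ => s (uE B (ζ • v) * uG x) :=
          h3.comp (differentiable_id.smul_const v)
        have h5 : Differentiable ℂ fun ζ : ℂ => s (uE B (-(ζ • v)) * uG x) :=
          h3.comp (differentiable_id.smul_const v).neg
        rw [hg]
        exact (h4.add h5).sub_const _
      have he : ∀ ζ ∈ ball (0 : ℂ) 2, g (-ζ) = g ζ := by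
        intro ζ _
        rw [hg]
        beta_reduce
        rw [neg_smul, neg_neg]
        ring
      have hg0 : g 0 = 0 := by
        rw [hg]
        beta_reduce
        rw [zero_smul, neg_zero, uE_zero, one_mul]
        ring
      have hb : ∀ ζ ∈ ball (0 : ℂ) 2, ‖g ζ‖ ≤ 4 * A := by
        intro ζ hζ
        have h2 : ‖ζ‖ ≤ 2 := (mem_ball_zero_iff.1 hζ).le
        have h3 := hA' (ζ • v) x (by rw [nC_smul, hvn, mul_one]; exact h2)
        have h4 := hA' (-(ζ • v)) x (by rw [nC_neg, nC_smul, hvn, mul_one]; exact h2)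
        have h5 := hA' 0 x (by rw [nC_zero]; norm_num)
        rw [uE_zero, one_mul] at h5
        rw [hg]
        beta_reduce
        have h6 := norm_sub_le (s (uE B (ζ • v) * uG x) + s (uE B (-(ζ • v)) * uG x))
          (2 * s (uG x))
        have h7 := norm_add_le (s (uE B (ζ • v) * uG x)) (s (uE B (-(ζ • v)) * uG x))
        rw [norm_mul, Complex.norm_ofNat] at h6
        linarith
      have h2 := even_schw hgd.differentiableOn he hg0 hb (ζ := (nE X : ℂ)) (by
        rw [mem_ball_zero_iff, Complex.norm_real, Real.norm_eq_abs, abs_of_pos h0]; linarith)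
      rw [hg] at h2
      beta_reduce at h2
      have e1 : -rl X = rl (-X) := by funext i; simp [rl]
      rw [hvX, e1, uE_rl B hG, uE_rl B hG, ← map_mul, ← map_mul, hcf.res, hcf.res, hcf.res,
        Complex.norm_real, Real.norm_eq_abs (nE X), abs_of_pos h0] at h2
      have e2 : ((S (Eg B hG X * x) : ℝ) : ℂ) + ((S (Eg B hG (-X) * x) : ℝ) : ℂ) -
          2 * ((S x : ℝ) : ℂ) = ((S (Eg B hG X * x) + S (Eg B hG (-X) * x) - 2 * S x : ℝ) : ℂ) := by
        push_cast; ring
      rw [e2, Complex.norm_real, Real.norm_eq_abs] at h2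
      refine h2.trans ?_
      rw [hq, div_pow]
      have := sq_nonneg (nE X)
      nlinarith
  · have h2 := hSx (Eg B hG X * x)
    have h3 := hSx (Eg B hG (-X) * x)
    have h4 := hSx x
    have h5 : (1 : ℝ) ≤ qf X := by rw [hq]; nlinarith
    have h6 : |S (Eg B hG X * x) + S (Eg B hG (-X) * x) - 2 * S x| ≤ 4 * A := by
      rw [abs_le] at h2 h3 h4 ⊢
      constructor <;> linarith
    nlinarith

include hG in
/-- semiconcavity of the bare action -/
theorem SC_wS (B : Frame G n) (hcf : CF S s) (hκ : 0 < κ) : ∃ K : ℝ, 0 ≤ K ∧ ∀ β : ℝ, 0 ≤ β →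
    SC (EDG B hG) (K * β) (wS S κ β) := by
  obtain ⟨K, hK, h⟩ := sec_diff (B := B) hG hcf
  refine ⟨K / κ, by positivity, fun β hβ X x => ?_⟩
  have h1 := (abs_le.1 (h X x)).1
  have h2 : β / κ * -(K * qf X) ≤ β / κ * (S (Eg B hG X * x) + S (Eg B hG (-X) * x) - 2 * S x) :=
    mul_le_mul_of_nonneg_left h1 (by positivity)
  unfold wS
  rw [Real.log_exp, Real.log_exp, Real.log_exp]
  have h3 : (EDG B hG).E X = Eg B hG X := rfl
  have h4 : (EDG B hG).E (-X) = Eg B hG (-X) := rfl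
  rw [h3, h4]
  calc -(K / κ * β * qf X) = β / κ * -(K * qf X) := by ring
    _ ≤ _ := h2
    _ = _ := by ring

/-- joint continuity of the weight -/
lemma wS_cont (hcf : CF S s) : Continuous fun p : ℝ × G => wS S κ p.1 p.2 := by
  unfold wS
  exact Real.continuous_exp.comp
    ((continuous_fst.div_const κ).mul (hcf.cont.comp continuous_snd))

include hG in
/-- the Hessian of the action -/
theorem hess_wS {C : ℝ} (hcf : CF S s)
    (hnear : ∀ x : Fin n → ℂ, nC x < 1 → ‖s 1 - s (uE B x) - κ / 2 * qC x‖ ≤ C * nC x ^ 4)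
    (a : Fin n) (γ : ℝ → G) (hγ : ∀ t, mt (γ t) = NormedSpace.exp (t • B.X a)) :
    Tendsto (fun t => (S 1 - S (γ t)) / t ^ 2) (𝓝[≠] 0) (𝓝 (κ / 2)) := by
  have hγ2 : ∀ t, γ t = Eg B hG (t • Pi.single a 1) := by
    intro t
    apply mt_inj
    rw [hγ, mt_Eg]
    unfold EM
    rw [LX_smul]
    congr 2
    unfold LX
    simp [Pi.single_apply]
  have hn1 : nE (Pi.single a (1 : ℝ)) = 1 := by
    unfold nE
    rw [Finset.sum_eq_single a]
    · simp
    · intro b _ hb
      simp [hb]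
    · intro h
      exact absurd (Finset.mem_univ _) h
  have key : ∀ t : ℝ, |t| < 1 → |S 1 - S (γ t) - κ / 2 * t ^ 2| ≤ C * t ^ 4 := by
    intro t ht
    have h1 := hnear (rl (t • Pi.single a 1)) (by rw [nC_rl, nE_smul, hn1, mul_one]; exact ht)
    rw [nC_rl, nE_smul, hn1, mul_one, s_real hG hcf, s_one hcf, qC_rl, nE_smul, hn1, mul_one,
      sq_abs, ← hγ2] at h1
    have e1 : (S 1 : ℂ) - (S (γ t) : ℂ) - κ / 2 * ((t ^ 2 : ℝ) : ℂ) =
        ((S 1 - S (γ t) - κ / 2 * t ^ 2 : ℝ) : ℂ) := by push_cast; ring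
    have e2 : |t| ^ 4 = t ^ 4 := by
      rw [show (4 : ℕ) = 2 * 2 by norm_num, pow_mul, pow_mul, sq_abs]
    rw [e1, Complex.norm_real, Real.norm_eq_abs, e2] at h1
    exact h1
  rw [tendsto_iff_norm_sub_tendsto_zero]
  have h2 : Tendsto (fun t : ℝ => C * t ^ 2) (𝓝[≠] 0) (𝓝 0) := by
    have h3 : Continuous fun t : ℝ => C * t ^ 2 := by fun_prop
    have h4 := h3.tendsto 0
    rw [zero_pow (by norm_num), mul_zero] at h4
    exact h4.mono_left nhdsWithin_le_nhds
  refine squeeze_zero' (Eventually.of_forall fun t => norm_nonneg _) ?_ h2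
  have h5 : ∀ᶠ t : ℝ in 𝓝[≠] 0, |t| < 1 := by
    have : ∀ᶠ t : ℝ in 𝓝 0, |t| < 1 := by
      have h6 := (continuous_abs (G := ℝ)).tendsto 0
      rw [abs_zero] at h6
      exact h6.eventually (gt_mem_nhds one_pos)
    exact this.filter_mono nhdsWithin_le_nhds
  filter_upwards [h5, self_mem_nhdsWithin] with t ht ht0
  have ht0' : t ≠ 0 := ht0
  have h6 := key t ht
  have h7 : (S 1 - S (γ t)) / t ^ 2 - κ / 2 = (S 1 - S (γ t) - κ / 2 * t ^ 2) / t ^ 2 := by
    field_simp
  rw [Real.norm_eq_abs, h7, abs_div, abs_of_pos (by positivity : 0 < t ^ 2), div_le_iff₀ (by positivity)]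
  calc _ ≤ C * t ^ 4 := h6
    _ = _ := by ring

include hG in
/-- **Every polynomial class action is an entrance.** -/
theorem ent_pol (B : Frame G n) (hI : IsoG B) (hn : 0 < n) (μ : Measure G) [IsProbabilityMeasure μ]
    [μ.IsMulLeftInvariant] [μ.IsMulRightInvariant] [μ.IsInvInvariant] (hpol : IsPol S)
    (hcls : ∀ g h : G, S (h * g * h⁻¹) = S g) (hsym : ∀ g : G, S g⁻¹ = S g)
    (hmax : ∃ c : ℝ, 0 < c ∧ ∀ g : G, c * (N - (trace (mt g)).re) ≤ S 1 - S g) :
    ∃ (κ : ℝ) (W : ℝ → (Mat N)ˣ → ℂ) (mw : ℝ → (Fin n → ℂ) → ℂ) (r0 CW Λ K : ℝ), 0 < κ ∧ 0 ≤ K ∧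
      Ent B (wS S κ) W mw r0 CW Λ ∧ (∀ β : ℝ, 0 ≤ β → SC (EDG B hG) (K * β) (wS S κ β)) ∧
      (Continuous fun p : ℝ × G => wS S κ p.1 p.2) ∧
      ∀ (a : Fin n) (γ : ℝ → G), (∀ t, mt (γ t) = NormedSpace.exp (t • B.X a)) →
        Tendsto (fun t => (S 1 - S (γ t)) / t ^ 2) (𝓝[≠] 0) (𝓝 (κ / 2)) := by
  obtain ⟨p, hp⟩ := hpol
  obtain ⟨c, hc, hlow⟩ := hmax
  have hcf : CF S (syC μ p) := CF_syC μ p hp hcls hsym
  obtain ⟨κ, C, hC, hnear⟩ := near_form (B := B) hG hI hcf
  have hκ : 0 < κ := lt_of_lt_of_le hc (kappa_pos hG hn hcf hc hlow hnear)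
  obtain ⟨r0, hr0, ht⟩ := Tube_wS (B := B) hG hcf hκ hC hc hlow hnear
  obtain ⟨Λ, hΛ, hl⟩ := LBw_wS hcf hκ
  obtain ⟨K, hK, hsc⟩ := SC_wS hG B hcf hκ
  refine ⟨κ, WS (syC μ p) κ, mS B (syC μ p) κ, min r0 1, C / κ, Λ, K, hκ, hK,
    ⟨by positivity, by positivity, hΛ, fun β _ => CF_wS hcf β, fun β x => wS_pos β x,
      fun r hr hrr β hβ => St_wS hcf hκ hnear (hrr.trans (min_le_right _ _)) hβ,
      fun r hr hrr β hβ => ht r hr (hrr.trans (min_le_left _ _)) β hβ, hl⟩,
    hsc, wS_cont hcf, hess_wS hG hcf hnear⟩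

end

end Pool.Agent.N988.MK
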