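import Mathlib
import Pool.Agent.N988.MK.Pair7
import Pool.Agent.N988.MK.S4
import Pool.Agent.N988.MK.Tan7

/-!
# The insertion of a class function is a tangent vector
-/

open MeasureTheory Filter Metric Asymptotics Matrix
open scoped Matrix.Norms.Frobenius Topology ContDiff
open Pool.Agent.H906R3.YM Pool.Agent.W793.YM Pool.Agent.TH618.YM Pool.Agent.N984.TW
open Pool.Agent.N991.MK

namespace Pool.Agent.N988.MK

set_option linter.unusedSectionVars false

noncomputable section

variable {N n : ℕ} {G : Subgroup (UN N)} {B : Frame G n}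
variable [CompactSpace G] [MeasurableSpace G] [BorelSpace G] [SecondCountableTopology G]
  {μ : Measure G} [IsProbabilityMeasure μ] [μ.IsHaarMeasure] [μ.IsMulRightInvariant]
  [μ.IsInvInvariant]

/-- a class function is bounded on the tube -/
lemma cf_tube_bd {o : G → ℝ} {O : (Mat N)ˣ → ℂ} (hcf : CF o O) : ∃ C : ℝ, 0 ≤ C ∧
    ∀ (v : Fin n → ℝ) (y : G), nE v ≤ 1 →
      ‖O (uE B (Complex.I • rl v) * uG y) - O 1‖ ≤ C := by
  have hc := uE_uG_cont (B := B) hcf.hol
  have hK : IsCompact ({v : Fin n → ℝ | nE v ≤ 1} ×ˢ (Set.univ : Set G)) := by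
    refine IsCompact.prod ?_ isCompact_univ
    refine Metric.isCompact_of_isClosed_isBounded ?_ ?_
    · exact isClosed_le (by unfold nE; fun_prop) continuous_const
    · refine (Metric.isBounded_iff_subset_closedBall 0).2 ⟨1, fun v hv => ?_⟩
      rw [mem_closedBall_zero_iff, pi_norm_le_iff_of_nonneg zero_le_one]
      intro i
      have h1 : v i ^ 2 ≤ nE v ^ 2 := by
        rw [nE_sq]
        exact Finset.single_le_sum (f := fun i => v i ^ 2) (fun j _ => sq_nonneg _)
          (Finset.mem_univ i)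
      have h2 : nE v ^ 2 ≤ 1 := pow_le_one₀ (nE_nonneg v) hv
      rw [Real.norm_eq_abs]
      exact (sq_le_one_iff_abs_le_one (v i)).1 (h1.trans h2)
  have h5 : Continuous fun v : Fin n → ℝ => (Complex.I • rl v : Fin n → ℂ) := by
    refine continuous_pi fun i => ?_
    have e : (fun v : Fin n → ℝ => (Complex.I • rl v : Fin n → ℂ) i) =
        fun v => Complex.I * ((v i : ℝ) : ℂ) := by
      funext v
      simp [rl]
    rw [e]
    exact continuous_const.mul (Complex.continuous_ofReal.comp (continuous_apply i))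
  have h6 : Continuous fun p : (Fin n → ℝ) × G => ((Complex.I • rl p.1 : Fin n → ℂ), p.2) :=
    (h5.comp continuous_fst).prodMk continuous_snd
  have h7 := hc.comp h6
  have hc2 : Continuous fun p : (Fin n → ℝ) × G =>
      O (uE B (Complex.I • rl p.1) * uG p.2) - O 1 := h7.sub continuous_const
  obtain ⟨C, hC⟩ := hK.exists_bound_of_continuousOn hc2.continuousOn
  refine ⟨max C 0, le_max_right _ _, fun v y hv => (hC (v, y) ⟨hv, Set.mem_univ _⟩).trans
    (le_max_left _ _)⟩

/-- **the insertion of a class function is a tangent vector** -/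
theorem tst_init {r ε h0 C1 : ℝ} (hgr : GoodR B r) {f : G → ℝ} {h ρ : ℝ}
    (hP : PSt B μ r ε h0 C1 f h ρ) {o : G → ℝ} {O : (Mat N)ˣ → ℂ} {κ C2 C3 : ℝ} (hcf : CF o O)
    (hC2 : 0 ≤ C2)
    (h2 : ∀ x : Fin n → ℂ, nC x < 1 → ‖O 1 - O (uE B x) - κ / 2 * qC x‖ ≤ C2 * nC x ^ 4)
    (h3 : ∀ (v : Fin n → ℝ) (y : G), nE v ≤ 1 →
      ‖O (uE B (Complex.I • rl v) * uG y) - O 1‖ ≤ C3) :
    TSt B r f (fun x => o x * f x) h κ (max C2 C3) := by
  have hr := hgr.pos
  have hr1 : r ≤ 1 := hgr.le.trans (by norm_num)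
  obtain ⟨hρ, F, m, b1, b2, b3, b4, b5, b6, -⟩ := hP
  have hN := NS.of_st b1 b2 b3 b4 b5 b6
  have hcf1 : CF (fun x => o x - o 1) (fun u => O u - O 1) := by
    have hone : O 1 = ((o 1 : ℝ) : ℂ) := by
      have h1 := hcf.res 1
      have h2 : (uG (1 : G) : (Mat N)ˣ) = 1 := map_one _
      rwa [h2] at h1
    refine ⟨?_, fun g u => ?_, fun u => ?_, fun g => ?_⟩
    · obtain ⟨Φ, a1, a2⟩ := hcf.hol
      exact ⟨fun p => Φ p - O 1, a1.sub contDiff_const, fun u => by simp only [a2]⟩
    · rw [hcf.cls]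
    · rw [hcf.sym]
    · rw [hcf.res, hone]; push_cast; rfl
  refine ⟨_, fun u => (O u - O 1) * ((((f 1)⁻¹ : ℝ) : ℂ) * F u),
    fun x => O 1 - O (uE B x) - κ / 2 * qC x, hN.cf, ?_, ?_⟩
  · have e : ng f (fun x => o x * f x) = fun x => (o x - o 1) * nf f x := by
      funext x
      have := (b2 1).ne'
      unfold ng nf
      field_simp
    rw [e]
    exact hcf1.mul hN.cf
  · refine ⟨hC2.trans (le_max_left _ _), hC2.trans (le_max_left _ _), fun x hx => ?_,
      fun x hx => ?_, fun x hx => ?_, fun x hx => ?_, fun v y hv hc => ?_⟩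
    · beta_reduce
      ring
    · have h1 : DifferentiableAt ℂ (fun x : Fin n → ℂ => O (uE B x)) x :=
        ((FE_contDiff (B := B) hcf.hol).differentiable (by simp)) x
      exact ((differentiableAt_const _).sub h1).sub ((differentiableAt_const _).mul (qC_diff x))
    · beta_reduce
      rw [uE_neg, hcf.sym, qC_neg]
    · refine (h2 x (by linarith)).trans (mul_le_mul_of_nonneg_right (le_max_left _ _) ?_)
      have := nC_nonneg x
      positivity
    · have h4 := hN.tb v y hv
      rw [hN.one, norm_one, one_mul] at h4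
      rw [norm_mul]
      refine mul_le_mul ((h3 v y ?_).trans (le_max_right _ _)) h4 (norm_nonneg _)
        (hC2.trans (le_max_left _ _))
      linarith

end

end Pool.Agent.N988.MK
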