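import Mathlib
import Pool.Agent.N988.MK.Pair5

/-!
# The renormalisation group step for pairs of states, assembled
-/

open MeasureTheory Filter Metric Asymptotics Matrix
open scoped Matrix.Norms.Frobenius Topology ContDiff
open Pool.Agent.H906R3.YM Pool.Agent.W793.YM Pool.Agent.TH618.YM Pool.Agent.N984.TW
open Pool.Agent.N991.MK

namespace Pool.Agent.N988.MK

set_option linter.unusedSectionVars false

noncomputable section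

variable {N n : ℕ} {G : Subgroup (UN N)} {B : Frame G n}
variable [CompactSpace G] [MeasurableSpace G] [BorelSpace G]

variable (B) in
/-- **the renormalisation group step for pairs** -/
theorem pair_R (μ : Measure G) [IsProbabilityMeasure μ] [μ.IsMulLeftInvariant]
    [μ.IsMulRightInvariant] [μ.IsInvInvariant] (hG : IsClosed (G : Set (UN N))) (hI : IsoG B)
    (hn : 0 < n) {cA : ℝ}
    (hcA : ∀ x : Fin n → ℝ, ∑ a, ‖LX B x * B.X a - B.X a * LX B x‖ ^ 2 = cA * nE x ^ 2) :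
    ∃ r₁ ε₁ ε₂ : ℝ, 0 < r₁ ∧ r₁ ≤ 1 ∧ 0 < ε₁ ∧ 0 < ε₂ ∧ ε₂ ≤ 1 / 20000 ∧
      ∀ ε : ℝ, 0 < ε → ε ≤ ε₁ → ∀ r : ℝ, 0 < r → r ≤ r₁ →
      ∃ k₀ K : ℝ, 1 ≤ k₀ ∧ 0 ≤ K ∧ ∀ {k₁ k₂ M₁ M₂ l : ℝ} {f₁ f₂ : G → ℝ}
        {F₁ F₂ : (Mat N)ˣ → ℂ} {m₁ m₂ : (Fin n → ℂ) → ℂ}, k₀ ≤ k₁ → k₀ ≤ k₂ →
        PS B r ε k₁ k₂ M₁ M₂ l f₁ f₂ F₁ F₂ m₁ m₂ →
        |k₂ - k₁| ≤ ε₂ * min k₁ k₂ → 2 * l * r ^ 2 ≤ ε₂ * min k₁ k₂ →
        ∃ (k₁' k₂' M₁' M₂' l' : ℝ) (m₁' m₂' : (Fin n → ℂ) → ℂ) (F₁' F₂' : (Mat N)ˣ → ℂ)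
          (a₁ a₂ : ℝ) (g₁ g₂ : G → ℝ), 0 < a₁ ∧ 0 < a₂ ∧
          Rst μ f₁ = (fun x => a₁ * g₁ x) ∧ Rst μ f₂ = (fun x => a₂ * g₂ x) ∧
          PS B r ε k₁' k₂' M₁' M₂' l' g₁ g₂ F₁' F₂' m₁' m₂' ∧
          l' ≤ l / 4 + K * |k₂ - k₁| / min k₁ k₂ ∧ 2 * l' * r ^ 2 ≤ ε₂ * min k₁' k₂' ∧
          |(k₂' - k₁') - (k₂ - k₁)| ≤ K * (|k₂ - k₁| + l) / min k₁ k₂ := by
  obtain ⟨r₁, ε₁, ε₂, hr₁, hr₁1, hε₁, hε₂, hε₂1, hD⟩ := pair_conv B μ hG hI hn hcA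
  refine ⟨r₁, ε₁, ε₂ / 4, hr₁, hr₁1, hε₁, by positivity, by linarith, fun ε hε hεε r hr hrr => ?_⟩
  obtain ⟨k₀, K, hk₀, hK, hD⟩ := hD ε hε hεε r hr hrr
  have hr1 : r ≤ 1 := hrr.trans hr₁1
  have hr2 : 0 < r ^ 2 := by positivity
  have hr21 : r ^ 2 ≤ 1 := pow_le_one₀ hr.le hr1
  obtain ⟨K', hK'⟩ : ∃ K' : ℝ, K' = 2 * K + 4 * K * (2 + 8 * K) := ⟨_, rfl⟩
  have hK'0 : 0 ≤ K' := by rw [hK']; positivity
  refine ⟨max (max (4 * k₀) (24 * K / r ^ 2)) (max (24 * K) (16 * K')), K',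
    le_trans (by linarith) ((le_max_left _ _).trans (le_max_left _ _)), hK'0,
    fun {k₁ k₂ M₁ M₂ l f₁ f₂ F₁ F₂ m₁ m₂} hk1 hk2 P hd hlr => ?_⟩
  obtain ⟨κ, hκ⟩ : ∃ κ, κ = min k₁ k₂ := ⟨_, rfl⟩
  have hkκ := le_min hk1 hk2
  rw [← hκ] at hkκ hd hlr ⊢
  have c1 : κ ≤ k₁ := by rw [hκ]; exact min_le_left _ _
  have c2 : κ ≤ k₂ := by rw [hκ]; exact min_le_right _ _
  have l1 : 4 * k₀ ≤ κ := ((le_max_left _ _).trans (le_max_left _ _)).trans hkκ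
  have l2 : 24 * K / r ^ 2 ≤ κ := ((le_max_right _ _).trans (le_max_left _ _)).trans hkκ
  have l3 : 24 * K ≤ κ := ((le_max_left _ _).trans (le_max_right _ _)).trans hkκ
  have l4 : 16 * K' ≤ κ := ((le_max_right _ _).trans (le_max_right _ _)).trans hkκ
  have hκ1 : 1 ≤ κ := by linarith
  have hκ0 : 0 < κ := by linarith
  have hl := P.D.l0
  have habs := abs_nonneg (k₂ - k₁)
  have hεκ : 0 < ε₂ * κ := by positivity
  have hd1 : |k₂ - k₁| + 2 * l * r ^ 2 ≤ ε₂ * min k₁ k₂ := by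
    rw [← hκ]; linarith
  obtain ⟨ka₁, ka₂, Ma₁, Ma₂, ma₁, ma₂, Fa₁, Fa₂, W₁, W₂, hW₁, hW₂, Pa, a1, a2, a3⟩ :=
    hD (by linarith : k₀ ≤ k₁) (by linarith : k₀ ≤ k₂) P hd1
  rw [← hκ] at a3 Pa
  obtain ⟨X, hX⟩ : ∃ X, X = (|k₂ - k₁| + l) / κ := ⟨_, rfl⟩
  have hX0 : 0 ≤ X := by rw [hX]; positivity
  have hXκ : X * κ = |k₂ - k₁| + l := by rw [hX]; field_simp
  have eX : K * (|k₂ - k₁| + l) / κ = K * X := by rw [hX, mul_div_assoc]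
  rw [eX] at a3 Pa
  have hKX0 : 0 ≤ K * X := by positivity
  -- K X is small
  have hKX : 3 * (K * X) ≤ ε₂ * κ / 16 := by
    have h1 : 24 * K ≤ κ * r ^ 2 := by rwa [div_le_iff₀ hr2] at l2
    have h2 : l * r ^ 2 ≤ ε₂ * κ / 8 := by linarith
    have h3 : (|k₂ - k₁| + l) * r ^ 2 ≤ 3 / 8 * (ε₂ * κ) := by
      have h4 : |k₂ - k₁| * r ^ 2 ≤ |k₂ - k₁| * 1 := mul_le_mul_of_nonneg_left hr21 habs
      have h5 : (|k₂ - k₁| + l) * r ^ 2 = |k₂ - k₁| * r ^ 2 + l * r ^ 2 := by ring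
      linarith
    have h4 : 24 * (K * X) * (κ * r ^ 2) ≤ 3 / 8 * (ε₂ * κ) * (κ * r ^ 2) := by
      calc 24 * (K * X) * (κ * r ^ 2) = 24 * K * ((X * κ) * r ^ 2) := by ring
        _ = 24 * K * ((|k₂ - k₁| + l) * r ^ 2) := by rw [hXκ]
        _ ≤ κ * r ^ 2 * (3 / 8 * (ε₂ * κ)) := mul_le_mul h1 h3 (by positivity) (by positivity)
        _ = _ := by ring
    have h5 : 24 * (K * X) ≤ 3 / 8 * (ε₂ * κ) := le_of_mul_le_mul_right h4 (by positivity)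
    linarith
  have a1' := abs_le.1 a1
  have a2' := abs_le.1 a2
  obtain ⟨κa, hκa⟩ : ∃ κa, κa = min ka₁ ka₂ := ⟨_, rfl⟩
  have hκa1 : κ / 4 ≤ κa := by
    rw [hκa]; exact le_min (by linarith [a1'.1]) (by linarith [a2'.1])
  have hκa2 : κ / 2 - K ≤ κa := by
    rw [hκa]; exact le_min (by linarith [a1'.1]) (by linarith [a2'.1])
  have hka₁ : κa ≤ ka₁ := by rw [hκa]; exact min_le_left _ _
  have hka₂ : κa ≤ ka₂ := by rw [hκa]; exact min_le_right _ _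
  have hκa0 : 0 < κa := by linarith
  have hda : |ka₂ - ka₁| ≤ |k₂ - k₁| / 2 + K * X := by
    have h1 : ka₂ - ka₁ = ((ka₂ - ka₁) - (k₂ - k₁) / 2) + (k₂ - k₁) / 2 := by ring
    rw [h1]
    refine (abs_add_le _ _).trans ?_
    rw [abs_div, abs_two]
    linarith
  obtain ⟨la, hla⟩ : ∃ la, la = l / 8 + K * X := ⟨_, rfl⟩
  rw [← hla] at Pa
  have hla0 : 0 ≤ la := by rw [hla]; positivity
  have hd2 : |ka₂ - ka₁| + 2 * la * r ^ 2 ≤ ε₂ * min ka₁ ka₂ := by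
    rw [← hκa]
    have h1 : 2 * la * r ^ 2 ≤ 2 * l * r ^ 2 / 8 + 2 * (K * X) := by
      rw [hla]
      have h2 : K * X * r ^ 2 ≤ K * X * 1 := mul_le_mul_of_nonneg_left hr21 hKX0
      calc 2 * (l / 8 + K * X) * r ^ 2 = 2 * l * r ^ 2 / 8 + 2 * (K * X * r ^ 2) := by ring
        _ ≤ _ := by linarith
    have h2 : ε₂ * (κ / 4) ≤ ε₂ * κa := mul_le_mul_of_nonneg_left hκa1 hε₂.le
    have h3 : ε₂ * (κ / 4) = ε₂ * κ / 4 := by ring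
    linarith
  obtain ⟨kb₁, kb₂, Mb₁, Mb₂, mb₁, mb₂, Fb₁, Fb₂, V₁, V₂, hV₁, hV₂, Pb, b1, b2, b3⟩ :=
    hD (by linarith : k₀ ≤ ka₁) (by linarith : k₀ ≤ ka₂) Pa hd2
  rw [← hκa] at b3 Pb
  obtain ⟨Xa, hXa⟩ : ∃ Xa, Xa = (|ka₂ - ka₁| + la) / κa := ⟨_, rfl⟩
  have hXa0 : 0 ≤ Xa := by rw [hXa]; positivity
  have eXa : K * (|ka₂ - ka₁| + la) / κa = K * Xa := by rw [hXa, mul_div_assoc]
  rw [eXa] at b3 Pb
  have hXaX : Xa ≤ (2 + 8 * K) * X := by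
    rw [hXa, div_le_iff₀ hκa0]
    have h1 : |ka₂ - ka₁| + la ≤ (|k₂ - k₁| + l) / 2 + 2 * (K * X) := by
      rw [hla]; linarith
    have h2 : (2 + 8 * K) * X * (κ / 4) ≤ (2 + 8 * K) * X * κa :=
      mul_le_mul_of_nonneg_left hκa1 (by positivity)
    have h3 : (2 + 8 * K) * X * (κ / 4) = (X * κ) / 2 + 2 * (K * X) * κ := by ring
    have h4 : 2 * (K * X) * 1 ≤ 2 * (K * X) * κ := mul_le_mul_of_nonneg_left hκ1 (by positivity)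
    rw [h3, hXκ] at h2
    linarith
  have b1' := abs_le.1 b1
  have b2' := abs_le.1 b2
  have Pc := Pb.pow4 hr
  obtain ⟨lc, hlc⟩ : ∃ lc, lc = 4 * (la / 8 + K * Xa) := ⟨_, rfl⟩
  rw [← hlc] at Pc
  have hlc1 : lc ≤ l / 16 + K' * X := by
    rw [hlc, hla, hK']
    have h1 : K * Xa ≤ K * ((2 + 8 * K) * X) := mul_le_mul_of_nonneg_left hXaX hK
    calc 4 * ((l / 8 + K * X) / 8 + K * Xa) ≤ 4 * ((l / 8 + K * X) / 8 + K * ((2 + 8 * K) * X)) := by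
          linarith
      _ = l / 16 + (K / 2 + 4 * K * (2 + 8 * K)) * X := by ring
      _ ≤ _ := by
          have : 0 ≤ K * X := hKX0
          linarith
  have hK'X : K' * X = K' * |k₂ - k₁| / κ + K' / κ * l := by
    rw [hX]; ring
  have hK'κ : K' / κ ≤ 1 / 16 := by
    rw [div_le_iff₀ hκ0]; linarith
  have hK'l : K' / κ * l ≤ 1 / 16 * l := mul_le_mul_of_nonneg_right hK'κ hl
  have hlc2 : lc ≤ l / 4 + K' * |k₂ - k₁| / κ := by linarith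
  refine ⟨4 * kb₁, 4 * kb₂, 4 * Mb₁, 4 * Mb₂, lc, _, _, _, _, (W₁ ^ 2 * V₁) ^ 4,
    (W₂ ^ 2 * V₂) ^ 4, _, _, by positivity, by positivity, ?_, ?_, Pc, hlc2, ?_, ?_⟩
  · funext x
    have h1 : ∀ x, conv μ f₁ f₁ x = W₁ * (W₁⁻¹ * conv μ f₁ f₁ x) := fun x => by
      rw [mul_inv_cancel_left₀ hW₁.ne']
    have h2 : conv μ (conv μ f₁ f₁) (conv μ f₁ f₁) x = W₁ ^ 2 *
        conv μ (fun x => W₁⁻¹ * conv μ f₁ f₁ x) (fun x => W₁⁻¹ * conv μ f₁ f₁ x) x := by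
      unfold Pool.Agent.N991.MK.conv
      rw [← integral_const_mul]
      refine integral_congr_ae (Eventually.of_forall fun y => ?_)
      beta_reduce
      field_simp
    unfold Rst
    rw [h2, ← mul_pow]
    congr 1
    field_simp
  · funext x
    have h2 : conv μ (conv μ f₂ f₂) (conv μ f₂ f₂) x = W₂ ^ 2 *
        conv μ (fun x => W₂⁻¹ * conv μ f₂ f₂ x) (fun x => W₂⁻¹ * conv μ f₂ f₂ x) x := by
      unfold Pool.Agent.N991.MK.conv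
      rw [← integral_const_mul]
      refine integral_congr_ae (Eventually.of_forall fun y => ?_)
      beta_reduce
      field_simp
    unfold Rst
    rw [h2, ← mul_pow]
    congr 1
    field_simp
  · have e : min (4 * kb₁) (4 * kb₂) = 4 * min kb₁ kb₂ :=
      (mul_min_of_nonneg _ _ (by norm_num : (0 : ℝ) ≤ 4)).symm
    rw [e]
    have h1 : κ / 8 ≤ min kb₁ kb₂ := le_min (by linarith [b1'.1]) (by linarith [b2'.1])
    have h2 : 2 * lc * r ^ 2 ≤ 2 * l * r ^ 2 / 4 + 2 * (K' * |k₂ - k₁| / κ) := by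
      have h3 : 0 ≤ K' * |k₂ - k₁| / κ := by positivity
      have h4 : K' * |k₂ - k₁| / κ * r ^ 2 ≤ K' * |k₂ - k₁| / κ * 1 :=
        mul_le_mul_of_nonneg_left hr21 h3
      calc 2 * lc * r ^ 2 ≤ 2 * (l / 4 + K' * |k₂ - k₁| / κ) * r ^ 2 := by gcongr
        _ = 2 * l * r ^ 2 / 4 + 2 * (K' * |k₂ - k₁| / κ * r ^ 2) := by ring
        _ ≤ _ := by linarith
    have h3 : K' * |k₂ - k₁| / κ ≤ 1 / 16 * (ε₂ / 4 * κ) := by
      calc K' * |k₂ - k₁| / κ = K' / κ * |k₂ - k₁| := by ring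
        _ ≤ 1 / 16 * (ε₂ / 4 * κ) := mul_le_mul hK'κ hd habs (by norm_num)
    have h4 : ε₂ / 4 * (4 * (κ / 8)) ≤ ε₂ / 4 * (4 * min kb₁ kb₂) :=
      mul_le_mul_of_nonneg_left (by linarith) (by positivity)
    linarith
  · have e : 4 * kb₂ - 4 * kb₁ - (k₂ - k₁) = 4 * ((kb₂ - kb₁) - (ka₂ - ka₁) / 2) +
        2 * ((ka₂ - ka₁) - (k₂ - k₁) / 2) := by ring
    rw [e, mul_div_assoc, ← hX]
    refine (abs_add_le _ _).trans ?_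
    rw [abs_mul, abs_mul, abs_two, abs_of_pos (by norm_num : (0 : ℝ) < 4)]
    have h1 : K * Xa ≤ K * ((2 + 8 * K) * X) := mul_le_mul_of_nonneg_left hXaX hK
    calc _ ≤ 4 * (K * ((2 + 8 * K) * X)) + 2 * (K * X) := by linarith
      _ = _ := by rw [hK']; ring

end

end Pool.Agent.N988.MK
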