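import Mathlib
import Pool.Agent.N988.MK.Pair5

/-!
# Closeness of the normalised densities
-/

open MeasureTheory Filter Metric Asymptotics Matrix
open scoped Matrix.Norms.Frobenius Topology ContDiff
open Pool.Agent.H906R3.YM Pool.Agent.W793.YM Pool.Agent.TH618.YM Pool.Agent.N984.TW
open Pool.Agent.N991.MK

namespace Pool.Agent.N988.MK

set_option linter.unusedSectionVars false

noncomputable section

variable {N n : ℕ} {G : Subgroup (UN N)} {B : Frame G n} {hG : IsClosed (G : Set (UN N))}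
variable [CompactSpace G] [MeasurableSpace G] [BorelSpace G]

variable {r ε ε₂ k k₁ k₂ M M₁ M₂ l : ℝ} {f f₁ f₂ g₁ g₂ : G → ℝ} {F F' F₁ F₂ : (Mat N)ˣ → ℂ}
  {m m' m₁ m₂ : (Fin n → ℂ) → ℂ}

lemma NS.le_one (hr : 0 < r) (hk : 0 ≤ k) (h : NS B r ε k M f F m) (x : G) : f x ≤ 1 := by
  have h1 := h.tb 0 x (by rw [nE_zero]; positivity)
  rw [rl_zero', uE_zero, one_mul, h.cf.norm_res, nE_zero, h.one, norm_one, one_mul] at h1
  refine (le_abs_self _).trans (h1.trans ?_)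
  refine Real.exp_le_one_iff.2 ?_
  have h2 := mul_nonneg hk (sq_nonneg (min (nN x) r))
  linarith

/-- the difference of two states on the group -/
lemma PS.diff_le (hgr : GoodR B r) (P : PS B r ε k₁ k₂ M₁ M₂ l f₁ f₂ F₁ F₂ m₁ m₂)
    (hk1 : 0 < k₁) (hk2 : 0 < k₂) (hε : ε ≤ 1 / 2000)
    (hd : |k₂ - k₁| + 2 * l * r ^ 2 ≤ min k₁ k₂ / 10000) (x : G) :
    |f₂ x - f₁ x| ≤ |k₂ - k₁| + l := by
  have hr := hgr.pos
  have hr1 : r ≤ 1 := hgr.le.trans (by norm_num)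
  have hκ : 0 < min k₁ k₂ := lt_min hk1 hk2
  have hl := P.D.l0
  have e1 : k₁ ≤ 1.0001 * min k₁ k₂ := by
    have h0 : 0 ≤ 2 * l * r ^ 2 := by positivity
    rcases le_total k₁ k₂ with h | h
    · rw [min_eq_left h]; linarith
    · rw [min_eq_right h] at hd ⊢
      have := neg_abs_le (k₂ - k₁)
      linarith
  have e2 : M₁ * r ^ 2 ≤ k₁ / 2000 := by
    have := P.N1.Ml
    nlinarith
  have h1 := TB_diff hgr P.N1.st P.N2.st P.N1.one P.N2.one hκ (min_le_left _ _) e1 e2 hl P.D.bd hd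
    P.D.tb
  have h2 := h1.full hr hκ.le (le_trans hl (le_max_right _ _)) 0 x
    (by rw [nE_zero]; positivity)
  rw [rl_zero', uE_zero, one_mul, nE_zero, P.N1.cf.res, P.N2.cf.res, ← Complex.ofReal_sub,
    Complex.norm_real, Real.norm_eq_abs] at h2
  refine h2.trans ?_
  have h3 : Real.exp (min k₁ k₂ / 2 * (1.01 * 0 ^ 2 - 0.99 * min (nN x) r ^ 2)) ≤ 1 := by
    refine Real.exp_le_one_iff.2 ?_
    have h2 := mul_nonneg hκ.le (sq_nonneg (min (nN x) r))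
    linarith
  have h4 : max (cn r k₁ k₂ l) l ≤ |k₂ - k₁| + l := by
    have h0 := abs_nonneg (k₂ - k₁)
    refine max_le ?_ (by linarith)
    unfold cn
    have h5 : r ^ 2 ≤ 1 := pow_le_one₀ hr.le hr1
    have h6 : 0 ≤ r ^ 2 := by positivity
    calc (|k₂ - k₁| / 2 + l * r ^ 2) * r ^ 2 ≤ (|k₂ - k₁| / 2 + l * 1) * 1 := by gcongr
      _ ≤ _ := by linarith
  calc _ ≤ (|k₂ - k₁| + l) * 1 := mul_le_mul h4 h3 (Real.exp_pos _).le (by positivity)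
    _ = _ := mul_one _

lemma ratio_close {a₁ a₂ I₁ I₂ T c : ℝ} (h : |a₂ - a₁| ≤ T) (hI : |I₂ - I₁| ≤ T) (ha : 0 < a₂)
    (ha1 : a₂ ≤ 1) (hc : 0 < c) (hc1 : c ≤ 1) (h1 : c ≤ I₁) (h2 : c ≤ I₂) :
    |I₁⁻¹ * a₁ - I₂⁻¹ * a₂| ≤ 2 * T / c ^ 2 := by
  have hI₁ : 0 < I₁ := by linarith
  have hI₂ : 0 < I₂ := by linarith
  have hT : 0 ≤ T := (abs_nonneg _).trans h
  have e : I₁⁻¹ * a₁ - I₂⁻¹ * a₂ = -(I₁⁻¹ * (a₂ - a₁)) + a₂ * (I₂ - I₁) * (I₁⁻¹ * I₂⁻¹) := by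
    field_simp
    ring
  rw [e]
  refine (abs_add_le _ _).trans ?_
  have b1 : I₁⁻¹ ≤ c⁻¹ := inv_anti₀ hc h1
  have b2 : I₂⁻¹ ≤ c⁻¹ := inv_anti₀ hc h2
  have b3 : 1 ≤ c⁻¹ := (one_le_inv₀ hc).2 hc1
  rw [abs_neg, abs_mul, abs_mul, abs_mul, abs_mul, abs_of_pos ha, abs_of_pos (inv_pos.2 hI₁),
    abs_of_pos (inv_pos.2 hI₂)]
  have p1 : 0 ≤ I₁⁻¹ := (inv_pos.2 hI₁).le
  have p2 : 0 ≤ I₂⁻¹ := (inv_pos.2 hI₂).le
  calc I₁⁻¹ * |a₂ - a₁| + a₂ * |I₂ - I₁| * (I₁⁻¹ * I₂⁻¹)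
      ≤ (c⁻¹ * c⁻¹) * T + 1 * T * (c⁻¹ * c⁻¹) := by
        refine add_le_add ?_ ?_
        · refine mul_le_mul ?_ h (abs_nonneg _) (by positivity)
          nlinarith
        · gcongr
    _ = 2 * T / c ^ 2 := by field_simp; ring

variable (B) in
/-- **closeness of the normalised densities** -/
theorem pair_close (μ : Measure G) [IsProbabilityMeasure μ] [μ.IsMulLeftInvariant]
    [μ.IsMulRightInvariant] [μ.IsInvInvariant] : ∃ c : ℝ, 0 < c ∧ ∃ D : ℕ,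
    ∀ {r ε k₁ k₂ M₁ M₂ l : ℝ} {f₁ f₂ : G → ℝ} {F₁ F₂ : (Mat N)ˣ → ℂ}
      {m₁ m₂ : (Fin n → ℂ) → ℂ}, GoodR B r → 16 / r ^ 2 ≤ k₁ → 16 / r ^ 2 ≤ k₂ → 1 ≤ k₁ → 1 ≤ k₂ →
      k₂ ≤ 2 * k₁ → ε ≤ 1 / 2000 → PS B r ε k₁ k₂ M₁ M₂ l f₁ f₂ F₁ F₂ m₁ m₂ →
      |k₂ - k₁| + 2 * l * r ^ 2 ≤ min k₁ k₂ / 10000 →
      ∀ x, |(∫ y, f₁ y ∂μ)⁻¹ * f₁ x - (∫ y, f₂ y ∂μ)⁻¹ * f₂ x| ≤
        c * k₁ ^ D * (|k₂ - k₁| + l) := by
  obtain ⟨c, hc, D, hlow⟩ := int_lower_pow (B := B) μ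
  refine ⟨2 * (2 ^ D) ^ 2 / c ^ 2, by positivity, 2 * D, fun {r ε k₁ k₂ M₁ M₂ l f₁ f₂ F₁ F₂ m₁ m₂}
    hgr hk1 hk2 h1k1 h1k2 hk hε P hd x => ?_⟩
  have hr := hgr.pos
  have hk10 : 0 < k₁ := by linarith
  have hk20 : 0 < k₂ := by linarith
  have low : ∀ {k M : ℝ} {f : G → ℝ} {F : (Mat N)ˣ → ℂ} {m : (Fin n → ℂ) → ℂ}, 1 ≤ k →
      16 / r ^ 2 ≤ k → k ≤ 2 * k₁ → NS B r ε k M f F m →
      c / (2 * k₁) ^ D ≤ ∫ y, f y ∂μ ∧ ∫ y, f y ∂μ ≤ 1 := by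
    intro k M f F m h1k hk hkk h
    have hk0 : 0 < k := by linarith
    have hMr : M * r ^ 2 ≤ k / 1000 := by
      have := h.Ml
      nlinarith
    have h1 := hlow hgr hk hMr h.cf h.st.nearS
    rw [h.one, norm_one, one_pow, one_mul] at h1
    have hint : Integrable f μ := integrable_of_cont h.cf.cont
    have h2 : ∫ z, f z ^ 2 ∂μ ≤ ∫ z, f z ∂μ := by
      refine integral_mono (integrable_of_cont (h.cf.cont.pow 2)) hint fun z => ?_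
      have a1 := h.pos z
      have a2 := h.le_one hr hk0.le z
      beta_reduce
      nlinarith
    have h0 : 0 ≤ ∫ z, f z ∂μ := integral_nonneg fun z => (h.pos z).le
    constructor
    · rw [div_le_iff₀ (by positivity)]
      refine h1.trans ?_
      have h3 : k ^ D ≤ (2 * k₁) ^ D := pow_le_pow_left₀ hk0.le hkk D
      calc k ^ D * ∫ z, f z ^ 2 ∂μ ≤ k ^ D * ∫ z, f z ∂μ :=
            mul_le_mul_of_nonneg_left h2 (by positivity)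
        _ ≤ (2 * k₁) ^ D * ∫ z, f z ∂μ := mul_le_mul_of_nonneg_right h3 h0
        _ = _ := mul_comm _ _
    · calc ∫ y, f y ∂μ ≤ ∫ y : G, (1 : ℝ) ∂μ :=
            integral_mono hint (integrable_const _) fun z => h.le_one hr hk0.le z
        _ = 1 := by simp
  obtain ⟨a1, a2⟩ := low h1k1 hk1 (by linarith) P.N1
  obtain ⟨a3, a4⟩ := low h1k2 hk2 hk P.N2
  have hI : |(∫ y, f₂ y ∂μ) - ∫ y, f₁ y ∂μ| ≤ |k₂ - k₁| + l := by
    have i1 : Integrable f₁ μ := integrable_of_cont P.N1.cf.cont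
    have i2 : Integrable f₂ μ := integrable_of_cont P.N2.cf.cont
    rw [← integral_sub i2 i1]
    have h1 : ‖∫ y, (f₂ y - f₁ y) ∂μ‖ ≤ (|k₂ - k₁| + l) * μ.real Set.univ :=
      norm_integral_le_of_norm_le_const (Eventually.of_forall fun y => by
        rw [Real.norm_eq_abs]
        exact P.diff_le hgr hk10 hk20 hε hd y)
    rw [Real.norm_eq_abs, probReal_univ, mul_one] at h1
    exact h1
  have h5 := ratio_close (P.diff_le hgr hk10 hk20 hε hd x) hI (P.N2.pos x)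
    (P.N2.le_one hr hk20.le x) (by positivity : 0 < c / (2 * k₁) ^ D) (a1.trans a2) a1 a3
  refine h5.trans (le_of_eq ?_)
  rw [div_pow]
  field_simp
  ring

end

end Pool.Agent.N988.MK
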