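import Mathlib
import Pool.Agent.N988.MK.Pair6
import Pool.Agent.N988.MK.Pair7
import Pool.Agent.N988.MK.Pair8
import Pool.Agent.N989.MK.Uniq
import Pool.Agent.N991.MK.WeakFlowP

/-!
# The weak coupling flow with the comparison of pairs
-/

open MeasureTheory Filter Metric Asymptotics Matrix
open scoped Matrix.Norms.Frobenius Topology ContDiff
open Pool.Agent.H906R3.YM Pool.Agent.W793.YM Pool.Agent.TH618.YM Pool.Agent.N984.TW
open Pool.Agent.N991.MK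

namespace Pool.Agent.N988.MK

set_option linter.unusedSectionVars false

noncomputable section

variable {N n : ℕ} {G : Subgroup (UN N)} {B : Frame G n} {hG : IsClosed (G : Set (UN N))}
variable [CompactSpace G] [MeasurableSpace G] [BorelSpace G] [SecondCountableTopology G]
  {μ : Measure G} [IsProbabilityMeasure μ] [μ.IsHaarMeasure] [μ.IsMulRightInvariant]
  [μ.IsInvInvariant]

/-- the numbers of a pair with nearby couplings -/
lemma near_num {h k ε ε₂ : ℝ} (hh : 0 < h) (hε2 : ε ≤ ε₂ / 2) (hε1 : ε ≤ 1 / 2) (hε : 0 < ε)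
    (hd : |h - k| ≤ ε * h) : |k - h| ≤ ε₂ * min h k ∧ k ≤ 2 * h ∧ h / 2 ≤ min h k := by
  have h1 := abs_le.1 hd
  have h2 : ε * h ≤ 1 / 2 * h := mul_le_mul_of_nonneg_right hε1 hh.le
  have h3 : h / 2 ≤ min h k := le_min (by linarith) (by linarith)
  refine ⟨?_, by linarith, h3⟩
  rw [abs_sub_comm]
  calc |h - k| ≤ ε * h := hd
    _ ≤ ε₂ / 2 * h := mul_le_mul_of_nonneg_right hε2 hh.le
    _ = ε₂ * (h / 2) := by ring
    _ ≤ ε₂ * min h k := mul_le_mul_of_nonneg_left h3 (by linarith)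

/-- the comparison of pairs, from its parts -/
theorem pairFlow_of (hG : IsClosed (G : Set (UN N))) (hn : 0 < n) {χ : G → ℝ}
    {r ε ε₂ ε3 k₀ K k0 C c0 h0 C1 : ℝ} (hgr : GoodR B r) (hr1 : r ≤ 1) (hε2 : 0 < ε₂)
    (hε21 : ε₂ ≤ 1 / 20000) (hεε : ε ≤ ε₂ / 10) (hε3 : 0 < ε3) (hεε3 : ε ≤ ε3) (hk₀ : 1 ≤ k₀)
    (hK : 0 ≤ K) (hC : 0 ≤ C) (hc0 : 0 < c0)
    (hpair : ∀ {k₁ k₂ M₁ M₂ l : ℝ} {f₁ f₂ : G → ℝ}
        {F₁ F₂ : (Mat N)ˣ → ℂ} {m₁ m₂ : (Fin n → ℂ) → ℂ}, k₀ ≤ k₁ → k₀ ≤ k₂ →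
        PS B r ε k₁ k₂ M₁ M₂ l f₁ f₂ F₁ F₂ m₁ m₂ →
        |k₂ - k₁| ≤ ε₂ * min k₁ k₂ → 2 * l * r ^ 2 ≤ ε₂ * min k₁ k₂ →
        ∃ (k₁' k₂' M₁' M₂' l' : ℝ) (m₁' m₂' : (Fin n → ℂ) → ℂ) (F₁' F₂' : (Mat N)ˣ → ℂ)
          (a₁ a₂ : ℝ) (g₁ g₂ : G → ℝ), 0 < a₁ ∧ 0 < a₂ ∧
          Rst μ f₁ = (fun x => a₁ * g₁ x) ∧ Rst μ f₂ = (fun x => a₂ * g₂ x) ∧
          PS B r ε k₁' k₂' M₁' M₂' l' g₁ g₂ F₁' F₂' m₁' m₂' ∧
          l' ≤ l / 4 + K * |k₂ - k₁| / min k₁ k₂ ∧ 2 * l' * r ^ 2 ≤ ε₂ * min k₁' k₂' ∧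
          |(k₂' - k₁') - (k₂ - k₁)| ≤ K * (|k₂ - k₁| + l) / min k₁ k₂)
    (hwil : ∀ {ε k₁ k₂ M₁ M₂ l : ℝ} {f₁ f₂ : G → ℝ}
      {F₁ F₂ : (Mat N)ˣ → ℂ} {m₁ m₂ : (Fin n → ℂ) → ℂ}, ε ≤ ε3 → k0 ≤ k₁ → k0 ≤ k₂ →
      PS B r ε k₁ k₂ M₁ M₂ l f₁ f₂ F₁ F₂ m₁ m₂ → |k₂ - k₁| ≤ ε3 * min k₁ k₂ →
      2 * l * r ^ 2 ≤ min k₁ k₂ / 20000 →
      c0 * |k₁ - k₂| / k₁ ^ 2 ≤ |Pool.Agent.N989.MK.WW μ χ f₁ - Pool.Agent.N989.MK.WW μ χ f₂| +
        C * l / k₁ ^ 3) :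
    ∃ (h1 ε₀ C' : ℝ) (Dm : ℕ), Pool.Agent.N989.MK.PairFlow μ χ (PSt B μ r ε h0 C1)
      (QSt B r ε ε₂) h1 ε₀ C' c0 Dm := by
  have hr := hgr.pos
  have hr2 : 0 < r ^ 2 := by positivity
  have hr21 : r ^ 2 ≤ 1 := pow_le_one₀ hr.le hr1
  obtain ⟨cc, hcc, Dm, hclose⟩ := pair_close B μ
  obtain ⟨h1, hh1⟩ : ∃ h1 : ℝ, h1 = max (max k₀ k0) (max (16 / r ^ 2) (20 / ε₂)) := ⟨_, rfl⟩
  obtain ⟨ε₀, hε₀⟩ : ∃ ε₀ : ℝ, ε₀ = min (ε₂ / 2) (min (ε3 / 2) (1 / 100000)) := ⟨_, rfl⟩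
  obtain ⟨C', hC'⟩ : ∃ C' : ℝ, C' = 2 + 2 * K + C + cc := ⟨_, rfl⟩
  have a1 : k₀ ≤ h1 := by rw [hh1]; exact (le_max_left _ _).trans (le_max_left _ _)
  have a2 : k0 ≤ h1 := by rw [hh1]; exact (le_max_right _ _).trans (le_max_left _ _)
  have a3 : 16 / r ^ 2 ≤ h1 := by rw [hh1]; exact (le_max_left _ _).trans (le_max_right _ _)
  have a4 : 20 / ε₂ ≤ h1 := by rw [hh1]; exact (le_max_right _ _).trans (le_max_right _ _)
  have b0 : 0 < ε₀ := by
    rw [hε₀]; exact lt_min (by positivity) (lt_min (by positivity) (by norm_num))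
  have b1 : ε₀ ≤ ε₂ / 2 := by rw [hε₀]; exact min_le_left _ _
  have b2 : ε₀ ≤ ε3 / 2 := by rw [hε₀]; exact (min_le_right _ _).trans (min_le_left _ _)
  have b3 : ε₀ ≤ 1 / 100000 := by rw [hε₀]; exact (min_le_right _ _).trans (min_le_right _ _)
  have b4 : ε₀ ≤ 1 / 2 := by linarith
  have c1 : 2 ≤ C' := by rw [hC']; linarith
  have c2 : 2 * K ≤ C' := by rw [hC']; linarith
  have c3 : C ≤ C' := by rw [hC']; linarith
  have c4 : cc ≤ C' := by rw [hC']; linarith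
  have c5 : K ≤ C' := by linarith
  refine ⟨h1, ε₀, C', Dm, b0, by linarith, hc0, ?_, ?_, ?_, ?_, ?_⟩
  · -- nn
    rintro f g h k l ⟨_, _, _, _, _, _, _, _, _, _, l₀, _, _, _, _, P, hl, _⟩
    exact P.D.l0.trans hl
  · -- init
    intro f h ρ g k σ hP hP' hh hk hd
    obtain ⟨hρ, F₁, m₁, p1, p2, p3, p4, p5, p6, -⟩ := hP
    obtain ⟨hσ, F₂, m₂, q1, q2, q3, q4, q5, q6, -⟩ := hP'
    have hh0 : 0 < h := by linarith
    have hk0 : 0 < k := by linarith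
    have hN1 := NS.of_st p1 p2 p3 p4 p5 p6
    have hN2 := NS.of_st q1 q2 q3 q4 q5 q6
    obtain ⟨d1, d2, d3⟩ := near_num hh0 b1 b4 b0 hd
    refine ⟨C' * (1 + ρ * h + σ * k), le_rfl, f 1, g 1, _, _, _, _, m₁, m₂, ρ * h, σ * k,
      ρ * h + σ * k + 2, p2 1, q2 1, ?_, ?_, ⟨hN1, hN2, Dd.trivial hr hN1 hN2⟩, ?_, ?_⟩
    · funext x
      rw [mul_inv_cancel_left₀ (p2 1).ne']
    · funext x
      rw [mul_inv_cancel_left₀ (q2 1).ne']
    · have : 0 ≤ 1 + ρ * h + σ * k := by linarith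
      nlinarith
    · have e1 : 2 * (ρ * h + σ * k + 2) * r ^ 2 = 2 * (ρ * h * r ^ 2) + 2 * (σ * k * r ^ 2) +
          4 * r ^ 2 := by ring
      have e2 : 20 ≤ ε₂ * h := by
        have := (div_le_iff₀ hε2).1 (a4.trans hh)
        linarith
      have d1' := abs_le.1 d1
      have hk' : k ≤ 1.1 * h := by
        have h1 := abs_le.1 hd
        have h2 : ε₀ * h ≤ 1 / 100000 * h := mul_le_mul_of_nonneg_right b3 hh0.le
        linarith
      have hm' : h / 1.1 ≤ min h k := by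
        have h1 := abs_le.1 hd
        have h2 : ε₀ * h ≤ 1 / 100000 * h := mul_le_mul_of_nonneg_right b3 hh0.le
        refine le_min ?_ ?_
        · rw [div_le_iff₀ (by norm_num)]; linarith
        · rw [div_le_iff₀ (by norm_num)]; linarith
      have e3 : ε * h ≤ ε₂ / 10 * h := mul_le_mul_of_nonneg_right hεε hh0.le
      have e4 : ε * k ≤ ε₂ / 10 * k := mul_le_mul_of_nonneg_right hεε hk0.le
      have e5 : ε₂ * k ≤ ε₂ * (1.1 * h) := mul_le_mul_of_nonneg_left hk' hε2.le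
      have e6 : ε₂ * (h / 1.1) ≤ ε₂ * min h k := mul_le_mul_of_nonneg_left hm' hε2.le
      have e7 : ε₂ * (h / 1.1) = ε₂ * h / 1.1 := by ring
      have e8 : ε₂ * h / 1.1 = ε₂ * h * (10 / 11) := by ring
      rw [e1]
      linarith
  · -- step
    intro f h ρ g k σ h' ρ' k' σ' l hP hQ hP' hQ' hR hh hk hd
    obtain ⟨v₁, v₂, g₁, g₂, F₁, F₂, m₁, m₂, M₁, M₂, l₀, hv₁, hv₂, e1, e2, P, hl, hlr⟩ := hR
    have hh0 : 0 < h := by linarith
    have hk0 : 0 < k := by linarith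
    obtain ⟨d1, d2, d3⟩ := near_num hh0 b1 b4 b0 hd
    have hm0 : 0 < min h k := lt_min hh0 hk0
    have hl₀ := P.D.l0
    obtain ⟨k₁', k₂', M₁', M₂', l', m₁', m₂', F₁', F₂', a₁, a₂, g₁', g₂', ha₁, ha₂, s1, s2, P', s3,
      s4, s5⟩ := hpair (a1.trans hh) (a1.trans hk) P d1 hlr
    have t1 : Pool.Agent.N989.MK.TT μ f = fun x => (v₁ ^ 16 * a₁) * g₁' x := by
      rw [e1, Pool.Agent.N989.MK.TT_scale, TT_Rst, s1]
      funext x
      ring
    have t2 : Pool.Agent.N989.MK.TT μ g = fun x => (v₂ ^ 16 * a₂) * g₂' x := by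
      rw [e2, Pool.Agent.N989.MK.TT_scale, TT_Rst, s2]
      funext x
      ring
    obtain ⟨-, Fa, ma, x1, -, x3, -⟩ := hP'
    obtain ⟨-, Fb, mb, y1, -, y3, -⟩ := hQ'
    have u1 : k₁' = h' := coupling_uniq hG hr hn (by positivity) t1 P'.N1 x1 x3
    have u2 : k₂' = k' := coupling_uniq hG hr hn (by positivity) t2 P'.N2 y1 y3
    subst u1 u2
    refine ⟨l', ⟨v₁ ^ 16 * a₁, v₂ ^ 16 * a₂, g₁', g₂', F₁', F₂', m₁', m₂', M₁', M₂', l',
      by positivity, by positivity, t1, t2, P', le_rfl, s4⟩, ?_, ?_⟩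
    · refine s3.trans ?_
      have h2 : K * |k - h| / min h k ≤ C' * |h - k| := by
        rw [div_le_iff₀ hm0, abs_sub_comm k h]
        have h4 : 1 ≤ min h k := le_min (by linarith) (by linarith)
        have h5 : 0 ≤ C' * |h - k| := by positivity
        have h6 : K * |h - k| ≤ C' * |h - k| := mul_le_mul_of_nonneg_right c5 (abs_nonneg _)
        nlinarith
      linarith
    · have e3 : (k₁' - k₂') - (h - k) = -((k₂' - k₁') - (k - h)) := by ring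
      rw [e3, abs_neg]
      refine s5.trans ?_
      rw [div_le_div_iff₀ hm0 hh0, abs_sub_comm k h]
      have h4 : 0 ≤ |h - k| + l := by
        have := abs_nonneg (h - k)
        linarith
      calc K * (|h - k| + l₀) * h ≤ K * (|h - k| + l) * (2 * min h k) := by
            have : h ≤ 2 * min h k := by linarith
            have : 0 ≤ K * (|h - k| + l) := by positivity
            gcongr
        _ = 2 * K * (|h - k| + l) * min h k := by ring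
        _ ≤ C' * (|h - k| + l) * min h k := by gcongr
  · -- close
    intro f h ρ g k σ l hP hQ hR hh hk hd x
    obtain ⟨v₁, v₂, g₁, g₂, F₁, F₂, m₁, m₂, M₁, M₂, l₀, hv₁, hv₂, e1, e2, P, hl, hlr⟩ := hR
    have hh0 : 0 < h := by linarith
    have hk0 : 0 < k := by linarith
    obtain ⟨d1, d2, d3⟩ := near_num hh0 b1 b4 b0 hd
    have hm0 : 0 < min h k := lt_min hh0 hk0
    have hl₀ := P.D.l0
    have h2 : |k - h| + 2 * l₀ * r ^ 2 ≤ min h k / 10000 := by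
      have h3 : |k - h| ≤ 1 / 50000 * min h k := by
        rw [abs_sub_comm]
        calc |h - k| ≤ ε₀ * h := hd
          _ ≤ 1 / 100000 * (2 * min h k) := by gcongr; linarith
          _ = _ := by ring
      have h4 := mul_le_mul_of_nonneg_right hε21 hm0.le
      linarith
    have h3 := hclose hgr (a3.trans hh) (a3.trans hk) (by linarith) (by linarith) d2 (by linarith) P
      h2 x
    rw [e1, e2, Pool.Agent.N989.MK.nrm_scale hv₁, Pool.Agent.N989.MK.nrm_scale hv₂]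
    refine h3.trans ?_
    rw [abs_sub_comm k h]
    have : 0 ≤ |h - k| + l := by
      have := abs_nonneg (h - k)
      linarith
    gcongr
  · -- wil
    intro f h ρ g k σ l hP hQ hR hh hk hd
    obtain ⟨v₁, v₂, g₁, g₂, F₁, F₂, m₁, m₂, M₁, M₂, l₀, hv₁, hv₂, e1, e2, P, hl, hlr⟩ := hR
    have hh0 : 0 < h := by linarith
    have hk0 : 0 < k := by linarith
    obtain ⟨d1, d2, d3⟩ := near_num hh0 b2 b4 b0 hd
    have hm0 : 0 < min h k := lt_min hh0 hk0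
    have h2 : 2 * l₀ * r ^ 2 ≤ min h k / 20000 := by
      refine hlr.trans ?_
      have := mul_le_mul_of_nonneg_right hε21 hm0.le
      linarith
    have h3 := hwil hεε3 (a2.trans hh) (a2.trans hk) P d1 h2
    rw [e1, e2, Pool.Agent.N989.MK.WW_scale hv₁.ne', Pool.Agent.N989.MK.WW_scale hv₂.ne']
    refine h3.trans ?_
    have hl₀ := P.D.l0
    gcongr

include hG in
/-- **the weak coupling flow with the comparison of pairs** -/
theorem exists_flow2 [ConnectedSpace G] {χ : G → ℝ} {A : ℝ} (hA : 0 ≤ A)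
    (hnc : ∃ g h : G, g * h ≠ h * g)
    (hs : ∀ H : Subgroup G, H.Normal → IsClosed (H : Set G) → Finite H ∨ H = ⊤)
    (hW : WilLawX B μ χ A) (hL : WilLipX B μ χ) {cA : ℝ} (hcA0 : 0 < cA)
    (hcA : ∀ x : Fin n → ℝ,
      ∑ a, ‖LX B x * B.X a - B.X a * LX B x‖ ^ 2 = cA * ∑ a, x a ^ 2) :
    ∃ (P : (G → ℝ) → ℝ → ℝ → Prop) (Q : (G → ℝ) → (G → ℝ) → ℝ → ℝ → ℝ → Prop)
      (h0 C R h1 ε C' c0 : ℝ) (Dm : ℕ),
      Pool.Agent.N989.MK.Flow μ χ (Pool.Agent.N989.MK.EDG B hG)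
        (Pool.Agent.N989.MK.wz G) P (cA / 8) h0 C A R ∧
      Pool.Agent.N989.MK.PairFlow μ χ P Q h1 ε C' c0 Dm := by
  have hI : IsoG B := isoG_of_simple B hG hnc hs
  have hn : 0 < n := by
    rcases Nat.eq_zero_or_pos n with hn | hn
    · exfalso
      subst hn
      obtain ⟨m, hm⟩ := Pool.Agent.N989.MK.exists_gen B hG
        (isConnected_iff_connectedSpace.2 inferInstance)
      have h1 : ∀ x : G, x = 1 := by
        intro x
        obtain ⟨l, _, _, hl⟩ := hm x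
        rw [hl]
        refine List.prod_eq_one fun y hy => ?_
        obtain ⟨X, _, rfl⟩ := List.mem_map.1 hy
        have h0 : X = 0 := Subsingleton.elim _ _
        rw [h0]
        exact Eg_zero B hG
      obtain ⟨g, h, hgh⟩ := hnc
      exact hgh (by rw [h1 g, h1 h])
    · exact hn
  have hcA' : ∀ x : Fin n → ℝ, ∑ a, ‖LX B x * B.X a - B.X a * LX B x‖ ^ 2 = cA * nE x ^ 2 :=
    fun x => by rw [hcA x, Pool.Agent.N991.MK.nE_sq]
  obtain ⟨r₁, ε₁, hr₁, hε₁, hε1, hflow⟩ := flow_R (B := B) μ hG hI hn hcA' (2 * N)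
  obtain ⟨r₅, ε₅, ε₂, hr₅, hr₅1, hε₅, hε₂, hε₂1, hpair⟩ := pair_R B μ hG hI hn hcA'
  obtain ⟨r₆, ε₆, hr₆, hε₆, hlip⟩ := hL
  obtain ⟨CW, r₂, hCW, hr₂, hws⟩ := wil_state B
  obtain ⟨r₃, hr₃, hwt⟩ := tube_wil B
  obtain ⟨r₄, hr₄, hwl⟩ := hW
  obtain ⟨ε, hεd⟩ : ∃ ε : ℝ, ε = min (min ε₁ ε₅) (min ε₆ (ε₂ / 10)) := ⟨_, rfl⟩
  have hε : 0 < ε := by
    rw [hεd]; exact lt_min (lt_min hε₁ hε₅) (lt_min hε₆ (by positivity))
  have hεε₁ : ε ≤ ε₁ := by rw [hεd]; exact (min_le_left _ _).trans (min_le_left _ _)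
  have hεε₅ : ε ≤ ε₅ := by rw [hεd]; exact (min_le_left _ _).trans (min_le_right _ _)
  have hεε₆ : ε ≤ ε₆ := by rw [hεd]; exact (min_le_right _ _).trans (min_le_left _ _)
  have hεε₂ : ε ≤ ε₂ / 10 := by rw [hεd]; exact (min_le_right _ _).trans (min_le_right _ _)
  have hε' : 0 < ε / (CW + 1) := by positivity
  obtain ⟨r, hrdef⟩ : ∃ r : ℝ, r = min (min r₅ r₆) (min (min r₁ r₂)
    (min (min r₃ r₄) (min 1 (ε / (CW + 1))))) := ⟨_, rfl⟩
  have hr : 0 < r := by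
    rw [hrdef]
    refine lt_min (lt_min hr₅ hr₆) (lt_min (lt_min hr₁ hr₂) (lt_min (lt_min hr₃ hr₄)
      (lt_min one_pos hε')))
  have hrr₅ : r ≤ r₅ := by rw [hrdef]; exact (min_le_left _ _).trans (min_le_left _ _)
  have hrr₆ : r ≤ r₆ := by rw [hrdef]; exact (min_le_left _ _).trans (min_le_right _ _)
  have hrx : r ≤ min (min r₁ r₂) (min (min r₃ r₄) (min 1 (ε / (CW + 1)))) := by
    rw [hrdef]; exact min_le_right _ _
  have hrr₁ : r ≤ r₁ := hrx.trans ((min_le_left _ _).trans (min_le_left _ _))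
  have hrr₂ : r ≤ r₂ := hrx.trans ((min_le_left _ _).trans (min_le_right _ _))
  have hrr₃ : r ≤ r₃ := hrx.trans ((min_le_right _ _).trans ((min_le_left _ _).trans
    (min_le_left _ _)))
  have hrr₄ : r ≤ r₄ := hrx.trans ((min_le_right _ _).trans ((min_le_left _ _).trans
    (min_le_right _ _)))
  have hr1 : r ≤ 1 := hrx.trans ((min_le_right _ _).trans ((min_le_right _ _).trans
    (min_le_left _ _)))
  have hrε : r ≤ ε / (CW + 1) := hrx.trans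
    ((min_le_right _ _).trans ((min_le_right _ _).trans (min_le_right _ _)))
  have hCWr : CW * r ^ 2 ≤ ε := by
    have h1 : r ^ 2 ≤ r := by nlinarith
    have h2 : r * (CW + 1) ≤ ε := (le_div_iff₀ (by positivity)).1 hrε
    nlinarith
  obtain ⟨hgr, h1, K, hh1, hK, hKN, hstep⟩ := hflow ε hε hεε₁ r hr hrr₁
  obtain ⟨kp, Kp, hkp, hKp, hpair⟩ := hpair ε hε hεε₅ r hr hrr₅
  obtain ⟨kl, Cl, cl, hkl, hCl, hcl, hlip⟩ := hlip r hr hrr₆ hgr
  obtain ⟨k0, C, hk0, hC, hwl⟩ := hwl r hr hrr₄ hgr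
  have hsc := fun H => Chain.sc (μ := μ) (C1 := K) (h0 := h1) hG hgr (by linarith) H
  obtain ⟨h2, ε₀, C', Dm, PF⟩ := pairFlow_of (μ := μ) (χ := χ) (h0 := h1) (C1 := K) hG hn hgr hr1
    hε₂ hε₂1 hεε₂ hε₆ hεε₆ hkp hKp hCl hcl hpair hlip
  refine ⟨PSt B μ r ε h1 K, QSt B r ε ε₂, max (max h1 k0) (2 * K), max (2 * K) C, CW, h2, ε₀, C',
    cl, Dm, ?_, PF⟩
  have m1 : h1 ≤ max (max h1 k0) (2 * K) := (le_max_left _ _).trans (le_max_left _ _)
  have m2 : k0 ≤ max (max h1 k0) (2 * K) := (le_max_right _ _).trans (le_max_left _ _)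
  have m3 : 2 * K ≤ max (max h1 k0) (2 * K) := le_max_right _ _
  have m4 : 2 * K ≤ max (2 * K) C := le_max_left _ _
  have m5 : C ≤ max (2 * K) C := le_max_right _ _
  refine ⟨by positivity, by linarith, by linarith, hA, hCW, fun f h ρ h => h.1, ?_, ?_,
    ?_, ?_⟩
  · -- start
    intro β hβ
    have hβ0 : 0 ≤ β := by linarith
    refine ⟨CW, le_rfl, hCW, wilC N β, mW B β, CF_wil β, fun x => Real.exp_pos _,
      hws r hr hrr₂ β hβ0, hwt r hr hrr₃ β hβ0, by positivity, by nlinarith, ?_⟩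
    exact Chain.base_wil hβ0 (m1.trans hβ) hKN
  · -- step
    intro f h ρ hP hh
    obtain ⟨hρ, hst⟩ := hP
    have hh0 : 0 < h := by linarith
    obtain ⟨k', M', a1, a2, a3, a4⟩ := hstep (m1.trans hh) hst
    have a2' := abs_le.1 a2
    have hk' : h / 2 ≤ k' := by linarith [a2'.1]
    have hk0' : 0 < k' := by linarith
    have hM' : 0 ≤ M' := by
      obtain ⟨F, m, _, _, _, _, h5, _⟩ := a4
      exact h5
    refine ⟨k', M' / k', ⟨by positivity, ?_⟩, ?_, ?_⟩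
    · rw [div_mul_cancel₀ _ hk0'.ne']
      exact a4
    · have e : k' - h + cA / 8 = k' - (h - cA / 8) := by ring
      rw [e]
      refine a1.trans ?_
      have e2 : K * (1 + ρ * h) / h = K * (ρ + 1 / h) := by
        field_simp
        ring
      rw [e2]
      refine mul_le_mul_of_nonneg_right ?_ (by positivity)
      linarith
    · rw [div_le_iff₀ hk0']
      have e3 : (ρ / 4 + max (2 * K) C / h) * (h / 2) = ρ * h / 8 + max (2 * K) C / 2 := by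
        field_simp
        ring
      have e4 : (ρ / 4 + max (2 * K) C / h) * (h / 2) ≤ (ρ / 4 + max (2 * K) C / h) * k' := by
        have : 0 ≤ ρ / 4 + max (2 * K) C / h := by
          have : 0 ≤ max (2 * K) C := by linarith
          positivity
        exact mul_le_mul_of_nonneg_left hk' this
      have e5 : 0 ≤ ρ * h := by positivity
      linarith
  · -- the observable
    intro f h ρ hP hh
    obtain ⟨hρ, F, m, b1, b2, b3, b4, b5, b6, b7⟩ := hP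
    have hh0 : 0 < h := by linarith
    refine (hwl (m2.trans hh) b5 (by nlinarith) b1 b2 b3 b4).trans ?_
    have e2 : C * (1 + ρ * h) / h ^ 2 = C * (ρ + 1 / h) / h := by
      field_simp
      ring
    rw [e2]
    refine div_le_div_of_nonneg_right (mul_le_mul_of_nonneg_right m5 (by positivity)) hh0.le
  · -- the entropy bound
    intro H
    obtain ⟨K', hK', hsc'⟩ := hsc H
    refine ⟨K', hK', fun f h ρ hP hh hH X x => ?_⟩
    obtain ⟨hρ, F, m, b1, b2, b3, b4, b5, b6, b7⟩ := hP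
    have hh0 : 0 < h := by linarith
    exact hsc' b7 (m1.trans hh) hH b1 b2 (by nlinarith) b3.nearS b4 X x

end

end Pool.Agent.N988.MK
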