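import Mathlib
import Pool.Agent.N988.MK.Pair9
import Pool.Agent.N991.MK.Lip8

/-!
# The weak coupling flow with the comparison of pairs, Wilson loops in a constituent
-/

open MeasureTheory Filter Metric Asymptotics Matrix
open scoped Matrix.Norms.Frobenius Topology ContDiff
open Pool.Agent.H906R3.YM Pool.Agent.W793.YM Pool.Agent.TH618.YM Pool.Agent.N984.TW
open Pool.Agent.N991.MK

namespace Pool.Agent.N988.MK

set_option linter.unusedSectionVars false

noncomputable section

variable {N n : ℕ} {G : Subgroup (UN N)}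
variable [CompactSpace G] [MeasurableSpace G] [BorelSpace G] [SecondCountableTopology G]

/-- a group with a non-commuting pair has a positive dimension -/
lemma frame_pos [ConnectedSpace G] (B : Frame G n) (hG : IsClosed (G : Set (UN N)))
    (hnc : ∃ g h : G, g * h ≠ h * g) : 0 < n := by
  rcases Nat.eq_zero_or_pos n with hn | hn
  · exfalso
    subst hn
    obtain ⟨m, hm⟩ := Pool.Agent.N989.MK.exists_gen B hG
      (isConnected_iff_connectedSpace.2 inferInstance)
    have h1 : ∀ x : G, x = 1 := by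
      intro x
      obtain ⟨l, _, _, hl⟩ := hm x
      rw [hl]
      refine List.prod_eq_one fun y hy => ?_
      obtain ⟨X, _, rfl⟩ := List.mem_map.1 hy
      have h0 : X = 0 := Subsingleton.elim _ _
      rw [h0]
      exact Eg_zero B hG
    obtain ⟨g, h, hgh⟩ := hnc
    exact hgh (by rw [h1 g, h1 h])
  · exact hn

/-- **the weak coupling flow with the comparison of pairs, Wilson loops in a constituent** -/
theorem weak_flowP2 [ConnectedSpace G] (B : Frame G n) (hG : IsClosed (G : Set (UN N)))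
    (μ : Measure G) [IsProbabilityMeasure μ] [μ.IsHaarMeasure] [μ.IsMulRightInvariant]
    [μ.IsInvInvariant] (hnc : ∃ g h : G, g * h ≠ h * g)
    (hs : ∀ H : Subgroup G, H.Normal → IsClosed (H : Set G) → Finite H ∨ H = ⊤)
    {P : Mat N} (hP : IPr G P) (hP0 : 0 < (trace P).re) (hPg : ∃ g : G, P * mt g ≠ P) :
    ∃ cA : ℝ, 0 < cA ∧
      (∀ x : Fin n → ℝ, ∑ a, ‖LX B x * B.X a - B.X a * LX B x‖ ^ 2 = cA * ∑ a, x a ^ 2) ∧
      ∃ (St : (G → ℝ) → ℝ → ℝ → Prop) (Q : (G → ℝ) → (G → ℝ) → ℝ → ℝ → ℝ → Prop)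
        (h0 C R h1 ε C' c0 : ℝ) (Dm : ℕ),
        Pool.Agent.N989.MK.Flow μ (chiP P : G → ℝ) (Pool.Agent.N989.MK.EDG B hG)
          (Pool.Agent.N989.MK.wz G) St (cA / 8) h0 C
          ((∑ a, ‖P * B.X a‖ ^ 2) / (2 * (trace P).re)) R ∧
        Pool.Agent.N989.MK.PairFlow μ (chiP P : G → ℝ) St Q h1 ε C' c0 Dm := by
  obtain ⟨cA, hcA0, hcA⟩ := exists_cA B hG hnc hs
  exact ⟨cA, hcA0, hcA, exists_flow2 (hG := hG) (by positivity) hnc hs
    (wil_lawP B hG μ hP hP0) (wilLipX B hG μ (isoG_of_simple B hG hnc hs) (frame_pos B hG hnc) hP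
      hP0 (exists_PX B hG hPg)) hcA0 hcA⟩

end

end Pool.Agent.N988.MK
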