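import Mathlib
import Pool.Agent.N988.MK.Tan8
import Pool.Agent.N991.MK.FlowU

/-!
# The weak coupling flow on the states with the strict tube bound
-/

open MeasureTheory Filter Metric Asymptotics Matrix
open scoped Matrix.Norms.Frobenius Topology ContDiff
open Pool.Agent.H906R3.YM Pool.Agent.W793.YM Pool.Agent.TH618.YM Pool.Agent.N984.TW
open Pool.Agent.N991.MK

namespace Pool.Agent.N988.MK

set_option linter.unusedSectionVars false

noncomputable section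

variable {N n : ℕ} {G : Subgroup (UN N)} {B : Frame G n}
variable [CompactSpace G] [MeasurableSpace G] [BorelSpace G]

lemma nf_Rst {μ : Measure G} [IsProbabilityMeasure μ] {f : G → ℝ} (hf1 : f 1 ≠ 0)
    (hW : conv μ (nf f) (nf f) 1 ≠ 0) :
    nf (Rst μ f) = fun x => nf (conv μ (nf (conv μ (nf f) (nf f)))
      (nf (conv μ (nf f) (nf f)))) x ^ 4 := by
  obtain ⟨φ, hφ⟩ : ∃ φ, φ = nf (conv μ (nf f) (nf f)) := ⟨_, rfl⟩
  rw [← hφ]
  have hc0 : f 1 ^ 2 * conv μ (nf f) (nf f) 1 ≠ 0 := mul_ne_zero (pow_ne_zero 2 hf1) hW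
  have u1 : ∀ x, conv μ f f x = (f 1 ^ 2 * conv μ (nf f) (nf f) 1) * φ x := by
    intro x
    rw [conv_sq_lin (eq_nf hf1) x, eq_nf hW x, hφ]
    ring
  funext x
  have h1 : Rst μ f = fun x => conv μ (conv μ f f) (conv μ f f) x ^ 4 := rfl
  rw [h1, nf_pow, nf_lin (pow_ne_zero 2 hc0) (fun x => conv_sq_lin u1 x) x]

variable (B) in
/-- **the renormalisation group step of a normalised state, with the strict tube bound** -/
theorem R_NS (μ : Measure G) [IsProbabilityMeasure μ] [μ.IsMulLeftInvariant]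
    [μ.IsMulRightInvariant] [μ.IsInvInvariant] (hG : IsClosed (G : Set (UN N))) (hI : IsoG B)
    (hn : 0 < n) :
    ∃ r₁ ε₁ : ℝ, 0 < r₁ ∧ 0 < ε₁ ∧ ∀ ε : ℝ, 0 < ε → ε ≤ ε₁ → ∀ r : ℝ, 0 < r → r ≤ r₁ →
      ∃ k₁ : ℝ, 1 ≤ k₁ ∧ ∀ {k M : ℝ} {f : G → ℝ} {F : (Mat N)ˣ → ℂ}
        {m : (Fin n → ℂ) → ℂ}, k₁ ≤ k → f 1 ≠ 0 → NS B r ε k M (nf f) F m →
        ∃ (k' M' : ℝ) (F' : (Mat N)ˣ → ℂ) (m' : (Fin n → ℂ) → ℂ),
          NS B r ε k' M' (nf (Rst μ f)) F' m' ∧ TubeS B r k' F' := by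
  obtain ⟨r₁, ε₁, hr₁, -, hε₁, -, hD⟩ := conv_NS B μ hG hI hn
  refine ⟨r₁, ε₁, hr₁, hε₁, fun ε hε0 hε r hr hrr => ?_⟩
  obtain ⟨-, ka, K, hka, hK, hD⟩ := hD ε hε0 hε r hr hrr
  refine ⟨2 * ka + 2 * K, by linarith, fun {k M f F m} hk hf1 hN => ?_⟩
  obtain ⟨hW, k1, M1, m1, a1, a2, N1, S1, -⟩ := hD (by linarith : ka ≤ k) hN
  have a1' := abs_le.1 a1
  obtain ⟨hW2, k2, M2, m2, b1, b2, N2, S2, -⟩ := hD (by linarith : ka ≤ k1) N1
  have P := N2.pow4
  rw [nf_Rst hf1 hW.ne']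
  exact ⟨4 * k2, 4 * M2, _, _, P, S2.pow4⟩

/-- **the weak coupling flow on the states with the strict tube bound** -/
theorem flowPT [SecondCountableTopology G] {μ : Measure G} [IsProbabilityMeasure μ]
    [μ.IsHaarMeasure] [μ.IsMulRightInvariant] [μ.IsInvInvariant] [ConnectedSpace G]
    {hG : IsClosed (G : Set (UN N))} {χ : G → ℝ} {A : ℝ} (hA : 0 ≤ A)
    (hnc : ∃ g h : G, g * h ≠ h * g)
    (hs : ∀ H : Subgroup G, H.Normal → IsClosed (H : Set G) → Finite H ∨ H = ⊤)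
    (hW : WilLawX B μ χ A) {cA : ℝ} (hcA0 : 0 < cA)
    (hcA : ∀ x : Fin n → ℝ,
      ∑ a, ‖LX B x * B.X a - B.X a * LX B x‖ ^ 2 = cA * ∑ a, x a ^ 2)
    {r₂ CW Λ : ℝ} (hr₂ : 0 < r₂) (hCW : 0 ≤ CW) :
    ∃ r₁ ε₁ : ℝ, 0 < r₁ ∧ 0 < ε₁ ∧ ∀ ε : ℝ, 0 < ε → ε ≤ ε₁ → ∀ r : ℝ, 0 < r → r ≤ r₁ →
      CW * r ^ 2 ≤ ε → ∃ h1 K h0 C : ℝ, 1 ≤ h1 ∧ 0 ≤ K ∧
      ∀ (w : ℝ → G → ℝ) (W : ℝ → (Mat N)ˣ → ℂ) (mw : ℝ → (Fin n → ℂ) → ℂ),
        Ent B w W mw r₂ CW Λ → Pool.Agent.N989.MK.Flow μ χ (Pool.Agent.N989.MK.EDG B hG)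
          w (PT B μ r ε h1 K) (cA / 8) h0 C A CW := by
  have hI : IsoG B := isoG_of_simple B hG hnc hs
  have hn : 0 < n := frame_pos B hG hnc
  have hcA' : ∀ x : Fin n → ℝ, ∑ a, ‖LX B x * B.X a - B.X a * LX B x‖ ^ 2 = cA * nE x ^ 2 :=
    fun x => by rw [hcA x, Pool.Agent.N991.MK.nE_sq]
  obtain ⟨r₁, ε₁, hr₁, hε₁, hε1, hflow⟩ := flow_R (B := B) μ hG hI hn hcA' Λ
  obtain ⟨r₃, ε₃, hr₃, hε₃, hRN⟩ := R_NS B μ hG hI hn
  obtain ⟨r₄, hr₄, hwl⟩ := hW
  refine ⟨min (min (r₁ / 2) (r₂ / 2)) (min r₃ (min r₄ 1)), min (min ε₁ ε₃) (1 / 4000),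
    by positivity, by positivity, fun ε hε hεε r hr hrr hCWr => ?_⟩
  have q1 : r ≤ r₁ / 2 := hrr.trans ((min_le_left _ _).trans (min_le_left _ _))
  have q2 : r ≤ r₂ / 2 := hrr.trans ((min_le_left _ _).trans (min_le_right _ _))
  have q3 : r ≤ r₃ := hrr.trans ((min_le_right _ _).trans (min_le_left _ _))
  have q4 : r ≤ r₄ :=
    hrr.trans ((min_le_right _ _).trans ((min_le_right _ _).trans (min_le_left _ _)))
  have hr1 : r ≤ 1 :=
    hrr.trans ((min_le_right _ _).trans ((min_le_right _ _).trans (min_le_right _ _)))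
  have e1 : ε ≤ ε₁ := hεε.trans ((min_le_left _ _).trans (min_le_left _ _))
  have e3 : ε ≤ ε₃ := hεε.trans ((min_le_left _ _).trans (min_le_right _ _))
  have e4 : ε ≤ 1 / 4000 := hεε.trans (min_le_right _ _)
  have hr2 : 0 < r ^ 2 := by positivity
  obtain ⟨hgr, h1, K, hh1, hK, hKN, hstep⟩ := hflow ε hε e1 r hr (by linarith)
  obtain ⟨hgr2, -⟩ := hflow ε hε e1 (2 * r) (by linarith) (by linarith)
  obtain ⟨k5, hk5, hRN⟩ := hRN ε hε e3 r hr q3
  obtain ⟨k0, C, hk0, hC, hwl⟩ := hwl r hr q4 hgr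
  have hsc := fun H => Chain.sc (μ := μ) (C1 := K) (h0 := h1) hG hgr (by linarith) H
  refine ⟨h1, K, max (max (max h1 k0) (2 * K)) (max k5 (320 / r ^ 2)), max (2 * K) C, hh1, hK,
    fun w W mw E => ?_⟩
  have m0 : max (max h1 k0) (2 * K) ≤ max (max (max h1 k0) (2 * K)) (max k5 (320 / r ^ 2)) :=
    le_max_left _ _
  have m1 : h1 ≤ max (max (max h1 k0) (2 * K)) (max k5 (320 / r ^ 2)) :=
    ((le_max_left _ _).trans (le_max_left _ _)).trans m0
  have m2 : k0 ≤ max (max (max h1 k0) (2 * K)) (max k5 (320 / r ^ 2)) :=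
    ((le_max_right _ _).trans (le_max_left _ _)).trans m0
  have m3 : 2 * K ≤ max (max (max h1 k0) (2 * K)) (max k5 (320 / r ^ 2)) :=
    (le_max_right _ _).trans m0
  have m6 : k5 ≤ max (max (max h1 k0) (2 * K)) (max k5 (320 / r ^ 2)) :=
    (le_max_left _ _).trans (le_max_right _ _)
  have m7 : 320 / r ^ 2 ≤ max (max (max h1 k0) (2 * K)) (max k5 (320 / r ^ 2)) :=
    (le_max_right _ _).trans (le_max_right _ _)
  have m4 : 2 * K ≤ max (2 * K) C := le_max_left _ _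
  have m5 : C ≤ max (2 * K) C := le_max_right _ _
  refine ⟨by positivity, by linarith, by linarith, hA, hCW, fun f h ρ h => h.1.1, ?_, ?_,
    ?_, ?_⟩
  · -- start
    intro β hβ
    have hβ0 : 0 ≤ β := by linarith
    have hbase : PSt B μ r ε h1 K (w β) β CW :=
      ⟨hCW, W β, mw β, E.cf β hβ0, E.pos β,
        E.st r hr (by linarith) β hβ0, E.tube r hr (by linarith) β hβ0, by positivity, by nlinarith,
        Chain.base _ _ _ _ (m1.trans hβ) ((E.low β hβ0).mono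
          (Real.exp_le_exp.2 (neg_le_neg (mul_le_mul_of_nonneg_right hKN hβ0))))⟩
    refine ⟨CW, le_rfl, hbase, W β, E.cf β hβ0, ?_⟩
    refine tubeS_of_two hgr2 (E.st (2 * r) (by linarith) (by linarith) β hβ0).nearS
      (E.tube (2 * r) (by linarith) (by linarith) β hβ0) ?_ (m7.trans hβ)
    have t1 : CW * β * (2 * r) ^ 2 = 4 * (CW * r ^ 2) * β := by ring
    rw [t1]
    have t2 : 4 * (CW * r ^ 2) * β ≤ 4 * (1 / 4000) * β := by gcongr; linarith
    linarith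
  · -- step
    intro f h ρ hP hh
    obtain ⟨hρ0, hf1, F0, m0', hN, -⟩ := PT_ns hG hP
    obtain ⟨⟨hρ, hst⟩, -⟩ := hP
    have hh0 : 0 < h := by linarith
    obtain ⟨k', M', a1, a2, a3, a4⟩ := hstep (m1.trans hh) hst
    have a2' := abs_le.1 a2
    have hk' : h / 2 ≤ k' := by linarith [a2'.1]
    have hk0' : 0 < k' := by linarith
    obtain ⟨F', m', x1, x2, x3, x4, x5, x6, x7⟩ := a4
    obtain ⟨k'', M'', F'', m'', N'', S''⟩ := hRN (m6.trans hh) hf1.ne' hN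
    have hk'' : k'' = k' := by
      refine coupling_uniq hG hr hn (c := Rst μ f 1) (x2 1) ?_ N'' x1 x3
      funext x
      exact eq_nf (x2 1).ne' x
    subst hk''
    refine ⟨k'', M' / k'', ⟨⟨by positivity, ?_⟩, ?_⟩, ?_, ?_⟩
    · rw [div_mul_cancel₀ _ hk0'.ne']
      exact ⟨F', m', x1, x2, x3, x4, x5, x6, x7⟩
    · have hcf := cf_smul N''.cf (Rst μ f 1)
      have e : (fun x => Rst μ f 1 * nf (Rst μ f) x) = Rst μ f := by
        funext x
        exact (eq_nf (x2 1).ne' x).symm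
      rw [e] at hcf
      exact ⟨_, hcf, S''.smul _⟩
    · have e : k'' - h + cA / 8 = k'' - (h - cA / 8) := by ring
      rw [e]
      refine a1.trans ?_
      have e2 : K * (1 + ρ * h) / h = K * (ρ + 1 / h) := by
        field_simp
        ring
      rw [e2]
      refine mul_le_mul_of_nonneg_right ?_ (by positivity)
      linarith
    · rw [div_le_iff₀ hk0']
      have e3 : (ρ / 4 + max (2 * K) C / h) * (h / 2) = ρ * h / 8 + max (2 * K) C / 2 := by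
        field_simp
        ring
      have e4 : (ρ / 4 + max (2 * K) C / h) * (h / 2) ≤ (ρ / 4 + max (2 * K) C / h) * k'' := by
        have : 0 ≤ ρ / 4 + max (2 * K) C / h := by
          have : 0 ≤ max (2 * K) C := by linarith
          positivity
        exact mul_le_mul_of_nonneg_left hk' this
      have e5 : 0 ≤ ρ * h := by positivity
      linarith
  · -- the observable
    intro f h ρ hP hh
    obtain ⟨⟨hρ, F, m, b1, b2, b3, b4, b5, b6, b7⟩, -⟩ := hP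
    have hh0 : 0 < h := by linarith
    refine (hwl (m2.trans hh) b5 (by nlinarith) b1 b2 b3 b4).trans ?_
    have e2 : C * (1 + ρ * h) / h ^ 2 = C * (ρ + 1 / h) / h := by
      field_simp
      ring
    rw [e2]
    refine div_le_div_of_nonneg_right (mul_le_mul_of_nonneg_right m5 (by positivity)) hh0.le
  · -- the entropy bound
    intro H
    obtain ⟨K', hK', hsc'⟩ := hsc H
    refine ⟨K', hK', fun f h ρ hP hh hH X x => ?_⟩
    obtain ⟨⟨hρ, F, m, b1, b2, b3, b4, b5, b6, b7⟩, -⟩ := hP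
    have hh0 : 0 < h := by linarith
    exact hsc' b7 (m1.trans hh) hH b1 b2 (by nlinarith) b3.nearS b4 X x

end

end Pool.Agent.N988.MK
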