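import Mathlib
import Pool.Agent.N988.MK.Tan10
import Pool.Agent.N988.MK.Tan11
import Pool.Agent.N988.MK.Tan12
import Pool.Agent.N988.MK.Tan13
import Pool.Agent.N988.MK.Tan9
import Pool.Agent.N991.MK.TwoCas
import Pool.Agent.N991.MK.TwoSix

/-!
# The weak coupling flow with its tangent flow
-/

open MeasureTheory Filter Metric Asymptotics Matrix
open scoped Matrix.Norms.Frobenius Topology ContDiff
open Pool.Agent.H906R3.YM Pool.Agent.W793.YM Pool.Agent.TH618.YM Pool.Agent.N984.TW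
open Pool.Agent.N991.MK

namespace Pool.Agent.N988.MK

set_option linter.unusedSectionVars false

noncomputable section

variable {N n : ℕ} {G : Subgroup (UN N)} {B : Frame G n}
variable [CompactSpace G] [MeasurableSpace G] [BorelSpace G] [SecondCountableTopology G]
  {μ : Measure G} [IsProbabilityMeasure μ] [μ.IsHaarMeasure] [μ.IsMulRightInvariant]
  [μ.IsInvInvariant]

/-- **the tangent flow of every class function** -/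
theorem exists_tanFlow (μ : Measure G) [IsProbabilityMeasure μ] [μ.IsHaarMeasure]
    [μ.IsMulRightInvariant] [μ.IsInvInvariant] (hG : IsClosed (G : Set (UN N))) (hI : IsoG B)
    (hn : 0 < n) {cA : ℝ}
    (hcA : ∀ x : Fin n → ℝ, ∑ a, ‖LX B x * B.X a - B.X a * LX B x‖ ^ 2 = cA * nE x ^ 2)
    (h6 : H6 B) (hcas : CasPair B cA) :
    ∃ r₁ ε₁ : ℝ, 0 < r₁ ∧ r₁ ≤ 1 ∧ 0 < ε₁ ∧ ε₁ ≤ 1 / 2000 ∧ ∀ ε : ℝ, 0 < ε → ε ≤ ε₁ →
      ∀ r : ℝ, 0 < r → r ≤ r₁ → GoodR B r ∧ ∀ h0 C1 : ℝ, ∀ {o : G → ℝ} {O : (Mat N)ˣ → ℂ}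
        {κ C2 : ℝ}, CF o O → 0 ≤ C2 →
        (∀ x : Fin n → ℂ, nC x < 1 → ‖O 1 - O (uE B x) - κ / 2 * qC x‖ ≤ C2 * nC x ^ 4) →
        ∃ h1 C' : ℝ, 1 ≤ h1 ∧
          Pool.Agent.N681.MK.TanFlow μ (PT B μ r ε h0 C1) (TSt B r) o κ h1 C' 0 := by
  obtain ⟨r₁, ε₁, hr₁, hr₁1, hε₁, hε₁2, hD⟩ := exists_linC (B := B) μ hG hI hn hcA h6 hcas
  refine ⟨r₁, ε₁, hr₁, hr₁1, hε₁, hε₁2, fun ε hε hεε r hr hrr => ?_⟩
  obtain ⟨hgr, k₀, K, hk₀, hK, LC⟩ := hD ε hε hεε r hr hrr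
  refine ⟨hgr, fun h0 C1 {o O κ C2} hcf hC2 h2 => ?_⟩
  obtain ⟨C3, -, h3⟩ := cf_tube_bd (B := B) hcf
  exact tanFlow_of hG hn hr (by linarith) hk₀ hK LC (Ci := max C2 C3) (Cc := 1)
    (fun {f h ρ} hP => tst_init hgr hP hcf hC2 h2 h3)
    (fun {f g h ρ a l} hh hP T x => by
      rw [one_mul]
      exact T.close hG hgr (by linarith) hP x)

/-- **the weak coupling flow with its tangent flow** -/
theorem weak_flowT [ConnectedSpace G] (B : Frame G n) (hG : IsClosed (G : Set (UN N)))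
    (μ : Measure G) [IsProbabilityMeasure μ] [μ.IsHaarMeasure] [μ.IsMulRightInvariant]
    [μ.IsInvInvariant] (hnc : ∃ g h : G, g * h ≠ h * g)
    (hs : ∀ H : Subgroup G, H.Normal → IsClosed (H : Set G) → Finite H ∨ H = ⊤)
    {P : Mat N} (hP : IPr G P) (hP0 : 0 < (trace P).re) {cA : ℝ} (hcA0 : 0 < cA)
    (hcA : ∀ x : Fin n → ℝ, ∑ a, ‖LX B x * B.X a - B.X a * LX B x‖ ^ 2 = cA * ∑ a, x a ^ 2)
    {r₂ CW Λ : ℝ} (hr₂ : 0 < r₂) (hCW : 0 ≤ CW) :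
    ∃ r₁ ε₁ : ℝ, 0 < r₁ ∧ r₁ ≤ 1 ∧ 0 < ε₁ ∧ ε₁ ≤ 1 / 4000 ∧ ∀ ε : ℝ, 0 < ε → ε ≤ ε₁ →
      ∀ r : ℝ, 0 < r → r ≤ r₁ → CW * r ^ 2 ≤ ε → GoodR B r ∧
      ∃ h1 K h0 C : ℝ, 1 ≤ h1 ∧ 0 ≤ K ∧
      (∀ (w : ℝ → G → ℝ) (W : ℝ → (Mat N)ˣ → ℂ) (mw : ℝ → (Fin n → ℂ) → ℂ),
        Ent B w W mw r₂ CW Λ → Pool.Agent.N989.MK.Flow μ (chiP P : G → ℝ)
          (Pool.Agent.N989.MK.EDG B hG) w (PT B μ r ε h1 K) (cA / 8) h0 C
          ((∑ a, ‖P * B.X a‖ ^ 2) / (2 * (trace P).re)) CW) ∧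
      (∀ (o : G → ℝ) (O : (Mat N)ˣ → ℂ) (κ C2 : ℝ), CF o O → 0 ≤ C2 →
        (∀ x : Fin n → ℂ, nC x < 1 → ‖O 1 - O (uE B x) - κ / 2 * qC x‖ ≤ C2 * nC x ^ 4) →
        ∃ h2 C' : ℝ, 1 ≤ h2 ∧
          Pool.Agent.N681.MK.TanFlow μ (PT B μ r ε h1 K) (TSt B r) o κ h2 C' 0) := by
  have hI : IsoG B := isoG_of_simple B hG hnc hs
  have hn : 0 < n := frame_pos B hG hnc
  have hcA' : ∀ x : Fin n → ℝ, ∑ a, ‖LX B x * B.X a - B.X a * LX B x‖ ^ 2 = cA * nE x ^ 2 :=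
    fun x => by rw [hcA x, Pool.Agent.N991.MK.nE_sq]
  obtain ⟨ra, εa, hra, hεa, hA⟩ := flowPT (B := B) (μ := μ) (hG := hG)
    (A := (∑ a, ‖P * B.X a‖ ^ 2) / (2 * (trace P).re)) (by positivity) hnc hs
    (wil_lawP B hG μ hP hP0) hcA0 hcA (r₂ := r₂) (CW := CW) (Λ := Λ) hr₂ hCW
  obtain ⟨rb, εb, hrb, hrb1, hεb, hεb2, hB⟩ := exists_tanFlow (B := B) μ hG hI hn hcA' (h6_all B)
    (casPair hG hcA)
  refine ⟨min ra rb, min (min εa εb) (1 / 4000), lt_min hra hrb, (min_le_right _ _).trans hrb1,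
    by positivity, min_le_right _ _, fun ε hε hεε r hr hrr hCWr => ?_⟩
  obtain ⟨h1, K, h0, C, hh1, hK, hF⟩ := hA ε hε
    (hεε.trans ((min_le_left _ _).trans (min_le_left _ _))) r hr (hrr.trans (min_le_left _ _)) hCWr
  obtain ⟨hgr, hT⟩ := hB ε hε (hεε.trans ((min_le_left _ _).trans (min_le_right _ _))) r hr
    (hrr.trans (min_le_right _ _))
  exact ⟨hgr, h1, K, h0, C, hh1, hK, hF, fun o O κ C2 hcf hC2 h2 => hT h1 K hcf hC2 h2⟩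

end

end Pool.Agent.N988.MK
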