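import Mathlib
import Pool.Agent.N988.MK.S4

/-!
# Polynomial class functions as bare operators
-/

open MeasureTheory Filter Metric Asymptotics Matrix
open scoped Matrix.Norms.Frobenius Topology ContDiff
open Pool.Agent.H906R3.YM Pool.Agent.W793.YM Pool.Agent.TH618.YM Pool.Agent.N984.TW
open Pool.Agent.N991.MK

namespace Pool.Agent.N988.MK

set_option linter.unusedSectionVars false

noncomputable section

variable {N n : ℕ} {G : Subgroup (UN N)} {B : Frame G n}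
variable [CompactSpace G] [MeasurableSpace G] [BorelSpace G]

/-- **the near form of a polynomial class function of given curvature** -/
theorem obs_pol (hG : IsClosed (G : Set (UN N))) (hI : IsoG B) (hn : 0 < n) (μ : Measure G)
    [IsProbabilityMeasure μ] [μ.IsMulLeftInvariant] [μ.IsMulRightInvariant] [μ.IsInvInvariant]
    {o : G → ℝ} (hpol : IsPol o) (hcls : ∀ g h : G, o (h * g * h⁻¹) = o g)
    (hsym : ∀ g : G, o g⁻¹ = o g) {κ : ℝ}
    (hκ : ∀ (a : Fin n) (γ : ℝ → G), (∀ t, mt (γ t) = NormedSpace.exp (t • B.X a)) →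
      Tendsto (fun t => (o 1 - o (γ t)) / t ^ 2) (𝓝[≠] 0) (𝓝 (κ / 2))) :
    ∃ (O : (Mat N)ˣ → ℂ) (C : ℝ), CF o O ∧ 0 ≤ C ∧
      ∀ x : Fin n → ℂ, nC x < 1 → ‖O 1 - O (uE B x) - κ / 2 * qC x‖ ≤ C * nC x ^ 4 := by
  obtain ⟨p, hp⟩ := hpol
  have hcf : CF o (syC μ p) := CF_syC μ p hp hcls hsym
  obtain ⟨κ₀, C, hC, hnear⟩ := near_form (B := B) hG hI hcf
  have hγ : ∀ t : ℝ, mt (Eg B hG (t • Pi.single (⟨0, hn⟩ : Fin n) (1 : ℝ))) =
      NormedSpace.exp (t • B.X ⟨0, hn⟩) := by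
    intro t
    rw [mt_Eg]
    unfold EM
    rw [LX_smul]
    congr 2
    unfold LX
    simp [Pi.single_apply]
  have h1 := hess_wS hG hcf hnear ⟨0, hn⟩ _ hγ
  have h2 := hκ ⟨0, hn⟩ _ hγ
  have h3 := tendsto_nhds_unique h1 h2
  have h4 : κ₀ = κ := by linarith
  subst h4
  exact ⟨_, C, hcf, hC, hnear⟩

end

end Pool.Agent.N988.MK
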