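import Mathlib
import Pool.Agent.N989.MK.Cov
import Pool.Agent.N989.MK.Bare
import Pool.Agent.N989.MK.Setup
import Pool.Agent.N988.MK.S4
import Pool.Agent.N991.MK.Iso

/-!
# Exponential clustering at every coupling for every admissible action
-/

open MeasureTheory Matrix Filter Pool.Agent.N991.MK Pool.Agent.N988.MK
open scoped Matrix.Norms.Frobenius Topology
open Pool.Agent.H906R3.YM Pool.Agent.W793.YM Pool.Agent.TH618.YM Pool.Agent.N984.TW

namespace Pool.Agent.N988.MK.Sup

open Pool.Agent.N989.MK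

set_option linter.unusedSectionVars false

noncomputable section

variable {N n : ℕ} {G : Subgroup (UN N)} [MeasurableSpace G] [BorelSpace G] {μ : Measure G}
  [IsProbabilityMeasure μ] [μ.IsHaarMeasure]

/-- a group with a non-commuting pair has a positive dimension -/
lemma frame_pos' [CompactSpace G] [ConnectedSpace G] (B : Frame G n)
    (hG : IsClosed (G : Set (UN N))) (hnc : ∃ g h : G, g * h ≠ h * g) : 0 < n := by
  rcases Nat.eq_zero_or_pos n with hn | hn
  · exfalso
    subst hn
    obtain ⟨m, hm⟩ := Pool.Agent.N989.MK.exists_gen B hG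
      (isConnected_iff_connectedSpace.2 inferInstance)
    have h1 : ∀ x : G, x = 1 := by
      intro x
      obtain ⟨l, _, _, hl⟩ := hm x
      rw [hl]
      refine List.prod_eq_one fun y hy => ?_
      obtain ⟨X, _, rfl⟩ := List.mem_map.1 hy
      have h0 : X = 0 := Subsingleton.elim _ _
      rw [h0]
      exact Eg_zero B hG
    obtain ⟨g, h, hgh⟩ := hnc
    exact hgh (by rw [h1 g, h1 h])
  · exact hn

/-- **exponential clustering for every admissible action at every coupling** -/
theorem gap_main (hG : SimpleGroup G) {X : Fin n → Matrix (Fin N) (Fin N) ℂ}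
    (hX : LieBasis G X) : ∀ S : G → ℝ, BareAction G S → ∀ β, 0 < β →
      ∃ C c : ℝ, 0 < c ∧ ∀ (k : ℕ) (p q : Pq k) (f g : G → ℝ),
        Continuous f → (∀ h x, f (h * x * h⁻¹) = f x) → (∀ x, |f x| ≤ 1) →
        Continuous g → (∀ h x, g (h * x * h⁻¹) = g x) → (∀ x, |g x| ≤ 1) →
        |Cv μ (bw S β) k p q f g| ≤ C * Real.exp (-(c * 4 ^ anc k p q)) := by
  have hGc : IsClosed (G : Set (UN N)) := hG.closed
  have : CompactSpace G := isCompact_iff_compactSpace.1 hGc.isCompact
  have : ConnectedSpace G := isConnected_iff_connectedSpace.1 hG.connected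
  have := haar_right μ
  have := haar_inv μ
  obtain ⟨B, rfl⟩ := exists_frame_of X hX.mem hX.orth hX.full
  have hIs : IsoG B := isoG_of_simple B hGc hG.nonabelian hG.simple
  have hn : 0 < n := frame_pos' B hGc hG.nonabelian
  obtain ⟨m, hg⟩ := exists_gen B hGc hG.connected
  intro S hS β hβ
  obtain ⟨κ, W, mw, r0, CW, Λ, K, hκ, hK, hE, hsc, hct, -⟩ := ent_pol (B := B) hGc hIs hn μ
    (S := S) hS.poly (fun g h => hS.cls h g) hS.sym hS.max
  have hb : 0 < κ * β := mul_pos hκ hβ
  have hadm : Adm (wS S κ (κ * β)) :=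
    ⟨hct.comp (continuous_const.prodMk continuous_id), fun _ => Real.exp_pos _,
      fun g x => by unfold wS; rw [hS.cls], fun x => by unfold wS; rw [hS.sym]⟩
  have hbw : bw S β = wS S κ (κ * β) := by
    funext g
    unfold bw wS
    congr 1
    field_simp
  obtain ⟨c, hc, h1⟩ := clustering (μ := μ) hg (mul_nonneg hK hb.le)
  rw [hbw]
  exact ⟨18, c, hc, fun k p q f g => h1 _ hadm (hsc _ hb.le) k p q f g⟩

omit [MeasurableSpace G] [BorelSpace G] in
/-- the curvature is unique -/
theorem curv_unique {X : Fin n → Matrix (Fin N) (Fin N) ℂ} (hX : LieBasis G X) (hn : 0 < n)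
    {S : G → ℝ} {κ κ' : ℝ} (h : Curv X S κ) (h' : Curv X S κ') : κ = κ' := by
  choose γ hγ using fun t : ℝ => hX.mem ⟨0, hn⟩ t
  have h1 := tendsto_nhds_unique (h ⟨0, hn⟩ γ hγ) (h' ⟨0, hn⟩ γ hγ)
  linarith

end

end Pool.Agent.N988.MK.Sup
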